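import Pool.Agent.Lib.MP_d0d59f_nt.Sub.PolyNorm

/-!
The index of a polynomial; separation of one variable.
-/

section

namespace Pool.Agent.Lib.MP_d0d59f_nt.Sb

open MvPolynomial

/-- all monomials `e` of `F (X + ξ)` have `θ ≤ ∑ e i / d i` -/
def IdxGe {τ : Type} [Fintype τ] (d : τ → ℕ) (ξ : τ → ℚ) (θ : ℝ) (F : MvPolynomial τ ℚ) : Prop :=
  ∀ e ∈ (shift ξ F).support, θ ≤ ∑ i, (e i : ℝ) / d i

variable {τ : Type} [Fintype τ] [DecidableEq τ] {d : τ → ℕ} {ξ : τ → ℚ}

theorem IdxGe.mono {θ θ' : ℝ} (h : θ' ≤ θ) {F : MvPolynomial τ ℚ} (hF : IdxGe d ξ θ F) :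
    IdxGe d ξ θ' F := fun e he => h.trans (hF e he)

theorem idxGe_of_nonpos {θ : ℝ} (h : θ ≤ 0) (F : MvPolynomial τ ℚ) : IdxGe d ξ θ F := by
  intro e _
  refine h.trans ?_
  exact Finset.sum_nonneg fun i _ => by positivity

theorem IdxGe.add {θ : ℝ} {F G : MvPolynomial τ ℚ} (hF : IdxGe d ξ θ F) (hG : IdxGe d ξ θ G) :
    IdxGe d ξ θ (F + G) := by
  intro e he
  rw [map_add] at he
  rcases Finset.mem_union.1 (MvPolynomial.support_add he) with h | h
  · exact hF e h
  · exact hG e h

theorem IdxGe.sum {θ : ℝ} {ι : Type} (s : Finset ι) {F : ι → MvPolynomial τ ℚ}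
    (hF : ∀ i ∈ s, IdxGe d ξ θ (F i)) : IdxGe d ξ θ (∑ i ∈ s, F i) := by
  classical
  induction s using Finset.induction_on with
  | empty =>
    intro e he
    rw [Finset.sum_empty, map_zero, MvPolynomial.support_zero] at he
    exact absurd he (Finset.notMem_empty _)
  | insert a s ha ih =>
    rw [Finset.sum_insert ha]
    exact (hF a (Finset.mem_insert_self a s)).add
      (ih fun i hi => hF i (Finset.mem_insert_of_mem hi))

theorem IdxGe.mul {θ η : ℝ} {F G : MvPolynomial τ ℚ} (hF : IdxGe d ξ θ F) (hG : IdxGe d ξ η G) :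
    IdxGe d ξ (θ + η) (F * G) := by
  intro e he
  rw [map_mul] at he
  obtain ⟨e1, h1, e2, h2, rfl⟩ := Finset.mem_add.1 (MvPolynomial.support_mul _ _ he)
  have h3 := hF e1 h1
  have h4 := hG e2 h2
  have h5 : ∑ i, (((e1 + e2) i : ℕ) : ℝ) / d i = ∑ i, (e1 i : ℝ) / d i + ∑ i, (e2 i : ℝ) / d i := by
    rw [← Finset.sum_add_distrib]
    refine Finset.sum_congr rfl fun i _ => ?_
    rw [Finsupp.add_apply, Nat.cast_add, add_div]
  rw [h5]
  exact add_le_add h3 h4

theorem indexA_one : IdxGe d ξ 0 (1 : MvPolynomial τ ℚ) := idxGe_of_nonpos le_rfl _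

theorem IdxGe.prod {ι : Type} (s : Finset ι) {θ : ι → ℝ} {F : ι → MvPolynomial τ ℚ}
    (hF : ∀ i ∈ s, IdxGe d ξ (θ i) (F i)) : IdxGe d ξ (∑ i ∈ s, θ i) (∏ i ∈ s, F i) := by
  classical
  induction s using Finset.induction_on with
  | empty =>
    rw [Finset.sum_empty, Finset.prod_empty]
    exact indexA_one
  | insert a s ha ih =>
    rw [Finset.sum_insert ha, Finset.prod_insert ha]
    exact (hF a (Finset.mem_insert_self a s)).mul
      (ih fun i hi => hF i (Finset.mem_insert_of_mem hi))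

theorem indexA_neg {θ : ℝ} {F : MvPolynomial τ ℚ} (hF : IdxGe d ξ θ F) : IdxGe d ξ θ (-F) := by
  intro e he
  rw [map_neg, MvPolynomial.support_neg] at he
  exact hF e he

/-- `Matrix.det_apply` -/
theorem IdxGe.det {k : ℕ} {θ : Fin k → ℝ} {W : Matrix (Fin k) (Fin k) (MvPolynomial τ ℚ)}
    (h : ∀ i j, IdxGe d ξ (θ j) (W i j)) : IdxGe d ξ (∑ j, θ j) W.det := by
  rw [Matrix.det_apply]
  refine IdxGe.sum _ fun σ _ => ?_
  have h1 : IdxGe d ξ (∑ j, θ j) (∏ i, W (σ i) i) := IdxGe.prod _ fun i _ => h (σ i) i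
  rcases Int.units_eq_one_or (Equiv.Perm.sign σ) with hs | hs
  · rw [hs, one_smul]; exact h1
  · rw [hs, Units.neg_smul, one_smul]; exact indexA_neg h1

end Pool.Agent.Lib.MP_d0d59f_nt.Sb

end

section

namespace Pool.Agent.Lib.MP_d0d59f_nt.Sb

open MvPolynomial

variable {τ : Type} [Fintype τ] [DecidableEq τ] {d : τ → ℕ} {ξ : τ → ℚ}

/-- `shift_hasse`, `coeff_hasse`: if `f` is a monomial of `hasse D (shift ξ F)` then `f + D` is one of
`shift ξ F`. -/
theorem IdxGe.hasse {θ : ℝ} {F : MvPolynomial τ ℚ} (hF : IdxGe d ξ θ F) (D : τ →₀ ℕ) :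
    IdxGe d ξ (θ - ∑ i, (D i : ℝ) / d i) (hasse D F) := by
  intro e he
  rw [shift_hasse, MvPolynomial.mem_support_iff, coeff_hasse] at he
  have h1 : e + D ∈ (shift ξ F).support := MvPolynomial.mem_support_iff.2 (left_ne_zero_of_mul he)
  have h2 := hF _ h1
  have h3 : ∑ i, (((e + D) i : ℕ) : ℝ) / d i = ∑ i, (e i : ℝ) / d i + ∑ i, (D i : ℝ) / d i := by
    rw [← Finset.sum_add_distrib]
    refine Finset.sum_congr rfl fun i _ => ?_
    rw [Finsupp.add_apply, Nat.cast_add, add_div]
  rw [h3] at h2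
  linarith

/-- multiplication of all the degrees by `k > 0` divides the index by `k` -/
theorem IdxGe.scale {θ : ℝ} {F : MvPolynomial τ ℚ} {k : ℕ} (hk : 0 < k)
    (hF : IdxGe d ξ (k * θ) F) : IdxGe (fun i => k * d i) ξ θ F := by
  intro e he
  have h1 := hF e he
  have hk' : (0 : ℝ) < k := by exact_mod_cast hk
  have h2 : ∑ i, (e i : ℝ) / ((k * d i : ℕ) : ℝ) = (∑ i, (e i : ℝ) / d i) / k := by
    rw [Finset.sum_div]
    refine Finset.sum_congr rfl fun i _ => ?_
    rw [Nat.cast_mul, div_div, mul_comm (k : ℝ)]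
  rw [h2, le_div_iff₀ hk']
  linarith

theorem idxGe_C_mul {θ : ℝ} {F : MvPolynomial τ ℚ} {c : ℚ} (hc : c ≠ 0) :
    IdxGe d ξ θ (C c * F) ↔ IdxGe d ξ θ F := by
  have h1 : shift ξ (C c * F) = C c * shift ξ F := by
    rw [map_mul, MvPolynomial.algHom_C]; rfl
  have h2 : (shift ξ (C c * F)).support = (shift ξ F).support := by
    ext e
    rw [h1, MvPolynomial.mem_support_iff, MvPolynomial.mem_support_iff, MvPolynomial.coeff_C_mul]
    constructor
    · exact fun h => right_ne_zero_of_mul h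
    · exact fun h => mul_ne_zero hc h
  unfold IdxGe
  rw [h2]

end Pool.Agent.Lib.MP_d0d59f_nt.Sb

end

section

namespace Pool.Agent.Lib.MP_d0d59f_nt.Sb

open MvPolynomial

variable {τ : Type} [Fintype τ] [DecidableEq τ] {d : τ → ℕ} {ξ : τ → ℚ}

/-- a polynomial in the variable `0` -/
noncomputable def toZero {M : ℕ} (V : Polynomial ℚ) : MvPolynomial (Fin (M + 1)) ℚ :=
  Polynomial.aeval (X 0) V

theorem index_cons {M : ℕ} (n : ℕ) (u : Fin M →₀ ℕ) :
    Finsupp.mapDomain Fin.succ u + Finsupp.single 0 n = Finsupp.cons n u := by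
  ext i
  refine Fin.cases ?_ (fun j => ?_) i
  · rw [Finsupp.add_apply, Finsupp.cons_zero, Finsupp.single_eq_same,
      Finsupp.mapDomain_of_notMem_range, zero_add]
    rintro ⟨y, hy⟩
    exact Fin.succ_ne_zero y hy
  · rw [Finsupp.add_apply, Finsupp.cons_succ, Finsupp.mapDomain_apply (Fin.succ_injective _),
      Finsupp.single_eq_of_ne (Fin.succ_ne_zero j), add_zero]

/-- Products of polynomials in disjoint sets of variables: the coefficient of `Finsupp.cons s e` in
`rename Fin.succ U * toZero V` is `coeff e U * V.coeff s`. -/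
theorem coeff_disjoint {M : ℕ} (U : MvPolynomial (Fin M) ℚ) (V : Polynomial ℚ) (s : ℕ)
    (e : Fin M →₀ ℕ) :
    coeff (Finsupp.cons s e) (rename Fin.succ U * toZero V) = coeff e U * V.coeff s := by
  classical
  induction U using MvPolynomial.induction_on' with
  | add p q hp hq => rw [map_add, add_mul, coeff_add, hp, hq, coeff_add, add_mul]
  | monomial u a =>
    induction V using Polynomial.induction_on' with
    | add p q hp hq =>
      have : (toZero (p + q) : MvPolynomial (Fin (M + 1)) ℚ) = toZero p + toZero q := by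
        unfold toZero; rw [map_add]
      rw [this, mul_add, coeff_add, hp, hq, Polynomial.coeff_add, mul_add]
    | monomial n b =>
      have h1 : rename Fin.succ (monomial u a) * toZero (Polynomial.monomial n b)
          = monomial (Finsupp.cons n u) (a * b) := by
        unfold toZero
        rw [rename_monomial, Polynomial.aeval_monomial, ← index_cons, MvPolynomial.algebraMap_eq,
          MvPolynomial.X_pow_eq_monomial, MvPolynomial.C_mul_monomial,
          MvPolynomial.monomial_mul, mul_one]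
      rw [h1, coeff_monomial, coeff_monomial, Polynomial.coeff_monomial]
      by_cases hue : u = e
      · by_cases hns : n = s
        · rw [hue, hns]; simp
        · have hne : Finsupp.cons n u ≠ Finsupp.cons s e := by
            intro hc
            apply hns
            have := congrArg (fun f => f 0) hc
            simpa using this
          rw [if_neg hne, if_neg hns, mul_zero]
      · have hne : Finsupp.cons n u ≠ Finsupp.cons s e := by
          intro hc
          apply hue
          have := congrArg Finsupp.tail hc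
          rwa [Finsupp.tail_cons, Finsupp.tail_cons] at this
        rw [if_neg hne, if_neg hue, zero_mul]

theorem index_shift_rename {M : ℕ} (ξ : Fin (M + 1) → ℚ) (U : MvPolynomial (Fin M) ℚ) :
    shift ξ (rename Fin.succ U) = rename Fin.succ (shift (fun i => ξ i.succ) U) := by
  have : (shift ξ).comp (rename Fin.succ)
      = (rename Fin.succ).comp (shift (fun i : Fin M => ξ i.succ)) := by
    apply MvPolynomial.algHom_ext
    intro i
    simp [shift]
  exact congrArg (fun f => f U) this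

theorem index_shift_toZero {M : ℕ} (ξ : Fin (M + 1) → ℚ) (V : Polynomial ℚ) :
    shift ξ (toZero V) = toZero (V.comp (Polynomial.X + Polynomial.C (ξ 0))) := by
  unfold toZero
  rw [Polynomial.aeval_comp]
  have h1 : shift ξ (Polynomial.aeval (X 0) V) = Polynomial.aeval (shift ξ (X 0)) V :=
    (Polynomial.aeval_algHom_apply (shift ξ) (X 0) V).symm
  rw [h1]
  congr 1
  simp [shift, MvPolynomial.algebraMap_eq]

/-- `shift ξ (rename Fin.succ U * toZero V) = rename Fin.succ (shift (ξ ∘ succ) U) * toZero (V (X + ξ 0))`.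
If `U` has a monomial `e` with `∑ < θ` and the multiplicity `s` of the root `ξ 0` of `V` satisfies
`s / d 0 < θ`, then `Finsupp.cons s e` is a monomial of the product (`coeff_disjoint`; the coefficient of
`X ^ s` in `V (X + ξ 0)` is not zero) with `∑ < 2 θ`. -/
theorem IdxGe.disjoint {M : ℕ} {d : Fin (M + 1) → ℕ} (hd : ∀ i, 0 < d i) {ξ : Fin (M + 1) → ℚ}
    {θ : ℝ} {U : MvPolynomial (Fin M) ℚ} {V : Polynomial ℚ} (hV : V ≠ 0)
    (h : IdxGe d ξ (2 * θ) (rename Fin.succ U * toZero V)) :
    IdxGe (fun i => d i.succ) (fun i => ξ i.succ) θ U ∨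
      θ * d 0 ≤ (V.rootMultiplicity (ξ 0) : ℝ) := by
  by_contra hno
  push Not at hno
  obtain ⟨h1, h2⟩ := hno
  unfold IdxGe at h1
  push Not at h1
  obtain ⟨e, he, hlt⟩ := h1
  have hs : (V.comp (Polynomial.X + Polynomial.C (ξ 0))).coeff (V.rootMultiplicity (ξ 0)) ≠ 0 := by
    rw [Polynomial.rootMultiplicity_eq_natTrailingDegree]
    have h3 : V.comp (Polynomial.X + Polynomial.C (ξ 0)) ≠ 0 := by
      intro h0
      apply hV
      have := congrArg (fun p => p.comp (Polynomial.X - Polynomial.C (ξ 0))) h0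
      simpa [Polynomial.comp_assoc] using this
    exact Polynomial.trailingCoeff_nonzero_iff_nonzero.2 h3
  have hmem : Finsupp.cons (V.rootMultiplicity (ξ 0)) e
      ∈ (shift ξ (rename Fin.succ U * toZero V)).support := by
    rw [MvPolynomial.mem_support_iff, map_mul, index_shift_rename, index_shift_toZero,
      coeff_disjoint]
    exact mul_ne_zero (MvPolynomial.mem_support_iff.1 he) hs
  have h4 := h _ hmem
  rw [Fin.sum_univ_succ, Finsupp.cons_zero] at h4
  simp only [Finsupp.cons_succ] at h4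
  have hd0 : (0 : ℝ) < d 0 := by exact_mod_cast hd 0
  have h5 : (V.rootMultiplicity (ξ 0) : ℝ) / d 0 < θ := by
    rw [div_lt_iff₀ hd0]; exact h2
  linarith

end Pool.Agent.Lib.MP_d0d59f_nt.Sb

end

section

namespace Pool.Agent.Lib.MP_d0d59f_nt.Sb

open MvPolynomial

/-- `F = ∑ s, c_s(X_1, ..., X_M) X_0 ^ s` (`finSuccEquiv`); let `φ l`, `l < k`, be a basis of the span of
the `c_s`, `c_s = ∑ l, λ s l • φ l`, `ψ l = ∑ s, λ s l X ^ s`. Then `F = ∑ l, φ l * ψ l`. The `ψ l`
are independent: if `∑ l, t l • ψ l = 0` then `∑ l, t l λ s l = 0` for all `s`, so the linear form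
`φ l ↦ t l` on the span vanishes on all `c_s`, so it is zero. `k ≤ d0 + 1` as there are at most `d0 + 1`
coefficients `c_s ≠ 0`; `k ≥ 1` as `F ≠ 0`. It is possible to choose the `φ l` among the `c_s`, so their
degrees are bounded. -/
theorem exists_decomp {M : ℕ} (F : MvPolynomial (Fin (M + 1)) ℚ) (hF : F ≠ 0)
    (d : Fin (M + 1) → ℕ) (hd : ∀ j, degreeOf j F ≤ d j) :
    ∃ (k : ℕ) (φ : Fin k → MvPolynomial (Fin M) ℚ) (ψ : Fin k → Polynomial ℚ), 0 < k ∧
      k ≤ d 0 + 1 ∧ LinearIndependent ℚ φ ∧ LinearIndependent ℚ ψ ∧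
      (∀ l j, degreeOf j (φ l) ≤ d j.succ) ∧
      F = ∑ l, rename Fin.succ (φ l) * toZero (ψ l) := by
  classical
  set c : ℕ → MvPolynomial (Fin M) ℚ := fun s => Polynomial.coeff (finSuccEquiv ℚ M F) s with hc
  have hc0 : ∀ s, d 0 < s → c s = 0 := by
    intro s hs
    refine Polynomial.coeff_eq_zero_of_natDegree_lt ?_
    rw [natDegree_finSuccEquiv]
    exact lt_of_le_of_lt (hd 0) hs
  set T : Finset (MvPolynomial (Fin M) ℚ) := (Finset.range (d 0 + 1)).image c with hT
  obtain ⟨b, hbT, hspan, hli⟩ := exists_linearIndependent ℚ (T : Set (MvPolynomial (Fin M) ℚ))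
  have hbfin : b.Finite := T.finite_toSet.subset hbT
  have hbF : Finite b := hbfin
  obtain ⟨k, ⟨e⟩⟩ : ∃ k : ℕ, Nonempty (Fin k ≃ b) :=
    ⟨Nat.card b, ⟨(Finite.equivFin b).symm⟩⟩
  set φ : Fin k → MvPolynomial (Fin M) ℚ := fun l => (e l : MvPolynomial (Fin M) ℚ) with hφ
  have hφli : LinearIndependent ℚ φ := hli.comp e e.injective
  have hrange : Set.range φ = b := by
    ext x
    constructor
    · rintro ⟨l, rfl⟩
      exact (e l).2
    · intro hx
      exact ⟨e.symm ⟨x, hx⟩, by simp [hφ]⟩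
  have hφc : ∀ l, ∃ s, s < d 0 + 1 ∧ c s = φ l := by
    intro l
    have h1 : φ l ∈ T := hbT (e l).2
    rw [hT, Finset.mem_image] at h1
    obtain ⟨s, hs, hs'⟩ := h1
    exact ⟨s, Finset.mem_range.1 hs, hs'⟩
  have hlam : ∀ s, ∃ lam : Fin k → ℚ, ∑ l, lam l • φ l = c s ∧ (d 0 < s → lam = 0) := by
    intro s
    by_cases hs : d 0 < s
    · exact ⟨0, by simp [hc0 s hs], fun _ => rfl⟩
    · have h1 : c s ∈ Submodule.span ℚ (Set.range φ) := by
        rw [hrange, hspan]
        apply Submodule.subset_span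
        rw [hT]
        exact Finset.mem_coe.2 (Finset.mem_image_of_mem c (Finset.mem_range.2 (by omega)))
      obtain ⟨lam, hl⟩ := (Submodule.mem_span_range_iff_exists_fun ℚ).1 h1
      exact ⟨lam, hl, fun h => absurd h hs⟩
  choose lam hlam1 hlam2 using hlam
  set ψ : Fin k → Polynomial ℚ := fun l =>
    ∑ s ∈ Finset.range (d 0 + 1), Polynomial.monomial s (lam s l) with hψ
  have hψc : ∀ l s, (ψ l).coeff s = lam s l := by
    intro l s
    rw [hψ]
    simp only [Polynomial.finsetSum_coeff, Polynomial.coeff_monomial]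
    rw [Finset.sum_ite_eq' (Finset.range (d 0 + 1)) s]
    by_cases hs : s ∈ Finset.range (d 0 + 1)
    · rw [if_pos hs]
    · rw [if_neg hs]
      rw [Finset.mem_range] at hs
      rw [hlam2 s (by omega)]
      rfl
  have hFeq : F = ∑ l, rename Fin.succ (φ l) * toZero (ψ l) := by
    ext m
    rw [← Finsupp.cons_tail m, coeff_sum]
    have h1 : ∀ l, coeff (Finsupp.cons (m 0) m.tail) (rename Fin.succ (φ l) * toZero (ψ l)) =
        lam (m 0) l * coeff m.tail (φ l) := by
      intro l
      rw [coeff_disjoint, hψc, mul_comm]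
    rw [Finset.sum_congr rfl (fun l _ => h1 l)]
    rw [← finSuccEquiv_coeff_coeff]
    change coeff m.tail (c (m 0)) = _
    rw [← hlam1 (m 0), coeff_sum]
    refine Finset.sum_congr rfl fun l _ => ?_
    rw [coeff_smul, smul_eq_mul]
  have hcard : k ≤ d 0 + 1 := by
    have h1 : k = Nat.card b := by
      rw [← Nat.card_congr e, Nat.card_fin]
    have h2 : Nat.card b ≤ T.card := by
      have h3 : b.ncard ≤ (T : Set (MvPolynomial (Fin M) ℚ)).ncard :=
        Set.ncard_le_ncard hbT T.finite_toSet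
      rw [Set.ncard_coe_finset] at h3
      exact h3
    have h4 : T.card ≤ d 0 + 1 := by
      have := Finset.card_image_le (s := Finset.range (d 0 + 1)) (f := c)
      rwa [Finset.card_range] at this
    omega
  refine ⟨k, φ, ψ, ?_, hcard, hφli, ?_, ?_, hFeq⟩
  · rcases Nat.eq_zero_or_pos k with hk | hk
    · exfalso
      apply hF
      rw [hFeq]
      have : IsEmpty (Fin k) := by rw [hk]; infer_instance
      exact Finset.sum_of_isEmpty _
    · exact hk
  · rw [Fintype.linearIndependent_iff]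
    intro t ht l
    obtain ⟨s, -, hs⟩ := hφc l
    have h1 : ∀ l', lam s l' = if l' = l then 1 else 0 := by
      intro l'
      have h2 : ∑ i, (lam s i - if i = l then 1 else 0) • φ i = 0 := by
        simp only [sub_smul, Finset.sum_sub_distrib, ite_smul, one_smul, zero_smul,
          Finset.sum_ite_eq', Finset.mem_univ, if_true]
        rw [hlam1 s, hs, sub_self]
      have h3 := Fintype.linearIndependent_iff.1 hφli _ h2 l'
      exact sub_eq_zero.1 h3
    have h4 := congrArg (fun p => Polynomial.coeff p s) ht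
    simp only [Polynomial.finsetSum_coeff, Polynomial.coeff_smul, hψc, h1, smul_eq_mul,
      Polynomial.coeff_zero, mul_ite, mul_one, mul_zero, Finset.sum_ite_eq', Finset.mem_univ,
      if_true] at h4
    exact h4
  · intro l j
    obtain ⟨s, -, hs⟩ := hφc l
    rw [← hs]
    exact (degreeOf_coeff_finSuccEquiv F j s).trans (hd j.succ)

end Pool.Agent.Lib.MP_d0d59f_nt.Sb

end

section

namespace Pool.Agent.Lib.MP_d0d59f_nt.Sb

open MvPolynomial

/-- the Hasse derivative of a product of polynomials in disjoint variables -/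
theorem decompB_hasse {M : ℕ} (φ : MvPolynomial (Fin M) ℚ) (ψ : Polynomial ℚ) (s : ℕ)
    (D : Fin M →₀ ℕ) :
    hasse (Finsupp.cons s D) (rename Fin.succ φ * toZero ψ) =
      rename Fin.succ (hasse D φ) * toZero (Polynomial.hasseDeriv s ψ) := by
  ext m
  obtain ⟨t, f, rfl⟩ : ∃ t f, m = Finsupp.cons t f := ⟨m 0, m.tail, (Finsupp.cons_tail m).symm⟩
  have hadd : Finsupp.cons t f + Finsupp.cons s D = Finsupp.cons (t + s) (f + D) := by
    ext i
    refine Fin.cases ?_ (fun j => ?_) i
    · simp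
    · simp
  rw [coeff_hasse, coeff_disjoint, hadd, coeff_disjoint, coeff_hasse, Polynomial.hasseDeriv_coeff,
    Fin.prod_univ_succ]
  simp only [Finsupp.cons_zero, Finsupp.cons_succ]
  push_cast
  ring

/-- `hasse (Finsupp.cons s D) (rename succ φ * toZero ψ) = rename succ (hasse D φ) * toZero (hasseDeriv s ψ)`
(compare coefficients: `coeff_hasse`, `coeff_disjoint`, `Polynomial.hasseDeriv_coeff`), so the matrix is a
product of two matrices (`Matrix.det_mul`). -/
theorem det_hasse {M : ℕ} {k : ℕ} (φ : Fin k → MvPolynomial (Fin M) ℚ) (ψ : Fin k → Polynomial ℚ)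
    (D : Fin k → Fin M →₀ ℕ) :
    (Matrix.of fun i s : Fin k =>
        hasse (Finsupp.cons (s : ℕ) (D i)) (∑ l, rename Fin.succ (φ l) * toZero (ψ l))).det =
      rename Fin.succ (Matrix.of fun i l : Fin k => hasse (D i) (φ l)).det *
        toZero (Matrix.of fun l s : Fin k => Polynomial.hasseDeriv s (ψ l)).det := by
  have h1 : (Matrix.of fun i s : Fin k =>
        hasse (Finsupp.cons (s : ℕ) (D i)) (∑ l, rename Fin.succ (φ l) * toZero (ψ l))) =
      (rename Fin.succ : MvPolynomial (Fin M) ℚ →ₐ[ℚ] MvPolynomial (Fin (M + 1)) ℚ).mapMatrix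
        (Matrix.of fun i l : Fin k => hasse (D i) (φ l)) *
      (Polynomial.aeval (X 0) : Polynomial ℚ →ₐ[ℚ] MvPolynomial (Fin (M + 1)) ℚ).mapMatrix
        (Matrix.of fun l s : Fin k => Polynomial.hasseDeriv s (ψ l)) := by
    ext1 i s
    rw [Matrix.mul_apply, Matrix.of_apply, hasse_sum]
    refine Finset.sum_congr rfl fun l _ => ?_
    rw [decompB_hasse]
    rfl
  rw [h1, Matrix.det_mul, ← AlgHom.map_det, ← AlgHom.map_det]
  rfl

end Pool.Agent.Lib.MP_d0d59f_nt.Sb

end

section

namespace Pool.Agent.Lib.MP_d0d59f_nt.Sb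

open MvPolynomial

/-- a nonzero finite family of rationals is a multiple of a primitive integral family -/
theorem Decomp_primitive {I : Type} [Finite I] (u : I → ℚ) (hu : u ≠ 0) :
    ∃ (c : ℚ) (w n : I → ℤ), c ≠ 0 ∧ (∀ i, c * u i = w i) ∧
      ∃ s : Finset I, ∑ i ∈ s, n i * w i = 1 := by
  classical
  have := Fintype.ofFinite I
  set d : ℕ := ∏ i, (u i).den with hd
  have hd0 : d ≠ 0 := Finset.prod_ne_zero_iff.2 (fun i _ => (u i).den_nz)
  have ha : ∀ i, ∃ z : ℤ, (d : ℚ) * u i = z := by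
    intro i
    have h1 : d = (u i).den * ∏ j ∈ Finset.univ.erase i, (u j).den := by
      rw [hd]
      exact (Finset.mul_prod_erase Finset.univ (fun j => (u j).den) (Finset.mem_univ i)).symm
    refine ⟨(u i).num * (∏ j ∈ Finset.univ.erase i, (u j).den : ℕ), ?_⟩
    have h2 : (u i) * ((u i).den : ℚ) = (u i).num := Rat.mul_den_eq_num (u i)
    rw [h1]
    push_cast
    rw [← h2]
    ring
  choose a ha using ha
  obtain ⟨i0, hi0⟩ : ∃ i, u i ≠ 0 := by
    by_contra hcon
    push Not at hcon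
    exact hu (funext hcon)
  set P : Ideal ℤ := Ideal.span (Set.range a) with hP
  set g : ℤ := Submodule.IsPrincipal.generator P with hg
  have hPg : P = Ideal.span {g} := (Ideal.span_singleton_generator P).symm
  have hgP : g ∈ P := Submodule.IsPrincipal.generator_mem P
  have haP : ∀ i, a i ∈ P := fun i => Ideal.subset_span ⟨i, rfl⟩
  have hdvd : ∀ i, g ∣ a i := by
    intro i
    have := haP i
    rw [hPg, Ideal.mem_span_singleton] at this
    exact this
  choose w hw using hdvd
  have hai0 : a i0 ≠ 0 := by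
    intro h
    have h1 := ha i0
    rw [h] at h1
    have h2 : (d : ℚ) ≠ 0 := by exact_mod_cast hd0
    simp only [Int.cast_zero, mul_eq_zero] at h1
    rcases h1 with h1 | h1
    · exact h2 h1
    · exact hi0 h1
  have hg0 : g ≠ 0 := by
    intro h
    apply hai0
    rw [hw i0, h, zero_mul]
  have hsum : ∃ n : I → ℤ, ∑ i, n i * a i = g := by
    have h1 : g ∈ Submodule.span ℤ (Set.range a) := hgP
    rw [Submodule.mem_span_range_iff_exists_fun] at h1
    obtain ⟨n, hn⟩ := h1
    exact ⟨n, by simpa [smul_eq_mul] using hn⟩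
  obtain ⟨n, hn⟩ := hsum
  have hgq : (g : ℚ) ≠ 0 := by exact_mod_cast hg0
  have hdq : (d : ℚ) ≠ 0 := by exact_mod_cast hd0
  refine ⟨(d : ℚ) / g, w, n, div_ne_zero hdq hgq, ?_, Finset.univ, ?_⟩
  · intro i
    have h1 := ha i
    rw [hw i] at h1
    push_cast at h1
    field_simp
    rw [h1]
  · have h1 : g * ∑ i, n i * w i = g * 1 := by
      rw [mul_one, Finset.mul_sum]
      conv_rhs => rw [← hn]
      refine Finset.sum_congr rfl (fun i _ => ?_)
      conv_rhs => rw [hw i]
      ring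
    exact mul_left_cancel₀ hg0 h1

/-- If all products `u i * v j` are integers of absolute value at most `B`, and `u, v ≠ 0`, then for some
`c ≠ 0` the numbers `c u i`, `c⁻¹ v j` are integers of absolute value at most `B`. Proof: choose `c` such
that the `c u i` are integers with greatest common divisor one (finitely many; `∑ n i (c u i) = 1`);
then `c⁻¹ v j = ∑ n i (u i v j)` is an integer; and `|c u i| ≤ |c u i| |c⁻¹ v j| ≤ B` for some `j` with
`v j ≠ 0`. -/
theorem exists_common {I J : Type} [Finite I] [Finite J] (u : I → ℚ) (v : J → ℚ) (hu : u ≠ 0)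
    (hv : v ≠ 0) {B : ℝ} (h : ∀ i j, ∃ z : ℤ, u i * v j = z ∧ |(z : ℝ)| ≤ B) :
    ∃ c : ℚ, c ≠ 0 ∧ (∀ i, ∃ z : ℤ, c * u i = z ∧ |(z : ℝ)| ≤ B) ∧
      ∀ j, ∃ z : ℤ, c⁻¹ * v j = z ∧ |(z : ℝ)| ≤ B := by
  classical
  obtain ⟨c, w, n, hc, hw, s, hs⟩ := Decomp_primitive u hu
  choose z hz hzB using h
  obtain ⟨i0, hi0⟩ : ∃ i, u i ≠ 0 := by
    by_contra hcon
    push Not at hcon
    exact hu (funext hcon)
  obtain ⟨j0, hj0⟩ : ∃ j, v j ≠ 0 := by
    by_contra hcon
    push Not at hcon
    exact hv (funext hcon)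
  have hy : ∀ j, c⁻¹ * v j = ((∑ i ∈ s, n i * z i j : ℤ) : ℚ) := by
    intro j
    have h1 : ((∑ i ∈ s, n i * w i : ℤ) : ℚ) = 1 := by rw [hs]; norm_num
    calc c⁻¹ * v j = ((∑ i ∈ s, n i * w i : ℤ) : ℚ) * (c⁻¹ * v j) := by rw [h1, one_mul]
      _ = ((∑ i ∈ s, n i * z i j : ℤ) : ℚ) := by
        push_cast
        rw [Finset.sum_mul]
        refine Finset.sum_congr rfl (fun i _ => ?_)
        rw [← hw i, ← hz i j]
        field_simp
  have hprod : ∀ i j, (w i : ℚ) * ((∑ i ∈ s, n i * z i j : ℤ) : ℚ) = z i j := by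
    intro i j
    rw [← hy j, ← hw i, ← hz i j]
    field_simp
  have hprodZ : ∀ i j, w i * (∑ i ∈ s, n i * z i j) = z i j := by
    intro i j
    exact_mod_cast hprod i j
  refine ⟨c, hc, ?_, ?_⟩
  · intro i
    refine ⟨w i, hw i, ?_⟩
    have hne : (∑ i ∈ s, n i * z i j0) ≠ 0 := by
      intro h0
      have h1 := hy j0
      rw [h0] at h1
      simp only [Int.cast_zero, mul_eq_zero, inv_eq_zero] at h1
      rcases h1 with h1 | h1
      · exact hc h1
      · exact hj0 h1
    have h1 : (1 : ℤ) ≤ |∑ i ∈ s, n i * z i j0| := Int.one_le_abs hne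
    have h2 : |w i| ≤ |z i j0| := by
      rw [← hprodZ i j0, abs_mul]
      exact le_mul_of_one_le_right (abs_nonneg _) h1
    have h3 : |(w i : ℝ)| ≤ |(z i j0 : ℝ)| := by exact_mod_cast h2
    exact h3.trans (hzB i j0)
  · intro j
    refine ⟨∑ i ∈ s, n i * z i j, hy j, ?_⟩
    have hne : w i0 ≠ 0 := by
      intro h0
      have h1 := hw i0
      rw [h0] at h1
      simp only [Int.cast_zero, mul_eq_zero] at h1
      rcases h1 with h1 | h1
      · exact hc h1
      · exact hi0 h1
    have h1 : (1 : ℤ) ≤ |w i0| := Int.one_le_abs hne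
    have h2 : |∑ i ∈ s, n i * z i j| ≤ |z i0 j| := by
      rw [← hprodZ i0 j, abs_mul]
      exact le_mul_of_one_le_left (abs_nonneg _) h1
    have h3 : |((∑ i ∈ s, n i * z i j : ℤ) : ℝ)| ≤ |(z i0 j : ℝ)| := by exact_mod_cast h2
    exact h3.trans (hzB i0 j)

/-- From `exists_common` for the coefficients (`coeff_disjoint`); `I`, `J` the supports. -/
theorem exists_integral {M : ℕ} (U : MvPolynomial (Fin M) ℚ) (V : Polynomial ℚ) (hU : U ≠ 0)
    (hV : V ≠ 0) (W : MvPolynomial (Fin (M + 1)) ℤ) {B : ℝ} (hB : ∀ e, |((coeff e W : ℤ) : ℝ)| ≤ B)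
    (hW : map (Int.castRingHom ℚ) W = rename Fin.succ U * toZero V) :
    ∃ (c : ℚ) (U₀ : MvPolynomial (Fin M) ℤ) (V₀ : Polynomial ℤ), c ≠ 0 ∧
      map (Int.castRingHom ℚ) U₀ = C c * U ∧
      V₀.map (Int.castRingHom ℚ) = Polynomial.C c⁻¹ * V ∧
      (∀ e, |((coeff e U₀ : ℤ) : ℝ)| ≤ B) ∧ ∀ s, |((V₀.coeff s : ℤ) : ℝ)| ≤ B := by
  classical
  have hB0 : 0 ≤ B := (abs_nonneg _).trans (hB 0)
  have hprod : ∀ (e : Fin M →₀ ℕ) (s : ℕ),
      coeff e U * V.coeff s = ((coeff (Finsupp.cons s e) W : ℤ) : ℚ) := by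
    intro e s
    rw [← coeff_disjoint, ← hW, coeff_map]
    rfl
  have hne1 : (fun i : U.support => coeff i.1 U) ≠ 0 := by
    intro h0
    obtain ⟨e, he⟩ := MvPolynomial.ne_zero_iff.1 hU
    have := congrFun h0 ⟨e, MvPolynomial.mem_support_iff.2 he⟩
    exact he this
  have hne2 : (fun j : V.support => V.coeff j.1) ≠ 0 := by
    intro h0
    have h1 : V.coeff V.natDegree ≠ 0 := by
      rw [Polynomial.coeff_natDegree]
      exact Polynomial.leadingCoeff_ne_zero.2 hV
    have := congrFun h0 ⟨V.natDegree, Polynomial.mem_support_iff.2 h1⟩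
    exact h1 this
  obtain ⟨c, hc, h1, h2⟩ := exists_common (fun i : U.support => coeff i.1 U)
    (fun j : V.support => V.coeff j.1) hne1 hne2 (B := B) (by
      intro i j
      exact ⟨coeff (Finsupp.cons j.1 i.1) W, hprod i.1 j.1, hB _⟩)
  have h1' : ∀ e, ∃ z : ℤ, c * coeff e U = z ∧ |(z : ℝ)| ≤ B := by
    intro e
    by_cases he : e ∈ U.support
    · exact h1 ⟨e, he⟩
    · rw [MvPolynomial.notMem_support_iff] at he
      exact ⟨0, by rw [he]; simp, by simpa using hB0⟩
  have h2' : ∀ s, ∃ z : ℤ, c⁻¹ * V.coeff s = z ∧ |(z : ℝ)| ≤ B := by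
    intro s
    by_cases hs : s ∈ V.support
    · exact h2 ⟨s, hs⟩
    · rw [Polynomial.notMem_support_iff] at hs
      exact ⟨0, by rw [hs]; simp, by simpa using hB0⟩
  choose zu hzu hzuB using h1'
  choose zv hzv hzvB using h2'
  refine ⟨c, ∑ e ∈ U.support, monomial e (zu e), ∑ s ∈ V.support, Polynomial.monomial s (zv s),
    hc, ?_, ?_, ?_, ?_⟩
  · rw [map_sum]
    conv_rhs => rw [U.as_sum, Finset.mul_sum]
    refine Finset.sum_congr rfl (fun e _ => ?_)
    rw [map_monomial, C_mul_monomial, hzu e]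
    rfl
  · rw [Polynomial.map_sum]
    conv_rhs => rw [V.as_sum_support, Finset.mul_sum]
    refine Finset.sum_congr rfl (fun s _ => ?_)
    rw [Polynomial.map_monomial, Polynomial.C_mul_monomial, hzv s]
    rfl
  · intro e
    have : coeff e (∑ e ∈ U.support, monomial e (zu e)) = if e ∈ U.support then zu e else 0 := by
      rw [coeff_sum]
      simp only [coeff_monomial]
      rw [Finset.sum_ite_eq' U.support e zu]
    rw [this]
    split_ifs
    · exact hzuB e
    · simpa using hB0
  · intro s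
    have : (∑ s ∈ V.support, Polynomial.monomial s (zv s)).coeff s =
        if s ∈ V.support then zv s else 0 := by
      rw [Polynomial.finsetSum_coeff]
      simp only [Polynomial.coeff_monomial]
      rw [Finset.sum_ite_eq' V.support s zv]
    rw [this]
    split_ifs
    · exact hzvB s
    · simpa using hB0

end Pool.Agent.Lib.MP_d0d59f_nt.Sb

end
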