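import Pool.Agent.Lib.MP_d0d59f_nt.Sub.PolyNorm

/-!
Generalised Wronskians.
-/

section

namespace Pool.Agent.Lib.MP_d0d59f_nt.Sb

/-- the evaluation vector of a product of binomial coefficients -/
noncomputable def interpVec {τ : Type} [Fintype τ] {k : ℕ} (α : Fin k → τ →₀ ℕ) (D : τ →₀ ℕ) :
    Fin k → ℚ := fun j => ((∏ t, (α j t).choose (D t) : ℕ) : ℚ)

/-- the span of the evaluation vectors of degree at most `m` -/
noncomputable def interpSpan {τ : Type} [Fintype τ] {k : ℕ} (α : Fin k → τ →₀ ℕ) (m : ℕ) :
    Submodule ℚ (Fin k → ℚ) := Submodule.span ℚ (interpVec α '' {D | ∑ t, D t ≤ m})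

theorem interp_mono {τ : Type} [Fintype τ] {k : ℕ} (α : Fin k → τ →₀ ℕ) {m n : ℕ} (h : m ≤ n) :
    interpSpan α m ≤ interpSpan α n := by
  refine Submodule.span_mono (Set.image_mono ?_)
  intro D hD
  exact le_trans (show ∑ t, D t ≤ m from hD) h

theorem interp_choose (a n : ℕ) :
    (a : ℚ) * (a.choose n : ℚ) = (n + 1 : ℚ) * (a.choose (n + 1) : ℚ) + (n : ℚ) * (a.choose n : ℚ) := by
  have h1 := Nat.choose_succ_right_eq a n
  rcases le_or_gt n a with h | h
  · have h2 : ((a.choose (n + 1) * (n + 1) : ℕ) : ℚ) = ((a.choose n * (a - n) : ℕ) : ℚ) := by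
      rw [h1]
    push_cast [Nat.cast_sub h] at h2
    linarith
  · rw [Nat.choose_eq_zero_of_lt h, Nat.choose_eq_zero_of_lt (by omega)]
    simp

theorem interp_mul_vec {τ : Type} [Fintype τ] [DecidableEq τ] {k : ℕ} (α : Fin k → τ →₀ ℕ)
    (D : τ →₀ ℕ) (t : τ) : (fun j => (α j t : ℚ)) * interpVec α D =
      ((D t : ℚ) + 1) • interpVec α (D + Finsupp.single t 1) + (D t : ℚ) • interpVec α D := by
  funext j
  simp only [interpVec, Pi.mul_apply, Pi.add_apply, Pi.smul_apply, smul_eq_mul]
  have h1 : ∀ E : τ →₀ ℕ, ((∏ s, (α j s).choose (E s) : ℕ) : ℚ) =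
      ((α j t).choose (E t) : ℚ) * ∏ s ∈ Finset.univ.erase t, ((α j s).choose (E s) : ℚ) := by
    intro E
    rw [Finset.mul_prod_erase Finset.univ (fun s => ((α j s).choose (E s) : ℚ)) (Finset.mem_univ t)]
    push_cast
    rfl
  rw [h1 D, h1 (D + Finsupp.single t 1)]
  have h2 : ∏ s ∈ Finset.univ.erase t, ((α j s).choose ((D + Finsupp.single t 1 : τ →₀ ℕ) s) : ℚ) =
      ∏ s ∈ Finset.univ.erase t, ((α j s).choose (D s) : ℚ) := by
    refine Finset.prod_congr rfl (fun s hs => ?_)
    have hst : s ≠ t := Finset.ne_of_mem_erase hs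
    rw [Finsupp.add_apply, Finsupp.single_eq_of_ne hst, add_zero]
  have h3 : (D + Finsupp.single t 1 : τ →₀ ℕ) t = D t + 1 := by
    rw [Finsupp.add_apply, Finsupp.single_eq_same]
  rw [h2, h3]
  have h4 := interp_choose (α j t) (D t)
  calc (α j t : ℚ) * (((α j t).choose (D t) : ℚ) *
        ∏ s ∈ Finset.univ.erase t, ((α j s).choose (D s) : ℚ))
      = ((α j t : ℚ) * ((α j t).choose (D t) : ℚ)) *
        ∏ s ∈ Finset.univ.erase t, ((α j s).choose (D s) : ℚ) := by ring
    _ = _ := by
        rw [h4]
        ring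

theorem interp_mul_mem {τ : Type} [Fintype τ] [DecidableEq τ] {k : ℕ} (α : Fin k → τ →₀ ℕ)
    {m : ℕ} (t : τ) {f : Fin k → ℚ} (hf : f ∈ interpSpan α m) :
    (fun j => (α j t : ℚ)) * f ∈ interpSpan α (m + 1) := by
  unfold interpSpan at hf
  induction hf using Submodule.span_induction with
  | mem x hx =>
    obtain ⟨D, hD, rfl⟩ := hx
    have hD' : ∑ s, D s ≤ m := hD
    rw [interp_mul_vec]
    refine Submodule.add_mem _ (Submodule.smul_mem _ _ ?_) (Submodule.smul_mem _ _ ?_)
    · refine Submodule.subset_span ⟨_, ?_, rfl⟩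
      show ∑ s, (D + Finsupp.single t 1 : τ →₀ ℕ) s ≤ m + 1
      have : ∑ s, (D + Finsupp.single t 1 : τ →₀ ℕ) s = ∑ s, D s + 1 := by
        simp only [Finsupp.add_apply, Finset.sum_add_distrib]
        congr 1
        rw [Finset.sum_eq_single t]
        · exact Finsupp.single_eq_same
        · intro s _ hs
          exact Finsupp.single_eq_of_ne hs
        · intro h
          exact absurd (Finset.mem_univ t) h
      omega
    · exact Submodule.subset_span ⟨D, le_trans hD' (Nat.le_succ m), rfl⟩
  | zero => rw [mul_zero]; exact Submodule.zero_mem _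
  | add x y _ _ hx hy => rw [mul_add]; exact Submodule.add_mem _ hx hy
  | smul a x _ hx => rw [mul_smul_comm]; exact Submodule.smul_mem _ _ hx

theorem interp_exists {τ : Type} [Fintype τ] [DecidableEq τ] {k : ℕ} (α : Fin k → τ →₀ ℕ)
    (hα : Function.Injective α) (j : Fin k) (s : Finset (Fin k)) (hs : j ∉ s) :
    ∃ f ∈ interpSpan α s.card, f j ≠ 0 ∧ ∀ i ∈ s, f i = 0 := by
  induction s using Finset.induction_on with
  | empty =>
    refine ⟨interpVec α 0, Submodule.subset_span ⟨0, ?_, rfl⟩, ?_, ?_⟩
    · show ∑ t, (0 : τ →₀ ℕ) t ≤ _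
      simp
    · simp [interpVec]
    · intro i hi
      exact absurd hi (Finset.notMem_empty i)
  | insert a s ha ih =>
    rw [Finset.mem_insert, not_or] at hs
    obtain ⟨f, hf, hfj, hfs⟩ := ih hs.2
    have hne : α j ≠ α a := fun h => hs.1 (hα h)
    obtain ⟨t, ht⟩ : ∃ t, α j t ≠ α a t := by
      by_contra hcon
      refine hne (Finsupp.ext fun t => ?_)
      by_contra h
      exact hcon ⟨t, h⟩
    refine ⟨(fun i => (α i t : ℚ)) * f - (α a t : ℚ) • f, ?_, ?_, ?_⟩
    · rw [Finset.card_insert_of_notMem ha]
      exact Submodule.sub_mem _ (interp_mul_mem α t hf)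
        (Submodule.smul_mem _ _ (interp_mono α (Nat.le_succ _) hf))
    · simp only [Pi.sub_apply, Pi.mul_apply, Pi.smul_apply, smul_eq_mul, ← sub_mul]
      refine mul_ne_zero ?_ hfj
      rw [sub_ne_zero]
      exact_mod_cast ht
    · intro i hi
      simp only [Pi.sub_apply, Pi.mul_apply, Pi.smul_apply, smul_eq_mul, ← sub_mul]
      rcases Finset.mem_insert.1 hi with rfl | hi'
      · rw [sub_self, zero_mul]
      · rw [hfs i hi', mul_zero]

theorem interp_span_top {τ : Type} [Fintype τ] [DecidableEq τ] {k : ℕ} (α : Fin k → τ →₀ ℕ)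
    (hα : Function.Injective α) : interpSpan α (k - 1) = ⊤ := by
  have hsingle : ∀ j : Fin k, Pi.single j (1 : ℚ) ∈ interpSpan α (k - 1) := by
    intro j
    obtain ⟨f, hf, hfj, hfs⟩ := interp_exists α hα j (Finset.univ.erase j)
      (Finset.notMem_erase j _)
    rw [Finset.card_erase_of_mem (Finset.mem_univ j), Finset.card_univ, Fintype.card_fin] at hf
    have h1 : Pi.single j (1 : ℚ) = (f j)⁻¹ • f := by
      funext i
      by_cases hi : i = j
      · subst hi
        rw [Pi.single_eq_same, Pi.smul_apply, smul_eq_mul, inv_mul_cancel₀ hfj]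
      · rw [Pi.single_eq_of_ne hi, Pi.smul_apply, hfs i (Finset.mem_erase.2 ⟨hi, Finset.mem_univ i⟩),
          smul_zero]
    rw [h1]
    exact Submodule.smul_mem _ _ hf
  rw [eq_top_iff]
  intro f _
  have h1 : f = ∑ j, f j • Pi.single j (1 : ℚ) := by
    funext i
    rw [Finset.sum_apply, Finset.sum_eq_single i]
    · rw [Pi.smul_apply, Pi.single_eq_same, smul_eq_mul, mul_one]
    · intro j _ hj
      rw [Pi.smul_apply, Pi.single_eq_of_ne (Ne.symm hj), smul_zero]
    · intro h
      exact absurd (Finset.mem_univ i) h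
  rw [h1]
  exact Submodule.sum_mem _ (fun j _ => Submodule.smul_mem _ _ (hsingle j))

/-- Let `α 0, ..., α (k-1)` be different points of `ℕ ^ τ`. There are `D 0, ..., D (k-1)` with
`∑ D i ≤ k - 1` such that the determinant of the products of binomial coefficients
`∏ t, C(α j t, D i t)` is not zero.
Proof. The functions `α ↦ ∏ t, C(α t, D t)`, `|D| ≤ m`, span the polynomials of degree `≤ m` (over `ℚ`):
the product of `x_t` and `∏ C(x, D)` is a combination of the functions for `D` and `D + e_t`
(`x C(x, n) = (n + 1) C(x, n+1) + n C(x, n)`), so induction gives that the span `S m` for `m` contains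
`ℓ * f` for `f ∈ S (m-1)` and `ℓ` affine linear. For each `j` the product over `j' ≠ j` of affine linear
forms `x_t - α j' t`, where `t` is such that `α j t ≠ α j' t`, has degree `k - 1`, vanishes at the
`α j'` and not at `α j`. So the evaluations at the `k` points of the functions in `S (k-1)` are all of
`ℚ ^ k`, and `k` of the spanning functions have independent evaluation vectors
(`exists_linearIndependent`, or `Submodule` basis from a spanning set). -/
theorem exists_interp {τ : Type} [Fintype τ] [DecidableEq τ] {k : ℕ} (α : Fin k → τ →₀ ℕ)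
    (hα : Function.Injective α) : ∃ D : Fin k → τ →₀ ℕ, (∀ i, ∑ t, D i t + 1 ≤ k) ∧
      (Matrix.of fun i j : Fin k => ((∏ t, (α j t).choose (D i t) : ℕ) : ℚ)).det ≠ 0 := by
  have htop := interp_span_top α hα
  unfold interpSpan at htop
  obtain ⟨b, hbs, hbspan, hbind⟩ :=
    exists_linearIndependent ℚ (interpVec α '' {D | ∑ t, D t ≤ k - 1})
  rw [htop] at hbspan
  let B : Module.Basis b ℚ (Fin k → ℚ) := Module.Basis.mk hbind (by
    rw [Subtype.range_coe_subtype, Set.ofPred_mem_eq, hbspan])
  have e : b ≃ Fin k := B.indexEquiv (Pi.basisFun ℚ (Fin k))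
  have hch : ∀ i : Fin k, ∃ D : τ →₀ ℕ, ∑ t, D t ≤ k - 1 ∧
      interpVec α D = ((e.symm i : b) : Fin k → ℚ) := by
    intro i
    obtain ⟨D, hD, hDe⟩ := hbs (e.symm i).2
    exact ⟨D, hD, hDe⟩
  choose D hD hDe using hch
  refine ⟨D, ?_, ?_⟩
  · intro i
    have := hD i
    have := i.2
    omega
  · have hrow : LinearIndependent ℚ (Matrix.of fun i j : Fin k =>
        ((∏ t, (α j t).choose (D i t) : ℕ) : ℚ)).row := by
      have h1 : (Matrix.of fun i j : Fin k =>
          ((∏ t, (α j t).choose (D i t) : ℕ) : ℚ)).row =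
          (fun x : b => (x : Fin k → ℚ)) ∘ e.symm := by
        funext i
        exact hDe i
      rw [h1]
      exact hbind.comp _ e.symm.injective
    rw [Matrix.linearIndependent_rows_iff_isUnit] at hrow
    exact ((Matrix.isUnit_iff_isUnit_det _).1 hrow).ne_zero

end Pool.Agent.Lib.MP_d0d59f_nt.Sb

end

section

namespace Pool.Agent.Lib.MP_d0d59f_nt.Sb

open MvPolynomial

/-- Independent polynomials have an invertible constant combination with different leading exponents
for a monomial order (`MonomialOrder.lex` or any linear order on the exponents compatible with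
addition). Proof by induction on `k`, or: in the span of the `φ j` consider the set of the degrees of
nonzero elements; elements with different degrees are independent, and the number of different
degrees of nonzero elements is the dimension. -/
theorem exists_distinct_degrees {M : ℕ} {k : ℕ} (φ : Fin k → MvPolynomial (Fin M) ℚ)
    (hφ : LinearIndependent ℚ φ) : ∃ (A : Matrix (Fin k) (Fin k) ℚ), A.det ≠ 0 ∧
      (∀ j, ∑ l, C (A j l) * φ l ≠ 0) ∧
      Function.Injective fun j => MonomialOrder.lex.degree (∑ l, C (A j l) * φ l) := by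
  classical
  set T : Finset (Fin M →₀ ℕ) := Finset.univ.biUnion fun l => (φ l).support with hT
  let F : (Fin k → ℚ) →ₗ[ℚ] MvPolynomial (Fin M) ℚ :=
    { toFun := fun c => ∑ l, C (c l) * φ l
      map_add' := by
        intro a b
        simp only [Pi.add_apply, map_add, add_mul, Finset.sum_add_distrib]
      map_smul' := by
        intro a b
        simp only [Pi.smul_apply, smul_eq_mul, map_mul, RingHom.id_apply, Finset.smul_sum,
          MvPolynomial.smul_eq_C_mul, mul_assoc] }
  have hFdef : ∀ c, F c = ∑ l, C (c l) * φ l := fun c => rfl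
  have hF0 : ∀ c, F c = 0 → c = 0 := by
    intro c hc
    have h := Fintype.linearIndependent_iff.mp hφ c (by
      rw [hFdef] at hc
      simpa only [MvPolynomial.smul_eq_C_mul] using hc)
    funext i
    exact h i
  have hFT : ∀ c, ∀ e, coeff e (F c) ≠ 0 → e ∈ T := by
    intro c e he
    rw [hFdef, MvPolynomial.coeff_sum] at he
    obtain ⟨l, -, hl⟩ := Finset.exists_ne_zero_of_sum_ne_zero he
    rw [hT, Finset.mem_biUnion]
    refine ⟨l, Finset.mem_univ _, ?_⟩
    rw [MvPolynomial.mem_support_iff]
    intro h0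
    rw [coeff_C_mul, h0, mul_zero] at hl
    exact hl rfl
  set S : Finset (Fin M →₀ ℕ) :=
    T.filter fun δ => ∃ c, F c ≠ 0 ∧ MonomialOrder.lex.degree (F c) = δ with hS
  have hcard : k ≤ S.card := by
    let L : (Fin k → ℚ) →ₗ[ℚ] (S → ℚ) :=
      LinearMap.pi fun δ => (MvPolynomial.lcoeff ℚ (δ : Fin M →₀ ℕ)).comp F
    have hL : Function.Injective L := by
      rw [← LinearMap.ker_eq_bot, LinearMap.ker_eq_bot']
      intro c hc
      by_contra hne
      have hFc : F c ≠ 0 := fun h => hne (hF0 c h)
      have hlead : coeff (MonomialOrder.lex.degree (F c)) (F c) ≠ 0 :=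
        MonomialOrder.coeff_degree_ne_zero_iff.mpr hFc
      have hmem : MonomialOrder.lex.degree (F c) ∈ S := by
        rw [hS, Finset.mem_filter]
        exact ⟨hFT _ _ hlead, c, hFc, rfl⟩
      have := congrFun hc ⟨_, hmem⟩
      exact hlead (by simpa [L] using this)
    have := LinearMap.finrank_le_finrank_of_injective hL
    simpa using this
  obtain ⟨α⟩ : Nonempty (Fin k ↪ S) := by
    apply Function.Embedding.nonempty_of_card_le
    simpa using hcard
  have hex : ∀ j : Fin k, ∃ c : Fin k → ℚ, F c ≠ 0 ∧
      MonomialOrder.lex.degree (F c) = (α j : Fin M →₀ ℕ) := by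
    intro j
    exact (Finset.mem_filter.mp (α j).2).2
  choose A hA0 hA1 using hex
  have hinj : Function.Injective fun j => MonomialOrder.lex.degree (F (A j)) := by
    intro i j hij
    simp only [hA1] at hij
    exact α.injective (Subtype.ext hij)
  refine ⟨Matrix.of A, ?_, fun j => hA0 j, hinj⟩
  intro hdet
  obtain ⟨v, hv, hvA⟩ := Matrix.exists_vecMul_eq_zero_iff.mpr hdet
  -- the nonzero coefficient with the largest degree
  have hne : (Finset.univ.filter fun j => v j ≠ 0).Nonempty := by
    obtain ⟨j, hj⟩ := Function.ne_iff.mp hv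
    exact ⟨j, by simpa using hj⟩
  obtain ⟨j, hj, hmax⟩ := Finset.exists_max_image _
    (fun j => MonomialOrder.lex.toSyn (MonomialOrder.lex.degree (F (A j)))) hne
  have hsum : ∑ i, v i • F (A i) = 0 := by
    have : ∑ i, v i • F (A i) = F (Matrix.vecMul v (Matrix.of A)) := by
      have h1 : Matrix.vecMul v (Matrix.of A) = ∑ i, v i • A i := by
        funext l
        simp [Matrix.vecMul, dotProduct]
      rw [h1, map_sum]
      simp only [map_smul]
    rw [this, hvA, map_zero]
  have hco := congrArg (coeff (MonomialOrder.lex.degree (F (A j)))) hsum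
  rw [MvPolynomial.coeff_sum, Finset.sum_eq_single j] at hco
  · rw [MvPolynomial.coeff_smul, coeff_zero, smul_eq_mul, mul_eq_zero] at hco
    rcases hco with h | h
    · exact (Finset.mem_filter.mp hj).2 h
    · exact MonomialOrder.coeff_degree_ne_zero_iff.mpr (hA0 j) h
  · intro i _ hij
    rw [MvPolynomial.coeff_smul]
    by_cases hvi : v i = 0
    · rw [hvi, zero_smul]
    · have hle := hmax i (Finset.mem_filter.mpr ⟨Finset.mem_univ _, hvi⟩)
      have hlt : MonomialOrder.lex.toSyn (MonomialOrder.lex.degree (F (A i))) <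
          MonomialOrder.lex.toSyn (MonomialOrder.lex.degree (F (A j))) := by
        refine lt_of_le_of_ne hle fun h => hij ?_
        exact hinj (MonomialOrder.lex.toSyn.injective h)
      rw [MonomialOrder.coeff_eq_zero_of_lt hlt, smul_zero]
  · intro h
    exact absurd (Finset.mem_univ j) h

end Pool.Agent.Lib.MP_d0d59f_nt.Sb

end

section

namespace Pool.Agent.Lib.MP_d0d59f_nt.Sb

open MvPolynomial

/-- top coefficient of a product -/
theorem wronskiB_coeff_prod {M : ℕ} {ι : Type} (s : Finset ι)
    (P : ι → MvPolynomial (Fin M) ℚ) (a : ι → Fin M →₀ ℕ)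
    (h : ∀ i ∈ s, MonomialOrder.lex.toSyn (MonomialOrder.lex.degree (P i)) ≤
      MonomialOrder.lex.toSyn (a i)) :
    coeff (∑ i ∈ s, a i) (∏ i ∈ s, P i) = ∏ i ∈ s, coeff (a i) (P i) := by
  classical
  induction s using Finset.induction_on with
  | empty => simp
  | insert b s hb ih =>
    have h' : ∀ i ∈ s, MonomialOrder.lex.toSyn (MonomialOrder.lex.degree (P i)) ≤
        MonomialOrder.lex.toSyn (a i) := fun i hi => h i (Finset.mem_insert_of_mem hi)
    rw [Finset.prod_insert hb, Finset.sum_insert hb, Finset.prod_insert hb,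
      MonomialOrder.coeff_mul_of_add_of_degree_le (m := MonomialOrder.lex)
        (h b (Finset.mem_insert_self _ _)), ih h']
    refine le_trans MonomialOrder.degree_prod_le ?_
    rw [map_sum, map_sum]
    exact Finset.sum_le_sum h'

/-- the coefficients of `X ^ D * hasse D p` -/
theorem wronskiB_coeff {M : ℕ} (D e : Fin M →₀ ℕ) (p : MvPolynomial (Fin M) ℚ) :
    coeff e (monomial D 1 * hasse D p) = coeff e p * ((∏ t, (e t).choose (D t) : ℕ) : ℚ) := by
  classical
  rw [coeff_monomial_mul']
  by_cases hD : D ≤ e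
  · rw [if_pos hD, one_mul, coeff_hasse, tsub_add_cancel_of_le hD]
    congr 2
    refine Finset.prod_congr rfl fun t _ => ?_
    have : (e - D) t + D t = e t := by
      have := DFunLike.congr_fun (tsub_add_cancel_of_le hD) t
      simpa using this
    rw [this]
  · rw [if_neg hD]
    have : ∃ t, e t < D t := by
      by_contra hcon
      push Not at hcon
      exact hD hcon
    obtain ⟨t, ht⟩ := this
    rw [Finset.prod_eq_zero (Finset.mem_univ t) (Nat.choose_eq_zero_of_lt ht)]
    simp

/-- Let `f j = ∑ l, C (A j l) * φ l` with different degrees `α j` (`exists_distinct_degrees`), and `D` from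
`exists_interp`. `hasse (D i) (f j)` has degree at most `α j - D i` (in the monomial order) and the
coefficient of `X ^ (α j - D i)` is `(leading coefficient) * ∏ t, C(α j t, D i t)` (zero if
`D i ≤ α j` fails). So the coefficient of `X ^ (∑ α j - ∑ D i)` in the determinant of the
`hasse (D i) (f j)` is `∏ (leading coefficients) * det (∏ t, C(α j t, D i t)) ≠ 0`: expand
(`Matrix.det_apply`); in the product over `i` of `hasse (D i) (f (π i))` with all `D i ≤ α (π i)` the
coefficient of this monomial is the product of the coefficients (the monomial order is compatible with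
addition); if `D i ≤ α (π i)` fails for some `i`, one should see that both sides are zero: it is
convenient to multiply: `X ^ (D i) * hasse (D i) (f j)` has all monomials `≤ α j`, and its coefficient
at `α j` is `lead * ∏ t, C(α j t, D i t)` in all cases; so work with the determinant of
`X ^ (D i) * hasse (D i) (f j)`, which is `X ^ (∑ D i)` times the determinant, and the coefficient
of `X ^ (∑ α j)`. Finally `det (hasse (D i) (f j)) = det (hasse (D i) (φ l)) * C (det A)`. -/
theorem exists_wronskian {M : ℕ} {k : ℕ} (φ : Fin k → MvPolynomial (Fin M) ℚ)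
    (hφ : LinearIndependent ℚ φ) : ∃ D : Fin k → Fin M →₀ ℕ, (∀ i, ∑ t, D i t + 1 ≤ k) ∧
      (Matrix.of fun i l : Fin k => hasse (D i) (φ l)).det ≠ 0 := by
  classical
  obtain ⟨A, -, hA0, hinj⟩ := exists_distinct_degrees φ hφ
  set f : Fin k → MvPolynomial (Fin M) ℚ := fun j => ∑ l, C (A j l) * φ l with hf
  set α : Fin k → Fin M →₀ ℕ := fun j => MonomialOrder.lex.degree (f j) with hα
  obtain ⟨D, hD1, hD2⟩ := exists_interp α hinj
  refine ⟨D, hD1, ?_⟩
  set W : Matrix (Fin k) (Fin k) (MvPolynomial (Fin M) ℚ) :=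
    Matrix.of fun i l : Fin k => hasse (D i) (φ l) with hW
  set G : Matrix (Fin k) (Fin k) (MvPolynomial (Fin M) ℚ) :=
    Matrix.of fun i j : Fin k => hasse (D i) (f j) with hG
  have hGW : G = W * (A.transpose.map C) := by
    ext1 i j
    rw [Matrix.mul_apply, hG, Matrix.of_apply, hf]
    simp only [hasse_sum, hasse_C_mul]
    refine Finset.sum_congr rfl fun l _ => ?_
    rw [hW, Matrix.of_apply, Matrix.map_apply, Matrix.transpose_apply, mul_comm]
  have hGdet : G.det ≠ 0 → W.det ≠ 0 := by
    intro h h0
    apply h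
    rw [hGW, Matrix.det_mul, h0, zero_mul]
  apply hGdet
  set P : Matrix (Fin k) (Fin k) (MvPolynomial (Fin M) ℚ) :=
    Matrix.of fun i j : Fin k => monomial (D i) 1 * hasse (D i) (f j) with hP
  have hPG : P.det = (∏ i, monomial (D i) (1 : ℚ)) * G.det := by
    rw [← Matrix.det_mul_column]
    rfl
  have hPdet : P.det ≠ 0 → G.det ≠ 0 := by
    intro h h0
    apply h
    rw [hPG, h0, mul_zero]
  apply hPdet
  have hcoeff : ∀ (i j : Fin k) (e : Fin M →₀ ℕ), coeff e (P i j) =
      coeff e (f j) * ((∏ t, (e t).choose (D i t) : ℕ) : ℚ) := by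
    intro i j e
    rw [hP, Matrix.of_apply, wronskiB_coeff]
  have hdeg : ∀ i j : Fin k, MonomialOrder.lex.toSyn (MonomialOrder.lex.degree (P i j)) ≤
      MonomialOrder.lex.toSyn (α j) := by
    intro i j
    rw [MonomialOrder.degree_le_iff]
    intro b hb
    rw [MvPolynomial.mem_support_iff, hcoeff] at hb
    exact MonomialOrder.le_degree (MvPolynomial.mem_support_iff.mpr (left_ne_zero_of_mul hb))
  have hmain : coeff (∑ j, α j) P.det = (∏ j, coeff (α j) (f j)) *
      (Matrix.of fun i j : Fin k => ((∏ t, (α j t).choose (D i t) : ℕ) : ℚ)).det := by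
    rw [← Matrix.det_mul_row, Matrix.det_apply, Matrix.det_apply, MvPolynomial.coeff_sum]
    refine Finset.sum_congr rfl fun σ _ => ?_
    rw [Units.smul_def, Units.smul_def, ← Int.cast_smul_eq_zsmul ℚ, ← Int.cast_smul_eq_zsmul ℚ,
      MvPolynomial.coeff_smul, wronskiB_coeff_prod _ _ _ fun i _ => hdeg (σ i) i]
    congr 1
    refine Finset.prod_congr rfl fun i _ => ?_
    rw [hcoeff, Matrix.of_apply, Matrix.of_apply]
  intro h0
  rw [h0, coeff_zero] at hmain
  have h1 : (∏ j, coeff (α j) (f j)) ≠ 0 :=
    Finset.prod_ne_zero_iff.mpr fun j _ => MonomialOrder.coeff_degree_ne_zero_iff.mpr (hA0 j)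
  exact (mul_ne_zero h1 hD2) hmain.symm

end Pool.Agent.Lib.MP_d0d59f_nt.Sb

end

section

namespace Pool.Agent.Lib.MP_d0d59f_nt.Sb

open MvPolynomial

/-- the polynomial of one variable as a polynomial in `X 0` -/
noncomputable def wronskiEmb : Polynomial ℚ →ₐ[ℚ] MvPolynomial (Fin 1) ℚ :=
  Polynomial.aeval (X 0)

theorem wronski_coeff (p : Polynomial ℚ) (e : Fin 1 →₀ ℕ) :
    coeff e (wronskiEmb p) = p.coeff (e 0) := by
  classical
  induction p using Polynomial.induction_on' with
  | add p q hp hq => rw [map_add, coeff_add, hp, hq, Polynomial.coeff_add]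
  | monomial n a =>
    have h1 : wronskiEmb (Polynomial.monomial n a) = monomial (Finsupp.single 0 n) a := by
      rw [wronskiEmb, Polynomial.aeval_monomial, MvPolynomial.algebraMap_eq,
        MvPolynomial.X_pow_eq_monomial, C_mul_monomial, mul_one]
    rw [h1, coeff_monomial, Polynomial.coeff_monomial]
    have h2 : (Finsupp.single 0 n = e) ↔ (n = e 0) := by
      constructor
      · intro h
        rw [← h]
        simp
      · intro h
        rw [h]
        ext
        simp
    simp only [h2]

theorem wronski_inj : Function.Injective wronskiEmb := by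
  intro p q h
  ext n
  have := congrArg (coeff (Finsupp.single 0 n)) h
  rw [wronski_coeff, wronski_coeff] at this
  simpa using this

theorem wronski_hasse (p : Polynomial ℚ) (D : Fin 1 →₀ ℕ) :
    hasse D (wronskiEmb p) = wronskiEmb (Polynomial.hasseDeriv (D 0) p) := by
  classical
  ext e
  rw [coeff_hasse, wronski_coeff, wronski_coeff, Polynomial.hasseDeriv_coeff]
  simp [mul_comm]

/-- The same for one variable: here the derivatives have the orders `0, ..., k - 1`. Copy the proof (with
`Polynomial.natDegree` and `det (C(n j, i)) ≠ 0` for different `n j`: it is a Vandermonde determinant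
up to factorials), or deduce it from `exists_wronskian` for `M = 1`: the orders `D i 0 ≤ k - 1` are
different, so they are a permutation of `0, ..., k - 1`. -/
theorem wronskian_one {k : ℕ} (ψ : Fin k → Polynomial ℚ) (hψ : LinearIndependent ℚ ψ) :
    (Matrix.of fun l s : Fin k => Polynomial.hasseDeriv s (ψ l)).det ≠ 0 := by
  classical
  have hφ : LinearIndependent ℚ fun l => wronskiEmb (ψ l) :=
    hψ.map' wronskiEmb.toLinearMap (LinearMap.ker_eq_bot.mpr wronski_inj)
  obtain ⟨D, hD1, hD2⟩ := exists_wronskian _ hφ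
  have hlt : ∀ i, D i 0 < k := by
    intro i
    have := hD1 i
    rw [Fin.sum_univ_one] at this
    omega
  set σ : Fin k → Fin k := fun i => ⟨D i 0, hlt i⟩ with hσ
  have hinj : Function.Injective σ := by
    intro i j hij
    by_contra hne
    apply hD2
    have hDD : D i = D j := by
      ext
      simpa [hσ] using hij
    exact Matrix.det_zero_of_row_eq hne (by
      funext l
      simp only [Matrix.of_apply, hDD])
  have hbij : Function.Bijective σ := Finite.injective_iff_bijective.mp hinj
  set τ : Equiv.Perm (Fin k) := Equiv.ofBijective σ hbij with hτ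
  intro h0
  apply hD2
  have h1 : (Matrix.of fun i l : Fin k => hasse (D i) (wronskiEmb (ψ l))) =
      (((Matrix.of fun l s : Fin k => Polynomial.hasseDeriv s (ψ l)).transpose.submatrix
        τ (Equiv.refl _)).map wronskiEmb) := by
    ext1 i l
    rw [Matrix.of_apply, wronski_hasse]
    rfl
  rw [h1]
  have h2 : (((Matrix.of fun l s : Fin k => Polynomial.hasseDeriv s (ψ l)).transpose.submatrix
        τ (Equiv.refl _)).map wronskiEmb).det =
      wronskiEmb ((Matrix.of fun l s : Fin k => Polynomial.hasseDeriv s (ψ l)).transpose.submatrix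
        τ (Equiv.refl _)).det := by
    exact (AlgHom.map_det wronskiEmb _).symm
  rw [h2]
  have h3 : ((Matrix.of fun l s : Fin k => Polynomial.hasseDeriv s (ψ l)).transpose.submatrix
        τ (Equiv.refl _)).det = 0 := by
    have := Matrix.det_permute τ (Matrix.of fun l s : Fin k => Polynomial.hasseDeriv s (ψ l)).transpose
    rw [Matrix.det_transpose, h0, mul_zero] at this
    exact this
  rw [h3, map_zero]

end Pool.Agent.Lib.MP_d0d59f_nt.Sb

end
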