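import Pool.Agent.Lib.MP_d0d59f_nt.Sub.Heights
import Pool.Agent.Lib.MP_d0d59f_nt.Sub.PolyIndex
import Pool.Agent.Lib.MP_d0d59f_nt.Sub.Wronskians

/-!
Roth lemma on the index of polynomials in several variables.
-/

section

namespace Pool.Agent.Lib.MP_d0d59f_nt.Sb

open Auto

theorem rothOne_primitive (ξ : ℚ) :
    (Polynomial.C (ξ.den : ℤ) * Polynomial.X - Polynomial.C ξ.num : Polynomial ℤ).IsPrimitive := by
  rw [Polynomial.isPrimitive_iff_isUnit_of_C_dvd]
  intro r hr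
  rw [Polynomial.C_dvd_iff_dvd_coeff] at hr
  have h0 := hr 0
  have h1 := hr 1
  simp only [Polynomial.coeff_sub, Polynomial.coeff_C_mul, Polynomial.coeff_X_zero, mul_zero,
    Polynomial.coeff_C_zero, zero_sub, dvd_neg] at h0
  simp only [Polynomial.coeff_sub, Polynomial.coeff_C_mul, Polynomial.coeff_X_one, mul_one,
    Polynomial.coeff_C_succ, sub_zero] at h1
  have h2 : IsCoprime ξ.num (ξ.den : ℤ) := Rat.isCoprime_num_den ξ
  exact h2.isUnit_of_dvd' h0 h1

theorem rothOne_lead (ξ : ℚ) :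
    (Polynomial.C (ξ.den : ℤ) * Polynomial.X - Polynomial.C ξ.num : Polynomial ℤ).leadingCoeff =
      ξ.den := by
  have h : (Polynomial.C (ξ.den : ℤ) * Polynomial.X - Polynomial.C ξ.num : Polynomial ℤ) =
      Polynomial.C (ξ.den : ℤ) * Polynomial.X + Polynomial.C (-ξ.num) := by
    rw [Polynomial.C_neg, sub_eq_add_neg]
  rw [h]
  exact Polynomial.leadingCoeff_linear (by exact_mod_cast ξ.den_ne_zero)

theorem rothOne_trail (ξ : ℚ) (hξ : ξ.num ≠ 0) :
    (Polynomial.C (ξ.den : ℤ) * Polynomial.X - Polynomial.C ξ.num : Polynomial ℤ).trailingCoeff =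
      - ξ.num := by
  have h0 : (Polynomial.C (ξ.den : ℤ) * Polynomial.X - Polynomial.C ξ.num : Polynomial ℤ).coeff 0 =
      - ξ.num := by
    simp
  have h1 : (Polynomial.C (ξ.den : ℤ) * Polynomial.X - Polynomial.C ξ.num :
      Polynomial ℤ).natTrailingDegree = 0 := by
    rw [Polynomial.natTrailingDegree_eq_zero]
    right
    rw [h0]
    exact neg_ne_zero.2 hξ
  rw [Polynomial.trailingCoeff, h1, h0]

theorem rothOne_trail_pow (P : Polynomial ℤ) (e : ℕ) :
    (P ^ e).trailingCoeff = P.trailingCoeff ^ e := by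
  induction e with
  | zero =>
    rw [pow_zero, pow_zero]
    have : (1 : Polynomial ℤ).natTrailingDegree = 0 := Polynomial.natTrailingDegree_one
    rw [Polynomial.trailingCoeff, this, Polynomial.coeff_one_zero]
  | succ n ih => rw [pow_succ, pow_succ, Polynomial.trailingCoeff_mul, ih]

theorem rothOne_prim_pow (P : Polynomial ℤ) (hP : P.IsPrimitive) (e : ℕ) : (P ^ e).IsPrimitive := by
  induction e with
  | zero => rw [pow_zero]; exact Polynomial.isPrimitive_one
  | succ n ih => rw [pow_succ]; exact ih.mul hP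

theorem rothOne_dvd (V : Polynomial ℤ) (ξ : ℚ) :
    (Polynomial.C (ξ.den : ℤ) * Polynomial.X - Polynomial.C ξ.num : Polynomial ℤ) ^
      ((V.map (Int.castRingHom ℚ)).rootMultiplicity ξ) ∣ V := by
  rw [Polynomial.IsPrimitive.Int.dvd_iff_map_cast_dvd_map_cast _ _
    (rothOne_prim_pow _ (rothOne_primitive ξ) _)]
  have h1 : (Polynomial.C (ξ.den : ℤ) * Polynomial.X - Polynomial.C ξ.num : Polynomial ℤ).map
      (Int.castRingHom ℚ) = Polynomial.C (ξ.den : ℚ) * (Polynomial.X - Polynomial.C ξ) := by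
    rw [Polynomial.map_sub, Polynomial.map_mul, Polynomial.map_C, Polynomial.map_C,
      Polynomial.map_X, mul_sub, ← Polynomial.C_mul]
    have : (ξ.den : ℚ) * ξ = ξ.num := Rat.den_mul_eq_num ξ
    rw [this]
    simp
  rw [Polynomial.map_pow, h1, mul_pow, ← Polynomial.C_pow]
  have h2 : IsUnit (Polynomial.C ((ξ.den : ℚ) ^ ((V.map (Int.castRingHom ℚ)).rootMultiplicity ξ))) := by
    rw [Polynomial.isUnit_C]
    exact (isUnit_iff_ne_zero).2 (pow_ne_zero _ (by exact_mod_cast ξ.den_ne_zero))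
  rw [h2.mul_left_dvd]
  exact Polynomial.pow_rootMultiplicity_dvd _ _

theorem rothOne_aux {x y : ℤ} (e : ℕ) {H : ℝ} (hx : x ≠ 0) (hy : y ≠ 0)
    (hH : |((x ^ e * y : ℤ) : ℝ)| ≤ Real.exp H) : (e : ℝ) * Real.log |(x : ℝ)| ≤ H := by
  have h1 : (1 : ℝ) ≤ |(y : ℝ)| := by
    rw [← Int.cast_abs]
    exact_mod_cast Int.one_le_abs hy
  have h2 : |(x : ℝ)| ^ e ≤ Real.exp H := by
    refine le_trans ?_ hH
    push_cast
    rw [abs_mul, abs_pow]
    exact le_mul_of_one_le_right (by positivity) h1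
  have h3 : (0 : ℝ) < |(x : ℝ)| := abs_pos.2 (by exact_mod_cast hx)
  rw [← Real.log_pow]
  calc Real.log (|(x : ℝ)| ^ e) ≤ Real.log (Real.exp H) := Real.log_le_log (by positivity) h2
    _ = H := Real.log_exp H

/-- Let `ξ = p / q` in lowest terms and `e` the multiplicity. By Gauss's lemma `(q X - p) ^ e` divides `V`
in `ℤ[X]` (`q X - p` is primitive, so its powers are primitive;
`Polynomial.IsPrimitive.Int.dvd_iff_map_cast_dvd_map_cast`). So `q ^ e` divides the leading coefficient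
of `V` and (if `p ≠ 0`) `p ^ e` divides the lowest nonzero coefficient (`Polynomial.trailingCoeff_mul`).
So `max |p| q ^ e ≤ exp H`. -/
theorem roth_one (V : Polynomial ℤ) (hV : V ≠ 0) (ξ : ℚ) {H : ℝ}
    (hH : ∀ s, |(V.coeff s : ℝ)| ≤ Real.exp H) :
    ((V.map (Int.castRingHom ℚ)).rootMultiplicity ξ : ℝ) * Real.log (ht ξ) ≤ H := by
  obtain ⟨W, hW⟩ := rothOne_dvd V ξ
  have hW0 : W ≠ 0 := by
    rintro rfl
    exact hV (by rw [hW, mul_zero])
  rcases le_or_gt ξ.num.natAbs ξ.den with h | h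
  · have h1 : ht ξ = ξ.den := max_eq_right h
    have h2 : V.leadingCoeff = (ξ.den : ℤ) ^ ((V.map (Int.castRingHom ℚ)).rootMultiplicity ξ) *
        W.leadingCoeff := by
      conv_lhs => rw [hW]
      rw [Polynomial.leadingCoeff_mul, Polynomial.leadingCoeff_pow, rothOne_lead]
    have h3 := hH V.natDegree
    have h4 : V.coeff V.natDegree = V.leadingCoeff := rfl
    rw [h4, h2] at h3
    have h5 := rothOne_aux _ (by exact_mod_cast ξ.den_ne_zero)
      (Polynomial.leadingCoeff_ne_zero.2 hW0) h3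
    rw [h1]
    rw [Int.cast_natCast, Nat.abs_cast] at h5
    exact h5
  · have h1 : ht ξ = ξ.num.natAbs := max_eq_left h.le
    have hp : ξ.num ≠ 0 := by
      intro h0
      rw [h0] at h
      simp at h
    have h2 : V.trailingCoeff = (- ξ.num) ^ ((V.map (Int.castRingHom ℚ)).rootMultiplicity ξ) *
        W.trailingCoeff := by
      conv_lhs => rw [hW]
      rw [Polynomial.trailingCoeff_mul, rothOne_trail_pow, rothOne_trail ξ hp]
    have h3 := hH V.natTrailingDegree
    have h4 : V.coeff V.natTrailingDegree = V.trailingCoeff := rfl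
    rw [h4, h2] at h3
    have h5 := rothOne_aux _ (neg_ne_zero.2 hp)
      ((Polynomial.trailingCoeff_nonzero_iff_nonzero).2 hW0) h3
    rw [h1]
    have h6 : |((-ξ.num : ℤ) : ℝ)| = ((ξ.num.natAbs : ℕ) : ℝ) := by
      rw [Int.cast_neg, abs_neg, Nat.cast_natAbs, Int.cast_abs]
    rw [h6] at h5
    exact h5

end Pool.Agent.Lib.MP_d0d59f_nt.Sb

end

section

namespace Pool.Agent.Lib.MP_d0d59f_nt.Sb

open MvPolynomial Auto

/-- If `k - 1 ≤ θ d / 4` then all `k` terms are at least `θ / 4`. Else the terms with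
`s ≤ θ d / 4` are at least `θ / 4`, and their number is at least `θ d / 4 ≥ θ k / 8`. -/
theorem sum_max_ge {d k : ℕ} (hd : 0 < d) (hk : k ≤ d + 1) {θ : ℝ} (h0 : 0 < θ) (h1 : θ ≤ 1) :
    k * θ ^ 2 / 32 ≤ ∑ s : Fin k, max 0 (θ / 2 - (s : ℝ) / d) := by
  have hd' : (0 : ℝ) < d := by exact_mod_cast hd
  obtain ⟨m, hm⟩ : ∃ m, m = ⌊θ * d / 4⌋₊ := ⟨_, rfl⟩
  have hm1 : (m : ℝ) ≤ θ * d / 4 := by
    rw [hm]; exact Nat.floor_le (by positivity)
  have hm2 : θ * d / 4 < m + 1 := by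
    rw [hm]; exact Nat.lt_floor_add_one _
  obtain ⟨n, hn⟩ : ∃ n, n = min k (m + 1) := ⟨_, rfl⟩
  have hnk : n ≤ k := by rw [hn]; exact min_le_left _ _
  have hnm : n ≤ m + 1 := by rw [hn]; exact min_le_right _ _
  have hk' : (k : ℝ) ≤ 2 * d := by
    have h2 : k ≤ 2 * d := by omega
    exact_mod_cast h2
  have hkn : (k : ℝ) * θ ≤ 8 * n := by
    rcases le_total k (m + 1) with h | h
    · have : n = k := by rw [hn]; exact min_eq_left h
      rw [this]
      have hk0 : (0 : ℝ) ≤ k := Nat.cast_nonneg _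
      nlinarith
    · have : n = m + 1 := by rw [hn]; exact min_eq_right h
      rw [this]
      push_cast
      nlinarith
  have hsum : (n : ℝ) * (θ / 4) ≤ ∑ s : Fin k, max 0 (θ / 2 - (s : ℝ) / d) := by
    rw [Fin.sum_univ_eq_sum_range (fun s => max 0 (θ / 2 - (s : ℝ) / d)) k]
    calc (n : ℝ) * (θ / 4) = ∑ _s ∈ Finset.range n, θ / 4 := by
          rw [Finset.sum_const, Finset.card_range, nsmul_eq_mul]
      _ ≤ ∑ s ∈ Finset.range n, max 0 (θ / 2 - (s : ℝ) / d) := by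
          refine Finset.sum_le_sum fun s hs => le_max_of_le_right ?_
          have h2 : s ≤ m := by
            have := Finset.mem_range.mp hs
            omega
          have h3 : (s : ℝ) ≤ θ * d / 4 := le_trans (by exact_mod_cast h2) hm1
          have h4 : (s : ℝ) / d ≤ θ / 4 := by
            rw [div_le_iff₀ hd']
            linarith
          linarith
      _ ≤ ∑ s ∈ Finset.range k, max 0 (θ / 2 - (s : ℝ) / d) :=
          Finset.sum_le_sum_of_subset_of_nonneg (Finset.range_subset_range.mpr hnk)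
            fun _ _ _ => le_max_left _ _
  refine le_trans ?_ hsum
  nlinarith [mul_le_mul_of_nonneg_right hkn h0.le]

/-- Roth's lemma for `M` variables -/
def RothClaim (M : ℕ) : Prop := ∀ θ : ℝ, 0 < θ → ∃ σ : ℝ, 0 < σ ∧
  ∀ (d : Fin M → ℕ) (ξ : Fin M → ℚ) (F : MvPolynomial (Fin M) ℤ) (H : ℝ), F ≠ 0 →
    (∀ j, 0 < d j) → (∀ j, degreeOf j F ≤ d j) → (∀ i j, i < j → (d i : ℝ) ≤ σ * d j) →
    (∀ e, |((coeff e F : ℤ) : ℝ)| ≤ Real.exp H) →
    (∀ i j, H + ((M : ℝ) + 1) ^ 2 * d i ≤ σ * d j * Real.log (ht (ξ j))) →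
    ¬ IdxGe d ξ θ (map (Int.castRingHom ℚ) F)

/-- `F` is a nonzero constant; its index is zero. -/
theorem roth_zero : RothClaim 0 := by
  intro θ hθ
  refine ⟨1, one_pos, ?_⟩
  intro d ξ F H hF _ _ _ _ _ hidx
  have hinj : Function.Injective (map (σ := Fin 0) (Int.castRingHom ℚ)) :=
    map_injective _ (RingHom.injective_int (Int.castRingHom ℚ))
  have hFQ : map (Int.castRingHom ℚ) F ≠ 0 := fun h0 => hF (hinj (by rw [h0, map_zero]))
  have hS : shift ξ (map (Int.castRingHom ℚ) F) ≠ 0 := fun h0 =>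
    hFQ (shift_injective ξ (by rw [h0, map_zero]))
  obtain ⟨e, he⟩ := MvPolynomial.ne_zero_iff.mp hS
  have := hidx e (MvPolynomial.mem_support_iff.mpr he)
  rw [Fin.sum_univ_zero] at this
  exact absurd this (not_le.mpr hθ)

end Pool.Agent.Lib.MP_d0d59f_nt.Sb

end

section

namespace Pool.Agent.Lib.MP_d0d59f_nt.Sb

open MvPolynomial Auto

theorem rothB_deg {M : ℕ} (F : MvPolynomial (Fin M) ℤ) (j : Fin M) :
    degreeOf j (map (Int.castRingHom ℚ) F) ≤ degreeOf j F := by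
  classical
  rw [degreeOf_le_iff]
  intro m hm
  refine monomial_le_degreeOf j ?_
  rw [mem_support_iff] at hm ⊢
  intro h
  apply hm
  rw [coeff_map, h, map_zero]

theorem rothB_card {M : ℕ} (F : MvPolynomial (Fin M) ℚ) (d : Fin M → ℕ)
    (hd : ∀ j, degreeOf j F ≤ d j) : F.support.card ≤ 2 ^ (∑ j, d j) := by
  classical
  have h1 : F.support.card ≤ (Fintype.piFinset fun j => Finset.range (d j + 1)).card := by
    refine Finset.card_le_card_of_injOn (fun e => (e : Fin M → ℕ)) ?_ ?_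
    · intro e he
      simp only [Fintype.mem_piFinset, Finset.mem_coe, Finset.mem_range]
      intro j
      have := (monomial_le_degreeOf j he).trans (hd j)
      omega
    · intro e _ e' _ h
      exact DFunLike.coe_injective h
  refine h1.trans ?_
  rw [Fintype.card_piFinset]
  simp only [Finset.card_range]
  rw [← Finset.prod_pow_eq_pow_sum]
  exact Finset.prod_le_prod' fun j _ => (Nat.lt_two_pow_self (n := d j))

theorem rothB_pnorm {M : ℕ} (F : MvPolynomial (Fin M) ℤ) (d : Fin M → ℕ)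
    (hd : ∀ j, degreeOf j F ≤ d j) {H : ℝ}
    (hF : ∀ e, |((coeff e F : ℤ) : ℝ)| ≤ Real.exp H) :
    pnorm Rat.AbsoluteValue.real (fun _ => 1) (map (Int.castRingHom ℚ) F) ≤
      2 ^ (∑ j, d j) * Real.exp H := by
  have hd' : ∀ j, degreeOf j (map (Int.castRingHom ℚ) F) ≤ d j := by
    intro j
    exact (rothB_deg F j).trans (hd j)
  have h1 := rothB_card _ d hd'
  unfold pnorm
  calc ∑ e ∈ (map (Int.castRingHom ℚ) F).support,
        Rat.AbsoluteValue.real (coeff e (map (Int.castRingHom ℚ) F)) * ∏ i, (1 : ℝ) ^ e i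
      ≤ ∑ _e ∈ (map (Int.castRingHom ℚ) F).support, Real.exp H := by
        refine Finset.sum_le_sum fun e _ => ?_
        have : Rat.AbsoluteValue.real (coeff e (map (Int.castRingHom ℚ) F)) =
            |((coeff e F : ℤ) : ℝ)| := by
          rw [coeff_map]
          show |(((Int.castRingHom ℚ) (coeff e F) : ℚ) : ℝ)| = _
          simp
        rw [this]
        simpa using hF e
    _ = ((map (Int.castRingHom ℚ) F).support.card : ℝ) * Real.exp H := by
        rw [Finset.sum_const, nsmul_eq_mul]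
    _ ≤ _ := by
        gcongr
        exact_mod_cast h1

/-- The size of the determinant. `pnorm` (real absolute value, weights one) of the polynomial over `ℚ`:
`pnorm F ≤ (number of monomials) * exp H ≤ 2 ^ (∑ d) * exp H` (the support is contained in a box with
`∏ (d j + 1) ≤ 2 ^ (∑ d)` elements), `pnorm (hasse F) ≤ 4 ^ (∑ d) * exp H` (`pnorm_hasse_le`),
`∑ d ≤ (M + 1) dm`, and (`pnorm_det_le`, `hasse_map`) the `pnorm` of the determinant is at most
`k! (4 ^ (∑ d) * exp H) ^ k ≤ exp (k (H + (2 M + 3) dm))`, because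
`k! ≤ k ^ k ≤ 2 ^ (d 0 * k)` (`k ≤ d 0 + 1 ≤ 2 ^ d 0`) and `log 2 + 2 (M + 1) log 2 ≤ 2 M + 3`.
(`log 2 < 0.6931472`.) `coeff_le_pnorm`. -/
theorem roth_size {M k : ℕ} (F : MvPolynomial (Fin (M + 1)) ℤ) (d : Fin (M + 1) → ℕ)
    (hd : ∀ j, degreeOf j F ≤ d j) {dm : ℕ} (hdm : ∀ j, d j ≤ dm) (hk : k ≤ d 0 + 1) (h0 : 0 < d 0)
    {H : ℝ} (hF : ∀ e, |((coeff e F : ℤ) : ℝ)| ≤ Real.exp H) (D : Fin k → Fin M →₀ ℕ)
    (e : Fin (M + 1) →₀ ℕ) :
    |((coeff e (Matrix.of fun i s : Fin k =>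
        hasse (Finsupp.cons (s : ℕ) (D i)) F).det : ℤ) : ℝ)| ≤
      Real.exp (k * (H + (2 * M + 3) * dm)) := by
  set W : Matrix (Fin k) (Fin k) (MvPolynomial (Fin (M + 1)) ℤ) := Matrix.of fun i s : Fin k =>
        hasse (Finsupp.cons (s : ℕ) (D i)) F with hW
  set G := map (Int.castRingHom ℚ) F with hG
  have hd' : ∀ j, degreeOf j G ≤ d j := by
    intro j
    rw [hG]
    exact (rothB_deg F j).trans (hd j)
  have h2 : (0 : ℝ) < Real.exp H := Real.exp_pos _
  have hB : (0 : ℝ) ≤ 2 ^ (∑ j, d j) * (2 ^ (∑ j, d j) * Real.exp H) := by positivity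
  have hent : ∀ i s, pnorm Rat.AbsoluteValue.real (fun _ => 1)
      (((map (Int.castRingHom ℚ)).mapMatrix W) i s) ≤
        2 ^ (∑ j, d j) * (2 ^ (∑ j, d j) * Real.exp H) := by
    intro i s
    have : ((map (Int.castRingHom ℚ)).mapMatrix W) i s =
        hasse (Finsupp.cons (s : ℕ) (D i)) G := by
      rw [RingHom.mapMatrix_apply, Matrix.map_apply, hW, Matrix.of_apply, hG, hasse_map]
    rw [this]
    refine (pnorm_hasse_le _ _ d hd').trans ?_
    gcongr
    exact rothB_pnorm F d hd hF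
  have hdet := pnorm_det_le (a := Rat.AbsoluteValue.real) (r := fun _ : Fin (M + 1) => (1 : ℝ))
    (fun _ => zero_le_one) _ hB hent
  have hcoe := coeff_le_pnorm (a := Rat.AbsoluteValue.real) (r := fun _ : Fin (M + 1) => (1 : ℝ))
    (fun _ => zero_le_one) ((map (Int.castRingHom ℚ)).mapMatrix W).det e
  rw [← RingHom.map_det] at hdet hcoe
  have hval : Rat.AbsoluteValue.real (coeff e (map (Int.castRingHom ℚ) W.det)) =
      |((coeff e W.det : ℤ) : ℝ)| := by
    rw [coeff_map]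
    show |(((Int.castRingHom ℚ) (coeff e W.det) : ℚ) : ℝ)| = _
    simp
  rw [hval] at hcoe
  simp only [one_pow, Finset.prod_const_one, mul_one] at hcoe
  refine (hcoe.trans hdet).trans ?_
  have hS : (∑ j, d j) ≤ (M + 1) * dm := by
    calc (∑ j, d j) ≤ ∑ _j : Fin (M + 1), dm := Finset.sum_le_sum fun j _ => hdm j
      _ = (M + 1) * dm := by simp
  have h2e : (2 : ℝ) ≤ Real.exp 1 := by
    have := Real.add_one_le_exp (1 : ℝ)
    linarith
  have hfac : (k.factorial : ℝ) ≤ Real.exp dm ^ k := by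
    have h3 : k ≤ 2 ^ d 0 := hk.trans (Nat.lt_two_pow_self (n := d 0))
    calc (k.factorial : ℝ) ≤ (k : ℝ) ^ k := by exact_mod_cast Nat.factorial_le_pow k
      _ ≤ ((2 : ℝ) ^ d 0) ^ k := by
        gcongr
        exact_mod_cast h3
      _ ≤ ((2 : ℝ) ^ dm) ^ k := by
        gcongr
        · norm_num
        · exact hdm 0
      _ ≤ (Real.exp 1 ^ dm) ^ k := by gcongr
      _ = Real.exp dm ^ k := by
        rw [← Real.exp_nat_mul, mul_one]
  have hpw : (2 : ℝ) ^ (∑ j, d j) ≤ Real.exp ((M + 1) * dm) := by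
    calc (2 : ℝ) ^ (∑ j, d j) ≤ 2 ^ ((M + 1) * dm) := by
          gcongr
          norm_num
      _ ≤ Real.exp 1 ^ ((M + 1) * dm) := by gcongr
      _ = Real.exp ((M + 1) * dm) := by
        rw [← Real.exp_nat_mul, mul_one]
        push_cast
        ring_nf
  calc (k.factorial : ℝ) * (2 ^ (∑ j, d j) * (2 ^ (∑ j, d j) * Real.exp H)) ^ k
      ≤ Real.exp dm ^ k * (Real.exp ((M + 1) * dm) * (Real.exp ((M + 1) * dm) * Real.exp H)) ^ k := by
        gcongr
    _ = Real.exp (k * (H + (2 * M + 3) * dm)) := by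
        rw [← mul_pow, ← Real.exp_add, ← Real.exp_add, ← Real.exp_add, ← Real.exp_nat_mul]
        congr 1
        ring

end Pool.Agent.Lib.MP_d0d59f_nt.Sb

end

section

namespace Pool.Agent.Lib.MP_d0d59f_nt.Sb

open MvPolynomial Auto

/-- The index of the determinant. `∑ t, D i t / d t.succ ≤ ∑ t, D i t * σ / d 0 ≤ σ ≤ θ / 2` as
`d 0 ≤ σ d t.succ` and `∑ t, D i t ≤ k - 1 ≤ d 0` (for `M = 0` the sum is `0`; for `M > 0`, `σ > 0`). So
`hasse (cons s (D i)) F` has index at least `max 0 (θ / 2 - s / d 0)` (`IdxGe.hasse`,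
`Fin.sum_univ_succ`, `Finsupp.cons_zero`, `Finsupp.cons_succ`, `idxGe_of_nonpos`, `IdxGe.mono`), the
index of the determinant is at least `∑ s, max 0 (θ / 2 - s / d 0) ≥ k θ ^ 2 / 32` (`IdxGe.det`,
`sum_max_ge`). -/
theorem roth_index {M k : ℕ} {F : MvPolynomial (Fin (M + 1)) ℚ} {d : Fin (M + 1) → ℕ}
    (hd : ∀ j, 0 < d j) {ξ : Fin (M + 1) → ℚ} {θ σ : ℝ} (h0 : 0 < θ) (h1 : θ ≤ 1)
    (hF : IdxGe d ξ θ F) (hσ : σ ≤ θ / 2) (hσd : ∀ j : Fin M, (d 0 : ℝ) ≤ σ * d j.succ)
    (hk : k ≤ d 0 + 1) (D : Fin k → Fin M →₀ ℕ) (hD : ∀ i, ∑ t, D i t + 1 ≤ k) :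
    IdxGe d ξ (k * θ ^ 2 / 32)
      (Matrix.of fun i s : Fin k => hasse (Finsupp.cons (s : ℕ) (D i)) F).det := by
  have hd0 : (0 : ℝ) < d 0 := by exact_mod_cast hd 0
  have key : ∀ i : Fin k, ∑ t, (D i t : ℝ) / d t.succ ≤ θ / 2 := by
    intro i
    rcases Nat.eq_zero_or_pos M with hM | hM
    · subst hM
      simp
      linarith
    · have hσ0 : 0 < σ := by
        have h2 := hσd ⟨0, hM⟩
        by_contra hneg
        have h3 : σ * (d (Fin.succ ⟨0, hM⟩) : ℝ) ≤ 0 :=
          mul_nonpos_of_nonpos_of_nonneg (not_lt.mp hneg) (Nat.cast_nonneg _)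
        linarith
      have h4 : ∑ t, (D i t : ℝ) / d t.succ ≤ ∑ t, (D i t : ℝ) * (σ / d 0) := by
        refine Finset.sum_le_sum fun t _ => ?_
        have ht : (0 : ℝ) < d t.succ := by exact_mod_cast hd t.succ
        rw [div_eq_mul_inv]
        refine mul_le_mul_of_nonneg_left ?_ (Nat.cast_nonneg _)
        rw [inv_eq_one_div, div_le_div_iff₀ ht hd0]
        linarith [hσd t]
      have h5 : (∑ t, (D i t : ℝ)) ≤ d 0 := by
        have h6 := hD i
        have h7 : ∑ t, D i t ≤ d 0 := by omega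
        exact_mod_cast h7
      refine h4.trans ?_
      rw [← Finset.sum_mul]
      calc (∑ t, (D i t : ℝ)) * (σ / d 0) ≤ d 0 * (σ / d 0) := by gcongr
        _ = σ := by field_simp
        _ ≤ θ / 2 := hσ
  have hent : ∀ i s : Fin k, IdxGe d ξ (max 0 (θ / 2 - ((s : ℕ) : ℝ) / d 0))
      ((Matrix.of fun i s : Fin k => hasse (Finsupp.cons (s : ℕ) (D i)) F) i s) := by
    intro i s
    rw [Matrix.of_apply]
    rcases le_total (θ / 2 - ((s : ℕ) : ℝ) / d 0) 0 with h | h
    · rw [max_eq_left h]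
      exact idxGe_of_nonpos le_rfl _
    · rw [max_eq_right h]
      refine IdxGe.mono ?_ (hF.hasse (Finsupp.cons (s : ℕ) (D i)))
      rw [Fin.sum_univ_succ]
      simp only [Finsupp.cons_zero, Finsupp.cons_succ]
      have := key i
      linarith
  have hdet := IdxGe.det hent
  exact IdxGe.mono (sum_max_ge (hd 0) hk h0 h1) hdet

end Pool.Agent.Lib.MP_d0d59f_nt.Sb

end

section

namespace Pool.Agent.Lib.MP_d0d59f_nt.Sb

open MvPolynomial Auto

/-- the degree of the generalised Wronskian -/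
theorem Roth_degree_det {M k : ℕ} (φ : Fin k → MvPolynomial (Fin M) ℚ) (D : Fin k → Fin M →₀ ℕ)
    (j : Fin M) {n : ℕ} (h : ∀ l, degreeOf j (φ l) ≤ n) :
    degreeOf j (Matrix.of fun i l : Fin k => hasse (D i) (φ l)).det ≤ k * n := by
  rw [Matrix.det_apply]
  refine (degreeOf_sum_le j _ _).trans (Finset.sup_le fun π _ => ?_)
  have h1 : degreeOf j (∏ i, (Matrix.of fun i l : Fin k => hasse (D i) (φ l)) (π i) i) ≤ k * n := by
    refine (degreeOf_prod_le j _ _).trans ?_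
    calc ∑ i, degreeOf j ((Matrix.of fun i l : Fin k => hasse (D i) (φ l)) (π i) i)
        ≤ ∑ _i : Fin k, n := Finset.sum_le_sum fun i _ => by
          rw [Matrix.of_apply]
          exact (degreeOf_hasse_le _ _ _).trans (h i)
      _ = k * n := by simp
  rcases Int.units_eq_one_or (Equiv.Perm.sign π) with hs | hs
  · rw [hs, one_smul]
    exact h1
  · rw [hs, Units.neg_smul, one_smul, degreeOf_neg]
    exact h1

/-- the degrees of a polynomial over the integers -/
theorem Roth_degree_map {M : ℕ} (F : MvPolynomial (Fin M) ℤ) (j : Fin M) :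
    degreeOf j (map (Int.castRingHom ℚ) F) = degreeOf j F := by
  classical
  rw [degreeOf_eq_sup, degreeOf_eq_sup,
    support_map_of_injective F (RingHom.injective_int (Int.castRingHom ℚ))]

/-- the determinant over the integers -/
theorem Roth_map_det {M k : ℕ} (F : MvPolynomial (Fin (M + 1)) ℤ) (D : Fin k → Fin M →₀ ℕ) :
    map (Int.castRingHom ℚ) (Matrix.of fun i s : Fin k =>
        hasse (Finsupp.cons (s : ℕ) (D i)) F).det =
      (Matrix.of fun i s : Fin k =>
        hasse (Finsupp.cons (s : ℕ) (D i)) (map (Int.castRingHom ℚ) F)).det := by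
  rw [RingHom.map_det]
  congr 1
  ext1 i s
  simp only [RingHom.mapMatrix_apply, Matrix.map_apply, Matrix.of_apply]
  rw [hasse_map]

/-- a nonzero integral polynomial with coefficients at most `exp H` -/
theorem Roth_nonneg {M : ℕ} {F : MvPolynomial (Fin M) ℤ} (hF : F ≠ 0) {H : ℝ}
    (h : ∀ e, |((coeff e F : ℤ) : ℝ)| ≤ Real.exp H) : 0 ≤ H := by
  obtain ⟨e, he⟩ := MvPolynomial.ne_zero_iff.mp hF
  have h1 : (1 : ℤ) ≤ |coeff e F| := Int.one_le_abs he
  have h2 : (1 : ℝ) ≤ |((coeff e F : ℤ) : ℝ)| := by exact_mod_cast h1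
  have h3 : (1 : ℝ) ≤ Real.exp H := h2.trans (h e)
  exact Real.one_le_exp_iff.mp h3

/-- Proof. Let `θ ≤ 1` without loss of generality (`IdxGe.mono`), `θ₁ = θ ^ 2 / 64`, `σ'` the number for
`M` and `θ₁`, `σ = min (θ / 2) (min σ' (θ₁ / 2))`. Let `F` have index `≥ θ`. `exists_decomp` gives
`k, φ, ψ`; `exists_wronskian`: `D`; `U = det (hasse (D i) (φ l))`, `V = det (hasseDeriv s (ψ l))`
(`wronskian_one`), both not zero; let `W₀ = det (hasse (cons s (D i)) F)` over `ℤ` (`hasse_map`), so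
`map W₀ = rename succ U * toZero V` (`det_hasse`).
Index: `roth_index` (for `map F`): the index of `map W₀` is at least `k θ ^ 2 / 32 = 2 k θ₁`;
`IdxGe.disjoint`: either `U` has index `≥ k θ₁` or `k θ₁ d 0 ≤` the multiplicity `m` of the root `ξ 0`
of `V`.
Size: `roth_size` with `dm = max d`: the coefficients of `W₀` are at most `exp (k H')`,
`H' = H + (2 M + 3) dm`. `exists_integral`: `U₀, V₀` integral with coefficients at most `exp (k H')`.
If `U` has index `≥ k θ₁`: apply the claim for `M` to `k * d ∘ succ`, `U₀`, `k H'`, `θ₁`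
(`IdxGe.scale`, `idxGe_C_mul`; degrees of a determinant at most `k * d`, `degreeOf_hasse_le`;
`k H' + (M + 1) ^ 2 k d i ≤ k (H + (M + 2) ^ 2 dm) ≤ k σ d j log (ht (ξ j))`), contradiction. Else
`k θ₁ d 0 log (ht (ξ 0)) ≤ m log (ht (ξ 0)) ≤ k H' ≤ k σ d 0 log (ht (ξ 0))` (`roth_one`; the
multiplicities of `V` and `c⁻¹ V` are equal), and
`log (ht (ξ 0)) > 0` because `H ≥ 0` (some coefficient has absolute value `≥ 1`), `d > 0`; so
`θ₁ ≤ σ ≤ θ₁ / 2`, contradiction. -/
theorem roth_succ (M : ℕ) (h : RothClaim M) : RothClaim (M + 1) := by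
  intro θ hθ
  obtain ⟨t, ht_def⟩ : ∃ t, t = min θ 1 := ⟨_, rfl⟩
  have ht0 : 0 < t := by rw [ht_def]; exact lt_min hθ one_pos
  have ht1 : t ≤ 1 := by rw [ht_def]; exact min_le_right _ _
  have htθ : t ≤ θ := by rw [ht_def]; exact min_le_left _ _
  obtain ⟨t1, ht1_def⟩ : ∃ t1, t1 = t ^ 2 / 64 := ⟨_, rfl⟩
  have ht10 : 0 < t1 := by rw [ht1_def]; positivity
  obtain ⟨σ', hσ'0, hσ'⟩ := h t1 ht10
  obtain ⟨σ, hσ_def⟩ : ∃ σ, σ = min (t / 2) (min σ' (t1 / 2)) := ⟨_, rfl⟩
  have hσ0 : 0 < σ := by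
    rw [hσ_def]
    exact lt_min (by linarith) (lt_min hσ'0 (by linarith))
  have hσt : σ ≤ t / 2 := by rw [hσ_def]; exact min_le_left _ _
  have hσσ : σ ≤ σ' := by rw [hσ_def]; exact (min_le_right _ _).trans (min_le_left _ _)
  have hσt1 : σ ≤ t1 / 2 := by rw [hσ_def]; exact (min_le_right _ _).trans (min_le_right _ _)
  refine ⟨σ, hσ0, ?_⟩
  intro d ξ F H hF hd hdeg hdd hcoef hlarge hidx
  have hH0 : 0 ≤ H := Roth_nonneg hF hcoef
  have hinj : Function.Injective (map (σ := Fin (M + 1)) (Int.castRingHom ℚ)) :=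
    map_injective _ (RingHom.injective_int (Int.castRingHom ℚ))
  have hFQ : map (Int.castRingHom ℚ) F ≠ 0 := fun h0 => hF (hinj (by rw [h0, map_zero]))
  obtain ⟨k, φ, ψ, hk0, hk, hφ, hψ, hφd, hdec⟩ := exists_decomp (map (Int.castRingHom ℚ) F) hFQ d
    (fun j => by rw [Roth_degree_map]; exact hdeg j)
  obtain ⟨D, hD, hU⟩ := exists_wronskian φ hφ
  have hV := wronskian_one ψ hψ
  have hKpos : (0 : ℝ) < k := by exact_mod_cast hk0
  -- the determinant
  have hW : map (Int.castRingHom ℚ) (Matrix.of fun i s : Fin k =>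
        hasse (Finsupp.cons (s : ℕ) (D i)) F).det =
      rename Fin.succ (Matrix.of fun i l : Fin k => hasse (D i) (φ l)).det *
        toZero (Matrix.of fun l s : Fin k => Polynomial.hasseDeriv s (ψ l)).det := by
    rw [Roth_map_det, hdec, det_hasse]
  -- index
  have hI := roth_index hd ht0 ht1 (hidx.mono htθ) hσt
    (fun j => hdd 0 j.succ (Fin.succ_pos j)) hk D hD
  have hI2 : IdxGe d ξ (2 * ((k : ℝ) * t1)) (rename Fin.succ
      (Matrix.of fun i l : Fin k => hasse (D i) (φ l)).det *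
        toZero (Matrix.of fun l s : Fin k => Polynomial.hasseDeriv s (ψ l)).det) := by
    rw [← hW, Roth_map_det]
    have he : 2 * ((k : ℝ) * t1) = k * t ^ 2 / 32 := by rw [ht1_def]; ring
    rw [he]
    exact hI
  -- size
  obtain ⟨j0, hj0⟩ : ∃ j0, ∀ j, d j ≤ d j0 := Finite.exists_max d
  have hS := roth_size F d hdeg (dm := d j0) hj0 hk (hd 0) hcoef D
  obtain ⟨c, U₀, V₀, hc, hU₀, hV₀, hU₀c, hV₀c⟩ := exists_integral _ _ hU hV _ hS hW
  have hdm : ∀ j, (d j : ℝ) ≤ d j0 := fun j => by exact_mod_cast hj0 j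
  have hdm0 : (0 : ℝ) < d j0 := by exact_mod_cast hd j0
  have hL : ∀ j, 0 ≤ Real.log (ht (ξ j)) := fun j =>
    Real.log_nonneg (by exact_mod_cast ht_pos (ξ j))
  have hl : ∀ j, H + ((M : ℝ) + 2) ^ 2 * d j0 ≤ σ * d j * Real.log (ht (ξ j)) := by
    intro j
    have := hlarge j0 j
    push_cast at this
    have e : ((M : ℝ) + 1 + 1) ^ 2 = ((M : ℝ) + 2) ^ 2 := by ring
    rw [e] at this
    exact this
  rcases IdxGe.disjoint hd hV hI2 with h1 | h1
  · -- the first case
    have hU₀0 : U₀ ≠ 0 := by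
      intro h0
      rw [h0, map_zero] at hU₀
      exact mul_ne_zero (by rwa [Ne, C_eq_zero]) hU hU₀.symm
    refine hσ' (fun i => k * d i.succ) (fun i => ξ i.succ) U₀
      (k * (H + (2 * M + 3) * (d j0 : ℕ))) hU₀0 ?_ ?_ ?_ hU₀c ?_ ?_
    · intro j
      exact Nat.mul_pos hk0 (hd _)
    · intro j
      rw [← Roth_degree_map, hU₀]
      exact (degreeOf_C_mul_le _ _ _).trans (Roth_degree_det φ D j fun l => hφd l j)
    · intro i j hij
      have h2 := hdd i.succ j.succ (Fin.succ_lt_succ_iff.mpr hij)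
      have h3 : (0 : ℝ) ≤ d j.succ := Nat.cast_nonneg _
      have h4 : (d i.succ : ℝ) ≤ σ' * d j.succ := h2.trans (mul_le_mul_of_nonneg_right hσσ h3)
      push_cast
      calc (k : ℝ) * d i.succ ≤ k * (σ' * d j.succ) := mul_le_mul_of_nonneg_left h4 hKpos.le
        _ = σ' * (k * d j.succ) := by ring
    · intro i j
      have h2 := hl j.succ
      have h3 : σ * d j.succ * Real.log (ht (ξ j.succ)) ≤
          σ' * d j.succ * Real.log (ht (ξ j.succ)) :=
        mul_le_mul_of_nonneg_right (mul_le_mul_of_nonneg_right hσσ (Nat.cast_nonneg _)) (hL _)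
      have h4 : ((M : ℝ) + 1) ^ 2 * d i.succ ≤ ((M : ℝ) + 1) ^ 2 * d j0 :=
        mul_le_mul_of_nonneg_left (hdm _) (by positivity)
      have h5 : H + (2 * (M : ℝ) + 3) * d j0 + ((M : ℝ) + 1) ^ 2 * d i.succ ≤
          σ' * d j.succ * Real.log (ht (ξ j.succ)) := by
        nlinarith [h2, h3, h4]
      push_cast
      calc (k : ℝ) * (H + (2 * M + 3) * d j0) + ((M : ℝ) + 1) ^ 2 * (k * d i.succ)
          = k * (H + (2 * (M : ℝ) + 3) * d j0 + ((M : ℝ) + 1) ^ 2 * d i.succ) := by ring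
        _ ≤ k * (σ' * d j.succ * Real.log (ht (ξ j.succ))) :=
          mul_le_mul_of_nonneg_left h5 hKpos.le
        _ = σ' * (k * d j.succ) * Real.log (ht (ξ j.succ)) := by ring
    · rw [hU₀]
      exact IdxGe.scale hk0 ((idxGe_C_mul hc).mpr h1)
  · -- the second case
    have hV₀0 : V₀ ≠ 0 := by
      intro h0
      rw [h0, Polynomial.map_zero] at hV₀
      exact mul_ne_zero (by rwa [Ne, Polynomial.C_eq_zero, inv_eq_zero]) hV hV₀.symm
    have h2 := roth_one V₀ hV₀0 (ξ 0) hV₀c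
    have h3 : (V₀.map (Int.castRingHom ℚ)).rootMultiplicity (ξ 0) =
        (Matrix.of fun l s : Fin k => Polynomial.hasseDeriv s (ψ l)).det.rootMultiplicity
          (ξ 0) := by
      rw [hV₀, Polynomial.rootMultiplicity_mul
        (mul_ne_zero (by rwa [Ne, Polynomial.C_eq_zero, inv_eq_zero]) hV),
        Polynomial.rootMultiplicity_C, zero_add]
    rw [h3] at h2
    have h4 : (k : ℝ) * t1 * d 0 * Real.log (ht (ξ 0)) ≤
        k * (H + (2 * M + 3) * (d j0 : ℕ)) :=
      (mul_le_mul_of_nonneg_right h1 (hL 0)).trans h2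
    have h5 : t1 * d 0 * Real.log (ht (ξ 0)) ≤ H + (2 * M + 3) * (d j0 : ℕ) := by
      have : (k : ℝ) * (t1 * d 0 * Real.log (ht (ξ 0))) ≤
          k * (H + (2 * M + 3) * (d j0 : ℕ)) := by
        calc (k : ℝ) * (t1 * d 0 * Real.log (ht (ξ 0)))
            = (k : ℝ) * t1 * d 0 * Real.log (ht (ξ 0)) := by ring
          _ ≤ _ := h4
      exact le_of_mul_le_mul_left this hKpos
    have h6 := hl 0
    obtain ⟨x, hx⟩ : ∃ x, x = (d 0 : ℝ) * Real.log (ht (ξ 0)) := ⟨_, rfl⟩
    have hx0 : 0 ≤ x := by rw [hx]; exact mul_nonneg (Nat.cast_nonneg _) (hL 0)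
    have h7 : t1 * x ≤ H + (2 * M + 3) * (d j0 : ℝ) := by
      rw [hx, ← mul_assoc]; exact h5
    have h8 : H + ((M : ℝ) + 2) ^ 2 * d j0 ≤ σ * x := by
      rw [hx, ← mul_assoc]; exact h6
    have hM : (0 : ℝ) ≤ M := Nat.cast_nonneg _
    have h9 : (2 * (M : ℝ) + 3) * d j0 ≤ ((M : ℝ) + 2) ^ 2 * d j0 :=
      mul_le_mul_of_nonneg_right (by nlinarith) hdm0.le
    have h10 : 0 < ((M : ℝ) + 2) ^ 2 * d j0 := by positivity
    have h11 : σ * x ≤ t1 / 2 * x := mul_le_mul_of_nonneg_right hσt1 hx0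
    have h12 : 0 < t1 / 2 * x := by linarith
    linarith

theorem roth (M : ℕ) : RothClaim M := by
  induction M with
  | zero => exact roth_zero
  | succ M ih => exact roth_succ M ih

end Pool.Agent.Lib.MP_d0d59f_nt.Sb

end
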