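import Mathlib

/-!
Germs of sequences of rational numbers, heights, limits of absolute values.
-/

section

namespace Pool.Agent.Lib.MP_d0d59f_nt.Auto

open Filter

/-- height of a rational number -/
def ht (q : ℚ) : ℕ := max q.num.natAbs q.den

theorem ht_pos (q : ℚ) : 0 < ht q := lt_of_lt_of_le q.pos (le_max_right _ _)

theorem ht_neg (q : ℚ) : ht (-q) = ht q := by simp [ht]

theorem ah_div_le (a b : ℤ) (hb : b ≠ 0) : ht ((a : ℚ) / b) ≤ max a.natAbs b.natAbs := by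
  rcases eq_or_ne a 0 with rfl | ha
  · have h1 : ((0 : ℤ) : ℚ) / b = 0 := by simp
    have h2 : 1 ≤ b.natAbs := Nat.one_le_iff_ne_zero.mpr (Int.natAbs_ne_zero.mpr hb)
    rw [h1]
    simp only [ht, Rat.num_zero, Rat.den_zero, Int.natAbs_zero]
    omega
  · have h1 : ((a : ℚ) / b).num ∣ a := by
      have := Rat.num_dvd a hb
      rwa [Rat.divInt_eq_div] at this
    have h2 : (((a : ℚ) / b).den : ℤ) ∣ b := by
      have := Rat.den_dvd a b
      rwa [Rat.divInt_eq_div] at this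
    refine max_le_max ?_ ?_
    · exact Nat.le_of_dvd (Nat.pos_of_ne_zero (Int.natAbs_ne_zero.mpr ha))
        (Int.natAbs_dvd_natAbs.mpr h1)
    · refine Nat.le_of_dvd (Nat.pos_of_ne_zero (Int.natAbs_ne_zero.mpr hb)) ?_
      have := Int.natAbs_dvd_natAbs.mpr h2
      rwa [Int.natAbs_natCast] at this

theorem ht_inv_le (q : ℚ) : ht q⁻¹ ≤ ht q := by
  rcases eq_or_ne q 0 with rfl | hq
  · rw [inv_zero]
  · have h1 : q⁻¹ = ((q.den : ℤ) : ℚ) / (q.num : ℤ) := by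
      conv_lhs => rw [← Rat.num_div_den q]
      rw [inv_div]
      push_cast
      rfl
    have h2 := ah_div_le (q.den : ℤ) q.num (Rat.num_ne_zero.mpr hq)
    rw [h1]
    refine h2.trans ?_
    rw [Int.natAbs_natCast, max_comm]
    exact le_refl _

theorem ah_num_le (q : ℚ) : q.num.natAbs ≤ ht q := le_max_left _ _
theorem ah_den_le (q : ℚ) : q.den ≤ ht q := le_max_right _ _

theorem ht_mul_le (a b : ℚ) : ht (a * b) ≤ ht a * ht b := by
  have h1 : a * b = ((a.num * b.num : ℤ) : ℚ) / ((a.den * b.den : ℕ) : ℤ) := by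
    conv_lhs => rw [← Rat.num_div_den a, ← Rat.num_div_den b]
    rw [div_mul_div_comm]
    push_cast
    rfl
  have h2 : ((a.den * b.den : ℕ) : ℤ) ≠ 0 := by
    have := a.pos
    have := b.pos
    positivity
  rw [h1]
  refine (ah_div_le _ _ h2).trans (max_le ?_ ?_)
  · rw [Int.natAbs_mul]
    exact Nat.mul_le_mul (ah_num_le a) (ah_num_le b)
  · rw [Int.natAbs_natCast]
    exact Nat.mul_le_mul (ah_den_le a) (ah_den_le b)

theorem ht_add_le (a b : ℚ) : ht (a + b) ≤ 2 * (ht a * ht b) := by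
  have ha0 : (a.den : ℚ) ≠ 0 := by exact_mod_cast a.pos.ne'
  have hb0 : (b.den : ℚ) ≠ 0 := by exact_mod_cast b.pos.ne'
  have h1 : a + b = ((a.num * b.den + a.den * b.num : ℤ) : ℚ) / ((a.den * b.den : ℕ) : ℤ) := by
    conv_lhs => rw [← Rat.num_div_den a, ← Rat.num_div_den b]
    rw [div_add_div _ _ ha0 hb0]
    push_cast
    rfl
  have h2 : ((a.den * b.den : ℕ) : ℤ) ≠ 0 := by
    have := a.pos
    have := b.pos
    positivity
  rw [h1]
  refine (ah_div_le _ _ h2).trans (max_le ?_ ?_)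
  · refine (Int.natAbs_add_le _ _).trans ?_
    rw [Int.natAbs_mul, Int.natAbs_mul, Int.natAbs_natCast, Int.natAbs_natCast, two_mul]
    exact Nat.add_le_add (Nat.mul_le_mul (ah_num_le a) (ah_den_le b))
      (Nat.mul_le_mul (ah_den_le a) (ah_num_le b))
  · rw [Int.natAbs_natCast]
    have := Nat.mul_le_mul (ah_den_le a) (ah_den_le b)
    omega

/-- an upper bound for the height from any representation as a fraction -/
theorem ht_div_le (a b : ℤ) (hb : b ≠ 0) : ht ((a : ℚ) / b) ≤ max a.natAbs b.natAbs :=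
  ah_div_le a b hb

/-- sequences of rational numbers modulo the hyperfilter -/
abbrev QU : Type := Germ (hyperfilter ℕ : Filter ℕ) ℚ

theorem ah_one : ht 1 = 1 := by simp [ht]
theorem ah_zero : ht 0 = 1 := by simp [ht]

theorem ah_L (L : ℕ → ℕ) (hL : Tendsto L atTop atTop) (c : ℕ) :
    ∀ᶠ m in (hyperfilter ℕ : Filter ℕ), c ≤ L m :=
  (Nat.hyperfilter_le_atTop) (hL.eventually_ge_atTop c)

theorem ah_pow_abs (C : ℝ) (n : ℕ) : C ^ n ≤ |C| ^ n := by
  rw [← abs_pow]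
  exact le_abs_self _

/-- the germs of height at most `C ^ L m` for some `C` -/
def bigField (L : ℕ → ℕ) (hL : Tendsto L atTop atTop) : Subfield QU where
  carrier := {z | ∃ f : ℕ → ℚ, (f : QU) = z ∧
    ∃ C : ℝ, ∀ᶠ m in (hyperfilter ℕ : Filter ℕ), (ht (f m) : ℝ) ≤ C ^ L m}
  mul_mem' := by
    rintro _ _ ⟨f, rfl, C, hf⟩ ⟨g, rfl, D, hg⟩
    refine ⟨f * g, Germ.coe_mul f g, |C| * |D|, ?_⟩
    filter_upwards [hf, hg] with m h1 h2
    have h3 : (ht ((f * g) m) : ℝ) ≤ ht (f m) * ht (g m) := by exact_mod_cast ht_mul_le (f m) (g m)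
    refine h3.trans ?_
    rw [mul_pow]
    exact mul_le_mul (h1.trans (ah_pow_abs _ _)) (h2.trans (ah_pow_abs _ _)) (Nat.cast_nonneg _)
      (by positivity)
  one_mem' := ⟨1, Germ.coe_one, 1, Eventually.of_forall fun m => by
    rw [one_pow, Pi.one_apply, ah_one, Nat.cast_one]⟩
  add_mem' := by
    rintro _ _ ⟨f, rfl, C, hf⟩ ⟨g, rfl, D, hg⟩
    refine ⟨f + g, Germ.coe_add f g, 2 * (|C| * |D|), ?_⟩
    filter_upwards [hf, hg, ah_L L hL 1] with m h1 h2 hm
    have h3 : (ht ((f + g) m) : ℝ) ≤ 2 * (ht (f m) * ht (g m)) := by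
      exact_mod_cast ht_add_le (f m) (g m)
    refine h3.trans ?_
    rw [mul_pow, mul_pow]
    have h4 : (2 : ℝ) ≤ 2 ^ L m := by
      calc (2 : ℝ) = 2 ^ 1 := (pow_one 2).symm
        _ ≤ 2 ^ L m := pow_le_pow_right₀ (by norm_num) hm
    refine mul_le_mul h4 ?_ (by positivity) (by positivity)
    exact mul_le_mul (h1.trans (ah_pow_abs _ _)) (h2.trans (ah_pow_abs _ _)) (Nat.cast_nonneg _)
      (by positivity)
  zero_mem' := ⟨0, Germ.coe_zero, 1, Eventually.of_forall fun m => by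
    rw [one_pow, Pi.zero_apply, ah_zero, Nat.cast_one]⟩
  neg_mem' := by
    rintro _ ⟨f, rfl, C, hf⟩
    refine ⟨-f, Germ.coe_neg f, C, ?_⟩
    filter_upwards [hf] with m h1
    rwa [Pi.neg_apply, ht_neg]
  inv_mem' := by
    rintro _ ⟨f, rfl, C, hf⟩
    refine ⟨f⁻¹, Germ.coe_inv f, C, ?_⟩
    filter_upwards [hf] with m h1
    refine le_trans ?_ h1
    exact_mod_cast ht_inv_le (f m)

theorem ah_delta {ε : ℝ} (hε : 0 < ε) : ∃ δ : ℝ, 0 < δ ∧ (1 + δ) ^ 3 ≤ 1 + ε := by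
  refine ⟨min 1 (ε / 7), lt_min one_pos (by positivity), ?_⟩
  set δ := min 1 (ε / 7) with hδ
  have h1 : δ ≤ 1 := min_le_left _ _
  have h2 : δ ≤ ε / 7 := min_le_right _ _
  have h0 : 0 < δ := lt_min one_pos (by positivity)
  nlinarith [mul_nonneg h0.le (sub_nonneg.mpr h1), mul_nonneg (mul_nonneg h0.le h0.le) (sub_nonneg.mpr h1)]

/-- the germs of height at most `(1 + ε) ^ L m` for all `ε > 0` -/
def smallField (L : ℕ → ℕ) (hL : Tendsto L atTop atTop) : Subfield QU where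
  carrier := {z | ∃ f : ℕ → ℚ, (f : QU) = z ∧
    ∀ ε : ℝ, 0 < ε → ∀ᶠ m in (hyperfilter ℕ : Filter ℕ), (ht (f m) : ℝ) ≤ (1 + ε) ^ L m}
  mul_mem' := by
    rintro _ _ ⟨f, rfl, hf⟩ ⟨g, rfl, hg⟩
    refine ⟨f * g, Germ.coe_mul f g, fun ε hε => ?_⟩
    obtain ⟨δ, hδ, hδε⟩ := ah_delta hε
    filter_upwards [hf δ hδ, hg δ hδ] with m h1 h2
    have h3 : (ht ((f * g) m) : ℝ) ≤ ht (f m) * ht (g m) := by exact_mod_cast ht_mul_le (f m) (g m)
    refine h3.trans ?_
    have h4 : (ht (f m) : ℝ) * ht (g m) ≤ (1 + δ) ^ L m * (1 + δ) ^ L m :=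
      mul_le_mul h1 h2 (Nat.cast_nonneg _) (by positivity)
    refine h4.trans ?_
    rw [← mul_pow]
    refine pow_le_pow_left₀ (by positivity) ?_ _
    refine le_trans ?_ hδε
    have h5 : (1 + δ) * (1 + δ) * 1 ≤ (1 + δ) * (1 + δ) * (1 + δ) :=
      mul_le_mul_of_nonneg_left (by linarith) (by positivity)
    calc (1 + δ) * (1 + δ) = (1 + δ) * (1 + δ) * 1 := (mul_one _).symm
      _ ≤ (1 + δ) * (1 + δ) * (1 + δ) := h5
      _ = (1 + δ) ^ 3 := by ring
  one_mem' := ⟨1, Germ.coe_one, fun ε hε => Eventually.of_forall fun m => by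
    rw [Pi.one_apply, ah_one, Nat.cast_one]
    exact one_le_pow₀ (by linarith)⟩
  add_mem' := by
    rintro _ _ ⟨f, rfl, hf⟩ ⟨g, rfl, hg⟩
    refine ⟨f + g, Germ.coe_add f g, fun ε hε => ?_⟩
    obtain ⟨δ, hδ, hδε⟩ := ah_delta hε
    obtain ⟨c, hc⟩ := pow_unbounded_of_one_lt (2 : ℝ) (by linarith : (1 : ℝ) < 1 + δ)
    filter_upwards [hf δ hδ, hg δ hδ, ah_L L hL c] with m h1 h2 hm
    have h3 : (ht ((f + g) m) : ℝ) ≤ 2 * (ht (f m) * ht (g m)) := by
      exact_mod_cast ht_add_le (f m) (g m)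
    refine h3.trans ?_
    have h4 : (ht (f m) : ℝ) * ht (g m) ≤ (1 + δ) ^ L m * (1 + δ) ^ L m :=
      mul_le_mul h1 h2 (Nat.cast_nonneg _) (by positivity)
    have h5 : (2 : ℝ) ≤ (1 + δ) ^ L m :=
      hc.le.trans (pow_le_pow_right₀ (by linarith) hm)
    have h6 : 2 * ((ht (f m) : ℝ) * ht (g m)) ≤ (1 + δ) ^ L m * ((1 + δ) ^ L m * (1 + δ) ^ L m) :=
      mul_le_mul h5 h4 (by positivity) (by positivity)
    refine h6.trans ?_
    rw [← mul_pow, ← mul_pow]
    refine pow_le_pow_left₀ (by positivity) ?_ _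
    refine le_trans (le_of_eq ?_) hδε
    ring
  zero_mem' := ⟨0, Germ.coe_zero, fun ε hε => Eventually.of_forall fun m => by
    rw [Pi.zero_apply, ah_zero, Nat.cast_one]
    exact one_le_pow₀ (by linarith)⟩
  neg_mem' := by
    rintro _ ⟨f, rfl, hf⟩
    refine ⟨-f, Germ.coe_neg f, fun ε hε => ?_⟩
    filter_upwards [hf ε hε] with m h1
    rwa [Pi.neg_apply, ht_neg]
  inv_mem' := by
    rintro _ ⟨f, rfl, hf⟩
    refine ⟨f⁻¹, Germ.coe_inv f, fun ε hε => ?_⟩
    filter_upwards [hf ε hε] with m h1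
    refine le_trans ?_ h1
    exact_mod_cast ht_inv_le (f m)

theorem smallField_le (L : ℕ → ℕ) (hL : Tendsto L atTop atTop) : smallField L hL ≤ bigField L hL := by
  rintro _ ⟨f, rfl, hf⟩
  exact ⟨f, rfl, 1 + 1, hf 1 one_pos⟩

end Pool.Agent.Lib.MP_d0d59f_nt.Auto

end

section

namespace Pool.Agent.Lib.MP_d0d59f_nt.Auto

open Filter Topology

variable {L : ℕ → ℕ} {hL : Tendsto L atTop atTop}

/-- `n` is an absolute value on `ℚ` bounded in terms of the height -/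
structure HtBound (n : AbsoluteValue ℚ ℝ) : Prop where
  le : ∀ q, n q ≤ ht q
  ge : ∀ q, q ≠ 0 → 1 ≤ n q * ht q

theorem al_den_le (q : ℚ) : (q.den : ℝ) ≤ ht q := by
  exact_mod_cast le_max_right _ _

theorem al_num_le (q : ℚ) : |(q.num : ℝ)| ≤ ht q := by
  have h : ((q.num.natAbs : ℕ) : ℝ) ≤ ht q := by exact_mod_cast le_max_left _ _
  rwa [Nat.cast_natAbs, Int.cast_abs] at h

theorem htBound_real : HtBound Rat.AbsoluteValue.real := by
  refine ⟨fun q => ?_, fun q hq => ?_⟩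
  · rw [Rat.AbsoluteValue.real_eq_abs]
    have hd : (1 : ℝ) ≤ q.den := by exact_mod_cast q.pos
    have h1 : (q : ℝ) = q.num / q.den := by exact_mod_cast (Rat.num_div_den q).symm
    push_cast
    rw [h1, abs_div, abs_of_pos (by linarith : (0 : ℝ) < q.den), div_le_iff₀ (by linarith)]
    calc |(q.num : ℝ)| ≤ ht q := al_num_le q
      _ = ht q * 1 := (mul_one _).symm
      _ ≤ ht q * q.den := by gcongr
  · rw [Rat.AbsoluteValue.real_eq_abs]
    have hd : (1 : ℝ) ≤ q.den := by exact_mod_cast q.pos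
    have h1 : (q : ℝ) = q.num / q.den := by exact_mod_cast (Rat.num_div_den q).symm
    have hn : (1 : ℝ) ≤ |(q.num : ℝ)| := by
      have : (1 : ℤ) ≤ |q.num| := Int.one_le_abs (Rat.num_ne_zero.mpr hq)
      exact_mod_cast this
    push_cast
    calc (1 : ℝ) ≤ |(q.num : ℝ)| := hn
      _ = |(q : ℝ)| * q.den := by
        rw [h1, abs_div, abs_of_pos (by linarith : (0 : ℝ) < q.den)]
        field_simp
      _ ≤ |(q : ℝ)| * ht q := mul_le_mul_of_nonneg_left (al_den_le q) (abs_nonneg _)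

theorem al_padic_int (z : ℤ) (hz : z ≠ 0) : (1 : ℝ) ≤ Rat.AbsoluteValue.padic 2 (z : ℚ) * |(z : ℝ)| := by
  have h1 : (2 : ℤ) ^ padicValInt 2 z ∣ z := by
    have := padicValInt_dvd (p := 2) z
    simpa using this
  have h2 : (2 : ℤ) ^ padicValInt 2 z ≤ |z| :=
    Int.le_of_dvd (abs_pos.mpr hz) ((dvd_abs _ _).mpr h1)
  have h3 : (2 : ℝ) ^ padicValInt 2 z ≤ |(z : ℝ)| := by exact_mod_cast h2
  have h4 : Rat.AbsoluteValue.padic 2 (z : ℚ) = ((2 : ℝ) ^ padicValInt 2 z)⁻¹ := by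
    rw [Rat.AbsoluteValue.padic_eq_padicNorm, padicNorm.eq_zpow_of_nonzero (by exact_mod_cast hz),
      padicValRat.of_int]
    push_cast
    rw [zpow_neg, zpow_natCast]
  rw [h4, ← div_eq_inv_mul, le_div_iff₀ (by positivity), one_mul]
  exact h3

theorem al_padic_int_le (z : ℤ) : Rat.AbsoluteValue.padic 2 (z : ℚ) ≤ 1 := by
  rw [Rat.AbsoluteValue.padic_eq_padicNorm]
  exact_mod_cast padicNorm.of_int (p := 2) z

theorem htBound_padic : HtBound (Rat.AbsoluteValue.padic 2) := by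
  have hdiv : ∀ q : ℚ, Rat.AbsoluteValue.padic 2 q * Rat.AbsoluteValue.padic 2 ((q.den : ℤ) : ℚ) =
      Rat.AbsoluteValue.padic 2 (q.num : ℚ) := by
    intro q
    rw [← map_mul]
    congr 1
    push_cast
    exact Rat.mul_den_eq_num q
  have hd : ∀ q : ℚ, (1 : ℝ) ≤ q.den := fun q => by exact_mod_cast q.pos
  refine ⟨fun q => ?_, fun q hq => ?_⟩
  · have h1 := al_padic_int (q.den : ℤ) (by exact_mod_cast q.den_ne_zero)
    have h2 := hdiv q
    have h3 := al_padic_int_le q.num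
    have h4 : |(((q.den : ℤ)) : ℝ)| = q.den := by
      push_cast
      exact abs_of_nonneg (by positivity)
    rw [h4] at h1
    calc Rat.AbsoluteValue.padic 2 q = Rat.AbsoluteValue.padic 2 q * 1 := (mul_one _).symm
      _ ≤ Rat.AbsoluteValue.padic 2 q * (Rat.AbsoluteValue.padic 2 ((q.den : ℤ) : ℚ) * q.den) :=
        mul_le_mul_of_nonneg_left h1 (AbsoluteValue.nonneg _ _)
      _ = Rat.AbsoluteValue.padic 2 (q.num : ℚ) * q.den := by rw [← mul_assoc, h2]
      _ ≤ 1 * q.den := mul_le_mul_of_nonneg_right h3 (by positivity)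
      _ ≤ ht q := by rw [one_mul]; exact al_den_le q
  · have h1 := al_padic_int q.num (Rat.num_ne_zero.mpr hq)
    have h2 := hdiv q
    have h3 := al_padic_int_le (q.den : ℤ)
    calc (1 : ℝ) ≤ Rat.AbsoluteValue.padic 2 (q.num : ℚ) * |(q.num : ℝ)| := h1
      _ ≤ Rat.AbsoluteValue.padic 2 (q.num : ℚ) * ht q :=
        mul_le_mul_of_nonneg_left (al_num_le q) (AbsoluteValue.nonneg _ _)
      _ = Rat.AbsoluteValue.padic 2 q * Rat.AbsoluteValue.padic 2 ((q.den : ℤ) : ℚ) * ht q := by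
        rw [h2]
      _ ≤ Rat.AbsoluteValue.padic 2 q * 1 * ht q := by
        gcongr
      _ = Rat.AbsoluteValue.padic 2 q * ht q := by rw [mul_one]

theorem al_hyper_le : (hyperfilter ℕ : Filter ℕ) ≤ atTop := by
  rw [← Nat.cofinite_eq_atTop]
  exact hyperfilter_le_cofinite

theorem al_pow_le (L : ℕ) (hL : 1 ≤ L) (C : ℝ) (hC : 0 ≤ C) (a : ℝ) (ha : 0 ≤ a) (h : a ≤ C ^ L) :
    a ^ ((1 : ℝ) / L) ≤ C := by
  have h1 : a ^ ((1 : ℝ) / L) ≤ (C ^ L) ^ ((1 : ℝ) / L) :=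
    Real.rpow_le_rpow ha h (by positivity)
  rw [one_div] at h1 ⊢
  rwa [Real.pow_rpow_inv_natCast hC (by omega)] at h1

theorem al_le_pow (L : ℕ) (hL : 1 ≤ L) (C : ℝ) (hC : 0 ≤ C) (a : ℝ) (h : C ^ L ≤ a) :
    C ≤ a ^ ((1 : ℝ) / L) := by
  have h1 : (C ^ L) ^ ((1 : ℝ) / L) ≤ a ^ ((1 : ℝ) / L) :=
    Real.rpow_le_rpow (by positivity) h (by positivity)
  rw [one_div] at h1 ⊢
  rwa [Real.pow_rpow_inv_natCast hC (by omega)] at h1

/-- The limit exists for every element. -/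
theorem al_exists_lim (n : AbsoluteValue ℚ ℝ) (hn : HtBound n) (z : bigField L hL) :
    ∃ x : ℝ, 0 ≤ x ∧ (x = 0 ↔ z = 0) ∧ ∀ f : ℕ → ℚ, (f : QU) = (z : QU) →
      Tendsto (fun m => n (f m) ^ ((1 : ℝ) / L m)) (hyperfilter ℕ) (𝓝 x) := by
  obtain ⟨f0, hf0, C, hC⟩ := z.2
  set C' : ℝ := max |C| 1 with hC'
  have hC'1 : 1 ≤ C' := le_max_right _ _
  have hLpos : ∀ᶠ m in (hyperfilter ℕ : Filter ℕ), 1 ≤ L m :=
    (hL.eventually_ge_atTop 1).filter_mono al_hyper_le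
  have hht : ∀ᶠ m in (hyperfilter ℕ : Filter ℕ), (ht (f0 m) : ℝ) ≤ C' ^ L m := by
    filter_upwards [hC] with m hm
    calc (ht (f0 m) : ℝ) ≤ C ^ L m := hm
      _ ≤ |C ^ L m| := le_abs_self _
      _ = |C| ^ L m := abs_pow _ _
      _ ≤ C' ^ L m := pow_le_pow_left₀ (abs_nonneg _) (le_max_left _ _) _
  have hup : ∀ᶠ m in (hyperfilter ℕ : Filter ℕ), n (f0 m) ^ ((1 : ℝ) / L m) ≤ C' := by
    filter_upwards [hht, hLpos] with m hm hLm
    exact al_pow_le _ hLm _ (by linarith) _ (n.nonneg _) ((hn.le _).trans hm)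
  have hmem : Set.Icc 0 C' ∈ Ultrafilter.map (fun m => n (f0 m) ^ ((1 : ℝ) / L m))
      (hyperfilter ℕ) := by
    rw [Ultrafilter.mem_map]
    filter_upwards [hup] with m hm
    exact ⟨Real.rpow_nonneg (n.nonneg _) _, hm⟩
  obtain ⟨x, hx, hlim⟩ := isCompact_Icc.ultrafilter_le_nhds' _ hmem
  have hlim' : Tendsto (fun m => n (f0 m) ^ ((1 : ℝ) / L m)) (hyperfilter ℕ) (𝓝 x) := hlim
  refine ⟨x, hx.1, ⟨fun hx0 => ?_, fun hz => ?_⟩, fun f hf => ?_⟩
  · by_contra hz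
    have hf0ne : ∀ᶠ m in (hyperfilter ℕ : Filter ℕ), f0 m ≠ 0 := by
      rw [Ultrafilter.eventually_not]
      intro hev
      apply hz
      apply Subtype.ext
      rw [← hf0]
      exact Filter.Germ.coe_eq.mpr hev
    have hlow : ∀ᶠ m in (hyperfilter ℕ : Filter ℕ), 1 / C' ≤ n (f0 m) ^ ((1 : ℝ) / L m) := by
      filter_upwards [hht, hLpos, hf0ne] with m hm hLm h0
      refine al_le_pow _ hLm _ (by positivity) _ ?_
      have h1 := hn.ge _ h0
      have h2 : n (f0 m) * ht (f0 m) ≤ n (f0 m) * C' ^ L m :=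
        mul_le_mul_of_nonneg_left hm (n.nonneg _)
      rw [div_pow, one_pow, div_le_iff₀ (by positivity)]
      linarith
    have h3 := ge_of_tendsto hlim' hlow
    rw [hx0] at h3
    have : 0 < 1 / C' := by positivity
    linarith
  · have hev : ∀ᶠ m in (hyperfilter ℕ : Filter ℕ), f0 m = 0 := by
      have h1 : (f0 : QU) = ((fun _ => 0 : ℕ → ℚ) : QU) := by
        rw [hf0, hz]; rfl
      exact Filter.Germ.coe_eq.mp h1
    have h2 : Tendsto (fun m => n (f0 m) ^ ((1 : ℝ) / L m)) (hyperfilter ℕ) (𝓝 0) := by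
      refine Tendsto.congr' ?_ tendsto_const_nhds
      filter_upwards [hev, hLpos] with m hm hLm
      have hL' : (L m : ℝ) ≠ 0 := by
        have : (1 : ℝ) ≤ L m := by exact_mod_cast hLm
        linarith
      rw [hm, map_zero, Real.zero_rpow (by simpa using hL')]
    exact tendsto_nhds_unique hlim' h2
  · have h1 : (f0 : QU) = (f : QU) := by rw [hf0, hf]
    refine hlim'.congr' ?_
    filter_upwards [Filter.Germ.coe_eq.mp h1] with m hm
    rw [hm]

/-- The limit absolute value exists. -/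
theorem exists_absLim (n : AbsoluteValue ℚ ℝ) (hn : HtBound n) :
    ∃ v : AbsoluteValue (bigField L hL) ℝ, (∀ a b, v (a + b) ≤ max (v a) (v b)) ∧
      ∀ (f : ℕ → ℚ) (z : bigField L hL), (f : QU) = (z : QU) →
        Tendsto (fun m => n (f m) ^ ((1 : ℝ) / L m)) (hyperfilter ℕ) (𝓝 (v z)) := by
  choose x hx0 hxz hxlim using fun z => al_exists_lim (L := L) (hL := hL) n hn z
  have hrep : ∀ z : bigField L hL, ∃ f : ℕ → ℚ, (f : QU) = (z : QU) := fun z =>
    ⟨_, z.2.choose_spec.1⟩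
  have hLr : Tendsto (fun m => (1 : ℝ) / L m) (hyperfilter ℕ) (𝓝 0) := by
    have h1 : Tendsto (fun m => (L m : ℝ)) atTop atTop := tendsto_natCast_atTop_atTop.comp hL
    have h2 : Tendsto (fun m => (1 : ℝ) / L m) atTop (𝓝 0) := tendsto_const_nhds.div_atTop h1
    exact h2.mono_left al_hyper_le
  have h2L : Tendsto (fun m => (2 : ℝ) ^ ((1 : ℝ) / L m)) (hyperfilter ℕ) (𝓝 1) := by
    have h1 : ContinuousAt (fun t : ℝ => (2 : ℝ) ^ t) 0 := Real.continuousAt_const_rpow (by norm_num)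
    have h3 := h1.tendsto.comp hLr
    rw [Real.rpow_zero] at h3
    exact h3
  have hadd : ∀ a b, x (a + b) ≤ max (x a) (x b) := by
    intro a b
    obtain ⟨f, hf⟩ := hrep a
    obtain ⟨g, hg⟩ := hrep b
    have h1 := hxlim (a + b) (f + g) (by push_cast; rw [hf, hg])
    have h2 := h2L.mul ((hxlim a f hf).max (hxlim b g hg))
    rw [one_mul] at h2
    refine le_of_tendsto_of_tendsto h1 h2 (Eventually.of_forall fun m => ?_)
    have hm0 : (0 : ℝ) ≤ 1 / L m := by positivity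
    have h3 : n ((f + g) m) ≤ 2 * max (n (f m)) (n (g m)) := by
      have h4 := n.add_le (f m) (g m)
      have h5 := le_max_left (n (f m)) (n (g m))
      have h6 := le_max_right (n (f m)) (n (g m))
      simp only [Pi.add_apply]
      linarith
    have hmax0 : 0 ≤ max (n (f m)) (n (g m)) := (n.nonneg _).trans (le_max_left _ _)
    calc n ((f + g) m) ^ ((1 : ℝ) / L m) ≤ (2 * max (n (f m)) (n (g m))) ^ ((1 : ℝ) / L m) :=
          Real.rpow_le_rpow (n.nonneg _) h3 hm0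
      _ = 2 ^ ((1 : ℝ) / L m) * (max (n (f m)) (n (g m))) ^ ((1 : ℝ) / L m) :=
          Real.mul_rpow (by norm_num) hmax0
      _ = 2 ^ ((1 : ℝ) / L m) *
          max (n (f m) ^ ((1 : ℝ) / L m)) (n (g m) ^ ((1 : ℝ) / L m)) := by
        congr 1
        rcases le_total (n (f m)) (n (g m)) with h7 | h7
        · rw [max_eq_right h7, max_eq_right (Real.rpow_le_rpow (n.nonneg _) h7 hm0)]
        · rw [max_eq_left h7, max_eq_left (Real.rpow_le_rpow (n.nonneg _) h7 hm0)]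
  refine ⟨{ toFun := x
            map_mul' := ?_
            nonneg' := hx0
            eq_zero' := hxz
            add_le' := ?_ }, hadd, fun f z hf => hxlim z f hf⟩
  · intro a b
    obtain ⟨f, hf⟩ := hrep a
    obtain ⟨g, hg⟩ := hrep b
    have h1 := hxlim (a * b) (f * g) (by push_cast; rw [hf, hg])
    have h2 := (hxlim a f hf).mul (hxlim b g hg)
    refine tendsto_nhds_unique h1 (h2.congr fun m => ?_)
    simp only [Pi.mul_apply, map_mul]
    rw [Real.mul_rpow (n.nonneg _) (n.nonneg _)]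
  · intro a b
    refine (hadd a b).trans (max_le ?_ ?_)
    · exact le_add_of_nonneg_right (hx0 b)
    · exact le_add_of_nonneg_left (hx0 a)

end Pool.Agent.Lib.MP_d0d59f_nt.Auto

end

section

namespace Pool.Agent.Lib.MP_d0d59f_nt.Auto

open Filter Topology

section sq

variable {L : ℕ → ℕ} {hL : Tendsto L atTop atTop}

@[reducible] noncomputable def sqAlg (L : ℕ → ℕ) (hL : Tendsto L atTop atTop) :
    Algebra (smallField L hL) (bigField L hL) :=
  (Subfield.inclusion (smallField_le L hL)).toAlgebra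

/-- the germs of sequences of integers -/
def sqO (L : ℕ → ℕ) (hL : Tendsto L atTop atTop) : Subring (bigField L hL) where
  carrier := {z | ∃ f : ℕ → ℤ, (((fun m => (f m : ℚ)) : ℕ → ℚ) : QU) = (z : QU)}
  mul_mem' := by
    rintro a b ⟨f, hf⟩ ⟨g, hg⟩
    refine ⟨fun m => f m * g m, ?_⟩
    rw [Subfield.coe_mul, ← hf, ← hg, ← Germ.coe_mul]
    congr 1
    funext m
    simp
  one_mem' := by
    refine ⟨fun _ => 1, ?_⟩
    simp only [Int.cast_one, OneMemClass.coe_one]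
    rfl
  add_mem' := by
    rintro a b ⟨f, hf⟩ ⟨g, hg⟩
    refine ⟨fun m => f m + g m, ?_⟩
    rw [Subfield.coe_add, ← hf, ← hg, ← Germ.coe_add]
    congr 1
    funext m
    simp
  zero_mem' := by
    refine ⟨fun _ => 0, ?_⟩
    simp only [Int.cast_zero, ZeroMemClass.coe_zero]
    rfl
  neg_mem' := by
    rintro a ⟨f, hf⟩
    refine ⟨fun m => - f m, ?_⟩
    rw [Subfield.coe_neg, ← hf, ← Germ.coe_neg]
    congr 1

theorem sq_germ_zero {f : ℕ → ℚ} (h : (f : QU) = 0) :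
    ∀ᶠ m in (hyperfilter ℕ : Filter ℕ), f m = 0 := by
  have : (f : QU) = ((fun _ => 0 : ℕ → ℚ) : QU) := by rw [h]; rfl
  exact Germ.coe_eq.1 this

theorem sq_germ_ne_zero {f : ℕ → ℚ} (h : (f : QU) ≠ 0) :
    ∀ᶠ m in (hyperfilter ℕ : Filter ℕ), f m ≠ 0 := by
  by_contra hcon
  have h1 : ∀ᶠ m in (hyperfilter ℕ : Filter ℕ), f m = 0 := by
    have := (Ultrafilter.frequently_iff_eventually (f := hyperfilter ℕ)).1
      (Filter.not_eventually.1 hcon)
    simpa using this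
  apply h
  have : (f : QU) = ((fun _ => 0 : ℕ → ℚ) : QU) := Germ.coe_eq.2 h1
  rw [this]
  rfl

theorem sq_L_pos (hL : Tendsto L atTop atTop) :
    ∀ᶠ m in (hyperfilter ℕ : Filter ℕ), 0 < L m :=
  (hL.eventually (eventually_gt_atTop 0)).filter_mono Nat.hyperfilter_le_atTop

/-- defining property of a limit absolute value -/
def IsLimAbs (n : AbsoluteValue ℚ ℝ) (v : AbsoluteValue (bigField L hL) ℝ) : Prop :=
  ∀ (f : ℕ → ℚ) (z : bigField L hL), (f : QU) = (z : QU) →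
        Tendsto (fun m => n (f m) ^ ((1 : ℝ) / L m)) (hyperfilter ℕ) (𝓝 (v z))

theorem sq_val_eq {n : AbsoluteValue ℚ ℝ} {v : AbsoluteValue (bigField L hL) ℝ}
    (hv : IsLimAbs n v) {f : ℕ → ℚ} {z : bigField L hL} (hf : (f : QU) = (z : QU)) {r : ℝ}
    (h : Tendsto (fun m => n (f m) ^ ((1 : ℝ) / L m)) (hyperfilter ℕ) (𝓝 r)) : v z = r :=
  tendsto_nhds_unique (hv f z hf) h

theorem sq_const {n : AbsoluteValue ℚ ℝ} (hn : HtBound n)
    {v : AbsoluteValue (bigField L hL) ℝ}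
    (hv : IsLimAbs n v) (c : smallField L hL) (hc : c ≠ 0) :
    letI := sqAlg L hL
    v (algebraMap (smallField L hL) (bigField L hL) c) = 1 := by
  let _ := sqAlg L hL
  obtain ⟨f, hf, hb⟩ := c.2
  have hz : (f : QU) = ((algebraMap (smallField L hL) (bigField L hL) c : bigField L hL) : QU) := by
    rw [hf]; rfl
  have hlim := hv f _ hz
  have hne : ∀ᶠ m in (hyperfilter ℕ : Filter ℕ), f m ≠ 0 := by
    apply sq_germ_ne_zero
    rw [hf]
    exact fun h => hc (Subtype.ext h)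
  have hpos := sq_L_pos hL
  apply le_antisymm
  · apply le_of_forall_pos_le_add
    intro ε hε
    refine le_of_tendsto hlim ?_
    filter_upwards [hb ε hε, hpos] with m h1 h2
    have h3 : n (f m) ≤ (1 + ε) ^ L m := (hn.le _).trans h1
    calc n (f m) ^ ((1 : ℝ) / L m) ≤ ((1 + ε) ^ L m) ^ ((1 : ℝ) / L m) :=
          Real.rpow_le_rpow (n.nonneg _) h3 (by positivity)
      _ = 1 + ε := by
          rw [← Real.rpow_natCast, ← Real.rpow_mul (by positivity)]
          rw [mul_one_div_cancel (by positivity), Real.rpow_one]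
  · have key : ∀ ε : ℝ, 0 < ε → (1 + ε)⁻¹ ≤
        v (algebraMap (smallField L hL) (bigField L hL) c) := by
      intro ε hε
      refine ge_of_tendsto hlim ?_
      filter_upwards [hb ε hε, hpos, hne] with m h1 h2 h4
      have h3 := hn.ge (f m) h4
      have hht : (0 : ℝ) < ht (f m) := by exact_mod_cast ht_pos _
      have h5 : ((1 + ε) ^ L m)⁻¹ ≤ n (f m) := by
        rw [inv_le_iff_one_le_mul₀ (by positivity)]
        calc (1 : ℝ) ≤ n (f m) * ht (f m) := h3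
          _ ≤ n (f m) * (1 + ε) ^ L m := by
              apply mul_le_mul_of_nonneg_left h1 (n.nonneg _)
      calc (1 + ε)⁻¹ = (((1 + ε) ^ L m)⁻¹) ^ ((1 : ℝ) / L m) := by
            rw [Real.inv_rpow (by positivity), ← Real.rpow_natCast, ← Real.rpow_mul (by positivity)]
            rw [mul_one_div_cancel (by positivity), Real.rpow_one]
        _ ≤ n (f m) ^ ((1 : ℝ) / L m) := Real.rpow_le_rpow (by positivity) h5 (by positivity)
    have hcont : Tendsto (fun ε : ℝ => (1 + ε)⁻¹) (𝓝[>] 0) (𝓝 1) := by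
      have : Tendsto (fun ε : ℝ => (1 + ε)⁻¹) (𝓝 0) (𝓝 ((1 + 0)⁻¹)) := by
        apply Tendsto.inv₀
        · exact (continuous_const.add continuous_id).tendsto _
        · norm_num
      simpa using this.mono_left nhdsWithin_le_nhds
    refine le_of_tendsto hcont ?_
    filter_upwards [self_mem_nhdsWithin] with ε hε
    exact key ε hε

theorem sq_frac (z : bigField L hL) : ∃ D ∈ sqO L hL, D ≠ 0 ∧ D * z ∈ sqO L hL := by
  obtain ⟨f, hf, C, hC⟩ := z.2
  have hD : (((fun m => ((f m).den : ℚ)) : ℕ → ℚ) : QU) ∈ bigField L hL := by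
    refine ⟨_, rfl, C, ?_⟩
    filter_upwards [hC] with m hm
    have h1 := ht_div_le ((f m).den : ℤ) 1 one_ne_zero
    have h2 : ((((f m).den : ℤ) : ℤ) : ℚ) / ((1 : ℤ) : ℚ) = ((f m).den : ℚ) := by
      push_cast; simp
    rw [h2] at h1
    have h3 : max (((f m).den : ℤ)).natAbs (1 : ℤ).natAbs ≤ ht (f m) := by
      rw [Int.natAbs_natCast]
      apply max_le
      · exact le_max_right _ _
      · exact ht_pos _
    exact (by exact_mod_cast h1.trans h3 : ((ht ((f m).den : ℚ) : ℕ) : ℝ) ≤ (ht (f m) : ℕ)).trans hm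
  refine ⟨⟨_, hD⟩, ⟨fun m => ((f m).den : ℤ), ?_⟩, ?_, ⟨fun m => (f m).num, ?_⟩⟩
  · congr 1
  · intro h
    have h1 : (((fun m => ((f m).den : ℚ)) : ℕ → ℚ) : QU) = 0 := congrArg Subtype.val h
    have h2 := (sq_germ_zero h1).exists
    obtain ⟨m, hm⟩ := h2
    exact (f m).den_nz (by exact_mod_cast hm)
  · rw [Subfield.coe_mul, ← hf, ← Germ.coe_mul]
    congr 1
    funext m
    simp only [Pi.mul_apply]
    rw [mul_comm]
    exact (Rat.mul_den_eq_num (f m)).symm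

end sq

end Pool.Agent.Lib.MP_d0d59f_nt.Auto

end

section

namespace Pool.Agent.Lib.MP_d0d59f_nt.Lin

open Filter Topology Auto

/-- `2 ^ a / 3 ^ b` -/
noncomputable def mon (a b : ℤ) : ℚ := (2 : ℚ) ^ a / 3 ^ b

theorem mon_ne_zero (a b : ℤ) : mon a b ≠ 0 := by
  unfold mon
  positivity

theorem mon_mul (a b a' b' : ℤ) : mon a b * mon a' b' = mon (a + a') (b + b') := by
  unfold mon
  rw [zpow_add₀ (by norm_num), zpow_add₀ (by norm_num)]
  ring

theorem lga_ht_zpow (c : ℕ) (hc : 1 ≤ c) (a : ℤ) : ht ((c : ℚ) ^ a) ≤ c ^ a.natAbs := by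
  have key : ∀ n : ℕ, ht ((c : ℚ) ^ n) ≤ c ^ n := by
    intro n
    have h := ht_div_le ((c : ℤ) ^ n) 1 one_ne_zero
    have h1 : (((((c : ℤ) ^ n : ℤ)) : ℚ) / ((1 : ℤ) : ℚ)) = (c : ℚ) ^ n := by
      push_cast
      rw [div_one]
    rw [h1] at h
    refine h.trans (max_le ?_ ?_)
    · rw [Int.natAbs_pow, Int.natAbs_natCast]
    · simpa using Nat.one_le_pow n c hc
  rcases Int.eq_nat_or_neg a with ⟨n, rfl | rfl⟩
  · rw [zpow_natCast, Int.natAbs_natCast]
    exact key n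
  · rw [zpow_neg, zpow_natCast, Int.natAbs_neg, Int.natAbs_natCast]
    exact (ht_inv_le _).trans (key n)

/-- Write `2 ^ a / 3 ^ b` as a quotient of two of the numbers `1`, `2 ^ |a|`, `3 ^ |b|`,
`2 ^ |a| 3 ^ |b|` and use `Auto.ht_div_le`. -/
theorem ht_mon_le (a b : ℤ) : (ht (mon a b) : ℝ) ≤ 3 ^ (|(a : ℝ)| + |(b : ℝ)|) := by
  have h1 : ht (mon a b) ≤ 2 ^ a.natAbs * 3 ^ b.natAbs := by
    unfold mon
    rw [div_eq_mul_inv]
    refine (ht_mul_le _ _).trans ?_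
    refine Nat.mul_le_mul ?_ ((ht_inv_le _).trans ?_)
    · have := lga_ht_zpow 2 (by norm_num) a
      simpa using this
    · have := lga_ht_zpow 3 (by norm_num) b
      simpa using this
  have h2 : (ht (mon a b) : ℝ) ≤ 2 ^ a.natAbs * 3 ^ b.natAbs := by exact_mod_cast h1
  refine h2.trans ?_
  have h3 : (2 : ℝ) ^ a.natAbs ≤ 3 ^ a.natAbs := pow_le_pow_left₀ (by norm_num) (by norm_num) _
  have h4 : (2 : ℝ) ^ a.natAbs * 3 ^ b.natAbs ≤ 3 ^ a.natAbs * 3 ^ b.natAbs :=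
    mul_le_mul_of_nonneg_right h3 (by positivity)
  refine h4.trans (le_of_eq ?_)
  rw [Real.rpow_add (by norm_num)]
  have h5 : ∀ c : ℤ, (3 : ℝ) ^ c.natAbs = 3 ^ |(c : ℝ)| := by
    intro c
    rw [← Real.rpow_natCast, Nat.cast_natAbs, Int.cast_abs]
  rw [h5, h5]

variable {L : ℕ → ℕ} {hL : Tendsto L atTop atTop}

theorem mon_mem_big (a b : ℕ → ℤ)
    (ha : ∃ C : ℝ, ∀ᶠ m in (hyperfilter ℕ : Filter ℕ), |(a m : ℝ)| ≤ C * L m)
    (hb : ∃ C : ℝ, ∀ᶠ m in (hyperfilter ℕ : Filter ℕ), |(b m : ℝ)| ≤ C * L m) :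
    (((fun m => mon (a m) (b m)) : ℕ → ℚ) : QU) ∈ bigField L hL := by
  obtain ⟨C, hC⟩ := ha
  obtain ⟨D, hD⟩ := hb
  refine ⟨fun m => mon (a m) (b m), rfl, 3 ^ (C + D), ?_⟩
  filter_upwards [hC, hD] with m h1 h2
  refine (ht_mon_le _ _).trans ?_
  rw [← Real.rpow_natCast, ← Real.rpow_mul (by norm_num)]
  refine Real.rpow_le_rpow_of_exponent_le (by norm_num) ?_
  calc |((a m : ℤ) : ℝ)| + |((b m : ℤ) : ℝ)| ≤ C * L m + D * L m := add_le_add h1 h2
    _ = (C + D) * L m := by ring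

/-- `3 ^ (2 δ) ≤ 1 + ε` for some `δ > 0`. -/
theorem mon_mem_small (a b : ℕ → ℤ)
    (ha : Tendsto (fun m => (a m : ℝ) / L m) (hyperfilter ℕ) (𝓝 0))
    (hb : Tendsto (fun m => (b m : ℝ) / L m) (hyperfilter ℕ) (𝓝 0)) :
    (((fun m => mon (a m) (b m)) : ℕ → ℚ) : QU) ∈ smallField L hL := by
  refine ⟨fun m => mon (a m) (b m), rfl, fun ε hε => ?_⟩
  obtain ⟨δ, hδ, hδε⟩ : ∃ δ : ℝ, 0 < δ ∧ (3 : ℝ) ^ (δ + δ) ≤ 1 + ε := by
    have hl3 : 0 < Real.log 3 := Real.log_pos (by norm_num)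
    have hle : 0 < Real.log (1 + ε) := Real.log_pos (by linarith)
    refine ⟨Real.log (1 + ε) / (2 * Real.log 3), by positivity, le_of_eq ?_⟩
    rw [Real.rpow_def_of_pos (by norm_num)]
    have : Real.log 3 * (Real.log (1 + ε) / (2 * Real.log 3) + Real.log (1 + ε) / (2 * Real.log 3))
        = Real.log (1 + ε) := by
      field_simp
      ring
    rw [this, Real.exp_log (by linarith)]
  have h1 : ∀ᶠ m in (hyperfilter ℕ : Filter ℕ), |(a m : ℝ) / L m| < δ := by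
    have := ha.abs
    rw [abs_zero] at this
    exact this.eventually_lt_const hδ
  have h2 : ∀ᶠ m in (hyperfilter ℕ : Filter ℕ), |(b m : ℝ) / L m| < δ := by
    have := hb.abs
    rw [abs_zero] at this
    exact this.eventually_lt_const hδ
  filter_upwards [h1, h2, sq_L_pos hL] with m h1 h2 hm
  have hm' : (0 : ℝ) < L m := by exact_mod_cast hm
  refine (ht_mon_le _ _).trans ?_
  have h3 : |((a m : ℤ) : ℝ)| ≤ δ * L m := by
    rw [abs_div, abs_of_pos hm', div_lt_iff₀ hm'] at h1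
    exact h1.le
  have h4 : |((b m : ℤ) : ℝ)| ≤ δ * L m := by
    rw [abs_div, abs_of_pos hm', div_lt_iff₀ hm'] at h2
    exact h2.le
  calc (3 : ℝ) ^ (|((a m : ℤ) : ℝ)| + |((b m : ℤ) : ℝ)|) ≤ 3 ^ ((δ + δ) * L m) := by
        refine Real.rpow_le_rpow_of_exponent_le (by norm_num) ?_
        linarith
    _ = (3 ^ (δ + δ)) ^ L m := by
        rw [← Real.rpow_natCast, ← Real.rpow_mul (by norm_num)]
    _ ≤ (1 + ε) ^ L m := pow_le_pow_left₀ (by positivity) hδε _

/-- `n (mon a b) ^ (1 / L) = n 2 ^ (a / L) / n 3 ^ (b / L)` if `L > 0` (`Real.rpow_intCast`,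
`Real.rpow_mul`). -/
theorem limAbs_mon {n : AbsoluteValue ℚ ℝ} {v : AbsoluteValue (bigField L hL) ℝ}
    (hv : IsLimAbs n v) {z : bigField L hL} {a b : ℕ → ℤ}
    (hz : (((fun m => mon (a m) (b m)) : ℕ → ℚ) : QU) = (z : QU)) {α β : ℝ}
    (ha : Tendsto (fun m => (a m : ℝ) / L m) (hyperfilter ℕ) (𝓝 α))
    (hb : Tendsto (fun m => (b m : ℝ) / L m) (hyperfilter ℕ) (𝓝 β)) :
    v z = n 2 ^ α / n 3 ^ β := by
  refine sq_val_eq hv hz ?_
  have p2 : 0 < n 2 := n.pos (by norm_num)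
  have p3 : 0 < n 3 := n.pos (by norm_num)
  have h1 : Tendsto (fun m => n 2 ^ ((a m : ℝ) / L m)) (hyperfilter ℕ) (𝓝 (n 2 ^ α)) :=
    ((Real.continuousAt_const_rpow p2.ne').tendsto).comp ha
  have h2 : Tendsto (fun m => n 3 ^ ((b m : ℝ) / L m)) (hyperfilter ℕ) (𝓝 (n 3 ^ β)) :=
    ((Real.continuousAt_const_rpow p3.ne').tendsto).comp hb
  have h3 := h1.div h2 (Real.rpow_pos_of_pos p3 _).ne'
  refine h3.congr fun m => ?_
  simp only [Pi.div_apply]
  unfold mon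
  rw [map_div₀, map_zpow₀, map_zpow₀, Real.div_rpow (by positivity) (by positivity)]
  congr 1
  · rw [← Real.rpow_intCast, ← Real.rpow_mul p2.le]
    congr 1
    ring
  · rw [← Real.rpow_intCast, ← Real.rpow_mul p3.le]
    congr 1
    ring

/-- `⌊s L⌋ / L → s`. -/
theorem tendsto_floor (hL : Tendsto L atTop atTop) (s : ℝ) :
    Tendsto (fun m => ((⌊s * L m⌋ : ℤ) : ℝ) / L m) (hyperfilter ℕ) (𝓝 s) := by
  have hL' : Tendsto (fun m => (L m : ℝ)) atTop atTop := tendsto_natCast_atTop_atTop.comp hL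
  have h0 : Tendsto (fun m => s - 1 / (L m : ℝ)) (hyperfilter ℕ) (𝓝 s) := by
    have h1 : Tendsto (fun m => 1 / (L m : ℝ)) atTop (𝓝 0) := by
      refine (tendsto_inv_atTop_zero.comp hL').congr fun m => ?_
      simp
    have h2 : Tendsto (fun m => s - 1 / (L m : ℝ)) atTop (𝓝 (s - 0)) := tendsto_const_nhds.sub h1
    rw [sub_zero] at h2
    exact h2.mono_left Nat.hyperfilter_le_atTop
  refine tendsto_of_tendsto_of_tendsto_of_le_of_le' h0 tendsto_const_nhds ?_ ?_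
  · filter_upwards [sq_L_pos hL] with m hm
    have hm' : (0 : ℝ) < L m := by exact_mod_cast hm
    rw [le_div_iff₀ hm', sub_mul, one_div, inv_mul_cancel₀ hm'.ne']
    exact (Int.sub_one_lt_floor _).le
  · filter_upwards [sq_L_pos hL] with m hm
    have hm' : (0 : ℝ) < L m := by exact_mod_cast hm
    rw [div_le_iff₀ hm']
    exact Int.floor_le _

end Pool.Agent.Lib.MP_d0d59f_nt.Lin

end

section

namespace Pool.Agent.Lib.MP_d0d59f_nt.Lin

open Filter Topology Auto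

theorem germB_padic_int (z : ℤ) (hz : z ≠ 0) : (1 : ℝ) ≤ Rat.AbsoluteValue.padic 3 (z : ℚ) * |(z : ℝ)| := by
  have h1 : (3 : ℤ) ^ padicValInt 3 z ∣ z := by
    have := padicValInt_dvd (p := 3) z
    simpa using this
  have h2 : (3 : ℤ) ^ padicValInt 3 z ≤ |z| :=
    Int.le_of_dvd (abs_pos.mpr hz) ((dvd_abs _ _).mpr h1)
  have h3 : (3 : ℝ) ^ padicValInt 3 z ≤ |(z : ℝ)| := by exact_mod_cast h2
  have h4 : Rat.AbsoluteValue.padic 3 (z : ℚ) = ((3 : ℝ) ^ padicValInt 3 z)⁻¹ := by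
    rw [Rat.AbsoluteValue.padic_eq_padicNorm, padicNorm.eq_zpow_of_nonzero (by exact_mod_cast hz),
      padicValRat.of_int]
    push_cast
    rw [zpow_neg, zpow_natCast]
  rw [h4, ← div_eq_inv_mul, le_div_iff₀ (by positivity), one_mul]
  exact h3

theorem germB_padic_int_le (z : ℤ) : Rat.AbsoluteValue.padic 3 (z : ℚ) ≤ 1 := by
  rw [Rat.AbsoluteValue.padic_eq_padicNorm]
  exact_mod_cast padicNorm.of_int (p := 3) z

/-- `HtBound` for the prime `3`, and the values used below. -/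
theorem htBound_padic_three : HtBound (Rat.AbsoluteValue.padic 3) := by
  have hdiv : ∀ q : ℚ, Rat.AbsoluteValue.padic 3 q * Rat.AbsoluteValue.padic 3 ((q.den : ℤ) : ℚ) =
      Rat.AbsoluteValue.padic 3 (q.num : ℚ) := by
    intro q
    rw [← map_mul]
    congr 1
    push_cast
    exact Rat.mul_den_eq_num q
  have hd : ∀ q : ℚ, (1 : ℝ) ≤ q.den := fun q => by exact_mod_cast q.pos
  refine ⟨fun q => ?_, fun q hq => ?_⟩
  · have h1 := germB_padic_int (q.den : ℤ) (by exact_mod_cast q.den_ne_zero)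
    have h2 := hdiv q
    have h3 := germB_padic_int_le q.num
    have h4 : |(((q.den : ℤ)) : ℝ)| = q.den := by
      push_cast
      exact abs_of_nonneg (by positivity)
    rw [h4] at h1
    calc Rat.AbsoluteValue.padic 3 q = Rat.AbsoluteValue.padic 3 q * 1 := (mul_one _).symm
      _ ≤ Rat.AbsoluteValue.padic 3 q * (Rat.AbsoluteValue.padic 3 ((q.den : ℤ) : ℚ) * q.den) :=
        mul_le_mul_of_nonneg_left h1 (AbsoluteValue.nonneg _ _)
      _ = Rat.AbsoluteValue.padic 3 (q.num : ℚ) * q.den := by rw [← mul_assoc, h2]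
      _ ≤ 1 * q.den := mul_le_mul_of_nonneg_right h3 (by positivity)
      _ ≤ ht q := by rw [one_mul]; exact al_den_le q
  · have h1 := germB_padic_int q.num (Rat.num_ne_zero.mpr hq)
    have h2 := hdiv q
    have h3 := germB_padic_int_le (q.den : ℤ)
    calc (1 : ℝ) ≤ Rat.AbsoluteValue.padic 3 (q.num : ℚ) * |(q.num : ℝ)| := h1
      _ ≤ Rat.AbsoluteValue.padic 3 (q.num : ℚ) * ht q :=
        mul_le_mul_of_nonneg_left (al_num_le q) (AbsoluteValue.nonneg _ _)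
      _ = Rat.AbsoluteValue.padic 3 q * Rat.AbsoluteValue.padic 3 ((q.den : ℤ) : ℚ) * ht q := by
        rw [h2]
      _ ≤ Rat.AbsoluteValue.padic 3 q * 1 * ht q := by
        gcongr
      _ = Rat.AbsoluteValue.padic 3 q * ht q := by rw [mul_one]

theorem padic_two_two : Rat.AbsoluteValue.padic 2 (2 : ℚ) = 1 / 2 := by
  rw [Rat.AbsoluteValue.padic_eq_padicNorm]
  have h : padicNorm 2 ((2 : ℕ) : ℚ) = ((2 : ℕ) : ℚ)⁻¹ := padicNorm.padicNorm_p (by norm_num)
  have h' : padicNorm 2 (2 : ℚ) = 2⁻¹ := by exact_mod_cast h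
  rw [h']
  norm_num

theorem padic_two_three : Rat.AbsoluteValue.padic 2 (3 : ℚ) = 1 := by
  rw [Rat.AbsoluteValue.padic_eq_padicNorm]
  have h : padicNorm 2 ((3 : ℕ) : ℚ) = 1 := padicNorm.nat_eq_one_iff 3 |>.mpr (by norm_num)
  have h' : padicNorm 2 (3 : ℚ) = 1 := by exact_mod_cast h
  rw [h']
  norm_num

theorem padic_three_two : Rat.AbsoluteValue.padic 3 (2 : ℚ) = 1 := by
  rw [Rat.AbsoluteValue.padic_eq_padicNorm]
  have h : padicNorm 3 ((2 : ℕ) : ℚ) = 1 := padicNorm.nat_eq_one_iff 2 |>.mpr (by norm_num)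
  have h' : padicNorm 3 (2 : ℚ) = 1 := by exact_mod_cast h
  rw [h']
  norm_num

theorem padic_three_three : Rat.AbsoluteValue.padic 3 (3 : ℚ) = 1 / 3 := by
  rw [Rat.AbsoluteValue.padic_eq_padicNorm]
  have h : padicNorm 3 ((3 : ℕ) : ℚ) = ((3 : ℕ) : ℚ)⁻¹ := padicNorm.padicNorm_p (by norm_num)
  have h' : padicNorm 3 (3 : ℚ) = 3⁻¹ := by exact_mod_cast h
  rw [h']
  norm_num

theorem real_two : Rat.AbsoluteValue.real (2 : ℚ) = 2 := by
  rw [Rat.AbsoluteValue.real_eq_abs]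
  norm_num

theorem real_three : Rat.AbsoluteValue.real (3 : ℚ) = 3 := by
  rw [Rat.AbsoluteValue.real_eq_abs]
  norm_num

end Pool.Agent.Lib.MP_d0d59f_nt.Lin

end

section

namespace Pool.Agent.Lib.MP_d0d59f_nt.Lin

open Filter Topology Auto

attribute [local instance] sqAlg

variable {L : ℕ → ℕ} {hL : Tendsto L atTop atTop}

/-- a convergent quotient is bounded along the filter -/
theorem monA_bound {L : ℕ → ℕ} (hL : Tendsto L atTop atTop) {a : ℕ → ℤ} {s : ℝ}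
    (ha : Tendsto (fun m => (a m : ℝ) / L m) (hyperfilter ℕ) (𝓝 s)) :
    ∃ C : ℝ, ∀ᶠ m in (hyperfilter ℕ : Filter ℕ), |(a m : ℝ)| ≤ C * L m := by
  refine ⟨|s| + 1, ?_⟩
  have h1 : ∀ᶠ m in (hyperfilter ℕ : Filter ℕ), |(a m : ℝ) / L m| < |s| + 1 :=
    ha.abs.eventually (gt_mem_nhds (by linarith))
  filter_upwards [h1, ah_L L hL 1] with m h2 h3
  have h4 : (0 : ℝ) < L m := by exact_mod_cast h3
  rw [abs_div, abs_of_pos h4, div_lt_iff₀ h4] at h2
  exact h2.le

theorem monA_ne (a b : ℕ → ℤ) : (((fun m => mon (a m) (b m)) : ℕ → ℚ) : QU) ≠ 0 := by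
  intro h
  have h1 : (((fun m => mon (a m) (b m)) : ℕ → ℚ) : QU) = ((0 : ℕ → ℚ) : QU) := h
  obtain ⟨m, hm⟩ := (Germ.coe_eq.mp h1).exists
  exact mon_ne_zero _ _ hm

end Pool.Agent.Lib.MP_d0d59f_nt.Lin

end
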