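import Pool.Agent.Lib.MP_d0d59f_nt.Sub.OrthSystems

/-!
Foelner sets; independence and orthogonality of monomials.
-/

section

namespace Pool.Agent.Lib.MP_d0d59f_nt.Sb

open scoped Pointwise

/-- the sums `∑_{π ∈ S} a_π π`, `0 ≤ a_π ≤ B` -/
noncomputable def folner2_I (S : Finset (ℝ × ℝ)) (B : ℕ) : Finset (ℝ × ℝ) :=
  (Fintype.piFinset (fun _ : S => Finset.range (B + 1))).image
    (fun a => ∑ π : S, a π • (π : ℝ × ℝ))

theorem folner2_mem {S : Finset (ℝ × ℝ)} {B : ℕ} {ξ : ℝ × ℝ} :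
    ξ ∈ folner2_I S B ↔ ∃ a : S → ℕ, (∀ π, a π ≤ B) ∧ ∑ π : S, a π • (π : ℝ × ℝ) = ξ := by
  unfold folner2_I
  simp only [Finset.mem_image, Fintype.mem_piFinset, Finset.mem_range, Nat.lt_succ_iff]

theorem folner2_card (S : Finset (ℝ × ℝ)) (B : ℕ) : (folner2_I S B).card ≤ (B + 1) ^ S.card := by
  unfold folner2_I
  refine le_trans Finset.card_image_le ?_
  rw [Fintype.card_piFinset]
  simp

theorem folner2_nonempty (S : Finset (ℝ × ℝ)) (B : ℕ) : (folner2_I S B).Nonempty :=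
  ⟨_, folner2_mem.2 ⟨fun _ => 0, fun _ => Nat.zero_le _, rfl⟩⟩

theorem folner2_step {S : Finset (ℝ × ℝ)} {B : ℕ} {ξ π : ℝ × ℝ} (h : ξ ∈ folner2_I S B)
    (hπ : π ∈ S) : ξ + π ∈ folner2_I S (B + 1) := by
  classical
  obtain ⟨a, ha, rfl⟩ := folner2_mem.1 h
  rw [folner2_mem]
  refine ⟨Function.update a ⟨π, hπ⟩ (a ⟨π, hπ⟩ + 1), ?_, ?_⟩
  · intro ρ
    by_cases hρ : ρ = ⟨π, hπ⟩
    · subst hρ
      simpa using ha _
    · rw [Function.update_of_ne hρ]
      exact (ha ρ).trans (Nat.le_succ _)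
  · have h2 : ∀ ρ : S, (Function.update a ⟨π, hπ⟩ (a ⟨π, hπ⟩ + 1) ρ) • (ρ : ℝ × ℝ) =
        a ρ • (ρ : ℝ × ℝ) + (if ρ = ⟨π, hπ⟩ then π else 0) := by
      intro ρ
      by_cases hρ : ρ = ⟨π, hπ⟩
      · subst hρ
        rw [Function.update_self, if_pos rfl, succ_nsmul]
      · rw [Function.update_of_ne hρ, if_neg hρ, add_zero]
    rw [Finset.sum_congr rfl (fun ρ _ => h2 ρ), Finset.sum_add_distrib]
    congr 1
    rw [Finset.sum_ite_eq' Finset.univ (⟨π, hπ⟩ : S)]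
    simp

/-- Let `E` be a finite subset of `ℝ × ℝ`. There are nonempty finite `D`, `S` with
`δ + γ ∈ S` for all `δ ∈ D`, `γ ∈ E` and `card S ≤ 2 card D`.
Proof: let `I B` be the set of the sums `∑ γ ∈ E, a γ • γ`,
`0 ≤ a γ ≤ B` integers; `card (I B) ≤ (B+1) ^ card E`, `I B + E ⊆ I (B + 1)`. If
`card (I (B+1)) > 2 card (I B)` for all `B` then `2 ^ B ≤ card (I B) ≤ (B + 1) ^ card E`,
contradiction for large `B`. -/
theorem exists_folner2 (E : Finset (ℝ × ℝ)) : ∃ D S : Finset (ℝ × ℝ), D.Nonempty ∧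
    (∀ δ ∈ D, ∀ γ ∈ E, δ + γ ∈ S) ∧ S.card ≤ 2 * D.card := by
  by_contra hcon
  have hall : ∀ B : ℕ, 2 * (folner2_I E B).card ≤ (folner2_I E (B + 1)).card := by
    intro B
    by_contra hB
    exact hcon ⟨folner2_I E B, folner2_I E (B + 1), folner2_nonempty E B,
      fun ξ h π hπ => folner2_step h hπ, (not_le.1 hB).le⟩
  have hgrow : ∀ B : ℕ, (2 : ℝ) ^ B ≤ ((folner2_I E B).card : ℝ) := by
    intro B
    induction B with
    | zero =>
      rw [pow_zero]
      exact_mod_cast (folner2_nonempty E 0).card_pos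
    | succ B ih =>
      have h1 : (2 : ℝ) * ((folner2_I E B).card : ℝ) ≤ ((folner2_I E (B + 1)).card : ℝ) := by
        exact_mod_cast hall B
      calc (2 : ℝ) ^ (B + 1) = 2 * 2 ^ B := by ring
        _ ≤ 2 * ((folner2_I E B).card : ℝ) := mul_le_mul_of_nonneg_left ih (by norm_num)
        _ ≤ _ := h1
  have hlim := tendsto_pow_const_div_const_pow_of_one_lt E.card (one_lt_two (α := ℝ))
  have hev : ∀ᶠ M : ℕ in Filter.atTop, ((M : ℝ) ^ E.card / 2 ^ M) < 1 / 2 :=
    hlim.eventually (gt_mem_nhds (by positivity))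
  obtain ⟨M, hM1, hM2⟩ := (hev.and (Filter.eventually_ge_atTop 1)).exists
  obtain ⟨B, rfl⟩ : ∃ B, M = B + 1 := ⟨M - 1, by omega⟩
  have h1 := hgrow B
  have h2 : ((folner2_I E B).card : ℝ) ≤ ((B + 1 : ℕ) : ℝ) ^ E.card := by
    exact_mod_cast folner2_card E B
  rw [div_lt_div_iff₀ (by positivity) (by norm_num), one_mul, pow_succ (2 : ℝ) B] at hM1
  have h3 : ((B + 1 : ℕ) : ℝ) ^ E.card < 2 ^ B := lt_of_mul_lt_mul_right hM1 (by norm_num)
  linarith

/-- the lexicographic order adapted to `l` -/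
noncomputable def folner2_phi (l : ℝ × ℝ →+ ℝ) (x : ℝ × ℝ) : ℝ ×ₗ (ℝ ×ₗ ℝ) :=
  toLex (l x, toLex (x.1, x.2))

theorem folner2_phi_add (l : ℝ × ℝ →+ ℝ) (x y : ℝ × ℝ) :
    folner2_phi l (x + y) = folner2_phi l x + folner2_phi l y := by
  unfold folner2_phi
  rw [map_add]
  rfl

theorem folner2_phi_inj (l : ℝ × ℝ →+ ℝ) {x y : ℝ × ℝ} (h : folner2_phi l x = folner2_phi l y) :
    x = y := by
  unfold folner2_phi at h
  have h1 := congrArg Prod.snd (toLex.injective h)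
  have h2 : toLex (x.1, x.2) = toLex (y.1, y.2) := h1
  exact toLex.injective h2

/-- An additive order adapted to a linear form `ℓ`: there is an element `γ₀` of the nonempty finite set `E`
with `ℓ γ ≤ ℓ γ₀` for all `γ ∈ E`, and such that for every nonempty finite set `T` there is
`δ ∈ T` with: `γ + δ = γ₀ + δ'`, `γ ∈ E`, `δ' ∈ T` implies `γ = γ₀` (and `δ' = δ`).
Proof. Choose the lexicographic order: first `ℓ`, then the first coordinate, then the second coordinate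
(a total order compatible with addition: `x < y` iff `ℓ x < ℓ y`, or `ℓ x = ℓ y` and `x.1 < y.1`, or
equalities and `x.2 < y.2`; one can use the injective additive map `x ↦ (ℓ x, x.1, x.2)` to
`ℝ ×ₗ ℝ ×ₗ ℝ`). `γ₀` = the maximum of `E`, `δ` = the minimum of `T`: if `γ + δ = γ₀ + δ'` then
`γ ≤ γ₀` and `δ ≤ δ'`, so both are equalities. -/
theorem exists_extreme (l : ℝ × ℝ →+ ℝ) (E : Finset (ℝ × ℝ)) (hE : E.Nonempty) :
    ∃ γ₀ ∈ E, (∀ γ ∈ E, l γ ≤ l γ₀) ∧ ∀ T : Finset (ℝ × ℝ), T.Nonempty → ∃ δ ∈ T,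
      ∀ γ ∈ E, ∀ δ' ∈ T, γ + δ = γ₀ + δ' → γ = γ₀ ∧ δ' = δ := by
  obtain ⟨γ₀, hγ₀, hmax⟩ := Finset.exists_max_image E (folner2_phi l) hE
  refine ⟨γ₀, hγ₀, fun γ hγ => ?_, fun T hT => ?_⟩
  · exact Prod.Lex.monotone_fst_ofLex (hmax γ hγ)
  · obtain ⟨δ, hδ, hmin⟩ := Finset.exists_min_image T (folner2_phi l) hT
    refine ⟨δ, hδ, fun γ hγ δ' hδ' he => ?_⟩
    have h1 : folner2_phi l γ + folner2_phi l δ = folner2_phi l γ₀ + folner2_phi l δ' := by
      rw [← folner2_phi_add, ← folner2_phi_add, he]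
    have h2 := hmax γ hγ
    have h3 := hmin δ' hδ'
    have h4 : γ = γ₀ := by
      rcases lt_or_eq_of_le h2 with h5 | h5
      · exact absurd h1 (ne_of_lt (add_lt_add_of_lt_of_le h5 h3))
      · exact folner2_phi_inj l h5
    refine ⟨h4, ?_⟩
    rw [h4] at he
    exact (add_left_cancel he).symm

end Pool.Agent.Lib.MP_d0d59f_nt.Sb

end

section

namespace Pool.Agent.Lib.MP_d0d59f_nt.Sb

open Module

/-- monomials `X γ`, `γ ∈ ℝ × ℝ`: units of `O`, multiplicative up to constants -/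
structure Mono2 (κ : Type) {𝕂 : Type} [Field κ] [Field 𝕂] [Algebra κ 𝕂] (O : Subring 𝕂)
    (w : Fin 3 → AbsoluteValue 𝕂 ℝ) (X : ℝ × ℝ → 𝕂) : Prop where
  ne : ∀ γ, X γ ≠ 0
  mem : ∀ γ, X γ ∈ O
  mul : ∀ γ δ, ∃ c : κ, c ≠ 0 ∧ X γ * X δ = c • X (γ + δ)
  zero : ∃ c : κ, c ≠ 0 ∧ X 0 = algebraMap κ 𝕂 c
  val0 : ∀ γ, w 0 (X γ) = Real.exp (γ.1 * Real.log 2 - γ.2 * Real.log 3)
  val1 : ∀ γ, w 1 (X γ) = Real.exp (-(γ.1 * Real.log 2))
  val2 : ∀ γ, w 2 (X γ) = Real.exp (γ.2 * Real.log 3)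

variable {κ 𝕂 : Type} [Field κ] [Field 𝕂] [Algebra κ 𝕂] {O : Subring 𝕂}
  {w : Fin 3 → AbsoluteValue 𝕂 ℝ} {X : ℝ × ℝ → 𝕂}

/-- `∑ v, log (w v (X γ)) = 0` -/
theorem Mono2.sum_log (hX : Mono2 κ O w X) (γ : ℝ × ℝ) : ∑ v, Real.log (w v (X γ)) = 0 := by
  rw [Fin.sum_univ_three, hX.val0, hX.val1, hX.val2, Real.log_exp, Real.log_exp, Real.log_exp]
  ring

/-- the values at `1` and `2` determine `γ` -/
theorem Mono2.eq_of_val (hX : Mono2 κ O w X) {γ δ : ℝ × ℝ} (h : ∀ v, w v (X γ) = w v (X δ)) :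
    γ = δ := by
  have h1 := h 1
  have h2 := h 2
  rw [hX.val1, hX.val1] at h1
  rw [hX.val2, hX.val2] at h2
  have h1' := Real.exp_injective h1
  have h2' := Real.exp_injective h2
  have l2 : Real.log 2 ≠ 0 := (Real.log_pos (by norm_num)).ne'
  have l3 : Real.log 3 ≠ 0 := (Real.log_pos (by norm_num)).ne'
  have e1 : γ.1 = δ.1 := mul_right_cancel₀ l2 (neg_injective h1')
  have e2 : γ.2 = δ.2 := mul_right_cancel₀ l3 h2'
  exact Prod.ext e1 e2

theorem MonoA_det {ι : Type} [Fintype ι] [DecidableEq ι] (p : ι → Prop) [DecidablePred p]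
    (hp : ∀ i j, p i → p j → i = j) (c : ι → κ) (hc : ∀ i, c i ≠ 0) :
    (Matrix.of (fun i j : ι => if p i then c j else if i = j then (1 : κ) else 0)).det ≠ 0 := by
  intro hdet
  obtain ⟨x, hx0, hx⟩ := Matrix.exists_mulVec_eq_zero_iff.2 hdet
  have h1 : ∀ i, ¬ p i → x i = 0 := by
    intro i hi
    have := congrFun hx i
    simpa [Matrix.mulVec, dotProduct, hi] using this
  apply hx0
  funext i
  by_cases hi : p i
  · have := congrFun hx i
    simp only [Matrix.mulVec, dotProduct, Matrix.of_apply, hi, if_true, Pi.zero_apply] at this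
    rw [Finset.sum_eq_single i] at this
    · exact (mul_eq_zero.1 this).resolve_left (hc i)
    · intro j _ hj
      rw [h1 j (fun h => hj (hp j i h hi)), mul_zero]
    · intro h; exact absurd (Finset.mem_univ _) h
  · exact h1 i hi

/-- Distinct monomials are independent over `κ`. Proof. Otherwise let `T` be a finite set of minimal size
with a relation `∑ γ ∈ T, c γ • X γ = 0` not all `c γ = 0`; then all `c γ ≠ 0`, every proper subset of `T`
is independent, and `T` has at least two elements (`X γ ≠ 0`). Fix `γ₀ ∈ T` and let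
`ι = T \ {γ₀}`, `z γ = X γ`: independent. For each `v` let `γ v ∈ T` be such that `w v (X γ)` is
maximal. Let `A v` be the identity matrix if `γ v = γ₀`, and else the identity matrix with the row
`γ v` replaced by the row `c` (so that `(A v z) (γ v) = ∑ γ ≠ γ₀, c γ • X γ = - c γ₀ • X γ₀`);
`det A v = c (γ v) ≠ 0`. In both cases `∑ i, log (w v ((A v z) i)) = ∑ γ ∈ T, γ ≠ γ v, log (w v (X γ))`.
`NssProp` gives `0 ≤ ∑ v, ∑ γ ∈ T \ {γ v}, log (w v (X γ)) = - ∑ v, log (w v (X (γ v)))` by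
`sum_log`. For every `γ ∈ T`, `∑ v, log (w v (X (γ v))) ≥ ∑ v, log (w v (X γ)) = 0` termwise, so all
terms are equal, `w v (X γ) = w v (X (γ v))` for all `v` and `γ`: contradiction to `eq_of_val` since `T`
has two different elements. -/
theorem Mono2.linearIndependent (h : Setting κ O w) (hX : Mono2 κ O w X) (hN : NssProp κ O w) :
    LinearIndependent κ X := by
  classical
  rw [linearIndependent_iff']
  intro T
  induction T using Finset.strongInduction with
  | H T ih =>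
  intro c hc
  by_contra hcon
  push Not at hcon
  obtain ⟨γ₀, hγ₀, hcγ₀⟩ := hcon
  -- all the coefficients are nonzero
  have hall : ∀ γ ∈ T, c γ ≠ 0 := by
    intro γ₁ hγ₁ h0
    have hss : T.erase γ₁ ⊂ T := Finset.erase_ssubset hγ₁
    have hsum : ∑ γ ∈ T.erase γ₁, c γ • X γ = 0 := by
      rw [← hc, ← Finset.add_sum_erase T (fun γ => c γ • X γ) hγ₁]
      simp [h0]
    have hne : γ₀ ≠ γ₁ := by
      rintro rfl
      exact hcγ₀ h0
    exact hcγ₀ (ih _ hss c hsum γ₀ (Finset.mem_erase.2 ⟨hne, hγ₀⟩))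
  have hpos : ∀ v γ, 0 < w v (X γ) := fun v γ => (w v).pos (hX.ne γ)
  have hTne : T.Nonempty := ⟨γ₀, hγ₀⟩
  have hmax : ∀ v : Fin 3, ∃ m ∈ T, ∀ γ ∈ T, w v (X γ) ≤ w v (X m) := fun v =>
    Finset.exists_max_image T (fun γ => w v (X γ)) hTne
  choose m hmT hm using hmax
  -- independence
  have hli : LinearIndependent κ (fun i : {γ // γ ∈ T.erase γ₀} => X i.1) := by
    rw [Fintype.linearIndependent_iff]
    intro g hg i
    have h1 := ih _ (Finset.erase_ssubset hγ₀)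
      (fun γ => if h : γ ∈ T.erase γ₀ then g ⟨γ, h⟩ else 0) ?_ i.1 i.2
    · simpa using h1
    · rw [← hg, ← Finset.sum_coe_sort (T.erase γ₀)]
      refine Finset.sum_congr rfl (fun j _ => ?_)
      rw [dif_pos j.2]
  have hrel : ∑ γ ∈ T.erase γ₀, c γ • X γ = - (c γ₀ • X γ₀) := by
    have h1 := Finset.add_sum_erase T (fun γ => c γ • X γ) hγ₀
    rw [hc] at h1
    exact eq_neg_of_add_eq_zero_right h1
  have hkey := hN {γ // γ ∈ T.erase γ₀} (fun i => X i.1) (fun i => hX.mem i.1) hli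
    (fun v => Matrix.of (fun i j : {γ // γ ∈ T.erase γ₀} =>
      if i.1 = m v then c j.1 else if i = j then (1 : κ) else 0))
    (fun v => MonoA_det (fun i : {γ // γ ∈ T.erase γ₀} => i.1 = m v)
      (fun i j hi hj => Subtype.ext (hi.trans hj.symm)) (fun j => c j.1)
      (fun j => hall _ (Finset.mem_of_mem_erase j.2)))
  have hval : ∀ v : Fin 3, ∀ i : {γ // γ ∈ T.erase γ₀},
      w v (∑ j, algebraMap κ 𝕂 (Matrix.of (fun i j : {γ // γ ∈ T.erase γ₀} =>
        if i.1 = m v then c j.1 else if i = j then (1 : κ) else 0) i j) * X j.1) =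
      if i.1 = m v then w v (X γ₀) else w v (X i.1) := by
    intro v i
    by_cases hi : i.1 = m v
    · simp only [Matrix.of_apply, hi, if_true]
      have h1 : (∑ j : {γ // γ ∈ T.erase γ₀}, algebraMap κ 𝕂 (c j.1) * X j.1) =
          - (algebraMap κ 𝕂 (c γ₀) * X γ₀) := by
        rw [← Algebra.smul_def, ← hrel, ← Finset.sum_coe_sort (T.erase γ₀) (fun γ => c γ • X γ)]
        exact Finset.sum_congr rfl (fun j _ => (Algebra.smul_def _ _).symm)
      rw [h1, map_neg_eq_map, map_mul, h.const v _ hcγ₀, one_mul]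
    · simp [Matrix.of_apply, hi]
  have hsumv : ∀ v : Fin 3, ∑ i : {γ // γ ∈ T.erase γ₀},
      Real.log (w v (∑ j, algebraMap κ 𝕂 (Matrix.of (fun i j : {γ // γ ∈ T.erase γ₀} =>
        if i.1 = m v then c j.1 else if i = j then (1 : κ) else 0) i j) * X j.1)) =
      ∑ γ ∈ T, Real.log (w v (X γ)) - Real.log (w v (X (m v))) := by
    intro v
    have h1 : ∀ i : {γ // γ ∈ T.erase γ₀},
        Real.log (w v (∑ j, algebraMap κ 𝕂 (Matrix.of (fun i j : {γ // γ ∈ T.erase γ₀} =>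
          if i.1 = m v then c j.1 else if i = j then (1 : κ) else 0) i j) * X j.1)) =
        Real.log (w v (X i.1)) +
          (if i.1 = m v then Real.log (w v (X γ₀)) - Real.log (w v (X (m v))) else 0) := by
      intro i
      rw [hval v i]
      by_cases hi : i.1 = m v
      · simp only [hi, if_true]; ring
      · simp only [hi, if_false, add_zero]
    rw [Finset.sum_congr rfl (fun i _ => h1 i)]
    have h2 := Finset.sum_coe_sort (T.erase γ₀) (fun γ => Real.log (w v (X γ)) +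
      (if γ = m v then Real.log (w v (X γ₀)) - Real.log (w v (X (m v))) else 0))
    refine h2.trans ?_
    rw [Finset.sum_add_distrib, Finset.sum_ite_eq',
      ← Finset.add_sum_erase T (fun γ => Real.log (w v (X γ))) hγ₀]
    by_cases hmv : m v = γ₀
    · rw [if_neg (by rw [hmv]; exact Finset.notMem_erase _ _), hmv]
      ring
    · rw [if_pos (Finset.mem_erase.2 ⟨hmv, hmT v⟩)]
      ring
  have hkey2 : 0 ≤ ∑ v, (∑ γ ∈ T, Real.log (w v (X γ)) - Real.log (w v (X (m v)))) := by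
    refine hkey.trans (le_of_eq ?_)
    exact Finset.sum_congr rfl (fun v _ => hsumv v)
  rw [Finset.sum_sub_distrib, Finset.sum_comm] at hkey2
  have hz : ∑ γ ∈ T, ∑ v, Real.log (w v (X γ)) = 0 :=
    Finset.sum_eq_zero (fun γ _ => hX.sum_log γ)
  rw [hz] at hkey2
  have heq : ∀ γ ∈ T, ∀ v, w v (X γ) = w v (X (m v)) := by
    intro γ hγ v
    have hle : ∀ v, Real.log (w v (X γ)) ≤ Real.log (w v (X (m v))) := fun v =>
      Real.log_le_log (hpos v γ) (hm v γ hγ)
    have hs : ∑ v, Real.log (w v (X γ)) = ∑ v, Real.log (w v (X (m v))) := by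
      refine le_antisymm (Finset.sum_le_sum (fun v _ => hle v)) ?_
      rw [hX.sum_log γ]
      linarith
    have := (Finset.sum_eq_sum_iff_of_le (fun v _ => hle v)).1 hs v (Finset.mem_univ v)
    exact Real.log_injOn_pos (hpos v γ) (hpos v (m v)) this
  have hT1 : ∀ γ ∈ T, γ = γ₀ := by
    intro γ hγ
    exact hX.eq_of_val (fun v => (heq γ hγ v).trans (heq γ₀ hγ₀ v).symm)
  have hTs : T = {γ₀} := by
    ext γ
    constructor
    · intro hγ
      rw [Finset.mem_singleton]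
      exact hT1 γ hγ
    · intro hγ
      rw [Finset.mem_singleton.1 hγ]
      exact hγ₀
  rw [hTs, Finset.sum_singleton] at hc
  rcases smul_eq_zero.1 hc with h0 | h0
  · exact hcγ₀ h0
  · exact hX.ne γ₀ h0

end Pool.Agent.Lib.MP_d0d59f_nt.Sb

end

section

namespace Pool.Agent.Lib.MP_d0d59f_nt.Sb

open Module

variable {κ 𝕂 : Type} [Field κ] [Field 𝕂] [Algebra κ 𝕂] {O : Subring 𝕂}
  {w : Fin 3 → AbsoluteValue 𝕂 ℝ} {X : ℝ × ℝ → 𝕂}

/-- a row of the identity replaced by `c`: determinant -/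
theorem Mono_det {ι : Type} [Fintype ι] [DecidableEq ι] (i : ι) (c : ι → κ) :
    ((1 : Matrix ι ι κ).updateRow i c).det = c i := by
  rw [← Matrix.cramer_transpose_apply, Matrix.transpose_one, Matrix.cramer_one]
  rfl

/-- `w v (∑ γ ∈ T, c γ • X γ) ≥ w v (X γ₀)` if `c γ₀ ≠ 0`. Proof: remove the `γ` with `c γ = 0`; let `γ₁`
be such that `w v (X γ₁)` is maximal. `ι = T`, `z = X`, `A v` = identity with the row `γ₁` replaced by
`c` (`det = c γ₁`), `A v' = 1` for `v' ≠ v`. `NssProp`: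
`0 ≤ ∑ v', ∑ γ, log (w v' (X γ)) + log (w v (∑ c γ • X γ)) - log (w v (X γ₁))`, and the double sum is
zero. -/
theorem Mono2.le_val (h : Setting κ O w) (hX : Mono2 κ O w X) (hN : NssProp κ O w) (v : Fin 3)
    (T : Finset (ℝ × ℝ)) (c : ℝ × ℝ → κ) {γ₀ : ℝ × ℝ} (hγ : γ₀ ∈ T) (hc : c γ₀ ≠ 0) :
    w v (X γ₀) ≤ w v (∑ γ ∈ T, c γ • X γ) := by
  classical
  have hT : ∑ γ ∈ T, c γ • X γ = ∑ γ ∈ T.filter (fun γ => c γ ≠ 0), c γ • X γ := by
    symm
    apply Finset.sum_subset (Finset.filter_subset _ _)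
    intro x hx hx2
    have h0 : c x = 0 := by
      by_contra hne
      exact hx2 (Finset.mem_filter.2 ⟨hx, hne⟩)
    rw [h0, zero_smul]
  rw [hT]
  set T' := T.filter (fun γ => c γ ≠ 0) with hT'
  have hγ' : γ₀ ∈ T' := Finset.mem_filter.2 ⟨hγ, hc⟩
  obtain ⟨γ₁, hγ₁, hmax⟩ := Finset.exists_max_image T' (fun γ => w v (X γ)) ⟨γ₀, hγ'⟩
  refine (hmax γ₀ hγ').trans ?_
  have hc1 : c γ₁ ≠ 0 := (Finset.mem_filter.1 hγ₁).2
  have hind := Mono2.linearIndependent h hX hN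
  -- the sum over `T'` is not zero
  have hS : ∑ γ ∈ T', c γ • X γ ≠ 0 := by
    intro h0
    exact hc1 ((linearIndependent_iff'.1 hind) T' c h0 γ₁ hγ₁)
  have hind' : LinearIndependent κ (fun i : T' => X i) :=
    hind.comp (fun i : T' => (i : ℝ × ℝ)) Subtype.val_injective
  have key := hN T' (fun i : T' => X i) (fun i => hX.mem i) hind'
    (fun v' => if v' = v then (1 : Matrix T' T' κ).updateRow ⟨γ₁, hγ₁⟩ (fun j => c j) else 1)
    (fun v' => by
      split_ifs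
      · rw [Mono_det]; exact hc1
      · rw [Matrix.det_one]; exact one_ne_zero)
  -- the values of the forms
  have hone : ∀ i : T', ∑ j : T', algebraMap κ 𝕂 ((1 : Matrix T' T' κ) i j) * X j = X i := by
    intro i
    rw [Finset.sum_eq_single i]
    · rw [Matrix.one_apply_eq, map_one, one_mul]
    · intro b _ hb
      rw [Matrix.one_apply_ne hb.symm, map_zero, zero_mul]
    · intro h0; exact absurd (Finset.mem_univ i) h0
  have hrow : ∑ j : T', algebraMap κ 𝕂 (c j) * X j = ∑ γ ∈ T', c γ • X γ := by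
    rw [← Finset.sum_coe_sort T' (fun γ => c γ • X γ)]
    exact Finset.sum_congr rfl (fun j _ => (Algebra.smul_def _ _).symm)
  have hinner : ∀ v' : Fin 3, ∑ i : T', Real.log (w v' (∑ j : T', algebraMap κ 𝕂
      ((if v' = v then (1 : Matrix T' T' κ).updateRow ⟨γ₁, hγ₁⟩ (fun j => c j) else 1) i j) * X j)) =
      ∑ i : T', Real.log (w v' (X i)) + if v' = v then
        (Real.log (w v (∑ γ ∈ T', c γ • X γ)) - Real.log (w v (X γ₁))) else 0 := by
    intro v'
    by_cases hv : v' = v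
    · subst hv
      simp only [if_true]
      rw [← Finset.add_sum_erase Finset.univ _ (Finset.mem_univ (⟨γ₁, hγ₁⟩ : T')),
        ← Finset.add_sum_erase Finset.univ (fun i : T' => Real.log (w v' (X i)))
          (Finset.mem_univ (⟨γ₁, hγ₁⟩ : T'))]
      have h1 : ∑ j : T', algebraMap κ 𝕂 (((1 : Matrix T' T' κ).updateRow ⟨γ₁, hγ₁⟩
          (fun j => c j)) ⟨γ₁, hγ₁⟩ j) * X j = ∑ γ ∈ T', c γ • X γ := by
        rw [← hrow]
        refine Finset.sum_congr rfl (fun j _ => ?_)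
        rw [Matrix.updateRow_self]
      rw [h1]
      have h2 : ∑ i ∈ Finset.univ.erase (⟨γ₁, hγ₁⟩ : T'), Real.log (w v' (∑ j : T', algebraMap κ 𝕂
          (((1 : Matrix T' T' κ).updateRow ⟨γ₁, hγ₁⟩ (fun j => c j)) i j) * X j)) =
          ∑ i ∈ Finset.univ.erase (⟨γ₁, hγ₁⟩ : T'), Real.log (w v' (X i)) := by
        refine Finset.sum_congr rfl (fun i hi => ?_)
        have hne := (Finset.mem_erase.1 hi).1
        rw [← hone i]
        congr 2
        refine Finset.sum_congr rfl (fun j _ => ?_)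
        rw [Matrix.updateRow_ne hne]
      rw [h2]
      ring
    · simp only [if_neg hv, add_zero]
      exact Finset.sum_congr rfl (fun i _ => by rw [hone i])
  rw [Finset.sum_congr rfl (fun v' _ => hinner v'), Finset.sum_add_distrib,
    Finset.sum_ite_eq' Finset.univ v, if_pos (Finset.mem_univ v), Finset.sum_comm,
    Finset.sum_congr rfl (fun (i : T') _ => hX.sum_log (i : ℝ × ℝ)), Finset.sum_const_zero,
    zero_add] at key
  have hpos : 0 < w v (X γ₁) := (w v).pos (hX.ne γ₁)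
  exact (Real.log_le_log_iff hpos ((w v).pos hS)).1 (by linarith)

/-- the polynomials: the `κ`-span of the monomials, a subring of `𝕂` -/
noncomputable def polys2 (κ : Type) {𝕂 : Type} [Field κ] [Field 𝕂] [Algebra κ 𝕂] (X : ℝ × ℝ → 𝕂) :
    Submodule κ 𝕂 := Submodule.span κ (Set.range X)

theorem Mono2.mul_mem (hX : Mono2 κ O w X) {p q : 𝕂} (hp : p ∈ polys2 κ X) (hq : q ∈ polys2 κ X) :
    p * q ∈ polys2 κ X := by
  have h1 : p * q ∈ polys2 κ X * polys2 κ X := Submodule.mul_mem_mul hp hq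
  rw [polys2, Submodule.span_mul_span] at h1
  refine Submodule.span_le.2 ?_ h1
  rintro _ ⟨_, ⟨γ, rfl⟩, _, ⟨δ, rfl⟩, rfl⟩
  obtain ⟨c, _, hc⟩ := hX.mul γ δ
  change X γ * X δ ∈ polys2 κ X
  rw [hc]
  exact Submodule.smul_mem _ _ (Submodule.subset_span ⟨_, rfl⟩)

theorem Mono2.one_mem (hX : Mono2 κ O w X) : (1 : 𝕂) ∈ polys2 κ X := by
  obtain ⟨c, hc, h0⟩ := hX.zero
  have h1 : (1 : 𝕂) = c⁻¹ • X 0 := by
    rw [h0, Algebra.smul_def, ← map_mul, inv_mul_cancel₀ hc, map_one]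
  rw [h1]
  exact Submodule.smul_mem _ _ (Submodule.subset_span ⟨_, rfl⟩)

theorem Mono2.X_mem (γ : ℝ × ℝ) : X γ ∈ polys2 κ X := Submodule.subset_span ⟨γ, rfl⟩

/-- the coefficients of a polynomial -/
theorem exists_coeffs {p : 𝕂} (hp : p ∈ polys2 κ X) : ∃ c : (ℝ × ℝ) →₀ κ,
    p = ∑ γ ∈ c.support, c γ • X γ := by
  obtain ⟨c, hc⟩ := Finsupp.mem_span_range_iff_exists_finsupp.1 hp
  exact ⟨c, hc.symm⟩

end Pool.Agent.Lib.MP_d0d59f_nt.Sb

end
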