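import Pool.Agent.Lib.MP_d0d59f_nt.Sub.AbsValues
import Pool.Agent.Lib.MP_d0d59f_nt.Sub.Monomials
import Pool.Agent.Lib.MP_d0d59f_nt.Sub.Heights

/-!
The setting for germs of sequences of rational numbers.
-/

section

namespace Pool.Agent.Lib.MP_d0d59f_nt.Sb

open Filter Topology Auto Lin

attribute [local instance] sqAlg

variable {L : ℕ → ℕ} {hL : Tendsto L atTop atTop}

/-- the limits of `|f m|_v ^ (1 / L m)` -/
noncomputable def wv (L : ℕ → ℕ) (hL : Tendsto L atTop atTop) (v : Fin 3) :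
    AbsoluteValue (bigField L hL) ℝ := (exists_absLim (hL := hL) (absv v) (htBound_absv v)).choose

theorem wv_nonarch (v : Fin 3) (a b : bigField L hL) :
    wv L hL v (a + b) ≤ max (wv L hL v a) (wv L hL v b) :=
  (exists_absLim (hL := hL) (absv v) (htBound_absv v)).choose_spec.1 a b

theorem wv_lim (v : Fin 3) : IsLimAbs (absv v) (wv L hL v) :=
  (exists_absLim (hL := hL) (absv v) (htBound_absv v)).choose_spec.2

/-- the germs of sequences in `ℤ[1/6]` -/
def O6 (L : ℕ → ℕ) (hL : Tendsto L atTop atTop) : Subring (bigField L hL) where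
  carrier := {z | ∃ f : ℕ → ℚ, (∀ m, f m ∈ Z6) ∧ (f : QU) = (z : QU)}
  mul_mem' := by
    rintro a b ⟨f, hf, hf'⟩ ⟨g, hg, hg'⟩
    refine ⟨f * g, fun m => Z6.mul_mem (hf m) (hg m), ?_⟩
    rw [Subfield.coe_mul, ← hf', ← hg', ← Germ.coe_mul]
  one_mem' := ⟨fun _ => 1, fun m => Z6.one_mem, rfl⟩
  add_mem' := by
    rintro a b ⟨f, hf, hf'⟩ ⟨g, hg, hg'⟩
    refine ⟨f + g, fun m => Z6.add_mem (hf m) (hg m), ?_⟩
    rw [Subfield.coe_add, ← hf', ← hg', ← Germ.coe_add]
  zero_mem' := ⟨fun _ => 0, fun m => Z6.zero_mem, rfl⟩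
  neg_mem' := by
    rintro a ⟨f, hf, hf'⟩
    refine ⟨-f, fun m => Z6.neg_mem (hf m), ?_⟩
    rw [Subfield.coe_neg, ← hf', ← Germ.coe_neg]

/-- the monomial `(s, b)`: germ of `2 ^ ⌊s L⌋ / 3 ^ ⌊b L⌋` -/
noncomputable def germM (L : ℕ → ℕ) (hL : Tendsto L atTop atTop) (γ : ℝ × ℝ) : bigField L hL :=
  ⟨(((fun m => mon ⌊γ.1 * L m⌋ ⌊γ.2 * L m⌋) : ℕ → ℚ) : QU),
    mon_mem_big _ _ (monA_bound hL (tendsto_floor hL γ.1)) (monA_bound hL (tendsto_floor hL γ.2))⟩

/-- Main lemma: if `a / L → s`, `b / L → t` then the germ of `2 ^ a / 3 ^ b` is a nonzero constant of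
`smallField` times `germM (s, t)`. -/
theorem germM_eq {s t : ℝ} (a b : ℕ → ℤ)
    (ha : Tendsto (fun m => (a m : ℝ) / L m) (hyperfilter ℕ) (𝓝 s))
    (hb : Tendsto (fun m => (b m : ℝ) / L m) (hyperfilter ℕ) (𝓝 t)) :
    ∃ c : smallField L hL, c ≠ 0 ∧
      (((fun m => mon (a m) (b m)) : ℕ → ℚ) : QU) = ((c • germM L hL (s, t) : bigField L hL) : QU) := by
  have h1 : Tendsto (fun m => ((a m - ⌊s * L m⌋ : ℤ) : ℝ) / L m) (hyperfilter ℕ) (𝓝 0) := by
    have h := ha.sub (tendsto_floor hL s)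
    rw [sub_self] at h
    refine h.congr fun m => ?_
    push_cast
    rw [sub_div]
  have h2 : Tendsto (fun m => ((b m - ⌊t * L m⌋ : ℤ) : ℝ) / L m) (hyperfilter ℕ) (𝓝 0) := by
    have h := hb.sub (tendsto_floor hL t)
    rw [sub_self] at h
    refine h.congr fun m => ?_
    push_cast
    rw [sub_div]
  have hc := mon_mem_small (hL := hL) _ _ h1 h2
  refine ⟨⟨_, hc⟩, ?_, ?_⟩
  · intro h
    exact monA_ne _ _ (congrArg Subtype.val h)
  · rw [Algebra.smul_def, Subfield.coe_mul]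
    change _ = (((fun m => mon (a m - ⌊s * L m⌋) (b m - ⌊t * L m⌋)) : ℕ → ℚ) : QU) *
      (((fun m => mon ⌊s * L m⌋ ⌊t * L m⌋) : ℕ → ℚ) : QU)
    rw [← Germ.coe_mul]
    congr 1
    funext m
    rw [Pi.mul_apply, mon_mul]
    congr 1 <;> ring

theorem germM_mon_mem (a b : ℤ) : mon a b ∈ Z6 := by
  unfold mon
  rw [div_eq_mul_inv, ← zpow_neg]
  exact Z6.mul_mem (zpow_two_mem_Z6 a) (zpow_three_mem_Z6 (-b))

theorem germM_val (v : Fin 3) (γ : ℝ × ℝ) :
    wv L hL v (germM L hL γ) = absv v 2 ^ γ.1 / absv v 3 ^ γ.2 :=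
  limAbs_mon (wv_lim v) (z := germM L hL γ) rfl (tendsto_floor hL γ.1) (tendsto_floor hL γ.2)

/-- From `germM_eq`, `limAbs_mon`, `tendsto_floor`, `mon_mul`, `zpow_two_mem_Z6`. -/
theorem mono2_germ : Mono2 (smallField L hL) (O6 L hL) (wv L hL) (germM L hL) where
  ne γ := by
    intro h
    exact monA_ne (fun m => ⌊γ.1 * L m⌋) (fun m => ⌊γ.2 * L m⌋) (congrArg Subtype.val h)
  mem γ := ⟨fun m => mon ⌊γ.1 * L m⌋ ⌊γ.2 * L m⌋, fun m => germM_mon_mem _ _, rfl⟩
  mul γ δ := by
    have h1 : Tendsto (fun m => ((⌊γ.1 * L m⌋ + ⌊δ.1 * L m⌋ : ℤ) : ℝ) / L m) (hyperfilter ℕ)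
        (𝓝 (γ.1 + δ.1)) := by
      refine ((tendsto_floor hL γ.1).add (tendsto_floor hL δ.1)).congr fun m => ?_
      push_cast
      rw [add_div]
    have h2 : Tendsto (fun m => ((⌊γ.2 * L m⌋ + ⌊δ.2 * L m⌋ : ℤ) : ℝ) / L m) (hyperfilter ℕ)
        (𝓝 (γ.2 + δ.2)) := by
      refine ((tendsto_floor hL γ.2).add (tendsto_floor hL δ.2)).congr fun m => ?_
      push_cast
      rw [add_div]
    obtain ⟨c, hc, he⟩ := germM_eq (hL := hL) _ _ h1 h2
    refine ⟨c, hc, ?_⟩
    apply Subtype.ext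
    refine Eq.trans ?_ he
    rw [Subfield.coe_mul]
    change (((fun m => mon ⌊γ.1 * L m⌋ ⌊γ.2 * L m⌋) : ℕ → ℚ) : QU) *
      (((fun m => mon ⌊δ.1 * L m⌋ ⌊δ.2 * L m⌋) : ℕ → ℚ) : QU) = _
    rw [← Germ.coe_mul]
    congr 1
    funext m
    rw [Pi.mul_apply, mon_mul]
  zero := by
    refine ⟨1, one_ne_zero, ?_⟩
    rw [map_one]
    apply Subtype.ext
    change (((fun m => mon ⌊(0 : ℝ × ℝ).1 * L m⌋ ⌊(0 : ℝ × ℝ).2 * L m⌋) : ℕ → ℚ) : QU) = 1
    rw [← Germ.coe_one]
    congr 1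
    funext m
    simp [mon]
  val0 γ := by
    have h2 : absv 0 2 = 2 := real_two
    have h3 : absv 0 3 = 3 := real_three
    rw [germM_val, h2, h3, Real.rpow_def_of_pos (by norm_num), Real.rpow_def_of_pos (by norm_num),
      ← Real.exp_sub]
    congr 1
    ring
  val1 γ := by
    have h2 : absv 1 2 = 1 / 2 := padic_two_two
    have h3 : absv 1 3 = 1 := padic_two_three
    rw [germM_val, h2, h3, Real.one_rpow, div_one, Real.rpow_def_of_pos (by norm_num), one_div,
      Real.log_inv]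
    congr 1
    ring
  val2 γ := by
    have h2 : absv 2 2 = 1 := padic_three_two
    have h3 : absv 2 3 = 1 / 3 := padic_three_three
    rw [germM_val, h2, h3, Real.one_rpow, one_div, ← Real.rpow_neg (by norm_num),
      Real.rpow_def_of_pos (by norm_num), one_div, Real.log_inv]
    congr 1
    ring

end Pool.Agent.Lib.MP_d0d59f_nt.Sb

end

section

namespace Pool.Agent.Lib.MP_d0d59f_nt.Sb

open Filter Topology Auto Lin

attribute [local instance] sqAlg

variable {L : ℕ → ℕ} {hL : Tendsto L atTop atTop}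

theorem setting_sqO_mem {z : bigField L hL} (hz : z ∈ sqO L hL) : z ∈ O6 L hL := by
  obtain ⟨f, hf⟩ := hz
  exact ⟨fun m => (f m : ℚ), fun m => int_mem_Z6 _, hf⟩

theorem setting_germM_inv_mem (γ : ℝ × ℝ) : (germM L hL γ)⁻¹ ∈ O6 L hL := by
  refine ⟨fun m => mon (-⌊γ.1 * L m⌋) (-⌊γ.2 * L m⌋), fun m => germM_mon_mem _ _, ?_⟩
  rw [Subfield.coe_inv]
  change _ = ((((fun m => mon ⌊γ.1 * L m⌋ ⌊γ.2 * L m⌋) : ℕ → ℚ) : QU))⁻¹
  rw [← Germ.coe_inv]
  congr 1
  funext m
  rw [Pi.inv_apply]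
  apply eq_inv_of_mul_eq_one_left
  rw [mon_mul]
  simp [mon]

/-- `const`: `sq_const`. `prod`: limit of `prod_absv`. `unit`: given `t` with sum
zero take `germM (s, b)` with `s = - t 1 / log 2`, `b = t 2 / log 3` (`mono2_germ`); its inverse is a
germ of `mon (-a) (-b)`. `frac`: `sq_frac` (integers are in `ℤ[1/6]`). -/
theorem setting_germ : Setting (smallField L hL) (O6 L hL) (wv L hL) where
  nonarch := wv_nonarch
  const := fun v c hc => sq_const (htBound_absv v) (wv_lim v) c hc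
  prod := by
    intro z hz hz0
    obtain ⟨f, hf, hfz⟩ := hz
    have h1 : Tendsto (fun m => ∏ v, (absv v (f m)) ^ ((1 : ℝ) / L m)) (hyperfilter ℕ)
        (𝓝 (∏ v, wv L hL v z)) := tendsto_finsetProd _ fun v _ => wv_lim v f z hfz
    refine ge_of_tendsto h1 ?_
    have hne : ∀ᶠ m in (hyperfilter ℕ : Filter ℕ), f m ≠ 0 := by
      apply sq_germ_ne_zero
      rw [hfz]
      exact fun h => hz0 (Subtype.ext h)
    filter_upwards [hne] with m hm
    rw [Real.finsetProd_rpow _ _ fun v _ => AbsoluteValue.nonneg _ _]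
    exact Real.one_le_rpow (prod_absv (f m) (hf m) hm) (by positivity)
  unit := by
    intro t ht
    have hX := mono2_germ (L := L) (hL := hL)
    have hl2 : Real.log 2 ≠ 0 := (Real.log_pos (by norm_num)).ne'
    have hl3 : Real.log 3 ≠ 0 := (Real.log_pos (by norm_num)).ne'
    refine ⟨germM L hL (-(t 1) / Real.log 2, t 2 / Real.log 3), hX.mem _, hX.ne _,
      setting_germM_inv_mem _, ?_⟩
    rw [Fin.sum_univ_three] at ht
    intro v
    fin_cases v
    · refine (hX.val0 _).trans ?_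
      congr 1
      simp only [Fin.zero_eta]
      field_simp
      linarith
    · refine (hX.val1 _).trans ?_
      congr 1
      simp only [Fin.mk_one]
      field_simp
    · refine (hX.val2 _).trans ?_
      congr 1
      simp only [Fin.reduceFinMk]
      field_simp
  frac := by
    intro z
    obtain ⟨D, hD, h0, hDz⟩ := sq_frac z
    exact ⟨D, setting_sqO_mem hD, h0, setting_sqO_mem hDz⟩

end Pool.Agent.Lib.MP_d0d59f_nt.Sb

end

section

namespace Pool.Agent.Lib.MP_d0d59f_nt.Sb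

open Filter Topology Auto Lin

attribute [local instance] sqAlg

variable {L : ℕ → ℕ} {hL : Tendsto L atTop atTop}

/-- `f` represents the germ `z` -/
def Rep (f : ℕ → ℚ) (z : bigField L hL) : Prop := (f : QU) = (z : QU)

theorem exists_rep (z : bigField L hL) : ∃ f : ℕ → ℚ, Rep f z := by
  obtain ⟨f, hf, -⟩ := z.2
  exact ⟨f, hf⟩

/-- a representative of a constant has height `exp (o (L))` -/
theorem exists_rep_small (c : smallField L hL) : ∃ f : ℕ → ℚ,
    Rep f (algebraMap (smallField L hL) (bigField L hL) c) ∧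
      ∀ ε : ℝ, 0 < ε → ∀ᶠ m in (hyperfilter ℕ : Filter ℕ), (ht (f m) : ℝ) ≤ (1 + ε) ^ L m := by
  obtain ⟨f, hf, hε⟩ := c.2
  exact ⟨f, hf, hε⟩

theorem exists_rep_O6 (z : bigField L hL) (hz : z ∈ O6 L hL) : ∃ f : ℕ → ℚ, (∀ m, f m ∈ Z6) ∧
    Rep f z := by
  obtain ⟨f, hf, hf'⟩ := hz
  exact ⟨f, hf, hf'⟩

theorem Rep.add {f g : ℕ → ℚ} {y z : bigField L hL} (h : Rep f y) (h' : Rep g z) :
    Rep (fun m => f m + g m) (y + z) := by
  unfold Rep at *
  rw [Subfield.coe_add, ← h, ← h', ← Germ.coe_add]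
  rfl

theorem Rep.mul {f g : ℕ → ℚ} {y z : bigField L hL} (h : Rep f y) (h' : Rep g z) :
    Rep (fun m => f m * g m) (y * z) := by
  unfold Rep at *
  rw [Subfield.coe_mul, ← h, ← h', ← Germ.coe_mul]
  rfl

theorem germToolsA_zero : Rep (fun _ => 0) (0 : bigField L hL) := rfl

theorem germToolsA_one : Rep (fun _ => 1) (1 : bigField L hL) := rfl

theorem germToolsA_neg {f : ℕ → ℚ} {y : bigField L hL} (h : Rep f y) :
    Rep (fun m => -f m) (-y) := by
  unfold Rep at *
  rw [Subfield.coe_neg, ← h, ← Germ.coe_neg]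
  rfl

theorem Rep.sum {ι : Type} (s : Finset ι) {f : ι → ℕ → ℚ} {z : ι → bigField L hL}
    (h : ∀ i ∈ s, Rep (f i) (z i)) : Rep (fun m => ∑ i ∈ s, f i m) (∑ i ∈ s, z i) := by
  classical
  induction s using Finset.induction_on with
  | empty => simpa using germToolsA_zero
  | insert a s ha ih =>
    have h1 := Rep.add (h a (Finset.mem_insert_self a s))
      (ih fun i hi => h i (Finset.mem_insert_of_mem hi))
    rw [Finset.sum_insert ha]
    simp only [Finset.sum_insert ha]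
    exact h1

theorem germToolsA_prod {ι : Type} (s : Finset ι) {f : ι → ℕ → ℚ} {z : ι → bigField L hL}
    (h : ∀ i ∈ s, Rep (f i) (z i)) : Rep (fun m => ∏ i ∈ s, f i m) (∏ i ∈ s, z i) := by
  classical
  induction s using Finset.induction_on with
  | empty => simpa using germToolsA_one
  | insert a s ha ih =>
    have h1 := Rep.mul (h a (Finset.mem_insert_self a s))
      (ih fun i hi => h i (Finset.mem_insert_of_mem hi))
    rw [Finset.prod_insert ha]
    simp only [Finset.prod_insert ha]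
    exact h1

/-- `Matrix.det_apply`, `Rep.sum`, products by induction -/
theorem Rep.det {ι : Type} [Fintype ι] [DecidableEq ι] {f : ℕ → Matrix ι ι ℚ}
    {B : Matrix ι ι (bigField L hL)} (h : ∀ i j, Rep (fun m => f m i j) (B i j)) :
    Rep (fun m => (f m).det) B.det := by
  simp only [Matrix.det_apply]
  refine Rep.sum _ fun σ _ => ?_
  have h1 := germToolsA_prod Finset.univ (fun i _ => h (σ i) i)
  rcases Int.units_eq_one_or (Equiv.Perm.sign σ) with hs | hs
  · simp only [hs, one_smul]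
    exact h1
  · simp only [hs, Units.neg_smul, one_smul]
    exact germToolsA_neg h1

end Pool.Agent.Lib.MP_d0d59f_nt.Sb

end

section

namespace Pool.Agent.Lib.MP_d0d59f_nt.Sb

open Filter Topology Auto Lin

attribute [local instance] sqAlg

variable {L : ℕ → ℕ} {hL : Tendsto L atTop atTop}

/-- two representatives of the same element agree eventually; in particular
`f m = 0` eventually iff `z = 0`, `f m ≠ 0` eventually iff `z ≠ 0` -/
theorem Rep.eventually_eq {f g : ℕ → ℚ} {z : bigField L hL} (h : Rep f z) (h' : Rep g z) :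
    ∀ᶠ m in (hyperfilter ℕ : Filter ℕ), f m = g m := by
  have h1 : (f : QU) = (g : QU) := Eq.trans h (Eq.symm h')
  exact Germ.coe_eq.1 h1

theorem Rep.eventually_ne {f : ℕ → ℚ} {z : bigField L hL} (h : Rep f z) (hz : z ≠ 0) :
    ∀ᶠ m in (hyperfilter ℕ : Filter ℕ), f m ≠ 0 := by
  apply sq_germ_ne_zero
  intro h0
  apply hz
  apply Subtype.ext
  exact Eq.trans (Eq.symm h) h0

theorem Rep.eventually_zero {f : ℕ → ℚ} (h : Rep f (0 : bigField L hL)) :
    ∀ᶠ m in (hyperfilter ℕ : Filter ℕ), f m = 0 := by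
  apply sq_germ_zero
  exact Eq.trans h rfl

/-- If `z` is not in the image of `smallField` then the heights are at least `(1 + η) ^ L` for some
`η > 0` (ultrafilter). -/
theorem Rep.ht_ge {f : ℕ → ℚ} {z : bigField L hL} (h : Rep f z)
    (hz : ∀ c : smallField L hL, algebraMap (smallField L hL) (bigField L hL) c ≠ z) :
    ∃ η : ℝ, 0 < η ∧ ∀ᶠ m in (hyperfilter ℕ : Filter ℕ), (1 + η) ^ L m ≤ (ht (f m) : ℝ) := by
  by_contra hcon
  push Not at hcon
  have hmem : (f : QU) ∈ smallField L hL := by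
    refine ⟨f, rfl, fun ε hε => ?_⟩
    filter_upwards [hcon ε hε] with m hm
    exact hm.le
  apply hz ⟨(f : QU), hmem⟩
  apply Subtype.ext
  exact h

/-- If `|f m|_v ≤ exp (r m * L m)` eventually and `r → s` along the ultrafilter then
`wv v z ≤ exp s`. -/
theorem Rep.wv_le {f : ℕ → ℚ} {z : bigField L hL} (h : Rep f z) (v : Fin 3) {r : ℕ → ℝ} {s : ℝ}
    (hr : Tendsto r (hyperfilter ℕ) (𝓝 s))
    (hle : ∀ᶠ m in (hyperfilter ℕ : Filter ℕ), absv v (f m) ≤ Real.exp (r m * L m)) :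
    wv L hL v z ≤ Real.exp s := by
  have h1 := wv_lim (hL := hL) v f z h
  have h2 : Tendsto (fun m => Real.exp (r m)) (hyperfilter ℕ) (𝓝 (Real.exp s)) :=
    (Real.continuous_exp.tendsto s).comp hr
  refine le_of_tendsto_of_tendsto h1 h2 ?_
  filter_upwards [hle, sq_L_pos hL] with m hm hLm
  have hLm' : (L m : ℝ) ≠ 0 := by exact_mod_cast hLm.ne'
  calc absv v (f m) ^ ((1 : ℝ) / L m) ≤ (Real.exp (r m * L m)) ^ ((1 : ℝ) / L m) :=
        Real.rpow_le_rpow ((absv v).nonneg _) hm (by positivity)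
    _ = Real.exp (r m) := by
        rw [← Real.exp_mul]
        congr 1
        field_simp

/-- If `wv v z ≤ exp s` then `|f m|_v ≤ exp ((s + ε) * L m)` eventually, for every `ε > 0`. -/
theorem Rep.absv_le {f : ℕ → ℚ} {z : bigField L hL} (h : Rep f z) (v : Fin 3) {s : ℝ}
    (hz : wv L hL v z ≤ Real.exp s) {ε : ℝ} (hε : 0 < ε) :
    ∀ᶠ m in (hyperfilter ℕ : Filter ℕ), absv v (f m) ≤ Real.exp ((s + ε) * L m) := by
  have h1 := wv_lim (hL := hL) v f z h
  have h2 : wv L hL v z < Real.exp (s + ε) :=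
    lt_of_le_of_lt hz (Real.exp_lt_exp.2 (by linarith))
  filter_upwards [h1.eventually_lt_const h2, sq_L_pos hL] with m hm hLm
  have h3 : (absv v (f m) ^ ((1 : ℝ) / L m)) ^ L m = absv v (f m) := by
    rw [one_div]
    exact Real.rpow_inv_natCast_pow ((absv v).nonneg _) hLm.ne'
  have h4 : (absv v (f m) ^ ((1 : ℝ) / L m)) ^ L m ≤ (Real.exp (s + ε)) ^ L m :=
    pow_le_pow_left₀ (Real.rpow_nonneg ((absv v).nonneg _) _) hm.le _
  rw [h3, ← Real.exp_nat_mul] at h4
  rw [mul_comm]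
  exact h4

/-- the germ of a sequence in `ℤ[1/6]` whose absolute values are at most `exp (C L)` -/
theorem exists_germ_Z6 {f : ℕ → ℚ} (hf : ∀ m, f m ∈ Z6) {C : ℝ}
    (hC : ∀ᶠ m in (hyperfilter ℕ : Filter ℕ), ∀ v, absv v (f m) ≤ Real.exp (C * L m)) :
    ∃ z : bigField L hL, z ∈ O6 L hL ∧ Rep f z := by
  have hmem : (f : QU) ∈ bigField L hL := by
    refine ⟨f, rfl, Real.exp |C| ^ 3, ?_⟩
    filter_upwards [hC] with m hm
    have h1 : ∀ v, max 1 (absv v (f m)) ≤ Real.exp |C| ^ L m := by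
      intro v
      rw [← Real.exp_nat_mul]
      refine max_le (Real.one_le_exp (by positivity)) ((hm v).trans ?_)
      apply Real.exp_le_exp.2
      rw [mul_comm]
      exact mul_le_mul_of_nonneg_left (le_abs_self C) (Nat.cast_nonneg _)
    have h0 : ∀ v, 0 ≤ max 1 (absv v (f m)) := fun v => le_trans zero_le_one (le_max_left _ _)
    have hE : (0 : ℝ) ≤ Real.exp |C| ^ L m := by positivity
    calc (ht (f m) : ℝ) ≤ max 1 (absv 0 (f m)) * (max 1 (absv 1 (f m)) * max 1 (absv 2 (f m))) :=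
          ht_le_of_Z6 (f m) (hf m)
      _ ≤ Real.exp |C| ^ L m * (Real.exp |C| ^ L m * Real.exp |C| ^ L m) :=
          mul_le_mul (h1 0) (mul_le_mul (h1 1) (h1 2) (h0 2) hE) (mul_nonneg (h0 1) (h0 2)) hE
      _ = (Real.exp |C| ^ 3) ^ L m := by
          rw [← mul_pow, ← mul_pow]
          congr 1
          ring
  exact ⟨⟨(f : QU), hmem⟩, ⟨f, hf, rfl⟩, rfl⟩

/-- a bounded real sequence has a limit along the ultrafilter -/
theorem exists_lim_of_bdd {r : ℕ → ℝ} {C : ℝ}
    (h : ∀ᶠ m in (hyperfilter ℕ : Filter ℕ), |r m| ≤ C) :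
    ∃ s : ℝ, Tendsto r (hyperfilter ℕ) (𝓝 s) := by
  have hmem : Set.Icc (-C) C ∈ Ultrafilter.map r (hyperfilter ℕ) := by
    rw [Ultrafilter.mem_map]
    filter_upwards [h] with m hm
    exact abs_le.1 hm
  obtain ⟨x, hx, hlim⟩ := isCompact_Icc.ultrafilter_le_nhds' _ hmem
  exact ⟨x, hlim⟩

end Pool.Agent.Lib.MP_d0d59f_nt.Sb

end

section

namespace Pool.Agent.Lib.MP_d0d59f_nt.Sb

open Filter Topology Auto Lin

attribute [local instance] sqAlg

variable {L : ℕ → ℕ} {hL : Tendsto L atTop atTop}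

/-- Take representatives `f` of the entries of `A` and `g` of the entries of `A⁻¹`
(`exists_rep_small`, `choose`). The entries of the product of the matrices `f m * g m` represent those of
`A * A⁻¹ = 1`, so `f m * g m = 1` for almost all `m` (`Rep.sum`, `Rep.mul`, `Rep.eventually_eq`), and then
`(f m)⁻¹ = g m` (`Matrix.inv_eq_right_inv`) and `det (f m) ≠ 0`. -/
theorem exists_rep_matrix {ι : Type} [Fintype ι] [DecidableEq ι]
    (A : Matrix ι ι (smallField L hL)) (hA : A.det ≠ 0) : ∃ f : ℕ → Matrix ι ι ℚ,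
      (∀ i j, Rep (fun m => f m i j) (algebraMap (smallField L hL) (bigField L hL) (A i j))) ∧
      (∀ i j, Rep (fun m => (f m)⁻¹ i j) (algebraMap (smallField L hL) (bigField L hL) (A⁻¹ i j))) ∧
      (∀ᶠ m in (hyperfilter ℕ : Filter ℕ), (f m).det ≠ 0) ∧
      ∀ ε : ℝ, 0 < ε → ∀ᶠ m in (hyperfilter ℕ : Filter ℕ), ∀ i j,
        (ht (f m i j) : ℝ) ≤ (1 + ε) ^ L m ∧ (ht ((f m)⁻¹ i j) : ℝ) ≤ (1 + ε) ^ L m := by
  classical
  choose f hf hfε using fun i j => exists_rep_small (A i j)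
  choose g hg hgε using fun i j => exists_rep_small (A⁻¹ i j)
  have hA' : IsUnit A.det := isUnit_iff_ne_zero.2 hA
  have hone : Rep (fun _ => (1 : ℚ)) (1 : bigField L hL) := rfl
  have hzero : Rep (fun _ => (0 : ℚ)) (0 : bigField L hL) := rfl
  have hprod : ∀ i j, ∀ᶠ m in (hyperfilter ℕ : Filter ℕ),
      (Matrix.of (fun i j => f i j m) * Matrix.of (fun i j => g i j m)) i j =
        (1 : Matrix ι ι ℚ) i j := by
    intro i j
    have h1 : Rep (fun m => ∑ k, f i k m * g k j m)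
        (∑ k, algebraMap (smallField L hL) (bigField L hL) (A i k) *
          algebraMap (smallField L hL) (bigField L hL) (A⁻¹ k j)) :=
      Rep.sum Finset.univ (fun k _ => (hf i k).mul (hg k j))
    have h2 : (∑ k, algebraMap (smallField L hL) (bigField L hL) (A i k) *
          algebraMap (smallField L hL) (bigField L hL) (A⁻¹ k j)) =
        algebraMap (smallField L hL) (bigField L hL) ((1 : Matrix ι ι (smallField L hL)) i j) := by
      rw [← Matrix.mul_nonsing_inv A hA', Matrix.mul_apply, map_sum]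
      exact Finset.sum_congr rfl (fun k _ => (map_mul _ _ _).symm)
    rw [h2] at h1
    have h3 : Rep (fun _ => (1 : Matrix ι ι ℚ) i j)
        (algebraMap (smallField L hL) (bigField L hL)
          ((1 : Matrix ι ι (smallField L hL)) i j)) := by
      by_cases hij : i = j
      · subst hij
        rw [Matrix.one_apply_eq, Matrix.one_apply_eq, map_one]
        exact hone
      · rw [Matrix.one_apply_ne hij, Matrix.one_apply_ne hij, map_zero]
        exact hzero
    filter_upwards [h1.eventually_eq h3] with m hm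
    rw [Matrix.mul_apply]
    exact hm
  have hprod' : ∀ᶠ m in (hyperfilter ℕ : Filter ℕ),
      Matrix.of (fun i j => f i j m) * Matrix.of (fun i j => g i j m) = (1 : Matrix ι ι ℚ) := by
    have h4 : ∀ᶠ m in (hyperfilter ℕ : Filter ℕ), ∀ i j,
        (Matrix.of (fun i j => f i j m) * Matrix.of (fun i j => g i j m)) i j =
          (1 : Matrix ι ι ℚ) i j :=
      Filter.eventually_all.2 (fun i => Filter.eventually_all.2 (fun j => hprod i j))
    filter_upwards [h4] with m hm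
    ext i j
    exact hm i j
  have hinv : ∀ᶠ m in (hyperfilter ℕ : Filter ℕ),
      (Matrix.of (fun i j => f i j m))⁻¹ = (Matrix.of (fun i j => g i j m) : Matrix ι ι ℚ) := by
    filter_upwards [hprod'] with m hm
    exact Matrix.inv_eq_right_inv hm
  refine ⟨fun m => Matrix.of (fun i j => f i j m), fun i j => hf i j, ?_, ?_, ?_⟩
  · intro i j
    have h5 : (fun m => (Matrix.of (fun i j => f i j m) : Matrix ι ι ℚ)⁻¹ i j)
        =ᶠ[(hyperfilter ℕ : Filter ℕ)] g i j := by
      filter_upwards [hinv] with m hm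
      rw [hm]
      rfl
    have h6 := Filter.Germ.coe_eq.2 h5
    exact h6.trans (hg i j)
  · filter_upwards [hprod'] with m hm hdet
    have h7 := congrArg Matrix.det hm
    rw [Matrix.det_mul, hdet, zero_mul, Matrix.det_one] at h7
    exact zero_ne_one h7
  · intro ε hε
    have h8 : ∀ᶠ m in (hyperfilter ℕ : Filter ℕ), ∀ i j, (ht (f i j m) : ℝ) ≤ (1 + ε) ^ L m :=
      Filter.eventually_all.2 (fun i => Filter.eventually_all.2 (fun j => hfε i j ε hε))
    have h9 : ∀ᶠ m in (hyperfilter ℕ : Filter ℕ), ∀ i j, (ht (g i j m) : ℝ) ≤ (1 + ε) ^ L m :=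
      Filter.eventually_all.2 (fun i => Filter.eventually_all.2 (fun j => hgε i j ε hε))
    filter_upwards [h8, h9, hinv] with m hm1 hm2 hm3 i j
    refine ⟨hm1 i j, ?_⟩
    rw [hm3]
    exact hm2 i j

end Pool.Agent.Lib.MP_d0d59f_nt.Sb

end
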