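import Mathlib

/-!
Orthogonal bases for three ultrametric absolute values; the twisted system.
-/

section

namespace Pool.Agent.Lib.MP_d0d59f_nt.Sb

open Module

/-- `w 0, w 1, w 2` are non-archimedean absolute values on `𝕂`, trivial on `κ`; the product formula
inequality holds on `O`; there are units of `O` with arbitrary values of product one. -/
structure Setting (κ : Type) {𝕂 : Type} [Field κ] [Field 𝕂] [Algebra κ 𝕂] (O : Subring 𝕂)
    (w : Fin 3 → AbsoluteValue 𝕂 ℝ) : Prop where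
  nonarch : ∀ v a b, w v (a + b) ≤ max (w v a) (w v b)
  const : ∀ v (c : κ), c ≠ 0 → w v (algebraMap κ 𝕂 c) = 1
  prod : ∀ z ∈ O, z ≠ 0 → 1 ≤ ∏ v, w v z
  unit : ∀ t : Fin 3 → ℝ, ∑ v, t v = 0 →
    ∃ u ∈ O, u ≠ 0 ∧ u⁻¹ ∈ O ∧ ∀ v, w v u = Real.exp (t v)
  frac : ∀ z : 𝕂, ∃ D ∈ O, D ≠ 0 ∧ D * z ∈ O

/-- a matrix over `κ` as a matrix over `𝕂` -/
def up {κ : Type} (𝕂 : Type) [Field κ] [Field 𝕂] [Algebra κ 𝕂] {ι : Type} (A : Matrix ι ι κ) :
    Matrix ι ι 𝕂 := A.map (algebraMap κ 𝕂)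

/-- `V = B⁻¹` and the columns of `B` are orthogonal, with values `exp (ρ j)`, for the norm
`max_i exp (- a i) * w (y i)` -/
structure Orth {𝕂 ι : Type} [Field 𝕂] (w : AbsoluteValue 𝕂 ℝ) (B V : Matrix ι ι 𝕂)
    (a ρ : ι → ℝ) : Prop where
  col : ∀ i j, w (B i j) ≤ Real.exp (a i + ρ j)
  row : ∀ j i, w (V j i) ≤ Real.exp (-(a i + ρ j))

/-- every system of weighted linear forms over `κ` has a basis of `O ^ ι` which is orthogonal for all
`v` -/
def SplitProp (κ : Type) {𝕂 : Type} [Field κ] [Field 𝕂] [Algebra κ 𝕂] (O : Subring 𝕂)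
    (w : Fin 3 → AbsoluteValue 𝕂 ℝ) (ι : Type) [Fintype ι] [DecidableEq ι] : Prop :=
  ∀ (A : Fin 3 → Matrix ι ι κ), (∀ v, (A v).det ≠ 0) → ∀ a : Fin 3 → ι → ℝ,
    ∃ (G V : Matrix ι ι 𝕂) (ρ : Fin 3 → ι → ℝ), (∀ i j, G i j ∈ O) ∧ (∀ i j, V i j ∈ O) ∧
      G * V = 1 ∧ ∀ v, Orth (w v) (up 𝕂 (A v) * G) (V * up 𝕂 (A v)⁻¹) (a v) (ρ v)

/-- if all columns of `F` but one lie in the hyperplane `b = 0` and are small for all the forms then the
hyperplane is defined over `κ` -/
def HyperProp (κ : Type) {𝕂 : Type} [Field κ] [Field 𝕂] [Algebra κ 𝕂] (O : Subring 𝕂)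
    (w : Fin 3 → AbsoluteValue 𝕂 ℝ) (ι : Type) [Fintype ι] [DecidableEq ι] : Prop :=
  ∀ (A : Fin 3 → Matrix ι ι κ), (∀ v, (A v).det ≠ 0) → ∀ a : Fin 3 → ι → ℝ,
    ∑ v, ∑ i, a v i = 0 → ∀ (F : Matrix ι ι 𝕂), (∀ i j, F i j ∈ O) → F.det ≠ 0 →
    ∀ (l₀ : ι) (δ : ℝ), 0 < δ →
      (∀ v i l, l ≠ l₀ → w v ((up 𝕂 (A v) * F) i l) ≤ Real.exp (a v i - δ)) →
      ∀ b : ι → 𝕂, (∀ l, l ≠ l₀ → ∑ i, b i * F i l = 0) → ∀ β, b β ≠ 0 →
        ∀ α, ∃ c : κ, b α = algebraMap κ 𝕂 c * b β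

/-- the subspace theorem: for `z` with entries in `O`, linearly independent over `κ`, and invertible
matrices `A v` over `κ`, the sum of the logarithms of the values `w v ((A v z) i)` is nonnegative -/
def NssProp (κ : Type) {𝕂 : Type} [Field κ] [Field 𝕂] [Algebra κ 𝕂] (O : Subring 𝕂)
    (w : Fin 3 → AbsoluteValue 𝕂 ℝ) : Prop :=
  ∀ (ι : Type) [Fintype ι] [DecidableEq ι] (z : ι → 𝕂), (∀ i, z i ∈ O) → LinearIndependent κ z →
    ∀ (A : Fin 3 → Matrix ι ι κ), (∀ v, (A v).det ≠ 0) →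
      0 ≤ ∑ v, ∑ i, Real.log (w v (∑ j, algebraMap κ 𝕂 (A v i j) * z j))

end Pool.Agent.Lib.MP_d0d59f_nt.Sb

end

section

namespace Pool.Agent.Lib.MP_d0d59f_nt.Sb

variable {𝕂 : Type} [Field 𝕂] {w : AbsoluteValue 𝕂 ℝ}

/-- Induction on `s`. -/
theorem val_sum_le (hw : ∀ a b, w (a + b) ≤ max (w a) (w b)) {ι : Type} (s : Finset ι) (f : ι → 𝕂)
    {C : ℝ} (hC : 0 ≤ C) (h : ∀ i ∈ s, w (f i) ≤ C) : w (∑ i ∈ s, f i) ≤ C := by
  classical
  induction s using Finset.induction_on with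
  | empty => rw [Finset.sum_empty, map_zero]; exact hC
  | insert a s ha ih =>
    rw [Finset.sum_insert ha]
    exact (hw _ _).trans (max_le (h a (Finset.mem_insert_self a s))
      (ih (fun i hi => h i (Finset.mem_insert_of_mem hi))))

/-- If `x ≠ 0`... `w (∑ f) ≤ max w (f i)`, attained: from `val_sum_le` for `C = max_i w (f i)`
(`Finset.exists_max_image`). -/
theorem exists_val_sum_le (hw : ∀ a b, w (a + b) ≤ max (w a) (w b)) {ι : Type} [Fintype ι]
    [Nonempty ι] (f : ι → 𝕂) : ∃ i, w (∑ i, f i) ≤ w (f i) := by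
  obtain ⟨i, _, hi⟩ := Finset.exists_max_image (Finset.univ : Finset ι) (fun i => w (f i))
    Finset.univ_nonempty
  exact ⟨i, val_sum_le hw _ f (w.nonneg _) (fun j hj => hi j hj)⟩

/-- `Matrix.det_apply`, `val_sum_le`; the value of `∏ i, B (σ i) i` is at most
`∏ i, exp (a (σ i) + ρ i) = exp (∑ a + ∑ ρ)` (`Equiv.sum_comp`). -/
theorem val_det_le (hw : ∀ a b, w (a + b) ≤ max (w a) (w b)) {ι : Type} [Fintype ι] [DecidableEq ι]
    (B : Matrix ι ι 𝕂) (a ρ : ι → ℝ) (h : ∀ i j, w (B i j) ≤ Real.exp (a i + ρ j)) :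
    w B.det ≤ Real.exp (∑ i, a i + ∑ j, ρ j) := by
  rw [Matrix.det_apply']
  refine val_sum_le hw _ _ (Real.exp_pos _).le (fun σ _ => ?_)
  have hs : w (((Equiv.Perm.sign σ : ℤ) : 𝕂)) = 1 := by
    rcases Int.units_eq_one_or (Equiv.Perm.sign σ) with h1 | h1 <;> rw [h1] <;> simp
  rw [map_mul, hs, one_mul, map_prod]
  have e : Real.exp (∑ i, a i + ∑ j, ρ j) = ∏ i, Real.exp (a (σ i) + ρ i) := by
    rw [← Real.exp_sum, Finset.sum_add_distrib, Equiv.sum_comp σ a]
  rw [e]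
  exact Finset.prod_le_prod (fun i _ => w.nonneg _) (fun i _ => h (σ i) i)

/-- `w det B ≤ exp S` and `w det V ≤ exp (-S)` for `S = ∑ a + ∑ ρ` (`val_det_le` for `V` with row
weights `-ρ`, column weights `-a`), and `det B * det V = 1`. -/
theorem Orth.val_det (hw : ∀ a b, w (a + b) ≤ max (w a) (w b)) {ι : Type} [Fintype ι]
    [DecidableEq ι] {B V : Matrix ι ι 𝕂} {a ρ : ι → ℝ} (h : Orth w B V a ρ) (hBV : B * V = 1) :
    w B.det = Real.exp (∑ i, a i + ∑ j, ρ j) := by
  have h1 := val_det_le hw B a ρ h.col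
  have h2 := val_det_le hw V (fun j => -ρ j) (fun i => -a i) (fun j i => by
    refine (h.row j i).trans_eq ?_
    congr 1
    ring)
  have h3 : w B.det * w V.det = 1 := by
    rw [← map_mul, ← Matrix.det_mul, hBV, Matrix.det_one, map_one]
  have h4 : Real.exp (∑ j, -ρ j + ∑ i, -a i) = (Real.exp (∑ i, a i + ∑ j, ρ j))⁻¹ := by
    rw [← Real.exp_neg, Finset.sum_neg_distrib, Finset.sum_neg_distrib]
    congr 1
    ring
  rw [h4] at h2
  refine le_antisymm h1 ?_
  have hpos := Real.exp_pos (∑ i, a i + ∑ j, ρ j)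
  have h5 : 1 ≤ w B.det * (Real.exp (∑ i, a i + ∑ j, ρ j))⁻¹ := by
    rw [← h3]
    exact mul_le_mul_of_nonneg_left h2 (w.nonneg _)
  rw [← div_eq_mul_inv, one_le_div hpos] at h5
  exact h5

/-- `x = V (B x)`, so `x l = ∑ i, V l i * (B x) i`, and `exists_val_sum_le`. -/
theorem Orth.lower (hw : ∀ a b, w (a + b) ≤ max (w a) (w b)) {ι : Type} [Fintype ι]
    [DecidableEq ι] [Nonempty ι] {B V : Matrix ι ι 𝕂} {a ρ : ι → ℝ} (h : Orth w B V a ρ)
    (hBV : B * V = 1) (x : ι → 𝕂) (l : ι) :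
    ∃ i, Real.exp (ρ l) * w (x l) ≤ Real.exp (-a i) * w (∑ j, B i j * x j) := by
  have hVB : V * B = 1 := mul_eq_one_comm.1 hBV
  have hx : x l = ∑ i, V l i * ∑ j, B i j * x j := by
    have h1 : (V * B).mulVec x l = x l := by rw [hVB, Matrix.one_mulVec]
    rw [← h1, ← Matrix.mulVec_mulVec]
    rfl
  obtain ⟨i, hi⟩ := exists_val_sum_le hw (fun i => V l i * ∑ j, B i j * x j)
  refine ⟨i, ?_⟩
  rw [← hx, map_mul] at hi
  have h2 := h.row l i
  calc Real.exp (ρ l) * w (x l) ≤ Real.exp (ρ l) * (w (V l i) * w (∑ j, B i j * x j)) :=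
        mul_le_mul_of_nonneg_left hi (Real.exp_pos _).le
    _ ≤ Real.exp (ρ l) * (Real.exp (-(a i + ρ l)) * w (∑ j, B i j * x j)) := by
        refine mul_le_mul_of_nonneg_left ?_ (Real.exp_pos _).le
        exact mul_le_mul_of_nonneg_right h2 (w.nonneg _)
    _ = Real.exp (-a i) * w (∑ j, B i j * x j) := by
        rw [← mul_assoc, ← Real.exp_add]
        congr 2
        ring

end Pool.Agent.Lib.MP_d0d59f_nt.Sb

end

section

namespace Pool.Agent.Lib.MP_d0d59f_nt.Sb

variable {κ 𝕂 : Type} [Field κ] [Field 𝕂] [Algebra κ 𝕂] {O : Subring 𝕂}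
  {w : Fin 3 → AbsoluteValue 𝕂 ℝ}

/-- `up` is multiplicative (`Matrix.map_mul`), `up A * up A⁻¹ = 1` if `det A ≠ 0`. -/
theorem up_mul_up_inv {ι : Type} [Fintype ι] [DecidableEq ι] {A : Matrix ι ι κ} (hA : A.det ≠ 0) :
    up 𝕂 A * up 𝕂 A⁻¹ = 1 := by
  unfold up
  rw [← Matrix.map_mul, Matrix.mul_nonsing_inv _ (isUnit_iff_ne_zero.mpr hA)]
  exact Matrix.map_one _ (map_zero _) (map_one _)

theorem up_inv_mul_up {ι : Type} [Fintype ι] [DecidableEq ι] {A : Matrix ι ι κ} (hA : A.det ≠ 0) :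
    up 𝕂 A⁻¹ * up 𝕂 A = 1 := by
  unfold up
  rw [← Matrix.map_mul, Matrix.nonsing_inv_mul _ (isUnit_iff_ne_zero.mpr hA)]
  exact Matrix.map_one _ (map_zero _) (map_one _)

/-- `(up A * G) * (V * up A⁻¹) = 1` if `G * V = 1`. -/
theorem orth_inverse {ι : Type} [Fintype ι] [DecidableEq ι] {A : Matrix ι ι κ} (hA : A.det ≠ 0)
    {G V : Matrix ι ι 𝕂} (hGV : G * V = 1) : (up 𝕂 A * G) * (V * up 𝕂 A⁻¹) = 1 := by
  rw [Matrix.mul_assoc, ← Matrix.mul_assoc G, hGV, Matrix.one_mul, up_mul_up_inv hA]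

/-- For a unit `u` of `O` (i.e. `u, u⁻¹ ∈ O`, `u ≠ 0`) the product of the values is one. -/
theorem Setting.prod_unit (h : Setting κ O w) {u : 𝕂} (hu : u ∈ O) (hu' : u⁻¹ ∈ O) (h0 : u ≠ 0) :
    ∏ v, w v u = 1 := by
  have h1 := h.prod u hu h0
  have h2 := h.prod u⁻¹ hu' (inv_ne_zero h0)
  have h3 : ∏ v, w v u⁻¹ = (∏ v, w v u)⁻¹ := by
    rw [← Finset.prod_inv_distrib]
    exact Finset.prod_congr rfl fun v _ => map_inv₀ (w v) u
  rw [h3] at h2
  have hpos : 0 < ∏ v, w v u := lt_of_lt_of_le one_pos h1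
  exact le_antisymm ((one_le_inv₀ hpos).mp h2) h1

/-- `w v (det (up (A v) * G)) = exp (∑ a v + ∑ ρ v)` (`Orth.val_det`, `orth_inverse`);
`det (up (A v)) = algebraMap (det (A v))` has value one (`RingHom.map_det`); `det G ∈ O`,
`det V ∈ O`, `det G * det V = 1`, so `∏ v, w v (det G) = 1` (`prod_unit`); take logarithms. -/
theorem sum_mu (h : Setting κ O w) {ι : Type} [Fintype ι] [DecidableEq ι]
    {A : Fin 3 → Matrix ι ι κ} (hA : ∀ v, (A v).det ≠ 0) {G V : Matrix ι ι 𝕂}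
    (hG : ∀ i j, G i j ∈ O) (hV : ∀ i j, V i j ∈ O) (hGV : G * V = 1) {a ρ : Fin 3 → ι → ℝ}
    (hO : ∀ v, Orth (w v) (up 𝕂 (A v) * G) (V * up 𝕂 (A v)⁻¹) (a v) (ρ v)) :
    ∑ v, ∑ i, a v i + ∑ v, ∑ i, ρ v i = 0 := by
  classical
  have hdetO : ∀ B : Matrix ι ι 𝕂, (∀ i j, B i j ∈ O) → B.det ∈ O := by
    intro B hB
    rw [Matrix.det_apply]
    refine Subring.sum_mem _ fun σ _ => ?_
    rw [Units.smul_def]
    exact Subring.zsmul_mem _ (Subring.prod_mem _ fun i _ => hB _ _) _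
  have hdet : G.det * V.det = 1 := by
    rw [← Matrix.det_mul, hGV, Matrix.det_one]
  have hG0 : G.det ≠ 0 := left_ne_zero_of_mul_eq_one hdet
  have hinv : G.det⁻¹ = V.det := inv_eq_of_mul_eq_one_right hdet
  have hprod := h.prod_unit (hdetO G hG) (by rw [hinv]; exact hdetO V hV) hG0
  have hval : ∀ v, w v G.det = Real.exp (∑ i, a v i + ∑ j, ρ v j) := by
    intro v
    have h1 := Orth.val_det (h.nonarch v) (hO v) (orth_inverse (hA v) hGV)
    rw [Matrix.det_mul, map_mul] at h1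
    have h2 : (up 𝕂 (A v)).det = algebraMap κ 𝕂 (A v).det := by
      unfold up
      exact ((algebraMap κ 𝕂).map_det (A v)).symm
    rw [h2, h.const v _ (hA v), one_mul] at h1
    exact h1
  have h2 : ∏ v, w v G.det = Real.exp (∑ v, (∑ i, a v i + ∑ j, ρ v j)) := by
    rw [Real.exp_sum]
    exact Finset.prod_congr rfl fun v _ => hval v
  rw [h2, Real.exp_eq_one_iff, Finset.sum_add_distrib] at hprod
  exact hprod

end Pool.Agent.Lib.MP_d0d59f_nt.Sb

end

section

namespace Pool.Agent.Lib.MP_d0d59f_nt.Sb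

variable {𝕂 : Type} [Field 𝕂] {w : AbsoluteValue 𝕂 ℝ}

/-- the square matrix of the rows `σ 0, ..., σ (k - 1)`: solve a linear system with a vector supported on `j < k` -/
theorem Pivot_solve {ι : Type} {N k : ℕ} (hk : k ≤ N) (B : Matrix ι (Fin N) 𝕂) (a : ι → ℝ)
    (ρ : Fin N → ℝ) (σ : ℕ → ι)
    (hP : ∀ x : Fin N → 𝕂, (∀ j : Fin N, k ≤ j.val → x j = 0) → ∀ l : Fin N, l.val < k →
        ∃ m < k, Real.exp (ρ l) * w (x l) ≤ Real.exp (-a (σ m)) * w (∑ j, B (σ m) j * x j))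
    (y : ℕ → 𝕂) :
    ∃ c : Fin N → 𝕂, (∀ j : Fin N, k ≤ j.val → c j = 0) ∧ ∀ m < k, ∑ j, B (σ m) j * c j = y m := by
  classical
  let ext : (Fin k → 𝕂) → Fin N → 𝕂 := fun z j => if h : j.val < k then z ⟨j.val, h⟩ else 0
  let L : (Fin k → 𝕂) →ₗ[𝕂] (Fin k → 𝕂) :=
    { toFun := fun z m => ∑ j, B (σ m.val) j * ext z j
      map_add' := by
        intro z z'
        funext m
        simp only [Pi.add_apply, ← Finset.sum_add_distrib]
        refine Finset.sum_congr rfl fun j _ => ?_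
        by_cases h : j.val < k
        · simp only [ext, dif_pos h, Pi.add_apply]; ring
        · simp only [ext, dif_neg h]; ring
      map_smul' := by
        intro r z
        funext m
        simp only [Pi.smul_apply, smul_eq_mul, RingHom.id_apply, Finset.mul_sum]
        refine Finset.sum_congr rfl fun j _ => ?_
        by_cases h : j.val < k
        · simp only [ext, dif_pos h, Pi.smul_apply, smul_eq_mul]; ring
        · simp only [ext, dif_neg h]; ring }
  have hinj : Function.Injective L := by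
    rw [injective_iff_map_eq_zero]
    intro z hz
    funext l
    have hlN : l.val < N := lt_of_lt_of_le l.isLt hk
    obtain ⟨m, hm, hle⟩ := hP (ext z) (fun j hj => by
      simp only [ext]; rw [dif_neg (by omega)]) ⟨l.val, hlN⟩ l.isLt
    have hzm : ∑ j, B (σ m) j * ext z j = 0 := congrFun hz ⟨m, hm⟩
    rw [hzm, map_zero, mul_zero] at hle
    have hpos := Real.exp_pos (ρ ⟨l.val, hlN⟩)
    have hle' : w (ext z ⟨l.val, hlN⟩) ≤ 0 := by
      by_contra hcon
      push Not at hcon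
      exact absurd hle (not_le.2 (mul_pos hpos hcon))
    have h0 : ext z ⟨l.val, hlN⟩ = 0 := w.eq_zero.1 (le_antisymm hle' (w.nonneg _))
    have : ext z ⟨l.val, hlN⟩ = z l := by
      simp only [ext]
      rw [dif_pos l.isLt]
    rw [this] at h0
    exact h0
  have hsurj := LinearMap.injective_iff_surjective.1 hinj
  obtain ⟨z, hz⟩ := hsurj (fun m => y m.val)
  refine ⟨ext z, fun j hj => ?_, fun m hm => ?_⟩
  · simp only [ext]; rw [dif_neg (by omega)]
  · exact congrFun hz ⟨m, hm⟩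

/-- induction hypothesis of the proof of `exists_pivot` -/
theorem Pivot_aux (hw : ∀ a b, w (a + b) ≤ max (w a) (w b)) {ι : Type} [Fintype ι]
    [DecidableEq ι] {N : ℕ} (i₀ : ι) (B : Matrix ι (Fin N) 𝕂) (a : ι → ℝ) (ρ : Fin N → ℝ)
    (hcol : ∀ i j, w (B i j) ≤ Real.exp (a i + ρ j))
    (hrow : ∀ (x : Fin N → 𝕂) (l : Fin N),
      ∃ i, Real.exp (ρ l) * w (x l) ≤ Real.exp (-a i) * w (∑ j, B i j * x j)) :
    ∀ k : ℕ, k ≤ N → ∃ σ : ℕ → ι, (∀ m < k, ∀ m' < k, σ m = σ m' → m = m') ∧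
      ∀ k' ≤ k, ∀ x : Fin N → 𝕂, (∀ j : Fin N, k' ≤ j.val → x j = 0) → ∀ l : Fin N, l.val < k' →
        ∃ m < k', Real.exp (ρ l) * w (x l) ≤ Real.exp (-a (σ m)) * w (∑ j, B (σ m) j * x j) := by
  classical
  intro k
  induction k with
  | zero =>
    intro _
    refine ⟨fun _ => i₀, fun m hm => absurd hm (Nat.not_lt_zero _), ?_⟩
    intro k' hk' x _ l hl
    omega
  | succ k ih =>
    intro hk
    obtain ⟨σ, hσ, hP⟩ := ih (by omega)
    have hkN : k < N := by omega
    obtain ⟨K, hKdef⟩ : ∃ K : Fin N, K = ⟨k, hkN⟩ := ⟨_, rfl⟩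
    have hKv : K.val = k := by rw [hKdef]
    obtain ⟨c, hc0, hc⟩ := Pivot_solve (w := w) (le_of_lt hkN) B a ρ σ (hP k le_rfl)
      (fun m => B (σ m) K)
    have hcK : c K = 0 := hc0 K (by omega)
    -- the vector `e_K - c`
    obtain ⟨e, hedef⟩ : ∃ e : Fin N → 𝕂, e = fun j => (if j = K then 1 else 0) - c j := ⟨_, rfl⟩
    have heK : e K = 1 := by rw [hedef]; simp [hcK]
    have hBe : ∀ i, ∑ j, B i j * e j = B i K - ∑ j, B i j * c j := by
      intro i
      rw [hedef]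
      simp only [mul_sub, Finset.sum_sub_distrib, mul_ite, mul_one, mul_zero,
        Finset.sum_ite_eq', Finset.mem_univ, if_true]
    obtain ⟨i, hi⟩ := hrow e K
    rw [heK, map_one, mul_one] at hi
    have hy0 : ∀ m < k, ∑ j, B (σ m) j * e j = 0 := by
      intro m hm
      rw [hBe, hc m hm, sub_self]
    have hne : ∀ m < k, i ≠ σ m := by
      rintro m hm rfl
      rw [hy0 m hm, map_zero, mul_zero] at hi
      exact absurd hi (not_le.2 (Real.exp_pos _))
    have hσk : Function.update σ k i k = i := Function.update_self _ _ _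
    have hσm : ∀ m < k, Function.update σ k i m = σ m := fun m hm =>
      Function.update_of_ne (by omega) _ _
    refine ⟨Function.update σ k i, ?_, ?_⟩
    · intro m hm m' hm' he
      rcases Nat.lt_succ_iff_lt_or_eq.1 hm with h1 | h1 <;>
        rcases Nat.lt_succ_iff_lt_or_eq.1 hm' with h2 | h2
      · rw [hσm m h1, hσm m' h2] at he
        exact hσ m h1 m' h2 he
      · subst h2
        rw [hσm m h1, hσk] at he
        exact absurd he.symm (hne m h1)
      · subst h1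
        rw [hσm m' h2, hσk] at he
        exact absurd he (hne m' h2)
      · omega
    · intro k' hk' x hx l hl
      by_cases hkk : k' ≤ k
      · obtain ⟨m, hm, hle⟩ := hP k' hkk x hx l hl
        refine ⟨m, hm, ?_⟩
        rw [hσm m (by omega)]
        exact hle
      · have hk'' : k' = k + 1 := by omega
        subst hk''
        -- the maximum
        obtain ⟨m₀, hm₀, hmax⟩ := Finset.exists_max_image (Finset.range (k + 1))
          (fun m => Real.exp (-a (Function.update σ k i m)) *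
            w (∑ j, B (Function.update σ k i m) j * x j)) ⟨0, by simp⟩
        rw [Finset.mem_range] at hm₀
        refine ⟨m₀, hm₀, ?_⟩
        obtain ⟨M, hM⟩ : ∃ M : ℝ, M = Real.exp (-a (Function.update σ k i m₀)) *
            w (∑ j, B (Function.update σ k i m₀) j * x j) := ⟨_, rfl⟩
        rw [← hM]
        have hM0 : 0 ≤ M := by
          rw [hM]; exact mul_nonneg (Real.exp_pos _).le (w.nonneg _)
        have hMk : Real.exp (-a i) * w (∑ j, B i j * x j) ≤ M := by
          have := hmax k (Finset.mem_range.2 (Nat.lt_succ_self k))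
          simp only [hσk] at this
          rw [hM]; exact this
        have hMm : ∀ m < k, Real.exp (-a (σ m)) * w (∑ j, B (σ m) j * x j) ≤ M := by
          intro m hm
          have := hmax m (Finset.mem_range.2 (by omega))
          simp only [hσm m hm] at this
          rw [hM]; exact this
        obtain ⟨x', hx'def⟩ : ∃ x' : Fin N → 𝕂, x' = fun j => x j - x K * e j := ⟨_, rfl⟩
        have hx'0 : ∀ j : Fin N, k ≤ j.val → x' j = 0 := by
          intro j hj
          rw [hx'def]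
          by_cases hjK : j = K
          · subst hjK
            simp only [heK, mul_one, sub_self]
          · have hjk : k + 1 ≤ j.val := by
              have : j.val ≠ k := fun h => hjK (Fin.ext (by rw [h, hKv]))
              omega
            simp only [hx j hjk, hedef, if_neg hjK, hc0 j hj, sub_self, mul_zero]
        have hBx' : ∀ i', ∑ j, B i' j * x' j = ∑ j, B i' j * x j - x K * ∑ j, B i' j * e j := by
          intro i'
          rw [hx'def, Finset.mul_sum, ← Finset.sum_sub_distrib]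
          refine Finset.sum_congr rfl fun j _ => ?_
          ring
        have hx'M : ∀ l : Fin N, l.val < k → Real.exp (ρ l) * w (x' l) ≤ M := by
          intro l hl
          obtain ⟨m, hm, hle⟩ := hP k le_rfl x' hx'0 l hl
          rw [hBx', hy0 m hm, mul_zero, sub_zero] at hle
          exact hle.trans (hMm m hm)
        have hBi : w (∑ j, B i j * x' j) ≤ Real.exp (a i) * M := by
          refine val_sum_le hw _ _ (mul_nonneg (Real.exp_pos _).le hM0) ?_
          intro j _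
          by_cases hj : j.val < k
          · rw [map_mul]
            calc w (B i j) * w (x' j) ≤ Real.exp (a i + ρ j) * w (x' j) :=
                  mul_le_mul_of_nonneg_right (hcol i j) (w.nonneg _)
              _ = Real.exp (a i) * (Real.exp (ρ j) * w (x' j)) := by rw [Real.exp_add]; ring
              _ ≤ Real.exp (a i) * M :=
                  mul_le_mul_of_nonneg_left (hx'M j hj) (Real.exp_pos _).le
          · rw [hx'0 j (by omega), mul_zero, map_zero]
            exact mul_nonneg (Real.exp_pos _).le hM0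
        have hexp : Real.exp (a i) * Real.exp (-a i) = 1 := by
          rw [← Real.exp_add, add_neg_cancel, Real.exp_zero]
        have hBix : w (∑ j, B i j * x j) ≤ Real.exp (a i) * M := by
          calc w (∑ j, B i j * x j)
              = Real.exp (a i) * (Real.exp (-a i) * w (∑ j, B i j * x j)) := by
                rw [← mul_assoc, hexp, one_mul]
            _ ≤ Real.exp (a i) * M := mul_le_mul_of_nonneg_left hMk (Real.exp_pos _).le
        have hxy : w (x K * ∑ j, B i j * e j) ≤ Real.exp (a i) * M := by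
          have h1 : x K * ∑ j, B i j * e j = ∑ j, B i j * x j + -(∑ j, B i j * x' j) := by
            rw [hBx']; ring
          rw [h1]
          refine (hw _ _).trans (max_le hBix ?_)
          rw [w.map_neg]
          exact hBi
        have hK : Real.exp (ρ K) * w (x K) ≤ M := by
          calc Real.exp (ρ K) * w (x K)
              ≤ Real.exp (-a i) * w (∑ j, B i j * e j) * w (x K) :=
                mul_le_mul_of_nonneg_right hi (w.nonneg _)
            _ = Real.exp (-a i) * w (x K * ∑ j, B i j * e j) := by rw [map_mul]; ring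
            _ ≤ Real.exp (-a i) * (Real.exp (a i) * M) :=
                mul_le_mul_of_nonneg_left hxy (Real.exp_pos _).le
            _ = M := by rw [← mul_assoc, mul_comm (Real.exp (-a i)), hexp, one_mul]
        by_cases hlk : l.val < k
        · have hlK : l ≠ K := fun h => by rw [h, hKv] at hlk; exact lt_irrefl _ hlk
          have hxl : x l = x' l + -(x K * c l) := by
            rw [hx'def]
            simp only [hedef, if_neg hlK]
            ring
          have hcl : Real.exp (ρ l) * w (c l) ≤ Real.exp (ρ K) := by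
            obtain ⟨m, hm, hle⟩ := hP k le_rfl c hc0 l hlk
            rw [hc m hm] at hle
            refine hle.trans ?_
            calc Real.exp (-a (σ m)) * w (B (σ m) K)
                ≤ Real.exp (-a (σ m)) * Real.exp (a (σ m) + ρ K) :=
                  mul_le_mul_of_nonneg_left (hcol _ _) (Real.exp_pos _).le
              _ = Real.exp (ρ K) := by rw [← Real.exp_add]; congr 1; ring
          rw [hxl]
          have h2 := hw (x' l) (-(x K * c l))
          rw [w.map_neg] at h2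
          have h3 : Real.exp (ρ l) * w (x' l + -(x K * c l)) ≤
              Real.exp (ρ l) * max (w (x' l)) (w (x K * c l)) :=
            mul_le_mul_of_nonneg_left h2 (Real.exp_pos _).le
          refine h3.trans ?_
          rcases max_choice (w (x' l)) (w (x K * c l)) with h4 | h4
          · rw [h4]; exact hx'M l hlk
          · rw [h4, map_mul]
            calc Real.exp (ρ l) * (w (x K) * w (c l))
                = w (x K) * (Real.exp (ρ l) * w (c l)) := by ring
              _ ≤ w (x K) * Real.exp (ρ K) := mul_le_mul_of_nonneg_left hcl (w.nonneg _)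
              _ = Real.exp (ρ K) * w (x K) := mul_comm _ _
              _ ≤ M := hK
        · have : l = K := Fin.ext (by rw [hKv]; omega)
          rw [this]
          exact hK

/-- `B` is an `ι × Fin N` matrix with orthogonal columns. There are different rows `σ 0, σ 1, ...` such
that for every `k` the matrix with rows `σ 0, ..., σ k` and columns `0, ..., k` has orthogonal
columns with the same values `exp (ρ j)`.

Proof. Write `S k` for the assertion: there is `σ : ℕ → ι`, injective on `{0, ..., k - 1}`, such that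
for all `k' ≤ k` (`k' ≤ N`), all `x` with `x j = 0` for `j ≥ k'` and all `l < k'` there is `m < k'`
with `exp (ρ l) w (x l) ≤ exp (- a (σ m)) w ((B x) (σ m))`. Induction on `k`. Let `σ` be given for `k`,
`k < N`. The square matrix with rows `σ m`, `m < k`, and columns `j < k` is injective (if
`(B x) (σ m) = 0` for all `m < k` then `x = 0`), so there is `c`, supported on `j < k`, with
`(B c) (σ m) = B (σ m) k` for all `m < k`. By the induction hypothesis for `c`, for every `l < k` there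
is `m < k` with `exp (ρ l) w (c l) ≤ exp (- a (σ m)) w (B (σ m) k) ≤ exp (ρ k)`. Let
`y i = B i k - (B c) i = (B (e_k - c)) i`. By `hrow` for `x = e_k - c`, `l = k` there is `i` with
`exp (ρ k) ≤ exp (- a i) w (y i)`; since `y (σ m) = 0` for `m < k`, `i` is different from all
`σ m`. Put `σ k = i` (`Function.update`). Let `x` be supported on `j ≤ k`, and let
`M = max_{m ≤ k} exp (- a (σ m)) w ((B x) (σ m))`. Put `x' = x - x k • (e_k - c)`, supported on
`j < k`. For `m < k`, `(B x) (σ m) = (B x') (σ m)`, so `exp (ρ l) w (x' l) ≤ M` for all `l < k`. Next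
`(B x) i = x k * y i + (B x') i` and `exp (- a i) w ((B x') i) ≤ max_l exp (ρ l) w (x' l) ≤ M` by
`hcol`; so `exp (ρ k) w (x k) ≤ exp (- a i) w (x k * y i) ≤ M`. Finally `x l = x' l - x k * c l`, so
`exp (ρ l) w (x l) ≤ max M (w (x k) exp (ρ l) w (c l)) ≤ max M (w (x k) exp (ρ k)) ≤ M`. -/
theorem exists_pivot (hw : ∀ a b, w (a + b) ≤ max (w a) (w b)) {ι : Type} [Fintype ι]
    [DecidableEq ι] {N : ℕ} (B : Matrix ι (Fin N) 𝕂) (a : ι → ℝ) (ρ : Fin N → ℝ)
    (hcol : ∀ i j, w (B i j) ≤ Real.exp (a i + ρ j))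
    (hrow : ∀ (x : Fin N → 𝕂) (l : Fin N),
      ∃ i, Real.exp (ρ l) * w (x l) ≤ Real.exp (-a i) * w (∑ j, B i j * x j)) :
    ∃ σ : Fin N → ι, Function.Injective σ ∧ ∀ (k : Fin N) (x : Fin N → 𝕂),
      (∀ j, k < j → x j = 0) → ∀ l, ∃ m ≤ k,
        Real.exp (ρ l) * w (x l) ≤ Real.exp (-a (σ m)) * w (∑ j, B (σ m) j * x j) := by
  rcases Nat.eq_zero_or_pos N with hN | hN
  · subst hN
    exact ⟨fun j => j.elim0, fun j => j.elim0, fun j => j.elim0⟩
  · obtain ⟨i₀, -⟩ := hrow 0 ⟨0, hN⟩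
    obtain ⟨σ, hσ, hP⟩ := Pivot_aux hw i₀ B a ρ hcol hrow N le_rfl
    refine ⟨fun j => σ j.val, fun j j' h => Fin.ext (hσ _ j.isLt _ j'.isLt h), ?_⟩
    intro k x hx l
    by_cases hl : l.val < k.val + 1
    · obtain ⟨m, hm, hle⟩ := hP (k.val + 1) k.isLt x
        (fun j hj => hx j (Fin.lt_def.2 (by omega))) l hl
      exact ⟨⟨m, by omega⟩, Fin.le_def.2 (by simp only; omega), hle⟩
    · refine ⟨k, le_rfl, ?_⟩
      rw [hx l (Fin.lt_def.2 (by omega)), map_zero, mul_zero]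
      exact mul_nonneg (Real.exp_pos _).le (w.nonneg _)

end Pool.Agent.Lib.MP_d0d59f_nt.Sb

end

section

namespace Pool.Agent.Lib.MP_d0d59f_nt.Sb

variable {κ 𝕂 : Type} [Field κ] [Field 𝕂] [Algebra κ 𝕂] {O : Subring 𝕂}
  {w : Fin 3 → AbsoluteValue 𝕂 ℝ}

/-- `x` is a vector over `O` whose last nonzero entry has index `k`; `B v x` are its images. For
`v = 1, 2`: `exp (ρ v k) w v (x k) ≤ exp (- a v i) w v ((B v x) i) ≤ exp (τ v)` for some `i`. For
`v = 0`: `exp (ρ 0 k) w 0 (x k) ≤ exp (- a 0 (σ m)) w 0 ((B 0 x) (σ m)) ≤ exp (τ 0 - r m)` for some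
`m ≤ k`, and `r k ≤ r m`. Multiply and use `1 ≤ ∏ v, w v (x k)`; take logarithms. -/
theorem twist_lower (h : Setting κ O w) {ι : Type} [Fintype ι] {N : ℕ}
    (B : Fin 3 → Matrix ι (Fin N) 𝕂) (a : Fin 3 → ι → ℝ) (ρ : Fin 3 → Fin N → ℝ)
    (σ : Fin N → ι) (r : Fin N → ℝ) (hr : Antitone r)
    (h0 : ∀ (k : Fin N) (x : Fin N → 𝕂), (∀ j, k < j → x j = 0) → ∀ l, ∃ m ≤ k,
        Real.exp (ρ 0 l) * w 0 (x l) ≤ Real.exp (-a 0 (σ m)) * w 0 (∑ j, B 0 (σ m) j * x j))
    (h1 : ∀ v, v ≠ 0 → ∀ (x : Fin N → 𝕂) (l : Fin N),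
      ∃ i, Real.exp (ρ v l) * w v (x l) ≤ Real.exp (-a v i) * w v (∑ j, B v i j * x j))
    (x : Fin N → 𝕂) (hx : ∀ j, x j ∈ O) (k : Fin N) (hk : x k ≠ 0) (hk' : ∀ j, k < j → x j = 0)
    (τ : Fin 3 → ℝ)
    (hτ0 : ∀ m, w 0 (∑ j, B 0 (σ m) j * x j) ≤ Real.exp (a 0 (σ m) - r m + τ 0))
    (hτ : ∀ v, v ≠ 0 → ∀ i, w v (∑ j, B v i j * x j) ≤ Real.exp (a v i + τ v)) :
    r k + ∑ v, ρ v k ≤ ∑ v, τ v := by
  have hv : ∀ v, v ≠ 0 → w v (x k) ≤ Real.exp (τ v - ρ v k) := by
    intro v hv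
    obtain ⟨i, hi⟩ := h1 v hv x k
    have h2 : Real.exp (ρ v k) * w v (x k) ≤ Real.exp (τ v) := by
      refine hi.trans ((mul_le_mul_of_nonneg_left (hτ v hv i) (Real.exp_pos _).le).trans ?_)
      rw [← Real.exp_add]
      exact Real.exp_le_exp.2 (by linarith)
    rw [Real.exp_sub, le_div_iff₀ (Real.exp_pos _), mul_comm]
    exact h2
  have hw0 : w 0 (x k) ≤ Real.exp (τ 0 - r k - ρ 0 k) := by
    obtain ⟨m, hm, hi⟩ := h0 k x hk' k
    have hrm : r k ≤ r m := hr hm
    have h2 : Real.exp (ρ 0 k) * w 0 (x k) ≤ Real.exp (τ 0 - r k) := by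
      refine hi.trans ((mul_le_mul_of_nonneg_left (hτ0 m) (Real.exp_pos _).le).trans ?_)
      rw [← Real.exp_add]
      exact Real.exp_le_exp.2 (by linarith)
    rw [Real.exp_sub, le_div_iff₀ (Real.exp_pos _), mul_comm]
    exact h2
  have hp := h.prod (x k) (hx k) hk
  rw [Fin.prod_univ_three] at hp
  have h3 : w 0 (x k) * w 1 (x k) * w 2 (x k) ≤
      Real.exp (τ 0 - r k - ρ 0 k) * Real.exp (τ 1 - ρ 1 k) * Real.exp (τ 2 - ρ 2 k) :=
    mul_le_mul (mul_le_mul hw0 (hv 1 (by decide)) ((w 1).nonneg _) (Real.exp_pos _).le)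
      (hv 2 (by decide)) ((w 2).nonneg _) (by positivity)
  have h4 := hp.trans h3
  rw [← Real.exp_add, ← Real.exp_add, Real.one_le_exp_iff] at h4
  rw [Fin.sum_univ_three, Fin.sum_univ_three]
  linarith

/-- `∑ μ = 0`, all `μ l ≥ - α`, `μ l ≥ (N - 1) α` for `l ∈ T`, `T` nonempty, `N` the number of the
indices: then `T = {l₀}` and `μ l = - α` for `l ≠ l₀`. (`∑ (μ l + α) = N α` and each `l ∈ T`
contributes at least `N α`.) -/
theorem one_top {ι : Type} [Fintype ι] [DecidableEq ι] (μ : ι → ℝ) (α : ℝ) (hα : 0 < α)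
    (h0 : ∑ l, μ l = 0) (T : Set ι) (hT : T.Nonempty) (h1 : ∀ l, -α ≤ μ l)
    (h2 : ∀ l ∈ T, ((Fintype.card ι : ℝ) - 1) * α ≤ μ l) :
    ∃ l₀ ∈ T, ∀ l, l ≠ l₀ → l ∉ T ∧ μ l = -α := by
  obtain ⟨l₀, hl₀⟩ := hT
  have hcard : (1 : ℝ) ≤ Fintype.card ι := by
    exact_mod_cast Fintype.card_pos_iff.2 ⟨l₀⟩
  have hsum : ∑ l, (μ l + α) = Fintype.card ι * α := by
    rw [Finset.sum_add_distrib, h0, Finset.sum_const, Finset.card_univ, nsmul_eq_mul, zero_add]
  have hsplit := Finset.add_sum_erase Finset.univ (fun l => μ l + α) (Finset.mem_univ l₀)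
  have hle : ∑ l ∈ Finset.univ.erase l₀, (μ l + α) ≤ 0 := by
    have h3 := h2 l₀ hl₀
    rw [hsum] at hsplit
    nlinarith
  have hnn : ∀ l ∈ Finset.univ.erase l₀, 0 ≤ μ l + α := fun l _ => by linarith [h1 l]
  have heq : ∀ l ∈ Finset.univ.erase l₀, μ l + α = 0 :=
    (Finset.sum_eq_zero_iff_of_nonneg hnn).1 (le_antisymm hle (Finset.sum_nonneg hnn))
  refine ⟨l₀, hl₀, fun l hl => ?_⟩
  have h4 := heq l (Finset.mem_erase.2 ⟨hl, Finset.mem_univ l⟩)
  have h5 : μ l = -α := by linarith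
  refine ⟨fun hlT => ?_, h5⟩
  have h6 := h2 l hlT
  nlinarith

end Pool.Agent.Lib.MP_d0d59f_nt.Sb

end

section

namespace Pool.Agent.Lib.MP_d0d59f_nt.Sb

variable {κ 𝕂 : Type} [Field κ] [Field 𝕂] [Algebra κ 𝕂] {O : Subring 𝕂}
  {w : Fin 3 → AbsoluteValue 𝕂 ℝ}

theorem Twist2A_sort {ι : Type} [Fintype ι] (μ : ι → ℝ) :
    ∃ e : Fin (Fintype.card ι) ≃ ι, ∀ i j, i ≤ j → μ (e i) ≤ μ (e j) := by
  classical
  let e0 : Fin (Fintype.card ι) ≃ ι := (Fintype.equivFin ι).symm
  refine ⟨(Tuple.sort (μ ∘ e0)).trans e0, ?_⟩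
  intro i j hij
  exact Tuple.monotone_sort (μ ∘ e0) hij

/-- Suppose that the weight `μ K₁`, `μ K = ∑ v, ρ v K`, of one basis vector is larger than all the
others. Then there are other weights `a'` with sum zero, such that all vectors over `O` are large for `a'`
and the vectors outside the hyperplane `V K₁ · = 0` are very large.

Proof. Let `N = card ι ≥ 2`; choose `e : Fin N ≃ ι` with `μ ∘ e` monotone (`Tuple.sort` and
`Fintype.equivFin`); then `e (last) = K₁` because `K₁` is the only maximum. Apply `exists_pivot` to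
`B = (up (A 0) * G).submatrix id e`, the weights `a 0` and `ρ 0 ∘ e`
(`hrow` from `Orth.lower`, `orth_inverse`, reindexed). `σ : Fin N → ι` is bijective. Put
`α = (μ_{N-1} - μ_{N-2}) / N > 0` (the two largest values of `μ ∘ e`), `r j = - α - μ (e j)` for
`j < N - 1` and `r (N-1) = (N - 1) α - μ K₁`. `r` is antitone (`r (N-2) ≥ r (N-1)` iff
`N α ≤ μ_{N-1} - μ_{N-2}`) and `∑ r = - ∑ μ = ∑ a` by `sum_mu`. Put `a' v = a v` for `v ≠ 0` and
`a' 0 (σ m) = a 0 (σ m) - r m`; so `∑ a' = 0`. Let `y, τ` be as in the assertion and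
`x = (V y) ∘ e`, a nonzero vector over `O`, `(up (A v) * G) (V y) = up (A v) y`; let `k` be the last index
with `x k ≠ 0`. `twist_lower` gives `r k + μ (e k) ≤ ∑ τ`, i.e. `- α ≤ ∑ τ` if `k ≠ N - 1` and
`(N - 1) α ≤ ∑ τ` if `k = N - 1`. If `V K₁ · y ≠ 0` then `x (N-1) ≠ 0` and `k = N - 1`. -/
theorem exists_weights (h : Setting κ O w) {ι : Type} [Fintype ι] [DecidableEq ι]
    {A : Fin 3 → Matrix ι ι κ} (hA : ∀ v, (A v).det ≠ 0)
    {G V : Matrix ι ι 𝕂} (hG : ∀ i j, G i j ∈ O) (hV : ∀ i j, V i j ∈ O) (hGV : G * V = 1)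
    {a ρ : Fin 3 → ι → ℝ}
    (hO : ∀ v, Orth (w v) (up 𝕂 (A v) * G) (V * up 𝕂 (A v)⁻¹) (a v) (ρ v)) {K₁ K₂ : ι}
    (hK : K₂ ≠ K₁) (hmax : ∀ K, K ≠ K₁ → ∑ v, ρ v K < ∑ v, ρ v K₁) :
    ∃ (a' : Fin 3 → ι → ℝ) (α : ℝ), ∑ v, ∑ i, a' v i = 0 ∧ 0 < α ∧
      ∀ y : ι → 𝕂, (∀ i, y i ∈ O) → y ≠ 0 → ∀ τ : Fin 3 → ℝ,
        (∀ v i, w v (∑ j, up 𝕂 (A v) i j * y j) ≤ Real.exp (a' v i + τ v)) →
        -α ≤ ∑ v, τ v ∧
          (∑ i, V K₁ i * y i ≠ 0 → ((Fintype.card ι : ℝ) - 1) * α ≤ ∑ v, τ v) := by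
  classical
  have hnonempty : Nonempty ι := ⟨K₁⟩
  have hN2' : 2 ≤ Fintype.card ι := by
    have : 1 < Fintype.card ι := Fintype.one_lt_card_iff.2 ⟨K₂, K₁, hK⟩
    omega
  obtain ⟨N, hN, e, he⟩ : ∃ (N : ℕ) (_ : Fintype.card ι = N) (e : Fin N ≃ ι),
      ∀ i j, i ≤ j → ∑ v, ρ v (e i) ≤ ∑ v, ρ v (e j) :=
    ⟨Fintype.card ι, rfl, Twist2A_sort (fun K => ∑ v, ρ v K)⟩
  rw [hN] at hN2' ⊢
  have hN2 : 2 ≤ N := hN2'
  let n1 : Fin N := ⟨N - 1, by omega⟩
  let n2 : Fin N := ⟨N - 2, by omega⟩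
  have hn12 : n2 ≠ n1 := by
    intro hh
    have := congrArg Fin.val hh
    simp only [n1, n2] at this
    omega
  have hle1 : ∀ j : Fin N, j ≤ n1 := by
    intro j
    rw [Fin.le_def]
    have := j.2
    simp only [n1]
    omega
  have hle2 : ∀ j : Fin N, j ≠ n1 → j ≤ n2 := by
    intro j hj
    rw [Fin.le_def]
    have := j.2
    have h2 : j.val ≠ N - 1 := fun hh => hj (Fin.ext hh)
    simp only [n2]
    omega
  have he1 : e n1 = K₁ := by
    by_contra hne
    have h1 := hmax (e n1) hne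
    have h2 := he (e.symm K₁) n1 (hle1 _)
    rw [Equiv.apply_symm_apply] at h2
    linarith
  have he2 : e n2 ≠ K₁ := by
    rw [← he1]
    exact fun hh => hn12 (e.injective hh)
  have hNpos : (0:ℝ) < (N : ℝ) := by
    have : 0 < N := by omega
    exact_mod_cast this
  set α : ℝ := (∑ v, ρ v K₁ - ∑ v, ρ v (e n2)) / N with hα
  have hαpos : 0 < α := div_pos (by linarith [hmax (e n2) he2]) hNpos
  have hNα : (N : ℝ) * α = ∑ v, ρ v K₁ - ∑ v, ρ v (e n2) := by
    rw [hα]; field_simp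
  let r : Fin N → ℝ := fun j => -α - ∑ v, ρ v (e j) + (if j = n1 then (N : ℝ) * α else 0)
  have hr : Antitone r := by
    intro i j hij
    show -α - ∑ v, ρ v (e j) + (if j = n1 then (N : ℝ) * α else 0) ≤
      -α - ∑ v, ρ v (e i) + (if i = n1 then (N : ℝ) * α else 0)
    by_cases hj : j = n1
    · by_cases hi : i = n1
      · rw [hi, hj]
      · rw [if_pos hj, if_neg hi, hj, he1, hNα]
        have := he i n2 (hle2 i hi)
        linarith
    · have hi : i ≠ n1 := by
        intro hi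
        rw [hi] at hij
        exact hj (le_antisymm (hle1 j) hij)
      rw [if_neg hj, if_neg hi]
      have := he i j hij
      linarith
  have hrsum : ∑ j, r j = ∑ v, ∑ i, a v i := by
    have h1 := sum_mu h hA hG hV hGV hO
    have h2 : ∑ j : Fin N, ∑ v, ρ v (e j) = ∑ v, ∑ i, ρ v i := by
      rw [Equiv.sum_comp e (fun K => ∑ v, ρ v K), Finset.sum_comm]
    show ∑ j : Fin N, (-α - ∑ v, ρ v (e j) + (if j = n1 then (N : ℝ) * α else 0)) = _
    rw [Finset.sum_add_distrib, Finset.sum_sub_distrib, h2, Finset.sum_ite_eq' Finset.univ n1,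
      if_pos (Finset.mem_univ _), Finset.sum_const, Finset.card_univ, Fintype.card_fin,
      nsmul_eq_mul]
    linarith
  let B : Fin 3 → Matrix ι (Fin N) 𝕂 := fun v => (up 𝕂 (A v) * G).submatrix id e
  have hBx : ∀ v i (x : Fin N → 𝕂), ∑ j, B v i j * x j =
      ∑ K, (up 𝕂 (A v) * G) i K * x (e.symm K) := by
    intro v i x
    rw [← Equiv.sum_comp e (fun K => (up 𝕂 (A v) * G) i K * x (e.symm K))]
    refine Finset.sum_congr rfl (fun j _ => ?_)
    rw [Equiv.symm_apply_apply]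
    rfl
  have hrow : ∀ v (x : Fin N → 𝕂) (l : Fin N),
      ∃ i, Real.exp (ρ v (e l)) * w v (x l) ≤ Real.exp (-a v i) * w v (∑ j, B v i j * x j) := by
    intro v x l
    obtain ⟨i, hi⟩ := (hO v).lower (h.nonarch v) (orth_inverse (hA v) hGV) (fun K => x (e.symm K)) (e l)
    refine ⟨i, ?_⟩
    rw [hBx v i x]
    simp only [Equiv.symm_apply_apply] at hi
    exact hi
  obtain ⟨σ, hσinj, hσ⟩ := exists_pivot (h.nonarch 0) (B 0) (a 0) (fun j => ρ 0 (e j))
    (fun i j => (hO 0).col i (e j)) (hrow 0)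
  have hσbij : Function.Bijective σ :=
    (Fintype.bijective_iff_injective_and_card σ).2 ⟨hσinj, by rw [Fintype.card_fin, hN]⟩
  let s : Fin N ≃ ι := Equiv.ofBijective σ hσbij
  have hsσ : ∀ m, s.symm (σ m) = m := by
    intro m
    have : σ m = s m := rfl
    rw [this, Equiv.symm_apply_apply]
  let a' : Fin 3 → ι → ℝ := fun v i => if v = 0 then a 0 i - r (s.symm i) else a v i
  have ha0 : ∀ i, a' 0 i = a 0 i - r (s.symm i) := fun i => if_pos rfl
  have hav : ∀ v, v ≠ 0 → ∀ i, a' v i = a v i := fun v hv i => if_neg hv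
  refine ⟨a', α, ?_, hαpos, ?_⟩
  · rw [Fin.sum_univ_three]
    rw [Fin.sum_univ_three] at hrsum
    have e0 : ∑ i, a' 0 i = ∑ i, a 0 i - ∑ j, r j := by
      rw [← Equiv.sum_comp s.symm r, ← Finset.sum_sub_distrib]
      exact Finset.sum_congr rfl (fun i _ => ha0 i)
    have e1 : ∑ i, a' 1 i = ∑ i, a 1 i :=
      Finset.sum_congr rfl (fun i _ => hav 1 (by decide) i)
    have e2 : ∑ i, a' 2 i = ∑ i, a 2 i :=
      Finset.sum_congr rfl (fun i _ => hav 2 (by decide) i)
    rw [e0, e1, e2, hrsum]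
    ring
  · intro y hyO hy0 τ hsmall
    let x : Fin N → 𝕂 := fun m => ∑ i, V (e m) i * y i
    have hxO : ∀ j, x j ∈ O := by
      intro j
      exact O.sum_mem (fun i _ => O.mul_mem (hV _ _) (hyO i))
    have hBv : ∀ v i, ∑ j, B v i j * x j = ∑ j, up 𝕂 (A v) i j * y j := by
      intro v i
      rw [hBx v i x]
      have e1 : ∀ K, x (e.symm K) = (V.mulVec y) K := by
        intro K
        show ∑ i, V (e (e.symm K)) i * y i = _
        rw [Equiv.apply_symm_apply]
        rfl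
      have e2 : ∑ K, (up 𝕂 (A v) * G) i K * x (e.symm K) =
          ((up 𝕂 (A v) * G).mulVec (V.mulVec y)) i := by
        show _ = ∑ K, (up 𝕂 (A v) * G) i K * (V.mulVec y) K
        exact Finset.sum_congr rfl (fun K _ => by rw [e1 K])
      rw [e2, Matrix.mulVec_mulVec, Matrix.mul_assoc, hGV, Matrix.mul_one]
      rfl
    have hxne : ∃ m, x m ≠ 0 := by
      by_contra hall
      push Not at hall
      apply hy0
      have h1 : V.mulVec y = 0 := by
        funext K
        have := hall (e.symm K)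
        have e1 : x (e.symm K) = (V.mulVec y) K := by
          show ∑ i, V (e (e.symm K)) i * y i = _
          rw [Equiv.apply_symm_apply]
          rfl
        rw [e1] at this
        exact this
      have h2 : G.mulVec (V.mulVec y) = y := by
        rw [Matrix.mulVec_mulVec, hGV, Matrix.one_mulVec]
      rw [← h2, h1, Matrix.mulVec_zero]
    obtain ⟨m0, hm0⟩ := hxne
    have hSne : (Finset.univ.filter (fun m : Fin N => x m ≠ 0)).Nonempty :=
      ⟨m0, Finset.mem_filter.2 ⟨Finset.mem_univ _, hm0⟩⟩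
    set k := (Finset.univ.filter (fun m : Fin N => x m ≠ 0)).max' hSne with hkdef
    have hk : x k ≠ 0 := (Finset.mem_filter.1 (Finset.max'_mem _ hSne)).2
    have hk' : ∀ j, k < j → x j = 0 := by
      intro j hj
      by_contra hne
      have := Finset.le_max' (Finset.univ.filter (fun m : Fin N => x m ≠ 0)) j
        (Finset.mem_filter.2 ⟨Finset.mem_univ _, hne⟩)
      exact absurd hj (not_lt.2 this)
    have key := twist_lower h B a (fun v j => ρ v (e j)) σ r hr hσ (fun v _ x l => hrow v x l)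
      x hxO k hk hk' τ
      (by
        intro m
        rw [hBv 0 (σ m)]
        have := hsmall 0 (σ m)
        rw [ha0, hsσ] at this
        exact this)
      (by
        intro v hv i
        rw [hBv v i]
        have := hsmall v i
        rw [hav v hv] at this
        exact this)
    have hkey : -α + (if k = n1 then (N : ℝ) * α else 0) ≤ ∑ v, τ v := by
      have e1 : r k + ∑ v, ρ v (e k) = -α + (if k = n1 then (N : ℝ) * α else 0) := by
        show -α - ∑ v, ρ v (e k) + (if k = n1 then (N : ℝ) * α else 0) + ∑ v, ρ v (e k) = _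
        ring
      rw [← e1]
      exact key
    constructor
    · by_cases hkn : k = n1
      · rw [if_pos hkn] at hkey
        have := mul_pos hNpos hαpos
        linarith
      · rw [if_neg hkn] at hkey
        linarith
    · intro hVy
      have hkn : k = n1 := by
        refine le_antisymm (hle1 k) ?_
        refine Finset.le_max' _ n1 (Finset.mem_filter.2 ⟨Finset.mem_univ _, ?_⟩)
        show ∑ i, V (e n1) i * y i ≠ 0
        rw [he1]
        exact hVy
      rw [if_pos hkn] at hkey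
      linarith

end Pool.Agent.Lib.MP_d0d59f_nt.Sb

end

section

namespace Pool.Agent.Lib.MP_d0d59f_nt.Sb

variable {κ 𝕂 : Type} [Field κ] [Field 𝕂] [Algebra κ 𝕂] {O : Subring 𝕂}
  {w : Fin 3 → AbsoluteValue 𝕂 ℝ}

/-- For other weights `a'` there is a basis `F` of `𝕂 ^ ι` over `O` such that all its vectors
but one lie in the hyperplane `V K₁ · = 0` and are small.

Proof. `exists_weights`: `a'`, `α`. Apply `SplitProp` to `A`, `a'`: `G'`, `V'`, `ρ'`,
`μ' l = ∑ v, ρ' v l`, `∑ μ' = 0` by `sum_mu`. For the column `y = G' l` and `τ v = ρ' v l` one has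
`- α ≤ μ' l`, and `(N - 1) α ≤ μ' l` for `l ∈ T = {l | V K₁ · G' l ≠ 0}`. `T` is not empty: else the row
`V K₁` of `V` vanishes (`G'` is invertible: `G' * V' = 1`, so also `V' * G' = 1`), contradiction to
`V * G = 1`. `one_top`: `T = {l₀}`, and `μ' l = - α` for `l ≠ l₀`. For `l ≠ l₀` choose
(`Setting.unit`) a unit `u l` with `w v (u l) = exp (- ρ' v l - α / 3)` (the sum of the exponents is
zero), `u l₀ = 1`, and `F i l = G' i l * u l`, `δ = α / 3`:
`w v ((up (A v) * F) i l) = w v ((up (A v) * G') i l) * w v (u l) ≤ exp (a' v i - α / 3)`.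
`det F = det G' * ∏ u l ≠ 0`. -/
theorem exists_twist (h : Setting κ O w) {ι : Type} [Fintype ι] [DecidableEq ι]
    (hS : SplitProp κ O w ι) {A : Fin 3 → Matrix ι ι κ} (hA : ∀ v, (A v).det ≠ 0)
    {G V : Matrix ι ι 𝕂} (hG : ∀ i j, G i j ∈ O) (hV : ∀ i j, V i j ∈ O) (hGV : G * V = 1)
    {a ρ : Fin 3 → ι → ℝ}
    (hO : ∀ v, Orth (w v) (up 𝕂 (A v) * G) (V * up 𝕂 (A v)⁻¹) (a v) (ρ v)) {K₁ K₂ : ι}
    (hK : K₂ ≠ K₁) (hmax : ∀ K, K ≠ K₁ → ∑ v, ρ v K < ∑ v, ρ v K₁) :
    ∃ (a' : Fin 3 → ι → ℝ) (F : Matrix ι ι 𝕂) (l₀ : ι) (δ : ℝ), ∑ v, ∑ i, a' v i = 0 ∧ 0 < δ ∧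
      (∀ i j, F i j ∈ O) ∧ F.det ≠ 0 ∧
      (∀ v i l, l ≠ l₀ → w v ((up 𝕂 (A v) * F) i l) ≤ Real.exp (a' v i - δ)) ∧
      ∀ l, l ≠ l₀ → ∑ i, V K₁ i * F i l = 0 := by
  classical
  obtain ⟨a', α, ha', hα, hy⟩ := exists_weights h hA hG hV hGV hO hK hmax
  obtain ⟨G', V', ρ', hG', hV', hGV', hO'⟩ := hS A hA a'
  have hVG' : V' * G' = 1 := mul_eq_one_comm.1 hGV'
  have hVG : V * G = 1 := mul_eq_one_comm.1 hGV
  -- the columns of `G'`
  have hcol : ∀ l, (-α ≤ ∑ v, ρ' v l) ∧ (∑ i, V K₁ i * G' i l ≠ 0 →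
      ((Fintype.card ι : ℝ) - 1) * α ≤ ∑ v, ρ' v l) := by
    intro l
    refine hy (fun i => G' i l) (fun i => hG' i l) ?_ (fun v => ρ' v l) ?_
    · intro h0
      have h1 : (V' * G') l l = 1 := by rw [hVG', Matrix.one_apply_eq]
      rw [Matrix.mul_apply] at h1
      have h2 : ∑ j, V' l j * G' j l = 0 := by
        refine Finset.sum_eq_zero fun j _ => ?_
        have h3 := congrFun h0 j
        simp only [Pi.zero_apply] at h3
        rw [h3, mul_zero]
      rw [h2] at h1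
      exact zero_ne_one h1
    · intro v i
      have h1 := (hO' v).col i l
      rw [Matrix.mul_apply] at h1
      exact h1
  have h0 : ∑ l, ∑ v, ρ' v l = 0 := by
    have h1 := sum_mu h hA hG' hV' hGV' hO'
    rw [ha', zero_add] at h1
    rw [Finset.sum_comm]
    exact h1
  have hT : ({l | ∑ i, V K₁ i * G' i l ≠ 0} : Set ι).Nonempty := by
    by_contra hcon
    rw [Set.not_nonempty_iff_eq_empty, Set.eq_empty_iff_forall_notMem] at hcon
    have h1 : ∀ l, (V * G') K₁ l = 0 := by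
      intro l
      have h2 := hcon l
      change ¬ ((∑ i, V K₁ i * G' i l) ≠ 0) at h2
      rw [not_not] at h2
      rw [Matrix.mul_apply]
      exact h2
    have h2 : ∀ i, V K₁ i = 0 := by
      intro i
      have h3 : (V * G' * V') K₁ i = V K₁ i := by rw [Matrix.mul_assoc, hGV', Matrix.mul_one]
      rw [← h3, Matrix.mul_apply]
      refine Finset.sum_eq_zero fun j _ => ?_
      rw [h1 j, zero_mul]
    have h3 : (V * G) K₁ K₁ = 1 := by rw [hVG, Matrix.one_apply_eq]
    rw [Matrix.mul_apply] at h3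
    have h4 : ∑ j, V K₁ j * G j K₁ = 0 := by
      refine Finset.sum_eq_zero fun j _ => ?_
      rw [h2 j, zero_mul]
    rw [h4] at h3
    exact zero_ne_one h3
  obtain ⟨l₀, hl₀, htop⟩ := one_top (fun l => ∑ v, ρ' v l) α hα h0
    {l | ∑ i, V K₁ i * G' i l ≠ 0} hT (fun l => (hcol l).1) (fun l hl => (hcol l).2 hl)
  -- the units
  have hu : ∀ l, ∃ u ∈ O, u ≠ 0 ∧ (l ≠ l₀ → ∀ v, w v u = Real.exp (-ρ' v l - α / 3)) := by
    intro l
    by_cases hl : l = l₀
    · exact ⟨1, O.one_mem, one_ne_zero, fun h1 => absurd hl h1⟩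
    · have h1 : ∑ v : Fin 3, (-ρ' v l - α / 3) = 0 := by
        have h2 : ∑ v, ρ' v l = -α := (htop l hl).2
        rw [Finset.sum_sub_distrib, Finset.sum_neg_distrib, h2]
        simp
        ring
      obtain ⟨u, hu1, hu2, _, hu4⟩ := h.unit (fun v => -ρ' v l - α / 3) h1
      exact ⟨u, hu1, hu2, fun _ => hu4⟩
  choose u hu1 hu2 hu3 using hu
  have hF : (Matrix.of fun i l => G' i l * u l) = G' * Matrix.diagonal u := by
    ext i l
    rw [Matrix.mul_diagonal]
    rfl
  refine ⟨a', Matrix.of fun i l => G' i l * u l, l₀, α / 3, ha', by positivity, ?_, ?_, ?_, ?_⟩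
  · intro i j
    exact O.mul_mem (hG' i j) (hu1 j)
  · rw [hF, Matrix.det_mul, Matrix.det_diagonal]
    refine mul_ne_zero ?_ (Finset.prod_ne_zero_iff.2 fun l _ => hu2 l)
    intro h1
    have h2 := congrArg Matrix.det hGV'
    rw [Matrix.det_mul, h1, zero_mul, Matrix.det_one] at h2
    exact zero_ne_one h2
  · intro v i l hl
    rw [hF, ← Matrix.mul_assoc, Matrix.mul_diagonal, map_mul, hu3 l hl v]
    have h1 := (hO' v).col i l
    calc w v ((up 𝕂 (A v) * G') i l) * Real.exp (-ρ' v l - α / 3)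
        ≤ Real.exp (a' v i + ρ' v l) * Real.exp (-ρ' v l - α / 3) := by gcongr
      _ = Real.exp (a' v i - α / 3) := by
          rw [← Real.exp_add]
          congr 1
          ring
  · intro l hl
    have h1 : ∑ i, V K₁ i * G' i l = 0 := by
      by_contra h2
      exact (htop l hl).1 h2
    have h2 : ∑ i, V K₁ i * (Matrix.of fun i l => G' i l * u l) i l =
        (∑ i, V K₁ i * G' i l) * u l := by
      rw [Finset.sum_mul]
      refine Finset.sum_congr rfl fun i _ => ?_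
      rw [Matrix.of_apply, mul_assoc]
    rw [h2, h1, zero_mul]

end Pool.Agent.Lib.MP_d0d59f_nt.Sb

end

section

namespace Pool.Agent.Lib.MP_d0d59f_nt.Sb

variable {κ 𝕂 : Type} [Field κ] [Field 𝕂] [Algebra κ 𝕂] {O : Subring 𝕂}
  {w : Fin 3 → AbsoluteValue 𝕂 ℝ}

/-- If `ι = {K₁}` take `c = 1`. Else `exists_twist` and `HyperProp` with `b = V K₁`. -/
theorem row_const (h : Setting κ O w) {ι : Type} [Fintype ι] [DecidableEq ι]
    (hS : SplitProp κ O w ι) (hH : HyperProp κ O w ι) {A : Fin 3 → Matrix ι ι κ}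
    (hA : ∀ v, (A v).det ≠ 0)
    {G V : Matrix ι ι 𝕂} (hG : ∀ i j, G i j ∈ O) (hV : ∀ i j, V i j ∈ O) (hGV : G * V = 1)
    {a ρ : Fin 3 → ι → ℝ}
    (hO : ∀ v, Orth (w v) (up 𝕂 (A v) * G) (V * up 𝕂 (A v)⁻¹) (a v) (ρ v)) {K₁ : ι}
    (hmax : ∀ K, K ≠ K₁ → ∑ v, ρ v K < ∑ v, ρ v K₁) (β : ι) (hβ : V K₁ β ≠ 0) (α : ι) :
    ∃ c : κ, V K₁ α = algebraMap κ 𝕂 c * V K₁ β := by
  by_cases hex : ∃ K₂ : ι, K₂ ≠ K₁
  · obtain ⟨K₂, hK⟩ := hex
    obtain ⟨a', F, l₀, δ, hsum, hδ, hF, hdet, hsmall, hker⟩ :=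
      exists_twist h hS hA hG hV hGV hO hK hmax
    exact hH A hA a' hsum F hF hdet l₀ δ hδ hsmall (V K₁) hker β hβ α
  · push Not at hex
    refine ⟨1, ?_⟩
    rw [hex α, hex β, map_one, one_mul]

end Pool.Agent.Lib.MP_d0d59f_nt.Sb

end
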