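import Pool.Agent.Lib.MP_d0d59f_nt.Sub.Hyperplanes
import Pool.Agent.Lib.MP_d0d59f_nt.Sub.Germs
import Pool.Agent.Lib.MP_d0d59f_nt.Sub.OrthSystems

/-!
The theorem on hyperplanes for germs.
-/

section

namespace Pool.Agent.Lib.MP_d0d59f_nt.Sb

open Filter Topology Auto Lin

attribute [local instance] sqAlg

variable {L : ℕ → ℕ} {hL : Tendsto L atTop atTop}

/-- If `E m` holds for almost all `m` (ultrafilter) then there are `m 0, ..., m (M-1)` with `E (m j)`,
`q ≤ L (m j)` and `q * L (m j) ≤ L (m i)` for `i < j`: choose `m (M-1)`, ..., `m 0` one after the other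
(`L m ≥ C` for almost all `m`). -/
theorem exists_levels (hL : Tendsto L atTop atTop) {E : ℕ → Prop}
    (hE : ∀ᶠ m in (hyperfilter ℕ : Filter ℕ), E m) (M q : ℕ) :
    ∃ m : Fin M → ℕ, (∀ j, E (m j)) ∧ (∀ j, q ≤ L (m j)) ∧ ∀ i j, i < j → q * L (m j) ≤ L (m i) := by
  induction M with
  | zero => exact ⟨Fin.elim0, fun j => j.elim0, fun j => j.elim0, fun i => i.elim0⟩
  | succ M ih =>
    obtain ⟨m, h1, h2, h3⟩ := ih
    have hL' : ∀ N : ℕ, ∀ᶠ k in (hyperfilter ℕ : Filter ℕ), N ≤ L k := fun N =>
      (hL.eventually_ge_atTop N).filter_mono Nat.hyperfilter_le_atTop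
    obtain ⟨k, hk1, hk2, hk3⟩ := (hE.and ((hL' q).and (hL' (∑ j, q * L (m j))))).exists
    refine ⟨Fin.cons k m, fun j => ?_, fun j => ?_, fun i j hij => ?_⟩
    · refine Fin.cases ?_ (fun j => ?_) j
      · simpa using hk1
      · simpa using h1 j
    · refine Fin.cases ?_ (fun j => ?_) j
      · simpa using hk2
      · simpa using h2 j
    · induction j using Fin.cases with
      | zero => exact absurd hij (Fin.not_lt_zero i)
      | succ j =>
        induction i using Fin.cases with
        | zero =>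
          simp only [Fin.cons_succ, Fin.cons_zero]
          exact (Finset.single_le_sum (f := fun j => q * L (m j)) (fun _ _ => Nat.zero_le _)
            (Finset.mem_univ j)).trans hk3
        | succ i =>
          simp only [Fin.cons_succ]
          exact h3 i j (Fin.succ_lt_succ_iff.1 hij)

end Pool.Agent.Lib.MP_d0d59f_nt.Sb

end

section

namespace Pool.Agent.Lib.MP_d0d59f_nt.Sb

open Filter Topology Auto Lin

attribute [local instance] sqAlg

variable {L : ℕ → ℕ} {hL : Tendsto L atTop atTop}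

/-- Suppose that `b α / b β` is not a constant. `Rep.ht_ge`: the heights of a representative are at least
`(1 + η') ^ L ≥ exp (η L)`. `std_hyper` for `a`, `δ / 2`, `η`: `ε, M, q`. Take representatives of the
entries of `A v` (`exists_rep_matrix`), `F` (`exists_rep_O6`), `b` (`exists_rep`). For almost all `m`
the data at `m` satisfy `LevelData a (δ / 2) η ε l₀ α β (L m)`: `det`, `htA`, `htA'` by
`exists_rep_matrix` (`1 + ε' ≤ exp ε`); `detF` by `Rep.det`, `Rep.eventually_ne`;
`small` by `Rep.absv_le`; `ort` by `Rep.eventually_zero`. `exists_levels` gives a contradiction. -/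
theorem hyper_germ (ι : Type) [Fintype ι] [DecidableEq ι] :
    HyperProp (smallField L hL) (O6 L hL) (wv L hL) ι := by
  intro A hA a ha F hF hdF l₀ δ hδ hsm b hort β hβ α
  by_contra hne
  have hne' : ∀ c : smallField L hL,
      algebraMap (smallField L hL) (bigField L hL) c ≠ b α / b β := by
    intro c hc
    exact hne ⟨c, by rw [hc, div_mul_cancel₀ _ hβ]⟩
  obtain ⟨f, hf⟩ := exists_rep (b α / b β)
  obtain ⟨η', hη', hfη⟩ := hf.ht_ge hne'
  choose fb hfb using fun i => exists_rep (b i)
  choose fA h1 h2 h3 h4 using fun v => exists_rep_matrix (A v) (hA v)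
  choose fF hF1 hF2 using fun i j => exists_rep_O6 (F i j) (hF i j)
  have hη : 0 < Real.log (1 + η') := Real.log_pos (by linarith)
  obtain ⟨ε, M, q, hε, hq, hstd⟩ := std_hyper a ha (δ := δ / 2) (by positivity) hη l₀ α β
  have e1 : ∀ᶠ m in (hyperfilter ℕ : Filter ℕ), ∀ v, (fA v m).det ≠ 0 := eventually_all.2 h3
  have e2 : ∀ᶠ m in (hyperfilter ℕ : Filter ℕ), ∀ v i j,
      (ht (fA v m i j) : ℝ) ≤ (1 + ε) ^ L m ∧ (ht ((fA v m)⁻¹ i j) : ℝ) ≤ (1 + ε) ^ L m :=
    eventually_all.2 fun v => h4 v ε hε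
  have e3 : ∀ᶠ m in (hyperfilter ℕ : Filter ℕ),
      (Matrix.of fun i j => fF i j m : Matrix ι ι ℚ).det ≠ 0 := by
    refine Rep.eventually_ne (z := F.det) ?_ hdF
    exact Rep.det (f := fun m => (Matrix.of fun i j => fF i j m : Matrix ι ι ℚ)) hF2
  have e4 : ∀ᶠ m in (hyperfilter ℕ : Filter ℕ), ∀ v i l, l ≠ l₀ →
      absv v ((fA v m * (Matrix.of fun i j => fF i j m : Matrix ι ι ℚ)) i l) ≤
        Real.exp ((a v i - δ / 2) * L m) := by
    refine eventually_all.2 fun v => eventually_all.2 fun i => eventually_all.2 fun l => ?_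
    by_cases hl : l = l₀
    · exact Eventually.of_forall fun m h => absurd hl h
    · have hrep : Rep (fun m => (fA v m * (Matrix.of fun i j => fF i j m : Matrix ι ι ℚ)) i l)
          ((up (bigField L hL) (A v) * F) i l) := by
        have h5 : Rep (fun m => ∑ j, fA v m i j * fF j l m)
            (∑ j, algebraMap (smallField L hL) (bigField L hL) (A v i j) * F j l) :=
          Rep.sum Finset.univ (f := fun j m => fA v m i j * fF j l m)
            (fun j _ => (h1 v i j).mul (hF2 j l))
        exact h5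
      have h6 := hrep.absv_le v (hsm v i l hl) (ε := δ / 2) (by positivity)
      refine h6.mono fun m hm _ => ?_
      refine hm.trans (le_of_eq ?_)
      congr 1
      ring
  have e5 : ∀ᶠ m in (hyperfilter ℕ : Filter ℕ), ∀ l, l ≠ l₀ →
      ∑ i, fb i m * fF i l m = 0 := by
    refine eventually_all.2 fun l => ?_
    by_cases hl : l = l₀
    · exact Eventually.of_forall fun m h => absurd hl h
    · have h5 : Rep (fun m => ∑ i, fb i m * fF i l m) (∑ i, b i * F i l) :=
        Rep.sum Finset.univ (f := fun i m => fb i m * fF i l m)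
          (fun i _ => (hfb i).mul (hF2 i l))
      rw [hort l hl] at h5
      exact h5.eventually_zero.mono fun m hm _ => hm
  have e6 : ∀ᶠ m in (hyperfilter ℕ : Filter ℕ), fb β m ≠ 0 := (hfb β).eventually_ne hβ
  have e7 : ∀ᶠ m in (hyperfilter ℕ : Filter ℕ), f m * fb β m = fb α m := by
    refine Rep.eventually_eq (z := b α) ?_ (hfb α)
    have h5 := hf.mul (hfb β)
    rw [div_mul_cancel₀ _ hβ] at h5
    exact h5
  have hE : ∀ᶠ m in (hyperfilter ℕ : Filter ℕ), LevelData a (δ / 2) (Real.log (1 + η')) ε l₀ α β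
      (L m) (fun v => fA v m) (Matrix.of fun i j => fF i j m : Matrix ι ι ℚ) (fun i => fb i m) := by
    filter_upwards [e1, e2, e3, e4, e5, e6, e7, hfη] with m g1 g2 g3 g4 g5 g6 g7 g8
    have hexp : (1 + ε) ^ L m ≤ Real.exp (ε * L m) := by
      rw [mul_comm, Real.exp_nat_mul]
      refine pow_le_pow_left₀ (by linarith) ?_ _
      linarith [Real.add_one_le_exp ε]
    refine ⟨g1, fun v i j => (g2 v i j).1.trans hexp, fun v i j => (g2 v i j).2.trans hexp,
      fun i j => hF1 i j m, g3, g4, g5, g6, ?_⟩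
    have h5 : fb α m / fb β m = f m := by
      rw [← g7, mul_div_assoc, div_self g6, mul_one]
    change Real.exp (Real.log (1 + η') * L m) ≤ (ht (fb α m / fb β m) : ℝ)
    rw [h5, mul_comm, Real.exp_nat_mul, Real.exp_log (by linarith)]
    exact g8
  obtain ⟨m, hm1, hm2, hm3⟩ := exists_levels hL hE M q
  exact hstd (fun j => L (m j)) hm2 hm3 _ _ _ hm1

end Pool.Agent.Lib.MP_d0d59f_nt.Sb

end
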