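import Pool.Agent.Lib.MP_d0d59f_nt.Sub.Heights

/-!
The absolute values of the rational numbers at infinity, 2, 3.
-/

section

namespace Pool.Agent.Lib.MP_d0d59f_nt.Sb

open Auto Lin

/-- the absolute values at `∞, 2, 3` -/
noncomputable def absv : Fin 3 → AbsoluteValue ℚ ℝ :=
  ![Rat.AbsoluteValue.real, Rat.AbsoluteValue.padic 2, Rat.AbsoluteValue.padic 3]

/-- `htBound_real`, `htBound_padic`, `htBound_padic_three`. -/
theorem htBound_absv (v : Fin 3) : HtBound (absv v) := by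
  fin_cases v
  · exact htBound_real
  · exact htBound_padic
  · exact htBound_padic_three

/-- the ring `ℤ[1/6]` -/
def Z6 : Subring ℚ where
  carrier := {q | ∃ (k : ℕ) (z : ℤ), q * 6 ^ k = z}
  mul_mem' := by
    rintro a b ⟨k, z, h⟩ ⟨l, y, h'⟩
    refine ⟨k + l, z * y, ?_⟩
    push_cast
    rw [← h, ← h', pow_add]
    ring
  one_mem' := ⟨0, 1, by simp⟩
  add_mem' := by
    rintro a b ⟨k, z, h⟩ ⟨l, y, h'⟩
    refine ⟨k + l, z * 6 ^ l + y * 6 ^ k, ?_⟩
    push_cast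
    rw [← h, ← h', pow_add]
    ring
  zero_mem' := ⟨0, 0, by simp⟩
  neg_mem' := by
    rintro a ⟨k, z, h⟩
    refine ⟨k, -z, ?_⟩
    push_cast
    rw [← h]
    ring

theorem int_mem_Z6 (z : ℤ) : (z : ℚ) ∈ Z6 := ⟨0, z, by simp⟩

theorem zpow_two_mem_Z6 (k : ℤ) : (2 : ℚ) ^ k ∈ Z6 := by
  obtain ⟨n, rfl | rfl⟩ := k.eq_nat_or_neg
  · refine ⟨0, 2 ^ n, ?_⟩
    push_cast
    rw [zpow_natCast, pow_zero, mul_one]
  · refine ⟨n, 3 ^ n, ?_⟩
    push_cast
    rw [zpow_neg, zpow_natCast, show (6 : ℚ) = 2 * 3 by norm_num, mul_pow, ← mul_assoc,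
      inv_mul_cancel₀ (by positivity), one_mul]

theorem zpow_three_mem_Z6 (k : ℤ) : (3 : ℚ) ^ k ∈ Z6 := by
  obtain ⟨n, rfl | rfl⟩ := k.eq_nat_or_neg
  · refine ⟨0, 3 ^ n, ?_⟩
    push_cast
    rw [zpow_natCast, pow_zero, mul_one]
  · refine ⟨n, 2 ^ n, ?_⟩
    push_cast
    rw [zpow_neg, zpow_natCast, show (6 : ℚ) = 3 * 2 by norm_num, mul_pow, ← mul_assoc,
      inv_mul_cancel₀ (by positivity), one_mul]

/-- the non-archimedean inequality for `v = 1, 2` (`padicNorm.nonarchimedean`,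
`Rat.AbsoluteValue.padic_eq_padicNorm`) -/
theorem absv_add_le (v : Fin 3) (hv : v ≠ 0) (a b : ℚ) :
    absv v (a + b) ≤ max (absv v a) (absv v b) := by
  fin_cases v
  · exact absurd rfl hv
  · change Rat.AbsoluteValue.padic 2 (a + b) ≤
      max (Rat.AbsoluteValue.padic 2 a) (Rat.AbsoluteValue.padic 2 b)
    rw [Rat.AbsoluteValue.padic_eq_padicNorm, Rat.AbsoluteValue.padic_eq_padicNorm,
      Rat.AbsoluteValue.padic_eq_padicNorm]
    exact_mod_cast padicNorm.nonarchimedean (p := 2) (q := a) (r := b)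
  · change Rat.AbsoluteValue.padic 3 (a + b) ≤
      max (Rat.AbsoluteValue.padic 3 a) (Rat.AbsoluteValue.padic 3 b)
    rw [Rat.AbsoluteValue.padic_eq_padicNorm, Rat.AbsoluteValue.padic_eq_padicNorm,
      Rat.AbsoluteValue.padic_eq_padicNorm]
    exact_mod_cast padicNorm.nonarchimedean (p := 3) (q := a) (r := b)

theorem absv_int_le (v : Fin 3) (hv : v ≠ 0) (z : ℤ) : absv v (z : ℚ) ≤ 1 := by
  fin_cases v
  · exact absurd rfl hv
  · change Rat.AbsoluteValue.padic 2 (z : ℚ) ≤ 1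
    rw [Rat.AbsoluteValue.padic_eq_padicNorm]
    exact_mod_cast padicNorm.of_int (p := 2) z
  · change Rat.AbsoluteValue.padic 3 (z : ℚ) ≤ 1
    rw [Rat.AbsoluteValue.padic_eq_padicNorm]
    exact_mod_cast padicNorm.of_int (p := 3) z

theorem absv_zero_eq (q : ℚ) : absv 0 q = |(q : ℝ)| := by
  change Rat.AbsoluteValue.real q = |(q : ℝ)|
  rw [Rat.AbsoluteValue.real_eq_abs]
  push_cast
  rfl

theorem absv_one_two (k : ℤ) : absv 1 ((2 : ℚ) ^ k) = (2 : ℝ) ^ (-k) := by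
  change Rat.AbsoluteValue.padic 2 ((2 : ℚ) ^ k) = (2 : ℝ) ^ (-k)
  rw [map_zpow₀, padic_two_two, one_div, inv_zpow, zpow_neg]

theorem absv_two_three (k : ℤ) : absv 2 ((3 : ℚ) ^ k) = (3 : ℝ) ^ (-k) := by
  change Rat.AbsoluteValue.padic 3 ((3 : ℚ) ^ k) = (3 : ℝ) ^ (-k)
  rw [map_zpow₀, padic_three_three, one_div, inv_zpow, zpow_neg]

theorem absv_one_three (k : ℤ) : absv 1 ((3 : ℚ) ^ k) = 1 := by
  change Rat.AbsoluteValue.padic 2 ((3 : ℚ) ^ k) = 1
  rw [map_zpow₀, padic_two_three, one_zpow]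

theorem absv_two_two (k : ℤ) : absv 2 ((2 : ℚ) ^ k) = 1 := by
  change Rat.AbsoluteValue.padic 3 ((2 : ℚ) ^ k) = 1
  rw [map_zpow₀, padic_three_two, one_zpow]

end Pool.Agent.Lib.MP_d0d59f_nt.Sb

end

section

namespace Pool.Agent.Lib.MP_d0d59f_nt.Sb

open Auto Lin

theorem Abs_zero_apply (q : ℚ) : absv 0 q = Rat.AbsoluteValue.real q := rfl

theorem Abs_one_apply (q : ℚ) : absv 1 q = Rat.AbsoluteValue.padic 2 q := rfl

theorem Abs_two_apply (q : ℚ) : absv 2 q = Rat.AbsoluteValue.padic 3 q := rfl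

theorem Abs_one_unit (m : ℤ) (h : ¬ (2 : ℤ) ∣ m) : absv 1 (m : ℚ) = 1 := by
  rw [Abs_one_apply, Rat.AbsoluteValue.padic_eq_padicNorm,
    (padicNorm.int_eq_one_iff (p := 2) m).mpr (by exact_mod_cast h)]
  norm_num

theorem Abs_two_unit (m : ℤ) (h : ¬ (3 : ℤ) ∣ m) : absv 2 (m : ℚ) = 1 := by
  rw [Abs_two_apply, Rat.AbsoluteValue.padic_eq_padicNorm,
    (padicNorm.int_eq_one_iff (p := 3) m).mpr (by exact_mod_cast h)]
  norm_num

theorem Abs_one_six : absv 1 (6 : ℚ) = 1 / 2 := by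
  have h : (6 : ℚ) = 2 * 3 := by norm_num
  rw [h, map_mul, Abs_one_apply, Abs_one_apply, padic_two_two, padic_two_three, mul_one]

theorem Abs_two_six : absv 2 (6 : ℚ) = 1 / 3 := by
  have h : (6 : ℚ) = 2 * 3 := by norm_num
  rw [h, map_mul, Abs_two_apply, Abs_two_apply, padic_three_two, padic_three_three, one_mul]

theorem Abs_zero_six : absv 0 (6 : ℚ) = 6 := by
  have h : (6 : ℚ) = 2 * 3 := by norm_num
  rw [h, map_mul, Abs_zero_apply, Abs_zero_apply, real_two, real_three]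
  norm_num

/-- the denominator of an element of `ℤ[1/6]` -/
theorem Abs_den (q : ℚ) (hq : q ∈ Z6) : ∃ a b : ℕ, q.den = 2 ^ a * 3 ^ b ∧
    (2 : ℝ) ^ a ≤ max 1 (absv 1 q) ∧ (3 : ℝ) ^ b ≤ max 1 (absv 2 q) := by
  obtain ⟨k, z, hz⟩ := hq
  have h6 : (6 : ℚ) ^ k ≠ 0 := by positivity
  have hqz : q = Rat.divInt z ((6 : ℤ) ^ k) := by
    rw [Rat.divInt_eq_div, eq_div_iff (by exact_mod_cast h6)]
    push_cast
    exact hz
  have hd : (q.den : ℤ) ∣ (6 : ℤ) ^ k := by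
    rw [hqz]; exact Rat.den_dvd _ _
  have hd' : q.den ∣ 2 ^ k * 3 ^ k := by
    rw [← mul_pow]
    exact_mod_cast hd
  obtain ⟨d1, d2, h1, h2, h3⟩ := (Nat.dvd_mul).mp hd'
  obtain ⟨a, -, rfl⟩ := (Nat.dvd_prime_pow Nat.prime_two).mp h1
  obtain ⟨b, -, rfl⟩ := (Nat.dvd_prime_pow Nat.prime_three).mp h2
  have hden : (q.den : ℚ) = (2 : ℚ) ^ (a : ℤ) * (3 : ℚ) ^ (b : ℤ) := by
    rw [zpow_natCast, zpow_natCast]
    exact_mod_cast h3.symm
  have hmul : q * (q.den : ℚ) = (q.num : ℚ) := Rat.mul_den_eq_num q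
  have hcop : Nat.Coprime q.num.natAbs q.den := q.reduced
  refine ⟨a, b, h3.symm, ?_, ?_⟩
  · rcases Nat.eq_zero_or_pos a with ha | ha
    · rw [ha, pow_zero]; exact le_max_left _ _
    · refine le_trans (le_of_eq ?_) (le_max_right _ _)
      have hodd : ¬ (2 : ℤ) ∣ q.num := by
        intro h
        have h4 : 2 ∣ q.num.natAbs := by
          have := Int.natAbs_dvd_natAbs.mpr h
          simpa using this
        have h5 : 2 ∣ q.den := by
          rw [← h3]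
          exact Dvd.dvd.mul_right (dvd_pow_self 2 (by omega)) _
        have := Nat.dvd_gcd h4 h5
        rw [hcop] at this
        omega
      have e := congrArg (absv 1) hmul
      rw [map_mul, hden, map_mul, absv_one_two, absv_one_three, mul_one, Abs_one_unit _ hodd,
        zpow_neg, zpow_natCast] at e
      have hp : (0 : ℝ) < 2 ^ a := by positivity
      field_simp at e
      exact e.symm
  · rcases Nat.eq_zero_or_pos b with hb | hb
    · rw [hb, pow_zero]; exact le_max_left _ _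
    · refine le_trans (le_of_eq ?_) (le_max_right _ _)
      have hodd : ¬ (3 : ℤ) ∣ q.num := by
        intro h
        have h4 : 3 ∣ q.num.natAbs := by
          have := Int.natAbs_dvd_natAbs.mpr h
          simpa using this
        have h5 : 3 ∣ q.den := by
          rw [← h3]
          exact Dvd.dvd.mul_left (dvd_pow_self 3 (by omega)) _
        have := Nat.dvd_gcd h4 h5
        rw [hcop] at this
        omega
      have e := congrArg (absv 2) hmul
      rw [map_mul, hden, map_mul, absv_two_two, absv_two_three, one_mul, Abs_two_unit _ hodd,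
        zpow_neg, zpow_natCast] at e
      have hp : (0 : ℝ) < 3 ^ b := by positivity
      field_simp at e
      exact e.symm

/-- The product formula inequality. `q * 6 ^ k = z`, an integer; `∏ v, |6| = 1`
(`real_two`, `padic_two_two`, ..), and `1 ≤ |z| |z|_2 |z|_3` for an integer `z ≠ 0`: `z = 2^a 3^b y` with
`y` prime to `6`. -/
theorem prod_absv (q : ℚ) (hq : q ∈ Z6) (h0 : q ≠ 0) : 1 ≤ ∏ v, absv v q := by
  obtain ⟨k, z, hz⟩ := hq
  have hz0 : z ≠ 0 := by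
    rintro rfl
    rw [Int.cast_zero] at hz
    exact mul_ne_zero h0 (by positivity) hz
  have hprod : ∏ v, absv v q = ∏ v, absv v (z : ℚ) := by
    rw [← hz, Fin.prod_univ_three, Fin.prod_univ_three]
    simp only [map_mul, map_pow]
    rw [Abs_zero_six, Abs_one_six, Abs_two_six]
    have e : (6 : ℝ) ^ k * ((1 / 2) ^ k * (1 / 3) ^ k) = 1 := by
      rw [← mul_pow, ← mul_pow]
      norm_num
    linear_combination (-(absv 0 q * absv 1 q * absv 2 q)) * e
  rw [hprod]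
  obtain ⟨a, m, hm, hn⟩ := Nat.exists_eq_pow_mul_and_not_dvd (Int.natAbs_ne_zero.mpr hz0) 2
    (by norm_num)
  have hm0 : m ≠ 0 := by
    rintro rfl
    exact hm (dvd_zero 2)
  obtain ⟨b, y, hy, hm2⟩ := Nat.exists_eq_pow_mul_and_not_dvd hm0 3 (by norm_num)
  have hy0 : 1 ≤ y := by
    rcases Nat.eq_zero_or_pos y with h | h
    · rw [h] at hy; exact absurd (dvd_zero 3) hy
    · exact h
  have hy2 : ¬ (2 : ℤ) ∣ (y : ℤ) := by
    intro h
    have h1 : 2 ∣ y := by exact_mod_cast h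
    exact hm (hm2 ▸ Dvd.dvd.mul_left h1 _)
  have hy3 : ¬ (3 : ℤ) ∣ (y : ℤ) := by
    intro h
    exact hy (by exact_mod_cast h)
  have hval : ∀ v, absv v (z : ℚ) = absv v ((2 : ℚ) ^ (a : ℤ)) * absv v ((3 : ℚ) ^ (b : ℤ)) *
      absv v ((y : ℤ) : ℚ) := by
    intro v
    have h1 : absv v (z : ℚ) = absv v ((z.natAbs : ℕ) : ℚ) := by
      rw [Nat.cast_natAbs, Int.cast_abs]
      rcases abs_choice (z : ℚ) with h | h
      · rw [h]
      · rw [h, AbsoluteValue.map_neg]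
    rw [h1, hn, hm2, ← map_mul, ← map_mul]
    congr 1
    rw [zpow_natCast, zpow_natCast]
    push_cast
    ring
  have e0 : absv 0 (z : ℚ) = 2 ^ a * 3 ^ b * y := by
    rw [hval, absv_zero_eq, absv_zero_eq, absv_zero_eq]
    simp
  have e1 : absv 1 (z : ℚ) = ((2 : ℝ) ^ a)⁻¹ := by
    rw [hval, absv_one_two, absv_one_three, Abs_one_unit _ hy2]
    simp
  have e2 : absv 2 (z : ℚ) = ((3 : ℝ) ^ b)⁻¹ := by
    rw [hval, absv_two_two, absv_two_three, Abs_two_unit _ hy3]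
    simp
  rw [Fin.prod_univ_three, e0, e1, e2]
  have hp2 : (2 : ℝ) ^ a ≠ 0 := by positivity
  have hp3 : (3 : ℝ) ^ b ≠ 0 := by positivity
  have e : (2 : ℝ) ^ a * 3 ^ b * y * ((2 : ℝ) ^ a)⁻¹ * ((3 : ℝ) ^ b)⁻¹ = y := by
    field_simp
  rw [e]
  exact_mod_cast hy0

/-- An element of `ℤ[1/6]` has a denominator `2^a 3^b` with `2^a ≤ max 1 |q|_2`,
`3^b ≤ max 1 |q|_3`, and `|num| = |q| * den`. -/
theorem ht_le_of_Z6 (q : ℚ) (hq : q ∈ Z6) :
    (ht q : ℝ) ≤ max 1 (absv 0 q) * (max 1 (absv 1 q) * max 1 (absv 2 q)) := by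
  obtain ⟨a, b, hd, h1, h2⟩ := Abs_den q hq
  have hden : (q.den : ℝ) ≤ max 1 (absv 1 q) * max 1 (absv 2 q) := by
    rw [hd]
    push_cast
    exact mul_le_mul h1 h2 (by positivity) (le_trans zero_le_one (le_max_left _ _))
  have hd0 : (0 : ℝ) ≤ q.den := Nat.cast_nonneg _
  have hnum : ((q.num.natAbs : ℕ) : ℝ) = absv 0 q * q.den := by
    have e : (q : ℝ) * (q.den : ℝ) = (q.num : ℝ) := by
      have := Rat.mul_den_eq_num q
      exact_mod_cast this
    rw [absv_zero_eq, Nat.cast_natAbs, Int.cast_abs, ← e, abs_mul, abs_of_nonneg hd0]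
  have hm1 : (1 : ℝ) ≤ max 1 (absv 0 q) := le_max_left _ _
  rw [ht]
  push_cast
  refine max_le ?_ ?_
  · rw [hnum]
    exact mul_le_mul (le_max_right _ _) hden hd0 (by positivity)
  · calc (q.den : ℝ) = 1 * q.den := (one_mul _).symm
      _ ≤ _ := mul_le_mul hm1 hden hd0 (by positivity)

/-- If `|q|_2 ≤ 2 ^ k` then `2 ^ k q` has an odd denominator; `q` with `|q|_2 ≤ 2 ^ k`,
`|q|_3 ≤ 3 ^ k` and `q ∈ ℤ[1/6]` satisfies `6 ^ k q ∈ ℤ`. -/
theorem int_of_absv_le (q : ℚ) (hq : q ∈ Z6) (k : ℕ) (h1 : absv 1 q ≤ 2 ^ k)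
    (h2 : absv 2 q ≤ 3 ^ k) : ∃ z : ℤ, q * 6 ^ k = z := by
  obtain ⟨a, b, hd, g1, g2⟩ := Abs_den q hq
  have ha : a ≤ k := by
    have h3 : (2 : ℝ) ^ a ≤ 2 ^ k := g1.trans (max_le (one_le_pow₀ (by norm_num)) h1)
    exact (pow_le_pow_iff_right₀ (by norm_num)).mp h3
  have hb : b ≤ k := by
    have h3 : (3 : ℝ) ^ b ≤ 3 ^ k := g2.trans (max_le (one_le_pow₀ (by norm_num)) h2)
    exact (pow_le_pow_iff_right₀ (by norm_num)).mp h3
  obtain ⟨i, rfl⟩ := Nat.exists_eq_add_of_le ha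
  obtain ⟨j, hj⟩ := Nat.exists_eq_add_of_le hb
  refine ⟨q.num * (2 ^ i * 3 ^ j), ?_⟩
  have hmul : q * (q.den : ℚ) = (q.num : ℚ) := Rat.mul_den_eq_num q
  have e : (6 : ℚ) ^ (a + i) = (q.den : ℚ) * (2 ^ i * 3 ^ j) := by
    have e1 : (6 : ℚ) ^ (a + i) = 2 ^ (a + i) * 3 ^ (a + i) := by
      rw [← mul_pow]; norm_num
    rw [e1, hd]
    conv_lhs => rw [show (3 : ℚ) ^ (a + i) = 3 ^ (b + j) by rw [hj]]
    push_cast
    rw [pow_add, pow_add]
    ring
  rw [e, ← mul_assoc, hmul]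
  push_cast
  ring

end Pool.Agent.Lib.MP_d0d59f_nt.Sb

end
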