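import Pool.Agent.Lib.MP_d0d59f_nt.Sub.Substitutions
import Pool.Agent.Lib.MP_d0d59f_nt.Sub.PolyIndex

/-!
Estimates for the coefficients after a linear substitution; reduction to one variable in every block.
-/

section

namespace Pool.Agent.Lib.MP_d0d59f_nt.Sb

open MvPolynomial

/-- The weight of a balanced monomial. With `x_j = d_j L_j ∈ [D, (1 + η) D]`:
`log n * ∑ d_j`, `- δ ∑ d_j L_j ≤ - δ M D`, and `∑ j, f (j, i) L_j = ∑ j, (f (j, i) / d_j) x_j` differs
from `D ∑ j, f (j, i) / d_j` by at most `η D M` (`0 ≤ f (j, i) / d_j ≤ 1`), and this differs from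
`D M / n` by at most `ε M D` (not bad). -/
theorem weight_le {M : ℕ} {ι : Type} [Fintype ι] [DecidableEq ι] [Nonempty ι] (d : Fin M → ℕ)
    (hd : ∀ j, 0 < d j) (L : Fin M → ℕ) {D η ε δ K : ℝ} (hD : 0 ≤ D) (hη : 0 ≤ η) (hδ : 0 ≤ δ)
    (h1 : ∀ j, D ≤ d j * L j) (h2 : ∀ j, (d j : ℝ) * L j ≤ (1 + η) * D) (α : ι → ℝ)
    (hα : ∀ i, |α i| ≤ K) (f : Fin M → ι → ℕ) (hf : ∀ j, ∑ i, f j i = d j) (hb : ¬ Bad ε d f) :
    ∑ j, ∑ i, (f j i : ℝ) * (Real.log (Fintype.card ι) + (α i - δ) * L j) ≤
      Real.log (Fintype.card ι) * ∑ j, (d j : ℝ) + D * M / (Fintype.card ι : ℝ) * ∑ i, α i +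
        (Fintype.card ι : ℝ) * K * (ε + η) * D * M - δ * D * M := by
  have hfr : ∀ j, ∑ i, (f j i : ℝ) = d j := by
    intro j
    rw [← hf j]
    push_cast
    rfl
  have hdr : ∀ j, (0 : ℝ) < d j := fun j => by exact_mod_cast hd j
  have hK : 0 ≤ K := (abs_nonneg _).trans (hα (Classical.arbitrary ι))
  have hb' : ∀ i, |∑ j, (f j i : ℝ) / d j - M / (Fintype.card ι : ℝ)| < ε * M := by
    intro i
    by_contra h
    exact hb ⟨i, not_lt.1 h⟩
  -- the left side
  have hL : ∑ j, ∑ i, (f j i : ℝ) * (Real.log (Fintype.card ι) + (α i - δ) * L j) =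
      Real.log (Fintype.card ι) * ∑ j, (d j : ℝ) + ∑ i, α i * ∑ j, (f j i : ℝ) * L j -
        δ * ∑ j, (d j : ℝ) * L j := by
    have e1 : ∀ j, ∑ i, (f j i : ℝ) * (Real.log (Fintype.card ι) + (α i - δ) * L j) =
        Real.log (Fintype.card ι) * d j + ∑ i, α i * ((f j i : ℝ) * L j) - δ * (d j * L j) := by
      intro j
      rw [← hfr j]
      rw [Finset.mul_sum, Finset.sum_mul, Finset.mul_sum, ← Finset.sum_add_distrib,
        ← Finset.sum_sub_distrib]
      refine Finset.sum_congr rfl (fun i _ => ?_)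
      ring
    rw [Finset.sum_congr rfl (fun j _ => e1 j), Finset.sum_sub_distrib, Finset.sum_add_distrib,
      ← Finset.mul_sum, ← Finset.mul_sum, Finset.sum_comm]
    congr 2
    refine Finset.sum_congr rfl (fun i _ => ?_)
    rw [Finset.mul_sum]
  -- one coordinate
  have hone : ∀ i, |∑ j, (f j i : ℝ) * L j - D * M / (Fintype.card ι : ℝ)| ≤ (ε + η) * D * M := by
    intro i
    have hq0 : ∀ j, 0 ≤ (f j i : ℝ) / d j := fun j => div_nonneg (Nat.cast_nonneg _) (hdr j).le
    have hq1 : ∀ j, (f j i : ℝ) / d j ≤ 1 := by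
      intro j
      rw [div_le_one (hdr j)]
      have : f j i ≤ d j := by
        rw [← hf j]
        exact Finset.single_le_sum (fun _ _ => Nat.zero_le _) (Finset.mem_univ i)
      exact_mod_cast this
    have e1 : ∑ j, (f j i : ℝ) * L j = ∑ j, (f j i : ℝ) / d j * (d j * L j) := by
      refine Finset.sum_congr rfl (fun j _ => ?_)
      have := (hdr j).ne'
      field_simp
    have lo : D * ∑ j, (f j i : ℝ) / d j ≤ ∑ j, (f j i : ℝ) * L j := by
      rw [e1, Finset.mul_sum]
      refine Finset.sum_le_sum (fun j _ => ?_)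
      rw [mul_comm]
      exact mul_le_mul_of_nonneg_left (h1 j) (hq0 j)
    have hi : ∑ j, (f j i : ℝ) * L j ≤ D * ∑ j, (f j i : ℝ) / d j + η * D * M := by
      have e2 : η * D * M = ∑ _j : Fin M, η * D := by
        rw [Finset.sum_const, Finset.card_univ, Fintype.card_fin, nsmul_eq_mul]
        ring
      rw [e1, Finset.mul_sum, e2, ← Finset.sum_add_distrib]
      refine Finset.sum_le_sum (fun j _ => ?_)
      have h3 : (f j i : ℝ) / d j * (d j * L j - D) ≤ 1 * (η * D) := by
        refine mul_le_mul (hq1 j) ?_ (by linarith [h1 j]) (by norm_num)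
        have := h2 j
        linarith
      linarith
    have hbi := abs_lt.1 (hb' i)
    have hM : (0 : ℝ) ≤ M := Nat.cast_nonneg _
    have hηDM : 0 ≤ η * D * M := by positivity
    have c1 : D * (∑ j, (f j i : ℝ) / d j - M / (Fintype.card ι : ℝ)) ≤ D * (ε * M) :=
      mul_le_mul_of_nonneg_left hbi.2.le hD
    have c2 : D * (-(ε * M)) ≤ D * (∑ j, (f j i : ℝ) / d j - M / (Fintype.card ι : ℝ)) :=
      mul_le_mul_of_nonneg_left hbi.1.le hD
    have c3 : D * (∑ j, (f j i : ℝ) / d j - M / (Fintype.card ι : ℝ)) =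
        D * ∑ j, (f j i : ℝ) / d j - D * M / (Fintype.card ι : ℝ) := by ring
    rw [c3] at c1 c2
    rw [abs_le]
    constructor
    · nlinarith
    · nlinarith
  have hsum : ∑ i, α i * ∑ j, (f j i : ℝ) * L j ≤ D * M / (Fintype.card ι : ℝ) * ∑ i, α i +
      (Fintype.card ι : ℝ) * K * (ε + η) * D * M := by
    have e3 : (Fintype.card ι : ℝ) * K * (ε + η) * D * M = ∑ _i : ι, K * ((ε + η) * D * M) := by
      rw [Finset.sum_const, Finset.card_univ, nsmul_eq_mul]
      ring
    rw [e3, Finset.mul_sum, ← Finset.sum_add_distrib]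
    refine Finset.sum_le_sum (fun i _ => ?_)
    have h4 : α i * (∑ j, (f j i : ℝ) * L j - D * M / (Fintype.card ι : ℝ)) ≤
        K * ((ε + η) * D * M) := by
      refine (le_abs_self _).trans ?_
      rw [abs_mul]
      exact mul_le_mul (hα i) (hone i) (abs_nonneg _) hK
    nlinarith
  have hdl : δ * D * M ≤ δ * ∑ j, (d j : ℝ) * L j := by
    have h5 : D * M ≤ ∑ j, (d j : ℝ) * L j := by
      have e4 : D * M = ∑ _j : Fin M, D := by
        rw [Finset.sum_const, Finset.card_univ, Fintype.card_fin, nsmul_eq_mul]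
        ring
      rw [e4]
      exact Finset.sum_le_sum (fun j _ => h1 j)
    calc δ * D * M = δ * (D * M) := by ring
      _ ≤ _ := mul_le_mul_of_nonneg_left h5 hδ
  rw [hL]
  linarith

end Pool.Agent.Lib.MP_d0d59f_nt.Sb

end

section

namespace Pool.Agent.Lib.MP_d0d59f_nt.Sb

open MvPolynomial

/-- Estimate of the coefficients of `P (F x)`. Notation: `n = card ι`, `Q = lsub A⁻¹ P`, so
`lsub F P = lsub (A F) Q` (`lsub_lsub`). Weights `r (j, l) = 1` for `l ≠ l₀` and
`r (j, l₀) = exp (- c L_j)`. By `pnorm_lsub_le`, `pnorm a r (lsub (A F) Q) ≤ pnorm a ρ Q` with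
`ρ (j, i) = n exp ((α i - δ) L_j)`, and by `weight_le` and `pnorm_le_of_support` this is at most
`exp (weight) * pnorm a 1 Q`; `pnorm a 1 Q ≤ pnorm a (n exp (ε' L_j)) P ≤
exp (log n * ∑ d + ε' (1 + η) D M) * pnorm a 1 P` and `pnorm a 1 P ≤ n ^ (∑ d) exp H`
(`pnorm_one_le`). Finally `a (coeff e (lsub F P)) * exp (- c ∑ j, L_j e (j, l₀)) ≤ pnorm a r (lsub F P)`
(`coeff_le_pnorm`) and `∑ j, L_j e (j, l₀) = ∑ j, d_j L_j (e (j, l₀) / d_j) ≤ (1 + η) D s M`. -/
theorem coeff_lsub_le (a : AbsoluteValue ℚ ℝ) {M : ℕ} {ι : Type} [Fintype ι] [DecidableEq ι]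
    [Nonempty ι] (d : Fin M → ℕ) (hd : ∀ j, 0 < d j) (L : Fin M → ℕ)
    {D η ε ε' δ K c H s : ℝ} (hD : 0 ≤ D) (hη : 0 ≤ η) (hδ : 0 ≤ δ) (hc : 0 ≤ c) (hε' : 0 ≤ ε')
    (h1 : ∀ j, D ≤ d j * L j) (h2 : ∀ j, (d j : ℝ) * L j ≤ (1 + η) * D) (α : ι → ℝ)
    (hα : ∀ i, |α i| ≤ K) (A F : Fin M → Matrix ι ι ℚ) (hA : ∀ j, (A j).det ≠ 0) (l₀ : ι)
    (hF : ∀ j i l, l ≠ l₀ → a ((A j * F j) i l) ≤ Real.exp ((α i - δ) * L j))
    (hF0 : ∀ j i, a ((A j * F j) i l₀) ≤ Real.exp ((α i - δ + c) * L j))
    (hA' : ∀ j i k, a ((A j)⁻¹ i k) ≤ Real.exp (ε' * L j))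
    (P : MvPolynomial (Fin M × ι) ℚ) (hP : MHom d P) (hH : ∀ e, a (coeff e P) ≤ Real.exp H)
    (hbad : ∀ e ∈ (lsub (fun j => (A j)⁻¹) P).support, ¬ Bad ε d (fun j i => e (j, i)))
    (e : (Fin M × ι) →₀ ℕ) (he : ∑ j, (e (j, l₀) : ℝ) / d j ≤ s * M) :
    a (coeff e (lsub F P)) ≤ Real.exp (H + 3 * Real.log (Fintype.card ι) * ∑ j, (d j : ℝ) +
      ε' * (1 + η) * D * M + D * M / (Fintype.card ι : ℝ) * ∑ i, α i +
        (Fintype.card ι : ℝ) * K * (ε + η) * D * M - δ * D * M + c * (1 + η) * D * s * M) := by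
  classical
  set n : ℝ := (Fintype.card ι : ℝ) with hn
  have hnpos : 0 < n := by
    rw [hn]
    exact_mod_cast Fintype.card_pos
  have hQ : MHom d (lsub (fun j => (A j)⁻¹) P) := hP.lsub _
  have hFP : lsub (fun j => A j * F j) (lsub (fun j => (A j)⁻¹) P) = lsub F P := by
    rw [lsub_lsub]
    have h : (fun j => (A j)⁻¹ * (A j * F j)) = F := by
      funext j
      rw [← Matrix.mul_assoc, Matrix.nonsing_inv_mul _ (isUnit_iff_ne_zero.2 (hA j)), Matrix.one_mul]
    rw [h]
  -- the weights
  have hr : ∀ x : Fin M × ι, 0 ≤ (if x.2 = l₀ then Real.exp (-c * L x.1) else 1 : ℝ) := by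
    intro x
    split_ifs
    · exact (Real.exp_pos _).le
    · exact zero_le_one
  have h1' : ∀ x : Fin M × ι, (0 : ℝ) ≤ (fun _ => 1 : Fin M × ι → ℝ) x := fun _ => zero_le_one
  have step1 := pnorm_lsub_le a hr (fun j => A j * F j) (lsub (fun j => (A j)⁻¹) P)
    (ρ := fun x => Real.exp (Real.log n + (α x.2 - δ) * L x.1)) (by
      rintro ⟨j, i⟩
      dsimp only
      have hle : ∀ k ∈ (Finset.univ : Finset ι), a ((A j * F j) i k) *
          (if k = l₀ then Real.exp (-c * L j) else 1) ≤ Real.exp ((α i - δ) * L j) := by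
        intro k _
        by_cases hk : k = l₀
        · subst hk
          rw [if_pos rfl]
          calc a ((A j * F j) i k) * Real.exp (-c * L j)
              ≤ Real.exp ((α i - δ + c) * L j) * Real.exp (-c * L j) :=
                mul_le_mul_of_nonneg_right (hF0 j i) (Real.exp_pos _).le
            _ = Real.exp ((α i - δ) * L j) := by
                rw [← Real.exp_add]
                congr 1
                ring
        · rw [if_neg hk, mul_one]
          exact hF j i k hk
      calc ∑ k, a ((A j * F j) i k) * (if k = l₀ then Real.exp (-c * L j) else 1)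
          ≤ ∑ _k : ι, Real.exp ((α i - δ) * L j) := Finset.sum_le_sum hle
        _ = n * Real.exp ((α i - δ) * L j) := by
            rw [Finset.sum_const, nsmul_eq_mul, Finset.card_univ]
        _ = Real.exp (Real.log n + (α i - δ) * L j) := by
            rw [Real.exp_add, Real.exp_log hnpos])
  rw [hFP] at step1
  have step2 := pnorm_le_of_support a (r := fun x : Fin M × ι => Real.exp (Real.log n + (α x.2 - δ) * L x.1))
    (lsub (fun j => (A j)⁻¹) P)
    (B := Real.exp (Real.log n * ∑ j, (d j : ℝ) + D * M / n * ∑ i, α i + n * K * (ε + η) * D * M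
      - δ * D * M)) (by
      intro f hf
      have hw := weight_le d hd L hD hη hδ h1 h2 α hα (fun j i => f (j, i)) (fun j => hQ f hf j)
        (hbad f hf)
      rw [← hn] at hw
      calc ∏ x : Fin M × ι, Real.exp (Real.log n + (α x.2 - δ) * L x.1) ^ f x
          = Real.exp (∑ x : Fin M × ι, (f x : ℝ) * (Real.log n + (α x.2 - δ) * L x.1)) := by
            rw [Real.exp_sum]
            refine Finset.prod_congr rfl (fun x _ => ?_)
            rw [Real.exp_nat_mul]
        _ = Real.exp (∑ j, ∑ i, (f (j, i) : ℝ) * (Real.log n + (α i - δ) * L j)) := by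
            rw [Fintype.sum_prod_type]
        _ ≤ _ := Real.exp_le_exp.2 hw)
  have step3 := pnorm_lsub_le a h1' (fun j => (A j)⁻¹) P
    (ρ := fun x => Real.exp (Real.log n + ε' * L x.1)) (by
      rintro ⟨j, i⟩
      dsimp only
      calc ∑ k, a ((A j)⁻¹ i k) * 1
          ≤ ∑ _k : ι, Real.exp (ε' * L j) := by
            refine Finset.sum_le_sum (fun k _ => ?_)
            rw [mul_one]
            exact hA' j i k
        _ = n * Real.exp (ε' * L j) := by
            rw [Finset.sum_const, nsmul_eq_mul, Finset.card_univ]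
        _ = Real.exp (Real.log n + ε' * L j) := by
            rw [Real.exp_add, Real.exp_log hnpos])
  have step4 := pnorm_le_of_support a (r := fun x : Fin M × ι => Real.exp (Real.log n + ε' * L x.1)) P
    (B := Real.exp (Real.log n * ∑ j, (d j : ℝ) + ε' * (1 + η) * D * M)) (by
      intro f hf
      have hsum : ∑ j, ∑ i, (f (j, i) : ℝ) * (Real.log n + ε' * L j) =
          Real.log n * ∑ j, (d j : ℝ) + ε' * ∑ j, (d j : ℝ) * L j := by
        rw [Finset.mul_sum, Finset.mul_sum, ← Finset.sum_add_distrib]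
        refine Finset.sum_congr rfl (fun j _ => ?_)
        rw [← Finset.sum_mul]
        have h5 : ∑ i, (f (j, i) : ℝ) = d j := by
          exact_mod_cast hP f hf j
        rw [h5]
        ring
      have h6 : ∑ j, (d j : ℝ) * L j ≤ (1 + η) * D * M := by
        calc ∑ j, (d j : ℝ) * L j ≤ ∑ _j : Fin M, (1 + η) * D := Finset.sum_le_sum (fun j _ => h2 j)
          _ = (1 + η) * D * M := by
              rw [Finset.sum_const, nsmul_eq_mul, Finset.card_univ, Fintype.card_fin]
              ring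
      calc ∏ x : Fin M × ι, Real.exp (Real.log n + ε' * L x.1) ^ f x
          = Real.exp (∑ x : Fin M × ι, (f x : ℝ) * (Real.log n + ε' * L x.1)) := by
            rw [Real.exp_sum]
            refine Finset.prod_congr rfl (fun x _ => ?_)
            rw [Real.exp_nat_mul]
        _ = Real.exp (∑ j, ∑ i, (f (j, i) : ℝ) * (Real.log n + ε' * L j)) := by
            rw [Fintype.sum_prod_type]
        _ ≤ _ := by
            rw [hsum]
            apply Real.exp_le_exp.2
            have h7 := mul_le_mul_of_nonneg_left h6 hε'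
            linarith)
  have step5 := pnorm_one_le a hP (Real.exp_pos H).le hH
  have step6 := coeff_le_pnorm (a := a) hr (lsub F P) e
  -- the weight of `e`
  have hwe : ∏ x : Fin M × ι, (if x.2 = l₀ then Real.exp (-c * L x.1) else 1 : ℝ) ^ e x =
      Real.exp (- (c * ∑ j, (e (j, l₀) : ℝ) * L j)) := by
    rw [Fintype.prod_prod_type]
    have h8 : ∀ j : Fin M, ∏ i : ι, (if i = l₀ then Real.exp (-c * L j) else 1 : ℝ) ^ e (j, i) =
        Real.exp (- (c * ((e (j, l₀) : ℝ) * L j))) := by
      intro j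
      rw [Finset.prod_eq_single l₀]
      · rw [if_pos rfl, ← Real.exp_nat_mul]
        congr 1
        ring
      · intro i _ hi
        rw [if_neg hi, one_pow]
      · intro h
        exact absurd (Finset.mem_univ _) h
    calc ∏ j : Fin M, ∏ i : ι, (if i = l₀ then Real.exp (-c * L j) else 1 : ℝ) ^ e (j, i)
        = ∏ j : Fin M, Real.exp (- (c * ((e (j, l₀) : ℝ) * L j))) :=
          Finset.prod_congr rfl (fun j _ => h8 j)
      _ = Real.exp (- (c * ∑ j, (e (j, l₀) : ℝ) * L j)) := by
          rw [← Real.exp_sum]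
          congr 1
          rw [Finset.mul_sum, ← Finset.sum_neg_distrib]
  have hse : ∑ j, (e (j, l₀) : ℝ) * L j ≤ (1 + η) * D * s * M := by
    have h9 : ∀ j, (e (j, l₀) : ℝ) * L j ≤ (e (j, l₀) : ℝ) / d j * ((1 + η) * D) := by
      intro j
      have hdj : (0 : ℝ) < d j := by exact_mod_cast hd j
      have h10 : (e (j, l₀) : ℝ) * L j = (e (j, l₀) : ℝ) / d j * (d j * L j) := by
        field_simp
      rw [h10]
      exact mul_le_mul_of_nonneg_left (h2 j) (by positivity)
    calc ∑ j, (e (j, l₀) : ℝ) * L j ≤ ∑ j, (e (j, l₀) : ℝ) / d j * ((1 + η) * D) :=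
          Finset.sum_le_sum (fun j _ => h9 j)
      _ = (∑ j, (e (j, l₀) : ℝ) / d j) * ((1 + η) * D) := by rw [Finset.sum_mul]
      _ ≤ (s * M) * ((1 + η) * D) := mul_le_mul_of_nonneg_right he (by positivity)
      _ = (1 + η) * D * s * M := by ring
  rw [hwe] at step6
  have hlogpow : (Fintype.card ι : ℝ) ^ (∑ j, d j) = Real.exp (Real.log n * ∑ j, (d j : ℝ)) := by
    rw [← hn, mul_comm, ← Nat.cast_sum, Real.exp_nat_mul, Real.exp_log hnpos]
  rw [hlogpow] at step5
  have hpn0 : 0 ≤ pnorm a (fun _ => 1) P := pnorm_nonneg h1' P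
  have chain : pnorm a (fun x : Fin M × ι => (if x.2 = l₀ then Real.exp (-c * L x.1) else 1 : ℝ)) (lsub F P)
      ≤ Real.exp (Real.log n * ∑ j, (d j : ℝ) + D * M / n * ∑ i, α i + n * K * (ε + η) * D * M
      - δ * D * M) * (Real.exp (Real.log n * ∑ j, (d j : ℝ) + ε' * (1 + η) * D * M) *
        (Real.exp (Real.log n * ∑ j, (d j : ℝ)) * Real.exp H)) := by
    refine step1.trans (step2.trans (mul_le_mul_of_nonneg_left ?_ (Real.exp_pos _).le))
    refine step3.trans (step4.trans (mul_le_mul_of_nonneg_left ?_ (Real.exp_pos _).le))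
    exact step5
  have hfin : a (coeff e (lsub F P)) =
      Real.exp (c * ∑ j, (e (j, l₀) : ℝ) * L j) *
        (a (coeff e (lsub F P)) * Real.exp (- (c * ∑ j, (e (j, l₀) : ℝ) * L j))) := by
    rw [mul_comm, mul_assoc, ← Real.exp_add, neg_add_cancel, Real.exp_zero, mul_one]
  rw [hfin]
  calc Real.exp (c * ∑ j, (e (j, l₀) : ℝ) * L j) *
        (a (coeff e (lsub F P)) * Real.exp (- (c * ∑ j, (e (j, l₀) : ℝ) * L j)))
      ≤ Real.exp (c * ((1 + η) * D * s * M)) * (Real.exp (Real.log n * ∑ j, (d j : ℝ) +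
        D * M / n * ∑ i, α i + n * K * (ε + η) * D * M
      - δ * D * M) * (Real.exp (Real.log n * ∑ j, (d j : ℝ) + ε' * (1 + η) * D * M) *
        (Real.exp (Real.log n * ∑ j, (d j : ℝ)) * Real.exp H))) := by
        refine mul_le_mul (Real.exp_le_exp.2 (mul_le_mul_of_nonneg_left hse hc)) (step6.trans chain) ?_
          (Real.exp_pos _).le
        exact mul_nonneg (a.nonneg _) (Real.exp_pos _).le
    _ = _ := by
        rw [← Real.exp_add, ← Real.exp_add, ← Real.exp_add, ← Real.exp_add]
        congr 1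
        ring

end Pool.Agent.Lib.MP_d0d59f_nt.Sb

end

section

namespace Pool.Agent.Lib.MP_d0d59f_nt.Sb

open MvPolynomial

/-- the substitution `x_β ↦ x_β + ∑ k ≠ β, c k * x_k` -/
def phi {ι : Type} [DecidableEq ι] (β : ι) (c : ι → ℚ) : Matrix ι ι ℚ :=
  Matrix.of fun i k => if i = β then (if k = β then 1 else c k) else if i = k then 1 else 0

/-- the row `l₀` of the inverse matrix times the substitution -/
theorem LowestA_row {ι : Type} [Fintype ι] [DecidableEq ι] (F : Matrix ι ι ℚ) (hF : F.det ≠ 0)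
    (b : ι → ℚ) (l₀ β : ι) (hb : ∀ l, l ≠ l₀ → ∑ i, b i * F i l = 0) (hβ : b β ≠ 0)
    (hF0 : ∀ i, F i l₀ = if i = β then 1 else 0) (k : ι) :
    (F⁻¹ * phi β (fun k => -b k / b β)) l₀ k = if k = β then 1 else 0 := by
  have hu : IsUnit F.det := isUnit_iff_ne_zero.mpr hF
  have h1 : Matrix.vecMul b F = fun l => if l = l₀ then b β else 0 := by
    funext l
    simp only [Matrix.vecMul, dotProduct]
    split_ifs with h
    · rw [h]
      simp only [hF0, mul_ite, mul_one, mul_zero, Finset.sum_ite_eq', Finset.mem_univ, if_true]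
    · exact hb l h
  have h2 : ∀ i, b i = b β * F⁻¹ l₀ i := by
    intro i
    have h3 : Matrix.vecMul (Matrix.vecMul b F) F⁻¹ = b := by
      rw [Matrix.vecMul_vecMul, Matrix.mul_nonsing_inv F hu, Matrix.vecMul_one]
    have h4 := congrFun h3 i
    rw [h1] at h4
    simp only [Matrix.vecMul, dotProduct, ite_mul, zero_mul, Finset.sum_ite_eq', Finset.mem_univ,
      if_true] at h4
    exact h4.symm
  have h5 : ∀ i, F⁻¹ l₀ i = b i / b β := by
    intro i
    rw [eq_div_iff hβ, mul_comm]
    exact (h2 i).symm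
  rw [Matrix.mul_apply]
  simp only [h5]
  rw [← Finset.add_sum_erase _ _ (Finset.mem_univ β)]
  have h6 : ∑ i ∈ Finset.univ.erase β, b i / b β * phi β (fun k => -b k / b β) i k =
      if k = β then 0 else b k / b β := by
    have h7 : ∀ i ∈ Finset.univ.erase β, b i / b β * phi β (fun k => -b k / b β) i k =
        if i = k then b k / b β else 0 := by
      intro i hi
      have hi' : i ≠ β := Finset.ne_of_mem_erase hi
      simp only [phi, Matrix.of_apply, if_neg hi']
      split_ifs with h8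
      · rw [h8, mul_one]
      · rw [mul_zero]
    rw [Finset.sum_congr rfl h7, Finset.sum_ite_eq']
    by_cases hk : k = β
    · simp [hk]
    · simp [hk]
  rw [h6]
  simp only [phi, Matrix.of_apply, if_true]
  by_cases hk : k = β
  · simp only [hk, if_true]
    rw [div_self hβ]
    norm_num
  · simp only [if_neg hk]
    field_simp
    ring

/-- the monomials of the image of a monomial -/
theorem LowestA_monomial {M : ℕ} {ι : Type} [Fintype ι] [DecidableEq ι]
    (G : Fin M → Matrix ι ι ℚ) (l₀ β : ι) (hG : ∀ j k, G j l₀ k = if k = β then 1 else 0)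
    (f : (Fin M × ι) →₀ ℕ) (a : ℚ) (e : (Fin M × ι) →₀ ℕ)
    (he : e ∈ (lsub G (monomial f a)).support) (j : Fin M) : f (j, l₀) ≤ e (j, β) := by
  have h1 : lsub G (monomial f a) = monomial (Finsupp.single (j, β) (f (j, l₀))) 1 *
      (C a * ∏ x ∈ Finset.univ.erase (j, l₀), (∑ k, C (G x.1 x.2 k) * X (x.1, k)) ^ f x) := by
    have h2 : (∑ k, C (G j l₀ k) * X (j, k) : MvPolynomial (Fin M × ι) ℚ) = X (j, β) := by
      have h3 : ∀ k : ι, (C (G j l₀ k) * X (j, k) : MvPolynomial (Fin M × ι) ℚ) =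
          if k = β then X (j, k) else 0 := by
        intro k
        rw [hG]
        split_ifs <;> simp
      simp only [h3, Finset.sum_ite_eq', Finset.mem_univ, if_true]
    rw [lsub, aeval_monomial, Finsupp.prod_fintype _ _ (fun i => pow_zero _),
      ← Finset.mul_prod_erase _ _ (Finset.mem_univ (j, l₀)), h2, X_pow_eq_monomial,
      algebraMap_eq]
    ring
  rw [mem_support_iff, h1, coeff_monomial_mul'] at he
  split_ifs at he with h2
  · have := h2 (j, β)
    rwa [Finsupp.single_eq_same] at this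
  · exact absurd rfl he

/-- Let `S = lsub F P`, so `P = lsub F⁻¹ S` and `lsub (phi ..) P = lsub (F⁻¹ * phi ..) S`
(`lsub_lsub`). The row `l₀` of `F⁻¹` is `b / b β` (since `b · F l = 0` for `l ≠ l₀` and
`b · F l₀ = b β`), and `(b / b β) * phi β (- b k / b β) = e_β`. So this substitution maps `x_{j l₀}` to
`x_{j β}`; every monomial `x ^ f` of `S` is mapped to a multiple of `∏ j, x_{j β} ^ f (j, l₀)`, whose
monomials `e` have `f (j, l₀) ≤ e (j, β)`. -/
theorem support_phi {M : ℕ} {ι : Type} [Fintype ι] [DecidableEq ι] (d : Fin M → ℕ)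
    (P : MvPolynomial (Fin M × ι) ℚ) (F : Fin M → Matrix ι ι ℚ) (hF : ∀ j, (F j).det ≠ 0)
    (b : Fin M → ι → ℚ) (l₀ β : ι) (hb : ∀ j l, l ≠ l₀ → ∑ i, b j i * F j i l = 0)
    (hβ : ∀ j, b j β ≠ 0) (hF0 : ∀ j i, F j i l₀ = if i = β then 1 else 0) {θ : ℝ}
    (h : ∀ e ∈ (lsub F P).support, θ < ∑ j, (e (j, l₀) : ℝ) / d j) :
    ∀ e ∈ (lsub (fun j => phi β (fun k => -b j k / b j β)) P).support,
      θ < ∑ j, (e (j, β) : ℝ) / d j := by
  intro e he
  have hu : ∀ j, IsUnit (F j).det := fun j => isUnit_iff_ne_zero.mpr (hF j)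
  have h1 : lsub (fun j => (F j)⁻¹) (lsub F P) = P := by
    rw [lsub_lsub]
    have : (fun j => F j * (F j)⁻¹) = fun _ => (1 : Matrix ι ι ℚ) := by
      funext j
      exact Matrix.mul_nonsing_inv _ (hu j)
    rw [this, lsub_one]
  obtain ⟨S, hS⟩ : ∃ S, S = lsub F P := ⟨_, rfl⟩
  have h2 : lsub (fun j => phi β (fun k => -b j k / b j β)) P =
      lsub (fun j => (F j)⁻¹ * phi β (fun k => -b j k / b j β)) S := by
    rw [hS, ← lsub_lsub, h1]
  rw [h2, S.as_sum, map_sum] at he
  obtain ⟨f, hf, hef⟩ := Finset.mem_biUnion.mp (support_sum he)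
  have h3 := h f (hS ▸ hf)
  refine h3.trans_le (Finset.sum_le_sum fun j _ => ?_)
  have h4 := LowestA_monomial (fun j => (F j)⁻¹ * phi β (fun k => -b j k / b j β)) l₀ β
    (fun j k => LowestA_row (F j) (hF j) (b j) l₀ β (hb j) (hβ j) (hF0 j) k) f _ e hef j
  exact div_le_div_of_nonneg_right (by exact_mod_cast h4) (Nat.cast_nonneg _)

end Pool.Agent.Lib.MP_d0d59f_nt.Sb

end

section

namespace Pool.Agent.Lib.MP_d0d59f_nt.Sb

open MvPolynomial

section low

variable {M : ℕ} {ι : Type} [Fintype ι] [DecidableEq ι]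

/-- the exponents of the other variables -/
noncomputable def lowO (α β : ι) (e : (Fin M × ι) →₀ ℕ) : (Fin M × ι) →₀ ℕ :=
  Finsupp.equivFunOnFinite.symm fun x => if x.2 = β then 0 else if x.2 = α then 0 else e x

/-- the exponents of the variables of index `β` -/
noncomputable def lowB (β : ι) (e : (Fin M × ι) →₀ ℕ) : Fin M →₀ ℕ :=
  Finsupp.equivFunOnFinite.symm fun j => e (j, β)

/-- the inhomogeneous polynomial, as a polynomial in the other variables -/
noncomputable def lowPsi (α β : ι) :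
    MvPolynomial (Fin M × ι) ℚ →ₐ[ℚ] MvPolynomial (Fin M × ι) (MvPolynomial (Fin M) ℚ) :=
  aeval fun x => if x.2 = β then C (X x.1) else if x.2 = α then 1 else X x

theorem lowO_apply (α β : ι) (e : (Fin M × ι) →₀ ℕ) (x : Fin M × ι) :
    lowO α β e x = if x.2 = β then 0 else if x.2 = α then 0 else e x := rfl

omit [Fintype ι] [DecidableEq ι] in
theorem lowB_apply (β : ι) (e : (Fin M × ι) →₀ ℕ) (j : Fin M) : lowB β e j = e (j, β) := rfl

theorem low_prod (α β : ι) (e : (Fin M × ι) →₀ ℕ)
    (G : Fin M → MvPolynomial (Fin M × ι) (MvPolynomial (Fin M) ℚ)) :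
    ∏ x : Fin M × ι, (if x.2 = β then G x.1 else if x.2 = α then 1 else X x) ^ e x =
      monomial (lowO α β e) 1 * ∏ j, G j ^ lowB β e j := by
  have h1 : ∀ x : Fin M × ι, (if x.2 = β then G x.1 else if x.2 = α then 1 else X x) ^ e x =
      X x ^ (lowO α β e x) * (if x.2 = β then G x.1 ^ e x else 1) := by
    intro x
    rw [lowO_apply]
    split_ifs
    · rw [pow_zero, one_mul]
    · rw [pow_zero, one_mul, one_pow]
    · rw [mul_one]
  rw [Finset.prod_congr rfl fun x _ => h1 x, Finset.prod_mul_distrib]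
  congr 1
  · rw [monomial_eq, C_1, one_mul, Finsupp.prod_fintype _ _ (fun _ => pow_zero _)]
  · rw [Fintype.prod_prod_type]
    refine Finset.prod_congr rfl fun j _ => ?_
    change ∏ i : ι, (if i = β then G j ^ e (j, i) else 1) = _
    rw [Finset.prod_ite_eq' Finset.univ β]
    simp [lowB_apply]

theorem lowPsi_monomial (α β : ι) (e : (Fin M × ι) →₀ ℕ) (a : ℚ) :
    lowPsi α β (monomial e a) = monomial (lowO α β e) (monomial (lowB β e) a) := by
  rw [lowPsi, aeval_monomial, Finsupp.prod_fintype _ _ (fun _ => pow_zero _),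
    low_prod α β e (fun j => C (X j))]
  have h1 : ∏ j, (C (X j) : MvPolynomial (Fin M × ι) (MvPolynomial (Fin M) ℚ)) ^ lowB β e j =
      C (monomial (lowB β e) 1) := by
    rw [monomial_eq, C_1, one_mul, Finsupp.prod_fintype _ _ (fun _ => pow_zero _), map_prod]
    refine Finset.prod_congr rfl fun j _ => ?_
    rw [C_pow]
  rw [h1]
  have h2 : (algebraMap ℚ (MvPolynomial (Fin M × ι) (MvPolynomial (Fin M) ℚ))) a = C (C a) := rfl
  rw [h2, mul_comm (monomial (lowO α β e) 1), C_mul_monomial, mul_one, C_mul_monomial,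
    C_mul_monomial, mul_one]

/-- a linear form in the other variables -/
noncomputable def lowL (α β : ι) (c : ι → ℚ) (j : Fin M) :
    MvPolynomial (Fin M × ι) (MvPolynomial (Fin M) ℚ) :=
  ∑ k, if k = β then 0 else if k = α then 0 else C (C (c k)) * X (j, k)

theorem low_cc_lowL (α β : ι) (c : ι → ℚ) (j : Fin M) :
    constantCoeff (lowL α β c j) = 0 := by
  rw [lowL, map_sum]
  refine Finset.sum_eq_zero fun k _ => ?_
  split_ifs
  · exact map_zero _
  · exact map_zero _
  · rw [map_mul, constantCoeff_X, mul_zero]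

theorem low_sum (α β : ι) (hαβ : α ≠ β) (c : ι → ℚ) (x : Fin M × ι) :
    lowPsi α β (∑ k, C (phi β c x.2 k) * X (x.1, k)) =
      if x.2 = β then C (X x.1 + C (c α)) + lowL α β c x.1 else if x.2 = α then 1 else X x := by
  have hC : ∀ q : ℚ, lowPsi α β (C q : MvPolynomial (Fin M × ι) ℚ) = C (C q) := fun q => by
    rw [← algebraMap_eq]
    exact AlgHom.commutes _ _
  have hX : ∀ y : Fin M × ι, lowPsi α β (X y : MvPolynomial (Fin M × ι) ℚ) =
      if y.2 = β then C (X y.1) else if y.2 = α then 1 else X y := fun y => by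
    rw [lowPsi, aeval_X]
  rw [map_sum]
  simp only [map_mul, hC, hX]
  by_cases h : x.2 = β
  · rw [if_pos h]
    have h1 : ∀ k : ι, C (C (phi β c x.2 k)) * (if k = β then C (X x.1) else if k = α then 1 else
        X (x.1, k)) = (if k = β then C (X x.1) else 0) + (if k = α then C (C (c α)) else 0) +
        (if k = β then 0 else if k = α then 0 else C (C (c k)) * X (x.1, k) :
        MvPolynomial (Fin M × ι) (MvPolynomial (Fin M) ℚ)) := by
      intro k
      have h2 : phi β c x.2 k = if k = β then 1 else c k := by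
        rw [phi, Matrix.of_apply, if_pos h]
      rw [h2]
      by_cases hk : k = β
      · have hk' : k ≠ α := fun h3 => hαβ (h3 ▸ hk)
        rw [if_pos hk, if_pos hk, if_pos hk, if_neg hk', if_pos hk]
        simp
      · by_cases hk' : k = α
        · subst hk'
          rw [if_neg hk, if_neg hk, if_neg hk, if_neg hk, if_pos rfl, if_pos rfl, if_pos rfl]
          simp
        · rw [if_neg hk, if_neg hk, if_neg hk, if_neg hk, if_neg hk', if_neg hk', if_neg hk']
          simp
    rw [Finset.sum_congr rfl fun k _ => h1 k, Finset.sum_add_distrib, Finset.sum_add_distrib,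
      Finset.sum_ite_eq', Finset.sum_ite_eq', if_pos (Finset.mem_univ _),
      if_pos (Finset.mem_univ _), C_add]
    rfl
  · rw [if_neg h]
    have h2 : ∀ k, phi β c x.2 k = if x.2 = k then 1 else 0 := by
      intro k
      rw [phi, Matrix.of_apply, if_neg h]
    rw [Finset.sum_eq_single x.2]
    · rw [h2, if_pos rfl, if_neg h]
      simp
    · intro k _ hk
      rw [h2, if_neg (Ne.symm hk)]
      simp
    · intro h3
      exact absurd (Finset.mem_univ _) h3

theorem lowPsi_lsub_monomial (α β : ι) (hαβ : α ≠ β) (c : Fin M → ι → ℚ)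
    (e : (Fin M × ι) →₀ ℕ) (a : ℚ) :
    lowPsi α β (lsub (fun j => phi β (c j)) (monomial e a)) =
      monomial (lowO α β e) (C a) *
        ∏ j, (C (X j + C (c j α)) + lowL α β (c j) j) ^ lowB β e j := by
  rw [lsub, aeval_monomial, Finsupp.prod_fintype _ _ (fun _ => pow_zero _), map_mul, map_prod]
  have h1 : ∀ x : Fin M × ι, lowPsi α β ((∑ k, C (phi β (c x.1) x.2 k) * X (x.1, k)) ^ e x) =
      (if x.2 = β then C (X x.1 + C (c x.1 α)) + lowL α β (c x.1) x.1 else
        if x.2 = α then 1 else X x) ^ e x := by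
    intro x
    rw [map_pow, low_sum α β hαβ (c x.1) x]
  rw [Finset.prod_congr rfl fun x _ => h1 x,
    low_prod α β e (fun j => C (X j + C (c j α)) + lowL α β (c j) j), ← mul_assoc]
  congr 1
  have h2 : lowPsi α β (algebraMap ℚ (MvPolynomial (Fin M × ι) ℚ) a) = C (C a) :=
    AlgHom.commutes _ _
  rw [h2, C_mul_monomial, mul_one]

theorem low_shift_monomial (ξ : Fin M → ℚ) (f : Fin M →₀ ℕ) (a : ℚ) :
    shift ξ (monomial f a) = C a * ∏ j, (X j + C (ξ j)) ^ f j := by
  rw [shift, aeval_monomial, Finsupp.prod_fintype _ _ (fun _ => pow_zero _)]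
  rfl

theorem low_coeff (α β : ι) (hαβ : α ≠ β) (c : Fin M → ι → ℚ) (μ : (Fin M × ι) →₀ ℕ)
    (e : (Fin M × ι) →₀ ℕ) (a : ℚ) (hmin : ∑ x, μ x ≤ ∑ x, lowO α β e x) :
    coeff μ (lowPsi α β (lsub (fun j => phi β (c j)) (monomial e a))) =
      if lowO α β e = μ then shift (fun j => c j α) (monomial (lowB β e) a) else 0 := by
  classical
  rw [lowPsi_lsub_monomial α β hαβ, coeff_monomial_mul']
  by_cases h : lowO α β e = μ
  · rw [if_pos h, if_pos (le_of_eq h), h, tsub_self, low_shift_monomial]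
    congr 1
    have h1 : coeff 0 (∏ j, (C (X j + C (c j α)) + lowL α β (c j) j) ^ lowB β e j) =
        constantCoeff (∏ j, (C (X j + C (c j α)) + lowL α β (c j) j) ^ lowB β e j) := rfl
    rw [h1, map_prod]
    refine Finset.prod_congr rfl fun j _ => ?_
    rw [map_pow, map_add, low_cc_lowL, add_zero, constantCoeff_C]
  · rw [if_neg h, if_neg]
    intro hle
    apply h
    have h1 : ∀ x ∈ Finset.univ, lowO α β e x ≤ μ x := fun x _ => hle x
    have h2 : ∑ x, lowO α β e x = ∑ x, μ x := le_antisymm (Finset.sum_le_sum h1) hmin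
    have h3 := (Finset.sum_eq_sum_iff_of_le h1).mp h2
    ext x
    exact h3 x (Finset.mem_univ x)

theorem low_coeff_psi (α β : ι) (Q : MvPolynomial (Fin M × ι) ℚ) (μ : (Fin M × ι) →₀ ℕ)
    (f : Fin M →₀ ℕ) (h : coeff f (coeff μ (lowPsi α β Q)) ≠ 0) :
    ∃ e ∈ Q.support, lowB β e = f := by
  classical
  by_contra hne
  push Not at hne
  apply h
  conv_lhs => rw [Q.as_sum]
  rw [map_sum, coeff_sum, coeff_sum]
  refine Finset.sum_eq_zero fun e he => ?_
  rw [lowPsi_monomial, coeff_monomial]
  split_ifs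
  · rw [coeff_monomial, if_neg (hne e he)]
  · exact coeff_zero _

/-- the exponent with given parts -/
noncomputable def lowE (α β : ι) (d : Fin M → ℕ) (μ : (Fin M × ι) →₀ ℕ) (f : Fin M →₀ ℕ) :
    (Fin M × ι) →₀ ℕ :=
  Finsupp.equivFunOnFinite.symm fun x => if x.2 = β then f x.1 else
    if x.2 = α then d x.1 - f x.1 - ∑ i, μ (x.1, i) else μ x

theorem lowE_eq (α β : ι) (hαβ : α ≠ β) {d : Fin M → ℕ} {e : (Fin M × ι) →₀ ℕ}
    (he : ∀ j, ∑ i, e (j, i) = d j) : lowE α β d (lowO α β e) (lowB β e) = e := by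
  ext ⟨j, i⟩
  change (if i = β then e (j, β) else if i = α then d j - e (j, β) - ∑ i, lowO α β e (j, i) else
    lowO α β e (j, i)) = e (j, i)
  by_cases h : i = β
  · rw [if_pos h, h]
  · rw [if_neg h]
    by_cases h' : i = α
    · rw [if_pos h', h']
      have h1 : ∀ k : ι, e (j, k) = (if k = β then e (j, β) else 0) +
          (if k = α then e (j, α) else 0) + lowO α β e (j, k) := by
        intro k
        rw [lowO_apply]
        by_cases hk : k = β
        · have hk' : k ≠ α := fun h3 => hαβ (h3 ▸ hk)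
          simp only [hk, if_true]
          rw [if_neg (Ne.symm hαβ), add_zero, add_zero]
        · by_cases hk' : k = α
          · simp only [hk', if_true]
            rw [if_neg hαβ]
            simp
          · simp [hk, hk']
      have h2 := he j
      rw [Finset.sum_congr rfl fun k _ => h1 k, Finset.sum_add_distrib, Finset.sum_add_distrib,
        Finset.sum_ite_eq', Finset.sum_ite_eq', if_pos (Finset.mem_univ _),
        if_pos (Finset.mem_univ _)] at h2
      omega
    · rw [if_neg h', lowO_apply]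
      simp only [h, h', if_false]

end low

/-- Call the variables `x_{j i}`, `i ≠ α, β`, the other variables. For an exponent `e` let `o e` be its
restriction to the other variables, and `|o e|` its sum. Let `μ` be one of the `o e`, `e ∈ P.support`,
with `|μ|` minimal. Let `F = ∑ (e ∈ P.support, o e = μ), P_e ∏ j, X_j ^ e (j, β)`. The exponent `e` is
determined by `μ` and the `e (j, β)` (`MHom`: `e (j, α) = d j - ...`), so the coefficients of `F` are
coefficients of `P`, `F ≠ 0` and the degrees are at most `d j`. Claim: for `f : Fin M → ℕ` the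
coefficient of `X ^ f` in `F (X + c α)` is the coefficient in `lsub (phi β c) P` of the monomial `e*`
with `e* (j, β) = f j`, `o e* = μ`, `e* (j, α) = d j - f j - ∑ μ (j, ·)`: expand
`∏ j, (x_{j β} + ∑ k ≠ β, c j k x_{j k}) ^ e (j, β) * (other variables and x_{j α})`; a monomial with
other part `μ` can only come from the `e` with `o e ≤ μ`, so `o e = μ` by minimality, and from the part
`(x_{j β} + c j α x_{j α}) ^ e (j, β)`, without other variables. So the monomials `f` of
`F (X + c α)` satisfy `θ < ∑ f j / d j`. -/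
theorem exists_lowest {M : ℕ} {ι : Type} [Fintype ι] [DecidableEq ι] (d : Fin M → ℕ)
    (P : MvPolynomial (Fin M × ι) ℤ) (hP0 : P ≠ 0) (hP : MHom d (map (Int.castRingHom ℚ) P))
    (α β : ι) (hαβ : α ≠ β) (c : Fin M → ι → ℚ) {θ : ℝ}
    (h : ∀ e ∈ (lsub (fun j => phi β (c j)) (map (Int.castRingHom ℚ) P)).support,
      θ < ∑ j, (e (j, β) : ℝ) / d j) :
    ∃ F : MvPolynomial (Fin M) ℤ, F ≠ 0 ∧ (∀ j, degreeOf j F ≤ d j) ∧
      (∀ e, ∃ e', coeff e F = coeff e' P) ∧
      IdxGe d (fun j => c j α) θ (map (Int.castRingHom ℚ) F) := by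
  classical
  have hP' : ∀ e ∈ P.support, ∀ j, ∑ i, e (j, i) = d j := by
    intro e he
    refine hP e ?_
    rw [mem_support_iff, coeff_map]
    rw [mem_support_iff] at he
    intro h0
    apply he
    have : ((coeff e P : ℤ) : ℚ) = 0 := h0
    exact_mod_cast this
  obtain ⟨e₀, he₀, hmin⟩ := Finset.exists_min_image P.support (fun e => ∑ x, lowO α β e x)
    (support_nonempty.mpr hP0)
  set μ := lowO α β e₀ with hμ
  set F : MvPolynomial (Fin M) ℤ :=
    ∑ e ∈ P.support, if lowO α β e = μ then monomial (lowB β e) (coeff e P) else 0 with hF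
  have hμE : ∀ f, lowO α β (lowE α β d μ f) = μ := by
    intro f
    ext x
    rw [lowO_apply, hμ, lowO_apply]
    change (if x.2 = β then 0 else if x.2 = α then 0 else (if x.2 = β then f x.1 else
      if x.2 = α then d x.1 - f x.1 - ∑ i, lowO α β e₀ (x.1, i) else lowO α β e₀ x)) = _
    by_cases h1 : x.2 = β
    · simp only [h1, if_true]
    · by_cases h2 : x.2 = α
      · simp only [h1, h2, if_true, if_false]
      · simp only [h1, h2, if_false, lowO_apply]
  have hfE : ∀ f, lowB β (lowE α β d μ f) = f := by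
    intro f
    ext j
    rw [lowB_apply]
    change (if β = β then f j else _) = f j
    rw [if_pos rfl]
  have hFc : ∀ f, coeff f F = coeff (lowE α β d μ f) P := by
    intro f
    rw [hF, coeff_sum]
    by_cases hE : lowE α β d μ f ∈ P.support
    · rw [Finset.sum_eq_single (lowE α β d μ f)]
      · rw [if_pos (hμE f), coeff_monomial, if_pos (hfE f)]
      · intro e he hne
        split_ifs with h1
        · rw [coeff_monomial, if_neg]
          intro h2
          apply hne
          rw [← lowE_eq α β hαβ (hP' e he), h1, h2]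
        · exact coeff_zero _
      · intro h1
        exact absurd hE h1
    · rw [notMem_support_iff.mp hE]
      refine Finset.sum_eq_zero fun e he => ?_
      split_ifs with h1
      · rw [coeff_monomial, if_neg]
        intro h2
        apply hE
        rw [← h1, ← h2, lowE_eq α β hαβ (hP' e he)]
        exact he
      · exact coeff_zero _
  refine ⟨F, ?_, ?_, fun f => ⟨_, hFc f⟩, ?_⟩
  · intro h0
    have h1 := hFc (lowB β e₀)
    rw [h0, coeff_zero, hμ, lowE_eq α β hαβ (hP' e₀ he₀)] at h1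
    exact mem_support_iff.mp he₀ h1.symm
  · intro j
    rw [degreeOf_le_iff]
    intro f hf
    rw [mem_support_iff, hFc f] at hf
    have h1 := hP' _ (mem_support_iff.mpr hf) j
    have h2 : lowE α β d μ f (j, β) = f j := DFunLike.congr_fun (hfE f) j
    rw [← h2, ← h1]
    exact Finset.single_le_sum (f := fun i => lowE α β d μ f (j, i)) (fun _ _ => Nat.zero_le _)
      (Finset.mem_univ β)
  · intro f hf
    have hkey : coeff μ (lowPsi α β (lsub (fun j => phi β (c j)) (map (Int.castRingHom ℚ) P))) =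
        shift (fun j => c j α) (map (Int.castRingHom ℚ) F) := by
      have h1 : map (Int.castRingHom ℚ) P =
          ∑ e ∈ P.support, monomial e ((coeff e P : ℤ) : ℚ) := by
        conv_lhs => rw [P.as_sum]
        rw [map_sum]
        refine Finset.sum_congr rfl fun e _ => ?_
        rw [map_monomial]
        rfl
      have h2 : map (Int.castRingHom ℚ) F = ∑ e ∈ P.support,
          if lowO α β e = μ then monomial (lowB β e) ((coeff e P : ℤ) : ℚ) else 0 := by
        rw [hF, map_sum]
        refine Finset.sum_congr rfl fun e _ => ?_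
        split_ifs
        · rw [map_monomial]
          rfl
        · exact map_zero _
      rw [h1, h2, map_sum, map_sum, map_sum, coeff_sum]
      refine Finset.sum_congr rfl fun e he => ?_
      rw [low_coeff α β hαβ c μ e _ (hmin e he)]
      split_ifs
      · rfl
      · exact (map_zero _).symm
    rw [mem_support_iff, ← hkey] at hf
    obtain ⟨e, he, hef⟩ := low_coeff_psi α β _ μ f hf
    have h1 := h e he
    refine le_of_lt (h1.trans_le (le_of_eq (Finset.sum_congr rfl fun j _ => ?_)))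
    rw [← hef, lowB_apply]

end Pool.Agent.Lib.MP_d0d59f_nt.Sb

end
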