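import Pool.Agent.Lib.MP_d0d59f_nt.Sub.AuxPoly
import Pool.Agent.Lib.MP_d0d59f_nt.Sub.Estimates
import Pool.Agent.Lib.MP_d0d59f_nt.Sub.RothLemma
import Pool.Agent.Lib.MP_d0d59f_nt.Sub.AbsValues

/-!
The theorem on hyperplanes for sequences of levels.
-/

section

namespace Pool.Agent.Lib.MP_d0d59f_nt.Sb

open MvPolynomial Auto

/-- the data at one level `L` -/
structure LevelData {ι : Type} [Fintype ι] [DecidableEq ι] (a : Fin 3 → ι → ℝ) (δ η ε : ℝ)
    (l₀ α β : ι) (L : ℕ) (A : Fin 3 → Matrix ι ι ℚ) (F : Matrix ι ι ℚ) (b : ι → ℚ) : Prop where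
  det : ∀ v, (A v).det ≠ 0
  htA : ∀ v i j, (ht (A v i j) : ℝ) ≤ Real.exp (ε * L)
  htA' : ∀ v i j, (ht ((A v)⁻¹ i j) : ℝ) ≤ Real.exp (ε * L)
  mem : ∀ i j, F i j ∈ Z6
  detF : F.det ≠ 0
  small : ∀ v i l, l ≠ l₀ → absv v ((A v * F) i l) ≤ Real.exp ((a v i - δ) * L)
  ort : ∀ l, l ≠ l₀ → ∑ i, b i * F i l = 0
  ne : b β ≠ 0
  ht_b : Real.exp (η * L) ≤ (ht (b α / b β) : ℝ)

/-- If `F x = 0` then `0 = b · F x = b β x l₀`, so `x l₀ = 0` and the old matrix has `F x = 0`. -/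
theorem LevelData.det_update {ι : Type} [Fintype ι] [DecidableEq ι] {a : Fin 3 → ι → ℝ}
    {δ η ε : ℝ} {l₀ α β : ι} {L : ℕ} {A : Fin 3 → Matrix ι ι ℚ} {F : Matrix ι ι ℚ} {b : ι → ℚ}
    (h : LevelData a δ η ε l₀ α β L A F b) :
    (F.updateCol l₀ (Pi.single β 1)).det ≠ 0 := by
  intro hdet
  obtain ⟨x, hx0, hx⟩ := Matrix.exists_mulVec_eq_zero_iff.2 hdet
  have hcol : ∀ i, ∑ l, (F.updateCol l₀ (Pi.single β 1)) i l * x l = 0 := by
    intro i
    have := congrFun hx i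
    rw [Pi.zero_apply] at this
    rw [← this]
    rfl
  have hzero : x l₀ = 0 := by
    have h1 : ∑ i, b i * ∑ l, (F.updateCol l₀ (Pi.single β 1)) i l * x l = 0 := by
      refine Finset.sum_eq_zero (fun i _ => ?_)
      rw [hcol i, mul_zero]
    have h2 : ∑ i, b i * ∑ l, (F.updateCol l₀ (Pi.single β 1)) i l * x l =
        ∑ l, (∑ i, b i * (F.updateCol l₀ (Pi.single β 1)) i l) * x l := by
      simp only [Finset.mul_sum, Finset.sum_mul]
      rw [Finset.sum_comm]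
      refine Finset.sum_congr rfl (fun l _ => Finset.sum_congr rfl (fun i _ => ?_))
      ring
    have h3 : ∑ l, (∑ i, b i * (F.updateCol l₀ (Pi.single β 1)) i l) * x l = b β * x l₀ := by
      rw [Finset.sum_eq_single l₀]
      · congr 1
        rw [Finset.sum_eq_single β]
        · rw [Matrix.updateCol_self, Pi.single_eq_same, mul_one]
        · intro i _ hi
          rw [Matrix.updateCol_self, Pi.single_eq_of_ne hi, mul_zero]
        · intro hh
          exact absurd (Finset.mem_univ β) hh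
      · intro l _ hl
        have h4 : ∑ i, b i * (F.updateCol l₀ (Pi.single β 1)) i l = ∑ i, b i * F i l := by
          refine Finset.sum_congr rfl (fun i _ => ?_)
          rw [Matrix.updateCol_ne hl]
        rw [h4, h.ort l hl, zero_mul]
      · intro hh
        exact absurd (Finset.mem_univ l₀) hh
    rw [h2, h3] at h1
    exact (mul_eq_zero.1 h1).resolve_left h.ne
  have hFx : F.mulVec x = 0 := by
    funext i
    have h1 : F.mulVec x i = ∑ l, F i l * x l := rfl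
    rw [h1, Pi.zero_apply, ← hcol i]
    refine Finset.sum_congr rfl (fun l _ => ?_)
    by_cases hl : l = l₀
    · rw [hl, hzero, mul_zero, mul_zero]
    · rw [Matrix.updateCol_ne hl]
  exact h.detF (Matrix.exists_mulVec_eq_zero_iff.1 ⟨x, hx0, hFx⟩)

/-- The parameters: for all levels with `q ≤ L j` and `q * L j ≤ L i` (`i < j`) there are `D ≥ 1` and
`d j > 0` with `D ≤ d j * L j ≤ (1 + η) D`, `∑ d j ≤ τ D` and `d i ≤ τ * d j` (`i < j`),
`d i ≤ τ D`. (`D = ⌈(max L) / η⌉`, `d j = ⌈D / L j⌉`; `d j ≤ 2 D / L j ≤ 2 D / q`; `q` large in terms of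
`η`, `τ`, `M`.) -/
theorem exists_degrees (M : ℕ) {η τ : ℝ} (hη : 0 < η) (hτ : 0 < τ) : ∃ q : ℕ, 0 < q ∧
    ∀ L : Fin M → ℕ, (∀ j, q ≤ L j) → (∀ i j, i < j → q * L j ≤ L i) →
    ∃ (D : ℝ) (d : Fin M → ℕ), 1 ≤ D ∧ (∀ j, 0 < d j) ∧ (∀ j, D ≤ d j * L j) ∧
      (∀ j, (d j : ℝ) * L j ≤ (1 + η) * D) ∧ ∑ j, (d j : ℝ) ≤ τ * D ∧
      ∀ i j, i < j → (d i : ℝ) ≤ τ * d j := by
  obtain ⟨q, hq⟩ := exists_nat_gt (((M : ℝ) + 1) * (1 + η) / τ)
  have hq0 : (0 : ℝ) < q := lt_of_le_of_lt (by positivity) hq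
  have hq1 : 0 < q := by exact_mod_cast hq0
  have hqτ : ((M : ℝ) + 1) * (1 + η) < q * τ := (div_lt_iff₀ hτ).1 hq
  refine ⟨q, hq1, ?_⟩
  intro L hL hLL
  have hLpos : ∀ j, (0 : ℝ) < L j := fun j => by exact_mod_cast lt_of_lt_of_le hq1 (hL j)
  have hLq : ∀ j, (q : ℝ) ≤ L j := fun j => by exact_mod_cast hL j
  obtain ⟨D, hD1, hDL⟩ : ∃ D : ℝ, 1 ≤ D ∧ ∀ j, (L j : ℝ) ≤ η * D := by
    refine ⟨max 1 ((∑ j, (L j : ℝ)) / η), le_max_left _ _, fun j => ?_⟩
    have h1 : (∑ j, (L j : ℝ)) / η ≤ max 1 ((∑ j, (L j : ℝ)) / η) := le_max_right _ _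
    rw [div_le_iff₀ hη] at h1
    have h2 : (L j : ℝ) ≤ ∑ j, (L j : ℝ) :=
      Finset.single_le_sum (f := fun j => (L j : ℝ)) (fun i _ => (hLpos i).le) (Finset.mem_univ j)
    linarith
  have hD0 : 0 < D := by linarith
  have hlow : ∀ j, D ≤ (⌈D / L j⌉₊ : ℝ) * L j := by
    intro j
    have := Nat.le_ceil (D / (L j : ℝ))
    rwa [div_le_iff₀ (hLpos j)] at this
  have hup : ∀ j, (⌈D / L j⌉₊ : ℝ) * L j ≤ (1 + η) * D := by
    intro j
    have h1 := (Nat.ceil_lt_add_one (div_pos hD0 (hLpos j)).le).le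
    have h2 : (⌈D / L j⌉₊ : ℝ) * L j ≤ (D / L j + 1) * L j :=
      mul_le_mul_of_nonneg_right h1 (hLpos j).le
    have h3 : (D / L j + 1) * L j = D + L j := by
      have := (hLpos j).ne'
      field_simp
    have h4 := hDL j
    linarith
  refine ⟨D, fun j => ⌈D / L j⌉₊, hD1, ?_, hlow, hup, ?_, ?_⟩
  · intro j
    exact Nat.ceil_pos.2 (div_pos hD0 (hLpos j))
  · have h1 : ∀ j, (⌈D / L j⌉₊ : ℝ) ≤ (1 + η) * D / q := by
      intro j
      rw [le_div_iff₀ hq0]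
      calc (⌈D / L j⌉₊ : ℝ) * q ≤ (⌈D / L j⌉₊ : ℝ) * L j :=
            mul_le_mul_of_nonneg_left (hLq j) (Nat.cast_nonneg _)
        _ ≤ (1 + η) * D := hup j
    have h2 : ∑ j : Fin M, (⌈D / L j⌉₊ : ℝ) ≤ M * ((1 + η) * D / q) := by
      refine (Finset.sum_le_sum (fun j _ => h1 j)).trans ?_
      rw [Finset.sum_const, Finset.card_univ, Fintype.card_fin, nsmul_eq_mul]
    refine h2.trans ?_
    rw [mul_div_assoc', div_le_iff₀ hq0]
    have h3 : (M : ℝ) * (1 + η) ≤ q * τ := by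
      have : (M : ℝ) * (1 + η) ≤ ((M : ℝ) + 1) * (1 + η) := by
        have : 0 < 1 + η := by linarith
        nlinarith
      linarith
    nlinarith
  · intro i j hij
    have h1 : (q : ℝ) * L j ≤ L i := by exact_mod_cast hLL i j hij
    have h2 : (⌈D / L i⌉₊ : ℝ) * (q * L j) ≤ (1 + η) * ((⌈D / L j⌉₊ : ℝ) * L j) := by
      calc (⌈D / L i⌉₊ : ℝ) * (q * L j) ≤ (⌈D / L i⌉₊ : ℝ) * L i :=
            mul_le_mul_of_nonneg_left h1 (Nat.cast_nonneg _)
        _ ≤ (1 + η) * D := hup i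
        _ ≤ (1 + η) * ((⌈D / L j⌉₊ : ℝ) * L j) :=
            mul_le_mul_of_nonneg_left (hlow j) (by linarith)
    have h3 : (⌈D / L i⌉₊ : ℝ) * q * L j ≤ (1 + η) * (⌈D / L j⌉₊ : ℝ) * L j := by
      linarith
    have h4 : (⌈D / L i⌉₊ : ℝ) * q ≤ (1 + η) * (⌈D / L j⌉₊ : ℝ) :=
      le_of_mul_le_mul_right h3 (hLpos j)
    have h5 : (1 + η) ≤ q * τ := by
      have : (1 + η) ≤ ((M : ℝ) + 1) * (1 + η) := by
        have h6 : 0 < 1 + η := by linarith
        have h7 : (0 : ℝ) ≤ M := Nat.cast_nonneg _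
        nlinarith
      linarith
    have h6 : (⌈D / L i⌉₊ : ℝ) * q ≤ q * τ * (⌈D / L j⌉₊ : ℝ) :=
      h4.trans (mul_le_mul_of_nonneg_right h5 (Nat.cast_nonneg _))
    have h7 : (⌈D / L i⌉₊ : ℝ) * q ≤ (τ * (⌈D / L j⌉₊ : ℝ)) * q := by linarith
    exact le_of_mul_le_mul_right h7 hq0

end Pool.Agent.Lib.MP_d0d59f_nt.Sb

end

section

namespace Pool.Agent.Lib.MP_d0d59f_nt.Sb

open MvPolynomial Auto

/-- The coefficients of small index vanish. Let `n = card ι`, `F' j = (F j).updateCol l₀ (Pi.single β 1)`.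
`coeff_lsub_le` for `absv v`, `A j v`, `F' j`, `α = a v`, `ε' = ε`, `η = ε = ε₀`, `H` (`|integer|_v ≤ 1 ≤ exp H`
for `v = 1, 2`; `(A j v * F' j) i l₀ = A j v i β`, of value at most `ht ≤ exp (ε L) ≤
exp ((a v i - δ + c) L)` as `a v i - δ + c ≥ 1 ≥ ε`; `htBound_absv`: `|q|_v ≤ ht q`)
gives a bound for `|coeff e (lsub F' P)|_v`; the sum over `v` of the exponents is `< 0`: the terms
`D M / n * ∑ a v i` cancel, `- 3 δ D M` is there, `3 H + 9 log n ∑ d + 3 ε (1 + ε₀) D M ≤ δ D M` (`hsum`),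
`3 n K (ε₀ + ε₀) D M ≤ 6 δ D M / 20`, `3 c (1 + ε₀) D s M ≤ 6 δ D M / 40`. The coefficient is in
`ℤ[1/6]` (`coeff_lsub_mem`), so it is zero by `prod_absv` (the product of the three values is `< 1`). -/
theorem coeff_eq_zero {M : ℕ} {ι : Type} [Fintype ι] [DecidableEq ι] [Nonempty ι]
    {a : Fin 3 → ι → ℝ} (ha : ∑ v, ∑ i, a v i = 0) {δ η K c ε₀ ε s D H : ℝ} (hδ : 0 < δ)
    (hK : ∀ v i, |a v i| ≤ K) (hc : c = K + δ + 1) (hε₀ : 0 < ε₀) (hε₀1 : ε₀ ≤ 1)
    (hε₀2 : 20 * ((Fintype.card ι : ℝ) * K + 1) * ε₀ ≤ δ) (hs : 0 ≤ s) (hs2 : 40 * c * s ≤ δ)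
    (hε : 0 < ε) (hε1 : ε ≤ 1) (hM : 1 ≤ M) (hD : 1 ≤ D) {d : Fin M → ℕ} (hd : ∀ j, 0 < d j)
    {L : Fin M → ℕ} (h1 : ∀ j, D ≤ d j * L j) (h2 : ∀ j, (d j : ℝ) * L j ≤ (1 + ε₀) * D)
    (hH : 0 ≤ H)
    (hsum : 3 * H + 9 * Real.log (Fintype.card ι) * ∑ j, (d j : ℝ) + 6 * ε * D * M ≤ δ * D * M)
    {l₀ α β : ι} {A : Fin M → Fin 3 → Matrix ι ι ℚ} {F : Fin M → Matrix ι ι ℚ}
    {b : Fin M → ι → ℚ} (hdat : ∀ j, LevelData a δ η ε l₀ α β (L j) (A j) (F j) (b j))
    {P : MvPolynomial (Fin M × ι) ℤ} (hP : MHom d (map (Int.castRingHom ℚ) P))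
    (hcoef : ∀ e, |((coeff e P : ℤ) : ℝ)| ≤ Real.exp H)
    (hbad : ∀ v, ∀ e ∈ (lsub (fun j => (A j v)⁻¹) (map (Int.castRingHom ℚ) P)).support,
      ¬ Bad ε₀ d (fun j i => e (j, i))) (e : (Fin M × ι) →₀ ℕ)
    (he : ∑ j, (e (j, l₀) : ℝ) / d j ≤ s * M) :
    coeff e (lsub (fun j => (F j).updateCol l₀ (Pi.single β 1)) (map (Int.castRingHom ℚ) P)) = 0 := by
  classical
  set n : ℝ := (Fintype.card ι : ℝ) with hn
  have hn1 : 1 ≤ n := by
    rw [hn]
    exact_mod_cast Fintype.card_pos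
  have hlog : 0 ≤ Real.log n := Real.log_nonneg hn1
  have hK0 : 0 ≤ K := (abs_nonneg _).trans (hK 0 α)
  have hc0 : 0 ≤ c := by rw [hc]; positivity
  have hD0 : 0 < D := by linarith
  have hM0 : (1 : ℝ) ≤ M := by exact_mod_cast hM
  set P' : MvPolynomial (Fin M × ι) ℚ := map (Int.castRingHom ℚ) P with hP'
  set F' : Fin M → Matrix ι ι ℚ := fun j => (F j).updateCol l₀ (Pi.single β 1) with hF'
  have hcP : ∀ e, coeff e P' = ((coeff e P : ℤ) : ℚ) := fun e => by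
    rw [hP', coeff_map]
    rfl
  set G : ℝ := H + 3 * Real.log n * ∑ j, (d j : ℝ) + ε * (1 + ε₀) * D * M +
    n * K * (ε₀ + ε₀) * D * M - δ * D * M + c * (1 + ε₀) * D * s * M with hG
  -- the estimate for every absolute value
  have hv : ∀ v, absv v (coeff e (lsub F' P')) ≤
      Real.exp (G + D * M / n * ∑ i, a v i) := by
    intro v
    have h3 := coeff_lsub_le (absv v) d hd L (D := D) (η := ε₀) (ε := ε₀) (ε' := ε) (δ := δ)
      (K := K) (c := c) (H := H) (s := s) hD0.le hε₀.le hδ.le hc0 hε.le h1 h2 (a v) (hK v)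
      (fun j => A j v) F' (fun j => (hdat j).det v) l₀ ?_ ?_ ?_ P' hP ?_ (hbad v) e he
    · refine h3.trans (Real.exp_le_exp.2 (le_of_eq ?_))
      rw [hG]
      ring
    · intro j i l hl
      have h4 : (A j v * F' j) i l = (A j v * F j) i l := by
        rw [Matrix.mul_apply, Matrix.mul_apply]
        refine Finset.sum_congr rfl fun k _ => ?_
        rw [hF']
        simp only
        rw [Matrix.updateCol_ne hl]
      change absv v ((A j v * F' j) i l) ≤ _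
      rw [h4]
      exact (hdat j).small v i l hl
    · intro j i
      have h4 : (A j v * F' j) i l₀ = A j v i β := by
        rw [Matrix.mul_apply, Finset.sum_eq_single β]
        · rw [hF']
          simp only
          rw [Matrix.updateCol_self, Pi.single_eq_same, mul_one]
        · intro k _ hk
          rw [hF']
          simp only
          rw [Matrix.updateCol_self, Pi.single_eq_of_ne hk, mul_zero]
        · intro h
          exact absurd (Finset.mem_univ _) h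
      change absv v ((A j v * F' j) i l₀) ≤ _
      rw [h4]
      refine ((htBound_absv v).le _).trans (((hdat j).htA v i β).trans (Real.exp_le_exp.2 ?_))
      have h5 : ε ≤ a v i - δ + c := by
        have := (abs_le.1 (hK v i)).1
        rw [hc]
        linarith
      gcongr
    · intro j i k
      exact ((htBound_absv v).le _).trans ((hdat j).htA' v i k)
    · intro e'
      rw [hcP e']
      by_cases hv0 : v = 0
      · rw [hv0, absv_zero_eq, Rat.cast_intCast]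
        exact hcoef e'
      · exact (absv_int_le v hv0 _).trans (Real.one_le_exp hH)
  by_contra h0
  have hmem : coeff e (lsub F' P') ∈ Z6 := by
    refine coeff_lsub_mem Z6 ?_ ?_ e
    · intro j i k
      rw [hF']
      simp only
      by_cases hk : k = l₀
      · rw [hk, Matrix.updateCol_self]
        by_cases hi : i = β
        · rw [hi, Pi.single_eq_same]
          exact Z6.one_mem
        · rw [Pi.single_eq_of_ne hi]
          exact Z6.zero_mem
      · rw [Matrix.updateCol_ne hk]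
        exact (hdat j).mem i k
    · intro e'
      rw [hcP e']
      exact int_mem_Z6 _
  have h3 := prod_absv _ hmem h0
  have h4 : ∏ v, absv v (coeff e (lsub F' P')) ≤ ∏ v, Real.exp (G + D * M / n * ∑ i, a v i) :=
    Finset.prod_le_prod (fun v _ => (absv v).nonneg _) fun v _ => hv v
  rw [← Real.exp_sum] at h4
  have h5 : ∑ v : Fin 3, (G + D * M / n * ∑ i, a v i) = 3 * G := by
    rw [Finset.sum_add_distrib, ← Finset.mul_sum, ha]
    simp
  rw [h5] at h4
  have h6 : 3 * G < 0 := by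
    have i1 : ε * (1 + ε₀) * (D * M) ≤ ε * (1 + 1) * (D * M) := by gcongr
    have i2 : 20 * (n * K + 1) * ε₀ * (D * M) ≤ δ * (D * M) := by gcongr
    have i3 : c * (1 + ε₀) * s * (D * M) ≤ c * (1 + 1) * s * (D * M) := by gcongr
    have i4 : 40 * c * s * (D * M) ≤ δ * (D * M) := by gcongr
    have i5 : 0 < δ * (D * M) := by positivity
    have i6 : 0 ≤ ε₀ * (D * M) := by positivity
    rw [hG]
    linarith
  have h7 : Real.exp (3 * G) < 1 := Real.exp_lt_one_iff.2 h6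
  linarith

end Pool.Agent.Lib.MP_d0d59f_nt.Sb

end

section

namespace Pool.Agent.Lib.MP_d0d59f_nt.Sb

open MvPolynomial Auto

/-- The main theorem. Proof. If `α = β` then `ht (b α / b β) = 1`, contradiction for `L ≥ q ≥ 1`; let
`α ≠ β`, `n = card ι ≥ 2`, `K = max |a v i|`, `c = K + δ + 1`. Choose in this order:
`ε₀ = min 1 (δ / (20 (n K + 1)))` (for `Bad`, and for the `η` of `exists_degrees`),
`s = δ / (40 c)`; `M ≥ 1` from `exists_aux` (for `ε₀`); `σ` from `roth M` for `θ = s M`;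
`ε > 0` with `ε ≤ 1`, `12 (n ^ 2 + 2) ε ≤ δ`, `2 (n ^ 2 + 1) M ε ≤ σ η / 4`; `τ > 0` with
`τ ≤ σ`, `30 τ log n ≤ δ M` and `(2 log n + (M + 1) ^ 2) τ ≤ σ η / 4`; `q` from
`exists_degrees M ε₀ τ`.
Let levels with data be given. `D, d` from `exists_degrees`; `P` from `exists_aux` with
`h j = exp (ε L j)`: the coefficients of `P` are at most `exp H`,
`H = 2 log n ∑ d + (n ^ 2 + 1) ε ∑ d_j L_j ≤ 2 log n τ D + 2 (n ^ 2 + 1) ε M D`. So
`3 H + 9 log n ∑ d + 6 ε D M ≤ 15 log n τ D + 6 (n ^ 2 + 2) ε M D ≤ δ D M`. By `coeff_eq_zero`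
`s M < ∑ e (j, l₀) / d j` for all monomials of `lsub F' P`. `support_phi` (for `F'`:
`LevelData.det_update`, `ort`), `exists_lowest`: a polynomial `F₀` in `M` variables of index `≥ s M` at
the points `- b α / b β`, with coefficients at most `exp H` in absolute value, degrees `≤ d`. This
contradicts `roth M`: `H + (M + 1) ^ 2 d i ≤ σ D η ≤ σ d j (η L j) ≤ σ d j log (ht (- b α / b β))`
(`ht_neg`, `d i ≤ ∑ d ≤ τ D`). -/
theorem std_hyper {ι : Type} [Fintype ι] [DecidableEq ι] (a : Fin 3 → ι → ℝ)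
    (ha : ∑ v, ∑ i, a v i = 0) {δ η : ℝ} (hδ : 0 < δ) (hη : 0 < η) (l₀ α β : ι) :
    ∃ (ε : ℝ) (M q : ℕ), 0 < ε ∧ 0 < q ∧ ∀ L : Fin M → ℕ, (∀ j, q ≤ L j) →
      (∀ i j, i < j → q * L j ≤ L i) → ∀ (A : Fin M → Fin 3 → Matrix ι ι ℚ)
      (F : Fin M → Matrix ι ι ℚ) (b : Fin M → ι → ℚ),
      ¬ ∀ j, LevelData a δ η ε l₀ α β (L j) (A j) (F j) (b j) := by
  classical
  have hne : Nonempty ι := ⟨α⟩
  set n : ℝ := (Fintype.card ι : ℝ) with hn
  have hn1 : 1 ≤ n := by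
    rw [hn]
    exact_mod_cast Fintype.card_pos
  have hlog : 0 ≤ Real.log n := Real.log_nonneg hn1
  -- the bound for the weights
  obtain ⟨K, hK0, hK⟩ : ∃ K : ℝ, 0 ≤ K ∧ ∀ v i, |a v i| ≤ K := by
    refine ⟨∑ v, ∑ i, |a v i|, by positivity, fun v i => ?_⟩
    calc |a v i| ≤ ∑ i, |a v i| :=
          Finset.single_le_sum (f := fun i => |a v i|) (fun i _ => abs_nonneg _) (Finset.mem_univ i)
      _ ≤ ∑ v, ∑ i, |a v i| :=
          Finset.single_le_sum (f := fun v => ∑ i, |a v i|)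
            (fun v _ => Finset.sum_nonneg fun i _ => abs_nonneg _) (Finset.mem_univ v)
  obtain ⟨c, hc⟩ : ∃ c : ℝ, c = K + δ + 1 := ⟨_, rfl⟩
  have hc0 : 0 < c := by rw [hc]; positivity
  -- the first parameters
  obtain ⟨ε₀, hε₀, hε₀1, hε₀2⟩ : ∃ ε₀ : ℝ, 0 < ε₀ ∧ ε₀ ≤ 1 ∧ 20 * (n * K + 1) * ε₀ ≤ δ := by
    have h1 : 0 < 20 * (n * K + 1) := by positivity
    refine ⟨min 1 (δ / (20 * (n * K + 1))), by positivity, min_le_left _ _, ?_⟩
    calc 20 * (n * K + 1) * min 1 (δ / (20 * (n * K + 1)))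
        ≤ 20 * (n * K + 1) * (δ / (20 * (n * K + 1))) := by
          gcongr
          exact min_le_right _ _
      _ = δ := by field_simp
  obtain ⟨s, hs, hs2⟩ : ∃ s : ℝ, 0 < s ∧ 40 * c * s ≤ δ := by
    refine ⟨δ / (40 * c), by positivity, le_of_eq ?_⟩
    field_simp
  obtain ⟨M₀, hM₀⟩ := exists_aux ι hε₀
  set M : ℕ := max 1 M₀ with hM
  have hM1 : 1 ≤ M := le_max_left _ _
  have hMM : M₀ ≤ M := le_max_right _ _
  have hM1' : (1 : ℝ) ≤ (M : ℝ) := by exact_mod_cast hM1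
  obtain ⟨σ, hσ, hroth⟩ := roth M (s * M) (by positivity)
  obtain ⟨ε, hε, hε1, hε2, hε3⟩ : ∃ ε : ℝ, 0 < ε ∧ ε ≤ 1 ∧ 12 * (n ^ 2 + 2) * ε ≤ δ ∧
      2 * (n ^ 2 + 1) * M * ε ≤ σ * η / 4 := by
    have h1 : 0 < 12 * (n ^ 2 + 2) := by positivity
    have h2 : 0 < 2 * (n ^ 2 + 1) * (M : ℝ) := by positivity
    refine ⟨min 1 (min (δ / (12 * (n ^ 2 + 2))) (σ * η / 4 / (2 * (n ^ 2 + 1) * M))),
      by positivity, min_le_left _ _, ?_, ?_⟩
    · rw [mul_comm, ← le_div_iff₀ h1]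
      exact (min_le_right _ _).trans (min_le_left _ _)
    · rw [mul_comm, ← le_div_iff₀ h2]
      exact (min_le_right _ _).trans (min_le_right _ _)
  obtain ⟨τ, hτ, hτσ, hτ1, hτ2⟩ : ∃ τ : ℝ, 0 < τ ∧ τ ≤ σ ∧ 30 * τ * Real.log n ≤ δ * M ∧
      (2 * Real.log n + ((M : ℝ) + 1) ^ 2) * τ ≤ σ * η / 4 := by
    have h1 : 0 < 30 * (Real.log n + 1) := by positivity
    have h2 : 0 < 2 * Real.log n + ((M : ℝ) + 1) ^ 2 := by positivity
    refine ⟨min σ (min (δ * M / (30 * (Real.log n + 1)))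
      (σ * η / 4 / (2 * Real.log n + ((M : ℝ) + 1) ^ 2))), by positivity, min_le_left _ _, ?_, ?_⟩
    · have h3 : min σ (min (δ * M / (30 * (Real.log n + 1)))
          (σ * η / 4 / (2 * Real.log n + ((M : ℝ) + 1) ^ 2))) ≤ δ * M / (30 * (Real.log n + 1)) :=
        (min_le_right _ _).trans (min_le_left _ _)
      have h4 : 0 < min σ (min (δ * M / (30 * (Real.log n + 1)))
          (σ * η / 4 / (2 * Real.log n + ((M : ℝ) + 1) ^ 2))) := by positivity
      rw [le_div_iff₀ h1] at h3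
      nlinarith
    · rw [mul_comm, ← le_div_iff₀ h2]
      exact (min_le_right _ _).trans (min_le_right _ _)
  obtain ⟨q, hq, hdeg⟩ := exists_degrees M hε₀ hτ
  refine ⟨ε, M, q, hε, hq, fun L hLq hLL A F b hdat => ?_⟩
  -- `α ≠ β`
  have hαβ : α ≠ β := by
    rintro rfl
    have h1 := (hdat ⟨0, by omega⟩).ht_b
    rw [div_self (hdat ⟨0, by omega⟩).ne] at h1
    have h2 : ht 1 = 1 := by simp [ht]
    rw [h2, Nat.cast_one] at h1
    have h3 : η * L ⟨0, by omega⟩ ≤ 0 := by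
      by_contra h4
      push Not at h4
      have h5 := Real.one_lt_exp_iff.2 h4
      linarith
    have h4 : (1 : ℝ) ≤ L ⟨0, by omega⟩ := by
      exact_mod_cast le_trans hq (hLq ⟨0, by omega⟩)
    nlinarith
  obtain ⟨D, d, hD, hd0, h1, h2, hsd, hdd⟩ := hdeg L hLq hLL
  have hD0 : 0 < D := by linarith
  obtain ⟨P, hP0, hP, hcoef, hbad⟩ := hM₀ M hMM d hd0 (fun v j => A j v)
    (fun v j => (hdat j).det v) (fun j => Real.exp (ε * L j))
    (fun j => Real.one_le_exp (by positivity)) (fun v j i k => (hdat j).htA' v i k)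
  -- size of the coefficients
  set S : ℝ := ∑ j, (d j : ℝ) with hS
  have hS0 : 0 ≤ S := Finset.sum_nonneg fun j _ => by positivity
  set H : ℝ := 2 * Real.log n * S + 2 * (n ^ 2 + 1) * ε * M * D with hH
  have hH0 : 0 ≤ H := by positivity
  have hdL : ∑ j, (d j : ℝ) * L j ≤ 2 * M * D := by
    calc ∑ j, (d j : ℝ) * L j ≤ ∑ _j : Fin M, (1 + ε₀) * D := Finset.sum_le_sum fun j _ => h2 j
      _ = M * ((1 + ε₀) * D) := by simp
      _ ≤ M * (2 * D) := by gcongr; linarith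
      _ = 2 * M * D := by ring
  have hcoef' : ∀ e, |((coeff e P : ℤ) : ℝ)| ≤ Real.exp H := by
    intro e
    refine (hcoef e).trans ?_
    have h3 : ∀ j, (n ^ 2 * Real.exp (ε * L j) ^ ((Fintype.card ι) ^ 2 + 1)) ^ d j =
        Real.exp (d j * (2 * Real.log n + (n ^ 2 + 1) * (ε * L j))) := by
      intro j
      have h4 : n ^ 2 = Real.exp (2 * Real.log n) := by
        rw [mul_comm, Real.exp_mul, Real.exp_log (by linarith), ← Real.rpow_natCast]
        norm_num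
      rw [← Real.exp_nat_mul, Real.exp_nat_mul _ (d j), Real.exp_add, ← h4]
      push_cast
      rfl
    rw [Finset.prod_congr rfl fun j _ => h3 j, ← Real.exp_sum]
    refine Real.exp_le_exp.2 ?_
    have h4 : ∑ j, (d j : ℝ) * (2 * Real.log n + (n ^ 2 + 1) * (ε * L j)) =
        2 * Real.log n * S + (n ^ 2 + 1) * ε * ∑ j, (d j : ℝ) * L j := by
      rw [hS, Finset.mul_sum, Finset.mul_sum, ← Finset.sum_add_distrib]
      refine Finset.sum_congr rfl fun j _ => ?_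
      ring
    rw [h4, hH]
    have h5 : (n ^ 2 + 1) * ε * ∑ j, (d j : ℝ) * L j ≤ (n ^ 2 + 1) * ε * (2 * M * D) := by
      gcongr
    linarith
  have hsum : 3 * H + 9 * Real.log (Fintype.card ι) * ∑ j, (d j : ℝ) + 6 * ε * D * M ≤
      δ * D * M := by
    rw [← hn, ← hS]
    have h3 : 30 * τ * Real.log n * D ≤ δ * M * D := by gcongr
    have h4 : 12 * (n ^ 2 + 2) * ε * (M * D) ≤ δ * (M * D) := by gcongr
    have h5 : Real.log n * S ≤ Real.log n * (τ * D) := by gcongr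
    rw [hH]
    nlinarith
  have hzero := coeff_eq_zero ha hδ hK hc hε₀ hε₀1 (by rw [← hn]; exact hε₀2) hs.le hs2 hε hε1 hM1
    hD hd0 h1 h2 hH0 hsum hdat hP hcoef' hbad
  have hsupp : ∀ e ∈ (lsub (fun j => (F j).updateCol l₀ (Pi.single β 1))
      (map (Int.castRingHom ℚ) P)).support, s * M < ∑ j, (e (j, l₀) : ℝ) / d j := by
    intro e he
    by_contra h3
    push Not at h3
    exact MvPolynomial.mem_support_iff.1 he (hzero e h3)
  have hphi := support_phi d (map (Int.castRingHom ℚ) P)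
    (fun j => (F j).updateCol l₀ (Pi.single β 1)) (fun j => (hdat j).det_update) b l₀ β
    (fun j l hl => by
      rw [← (hdat j).ort l hl]
      refine Finset.sum_congr rfl fun i _ => ?_
      rw [Matrix.updateCol_ne hl])
    (fun j => (hdat j).ne)
    (fun j i => by
      rw [Matrix.updateCol_self, Pi.single_apply]) hsupp
  obtain ⟨F₀, hF0, hF1, hF2, hF3⟩ := exists_lowest d P hP0 hP α β hαβ
    (fun j k => -b j k / b j β) hphi
  refine hroth d (fun j => -b j α / b j β) F₀ H hF0 hd0 hF1 ?_ ?_ ?_ hF3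
  · intro i j hij
    refine (hdd i j hij).trans ?_
    gcongr
  · intro e
    obtain ⟨e', he'⟩ := hF2 e
    rw [he']
    exact hcoef' e'
  · intro i j
    have h3 : (d i : ℝ) ≤ τ * D := by
      refine le_trans ?_ hsd
      exact Finset.single_le_sum (f := fun j => (d j : ℝ)) (fun j _ => by positivity)
        (Finset.mem_univ i)
    have h4 : η * L j ≤ Real.log (ht (-b j α / b j β)) := by
      rw [neg_div, ht_neg]
      have h5 := (hdat j).ht_b
      rw [Real.le_log_iff_exp_le]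
      · exact h5
      · exact lt_of_lt_of_le (Real.exp_pos _) h5
    have h5 : σ * η * D ≤ σ * d j * Real.log (ht (-b j α / b j β)) := by
      calc σ * η * D ≤ σ * η * (d j * L j) := by
            have := h1 j
            gcongr
        _ = σ * d j * (η * L j) := by ring
        _ ≤ σ * d j * Real.log (ht (-b j α / b j β)) := by gcongr
    refine le_trans ?_ h5
    have h6 : ((M : ℝ) + 1) ^ 2 * d i ≤ ((M : ℝ) + 1) ^ 2 * (τ * D) := by gcongr
    have h7 : (2 * Real.log n + ((M : ℝ) + 1) ^ 2) * τ * D ≤ σ * η / 4 * D := by gcongr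
    have h8 : 2 * (n ^ 2 + 1) * M * ε * D ≤ σ * η / 4 * D := by gcongr
    have h9 : Real.log n * S ≤ Real.log n * (τ * D) := by gcongr
    have h10 : 0 ≤ σ * η * D := by positivity
    rw [hH]
    linarith

end Pool.Agent.Lib.MP_d0d59f_nt.Sb

end
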