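import Mathlib

/-!
Reduced bases of lattices.
-/

section

namespace Pool.Agent.Lib.MP_d0d59f_nt.Sb

open Module

/-- Let `b` be a basis of the rational vector space `E`, `Λ` the lattice generated by `b`, and
`u ∈ Λ`, `u ≠ 0`, a vector such that `t • u ∈ Λ` implies `t ∈ ℤ`. Then `Λ` is generated by a basis
`b'` of `E` with `b' 0 = u`. Proof: `Λ ⧸ ℤ u` is finitely generated and torsion free (if
`n • y ∈ ℤ u`, `n • y = k • u`, then `y = (k / n) • u`, so `k / n ∈ ℤ`), so it is free and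
`Λ = ℤ u ⊕ Λ'` (`Module.Free`, `Module.projective_lifting_property` or
`Submodule.exists_isCompl`); a `ℤ`-basis of `Λ` is a `ℚ`-basis of `E` (the number of elements is
`n + 1`: `finrank`). -/
theorem exists_basis_primitive {n : ℕ} {E : Type} [AddCommGroup E] [Module ℚ E]
    (b : Basis (Fin (n + 1)) ℚ E) (u : E) (hu : u ∈ Submodule.span ℤ (Set.range b)) (hu0 : u ≠ 0)
    (hprim : ∀ t : ℚ, t • u ∈ Submodule.span ℤ (Set.range b) → ∃ k : ℤ, t = k) :
    ∃ b' : Basis (Fin (n + 1)) ℚ E, b' 0 = u ∧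
      Submodule.span ℤ (Set.range b') = Submodule.span ℤ (Set.range b) := by
  classical
  set Λ := Submodule.span ℤ (Set.range b) with hΛ
  let u' : Λ := ⟨u, hu⟩
  let U : Submodule ℤ Λ := Submodule.span ℤ {u'}
  have hfin : Module.Finite ℤ Λ := Module.Finite.span_of_finite ℤ (Set.finite_range b)
  have htf : Module.IsTorsionFree ℤ (Λ ⧸ U) := by
    apply Module.IsTorsionFree.of_smul_eq_zero
    intro m q hmq
    by_cases hm : m = 0
    · exact Or.inl hm
    refine Or.inr ?_
    obtain ⟨y, rfl⟩ := Submodule.mkQ_surjective U q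
    rw [← map_smul, Submodule.mkQ_apply, Submodule.Quotient.mk_eq_zero] at hmq
    rw [Submodule.mkQ_apply, Submodule.Quotient.mk_eq_zero]
    obtain ⟨k, hk⟩ := Submodule.mem_span_singleton.1 hmq
    have hk' : k • u = m • (y : E) := by
      have := congrArg (Subtype.val) hk
      simpa using this
    have hmq' : (m : ℚ) ≠ 0 := by exact_mod_cast hm
    have hy : (y : E) = ((k : ℚ) / m) • u := by
      have h1 : (m : ℚ) • (y : E) = (k : ℚ) • u := by
        rw [Int.cast_smul_eq_zsmul, Int.cast_smul_eq_zsmul, hk']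
      rw [div_eq_inv_mul, mul_smul, ← h1, smul_smul, inv_mul_cancel₀ hmq', one_smul]
    obtain ⟨l, hl⟩ := hprim ((k : ℚ) / m) (by rw [← hy]; exact y.2)
    refine Submodule.mem_span_singleton.2 ⟨l, ?_⟩
    apply Subtype.ext
    rw [hy, hl, Int.cast_smul_eq_zsmul]
    rfl
  obtain ⟨m, q⟩ := Module.basisOfFiniteTypeTorsionFree' (R := ℤ) (M := Λ ⧸ U)
  obtain ⟨s, hs⟩ := Module.projective_lifting_property U.mkQ (LinearMap.id (R := ℤ) (M := Λ ⧸ U))
    U.mkQ_surjective
  have hs' : ∀ x, U.mkQ (s x) = x := fun x => by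
    have := LinearMap.congr_fun hs x
    simpa using this
  have hsinj : Function.Injective s := fun x y h => by
    rw [← hs' x, ← hs' y, h]
  let bN := q.map (LinearEquiv.ofInjective s hsinj)
  have hu'0 : u' ≠ 0 := fun h => hu0 (congrArg Subtype.val h)
  have hli : ∀ (c : ℤ), ∀ x ∈ LinearMap.range s, c • u' + x = 0 → c = 0 := by
    rintro c _ ⟨y, rfl⟩ h
    have h1 := congrArg U.mkQ h
    rw [map_add, map_smul, hs', map_zero, Submodule.mkQ_apply, (Submodule.Quotient.mk_eq_zero U).2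
      (Submodule.mem_span_singleton_self u'), smul_zero, zero_add] at h1
    rw [h1, map_zero, add_zero] at h
    have h2 : c • u = 0 := congrArg Subtype.val h
    rw [← Int.cast_smul_eq_zsmul ℚ, smul_eq_zero] at h2
    rcases h2 with h2 | h2
    · exact_mod_cast h2
    · exact absurd h2 hu0
  have hsp : ∀ z : Λ, ∃ c : ℤ, z + c • u' ∈ LinearMap.range s := by
    intro z
    have h1 : z - s (U.mkQ z) ∈ U := by
      rw [← Submodule.Quotient.mk_eq_zero, ← Submodule.mkQ_apply, map_sub, hs', sub_self]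
    obtain ⟨c, hc⟩ := Submodule.mem_span_singleton.1 h1
    refine ⟨-c, U.mkQ z, ?_⟩
    rw [neg_smul, hc]
    abel
  let B := Basis.mkFinCons u' bN hli hsp
  let b0 : Basis (Fin (n + 1)) ℤ Λ := b.restrictScalars ℤ
  have hmn : m + 1 = n + 1 := by
    have h1 := Module.finrank_eq_card_basis B
    have h2 := Module.finrank_eq_card_basis b0
    simpa using h1.symm.trans h2
  obtain rfl : m = n := by omega
  let w : Fin (m + 1) → E := fun i => (B i : E)
  have hw0 : w 0 = u := by
    change ((B 0 : Λ) : E) = u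
    have : B 0 = u' := by
      change (Basis.mkFinCons u' bN hli hsp) 0 = u'
      rw [Basis.coe_mkFinCons]
      rfl
    rw [this]
  have hwspan : Submodule.span ℤ (Set.range w) = Λ := by
    have e : Set.range w = Λ.subtype '' Set.range B := by
      rw [← Set.range_comp]
      rfl
    rw [e, Submodule.span_image, B.span_eq, Submodule.map_subtype_top]
  have htop : ⊤ ≤ Submodule.span ℚ (Set.range w) := by
    rw [← b.span_eq, Submodule.span_le]
    rintro _ ⟨i, rfl⟩
    have h1 : b i ∈ Submodule.span ℤ (Set.range w) := by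
      rw [hwspan]; exact Submodule.subset_span ⟨i, rfl⟩
    exact Submodule.span_le_restrictScalars ℤ ℚ _ h1
  have hcard : Fintype.card (Fin (m + 1)) = finrank ℚ E := by
    rw [finrank_eq_card_basis b]
  refine ⟨basisOfTopLeSpanOfCardEqFinrank w htop hcard, ?_, ?_⟩
  · rw [coe_basisOfTopLeSpanOfCardEqFinrank, hw0]
  · rw [coe_basisOfTopLeSpanOfCardEqFinrank, hwspan]

end Pool.Agent.Lib.MP_d0d59f_nt.Sb

end

section

namespace Pool.Agent.Lib.MP_d0d59f_nt.Sb

open Module

/-- `N` is a norm on the rational vector space `E` -/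
structure IsNorm {E : Type} [AddCommGroup E] [Module ℚ E] (N : E → ℝ) : Prop where
  pos : ∀ x, x ≠ 0 → 0 < N x
  add : ∀ x y, N (x + y) ≤ N x + N y
  smul : ∀ (c : ℚ) x, N (c • x) = |(c : ℝ)| * N x

theorem redA_nonneg {E : Type} [AddCommGroup E] [Module ℚ E] {N : E → ℝ} (hN : IsNorm N)
    (x : E) : 0 ≤ N x := by
  by_cases h : x = 0
  · have := hN.smul 0 (0 : E)
    rw [h]
    simp at this
    exact this.ge
  · exact (hN.pos x h).le

/-- the quotient seminorm -/
noncomputable def redA_N {n : ℕ} {E : Type} [AddCommGroup E] [Module ℚ E]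
    (b : Basis (Fin (n + 1)) ℚ E) (N : E → ℝ) (y : Fin n → ℚ) : ℝ :=
  ⨅ t : ℚ, N (∑ i, y i • b i.succ + t • b 0)

section
variable {n : ℕ} {E : Type} [AddCommGroup E] [Module ℚ E]
    (b : Basis (Fin (n + 1)) ℚ E) {N : E → ℝ} (hN : IsNorm N)

include hN

theorem redA_bdd (y : Fin n → ℚ) :
    BddBelow (Set.range fun t : ℚ => N (∑ i, y i • b i.succ + t • b 0)) :=
  ⟨0, by rintro _ ⟨t, rfl⟩; exact redA_nonneg hN _⟩

theorem redA_le (y : Fin n → ℚ) (t : ℚ) :
    redA_N b N y ≤ N (∑ i, y i • b i.succ + t • b 0) :=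
  ciInf_le (redA_bdd b hN y) t

theorem redA_N_nonneg (y : Fin n → ℚ) : 0 ≤ redA_N b N y :=
  le_ciInf fun _ => redA_nonneg hN _

theorem redA_exists (y : Fin n → ℚ) {R : ℝ} (h : redA_N b N y < R) :
    ∃ t : ℚ, N (∑ i, y i • b i.succ + t • b 0) < R :=
  exists_lt_of_ciInf_lt h

theorem redA_add (x y : Fin n → ℚ) : redA_N b N (x + y) ≤ redA_N b N x + redA_N b N y := by
  apply le_of_forall_pos_le_add
  intro ε hε
  obtain ⟨t, ht⟩ := redA_exists b hN x (R := redA_N b N x + ε / 2) (by linarith)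
  obtain ⟨t', ht'⟩ := redA_exists b hN y (R := redA_N b N y + ε / 2) (by linarith)
  have h1 := redA_le b hN (x + y) (t + t')
  have e : ∑ i, (x + y) i • b i.succ + (t + t') • b 0 =
      (∑ i, x i • b i.succ + t • b 0) + (∑ i, y i • b i.succ + t' • b 0) := by
    simp only [Pi.add_apply, add_smul, Finset.sum_add_distrib]
    abel
  rw [e] at h1
  have h2 := hN.add (∑ i, x i • b i.succ + t • b 0) (∑ i, y i • b i.succ + t' • b 0)
  linarith

theorem redA_smul_le (c : ℚ) (y : Fin n → ℚ) :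
    redA_N b N (c • y) ≤ |(c : ℝ)| * redA_N b N y := by
  rw [redA_N.eq_def b N y, Real.mul_iInf_of_nonneg (abs_nonneg _)]
  refine le_ciInf fun t => ?_
  have h1 := redA_le b hN (c • y) (c * t)
  have e : ∑ i, (c • y) i • b i.succ + (c * t) • b 0 = c • (∑ i, y i • b i.succ + t • b 0) := by
    simp only [Pi.smul_apply, smul_eq_mul, smul_add, Finset.smul_sum, smul_smul]
  rw [e, hN.smul] at h1
  exact h1

theorem redA_smul (c : ℚ) (y : Fin n → ℚ) :
    redA_N b N (c • y) = |(c : ℝ)| * redA_N b N y := by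
  apply le_antisymm (redA_smul_le b hN c y)
  by_cases hc : c = 0
  · subst hc
    simp only [Rat.cast_zero, abs_zero, zero_mul]
    exact redA_N_nonneg b hN _
  · have h1 := redA_smul_le b hN c⁻¹ (c • y)
    rw [smul_smul, inv_mul_cancel₀ hc, one_smul, Rat.cast_inv, abs_inv] at h1
    have h2 : (0 : ℝ) < |(c : ℝ)| := abs_pos.2 (by exact_mod_cast hc)
    calc |(c : ℝ)| * redA_N b N y ≤ |(c : ℝ)| * (|(c : ℝ)|⁻¹ * redA_N b N (c • y)) :=
          mul_le_mul_of_nonneg_left h1 h2.le
      _ = redA_N b N (c • y) := by rw [← mul_assoc, mul_inv_cancel₀ h2.ne', one_mul]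

theorem redA_fin (hfin : ∀ R : ℝ, {x : E | x ∈ Submodule.span ℤ (Set.range b) ∧ N x ≤ R}.Finite)
    (R : ℝ) : {y : Fin n → ℚ | y ∈ Submodule.span ℤ (Set.range (Pi.basisFun ℚ (Fin n))) ∧
        redA_N b N y ≤ R}.Finite := by
  classical
  let S : (Fin n → ℚ) →ₗ[ℚ] E := Fintype.linearCombination ℚ (fun i => b (Fin.succ i))
  have hS : ∀ y, S y = ∑ i, y i • b i.succ := fun y => by
    simp [S, Fintype.linearCombination_apply]
  have hSrepr : ∀ (y : Fin n → ℚ) (i : Fin n) (t : ℚ), b.repr (S y + t • b 0) i.succ = y i := by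
    intro y i t
    rw [hS, map_add, map_sum, map_smul, Finsupp.add_apply, Finsupp.finsetSum_apply]
    simp only [map_smul, Basis.repr_self, Finsupp.smul_apply, Finsupp.single_apply,
      Fin.succ_inj, smul_eq_mul]
    rw [Finset.sum_eq_single i]
    · simp
      intro h
      exact absurd h (Fin.succ_ne_zero i).symm
    · intro j _ hj
      simp [hj]
    · simp
  have hSL : ∀ y ∈ Submodule.span ℤ (Set.range (Pi.basisFun ℚ (Fin n))),
      S y ∈ Submodule.span ℤ (Set.range b) := by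
    intro y hy
    have : Submodule.span ℤ (Set.range (Pi.basisFun ℚ (Fin n))) ≤
        (Submodule.span ℤ (Set.range b)).comap (S.restrictScalars ℤ) := by
      rw [Submodule.span_le]
      rintro _ ⟨i, rfl⟩
      simp only [SetLike.mem_coe, Submodule.mem_comap, LinearMap.coe_restrictScalars]
      have e : S (Pi.basisFun ℚ (Fin n) i) = b i.succ := by
        rw [hS, Finset.sum_eq_single i]
        · simp
        · intro j _ hj
          simp [Pi.basisFun_apply, Pi.single_eq_of_ne hj]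
        · simp
      rw [e]
      exact Submodule.subset_span ⟨_, rfl⟩
    exact this hy
  refine ((hfin (R + 1 + N (b 0))).image (fun x (i : Fin n) => b.repr x i.succ)).subset ?_
  rintro y ⟨hy, hyR⟩
  obtain ⟨t, ht⟩ := redA_exists b hN y (R := R + 1) (by linarith)
  refine ⟨S y + ((⌊t⌋ : ℤ) : ℚ) • b 0, ⟨?_, ?_⟩, ?_⟩
  · refine Submodule.add_mem _ (hSL y hy) ?_
    rw [Int.cast_smul_eq_zsmul]
    exact Submodule.smul_mem _ _ (Submodule.subset_span ⟨0, rfl⟩)
  · have e : S y + ((⌊t⌋ : ℤ) : ℚ) • b 0 = (∑ i, y i • b i.succ + t • b 0) +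
        (((⌊t⌋ : ℤ) : ℚ) - t) • b 0 := by
      rw [hS, sub_smul]; abel
    rw [e]
    have h1 := hN.add (∑ i, y i • b i.succ + t • b 0) ((((⌊t⌋ : ℤ) : ℚ) - t) • b 0)
    rw [hN.smul] at h1
    have h2 : |((((⌊t⌋ : ℤ) : ℚ) - t : ℚ) : ℝ)| ≤ 1 := by
      have h3 : |((⌊t⌋ : ℤ) : ℚ) - t| ≤ 1 := by
        rw [abs_le]
        have := Int.floor_le t
        have := Int.lt_floor_add_one t
        constructor <;> linarith
      have h4 := (Rat.cast_le (K := ℝ)).2 h3
      rw [Rat.cast_abs] at h4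
      simpa using h4
    have h5 := mul_le_mul_of_nonneg_right h2 (redA_nonneg hN (b 0))
    linarith
  · funext i
    exact hSrepr y i _

end

theorem redA_mem {n : ℕ} (z : Fin n → ℚ) (h : ∀ i, ∃ k : ℤ, z i = k) :
    z ∈ Submodule.span ℤ (Set.range (Pi.basisFun ℚ (Fin n))) := by
  classical
  choose k hk using h
  have e : z = ∑ i, k i • Pi.basisFun ℚ (Fin n) i := by
    funext j
    rw [Finset.sum_apply, Finset.sum_eq_single j]
    · simp [hk]
    · intro i _ hi
      simp [Pi.basisFun_apply, Pi.single_eq_of_ne hi.symm]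
    · simp
  rw [e]
  exact Submodule.sum_mem _ fun i _ => Submodule.smul_mem _ _ (Submodule.subset_span ⟨i, rfl⟩)

theorem redA_pos {n : ℕ} {E : Type} [AddCommGroup E] [Module ℚ E]
    (b : Basis (Fin (n + 1)) ℚ E) {N : E → ℝ} (hN : IsNorm N)
    (hfin : ∀ R : ℝ, {x : E | x ∈ Submodule.span ℤ (Set.range b) ∧ N x ≤ R}.Finite)
    (y : Fin n → ℚ) (hy : y ≠ 0) : 0 < redA_N b N y := by
  classical
  by_contra hle
  have h0 : redA_N b N y = 0 := le_antisymm (not_lt.1 hle) (redA_N_nonneg b hN y)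
  let m : ℕ := ∏ i, (y i).den
  have hm : m ≠ 0 := Finset.prod_ne_zero_iff.2 fun i _ => (y i).den_ne_zero
  have hmy : ∀ i, ∃ k : ℤ, (m : ℚ) * y i = k := by
    intro i
    have h1 : m = (y i).den * ∏ j ∈ Finset.univ.erase i, (y j).den :=
      (Finset.mul_prod_erase Finset.univ (fun j => (y j).den) (Finset.mem_univ i)).symm
    refine ⟨(y i).num * ∏ j ∈ Finset.univ.erase i, ((y j).den : ℤ), ?_⟩
    rw [h1]
    push_cast
    have h2 : ((y i).den : ℚ) * y i = (y i).num := Rat.den_mul_eq_num (y i)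
    rw [mul_right_comm, h2]
  have hinf := Set.infinite_of_injective_forall_mem (f := fun j : ℕ => ((j : ℚ) * m) • y)
    (s := {y : Fin n → ℚ | y ∈ Submodule.span ℤ (Set.range (Pi.basisFun ℚ (Fin n))) ∧
        redA_N b N y ≤ 1}) ?_ ?_
  · exact hinf (redA_fin b hN hfin 1)
  · intro j j' h
    obtain ⟨i, hi⟩ := Function.ne_iff.1 hy
    have h1 := congrFun h i
    simp only [Pi.smul_apply, smul_eq_mul] at h1
    have h2 := mul_right_cancel₀ hi h1
    have h3 := mul_right_cancel₀ (by exact_mod_cast hm) h2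
    exact_mod_cast h3
  · intro j
    refine ⟨redA_mem _ fun i => ?_, ?_⟩
    · obtain ⟨k, hk⟩ := hmy i
      refine ⟨j * k, ?_⟩
      simp only [Pi.smul_apply, smul_eq_mul]
      rw [mul_assoc, hk]
      push_cast
      ring
    · rw [redA_smul b hN, h0, mul_zero]
      exact zero_le_one

/-- The quotient norm `N' y = inf_{t : ℚ} N (s y + t • b 0)`, `s y = ∑ i, y i • b (i + 1)`, on `ℚ ^ n`.
It is a norm with the finiteness property: if `y ∈ ℤ ^ n`, `N' y ≤ R`, then there is `t : ℚ` with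
`N (s y + t • b 0) ≤ R + 1`, and for `k = ⌊t⌋`: `N (s y + k • b 0) ≤ R + 1 + N (b 0)`, a vector of the
lattice; so `y` belongs to the image under the coordinates of a finite set. `N' y > 0` for `y ≠ 0`:
multiply `y` by an integer `m > 0` to have `m y ∈ ℤ ^ n`; if `N' y = 0` then for every integer `j > 0`,
`N' (j m y) = 0 ≤ 1`, infinitely many elements of the finite set of the `z ∈ ℤ ^ n` with `N' z ≤ 1`,
contradiction. -/
theorem exists_quotient {n : ℕ} {E : Type} [AddCommGroup E] [Module ℚ E]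
    (b : Basis (Fin (n + 1)) ℚ E) (N : E → ℝ) (hN : IsNorm N)
    (hfin : ∀ R : ℝ, {x : E | x ∈ Submodule.span ℤ (Set.range b) ∧ N x ≤ R}.Finite) :
    ∃ N' : (Fin n → ℚ) → ℝ, IsNorm N' ∧
      (∀ R : ℝ, {y : Fin n → ℚ | y ∈ Submodule.span ℤ (Set.range (Pi.basisFun ℚ (Fin n))) ∧
        N' y ≤ R}.Finite) ∧
      (∀ y (t : ℚ), N' y ≤ N (∑ i, y i • b i.succ + t • b 0)) ∧
      ∀ y, y ≠ 0 → ∃ t : ℚ, N (∑ i, y i • b i.succ + t • b 0) ≤ 2 * N' y := by
  refine ⟨redA_N b N, ⟨redA_pos b hN hfin, redA_add b hN, redA_smul b hN⟩, redA_fin b hN hfin,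
    redA_le b hN, fun y hy => ?_⟩
  have h := redA_pos b hN hfin y hy
  obtain ⟨t, ht⟩ := redA_exists b hN y (R := 2 * redA_N b N y) (by linarith)
  exact ⟨t, ht.le⟩

end Pool.Agent.Lib.MP_d0d59f_nt.Sb

end

section

namespace Pool.Agent.Lib.MP_d0d59f_nt.Sb

open Module

theorem IsNorm.redB_zero {E : Type} [AddCommGroup E] [Module ℚ E] {N : E → ℝ} (hN : IsNorm N) :
    N 0 = 0 := by
  have := hN.smul 0 (0 : E)
  simpa using this

theorem IsNorm.redB_nonneg {E : Type} [AddCommGroup E] [Module ℚ E] {N : E → ℝ} (hN : IsNorm N)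
    (x : E) : 0 ≤ N x := by
  by_cases h : x = 0
  · rw [h, hN.redB_zero]
  · exact (hN.pos x h).le

theorem IsNorm.redB_neg {E : Type} [AddCommGroup E] [Module ℚ E] {N : E → ℝ} (hN : IsNorm N)
    (x : E) : N (-x) = N x := by
  have := hN.smul (-1) x
  simpa using this

theorem IsNorm.redB_sum {E : Type} [AddCommGroup E] [Module ℚ E] {N : E → ℝ} (hN : IsNorm N)
    {ι : Type} (s : Finset ι) (f : ι → E) : N (∑ i ∈ s, f i) ≤ ∑ i ∈ s, N (f i) := by
  classical
  induction s using Finset.induction_on with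
  | empty => simp [hN.redB_zero]
  | insert a s ha ih =>
    rw [Finset.sum_insert ha, Finset.sum_insert ha]
    exact (hN.add _ _).trans (by linarith)

/-- a shortest nonzero vector, and it is primitive -/
theorem redB_shortest {n : ℕ} {E : Type} [AddCommGroup E] [Module ℚ E]
    (b : Basis (Fin (n + 1)) ℚ E) (N : E → ℝ) (hN : IsNorm N)
    (hfin : ∀ R : ℝ, {x : E | x ∈ Submodule.span ℤ (Set.range b) ∧ N x ≤ R}.Finite) :
    ∃ u : E, u ∈ Submodule.span ℤ (Set.range b) ∧ u ≠ 0 ∧
      (∀ y ∈ Submodule.span ℤ (Set.range b), y ≠ 0 → N u ≤ N y) ∧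
      ∀ t : ℚ, t • u ∈ Submodule.span ℤ (Set.range b) → ∃ k : ℤ, t = k := by
  have hb0 : b 0 ≠ 0 := b.ne_zero 0
  have hb0' : b 0 ∈ Submodule.span ℤ (Set.range b) := Submodule.subset_span ⟨0, rfl⟩
  obtain ⟨u, hu, hmin⟩ := Set.exists_min_image
    ({x : E | x ∈ Submodule.span ℤ (Set.range b) ∧ N x ≤ N (b 0)} ∩ {x | x ≠ 0}) N
    ((hfin _).inter_of_left _) ⟨b 0, ⟨hb0', le_rfl⟩, hb0⟩
  obtain ⟨⟨hu1, hu2⟩, hu3⟩ := hu
  have hm : ∀ y ∈ Submodule.span ℤ (Set.range b), y ≠ 0 → N u ≤ N y := by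
    intro y hy hy0
    rcases le_or_gt (N y) (N (b 0)) with h | h
    · exact hmin y ⟨⟨hy, h⟩, hy0⟩
    · exact hu2.trans h.le
  refine ⟨u, hu1, hu3, hm, fun t ht => ?_⟩
  by_contra hk
  have hf : Int.fract t • u ∈ Submodule.span ℤ (Set.range b) := by
    have e : Int.fract t • u = t • u - ⌊t⌋ • u := by
      rw [← Int.cast_smul_eq_zsmul ℚ, ← sub_smul]
      rfl
    rw [e]
    exact Submodule.sub_mem _ ht (Submodule.smul_mem _ _ hu1)
  have hf0 : Int.fract t ≠ 0 := by
    intro h
    exact hk ⟨⌊t⌋, by rw [Int.fract] at h; linarith⟩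
  have h1 := hm _ hf (smul_ne_zero hf0 hu3)
  rw [hN.smul] at h1
  have h2 : |((Int.fract t : ℚ) : ℝ)| < 1 := by
    rw [← Rat.cast_abs, abs_of_nonneg (Int.fract_nonneg t)]
    exact_mod_cast Int.fract_lt_one t
  have h3 := hN.pos u hu3
  nlinarith

/-- Reduced bases. `C 0 = 1`, `C (n+1) = 1 + 4 (n + 1) C n`. -/
theorem redB_step {n : ℕ} {C : ℝ} (hC : 1 ≤ C)
    (ih : ∀ (E : Type) [AddCommGroup E] [Module ℚ E]
      (b : Basis (Fin n) ℚ E) (N : E → ℝ), IsNorm N →
      (∀ R : ℝ, {x : E | x ∈ Submodule.span ℤ (Set.range b) ∧ N x ≤ R}.Finite) →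
      ∃ b' : Basis (Fin n) ℚ E, Submodule.span ℤ (Set.range b') = Submodule.span ℤ (Set.range b) ∧
        ∀ x j, |((b'.repr x j : ℚ) : ℝ)| * N (b' j) ≤ C * N x)
    (E : Type) [AddCommGroup E] [Module ℚ E]
    (b : Basis (Fin (n + 1)) ℚ E) (N : E → ℝ) (hN : IsNorm N)
    (hfin : ∀ R : ℝ, {x : E | x ∈ Submodule.span ℤ (Set.range b) ∧ N x ≤ R}.Finite) :
    ∃ b' : Basis (Fin (n + 1)) ℚ E,
      Submodule.span ℤ (Set.range b') = Submodule.span ℤ (Set.range b) ∧
      ∀ x j, |((b'.repr x j : ℚ) : ℝ)| * N (b' j) ≤ (1 + 4 * (n + 1) * C) * N x := by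
  classical
  obtain ⟨u, hu, hu0, hmin, hprim⟩ := redB_shortest b N hN hfin
  obtain ⟨b', hb0, hspan⟩ := exists_basis_primitive b u hu hu0 hprim
  obtain ⟨N', hN', hfin', hle, hex⟩ := exists_quotient b' N hN (by rw [hspan]; exact hfin)
  obtain ⟨c, hc, hcb⟩ := ih (Fin n → ℚ) (Pi.basisFun ℚ (Fin n)) N' hN' hfin'
  -- the linear section
  let S : (Fin n → ℚ) →ₗ[ℚ] E := Fintype.linearCombination ℚ (fun i => b' (Fin.succ i))
  have hS : ∀ y, S y = ∑ i, y i • b' i.succ := fun y => by
    simp [S, Fintype.linearCombination_apply]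
  have hSrepr : ∀ (y : Fin n → ℚ) (i : Fin n) (t : ℚ), b'.repr (S y + t • b' 0) i.succ = y i := by
    intro y i t
    rw [hS, map_add, map_sum, map_smul, Finsupp.add_apply, Finsupp.finsetSum_apply]
    simp only [map_smul, Basis.repr_self, Finsupp.smul_apply, Finsupp.single_apply,
      Fin.succ_inj, smul_eq_mul]
    rw [Finset.sum_eq_single i]
    · simp
      intro h
      exact absurd h (Fin.succ_ne_zero i).symm
    · intro j _ hj
      simp [hj]
    · simp
  choose t ht using fun j => hex (c j) (c.ne_zero j)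
  let k : Fin n → ℤ := fun j => round (t j)
  let v : Fin n → E := fun j => S (c j) + (k j : ℚ) • u
  have hv0 : ∀ j, v j ≠ 0 := by
    intro j h
    apply c.ne_zero j
    funext i
    have := hSrepr (c j) i (k j)
    rw [hb0] at this
    change S (c j) + (k j : ℚ) • u = 0 at h
    rw [h] at this
    simpa using this.symm
  have huL : u ∈ Submodule.span ℤ (Set.range b') := by
    rw [hspan]; exact hu
  have hSL : ∀ y ∈ Submodule.span ℤ (Set.range (Pi.basisFun ℚ (Fin n))),
      S y ∈ Submodule.span ℤ (Set.range b') := by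
    intro y hy
    have : Submodule.span ℤ (Set.range (Pi.basisFun ℚ (Fin n))) ≤
        (Submodule.span ℤ (Set.range b')).comap (S.restrictScalars ℤ) := by
      rw [Submodule.span_le]
      rintro _ ⟨i, rfl⟩
      simp only [SetLike.mem_coe, Submodule.mem_comap, LinearMap.coe_restrictScalars]
      have e : S (Pi.basisFun ℚ (Fin n) i) = b' i.succ := by
        rw [hS, Finset.sum_eq_single i]
        · simp
        · intro j _ hj
          simp [Pi.basisFun_apply, Pi.single_eq_of_ne hj]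
        · simp
      rw [e]
      exact Submodule.subset_span ⟨_, rfl⟩
    exact this hy
  have hvL : ∀ j, v j ∈ Submodule.span ℤ (Set.range b') := by
    intro j
    refine Submodule.add_mem _ (hSL _ ?_) ?_
    · rw [← hc]
      exact Submodule.subset_span ⟨j, rfl⟩
    · rw [Int.cast_smul_eq_zsmul]
      exact Submodule.smul_mem _ _ huL
  have hvN : ∀ j, N (v j) ≤ 4 * N' (c j) := by
    intro j
    have h1 : N (v j) ≤ N (S (c j) + t j • u) + |((k j - t j : ℚ) : ℝ)| * N u := by
      rw [← hN.smul]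
      have e : v j = (S (c j) + t j • u) + ((k j : ℚ) - t j) • u := by
        change S (c j) + (k j : ℚ) • u = _
        rw [sub_smul]; abel
      rw [e]
      exact hN.add _ _
    have h2 := ht j
    rw [← hS, hb0] at h2
    have h3 : |((k j - t j : ℚ) : ℝ)| ≤ 1 / 2 := by
      have := abs_sub_round (t j)
      rw [abs_sub_comm] at this
      have h4 : |((k j : ℚ) - t j)| ≤ 1 / 2 := this
      have h5 := (Rat.cast_le (K := ℝ)).2 h4
      rw [Rat.cast_abs] at h5
      norm_num at h5 ⊢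
      exact h5
    have h4 : N u ≤ N (v j) := hmin _ (by rw [← hspan]; exact hvL j) (hv0 j)
    have h5 := hN.redB_nonneg u
    nlinarith [mul_le_mul_of_nonneg_right h3 h5]
  -- the new basis
  let w : Fin (n + 1) → E := Fin.cons u v
  have hw0 : w 0 = u := rfl
  have hws : ∀ j : Fin n, w j.succ = v j := fun j => rfl
  have hwspan : Submodule.span ℤ (Set.range w) = Submodule.span ℤ (Set.range b') := by
    apply le_antisymm
    · rw [Submodule.span_le]
      rintro _ ⟨i, rfl⟩
      refine Fin.cases ?_ (fun j => ?_) i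
      · exact huL
      · exact hvL j
    · rw [Submodule.span_le]
      rintro _ ⟨i, rfl⟩
      have huw : u ∈ Submodule.span ℤ (Set.range w) := Submodule.subset_span ⟨0, rfl⟩
      refine Fin.cases ?_ (fun i => ?_) i
      · rw [hb0]; exact huw
      · have h1 : Submodule.span ℤ (Set.range c) ≤
            (Submodule.span ℤ (Set.range w)).comap (S.restrictScalars ℤ) := by
          rw [Submodule.span_le]
          rintro _ ⟨j, rfl⟩
          simp only [SetLike.mem_coe, Submodule.mem_comap, LinearMap.coe_restrictScalars]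
          have e : S (c j) = w j.succ - k j • u := by
            rw [hws, ← Int.cast_smul_eq_zsmul ℚ]
            change _ = S (c j) + (k j : ℚ) • u - _
            abel
          rw [e]
          exact Submodule.sub_mem _ (Submodule.subset_span ⟨_, rfl⟩) (Submodule.smul_mem _ _ huw)
        rw [hc] at h1
        have h2 : Pi.basisFun ℚ (Fin n) i ∈
            Submodule.span ℤ (Set.range (Pi.basisFun ℚ (Fin n))) := Submodule.subset_span ⟨i, rfl⟩
        have h3 := h1 h2
        simp only [Submodule.mem_comap, LinearMap.coe_restrictScalars] at h3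
        have e : S (Pi.basisFun ℚ (Fin n) i) = b' i.succ := by
          rw [hS, Finset.sum_eq_single i]
          · simp
          · intro j _ hj
            simp [Pi.basisFun_apply, Pi.single_eq_of_ne hj]
          · simp
        rw [e] at h3
        exact h3
  have htop : ⊤ ≤ Submodule.span ℚ (Set.range w) := by
    rw [← b'.span_eq, Submodule.span_le]
    rintro _ ⟨i, rfl⟩
    have h1 : b' i ∈ Submodule.span ℤ (Set.range w) := by
      rw [hwspan]; exact Submodule.subset_span ⟨i, rfl⟩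
    exact Submodule.span_le_restrictScalars ℤ ℚ _ h1
  have hcard : Fintype.card (Fin (n + 1)) = finrank ℚ E := by
    rw [finrank_eq_card_basis b]
  let B : Basis (Fin (n + 1)) ℚ E := basisOfTopLeSpanOfCardEqFinrank w htop hcard
  have hB : ⇑B = w := coe_basisOfTopLeSpanOfCardEqFinrank w htop hcard
  refine ⟨B, by rw [hB, hwspan, hspan], fun x => ?_⟩
  have hx : x = B.repr x 0 • u + ∑ j : Fin n, B.repr x j.succ • v j := by
    conv_lhs => rw [← B.sum_repr x, Fin.sum_univ_succ]
    simp only [hB]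
    rfl
  set y : Fin n → ℚ := ∑ j : Fin n, B.repr x j.succ • c j with hy
  have hcy : ∀ j, c.repr y j = B.repr x j.succ := by
    intro j
    rw [hy, c.repr_sum_self]
  have hxy : x = ∑ i, y i • b' i.succ +
      (B.repr x 0 + ∑ j : Fin n, B.repr x j.succ * k j) • b' 0 := by
    rw [← hS, hb0, hy, map_sum]
    conv_lhs => rw [hx]
    simp only [map_smul, add_smul, Finset.sum_smul, v, smul_add, Finset.sum_add_distrib, smul_smul]
    abel
  have hNy : N' y ≤ N x := by
    conv_rhs => rw [hxy]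
    exact hle y _
  have hsucc : ∀ j : Fin n, |((B.repr x j.succ : ℚ) : ℝ)| * N (v j) ≤ 4 * C * N x := by
    intro j
    have h1 := hcb y j
    rw [hcy] at h1
    have h2 : |((B.repr x j.succ : ℚ) : ℝ)| * N (v j) ≤
        |((B.repr x j.succ : ℚ) : ℝ)| * (4 * N' (c j)) :=
      mul_le_mul_of_nonneg_left (hvN j) (abs_nonneg _)
    have h3 : C * N' y ≤ C * N x := mul_le_mul_of_nonneg_left hNy (by linarith)
    linarith
  have hNx := hN.redB_nonneg x
  have hn0 : (0 : ℝ) ≤ n := Nat.cast_nonneg n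
  have hCN : 0 ≤ C * N x := mul_nonneg (by linarith) hNx
  intro j
  refine Fin.cases ?_ (fun j => ?_) j
  · have e : B 0 = u := by rw [hB, hw0]
    rw [e, ← hN.smul]
    have e2 : B.repr x 0 • u = x + -(∑ j : Fin n, B.repr x j.succ • v j) :=
      eq_add_neg_of_add_eq hx.symm
    rw [e2]
    have h1 := hN.add x (-(∑ j : Fin n, B.repr x j.succ • v j))
    rw [hN.redB_neg] at h1
    have h2 := hN.redB_sum Finset.univ (fun j : Fin n => B.repr x j.succ • v j)
    have h3 : ∑ j : Fin n, N (B.repr x j.succ • v j) ≤ ∑ j : Fin n, 4 * C * N x := by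
      refine Finset.sum_le_sum fun j _ => ?_
      rw [hN.smul]
      exact hsucc j
    rw [Finset.sum_const, Finset.card_univ, Fintype.card_fin, nsmul_eq_mul] at h3
    nlinarith
  · have e : B j.succ = v j := by rw [hB, hws]
    rw [e]
    have := hsucc j
    nlinarith

/-- Reduced bases. `C 0 = 1`, `C (n+1) = 1 + 4 (n + 1) C n`. Induction on `n`.
Let `Λ` be the lattice, of rank `n + 1`. There is a shortest nonzero vector `u` of `Λ` (`hfin`); if
`t • u ∈ Λ` then `t ∈ ℤ` (else `(t - ⌊t⌋) • u` is a shorter nonzero vector). Take `b'` with `b' 0 = u`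
(`exists_basis_primitive`). `N'` from `exists_quotient` for `b'`, `s y = ∑ i, y i • b' (i + 1)`. By
induction there is a basis `c` of `ℚ ^ n`, which generates `ℤ ^ n`, with
`|c.repr y j| N' (c j) ≤ C n * N' y`. For each `j` choose
`t : ℚ` with `N (s (c j) + t • u) ≤ 2 N' (c j)`, let `k` be an integer with `|t - k| ≤ 1 / 2` and
`u j = s (c j) + k • u ∈ Λ`. Then `N (u j) ≤ 2 N' (c j) + N u / 2`, and `N u ≤ N (u j)` as `u j ≠ 0`, so
`N (u j) ≤ 4 N' (c j)`. The vectors `u, u 0, ..., u (n - 1)` are a basis of `E` and generate `Λ`. For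
`x = x0 • u + ∑ j, x j • u j`: the coordinates `1, ..., n` of `x` for `b'` are `y = ∑ j, x j • c j`, so
`|x j| N (u j) ≤ 4 |x j| N' (c j) ≤ 4 C n * N' y ≤ 4 C n * N x`, and
`|x0| N u = N (x - ∑ j, x j • u j) ≤ N x + ∑ j, |x j| N (u j) ≤ (1 + 4 n C n) N x`. -/
theorem exists_reduced (n : ℕ) : ∃ C : ℝ, 1 ≤ C ∧ ∀ (E : Type) [AddCommGroup E] [Module ℚ E]
    (b : Basis (Fin n) ℚ E) (N : E → ℝ), IsNorm N →
    (∀ R : ℝ, {x : E | x ∈ Submodule.span ℤ (Set.range b) ∧ N x ≤ R}.Finite) →
    ∃ b' : Basis (Fin n) ℚ E, Submodule.span ℤ (Set.range b') = Submodule.span ℤ (Set.range b) ∧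
      ∀ x j, |((b'.repr x j : ℚ) : ℝ)| * N (b' j) ≤ C * N x := by
  induction n with
  | zero => exact ⟨1, le_rfl, fun E _ _ b N _ _ => ⟨b, rfl, fun x j => j.elim0⟩⟩
  | succ n ih =>
    obtain ⟨C, hC, ih⟩ := ih
    have hn0 : (0 : ℝ) ≤ n := Nat.cast_nonneg n
    refine ⟨1 + 4 * (n + 1) * C, by nlinarith, fun E _ _ b N hN hfin => ?_⟩
    exact redB_step hC ih E b N hN hfin

end Pool.Agent.Lib.MP_d0d59f_nt.Sb

end

section

namespace Pool.Agent.Lib.MP_d0d59f_nt.Sb

open Module

theorem Reduced_mem {ι : Type} [Fintype ι] [DecidableEq ι] (e : ι ≃ Fin (Fintype.card ι))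
    (x : ι → ℚ) :
    x ∈ Submodule.span ℤ (Set.range ((Pi.basisFun ℚ ι).reindex e)) ↔
      ∃ y : ι → ℤ, x = fun i => (y i : ℚ) := by
  rw [Submodule.mem_span_range_iff_exists_fun]
  have key : ∀ c : Fin (Fintype.card ι) → ℤ, ∀ i : ι,
      (∑ k, c k • ((Pi.basisFun ℚ ι).reindex e) k) i = (c (e i) : ℚ) := by
    intro c i
    rw [Finset.sum_apply, Finset.sum_eq_single (e i)]
    · rw [Pi.smul_apply, Basis.reindex_apply, Equiv.symm_apply_apply, Pi.basisFun_apply,
        Pi.single_eq_same, zsmul_eq_mul, mul_one]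
    · intro k _ hk
      rw [Pi.smul_apply, Basis.reindex_apply, Pi.basisFun_apply, Pi.single_eq_of_ne, smul_zero]
      intro h
      exact hk (by rw [h, Equiv.apply_symm_apply])
    · intro h
      exact absurd (Finset.mem_univ _) h
  constructor
  · rintro ⟨c, hc⟩
    refine ⟨fun i => c (e i), ?_⟩
    rw [← hc]
    funext i
    exact key c i
  · rintro ⟨y, hy⟩
    refine ⟨fun k => y (e.symm k), ?_⟩
    rw [hy]
    funext i
    rw [key, Equiv.symm_apply_apply]

/-- The case of `ℤ ^ ι`, in terms of matrices: apply `exists_reduced` to `E = ι → ℚ`, the standard basis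
(reindexed by `Fintype.equivFin`), to get `b'`; `U i j = b' j i` (integers), `V = U⁻¹` (the standard
basis is an integral combination of the `b' j`). -/
theorem reduced_matrix (ι : Type) [Fintype ι] [DecidableEq ι] : ∃ C : ℝ, 1 ≤ C ∧
    ∀ N : (ι → ℚ) → ℝ, IsNorm N → (∀ R : ℝ, {x : ι → ℤ | N (fun i => (x i : ℚ)) ≤ R}.Finite) →
    ∃ U V : Matrix ι ι ℤ, U * V = 1 ∧ ∀ (x : ι → ℚ) (j : ι),
      |((x j : ℚ) : ℝ)| * N (fun i => (U i j : ℚ)) ≤ C * N (fun i => ∑ j, (U i j : ℚ) * x j) := by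
  obtain ⟨C, hC, h⟩ := exists_reduced (Fintype.card ι)
  refine ⟨C, hC, fun N hN hfin => ?_⟩
  set e : ι ≃ Fin (Fintype.card ι) := Fintype.equivFin ι with he
  obtain ⟨b', hb', hred⟩ := h (ι → ℚ) ((Pi.basisFun ℚ ι).reindex e) N hN (by
    intro R
    refine ((hfin R).image (fun y : ι → ℤ => fun i => (y i : ℚ))).subset ?_
    rintro x ⟨hx, hxR⟩
    obtain ⟨y, rfl⟩ := (Reduced_mem e x).1 hx
    exact ⟨y, hxR, rfl⟩)
  have hu : ∀ k, ∃ y : ι → ℤ, b' k = fun i => (y i : ℚ) := by
    intro k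
    refine (Reduced_mem e _).1 ?_
    rw [← hb']
    exact Submodule.subset_span ⟨k, rfl⟩
  choose u hu using hu
  have hv : ∀ j : ι, ∃ c : Fin (Fintype.card ι) → ℤ, ∑ k, c k • b' k = Pi.single j (1 : ℚ) := by
    intro j
    rw [← Submodule.mem_span_range_iff_exists_fun, hb', Reduced_mem]
    refine ⟨Pi.single j 1, ?_⟩
    funext i
    by_cases hij : i = j
    · subst hij
      simp
    · simp [Pi.single_eq_of_ne hij]
  choose v hv using hv
  refine ⟨Matrix.of fun i j => u (e j) i, Matrix.of fun k j => v j (e k), ?_, ?_⟩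
  · ext i j
    rw [Matrix.mul_apply]
    have h1 := congrFun (hv j) i
    rw [Finset.sum_apply] at h1
    have h2 : ((∑ k, u (e k) i * v j (e k) : ℤ) : ℚ) = ((1 : Matrix ι ι ℤ) i j : ℚ) := by
      push_cast
      have h3 : ∑ k, ((v j k • b' k) i : ℚ) = ∑ k : ι, (u (e k) i : ℚ) * (v j (e k) : ℚ) := by
        rw [← Equiv.sum_comp e]
        refine Finset.sum_congr rfl fun k _ => ?_
        rw [Pi.smul_apply, hu (e k), zsmul_eq_mul, mul_comm]
      rw [← h3, h1]
      by_cases hij : i = j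
      · subst hij
        simp
      · rw [Pi.single_eq_of_ne hij, Matrix.one_apply_ne hij, Int.cast_zero]
    exact_mod_cast h2
  · intro x j
    have h1 : (fun i => ∑ j, (((Matrix.of fun i j => u (e j) i) i j : ℤ) : ℚ) * x j) =
        ∑ k, x (e.symm k) • b' k := by
      funext i
      rw [Finset.sum_apply, ← Equiv.sum_comp e]
      refine Finset.sum_congr rfl fun k _ => ?_
      rw [Pi.smul_apply, Equiv.symm_apply_apply, hu (e k), smul_eq_mul, Matrix.of_apply, mul_comm]
    have h2 := hred (∑ k, x (e.symm k) • b' k) (e j)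
    rw [b'.repr_sum_self, Equiv.symm_apply_apply] at h2
    rw [h1]
    refine le_trans (le_of_eq ?_) h2
    rw [hu (e j)]
    rfl

end Pool.Agent.Lib.MP_d0d59f_nt.Sb

end
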