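import Pool.Agent.Lib.MP_d0d59f_nt.Sub.AbsValues
import Pool.Agent.Lib.MP_d0d59f_nt.Sub.ReducedBases

/-!
Almost orthogonal bases over the ring of the rational numbers with denominators 2^a 3^b.
-/

section

namespace Pool.Agent.Lib.MP_d0d59f_nt.Sb

/-- A subgroup between `N ℤ ^ ι` and `N⁻¹ ℤ ^ ι` is generated by the columns of an invertible matrix `G`.
Proof: multiplication by `N` maps `Λ` isomorphically to a subgroup of `ℤ ^ ι`, which is a free
`ℤ`-module of finite rank (`Submodule.nonempty_basis_of_pid`, `Submodule.smithNormalForm`); a basis of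
`Λ` is linearly independent over `ℚ` (clear denominators; `LinearIndependent.iff_fractionRing`) and
spans `ℚ ^ ι` (as `N e_i ∈ Λ`), so it can be indexed by `ι`. `V = G⁻¹`; every `x ∈ Λ` is `G z` with
`z` integral, and `V x = z`. -/
theorem exists_basis_between {ι : Type} [Fintype ι] [DecidableEq ι] (Λ : AddSubgroup (ι → ℚ))
    (N : ℕ) (hN : N ≠ 0) (h1 : ∀ x : ι → ℤ, (fun i => (N : ℚ) * x i) ∈ Λ)
    (h2 : ∀ x ∈ Λ, ∀ i, ∃ z : ℤ, (N : ℚ) * x i = z) :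
    ∃ G V : Matrix ι ι ℚ, G * V = 1 ∧ (∀ j, (fun i => G i j) ∈ Λ) ∧
      ∀ x ∈ Λ, ∀ j, ∃ z : ℤ, ∑ i, V j i * x i = z := by
  classical
  have hN0 : (N : ℚ) ≠ 0 := Nat.cast_ne_zero.mpr hN
  let S : AddSubgroup (ι → ℤ) :=
    { carrier := {y | (fun i => (y i : ℚ) / N) ∈ Λ}
      zero_mem' := by
        have h : (fun i : ι => (((0 : ι → ℤ) i : ℤ) : ℚ) / (N : ℚ)) = 0 := by
          funext i; simp
        show (fun i : ι => (((0 : ι → ℤ) i : ℤ) : ℚ) / (N : ℚ)) ∈ Λ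
        rw [h]; exact Λ.zero_mem
      add_mem' := by
        intro a b ha hb
        have h : (fun i : ι => (((a + b : ι → ℤ) i : ℤ) : ℚ) / (N : ℚ))
            = (fun i => (a i : ℚ) / N) + (fun i => (b i : ℚ) / N) := by
          funext i; simp [add_div]
        show (fun i : ι => (((a + b : ι → ℤ) i : ℤ) : ℚ) / (N : ℚ)) ∈ Λ
        rw [h]; exact Λ.add_mem ha hb
      neg_mem' := by
        intro a ha
        have h : (fun i : ι => (((-a : ι → ℤ) i : ℤ) : ℚ) / (N : ℚ))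
            = -(fun i => (a i : ℚ) / N) := by
          funext i; simp [neg_div]
        show (fun i : ι => (((-a : ι → ℤ) i : ℤ) : ℚ) / (N : ℚ)) ∈ Λ
        rw [h]; exact Λ.neg_mem ha }
  let M : Submodule ℤ (ι → ℤ) := AddSubgroup.toIntSubmodule S
  have hM : ∀ y : ι → ℤ, y ∈ M ↔ (fun i => (y i : ℚ) / N) ∈ Λ := fun y => Iff.rfl
  have hbig : ∀ x : ι → ℤ, (((N : ℤ) ^ 2) • x) ∈ M := by
    intro x
    rw [hM]
    have h : (fun i : ι => (((((N : ℤ) ^ 2) • x) i : ℤ) : ℚ) / (N : ℚ))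
        = (fun i => (N : ℚ) * x i) := by
      funext i
      simp only [Pi.smul_apply, smul_eq_mul, Int.cast_mul, Int.cast_pow, Int.cast_natCast]
      field_simp
    rw [h]; exact h1 x
  have hNz : ((N : ℤ) ^ 2) ≠ 0 := pow_ne_zero _ (Int.natCast_ne_zero.mpr hN)
  have hfr : Module.finrank ℤ M = Module.finrank ℤ (ι → ℤ) := by
    apply le_antisymm
    · exact Submodule.finrank_le M
    · let f : (ι → ℤ) →ₗ[ℤ] M :=
        LinearMap.codRestrict M (((N : ℤ) ^ 2) • LinearMap.id) (fun x => hbig x)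
      have hf : Function.Injective f := by
        intro a b hab
        have h : ((N : ℤ) ^ 2) • a = ((N : ℤ) ^ 2) • b := congrArg Subtype.val hab
        exact smul_right_injective _ hNz h
      exact LinearMap.finrank_le_finrank_of_injective hf
  obtain ⟨b', a, ab', -⟩ := Submodule.exists_smith_normal_form_of_rank_eq
    (Pi.basisFun ℤ ι) hfr
  have hrepr : ∀ y : M, ∀ k, (y : ι → ℤ) k = ∑ j, ab'.repr y j * (ab' j : ι → ℤ) k := by
    intro y k
    have h := ab'.sum_repr y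
    have h' := congrArg (fun w : M => (w : ι → ℤ) k) h
    simp only [AddSubmonoidClass.coe_finsetSum, Finset.sum_apply, Submodule.coe_smul,
      Pi.smul_apply, smul_eq_mul] at h'
    exact h'.symm
  let G : Matrix ι ι ℚ := fun i j => ((ab' j : ι → ℤ) i : ℚ) / N
  let V : Matrix ι ι ℚ := fun j i =>
    ((ab'.repr ⟨((N : ℤ) ^ 2) • (Pi.single i 1), hbig _⟩ j : ℤ) : ℚ) / N
  have hGV : G * V = 1 := by
    ext k i
    rw [Matrix.mul_apply]
    have h := hrepr ⟨((N : ℤ) ^ 2) • (Pi.single i 1), hbig _⟩ k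
    have h' : (((((N : ℤ) ^ 2) • (Pi.single i 1 : ι → ℤ)) k : ℤ) : ℚ)
        = ∑ j, ((ab'.repr ⟨((N : ℤ) ^ 2) • (Pi.single i 1), hbig _⟩ j : ℤ) : ℚ)
          * ((ab' j : ι → ℤ) k : ℚ) := by
      have h3 := congrArg (fun z : ℤ => (z : ℚ)) h
      simpa only [Int.cast_sum, Int.cast_mul] using h3
    have h4 : ∑ j, G k j * V j i = (((((N : ℤ) ^ 2) • (Pi.single i 1 : ι → ℤ)) k : ℤ) : ℚ)
        / ((N : ℚ) ^ 2) := by
      rw [h', Finset.sum_div]
      apply Finset.sum_congr rfl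
      intro j _
      simp only [G, V]
      field_simp
    rw [h4]
    by_cases hki : k = i
    · subst hki
      simp only [Pi.smul_apply, Pi.single_eq_same, smul_eq_mul, mul_one, Int.cast_pow,
        Int.cast_natCast, Matrix.one_apply_eq]
      exact div_self (pow_ne_zero _ hN0)
    · simp [hki]
  have hVG : V * G = 1 := mul_eq_one_comm.mp hGV
  refine ⟨G, V, hGV, ?_, ?_⟩
  · intro j
    exact (hM _).mp (ab' j).2
  · intro x hx j
    choose y hy using h2 x hx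
    have hyM : y ∈ M := by
      rw [hM]
      have h : (fun i : ι => ((y i : ℤ) : ℚ) / (N : ℚ)) = x := by
        funext i
        rw [← hy i]
        field_simp
      rw [h]; exact hx
    refine ⟨ab'.repr ⟨y, hyM⟩ j, ?_⟩
    have hx' : ∀ i, x i = ∑ l, G i l * ((ab'.repr ⟨y, hyM⟩ l : ℤ) : ℚ) := by
      intro i
      have h := hrepr ⟨y, hyM⟩ i
      have h3 : ((y i : ℤ) : ℚ) = ∑ l, ((ab'.repr ⟨y, hyM⟩ l : ℤ) : ℚ) * ((ab' l : ι → ℤ) i : ℚ) := by
        have h4 := congrArg (fun z : ℤ => (z : ℚ)) h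
        simpa only [Int.cast_sum, Int.cast_mul] using h4
      have h5 : x i = ((y i : ℤ) : ℚ) / N := by
        rw [← hy i]; field_simp
      rw [h5, h3, Finset.sum_div]
      apply Finset.sum_congr rfl
      intro l _
      simp only [G]
      ring
    have hv : (fun i => x i) = G.mulVec (fun l => ((ab'.repr ⟨y, hyM⟩ l : ℤ) : ℚ)) := by
      funext i
      rw [hx' i]; rfl
    have h6 : V.mulVec x = (fun l => ((ab'.repr ⟨y, hyM⟩ l : ℤ) : ℚ)) := by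
      have h7 : V.mulVec x = V.mulVec (G.mulVec (fun l => ((ab'.repr ⟨y, hyM⟩ l : ℤ) : ℚ))) :=
        congrArg V.mulVec hv
      rw [h7, Matrix.mulVec_mulVec, hVG, Matrix.one_mulVec]
    exact congrFun h6 j

end Pool.Agent.Lib.MP_d0d59f_nt.Sb

end

section

namespace Pool.Agent.Lib.MP_d0d59f_nt.Sb

/-- ultrametric bound for sums -/
theorem lattice_sum_le {ι : Type} [Fintype ι] (v : Fin 3) (hv : v ≠ 0) (f : ι → ℚ) (C : ℝ)
    (hC : 0 ≤ C) (h : ∀ i, absv v (f i) ≤ C) : absv v (∑ i, f i) ≤ C := by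
  classical
  have key : ∀ s : Finset ι, absv v (∑ i ∈ s, f i) ≤ C := by
    intro s
    induction s using Finset.induction_on with
    | empty => simpa using hC
    | insert a s ha ih =>
      rw [Finset.sum_insert ha]
      exact (absv_add_le v hv _ _).trans (max_le (h a) ih)
  exact key Finset.univ

theorem lattice_bound {ι : Type} [Fintype ι] (f : ι → ℝ) : ∃ K : ℕ, ∀ i, f i ≤ 2 ^ K := by
  obtain ⟨K, hK⟩ := pow_unbounded_of_one_lt (∑ i, |f i|) (one_lt_two : (1 : ℝ) < 2)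
  refine ⟨K, fun i => ?_⟩
  calc f i ≤ |f i| := le_abs_self _
    _ ≤ ∑ i, |f i| :=
      Finset.single_le_sum (f := fun i => |f i|) (fun i _ => abs_nonneg _) (Finset.mem_univ i)
    _ ≤ 2 ^ K := hK.le

theorem lattice_two_le_three (K : ℕ) : (2 : ℝ) ^ K ≤ 3 ^ K :=
  pow_le_pow_left₀ (by norm_num) (by norm_num) K

theorem lattice_scale_core {ι : Type} [Fintype ι] (p : ℕ) (hp : p ≠ 1) (x : ι → ℚ) :
    ∃ D' k : ℕ, ¬ p ∣ D' ∧ ∀ i, ∃ z : ℤ, (D' : ℚ) * x i * (p : ℚ) ^ k = z := by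
  have hD : ∏ i, (x i).den ≠ 0 := Finset.prod_ne_zero_iff.2 (fun i _ => (x i).den_nz)
  obtain ⟨k, D', hpD, hDe⟩ := Nat.exists_eq_pow_mul_and_not_dvd hD p hp
  refine ⟨D', k, hpD, fun i => ?_⟩
  obtain ⟨m, hm⟩ : (x i).den ∣ ∏ j, (x j).den :=
    Finset.dvd_prod_of_mem (fun j => (x j).den) (Finset.mem_univ i)
  refine ⟨m * (x i).num, ?_⟩
  have h0 : p ^ k * D' = (x i).den * m := hDe.symm.trans hm
  have h1 : (p : ℚ) ^ k * D' = (x i).den * m := by exact_mod_cast h0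
  have h3 := Rat.den_mul_eq_num (x i)
  calc (D' : ℚ) * x i * (p : ℚ) ^ k = ((p : ℚ) ^ k * D') * x i := by ring
    _ = ((x i).den * m) * x i := by rw [h1]
    _ = m * ((x i).den * x i) := by ring
    _ = ((m * (x i).num : ℤ) : ℚ) := by rw [h3]; push_cast; ring

theorem lattice_absv_one (m : ℕ) (h : ¬ 2 ∣ m) : absv 1 (m : ℚ) = 1 := by
  have h1 : absv 1 (m : ℚ) = Rat.AbsoluteValue.padic 2 (m : ℚ) := rfl
  rw [h1, Rat.AbsoluteValue.padic_eq_padicNorm, (padicNorm.nat_eq_one_iff m).2 h]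
  simp

theorem lattice_absv_two (m : ℕ) (h : ¬ 3 ∣ m) : absv 2 (m : ℚ) = 1 := by
  have h1 : absv 2 (m : ℚ) = Rat.AbsoluteValue.padic 3 (m : ℚ) := rfl
  rw [h1, Rat.AbsoluteValue.padic_eq_padicNorm, (padicNorm.nat_eq_one_iff m).2 h]
  simp

theorem lattice_pow1 (l : ℕ) : absv 1 ((2 : ℚ) ^ l) = ((2 : ℝ) ^ l)⁻¹ := by
  have h := absv_one_two (l : ℤ)
  rw [zpow_natCast, zpow_neg, zpow_natCast] at h
  exact h

theorem lattice_pow2 (l : ℕ) : absv 2 ((3 : ℚ) ^ l) = ((3 : ℝ) ^ l)⁻¹ := by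
  have h := absv_two_three (l : ℤ)
  rw [zpow_natCast, zpow_neg, zpow_natCast] at h
  exact h

theorem lattice_nat_le (v : Fin 3) (hv : v ≠ 0) (m : ℕ) : absv v (m : ℚ) ≤ 1 := by
  have h := absv_int_le v hv (m : ℤ)
  simpa using h

theorem lattice_scale1 {ι κ : Type} [Fintype ι] [Fintype κ] (x : ι → ℚ) (y : κ → ℚ) :
    ∃ s : ℕ, absv 1 (s : ℚ) = 1 ∧ (∀ i, (s : ℚ) * x i ∈ Z6) ∧
      ∀ i, absv 2 ((s : ℚ) * y i) ≤ 1 := by
  obtain ⟨D', k, hD, hz⟩ := lattice_scale_core 2 (by norm_num) x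
  obtain ⟨l, hl⟩ := lattice_bound (fun i => absv 2 (y i))
  refine ⟨D' * 3 ^ l, ?_, ?_, ?_⟩
  · apply lattice_absv_one
    intro h
    rcases (Nat.Prime.dvd_mul Nat.prime_two).1 h with h | h
    · exact hD h
    · have h2 := Nat.Prime.dvd_of_dvd_pow Nat.prime_two h
      omega
  · intro i
    obtain ⟨z, hz⟩ := hz i
    refine ⟨k, z * 3 ^ l * 3 ^ k, ?_⟩
    have h6 : (6 : ℚ) ^ k = 2 ^ k * 3 ^ k := by rw [← mul_pow]; norm_num
    push_cast at hz ⊢
    rw [h6, ← hz]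
    ring
  · intro i
    have h1 : ((D' * 3 ^ l : ℕ) : ℚ) = (D' : ℚ) * (3 : ℚ) ^ l := by push_cast; ring
    rw [h1, map_mul, map_mul, lattice_pow2]
    have h2 : absv 2 (D' : ℚ) ≤ 1 := lattice_nat_le 2 (by decide) D'
    have h3 : absv 2 (y i) ≤ 3 ^ l := (hl i).trans (lattice_two_le_three l)
    have h4 : (0 : ℝ) < 3 ^ l := by positivity
    have h5 : 0 ≤ absv 2 (y i) := (absv 2).nonneg _
    calc absv 2 (D' : ℚ) * ((3 : ℝ) ^ l)⁻¹ * absv 2 (y i)
        ≤ 1 * ((3 : ℝ) ^ l)⁻¹ * 3 ^ l := by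
          refine mul_le_mul (mul_le_mul_of_nonneg_right h2 (by positivity)) h3 h5 (by positivity)
      _ = 1 := by field_simp

theorem lattice_scale2 {ι κ : Type} [Fintype ι] [Fintype κ] (x : ι → ℚ) (y : κ → ℚ) :
    ∃ s : ℕ, absv 2 (s : ℚ) = 1 ∧ (∀ i, (s : ℚ) * x i ∈ Z6) ∧
      ∀ i, absv 1 ((s : ℚ) * y i) ≤ 1 := by
  obtain ⟨D', k, hD, hz⟩ := lattice_scale_core 3 (by norm_num) x
  obtain ⟨l, hl⟩ := lattice_bound (fun i => absv 1 (y i))
  refine ⟨D' * 2 ^ l, ?_, ?_, ?_⟩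
  · apply lattice_absv_two
    intro h
    rcases (Nat.Prime.dvd_mul Nat.prime_three).1 h with h | h
    · exact hD h
    · have h2 := Nat.Prime.dvd_of_dvd_pow Nat.prime_three h
      omega
  · intro i
    obtain ⟨z, hz⟩ := hz i
    refine ⟨k, z * 2 ^ l * 2 ^ k, ?_⟩
    have h6 : (6 : ℚ) ^ k = 2 ^ k * 3 ^ k := by rw [← mul_pow]; norm_num
    push_cast at hz ⊢
    rw [h6, ← hz]
    ring
  · intro i
    have h1 : ((D' * 2 ^ l : ℕ) : ℚ) = (D' : ℚ) * (2 : ℚ) ^ l := by push_cast; ring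
    rw [h1, map_mul, map_mul, lattice_pow1]
    have h2 : absv 1 (D' : ℚ) ≤ 1 := lattice_nat_le 1 (by decide) D'
    have h3 : absv 1 (y i) ≤ 2 ^ l := hl i
    have h4 : (0 : ℝ) < 2 ^ l := by positivity
    have h5 : 0 ≤ absv 1 (y i) := (absv 1).nonneg _
    calc absv 1 (D' : ℚ) * ((2 : ℝ) ^ l)⁻¹ * absv 1 (y i)
        ≤ 1 * ((2 : ℝ) ^ l)⁻¹ * 2 ^ l := by
          refine mul_le_mul (mul_le_mul_of_nonneg_right h2 (by positivity)) h3 h5 (by positivity)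
      _ = 1 := by field_simp

/-- the lattice -/
def latticeSub {ι : Type} [Fintype ι] (A₂ A₃ : Matrix ι ι ℚ) : AddSubgroup (ι → ℚ) where
  carrier := {x | (∀ i, x i ∈ Z6) ∧ (∀ i, absv 1 ((A₂.mulVec x) i) ≤ 1) ∧
    ∀ i, absv 2 ((A₃.mulVec x) i) ≤ 1}
  zero_mem' := by
    refine ⟨fun i => Z6.zero_mem, fun i => ?_, fun i => ?_⟩
    · rw [Matrix.mulVec_zero]; simp
    · rw [Matrix.mulVec_zero]; simp
  add_mem' := by
    rintro x y ⟨h1, h2, h3⟩ ⟨g1, g2, g3⟩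
    refine ⟨fun i => Z6.add_mem (h1 i) (g1 i), fun i => ?_, fun i => ?_⟩
    · rw [Matrix.mulVec_add]
      exact (absv_add_le 1 (by decide) _ _).trans (max_le (h2 i) (g2 i))
    · rw [Matrix.mulVec_add]
      exact (absv_add_le 2 (by decide) _ _).trans (max_le (h3 i) (g3 i))
  neg_mem' := by
    rintro x ⟨h1, h2, h3⟩
    refine ⟨fun i => Z6.neg_mem (h1 i), fun i => ?_, fun i => ?_⟩
    · rw [Matrix.mulVec_neg, Pi.neg_apply, (absv 1).map_neg]
      exact h2 i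
    · rw [Matrix.mulVec_neg, Pi.neg_apply, (absv 2).map_neg]
      exact h3 i

theorem mem_latticeSub {ι : Type} [Fintype ι] {A₂ A₃ : Matrix ι ι ℚ} {x : ι → ℚ} :
    x ∈ latticeSub A₂ A₃ ↔ (∀ i, x i ∈ Z6) ∧ (∀ i, absv 1 ((A₂.mulVec x) i) ≤ 1) ∧
    ∀ i, absv 2 ((A₃.mulVec x) i) ≤ 1 := Iff.rfl

/-- bound for a matrix times a vector -/
theorem lattice_mulVec_le {ι : Type} [Fintype ι] (v : Fin 3) (hv : v ≠ 0) (A : Matrix ι ι ℚ)
    (x : ι → ℚ) (C D : ℝ) (hC : 0 ≤ C) (hD : 0 ≤ D) (h : ∀ i j, absv v (A i j) ≤ C)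
    (h' : ∀ i, absv v (x i) ≤ D) (i : ι) : absv v ((A.mulVec x) i) ≤ C * D := by
  have h1 : (A.mulVec x) i = ∑ j, A i j * x j := rfl
  rw [h1]
  refine lattice_sum_le v hv _ _ (mul_nonneg hC hD) (fun j => ?_)
  rw [map_mul]
  exact mul_le_mul (h i j) (h' j) ((absv v).nonneg _) hC

theorem exists_lattice {ι : Type} [Fintype ι] [DecidableEq ι] (A₂ A₃ : Matrix ι ι ℚ)
    (h₂ : A₂.det ≠ 0) (h₃ : A₃.det ≠ 0) : ∃ G V : Matrix ι ι ℚ, G * V = 1 ∧
      (∀ i j, G i j ∈ Z6) ∧ (∀ i j, V i j ∈ Z6) ∧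
      (∀ i j, absv 1 ((A₂ * G) i j) ≤ 1) ∧ (∀ i j, absv 1 ((V * A₂⁻¹) i j) ≤ 1) ∧
      (∀ i j, absv 2 ((A₃ * G) i j) ≤ 1) ∧ (∀ i j, absv 2 ((V * A₃⁻¹) i j) ≤ 1) := by
  have hu2 : IsUnit A₂.det := isUnit_iff_ne_zero.2 h₂
  have hu3 : IsUnit A₃.det := isUnit_iff_ne_zero.2 h₃
  have e1 : (1 : Fin 3) ≠ 0 := by decide
  have e2 : (2 : Fin 3) ≠ 0 := by decide
  obtain ⟨K1, hK1⟩ := lattice_bound (fun p : ι × ι => absv 1 (A₂ p.1 p.2))
  obtain ⟨K2, hK2⟩ := lattice_bound (fun p : ι × ι => absv 1 (A₂⁻¹ p.1 p.2))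
  obtain ⟨K3, hK3⟩ := lattice_bound (fun p : ι × ι => absv 2 (A₃ p.1 p.2))
  obtain ⟨K4, hK4⟩ := lattice_bound (fun p : ι × ι => absv 2 (A₃⁻¹ p.1 p.2))
  set K := K1 + K2 + K3 + K4 with hK
  have hmono : ∀ k : ℕ, k ≤ K → (2 : ℝ) ^ k ≤ 2 ^ K := fun k hk =>
    pow_le_pow_right₀ (by norm_num) hk
  have b1 : ∀ i j, absv 1 (A₂ i j) ≤ 2 ^ K := fun i j =>
    (hK1 (i, j)).trans (hmono K1 (by omega))
  have b2 : ∀ i j, absv 1 (A₂⁻¹ i j) ≤ 2 ^ K := fun i j =>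
    (hK2 (i, j)).trans (hmono K2 (by omega))
  have b3 : ∀ i j, absv 2 (A₃ i j) ≤ 3 ^ K := fun i j =>
    ((hK3 (i, j)).trans (hmono K3 (by omega))).trans (lattice_two_le_three K)
  have b4 : ∀ i j, absv 2 (A₃⁻¹ i j) ≤ 3 ^ K := fun i j =>
    ((hK4 (i, j)).trans (hmono K4 (by omega))).trans (lattice_two_le_three K)
  have h6cast : ((6 ^ K : ℕ) : ℚ) = (2 : ℚ) ^ K * 3 ^ K := by
    push_cast
    rw [← mul_pow]; norm_num
  have h61 : absv 1 ((6 ^ K : ℕ) : ℚ) ≤ ((2 : ℝ) ^ K)⁻¹ := by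
    rw [h6cast, map_mul, lattice_pow1]
    have h3 : absv 1 ((3 : ℚ) ^ K) ≤ 1 := by
      have h := lattice_nat_le 1 e1 (3 ^ K)
      push_cast at h
      exact h
    calc ((2 : ℝ) ^ K)⁻¹ * absv 1 ((3 : ℚ) ^ K) ≤ ((2 : ℝ) ^ K)⁻¹ * 1 :=
          mul_le_mul_of_nonneg_left h3 (by positivity)
      _ = ((2 : ℝ) ^ K)⁻¹ := mul_one _
  have h62 : absv 2 ((6 ^ K : ℕ) : ℚ) ≤ ((3 : ℝ) ^ K)⁻¹ := by
    rw [h6cast, map_mul, lattice_pow2]
    have h3 : absv 2 ((2 : ℚ) ^ K) ≤ 1 := by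
      have h := lattice_nat_le 2 e2 (2 ^ K)
      push_cast at h
      exact h
    calc absv 2 ((2 : ℚ) ^ K) * ((3 : ℝ) ^ K)⁻¹ ≤ 1 * ((3 : ℝ) ^ K)⁻¹ :=
          mul_le_mul_of_nonneg_right h3 (by positivity)
      _ = ((3 : ℝ) ^ K)⁻¹ := one_mul _
  have p2 : (0 : ℝ) < 2 ^ K := by positivity
  have p3 : (0 : ℝ) < 3 ^ K := by positivity
  have hin : ∀ x : ι → ℤ, (fun i => ((6 ^ K : ℕ) : ℚ) * x i) ∈ latticeSub A₂ A₃ := by
    intro x
    refine mem_latticeSub.2 ⟨fun i => ?_, fun i => ?_, fun i => ?_⟩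
    · have h := int_mem_Z6 (((6 ^ K : ℕ) : ℤ) * x i)
      push_cast at h ⊢
      exact h
    · have h := lattice_mulVec_le 1 e1 A₂ (fun i => ((6 ^ K : ℕ) : ℚ) * x i) (2 ^ K)
        ((2 : ℝ) ^ K)⁻¹ p2.le (by positivity) b1 (fun i => by
          rw [map_mul]
          calc absv 1 ((6 ^ K : ℕ) : ℚ) * absv 1 (x i : ℚ) ≤ ((2 : ℝ) ^ K)⁻¹ * 1 :=
                mul_le_mul h61 (absv_int_le 1 e1 (x i)) ((absv 1).nonneg _) (by positivity)
            _ = ((2 : ℝ) ^ K)⁻¹ := mul_one _) i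
      rwa [mul_inv_cancel₀ p2.ne'] at h
    · have h := lattice_mulVec_le 2 e2 A₃ (fun i => ((6 ^ K : ℕ) : ℚ) * x i) (3 ^ K)
        ((3 : ℝ) ^ K)⁻¹ p3.le (by positivity) b3 (fun i => by
          rw [map_mul]
          calc absv 2 ((6 ^ K : ℕ) : ℚ) * absv 2 (x i : ℚ) ≤ ((3 : ℝ) ^ K)⁻¹ * 1 :=
                mul_le_mul h62 (absv_int_le 2 e2 (x i)) ((absv 2).nonneg _) (by positivity)
            _ = ((3 : ℝ) ^ K)⁻¹ := mul_one _) i
      rwa [mul_inv_cancel₀ p3.ne'] at h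
  have hout : ∀ x ∈ latticeSub A₂ A₃, ∀ i, ∃ z : ℤ, ((6 ^ K : ℕ) : ℚ) * x i = z := by
    intro x hx i
    obtain ⟨hx1, hx2, hx3⟩ := mem_latticeSub.1 hx
    have hr2 : A₂⁻¹.mulVec (A₂.mulVec x) = x := by
      rw [Matrix.mulVec_mulVec, Matrix.nonsing_inv_mul A₂ hu2, Matrix.one_mulVec]
    have hr3 : A₃⁻¹.mulVec (A₃.mulVec x) = x := by
      rw [Matrix.mulVec_mulVec, Matrix.nonsing_inv_mul A₃ hu3, Matrix.one_mulVec]
    have c1 : absv 1 (x i) ≤ 2 ^ K := by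
      have h := lattice_mulVec_le 1 e1 A₂⁻¹ (A₂.mulVec x) (2 ^ K) 1 p2.le zero_le_one b2 hx2 i
      rwa [hr2, mul_one] at h
    have c2 : absv 2 (x i) ≤ 3 ^ K := by
      have h := lattice_mulVec_le 2 e2 A₃⁻¹ (A₃.mulVec x) (3 ^ K) 1 p3.le zero_le_one b4 hx3 i
      rwa [hr3, mul_one] at h
    obtain ⟨z, hz⟩ := int_of_absv_le (x i) (hx1 i) K c1 c2
    refine ⟨z, ?_⟩
    rw [← hz]
    push_cast
    ring
  obtain ⟨G, V, hGV, hG, hV⟩ := exists_basis_between (latticeSub A₂ A₃) (6 ^ K) (by positivity)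
    hin hout
  have hA2 : ∀ i j, absv 1 ((A₂ * G) i j) ≤ 1 := fun i j => (mem_latticeSub.1 (hG j)).2.1 i
  have hA3 : ∀ i j, absv 2 ((A₃ * G) i j) ≤ 1 := fun i j => (mem_latticeSub.1 (hG j)).2.2 i
  refine ⟨G, V, hGV, fun i j => (mem_latticeSub.1 (hG j)).1 i, ?_, hA2, ?_, hA3, ?_⟩
  · intro i j
    obtain ⟨z, hz⟩ := hV _ (hin (Pi.single j 1)) i
    refine ⟨K, z, ?_⟩
    rw [← hz, Finset.sum_eq_single j]
    · rw [Pi.single_eq_same]
      push_cast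
      ring
    · intro b _ hb
      rw [Pi.single_eq_of_ne hb]
      simp
    · intro h
      exact absurd (Finset.mem_univ j) h
  · intro j i
    obtain ⟨s, hs1, hs2, hs3⟩ := lattice_scale1 (fun i' => A₂⁻¹ i' i)
      (A₃.mulVec (fun i' => A₂⁻¹ i' i))
    have hmem : (fun i' => (s : ℚ) * A₂⁻¹ i' i) ∈ latticeSub A₂ A₃ := by
      have hsm : (fun i' => (s : ℚ) * A₂⁻¹ i' i) = (s : ℚ) • (fun i' => A₂⁻¹ i' i) := rfl
      refine mem_latticeSub.2 ⟨hs2, fun i' => ?_, fun i' => ?_⟩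
      · rw [hsm, Matrix.mulVec_smul, Pi.smul_apply, smul_eq_mul, map_mul, hs1, one_mul]
        have h1 : A₂.mulVec (fun i' => A₂⁻¹ i' i) i' = (A₂ * A₂⁻¹) i' i := rfl
        rw [h1, Matrix.mul_nonsing_inv A₂ hu2, Matrix.one_apply]
        split_ifs
        · simp
        · simp
      · rw [hsm, Matrix.mulVec_smul, Pi.smul_apply, smul_eq_mul]
        exact hs3 i'
    obtain ⟨z, hz⟩ := hV _ hmem j
    have h2 : (s : ℚ) * (V * A₂⁻¹) j i = z := by
      rw [← hz, Matrix.mul_apply, Finset.mul_sum]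
      exact Finset.sum_congr rfl (fun i' _ => by ring)
    have h3 := absv_int_le 1 e1 z
    rw [← h2, map_mul, hs1, one_mul] at h3
    exact h3
  · intro j i
    obtain ⟨s, hs1, hs2, hs3⟩ := lattice_scale2 (fun i' => A₃⁻¹ i' i)
      (A₂.mulVec (fun i' => A₃⁻¹ i' i))
    have hmem : (fun i' => (s : ℚ) * A₃⁻¹ i' i) ∈ latticeSub A₂ A₃ := by
      have hsm : (fun i' => (s : ℚ) * A₃⁻¹ i' i) = (s : ℚ) • (fun i' => A₃⁻¹ i' i) := rfl
      refine mem_latticeSub.2 ⟨hs2, fun i' => ?_, fun i' => ?_⟩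
      · rw [hsm, Matrix.mulVec_smul, Pi.smul_apply, smul_eq_mul]
        exact hs3 i'
      · rw [hsm, Matrix.mulVec_smul, Pi.smul_apply, smul_eq_mul, map_mul, hs1, one_mul]
        have h1 : A₃.mulVec (fun i' => A₃⁻¹ i' i) i' = (A₃ * A₃⁻¹) i' i := rfl
        rw [h1, Matrix.mul_nonsing_inv A₃ hu3, Matrix.one_apply]
        split_ifs
        · simp
        · simp
    obtain ⟨z, hz⟩ := hV _ hmem j
    have h2 : (s : ℚ) * (V * A₃⁻¹) j i = z := by
      rw [← hz, Matrix.mul_apply, Finset.mul_sum]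
      exact Finset.sum_congr rfl (fun i' _ => by ring)
    have h3 := absv_int_le 2 e2 z
    rw [← h2, map_mul, hs1, one_mul] at h3
    exact h3

end Pool.Agent.Lib.MP_d0d59f_nt.Sb

end

section

namespace Pool.Agent.Lib.MP_d0d59f_nt.Sb

theorem StdSplit_sum_le (v : Fin 3) (hv : v ≠ 0) {κ : Type} (s : Finset κ) (f : κ → ℚ) (B : ℝ)
    (hB : 0 ≤ B) (h : ∀ t ∈ s, absv v (f t) ≤ B) : absv v (∑ t ∈ s, f t) ≤ B := by
  classical
  induction s using Finset.induction_on with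
  | empty => simpa using hB
  | insert a s ha ih =>
    rw [Finset.sum_insert ha]
    refine (absv_add_le v hv _ _).trans (max_le (h a (Finset.mem_insert_self _ _)) ?_)
    exact ih fun t ht => h t (Finset.mem_insert_of_mem ht)

theorem StdSplit_sum_mem {κ : Type} (s : Finset κ) (f : κ → ℚ) (h : ∀ t ∈ s, f t ∈ Z6) :
    ∑ t ∈ s, f t ∈ Z6 := Subring.sum_mem Z6 h

/-- the weighted maximum norm of `M x` -/
noncomputable def StdSplit_N {ι : Type} [Fintype ι] [Nonempty ι] (M : Matrix ι ι ℚ) (α : ι → ℝ)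
    (x : ι → ℚ) : ℝ :=
  Finset.univ.sup' Finset.univ_nonempty fun i => |((M.mulVec x i : ℚ) : ℝ)| / α i

theorem StdSplit_le_N {ι : Type} [Fintype ι] [Nonempty ι] (M : Matrix ι ι ℚ) (α : ι → ℝ)
    (x : ι → ℚ) (i : ι) : |((M.mulVec x i : ℚ) : ℝ)| / α i ≤ StdSplit_N M α x :=
  Finset.le_sup' (fun i => |((M.mulVec x i : ℚ) : ℝ)| / α i) (Finset.mem_univ i)

theorem StdSplit_N_le {ι : Type} [Fintype ι] [Nonempty ι] (M : Matrix ι ι ℚ) (α : ι → ℝ)
    (x : ι → ℚ) (B : ℝ) (h : ∀ i, |((M.mulVec x i : ℚ) : ℝ)| / α i ≤ B) :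
    StdSplit_N M α x ≤ B :=
  Finset.sup'_le _ _ fun i _ => h i

theorem StdSplit_N_eq {ι : Type} [Fintype ι] [Nonempty ι] (M : Matrix ι ι ℚ) (α : ι → ℝ)
    (x : ι → ℚ) : ∃ i, StdSplit_N M α x = |((M.mulVec x i : ℚ) : ℝ)| / α i := by
  obtain ⟨i, -, hi⟩ := Finset.exists_mem_eq_sup' (Finset.univ_nonempty (α := ι))
    (fun i => |((M.mulVec x i : ℚ) : ℝ)| / α i)
  exact ⟨i, hi⟩

theorem StdSplit_isNorm {ι : Type} [Fintype ι] [DecidableEq ι] [Nonempty ι] (M : Matrix ι ι ℚ)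
    (hM : M.det ≠ 0) (α : ι → ℝ) (hα : ∀ i, 0 < α i) : IsNorm (StdSplit_N M α) := by
  refine ⟨?_, ?_, ?_⟩
  · intro x hx
    have h1 : M.mulVec x ≠ 0 := by
      intro h
      exact hx (Matrix.eq_zero_of_mulVec_eq_zero hM h)
    obtain ⟨i, hi⟩ := Function.ne_iff.mp h1
    refine lt_of_lt_of_le ?_ (StdSplit_le_N M α x i)
    have : ((M.mulVec x i : ℚ) : ℝ) ≠ 0 := by exact_mod_cast hi
    have h2 := hα i
    positivity
  · intro x y
    refine StdSplit_N_le _ _ _ _ fun i => ?_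
    have h1 := StdSplit_le_N M α x i
    have h2 := StdSplit_le_N M α y i
    rw [Matrix.mulVec_add]
    have h3 : |(((M.mulVec x + M.mulVec y) i : ℚ) : ℝ)| / α i ≤
        |((M.mulVec x i : ℚ) : ℝ)| / α i + |((M.mulVec y i : ℚ) : ℝ)| / α i := by
      rw [← add_div]
      refine div_le_div_of_nonneg_right ?_ (hα i).le
      rw [Pi.add_apply]
      push_cast
      exact abs_add_le _ _
    linarith
  · intro c x
    have hterm : ∀ i, |((M.mulVec (c • x) i : ℚ) : ℝ)| / α i =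
        |(c : ℝ)| * (|((M.mulVec x i : ℚ) : ℝ)| / α i) := by
      intro i
      rw [Matrix.mulVec_smul, Pi.smul_apply, smul_eq_mul]
      push_cast
      rw [abs_mul]
      ring
    refine le_antisymm (StdSplit_N_le _ _ _ _ fun i => ?_) ?_
    · rw [hterm i]
      exact mul_le_mul_of_nonneg_left (StdSplit_le_N M α x i) (abs_nonneg _)
    · obtain ⟨i, hi⟩ := StdSplit_N_eq M α x
      rw [hi, ← hterm i]
      exact StdSplit_le_N M α (c • x) i

theorem StdSplit_finite {ι : Type} [Fintype ι] [DecidableEq ι] [Nonempty ι] (M : Matrix ι ι ℚ)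
    (hM : M.det ≠ 0) (α : ι → ℝ) (hα : ∀ i, 0 < α i) (R : ℝ) :
    {x : ι → ℤ | StdSplit_N M α (fun i => (x i : ℚ)) ≤ R}.Finite := by
  set B : ℝ := ∑ j, ∑ i, |((M⁻¹ j i : ℚ) : ℝ)| * (α i * |R|) with hB
  have hBj : ∀ j, ∑ i, |((M⁻¹ j i : ℚ) : ℝ)| * (α i * |R|) ≤ B := fun j =>
    Finset.single_le_sum (f := fun j => ∑ i, |((M⁻¹ j i : ℚ) : ℝ)| * (α i * |R|))
      (fun j _ => Finset.sum_nonneg fun i _ => by have := hα i; positivity) (Finset.mem_univ j)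
  refine (Set.finite_Icc (fun _ : ι => -⌈B⌉) (fun _ : ι => ⌈B⌉)).subset ?_
  intro x hx
  have hx' : StdSplit_N M α (fun i => (x i : ℚ)) ≤ R := hx
  have hunit : IsUnit M.det := isUnit_iff_ne_zero.mpr hM
  have hb : ∀ j, |((x j : ℤ) : ℝ)| ≤ B := by
    intro j
    refine le_trans ?_ (hBj j)
    have h1 : (M⁻¹).mulVec (M.mulVec (fun i => (x i : ℚ))) = fun i => (x i : ℚ) := by
      rw [Matrix.mulVec_mulVec, Matrix.nonsing_inv_mul _ hunit, Matrix.one_mulVec]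
    have h2 : ((x j : ℤ) : ℝ) = ∑ i, ((M⁻¹ j i : ℚ) : ℝ) *
        ((M.mulVec (fun i => (x i : ℚ)) i : ℚ) : ℝ) := by
      have := congrFun h1 j
      have h3 : ((x j : ℤ) : ℚ) = ∑ i, M⁻¹ j i * M.mulVec (fun i => (x i : ℚ)) i := by
        rw [← this]; rfl
      have h4 := congrArg (fun q : ℚ => (q : ℝ)) h3
      push_cast at h4
      exact h4
    rw [h2]
    refine (Finset.abs_sum_le_sum_abs _ _).trans (Finset.sum_le_sum fun i _ => ?_)
    rw [abs_mul]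
    refine mul_le_mul_of_nonneg_left ?_ (abs_nonneg _)
    have h5 := (StdSplit_le_N M α (fun i => (x i : ℚ)) i).trans hx'
    rw [div_le_iff₀ (hα i)] at h5
    have h6 : R * α i ≤ α i * |R| := by
      rw [mul_comm]
      exact mul_le_mul_of_nonneg_left (le_abs_self R) (hα i).le
    linarith
  have hbz : ∀ j, |x j| ≤ ⌈B⌉ := by
    intro j
    have h1 : ((|x j| : ℤ) : ℝ) ≤ (⌈B⌉ : ℝ) := by
      push_cast
      exact (hb j).trans (Int.le_ceil B)
    exact_mod_cast h1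
  exact ⟨fun j => (abs_le.mp (hbz j)).1, fun j => (abs_le.mp (hbz j)).2⟩

/-- Proof. Apply `exists_lattice` to `D₂ * A 1`, `D₃ * A 2`, `D₂ = diagonal (2 ^ k i)`,
`D₃ = diagonal (3 ^ l i)`: `G₀, V₀` with `|2 ^ (k i) (A 1 * G₀) i j|_2 ≤ 1`, i.e.
`|(A 1 * G₀) i j|_2 ≤ 2 ^ k i`, and `|(V₀ * (A 1)⁻¹) j i * 2 ^ (- k i)|_2 ≤ 1`, i.e.
`|(V₀ * (A 1)⁻¹) j i|_2 ≤ 2 ^ (- k i)`. Let `N x = max_i |(A 0 * G₀ x) i| / α i`, a norm on `ι → ℚ`
(`ι` nonempty; the case of an empty `ι` is trivial) with finitely many integral points in every ball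
(`x = (A 0 * G₀)⁻¹ (A 0 * G₀ x)`, so the entries of `x` are bounded by a constant times `N x`). Let
`U, V` be as in `reduced_matrix` and `G = G₀ * U`, `V' = V * V₀`, `ρ j = N (U j) > 0`. The `p`-adic
conditions remain (`U, V` are integral). `|(A 0 * G) i j| = |(A 0 * G₀ (U j)) i| ≤ α i * ρ j`. For
`x = V' (A 0)⁻¹ e_i`: `A 0 * G x = e_i`, so `N (U x) = 1 / α i` and
`|x j| ρ j ≤ C N (U x) = C / α i`. -/
theorem std_split (ι : Type) [Fintype ι] [DecidableEq ι] : ∃ C : ℝ, 1 ≤ C ∧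
    ∀ (A : Fin 3 → Matrix ι ι ℚ), (∀ v, (A v).det ≠ 0) → ∀ α : ι → ℝ, (∀ i, 0 < α i) →
    ∀ k l : ι → ℤ, ∃ (G V : Matrix ι ι ℚ) (ρ : ι → ℝ), G * V = 1 ∧ (∀ i j, G i j ∈ Z6) ∧
      (∀ i j, V i j ∈ Z6) ∧ (∀ j, 0 < ρ j) ∧
      (∀ i j, absv 0 ((A 0 * G) i j) ≤ α i * ρ j) ∧
      (∀ j i, absv 0 ((V * (A 0)⁻¹) j i) ≤ C / (α i * ρ j)) ∧
      (∀ i j, absv 1 ((A 1 * G) i j) ≤ 2 ^ k i) ∧
      (∀ j i, absv 1 ((V * (A 1)⁻¹) j i) ≤ 2 ^ (-k i)) ∧
      (∀ i j, absv 2 ((A 2 * G) i j) ≤ 3 ^ l i) ∧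
      (∀ j i, absv 2 ((V * (A 2)⁻¹) j i) ≤ 3 ^ (-l i)) := by
  rcases isEmpty_or_nonempty ι with hι | hι
  · refine ⟨1, le_rfl, fun A _ α _ k l => ⟨1, 1, fun i => (hι.false i).elim, ?_, ?_⟩⟩
    · simp
    · exact ⟨fun i => (hι.false i).elim, fun i => (hι.false i).elim, fun i => (hι.false i).elim,
        fun i => (hι.false i).elim, fun i => (hι.false i).elim, fun i => (hι.false i).elim,
        fun i => (hι.false i).elim, fun i => (hι.false i).elim, fun i => (hι.false i).elim⟩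
  obtain ⟨C, hC, hred⟩ := reduced_matrix ι
  refine ⟨C, hC, fun A hA α hα k l => ?_⟩
  set D2 : Matrix ι ι ℚ := Matrix.diagonal (fun i => (2 : ℚ) ^ (k i)) with hD2
  set D3 : Matrix ι ι ℚ := Matrix.diagonal (fun i => (3 : ℚ) ^ (l i)) with hD3
  have hD2det : D2.det ≠ 0 := by
    rw [hD2, Matrix.det_diagonal]
    exact Finset.prod_ne_zero_iff.mpr fun i _ => zpow_ne_zero _ (by norm_num)
  have hD3det : D3.det ≠ 0 := by
    rw [hD3, Matrix.det_diagonal]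
    exact Finset.prod_ne_zero_iff.mpr fun i _ => zpow_ne_zero _ (by norm_num)
  have hD2inv : D2⁻¹ = Matrix.diagonal (fun i => (2 : ℚ) ^ (-k i)) := by
    refine Matrix.inv_eq_right_inv ?_
    rw [hD2, Matrix.diagonal_mul_diagonal, ← Matrix.diagonal_one]
    congr 1
    funext i
    rw [← zpow_add₀ (by norm_num)]
    simp
  have hD3inv : D3⁻¹ = Matrix.diagonal (fun i => (3 : ℚ) ^ (-l i)) := by
    refine Matrix.inv_eq_right_inv ?_
    rw [hD3, Matrix.diagonal_mul_diagonal, ← Matrix.diagonal_one]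
    congr 1
    funext i
    rw [← zpow_add₀ (by norm_num)]
    simp
  obtain ⟨G₀, V₀, hGV, hG0, hV0, h1, h1', h2, h2'⟩ := exists_lattice (D2 * A 1) (D3 * A 2)
    (by rw [Matrix.det_mul]; exact mul_ne_zero hD2det (hA 1))
    (by rw [Matrix.det_mul]; exact mul_ne_zero hD3det (hA 2))
  -- the p-adic conditions
  have p1 : ∀ i j, absv 1 ((A 1 * G₀) i j) ≤ (2 : ℝ) ^ k i := by
    intro i j
    have h := h1 i j
    rw [Matrix.mul_assoc, hD2, Matrix.diagonal_mul, map_mul, absv_one_two, zpow_neg] at h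
    rw [inv_mul_le_iff₀ (by positivity)] at h
    simpa using h
  have p1' : ∀ j i, absv 1 ((V₀ * (A 1)⁻¹) j i) ≤ (2 : ℝ) ^ (-k i) := by
    intro j i
    have h := h1' j i
    rw [Matrix.mul_inv_rev, ← Matrix.mul_assoc, hD2inv, Matrix.mul_diagonal, map_mul,
      absv_one_two, neg_neg] at h
    rw [zpow_neg]
    rw [← le_div_iff₀ (by positivity)] at h
    simpa using h
  have p2 : ∀ i j, absv 2 ((A 2 * G₀) i j) ≤ (3 : ℝ) ^ l i := by
    intro i j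
    have h := h2 i j
    rw [Matrix.mul_assoc, hD3, Matrix.diagonal_mul, map_mul, absv_two_three, zpow_neg] at h
    rw [inv_mul_le_iff₀ (by positivity)] at h
    simpa using h
  have p2' : ∀ j i, absv 2 ((V₀ * (A 2)⁻¹) j i) ≤ (3 : ℝ) ^ (-l i) := by
    intro j i
    have h := h2' j i
    rw [Matrix.mul_inv_rev, ← Matrix.mul_assoc, hD3inv, Matrix.mul_diagonal, map_mul,
      absv_two_three, neg_neg] at h
    rw [zpow_neg]
    rw [← le_div_iff₀ (by positivity)] at h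
    simpa using h
  -- the norm
  have hG0det : G₀.det ≠ 0 := by
    intro h
    have := congrArg Matrix.det hGV
    rw [Matrix.det_mul, h, zero_mul, Matrix.det_one] at this
    exact zero_ne_one this
  have hMdet : (A 0 * G₀).det ≠ 0 := by
    rw [Matrix.det_mul]; exact mul_ne_zero (hA 0) hG0det
  obtain ⟨U, V, hUV, hUV'⟩ := hred (StdSplit_N (A 0 * G₀) α)
    (StdSplit_isNorm _ hMdet α hα) (StdSplit_finite _ hMdet α hα)
  set U' : Matrix ι ι ℚ := U.map (Int.castRingHom ℚ) with hU'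
  set V' : Matrix ι ι ℚ := V.map (Int.castRingHom ℚ) with hV'
  have hUVq : U' * V' = 1 := by
    rw [hU', hV', ← Matrix.map_mul, hUV, Matrix.map_one _ (map_zero _) (map_one _)]
  have hU'e : ∀ i j, U' i j = (U i j : ℚ) := fun i j => rfl
  have hV'e : ∀ i j, V' i j = (V i j : ℚ) := fun i j => rfl
  have hcol : ∀ j, (fun i => (U i j : ℚ)) ≠ 0 := by
    intro j h
    have h3 : (1 : Matrix ι ι ℚ) j j = 0 := by
      have h4 : V' * U' = 1 := mul_eq_one_comm.mp hUVq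
      rw [← h4, Matrix.mul_apply]
      refine Finset.sum_eq_zero fun t _ => ?_
      rw [hU'e, congrFun h t, Pi.zero_apply, mul_zero]
    rw [Matrix.one_apply_eq] at h3
    exact one_ne_zero h3
  have hmv : ∀ i j, (A 0 * (G₀ * U')) i j =
      (A 0 * G₀).mulVec (fun i => (U i j : ℚ)) i := by
    intro i j
    rw [← Matrix.mul_assoc, Matrix.mul_apply]
    rfl
  refine ⟨G₀ * U', V' * V₀, fun j => StdSplit_N (A 0 * G₀) α (fun i => (U i j : ℚ)), ?_, ?_, ?_,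
    ?_, ?_, ?_, ?_, ?_, ?_, ?_⟩
  · rw [Matrix.mul_assoc, ← Matrix.mul_assoc U', hUVq, Matrix.one_mul, hGV]
  · intro i j
    rw [Matrix.mul_apply]
    exact StdSplit_sum_mem _ _ fun t _ => Z6.mul_mem (hG0 i t) (by rw [hU'e]; exact int_mem_Z6 _)
  · intro i j
    rw [Matrix.mul_apply]
    exact StdSplit_sum_mem _ _ fun t _ => Z6.mul_mem (by rw [hV'e]; exact int_mem_Z6 _) (hV0 t j)
  · intro j
    exact (StdSplit_isNorm _ hMdet α hα).pos _ (hcol j)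
  · intro i j
    rw [absv_zero_eq, hmv]
    have h := StdSplit_le_N (A 0 * G₀) α (fun i => (U i j : ℚ)) i
    rw [div_le_iff₀ (hα i)] at h
    rw [mul_comm]
    exact h
  · intro j i
    have hρ : 0 < StdSplit_N (A 0 * G₀) α (fun i => (U i j : ℚ)) :=
      (StdSplit_isNorm _ hMdet α hα).pos _ (hcol j)
    have hA0 : IsUnit (A 0).det := isUnit_iff_ne_zero.mpr (hA 0)
    have h := hUV' (fun j => (V' * V₀ * (A 0)⁻¹) j i) j
    have hx : (fun i' => ∑ j, (U i' j : ℚ) * (V' * V₀ * (A 0)⁻¹) j i) =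
        fun i' => (V₀ * (A 0)⁻¹) i' i := by
      funext i'
      have h5 : ∑ j, (U i' j : ℚ) * (V' * V₀ * (A 0)⁻¹) j i =
          (U' * (V' * V₀ * (A 0)⁻¹)) i' i := by
        rw [Matrix.mul_apply]
        rfl
      rw [h5, Matrix.mul_assoc V', ← Matrix.mul_assoc U', hUVq, Matrix.one_mul]
    rw [hx] at h
    have h6 : (A 0 * G₀).mulVec (fun i' => (V₀ * (A 0)⁻¹) i' i) =
        fun i' => (1 : Matrix ι ι ℚ) i' i := by
      have h7 : (A 0 * G₀) * (V₀ * (A 0)⁻¹) = 1 := by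
        rw [Matrix.mul_assoc, ← Matrix.mul_assoc G₀, hGV, Matrix.one_mul,
          Matrix.mul_nonsing_inv _ hA0]
      funext i'
      rw [← h7, Matrix.mul_apply]
      rfl
    have hN : StdSplit_N (A 0 * G₀) α (fun i' => (V₀ * (A 0)⁻¹) i' i) ≤ 1 / α i := by
      refine StdSplit_N_le _ _ _ _ fun i' => ?_
      rw [h6]
      by_cases hii : i' = i
      · subst hii
        simp
      · have := hα i
        simp only [Matrix.one_apply_ne hii, Rat.cast_zero, abs_zero, zero_div]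
        positivity
    have hC0 : 0 ≤ C := le_trans zero_le_one hC
    have h8 : |(((V' * V₀ * (A 0)⁻¹) j i : ℚ) : ℝ)| *
        StdSplit_N (A 0 * G₀) α (fun i => (U i j : ℚ)) ≤ C * (1 / α i) :=
      h.trans (mul_le_mul_of_nonneg_left hN hC0)
    rw [absv_zero_eq, le_div_iff₀ (mul_pos (hα i) hρ)]
    have h9 : C * (1 / α i) = C / α i := by ring
    rw [h9, le_div_iff₀ (hα i)] at h8
    linarith [h8]
  · intro i j
    rw [← Matrix.mul_assoc, Matrix.mul_apply]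
    refine StdSplit_sum_le 1 (by decide) _ _ _ (by positivity) fun t _ => ?_
    rw [map_mul]
    have h3 := p1 i t
    have h4 := absv_int_le 1 (by decide) (U t j)
    rw [hU'e]
    calc _ ≤ (2 : ℝ) ^ k i * 1 := mul_le_mul h3 h4 ((absv 1).nonneg _) (by positivity)
      _ = _ := mul_one _
  · intro j i
    rw [Matrix.mul_assoc, Matrix.mul_apply]
    refine StdSplit_sum_le 1 (by decide) _ _ _ (by positivity) fun t _ => ?_
    rw [map_mul]
    have h3 := p1' t i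
    have h4 := absv_int_le 1 (by decide) (V j t)
    rw [hV'e]
    calc _ ≤ 1 * (2 : ℝ) ^ (-k i) := mul_le_mul h4 h3 ((absv 1).nonneg _) zero_le_one
      _ = _ := one_mul _
  · intro i j
    rw [← Matrix.mul_assoc, Matrix.mul_apply]
    refine StdSplit_sum_le 2 (by decide) _ _ _ (by positivity) fun t _ => ?_
    rw [map_mul]
    have h3 := p2 i t
    have h4 := absv_int_le 2 (by decide) (U t j)
    rw [hU'e]
    calc _ ≤ (3 : ℝ) ^ l i * 1 := mul_le_mul h3 h4 ((absv 2).nonneg _) (by positivity)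
      _ = _ := mul_one _
  · intro j i
    rw [Matrix.mul_assoc, Matrix.mul_apply]
    refine StdSplit_sum_le 2 (by decide) _ _ _ (by positivity) fun t _ => ?_
    rw [map_mul]
    have h3 := p2' t i
    have h4 := absv_int_le 2 (by decide) (V j t)
    rw [hV'e]
    calc _ ≤ 1 * (3 : ℝ) ^ (-l i) := mul_le_mul h4 h3 ((absv 2).nonneg _) zero_le_one
      _ = _ := one_mul _

end Pool.Agent.Lib.MP_d0d59f_nt.Sb

end
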