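import Pool.Agent.Lib.MP_d0d59f_nt.Sub.Substitutions
import Pool.Agent.Lib.MP_d0d59f_nt.Sub.Heights

/-!
The auxiliary polynomial.
-/

section

namespace Pool.Agent.Lib.MP_d0d59f_nt.Sb

open MvPolynomial Auto

theorem siegel_wrap {α β : Type} [Fintype α] [Fintype β] (A : Matrix α β ℤ) {T : ℝ} (hT : 1 ≤ T)
    (hA : ∀ i j, |((A i j : ℤ) : ℝ)| ≤ T) (hn : 2 * Fintype.card α ≤ Fintype.card β)
    (hβ : 0 < Fintype.card β) :
    ∃ t : β → ℤ, t ≠ 0 ∧ A.mulVec t = 0 ∧ ∀ j, |((t j : ℤ) : ℝ)| ≤ Fintype.card β * T := by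
  classical
  have hβ1 : (1 : ℝ) ≤ Fintype.card β := by exact_mod_cast hβ
  rcases Nat.eq_zero_or_pos (Fintype.card α) with h0 | h0
  · have : IsEmpty α := Fintype.card_eq_zero_iff.mp h0
    obtain ⟨b⟩ := Fintype.card_pos_iff.mp hβ
    refine ⟨Pi.single b 1, ?_, Subsingleton.elim _ _, fun j => ?_⟩
    · intro h
      have := congrFun h b
      simp at this
    · have h1 : |(((Pi.single b 1 : β → ℤ) j : ℤ) : ℝ)| ≤ 1 := by
        by_cases hj : j = b
        · subst hj; simp
        · simp [hj]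
      nlinarith
  · let _ := (Matrix.seminormedAddCommGroup : SeminormedAddCommGroup (Matrix α β ℤ))
    obtain ⟨t, ht0, ht1, ht2⟩ := Int.Matrix.exists_ne_zero_int_vec_norm_le A (by omega) h0
    refine ⟨t, ht0, ht1, fun j => ?_⟩
    have h1 : ‖t j‖ ≤ ‖t‖ := norm_le_pi_norm t j
    rw [Int.norm_eq_abs] at h1
    refine h1.trans (ht2.trans ?_)
    have hAn : ‖A‖ ≤ T := by
      rw [Matrix.norm_le_iff (by linarith)]
      intro i j
      rw [Int.norm_eq_abs]
      exact hA i j
    have h2 : (Fintype.card β : ℝ) * max 1 ‖A‖ ≤ Fintype.card β * T :=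
      mul_le_mul_of_nonneg_left (max_le hT hAn) (by linarith)
    have h3 : 1 ≤ (Fintype.card β : ℝ) * max 1 ‖A‖ := by
      have : (1 : ℝ) ≤ max 1 ‖A‖ := le_max_left _ _
      nlinarith
    have h4 : (2 : ℝ) * Fintype.card α ≤ Fintype.card β := by exact_mod_cast hn
    have h5 : (0 : ℝ) < Fintype.card α := by exact_mod_cast h0
    have h6 : ((Fintype.card α : ℝ) / (Fintype.card β - Fintype.card α)) ≤ 1 := by
      rw [div_le_one (by linarith)]
      linarith
    calc _ ≤ ((Fintype.card β : ℝ) * max 1 ‖A‖) ^ (1 : ℝ) :=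
          Real.rpow_le_rpow_of_exponent_le h3 h6
      _ = (Fintype.card β : ℝ) * max 1 ‖A‖ := Real.rpow_one _
      _ ≤ _ := h2

section aux

variable {M : ℕ} {ι : Type} [Fintype ι] [DecidableEq ι]

theorem siegel_mem_expSet {d : Fin M → ℕ} {e : Fin M → ι → ℕ} :
    e ∈ expSet d ↔ ∀ j, ∑ i, e j i = d j := by
  simp [expSet, Fintype.mem_piFinset, Finset.mem_piAntidiag]

/-- exponent functions in two variables as finitely supported functions -/
noncomputable def siegelFe (e : Fin M → ι → ℕ) : (Fin M × ι) →₀ ℕ :=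
  Finsupp.equivFunOnFinite.symm (fun x => e x.1 x.2)

omit [DecidableEq ι] in
theorem siegelFe_apply (e : Fin M → ι → ℕ) (x : Fin M × ι) : siegelFe e x = e x.1 x.2 := rfl

omit [DecidableEq ι] in
theorem siegelFe_inj {e e' : Fin M → ι → ℕ} (h : siegelFe e = siegelFe e') : e = e' := by
  funext j i
  have := DFunLike.congr_fun h (j, i)
  simpa [siegelFe_apply] using this

omit [DecidableEq ι] in
theorem siegelFe_curry (f : (Fin M × ι) →₀ ℕ) : siegelFe (fun j i => f (j, i)) = f := by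
  ext x
  rfl

omit [DecidableEq ι] in
theorem siegel_lsub_monomial (B : Fin M → Matrix ι ι ℚ) (e : Fin M → ι → ℕ) :
    lsub B (monomial (siegelFe e) 1) =
      ∏ x : Fin M × ι, (∑ k, C (B x.1 x.2 k) * X (x.1, k)) ^ (e x.1 x.2) := by
  rw [lsub, aeval_monomial, map_one, one_mul, Finsupp.prod_fintype _ _ (fun _ => pow_zero _)]
  rfl

theorem siegel_scale {d : Fin M → ℕ} {e : Fin M → ι → ℕ} (he : e ∈ expSet d)
    (B : Fin M → Matrix ι ι ℚ) (q : Fin M → ℚ) :
    lsub (fun j => q j • B j) (monomial (siegelFe e) 1) =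
      C (∏ j, q j ^ d j) * lsub B (monomial (siegelFe e) 1) := by
  rw [siegel_lsub_monomial, siegel_lsub_monomial]
  have h1 : ∀ x : Fin M × ι, (∑ k, C ((q x.1 • B x.1) x.2 k) * X (x.1, k) :
      MvPolynomial (Fin M × ι) ℚ) ^ (e x.1 x.2) =
      C (q x.1) ^ (e x.1 x.2) * (∑ k, C (B x.1 x.2 k) * X (x.1, k)) ^ (e x.1 x.2) := by
    intro x
    rw [← mul_pow, Finset.mul_sum]
    congr 1
    refine Finset.sum_congr rfl fun k _ => ?_
    rw [Matrix.smul_apply, smul_eq_mul, C_mul, mul_assoc]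
  rw [Finset.prod_congr rfl fun x _ => h1 x, Finset.prod_mul_distrib]
  congr 1
  rw [Fintype.prod_prod_type, map_prod]
  refine Finset.prod_congr rfl fun j _ => ?_
  change ∏ y, C (q j) ^ e j y = C (q j ^ d j)
  rw [Finset.prod_pow_eq_pow_sum, siegel_mem_expSet.mp he j, C_pow]

theorem siegel_coeff_le {d : Fin M → ℕ} {e : Fin M → ι → ℕ} (he : e ∈ expSet d)
    (B : Fin M → Matrix ι ι ℚ) {H : Fin M → ℝ} (hH : ∀ j, 0 ≤ H j)
    (hB : ∀ j i k, |((B j i k : ℚ) : ℝ)| ≤ H j) (f : (Fin M × ι) →₀ ℕ) :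
    |((coeff f (lsub B (monomial (siegelFe e) 1)) : ℚ) : ℝ)| ≤
      ∏ j, ((Fintype.card ι : ℝ) * H j) ^ d j := by
  have h1 := coeff_le_pnorm (a := Rat.AbsoluteValue.real) (r := fun _ : Fin M × ι => (1 : ℝ))
    (fun _ => zero_le_one) (lsub B (monomial (siegelFe e) 1)) f
  have h2 := pnorm_lsub_le Rat.AbsoluteValue.real (r := fun _ : Fin M × ι => (1 : ℝ))
    (ρ := fun x => (Fintype.card ι : ℝ) * H x.1)
    (fun _ => zero_le_one) B (monomial (siegelFe e) 1) (fun x => by
      calc ∑ k, Rat.AbsoluteValue.real (B x.1 x.2 k) * 1 ≤ ∑ _k : ι, H x.1 := by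
            refine Finset.sum_le_sum fun k _ => ?_
            rw [mul_one, Rat.AbsoluteValue.real_eq_abs]
            have := hB x.1 x.2 k
            push_cast
            exact this
        _ = (Fintype.card ι : ℝ) * H x.1 := by
            rw [Finset.sum_const, Finset.card_univ, nsmul_eq_mul])
  have h3 := pnorm_monomial (a := Rat.AbsoluteValue.real)
    (r := fun x : Fin M × ι => (Fintype.card ι : ℝ) * H x.1)
    (fun x => mul_nonneg (Nat.cast_nonneg _) (hH x.1)) (siegelFe e) 1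
  rw [h3] at h2
  have h4 : ∏ x : Fin M × ι, ((Fintype.card ι : ℝ) * H x.1) ^ (siegelFe e x) =
      ∏ j, ((Fintype.card ι : ℝ) * H j) ^ d j := by
    rw [Fintype.prod_prod_type]
    refine Finset.prod_congr rfl fun j _ => ?_
    simp only [siegelFe_apply]
    rw [Finset.prod_pow_eq_pow_sum, siegel_mem_expSet.mp he j]
  rw [h4] at h2
  have h5 := h1.trans h2
  simp only [one_pow, Finset.prod_const_one, mul_one, map_one, one_mul] at h5
  rw [Rat.AbsoluteValue.real_eq_abs] at h5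
  push_cast at h5
  exact h5

theorem siegel_integral (B : Fin M → Matrix ι ι ℚ) (hB : ∀ j i k, ∃ z : ℤ, B j i k = z)
    (e : Fin M → ι → ℕ) (f : (Fin M × ι) →₀ ℕ) :
    ∃ z : ℤ, coeff f (lsub B (monomial (siegelFe e) 1)) = z := by
  have h := coeff_lsub_mem (Int.castRingHom ℚ).range (B := B) (P := monomial (siegelFe e) 1)
    (fun j i k => by
      obtain ⟨z, hz⟩ := hB j i k
      exact ⟨z, hz.symm⟩)
    (fun g => by
      rw [coeff_monomial]
      split_ifs
      · exact one_mem _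
      · exact zero_mem _) f
  obtain ⟨z, hz⟩ := h
  exact ⟨z, hz.symm⟩

omit [DecidableEq ι] in
theorem siegel_den (B : Matrix ι ι ℚ) {h : ℝ} (h1 : 1 ≤ h) (hB : ∀ i k, (ht (B i k) : ℝ) ≤ h) :
    ∃ q : ℕ, 0 < q ∧ (∀ i k, ∃ z : ℤ, ((q : ℚ) • B) i k = z) ∧
      ∀ i k, |((((q : ℚ) • B) i k : ℚ) : ℝ)| ≤ h ^ ((Fintype.card ι) ^ 2 + 1) := by
  refine ⟨∏ x : ι × ι, (B x.1 x.2).den, Finset.prod_pos fun x _ => (B x.1 x.2).pos, ?_, ?_⟩
  · intro i k
    obtain ⟨c, hc⟩ : (B i k).den ∣ ∏ x : ι × ι, (B x.1 x.2).den :=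
      Finset.dvd_prod_of_mem (fun x : ι × ι => (B x.1 x.2).den) (Finset.mem_univ (i, k))
    refine ⟨(B i k).num * c, ?_⟩
    rw [Matrix.smul_apply, smul_eq_mul, hc]
    push_cast
    rw [mul_comm ((B i k).den : ℚ) c, mul_assoc, Rat.den_mul_eq_num]
    ring
  · intro i k
    rw [Matrix.smul_apply, smul_eq_mul]
    push_cast
    rw [abs_mul, pow_succ]
    have hh : ∀ i k, ((B i k).den : ℝ) ≤ h := fun i k =>
      le_trans (by exact_mod_cast ah_den_le (B i k)) (hB i k)
    have h2 : |(∏ x : ι × ι, ((B x.1 x.2).den : ℝ))| ≤ h ^ (Fintype.card ι) ^ 2 := by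
      rw [abs_of_nonneg (Finset.prod_nonneg fun x _ => Nat.cast_nonneg _)]
      calc ∏ x : ι × ι, ((B x.1 x.2).den : ℝ) ≤ ∏ _x : ι × ι, h :=
            Finset.prod_le_prod (fun _ _ => Nat.cast_nonneg _) (fun x _ => hh x.1 x.2)
        _ = h ^ (Fintype.card ι) ^ 2 := by
            rw [Finset.prod_const, Finset.card_univ, Fintype.card_prod, sq]
    have h3 : |((B i k : ℚ) : ℝ)| ≤ h := by
      refine le_trans ?_ (hB i k)
      have h4 : (B i k : ℝ) = ((B i k).num : ℝ) / ((B i k).den : ℝ) := by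
        exact_mod_cast congrArg (fun x : ℚ => (x : ℝ)) (Rat.num_div_den (B i k)).symm
      have h5 : (1 : ℝ) ≤ (B i k).den := by exact_mod_cast (B i k).pos
      rw [h4, abs_div, abs_of_nonneg (show (0 : ℝ) ≤ (B i k).den by linarith)]
      have h6 : |((B i k).num : ℝ)| ≤ ht (B i k) := by
        have := ah_num_le (B i k)
        have h7 : |((B i k).num : ℝ)| = (((B i k).num.natAbs : ℕ) : ℝ) := by
          rw [Nat.cast_natAbs]; push_cast; rfl
        rw [h7]
        exact_mod_cast this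
      exact (div_le_self (abs_nonneg _) h5).trans h6
    exact mul_le_mul h2 h3 (abs_nonneg _) (by positivity)

end aux

/-- Let `M ≥ M₀` (`card_bad_le`). There is a nonzero multihomogeneous polynomial with integral coefficients
of size at most `∏ (n ^ 2 h_j ^ (n ^ 2 + 1)) ^ d_j` such that for `v = 0, 1, 2` the polynomial
`P ((A v)⁻¹ y)` has only balanced monomials.
Proof. For `v, j` let `q v j` be the product of the denominators of the entries of `(A v j)⁻¹`, so
`q v j * (A v j)⁻¹` has integral entries of absolute value at most `h_j ^ (n ^ 2 + 1)`. For an exponent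
`e` of `expSet d` let `x ^ e` be the monomial. `lsub (q v j * (A v j)⁻¹) (x ^ e)` has integral
coefficients, its `pnorm` (real absolute value, weights one) is at most
`∏ (n h_j ^ (n ^ 2 + 1)) ^ d_j =: T` (`pnorm_lsub_le`). The unknowns are the coefficients `c e`,
`e ∈ expSet d`, `N` of them; the equations: for every `v` and every bad `f ∈ expSet d` the coefficient
of `x ^ f` in `∑ e, c e * lsub (q v (A v)⁻¹) (x ^ e)` vanishes; their number is at most
`3 N / 6 = N / 2` (`card_bad_le`). If there are no equations take a monomial. Else Siegel's lemma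
`Int.Matrix.exists_ne_zero_int_vec_norm_le` gives a nonzero integral solution with
`|c e| ≤ (N * max 1 T) ^ (m / (N - m)) ≤ N T ≤ ∏ (n ^ 2 h_j ^ (n ^ 2 + 1)) ^ d_j` (`card_expSet_le`).
`P = ∑ c e x ^ e`. Since `lsub (q v (A v)⁻¹) P = (∏ (q v j) ^ d_j) • lsub (A v)⁻¹ P` the polynomial
`lsub (A v)⁻¹ P` has no bad monomials; its monomials have degree `d` (`MHom.lsub`). -/
theorem exists_aux (ι : Type) [Fintype ι] [DecidableEq ι] [Nonempty ι] {ε : ℝ} (hε : 0 < ε) :
    ∃ M₀ : ℕ, ∀ M ≥ M₀, ∀ d : Fin M → ℕ, (∀ j, 0 < d j) →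
      ∀ A : Fin 3 → Fin M → Matrix ι ι ℚ, (∀ v j, (A v j).det ≠ 0) → ∀ h : Fin M → ℝ,
      (∀ j, 1 ≤ h j) → (∀ v j i k, (ht ((A v j)⁻¹ i k) : ℝ) ≤ h j) →
      ∃ P : MvPolynomial (Fin M × ι) ℤ, P ≠ 0 ∧ MHom d (map (Int.castRingHom ℚ) P) ∧
        (∀ e, |((coeff e P : ℤ) : ℝ)| ≤ ∏ j, ((Fintype.card ι : ℝ) ^ 2 *
          h j ^ ((Fintype.card ι) ^ 2 + 1)) ^ d j) ∧
        ∀ v, ∀ e ∈ (lsub (fun j => (A v j)⁻¹) (map (Int.castRingHom ℚ) P)).support,
          ¬ Bad ε d (fun j i => e (j, i)) := by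
  classical
  obtain ⟨M₀, hM₀⟩ := card_bad_le ι hε
  refine ⟨M₀, fun M hM d hd A _hA h hh hht => ?_⟩
  set s : Finset (Fin M → ι → ℕ) := (expSet d).filter (Bad ε d) with hs
  have hcard : 6 * s.card ≤ (expSet (ι := ι) d).card :=
    hM₀ M hM d hd s (Finset.filter_subset _ _) (fun e he => (Finset.mem_filter.mp he).2)
  choose q hq0 hqi hqb using fun (v : Fin 3) (j : Fin M) => siegel_den ((A v j)⁻¹) (hh j)
    (fun i k => hht v j i k)
  set n : ℝ := (Fintype.card ι : ℝ) with hn
  have hn1 : 1 ≤ n := by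
    rw [hn]
    exact_mod_cast Fintype.card_pos
  set K : ℕ := (Fintype.card ι) ^ 2 + 1 with hK
  set T : ℝ := ∏ j, (n * h j ^ K) ^ d j with hT
  have hT1 : 1 ≤ T := by
    rw [hT]
    have h0 : ∀ j, 1 ≤ (n * h j ^ K) ^ d j := fun j => by
      have h1 : 1 ≤ h j ^ K := one_le_pow₀ (hh j)
      exact one_le_pow₀ (by nlinarith)
    calc (1 : ℝ) = ∏ _j : Fin M, (1 : ℝ) := by rw [Finset.prod_const_one]
      _ ≤ _ := Finset.prod_le_prod (fun _ _ => zero_le_one) (fun j _ => h0 j)
  -- the integral matrix of the equations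
  set Bq : Fin 3 → Fin M → Matrix ι ι ℚ := fun v j => (q v j : ℚ) • (A v j)⁻¹ with hBq
  choose W hW using fun (x : Fin 3 × s) (e : expSet (ι := ι) d) =>
    siegel_integral (Bq x.1) (hqi x.1) e.1 (siegelFe x.2.1)
  have hWb : ∀ x e, |((W x e : ℤ) : ℝ)| ≤ T := by
    intro x e
    have h1 := siegel_coeff_le e.2 (Bq x.1) (H := fun j => h j ^ K)
      (fun j => by have := hh j; positivity) (hqb x.1) (siegelFe x.2.1)
    rw [hW x e] at h1
    push_cast at h1
    exact h1
  have hN0 : 0 < Fintype.card (expSet (ι := ι) d) := by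
    rw [Fintype.card_coe, Finset.card_pos]
    obtain ⟨i0⟩ := (inferInstance : Nonempty ι)
    exact ⟨fun j => Pi.single i0 (d j), siegel_mem_expSet.mpr fun j => by simp⟩
  have hc2 : 2 * Fintype.card (Fin 3 × s) ≤ Fintype.card (expSet (ι := ι) d) := by
    rw [Fintype.card_prod, Fintype.card_fin, Fintype.card_coe, Fintype.card_coe]
    omega
  obtain ⟨t, ht0, ht1, ht2⟩ := siegel_wrap (Matrix.of W) hT1 hWb hc2 hN0
  -- the polynomial
  set P : MvPolynomial (Fin M × ι) ℤ := ∑ e : expSet (ι := ι) d, monomial (siegelFe e.1) (t e)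
    with hP
  have hcoeff : ∀ f, coeff f P = ∑ e : expSet (ι := ι) d, if siegelFe e.1 = f then t e else 0 := by
    intro f
    rw [hP, coeff_sum]
    simp only [coeff_monomial]
  have hcoeff1 : ∀ e : expSet (ι := ι) d, coeff (siegelFe e.1) P = t e := by
    intro e
    rw [hcoeff, Finset.sum_eq_single e]
    · simp
    · intro b _ hb
      rw [if_neg]
      intro h1
      exact hb (Subtype.ext (siegelFe_inj h1))
    · intro h1
      exact absurd (Finset.mem_univ _) h1
  have hcoeff2 : ∀ f, coeff f P ≠ 0 → ∃ e : expSet (ι := ι) d, siegelFe e.1 = f := by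
    intro f hf
    by_contra hne
    push Not at hne
    apply hf
    rw [hcoeff]
    exact Finset.sum_eq_zero fun e _ => if_neg (hne e)
  have hMH : MHom d (map (Int.castRingHom ℚ) P) := by
    intro f hf j
    rw [mem_support_iff, coeff_map] at hf
    have hf' : coeff f P ≠ 0 := by
      intro h0
      apply hf
      rw [h0, map_zero]
    obtain ⟨e, he⟩ := hcoeff2 f hf'
    rw [← he]
    exact siegel_mem_expSet.mp e.2 j
  refine ⟨P, ?_, hMH, ?_, ?_⟩
  · obtain ⟨e, he⟩ := Function.ne_iff.mp ht0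
    intro h0
    apply he
    rw [← hcoeff1 e, h0]
    simp
  · intro f
    have hb0 : (Fintype.card (expSet (ι := ι) d) : ℝ) * T ≤ ∏ j, (n ^ 2 * h j ^ K) ^ d j := by
      have h1 : (Fintype.card (expSet (ι := ι) d) : ℝ) ≤ ∏ j, n ^ d j := by
        rw [Fintype.card_coe, Finset.prod_pow_eq_pow_sum, hn]
        exact_mod_cast card_expSet_le ι d
      calc (Fintype.card (expSet (ι := ι) d) : ℝ) * T ≤ (∏ j, n ^ d j) * T :=
            mul_le_mul_of_nonneg_right h1 (by linarith)
        _ = ∏ j, (n ^ 2 * h j ^ K) ^ d j := by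
            rw [hT, ← Finset.prod_mul_distrib]
            refine Finset.prod_congr rfl fun j _ => ?_
            rw [← mul_pow]
            congr 1
            ring
    by_cases hf : coeff f P = 0
    · rw [hf]
      simp only [Int.cast_zero, abs_zero]
      have : (0 : ℝ) ≤ (Fintype.card (expSet (ι := ι) d) : ℝ) * T :=
        mul_nonneg (Nat.cast_nonneg _) (by linarith)
      exact this.trans hb0
    · obtain ⟨e, he⟩ := hcoeff2 f hf
      rw [← he, hcoeff1 e]
      exact (ht2 e).trans hb0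
  · intro v f hf hbad
    have hmh := MHom.lsub hMH (fun j => (A v j)⁻¹) f hf
    have hfs : (fun j i => f (j, i)) ∈ s := by
      rw [hs, Finset.mem_filter]
      exact ⟨siegel_mem_expSet.mpr hmh, hbad⟩
    set Q : ℚ := ∏ j, (q v j : ℚ) ^ d j with hQ
    have hQ0 : Q ≠ 0 := by
      rw [hQ]
      refine Finset.prod_ne_zero_iff.mpr fun j _ => pow_ne_zero _ ?_
      exact_mod_cast (hq0 v j).ne'
    have hmap : map (Int.castRingHom ℚ) P =
        ∑ e : expSet (ι := ι) d, C ((t e : ℤ) : ℚ) * monomial (siegelFe e.1) (1 : ℚ) := by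
      rw [hP, map_sum]
      refine Finset.sum_congr rfl fun e _ => ?_
      rw [map_monomial, C_mul_monomial, mul_one]
      rfl
    have h1 : lsub (Bq v) (map (Int.castRingHom ℚ) P) =
        C Q * lsub (fun j => (A v j)⁻¹) (map (Int.castRingHom ℚ) P) := by
      rw [hmap, map_sum, map_sum, Finset.mul_sum]
      refine Finset.sum_congr rfl fun e _ => ?_
      rw [map_mul, map_mul, hBq, siegel_scale e.2 (fun j => (A v j)⁻¹) (fun j => (q v j : ℚ))]
      have h2 : ∀ (B : Fin M → Matrix ι ι ℚ) (c : ℚ), lsub B (C c) = C c := fun B c => by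
        rw [← algebraMap_eq]
        exact AlgHom.commutes _ _
      rw [h2, h2]
      ring
    have h2 : coeff f (lsub (Bq v) (map (Int.castRingHom ℚ) P)) = 0 := by
      have h3 := congrFun ht1 (v, ⟨_, hfs⟩)
      rw [hmap, map_sum, coeff_sum]
      have h4 : ∀ e : expSet (ι := ι) d, coeff f (lsub (Bq v) (C ((t e : ℤ) : ℚ) *
          monomial (siegelFe e.1) (1 : ℚ))) = ((W (v, ⟨_, hfs⟩) e * t e : ℤ) : ℚ) := by
        intro e
        rw [map_mul]
        have h5 : lsub (Bq v) (C ((t e : ℤ) : ℚ)) = C ((t e : ℤ) : ℚ) := by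
          rw [← algebraMap_eq]
          exact AlgHom.commutes _ _
        rw [h5, coeff_C_mul]
        have h6 := hW (v, ⟨_, hfs⟩) e
        simp only [siegelFe_curry] at h6
        rw [h6]
        push_cast
        ring
      rw [Finset.sum_congr rfl fun e _ => h4 e]
      have h7 : ((∑ e : expSet (ι := ι) d, W (v, ⟨_, hfs⟩) e * t e : ℤ) : ℚ) = 0 := by
        have h8 : (∑ e : expSet (ι := ι) d, W (v, ⟨_, hfs⟩) e * t e : ℤ) = 0 := h3
        rw [h8, Int.cast_zero]
      rw [← h7]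
      push_cast
      rfl
    rw [h1, coeff_C_mul] at h2
    rw [mem_support_iff] at hf
    rcases mul_eq_zero.mp h2 with h3 | h3
    · exact hQ0 h3
    · exact hf h3

end Pool.Agent.Lib.MP_d0d59f_nt.Sb

end
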