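import Pool.Agent.Lib.MP_d0d59f_nt.Sub.Monomials

/-!
Lower bounds for linear forms with polynomial coefficients.
-/

section

namespace Pool.Agent.Lib.MP_d0d59f_nt.Sb

open Module

variable {κ 𝕂 : Type} [Field κ] [Field 𝕂] [Algebra κ 𝕂] {O : Subring 𝕂}
  {w : Fin 3 → AbsoluteValue 𝕂 ℝ} {X : ℝ × ℝ → 𝕂}

/-- independence over the ring of polynomials -/
def PolyIndep (κ : Type) {𝕂 : Type} [Field κ] [Field 𝕂] [Algebra κ 𝕂] (X : ℝ × ℝ → 𝕂) {J : ℕ}
    (y : Fin J → 𝕂) : Prop :=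
  ∀ φ : Fin J → 𝕂, (∀ j, φ j ∈ polys2 κ X) → ∑ j, φ j * y j = 0 → φ = 0

/-- the additive form `γ ↦ log (w v (X γ))` -/
private theorem LowerA_lin (hX : Mono2 κ O w X) (v : Fin 3) :
    ∃ l : ℝ × ℝ →+ ℝ, ∀ γ, w v (X γ) = Real.exp (l γ) := by
  fin_cases v
  · refine ⟨⟨⟨fun γ => γ.1 * Real.log 2 - γ.2 * Real.log 3, by simp⟩, fun x y => ?_⟩, fun γ => ?_⟩
    · simp only [Prod.fst_add, Prod.snd_add]
      ring
    · exact hX.val0 γ
  · refine ⟨⟨⟨fun γ => -(γ.1 * Real.log 2), by simp⟩, fun x y => ?_⟩, fun γ => ?_⟩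
    · simp only [Prod.fst_add]
      ring
    · exact hX.val1 γ
  · refine ⟨⟨⟨fun γ => γ.2 * Real.log 3, by simp⟩, fun x y => ?_⟩, fun γ => ?_⟩
    · simp only [Prod.snd_add]
      ring
    · exact hX.val2 γ

private theorem LowerA_smul (h : Setting κ O w) (v : Fin 3) {c : κ} (hc : c ≠ 0) (x : 𝕂) :
    w v (c • x) = w v x := by
  rw [Algebra.smul_def, map_mul, h.const v c hc, one_mul]

/-- independence of the products `y j * X δ` -/
private theorem LowerA_indep (h : Setting κ O w) (hX : Mono2 κ O w X) (hN : NssProp κ O w) {J : ℕ}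
    {y : Fin J → 𝕂} (hind : PolyIndep κ X y) (S : Finset (ℝ × ℝ)) :
    LinearIndependent κ (fun i : Fin J × {σ // σ ∈ S} => y i.1 * X (i.2 : ℝ × ℝ)) := by
  classical
  rw [Fintype.linearIndependent_iff]
  intro a ha
  have hlin := hX.linearIndependent h hN
  have h1 : ∑ j, (∑ σ : {σ // σ ∈ S}, a (j, σ) • X (σ : ℝ × ℝ)) * y j = 0 := by
    rw [← ha, Fintype.sum_prod_type]
    refine Finset.sum_congr rfl fun j _ => ?_
    rw [Finset.sum_mul]
    refine Finset.sum_congr rfl fun σ _ => ?_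
    rw [smul_mul_assoc, mul_comm]
  have h2 := hind _ (fun j => Submodule.sum_mem _ fun σ _ => Submodule.smul_mem _ _ (Mono2.X_mem _)) h1
  rintro ⟨j, σ⟩
  have h3 : ∑ σ : {σ // σ ∈ S}, a (j, σ) • X (σ : ℝ × ℝ) = 0 := congrFun h2 j
  have h4 := (Fintype.linearIndependent_iff.1 (hlin.comp (fun σ : {σ // σ ∈ S} => (σ : ℝ × ℝ))
    Subtype.val_injective)) (fun σ => a (j, σ)) h3
  exact h4 σ

/-- The main estimate. For one set of coefficients: `φ j = ∑ γ ∈ E, c j γ • X γ`, `y j ∈ O`, and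
`S = ∑ j, ∑ v, log (w v (y j))`. Then for every `j₀` with `φ j₀ ≠ 0`,
`w v (φ j₀) * w v (y j₀) ≤ exp (2 S) * w v (∑ φ j y j)`.

Proof. Let `E₀ ⊆ E` be the set of the `γ` with `c j₀ γ ≠ 0`, nonempty. `exists_extreme` for
`ℓ γ = log (w v (X γ))` (additive in `γ`: the values are given by `val0, val1, val2`) and `E₀`: `γ₀`.
So `w v (φ j₀) = w v (X γ₀)` (`Mono2.le_val`; `val_sum_le`). `exists_folner2` for `E`: `D`, `S`. Let
`ι = Fin J × S` (the subtype of the finite set), `z (j, δ) = y j * X δ ∈ O`: independent over `κ`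
(`∑ c (j, δ) • y j X δ = 0` implies `∑ δ, c (j, δ) • X δ = 0` for all `j`, so `c = 0`:
`Mono2.linearIndependent`). For `v' ≠ v` let `A v' = 1`. `A v` is the identity matrix in which for every
`δ ∈ D` the row `(j₀, γ₀ + δ)` is replaced by the coefficients of
`X δ * ∑ j, φ j y j = ∑ j, ∑ γ ∈ E, (c j γ * e γ δ) • (y j X (γ + δ))`, where
`X γ * X δ = e γ δ • X (γ + δ)`. `det A v ≠ 0`: let `A v x = 0`. The rows not replaced give
`x (j, δ') = 0` unless `j = j₀`, `δ' ∈ γ₀ + D`. Suppose that `T = {δ ∈ D | x (j₀, γ₀ + δ) ≠ 0}` is not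
empty and choose `δ ∈ T` from `exists_extreme`. In the row of `δ` the terms are
`c j₀ γ * e γ δ * x (j₀, γ + δ)`, `γ ∈ E₀`, and `x (j₀, γ + δ) ≠ 0` implies `γ + δ = γ₀ + δ'`, `δ' ∈ T`,
so `γ = γ₀`: the row gives `c j₀ γ₀ * e γ₀ δ * x (j₀, γ₀ + δ) = 0`, contradiction. `NssProp`:
`0 ≤ ∑ v', ∑ (j, δ), log (w v' (y j X δ)) + ∑ δ ∈ D, (log (w v (X δ * ∑ φ j y j)) - log (w v (y j₀ X (γ₀ + δ))))
= card S * S + card D * (log (w v (∑ φ j y j)) - log (w v (y j₀)) - log (w v (X γ₀)))`, using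
`∑ v', log (w v' (X δ)) = 0` and additivity of `log w v (X γ)`. `S ≥ 0` (product formula), and
`card S ≤ 2 card D`. (`∑ φ j y j ≠ 0` by `PolyIndep`.) -/
theorem lower_bound (h : Setting κ O w) (hX : Mono2 κ O w X) (hN : NssProp κ O w) {J : ℕ}
    {y : Fin J → 𝕂} (hy : ∀ j, y j ∈ O) (hind : PolyIndep κ X y) (v : Fin 3) (φ : Fin J → 𝕂)
    (hφ : ∀ j, φ j ∈ polys2 κ X) (j₀ : Fin J) :
    w v (φ j₀) * w v (y j₀) ≤
      Real.exp (2 * ∑ j, ∑ v', Real.log (w v' (y j))) * w v (∑ j, φ j * y j) := by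
  classical
  by_cases hφ0 : φ j₀ = 0
  · rw [hφ0, map_zero, zero_mul]
    positivity
  -- the coefficients
  have hco : ∀ j, ∃ c : (ℝ × ℝ) →₀ κ, φ j = ∑ γ ∈ c.support, c γ • X γ := fun j => exists_coeffs (hφ j)
  choose c hc using hco
  choose e he0 he using hX.mul
  set E : Finset (ℝ × ℝ) := Finset.univ.biUnion fun j => (c j).support with hE
  have hcE : ∀ j γ, γ ∉ E → c j γ = 0 := by
    intro j γ hγ
    by_contra hne
    exact hγ (Finset.mem_biUnion.2 ⟨j, Finset.mem_univ _, Finsupp.mem_support_iff.2 hne⟩)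
  have hφE : ∀ j, φ j = ∑ γ ∈ E, c j γ • X γ := by
    intro j
    rw [hc j]
    refine Finset.sum_subset (Finset.subset_biUnion_of_mem (fun j => (c j).support) (Finset.mem_univ j)) ?_
    intro γ _ hγ
    rw [Finsupp.notMem_support_iff.1 hγ, zero_smul]
  have hne0 : (c j₀).support.Nonempty := by
    rw [Finset.nonempty_iff_ne_empty]
    intro h0
    apply hφ0
    rw [hc j₀, h0, Finset.sum_empty]
  obtain ⟨l, hl⟩ := LowerA_lin hX v
  obtain ⟨γ₀, hγ₀, hmax, hext⟩ := exists_extreme l (c j₀).support hne0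
  have hγ₀E : γ₀ ∈ E := Finset.mem_biUnion.2 ⟨j₀, Finset.mem_univ _, hγ₀⟩
  -- the value of `φ j₀`
  have hval : w v (φ j₀) ≤ Real.exp (l γ₀) := by
    rw [hc j₀]
    refine val_sum_le (h.nonarch v) _ _ (Real.exp_pos _).le fun γ hγ => ?_
    rw [LowerA_smul h v (Finsupp.mem_support_iff.1 hγ), hl]
    exact Real.exp_le_exp.2 (hmax γ hγ)
  obtain ⟨D, S, hDne, hDS, hcard⟩ := exists_folner2 E
  have hy0 : ∀ j, y j ≠ 0 := by
    intro j hj
    have h1 := hind (Pi.single j 1) (fun i => ?_) ?_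
    · have := congrFun h1 j
      simp at this
    · by_cases hij : i = j
      · subst hij
        rw [Pi.single_eq_same]
        exact hX.one_mem
      · rw [Pi.single_eq_of_ne hij]
        exact Submodule.zero_mem _
    · rw [Finset.sum_eq_single j]
      · rw [hj, mul_zero]
      · intro i _ hij
        rw [Pi.single_eq_of_ne hij, zero_mul]
      · intro hj'
        exact absurd (Finset.mem_univ j) hj'
  set Φ : 𝕂 := ∑ j, φ j * y j with hΦ
  have hΦ0 : Φ ≠ 0 := by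
    intro h0
    apply hφ0
    have := hind φ hφ h0
    rw [this]
    rfl
  -- the expansion of `X δ * Φ`
  have hexp : ∀ δ ∈ D, ∑ i : Fin J × {σ // σ ∈ S}, algebraMap κ 𝕂 (c i.1 ((i.2 : ℝ × ℝ) - δ) *
      e ((i.2 : ℝ × ℝ) - δ) δ) * (y i.1 * X (i.2 : ℝ × ℝ)) = X δ * Φ := by
    intro δ hδ
    rw [Fintype.sum_prod_type, hΦ, Finset.mul_sum]
    refine Finset.sum_congr rfl fun j _ => ?_
    have e1 : ∑ σ : {σ // σ ∈ S}, algebraMap κ 𝕂 (c j ((σ : ℝ × ℝ) - δ) *
        e ((σ : ℝ × ℝ) - δ) δ) * (y j * X (σ : ℝ × ℝ)) =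
        ∑ σ ∈ S, algebraMap κ 𝕂 (c j (σ - δ) * e (σ - δ) δ) * (y j * X σ) :=
      Finset.sum_coe_sort S (fun σ => algebraMap κ 𝕂 (c j (σ - δ) * e (σ - δ) δ) * (y j * X σ))
    have e2 : ∑ σ ∈ S, algebraMap κ 𝕂 (c j (σ - δ) * e (σ - δ) δ) * (y j * X σ) =
        ∑ σ ∈ E.image (fun γ => γ + δ), algebraMap κ 𝕂 (c j (σ - δ) * e (σ - δ) δ) * (y j * X σ) := by
      symm
      refine Finset.sum_subset ?_ ?_
      · intro σ hσ
        obtain ⟨γ, hγ, rfl⟩ := Finset.mem_image.1 hσ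
        rw [add_comm]
        exact hDS δ hδ γ hγ
      · intro σ _ hσ
        have : c j (σ - δ) = 0 := hcE j _ fun hmem => hσ (Finset.mem_image.2 ⟨σ - δ, hmem, sub_add_cancel _ _⟩)
        rw [this, zero_mul, map_zero, zero_mul]
    rw [e1, e2, Finset.sum_image (fun a _ b _ hab => add_right_cancel hab), hφE j, Finset.sum_mul,
      Finset.mul_sum]
    refine Finset.sum_congr rfl fun γ _ => ?_
    rw [add_sub_cancel_right, map_mul]
    have e3 := he γ δ
    rw [Algebra.smul_def] at e3 ⊢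
    linear_combination (-(algebraMap κ 𝕂 (c j γ)) * y j) * e3
  -- the matrices
  set z : Fin J × {σ // σ ∈ S} → 𝕂 := fun i => y i.1 * X (i.2 : ℝ × ℝ) with hz
  set M : Matrix (Fin J × {σ // σ ∈ S}) (Fin J × {σ // σ ∈ S}) κ := fun i k =>
    if i.1 = j₀ ∧ (i.2 : ℝ × ℝ) - γ₀ ∈ D then
      c k.1 ((k.2 : ℝ × ℝ) - ((i.2 : ℝ × ℝ) - γ₀)) * e ((k.2 : ℝ × ℝ) - ((i.2 : ℝ × ℝ) - γ₀)) ((i.2 : ℝ × ℝ) - γ₀)
    else if i = k then 1 else 0 with hM
  have hdet : M.det ≠ 0 := by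
    intro h0
    obtain ⟨x, hx0, hx⟩ := Matrix.exists_mulVec_eq_zero_iff.2 h0
    -- the rows which are not replaced
    have hrow : ∀ i : Fin J × {σ // σ ∈ S}, ¬ (i.1 = j₀ ∧ (i.2 : ℝ × ℝ) - γ₀ ∈ D) → x i = 0 := by
      intro i hi
      have h1 := congrFun hx i
      rw [Matrix.mulVec, dotProduct] at h1
      rw [Finset.sum_eq_single i] at h1
      · simpa [hM, hi] using h1
      · intro k _ hk
        simp [hM, hi, Ne.symm hk]
      · intro hi'
        exact absurd (Finset.mem_univ i) hi'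
    set x' : ℝ × ℝ → κ := fun σ => if hσ : σ ∈ S then x (j₀, ⟨σ, hσ⟩) else 0 with hx'
    set T : Finset (ℝ × ℝ) := D.filter fun δ => x' (γ₀ + δ) ≠ 0 with hT
    have hTne : T.Nonempty := by
      obtain ⟨i, hi⟩ := Function.ne_iff.1 hx0
      have h1 : i.1 = j₀ ∧ (i.2 : ℝ × ℝ) - γ₀ ∈ D := by
        by_contra hno
        exact hi (hrow i hno)
      refine ⟨(i.2 : ℝ × ℝ) - γ₀, Finset.mem_filter.2 ⟨h1.2, ?_⟩⟩
      have h2 : γ₀ + ((i.2 : ℝ × ℝ) - γ₀) = (i.2 : ℝ × ℝ) := by abel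
      rw [h2]
      have h3 : x' (i.2 : ℝ × ℝ) = x i := by
        rw [hx']
        simp only [i.2.2, dif_pos]
        congr 1
        exact Prod.ext h1.1.symm rfl
      rw [h3]
      exact hi
    obtain ⟨δ, hδT, hδ⟩ := hext T hTne
    obtain ⟨hδD, hδx⟩ := Finset.mem_filter.1 hδT
    have hmS : γ₀ + δ ∈ S := by
      rw [add_comm]
      exact hDS δ hδD γ₀ hγ₀E
    have h1 := congrFun hx (j₀, ⟨γ₀ + δ, hmS⟩)
    rw [Matrix.mulVec, dotProduct] at h1
    rw [Finset.sum_eq_single (j₀, ⟨γ₀ + δ, hmS⟩)] at h1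
    · have h2 : M (j₀, ⟨γ₀ + δ, hmS⟩) (j₀, ⟨γ₀ + δ, hmS⟩) = c j₀ γ₀ * e γ₀ δ := by
        rw [hM]
        have h3 : γ₀ + δ - γ₀ = δ := by abel
        have h4 : γ₀ + δ - δ = γ₀ := by abel
        simp only [h3, h4, hδD, and_self, if_true]
      have h5 : x (j₀, ⟨γ₀ + δ, hmS⟩) ≠ 0 := by
        have : x' (γ₀ + δ) = x (j₀, ⟨γ₀ + δ, hmS⟩) := by
          rw [hx']
          simp only [hmS, dif_pos]
        rw [← this]
        exact hδx
      rw [h2] at h1
      exact (mul_ne_zero (mul_ne_zero (Finsupp.mem_support_iff.1 hγ₀) (he0 _ _)) h5) h1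
    · intro k _ hk
      by_contra hne
      have hxk : x k ≠ 0 := fun h0 => hne (by rw [h0, mul_zero])
      have hMk : M (j₀, ⟨γ₀ + δ, hmS⟩) k ≠ 0 := fun h0 => hne (by rw [h0, zero_mul])
      have h6 : k.1 = j₀ ∧ (k.2 : ℝ × ℝ) - γ₀ ∈ D := by
        by_contra hno
        exact hxk (hrow k hno)
      have h3 : γ₀ + δ - γ₀ = δ := by abel
      have h7 : M (j₀, ⟨γ₀ + δ, hmS⟩) k = c k.1 ((k.2 : ℝ × ℝ) - δ) * e ((k.2 : ℝ × ℝ) - δ) δ := by
        rw [hM]
        simp only [h3, hδD, and_self, if_true]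
      rw [h7, h6.1] at hMk
      have h8 : (k.2 : ℝ × ℝ) - δ ∈ (c j₀).support := Finsupp.mem_support_iff.2 (left_ne_zero_of_mul hMk)
      have h9 : (k.2 : ℝ × ℝ) - γ₀ ∈ T := by
        refine Finset.mem_filter.2 ⟨h6.2, ?_⟩
        have h2 : γ₀ + ((k.2 : ℝ × ℝ) - γ₀) = (k.2 : ℝ × ℝ) := by abel
        rw [h2]
        have h3 : x' (k.2 : ℝ × ℝ) = x k := by
          rw [hx']
          simp only [k.2.2, dif_pos]
          congr 1
          exact Prod.ext h6.1.symm rfl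
        rw [h3]
        exact hxk
      have h10 := hδ _ h8 _ h9 (by abel)
      apply hk
      refine Prod.ext h6.1 (Subtype.ext ?_)
      have h11 : (k.2 : ℝ × ℝ) = δ + γ₀ := eq_add_of_sub_eq h10.2
      rw [h11, add_comm]
    · intro hi'
      exact absurd (Finset.mem_univ _) hi'
  -- the subspace theorem
  have hnss := hN (Fin J × {σ // σ ∈ S}) z (fun i => O.mul_mem (hy _) (hX.mem _)) (LowerA_indep h hX hN hind S)
    (fun v' => if v' = v then M else 1) (fun v' => by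
      by_cases hv : v' = v
      · simp only [hv, if_true]
        exact hdet
      · simp only [hv, if_false, Matrix.det_one]
        exact one_ne_zero)
  set Q : ℝ := Real.log (w v Φ) - Real.log (w v (y j₀)) - l γ₀ with hQ
  set R : Finset (Fin J × {σ // σ ∈ S}) :=
    Finset.univ.filter (fun i => i.1 = j₀ ∧ (i.2 : ℝ × ℝ) - γ₀ ∈ D) with hR
  have hRcard : R.card = D.card := by
    symm
    refine Finset.card_bij (fun δ hδ => (j₀, ⟨γ₀ + δ, by rw [add_comm]; exact hDS δ hδ γ₀ hγ₀E⟩)) ?_ ?_ ?_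
    · intro δ hδ
      rw [hR, Finset.mem_filter]
      refine ⟨Finset.mem_univ _, rfl, ?_⟩
      have : γ₀ + δ - γ₀ = δ := by abel
      simp only [this]
      exact hδ
    · intro δ _ δ' _ hh
      have := congrArg (fun i : Fin J × {σ // σ ∈ S} => (i.2 : ℝ × ℝ)) hh
      exact add_left_cancel this
    · rintro ⟨j, σ, hσ⟩ hi
      rw [hR, Finset.mem_filter] at hi
      obtain ⟨_, h1, h2⟩ := hi
      refine ⟨σ - γ₀, h2, ?_⟩
      refine Prod.ext h1.symm (Subtype.ext ?_)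
      show γ₀ + (σ - γ₀) = σ
      abel
  have hterm : ∀ v' i, Real.log (w v' (∑ k, algebraMap κ 𝕂 ((if v' = v then M else 1 :
      Matrix (Fin J × {σ // σ ∈ S}) (Fin J × {σ // σ ∈ S}) κ) i k) * z k)) =
      Real.log (w v' (z i)) + if v' = v ∧ i ∈ R then Q else 0 := by
    intro v' i
    have hone : ∀ N : Matrix (Fin J × {σ // σ ∈ S}) (Fin J × {σ // σ ∈ S}) κ, (∀ k, N i k = if i = k then 1 else 0) →
        ∑ k, algebraMap κ 𝕂 (N i k) * z k = z i := by
      intro N hNi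
      rw [Finset.sum_eq_single i]
      · rw [hNi, if_pos rfl, map_one, one_mul]
      · intro k _ hk
        rw [hNi, if_neg (Ne.symm hk), map_zero, zero_mul]
      · intro hi'
        exact absurd (Finset.mem_univ i) hi'
    by_cases hv : v' = v
    · subst hv
      by_cases hi : i ∈ R
      · have hi2 := hi
        rw [hR, Finset.mem_filter] at hi2
        obtain ⟨_, h1, h2⟩ := hi2
        simp only [if_true, hi, and_self]
        have h3 : ∑ k, algebraMap κ 𝕂 (M i k) * z k = X ((i.2 : ℝ × ℝ) - γ₀) * Φ := by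
          rw [← hexp _ h2]
          refine Finset.sum_congr rfl fun k _ => ?_
          rw [hM]
          simp only [h1, h2, and_self, if_true, hz]
        rw [h3, map_mul, Real.log_mul (by rw [hl]; exact (Real.exp_pos _).ne') ((w v').ne_zero hΦ0), hl,
          Real.log_exp, hz]
        simp only
        rw [map_mul, Real.log_mul ((w v').ne_zero (hy0 _)) (by rw [hl]; exact (Real.exp_pos _).ne'), hl,
          Real.log_exp, hQ, h1, map_sub]
        ring
      · have hi2 : ¬ (i.1 = j₀ ∧ (i.2 : ℝ × ℝ) - γ₀ ∈ D) := by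
          intro hh
          exact hi (by rw [hR, Finset.mem_filter]; exact ⟨Finset.mem_univ _, hh⟩)
        simp only [if_true, hi, and_false, if_false, add_zero]
        rw [hone M fun k => by rw [hM]; simp only [hi2, if_false]]
    · simp only [hv, if_false, false_and, add_zero]
      rw [hone 1 fun k => Matrix.one_apply]
  have hsum : (0 : ℝ) ≤ ∑ v', ∑ i, (Real.log (w v' (z i)) + if v' = v ∧ i ∈ R then Q else 0) := by
    refine hnss.trans (le_of_eq ?_)
    refine Finset.sum_congr rfl fun v' _ => Finset.sum_congr rfl fun i _ => ?_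
    exact hterm v' i
  have hs1 : ∑ v', ∑ i, (Real.log (w v' (z i)) + if v' = v ∧ i ∈ R then Q else 0) =
      ∑ v', ∑ i, Real.log (w v' (z i)) + D.card * Q := by
    rw [← hRcard]
    simp only [Finset.sum_add_distrib]
    congr 1
    rw [Finset.sum_eq_single v]
    · simp only [true_and]
      rw [Finset.sum_ite_mem, Finset.univ_inter, Finset.sum_const, nsmul_eq_mul]
    · intro v' _ hv
      simp [hv]
    · intro hv
      exact absurd (Finset.mem_univ v) hv
  set Sy : ℝ := ∑ j, ∑ v', Real.log (w v' (y j)) with hSy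
  have hs2 : ∑ v', ∑ i, Real.log (w v' (z i)) = S.card * Sy := by
    have h1 : ∀ v', ∑ i, Real.log (w v' (z i)) =
        ∑ j, ∑ σ : {σ // σ ∈ S}, (Real.log (w v' (y j)) + Real.log (w v' (X (σ : ℝ × ℝ)))) := by
      intro v'
      rw [Fintype.sum_prod_type]
      refine Finset.sum_congr rfl fun j _ => Finset.sum_congr rfl fun σ _ => ?_
      rw [hz]
      simp only
      rw [map_mul, Real.log_mul ((w v').ne_zero (hy0 _)) ((w v').ne_zero (hX.ne _))]
    simp only [h1, Finset.sum_add_distrib]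
    have h2 : ∑ v', ∑ j : Fin J, ∑ σ : {σ // σ ∈ S}, Real.log (w v' (X (σ : ℝ × ℝ))) = 0 := by
      rw [Finset.sum_comm]
      refine Finset.sum_eq_zero fun j _ => ?_
      rw [Finset.sum_comm]
      exact Finset.sum_eq_zero fun σ _ => hX.sum_log _
    rw [h2, add_zero, Finset.sum_comm, hSy, Finset.mul_sum]
    refine Finset.sum_congr rfl fun j _ => ?_
    rw [Finset.mul_sum]
    refine Finset.sum_congr rfl fun v' _ => ?_
    rw [Finset.sum_const, Finset.card_univ, Fintype.card_coe, nsmul_eq_mul]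
  have hSy0 : 0 ≤ Sy := by
    rw [hSy]
    refine Finset.sum_nonneg fun j _ => ?_
    rw [← Real.log_prod (fun v' _ => (w v').ne_zero (hy0 j))]
    exact Real.log_nonneg (h.prod _ (hy j) (hy0 j))
  rw [hs1, hs2] at hsum
  have hDpos : (0 : ℝ) < D.card := by exact_mod_cast Finset.card_pos.2 hDne
  have hcard' : (S.card : ℝ) ≤ 2 * D.card := by exact_mod_cast hcard
  have hfin : 0 ≤ 2 * Sy + Q := by
    have h1 : (S.card : ℝ) * Sy ≤ 2 * D.card * Sy := mul_le_mul_of_nonneg_right hcard' hSy0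
    have h2 : 0 ≤ (D.card : ℝ) * (2 * Sy + Q) := by linarith
    exact (mul_nonneg_iff_of_pos_left hDpos).1 h2
  have hyp : 0 < w v (y j₀) := (w v).pos (hy0 _)
  have hΦp : 0 < w v Φ := (w v).pos hΦ0
  have hle : l γ₀ + Real.log (w v (y j₀)) ≤ 2 * Sy + Real.log (w v Φ) := by
    rw [hQ] at hfin
    linarith
  calc w v (φ j₀) * w v (y j₀) ≤ Real.exp (l γ₀) * w v (y j₀) := by gcongr
    _ = Real.exp (l γ₀ + Real.log (w v (y j₀))) := by rw [Real.exp_add, Real.exp_log hyp]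
    _ ≤ Real.exp (2 * Sy + Real.log (w v Φ)) := Real.exp_le_exp.2 hle
    _ = Real.exp (2 * Sy) * w v Φ := by rw [Real.exp_add, Real.exp_log hΦp]

end Pool.Agent.Lib.MP_d0d59f_nt.Sb

end

section

namespace Pool.Agent.Lib.MP_d0d59f_nt.Sb

open Module

variable {κ 𝕂 : Type} [Field κ] [Field 𝕂] [Algebra κ 𝕂] {O : Subring 𝕂}
  {w : Fin 3 → AbsoluteValue 𝕂 ℝ} {X : ℝ × ℝ → 𝕂}

/-- a common denominator -/
theorem lower_den (h : Setting κ O w) {J : ℕ} (y : Fin J → 𝕂) :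
    ∃ D ∈ O, D ≠ 0 ∧ ∀ j, D * y j ∈ O := by
  choose D hD hD0 hDy using fun j => h.frac (y j)
  refine ⟨∏ j, D j, O.prod_mem fun j _ => hD j, Finset.prod_ne_zero_iff.2 fun j _ => hD0 j,
    fun j => ?_⟩
  rw [← Finset.mul_prod_erase Finset.univ D (Finset.mem_univ j)]
  have e : D j * (∏ x ∈ Finset.univ.erase j, D x) * y j =
      (∏ x ∈ Finset.univ.erase j, D x) * (D j * y j) := by ring
  rw [e]
  exact O.mul_mem (O.prod_mem fun i _ => hD i) (hDy j)

/-- For arbitrary `y`: multiply all `y j` by `D ∈ O`, `D ≠ 0`, with `D * y j ∈ O` for all `j`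
(`Setting.frac`, product of the denominators). -/
theorem exists_lower (h : Setting κ O w) (hX : Mono2 κ O w X) (hN : NssProp κ O w) {J : ℕ}
    {y : Fin J → 𝕂} (hind : PolyIndep κ X y) : ∃ c : ℝ, 0 < c ∧ ∀ (v : Fin 3) (φ : Fin J → 𝕂),
      (∀ j, φ j ∈ polys2 κ X) → ∀ j, c * w v (φ j) ≤ w v (∑ j, φ j * y j) := by
  classical
  obtain ⟨D, hD, hD0, hDy⟩ := lower_den h y
  have hsum : ∀ φ : Fin J → 𝕂, ∑ j, φ j * (D * y j) = D * ∑ j, φ j * y j := by
    intro φ
    rw [Finset.mul_sum]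
    exact Finset.sum_congr rfl fun j _ => by ring
  have hind' : PolyIndep κ X (fun j => D * y j) := by
    intro φ hφ h0
    rw [hsum φ] at h0
    exact hind φ hφ ((mul_eq_zero.1 h0).resolve_left hD0)
  have hy0 : ∀ j, y j ≠ 0 := by
    intro j hj
    have h1 := hind (Pi.single j 1) (fun i => by
      by_cases hi : i = j
      · rw [hi, Pi.single_eq_same]; exact hX.one_mem
      · rw [Pi.single_eq_of_ne hi]; exact Submodule.zero_mem _) (by
      refine Finset.sum_eq_zero fun i _ => ?_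
      by_cases hi : i = j
      · rw [hi, hj, mul_zero]
      · rw [Pi.single_eq_of_ne hi, zero_mul])
    have h2 := congrFun h1 j
    rw [Pi.single_eq_same] at h2
    exact one_ne_zero h2
  obtain ⟨S, hS⟩ : ∃ S : ℝ, S = Real.exp (2 * ∑ j, ∑ v', Real.log (w v' (D * y j))) := ⟨_, rfl⟩
  have hSpos : 0 < S := by rw [hS]; exact Real.exp_pos _
  have hwD : ∀ v, 0 < w v D := fun v => (w v).pos hD0
  have hwy : ∀ v j, 0 < w v (D * y j) := fun v j => (w v).pos (mul_ne_zero hD0 (hy0 j))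
  obtain ⟨b, hb⟩ : ∃ b : Fin 3 × Fin J → ℝ, ∀ p, b p = S * w p.1 D / w p.1 (D * y p.2) :=
    ⟨_, fun _ => rfl⟩
  have hbpos : ∀ p, 0 < b p := fun p => by
    rw [hb]; exact div_pos (mul_pos hSpos (hwD _)) (hwy _ _)
  have hC : 0 < 1 + ∑ p, b p := by
    have := Finset.sum_nonneg fun p (_ : p ∈ (Finset.univ : Finset (Fin 3 × Fin J))) => (hbpos p).le
    linarith
  refine ⟨(1 + ∑ p, b p)⁻¹, inv_pos.2 hC, fun v φ hφ j => ?_⟩
  have h1 := lower_bound h hX hN hDy hind' v φ hφ j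
  rw [← hS, hsum φ, map_mul (w v) D (∑ j, φ j * y j)] at h1
  have h2 : b (v, j) ≤ 1 + ∑ p, b p := by
    have := Finset.single_le_sum (fun p _ => (hbpos p).le) (Finset.mem_univ (v, j))
    linarith
  have h3 : w v (φ j) ≤ b (v, j) * w v (∑ j, φ j * y j) := by
    rw [hb]
    have h4 := hwy v j
    simp only
    rw [div_mul_eq_mul_div, le_div_iff₀ h4]
    linarith
  rw [inv_mul_le_iff₀ hC]
  exact h3.trans (mul_le_mul_of_nonneg_right h2 (AbsoluteValue.nonneg _ _))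

end Pool.Agent.Lib.MP_d0d59f_nt.Sb

end
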