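import Pool.Agent.Lib.MP_d0d59f_nt.Complexity
import Pool.Agent.Lib.MP_d0d59f_nt.Sub.Heights

/-!
Words of linear complexity: branch points, blocks and periodic runs.
-/

section

namespace Pool.Agent.Lib.MP_d0d59f_nt

open Filter Topology Auto

/-- the translation part of the affine map of the first `n` steps of the orbit of `y` -/
def shift (d y : ℤ) (n : ℕ) : ℤ := 2 ^ n * (T d)^[n] y - 3 ^ ones d y n * y

theorem shift_zero (d y : ℤ) : shift d y 0 = 0 := by simp [shift, ones_zero]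

theorem shift_succ {d : ℤ} (hd : Odd d) (y : ℤ) (n : ℕ) :
    shift d y (n + 1) = if (T d)^[n] y % 2 = 1 then 3 * shift d y n + 2 ^ n * d
      else shift d y n := by
  unfold shift
  rw [Function.iterate_succ_apply', ones_succ]
  set z := (T d)^[n] y with hz
  rcases Int.emod_two_eq_zero_or_one z with h | h
  · rw [if_neg (by omega), if_neg (by omega), add_zero, pow_succ, mul_assoc, T_even h]
  · rw [if_pos h, if_pos h, pow_succ, mul_assoc, T_odd hd h, pow_succ]
    ring

theorem abs_shift_le {d : ℤ} (hd : Odd d) (y : ℤ) (n : ℕ) : |shift d y n| ≤ |d| * (3 ^ n - 2 ^ n) := by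
  induction n with
  | zero => simp [shift_zero]
  | succ n ih =>
    rw [shift_succ hd]
    have h3 : (2 : ℤ) ^ n ≤ 3 ^ n := pow_le_pow_left₀ (by norm_num) (by norm_num) n
    have h0 : (0 : ℤ) ≤ |d| := abs_nonneg d
    split_ifs with h
    · calc |3 * shift d y n + 2 ^ n * d| ≤ |3 * shift d y n| + |2 ^ n * d| := abs_add_le _ _
        _ = 3 * |shift d y n| + 2 ^ n * |d| := by
          rw [abs_mul, abs_mul, abs_of_pos (by norm_num : (0 : ℤ) < 3),
            abs_of_pos (by positivity : (0 : ℤ) < 2 ^ n)]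
        _ ≤ 3 * (|d| * (3 ^ n - 2 ^ n)) + 2 ^ n * |d| := by linarith
        _ = |d| * (3 ^ (n + 1) - 2 ^ (n + 1)) := by ring
    · refine ih.trans ?_
      have : (3 : ℤ) ^ n - 2 ^ n ≤ 3 ^ (n + 1) - 2 ^ (n + 1) := by
        have h4 : (0 : ℤ) ≤ 3 ^ n := by positivity
        rw [pow_succ, pow_succ]; linarith
      exact mul_le_mul_of_nonneg_left this h0

/-- ones and shift depend only on the parities -/
theorem ones_shift_congr {d : ℤ} (hd : Odd d) {y z : ℤ} (n : ℕ)
    (h : ∀ k < n, (T d)^[k] y % 2 = (T d)^[k] z % 2) :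
    ones d y n = ones d z n ∧ shift d y n = shift d z n := by
  induction n with
  | zero => simp [ones_zero, shift_zero]
  | succ n ih =>
    obtain ⟨h1, h2⟩ := ih fun k hk => h k (by omega)
    rw [ones_succ, ones_succ, shift_succ hd, shift_succ hd, h n (by omega), h1, h2]
    exact ⟨rfl, rfl⟩

theorem ones_add (d y : ℤ) (a b : ℕ) : ones d y (a + b) = ones d y a + ones d ((T d)^[a] y) b := by
  induction b with
  | zero => simp [ones_zero]
  | succ b ih =>
    rw [← add_assoc, ones_succ, ih, ones_succ, ← Function.iterate_add_apply, add_comm a b, add_assoc]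

/-- the constant of a block -/
noncomputable def gval (d y : ℤ) (L : ℕ) : ℚ := (-shift d y L : ℤ) / ((3 ^ ones d y L : ℤ) : ℚ)

theorem gval_eq (d y : ℤ) (L : ℕ) :
    gval d y L = y - 2 ^ L / 3 ^ ones d y L * ((T d)^[L] y : ℤ) := by
  have h3 : (3 : ℚ) ^ ones d y L ≠ 0 := by positivity
  unfold gval shift
  push_cast
  field_simp
  ring

theorem ht_gval_le {d : ℤ} (hd : Odd d) (y : ℤ) (L : ℕ) :
    (ht (gval d y L) : ℝ) ≤ (|d| + 1) * 3 ^ L := by
  have h1 := ht_div_le (-shift d y L) (3 ^ ones d y L) (by positivity)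
  have h2 := abs_shift_le hd y L
  have h3 : (ones d y L) ≤ L := ones_le d y L
  have h4 : ((-shift d y L).natAbs : ℤ) ≤ (|d| + 1) * 3 ^ L := by
    rw [Int.natAbs_neg, Int.natCast_natAbs]
    have : (0 : ℤ) ≤ 2 ^ L := by positivity
    have h0 : (0 : ℤ) ≤ |d| := abs_nonneg d
    have h5 : (0 : ℤ) ≤ 3 ^ L := by positivity
    nlinarith
  have h5 : (((3 : ℤ) ^ ones d y L).natAbs : ℤ) ≤ (|d| + 1) * 3 ^ L := by
    rw [Int.natCast_natAbs, abs_of_pos (by positivity)]
    have h6 : (3 : ℤ) ^ ones d y L ≤ 3 ^ L := pow_le_pow_right₀ (by norm_num) h3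
    have h0 : (0 : ℤ) ≤ |d| := abs_nonneg d
    have h7 : (0 : ℤ) ≤ 3 ^ L := by positivity
    nlinarith
  have h6 : ((ht (gval d y L) : ℕ) : ℤ) ≤ (|d| + 1) * 3 ^ L := by
    refine le_trans (Int.ofNat_le.mpr h1) ?_
    rw [Nat.cast_max]
    exact max_le h4 h5
  exact_mod_cast h6

end Pool.Agent.Lib.MP_d0d59f_nt

end

section

namespace Pool.Agent.Lib.MP_d0d59f_nt.Lin

open Filter Topology Auto

variable {d : ℤ}

theorem affine_par {y : ℤ} {N p : ℕ} (h : ∀ t < N, (T d)^[t] y % 2 = (T d)^[t + p] y % 2) (j k : ℕ)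
    (hk : k < p) (hj : j * p ≤ N) : (T d)^[k] ((T d)^[j * p] y) % 2 = (T d)^[k] y % 2 := by
  induction j with
  | zero => simp
  | succ j ih =>
    have h1 : (j + 1) * p = j * p + p := by ring
    rw [h1] at hj
    rw [← ih (by omega), ← Function.iterate_add_apply, ← Function.iterate_add_apply]
    have h2 := h (k + j * p) (by omega)
    rw [h2, h1]
    have h3 : k + (j * p + p) = k + j * p + p := by omega
    rw [h3]

theorem affine_block (hd : Odd d) {y z : ℤ} {L : ℕ}
    (h : ∀ k < L, (T d)^[k] y % 2 = (T d)^[k] z % 2) :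
    (z : ℚ) = gval d y L + 2 ^ L / 3 ^ ones d y L * ((T d)^[L] z : ℤ) := by
  obtain ⟨h1, h2⟩ := ones_shift_congr hd L h
  have h3 : gval d y L = gval d z L := by
    unfold gval
    rw [h1, h2]
  rw [h3, gval_eq, h1]
  ring

theorem affine_ones {y : ℤ} (hd : Odd d) {N p : ℕ}
    (h : ∀ t < N, (T d)^[t] y % 2 = (T d)^[t + p] y % 2) (j : ℕ) (hj : j * p ≤ N) :
    ones d y (j * p) = j * ones d y p := by
  induction j with
  | zero => simp [ones_zero]
  | succ j ih =>
    have h1 : (j + 1) * p = j * p + p := by ring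
    rw [h1] at hj
    rw [h1, ones_add, ih (by omega)]
    have h2 := (ones_shift_congr hd (y := (T d)^[j * p] y) (z := y) p
      fun k hk => affine_par h j k hk (by omega)).1
    rw [h2]
    ring

theorem affine_ht_t (y : ℤ) (L : ℕ) : (ht ((2 : ℚ) ^ L / 3 ^ ones d y L) : ℝ) ≤ 3 ^ L := by
  have h1 := ht_div_le (2 ^ L) (3 ^ ones d y L) (by positivity)
  push_cast at h1
  have h2 : ((2 : ℤ) ^ L).natAbs = 2 ^ L := by
    rw [Int.natAbs_pow]; rfl
  have h3 : ((3 : ℤ) ^ ones d y L).natAbs = 3 ^ ones d y L := by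
    rw [Int.natAbs_pow]; rfl
  rw [h2, h3] at h1
  have h4 : ht ((2 : ℚ) ^ L / 3 ^ ones d y L) ≤ 3 ^ L :=
    h1.trans (max_le (Nat.pow_le_pow_left (by norm_num) L)
      (Nat.pow_le_pow_right (by norm_num) (ones_le d y L)))
  exact_mod_cast h4

theorem affine_t_ne (y : ℤ) {p : ℕ} (hp : 0 < p) : (1 : ℚ) - 2 ^ p / 3 ^ ones d y p ≠ 0 := by
  intro h
  have h1 : (2 : ℚ) ^ p = 3 ^ ones d y p := by
    have h3 : (3 : ℚ) ^ ones d y p ≠ 0 := by positivity
    field_simp at h
    linarith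
  have h2 : (2 : ℕ) ^ p = 3 ^ ones d y p := by exact_mod_cast h1
  have h4 : Even ((2 : ℕ) ^ p) := (Nat.even_pow.mpr ⟨by decide, by omega⟩)
  have h5 : Odd ((3 : ℕ) ^ ones d y p) := Odd.pow (by decide)
  rw [h2] at h4
  exact (Nat.not_even_iff_odd.mpr h5) h4

/-- For a periodic piece of length `N` and period `p` which begins with `y`:
`y = α + 2 ^ N / 3 ^ ones * (β + (T d)^[N] y)` with `α`, `β` of small height. Proof: let
`g_L = gval d y L`, `t_L = 2 ^ L / 3 ^ ones d y L`, so `z = g_L + t_L * (T d)^[L] z` for all `z` with the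
same first `L` parities as `y` (`gval_eq`, `ones_shift_congr`). `c = g_p / (1 - t_p)` (`t_p ≠ 1` as
`2 ^ p ≠ 3 ^ o` for `p ≥ 1`) is the fixed point, `y - c = t_p ((T d)^[p] y - c)`. Let `N = M p + q`,
`q < p`. By periodicity `y - c = t_p ^ M ((T d)^[M p] y - c)` and
`(T d)^[M p] y = g_q + t_q (T d)^[N] y`; so `α = c`, `β = (g_q - c) / t_q`, and
`t_p ^ M * t_q = 2 ^ N / 3 ^ ones d y N` (`ones_add`). Heights: `ht_gval_le`, `ht_mul_le`,
`ht_add_le`, `ht_inv_le`, `ht t_L ≤ 3 ^ L`. A convenient choice is to do an induction on `N`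
(steps of `p`). -/
theorem affine_periodic (hd : Odd d) : ∃ B : ℝ, 1 ≤ B ∧ ∀ (y : ℤ) (N p : ℕ), 0 < p →
    (∀ t < N, (T d)^[t] y % 2 = (T d)^[t + p] y % 2) →
    ∃ α β : ℚ, (ht α : ℝ) ≤ B ^ p ∧ (ht β : ℝ) ≤ B ^ p ∧
      (y : ℚ) = α + 2 ^ N / 3 ^ ones d y N * (β + ((T d)^[N] y : ℤ)) := by
  have hd1 : (1 : ℝ) ≤ |d| + 1 := by
    have : (0 : ℝ) ≤ ((|d| : ℤ) : ℝ) := by exact_mod_cast abs_nonneg d
    linarith
  refine ⟨324 * ((|d| : ℤ) + 1) ^ 2, by nlinarith, ?_⟩
  intro y N p hp h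
  set D : ℝ := ((|d| : ℤ) : ℝ) + 1 with hD
  -- data
  set g := gval d y p with hg
  set t : ℚ := 2 ^ p / 3 ^ ones d y p with ht1
  have htne : 1 - t ≠ 0 := affine_t_ne y hp
  set c := g * (1 - t)⁻¹ with hc
  have hcfix : g = c - t * c := by
    rw [hc]
    field_simp
  set M := N / p with hM
  set q := N % p with hq
  have hN : N = q + M * p := by
    rw [hM, hq, mul_comm]
    exact (Nat.mod_add_div N p).symm
  have hqp : q < p := Nat.mod_lt _ hp
  have hMN : M * p ≤ N := by omega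
  -- the chain
  have hchain : ∀ j : ℕ, j * p ≤ N → (y : ℚ) - c = t ^ j * (((T d)^[j * p] y : ℤ) - c) := by
    intro j
    induction j with
    | zero => intro _; simp
    | succ j ih =>
      intro hj
      have h1 : (j + 1) * p = p + j * p := by ring
      rw [h1] at hj
      have h2 := affine_block hd (y := y) (z := (T d)^[j * p] y) (L := p)
        fun k hk => (affine_par h j k hk (by omega)).symm
      rw [ih (by omega), h1, Function.iterate_add_apply, pow_succ]
      rw [← hg, ← ht1, hcfix] at h2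
      rw [h2]
      ring
  have h3 := affine_block hd (y := y) (z := (T d)^[M * p] y) (L := q)
    fun k hk => (affine_par h M k (by omega) hMN).symm
  rw [← Function.iterate_add_apply, ← hN] at h3
  set gq := gval d y q with hgq
  set tq : ℚ := 2 ^ q / 3 ^ ones d y q with htq
  have htq0 : tq ≠ 0 := by rw [htq]; positivity
  have hones : (2 : ℚ) ^ N / 3 ^ ones d y N = t ^ M * tq := by
    have h4 : ones d y N = M * ones d y p + ones d y q := by
      have h5 : N = M * p + q := by omega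
      rw [h5, ones_add, affine_ones hd h M hMN]
      rw [(ones_shift_congr hd (y := (T d)^[M * p] y) (z := y) q
        fun k hk => affine_par h M k (by omega) hMN).1]
    have h5 : (2 : ℚ) ^ N = (2 ^ p) ^ M * 2 ^ q := by
      rw [← pow_mul, ← pow_add]
      congr 1
      rw [mul_comm p M]
      omega
    rw [h4, h5, ht1, htq, pow_add, mul_comm M, pow_mul, div_pow, div_mul_div_comm]
  have hD0 : 0 < D := by linarith
  have hcht : (ht c : ℝ) ≤ 2 * D * 9 ^ p := by
    have h8 : (ht c : ℝ) ≤ ht g * ht (1 - t)⁻¹ := by exact_mod_cast ht_mul_le _ _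
    have h9 : (ht (1 - t)⁻¹ : ℝ) ≤ ht (1 - t) := by exact_mod_cast ht_inv_le _
    have h10 : (ht (1 + -t) : ℝ) ≤ 2 * (ht (1 : ℚ) * ht (-t)) := by
      exact_mod_cast ht_add_le 1 (-t)
    rw [← sub_eq_add_neg, ht_neg, ah_one] at h10
    have h11 := affine_ht_t (d := d) y p
    have h12 := ht_gval_le hd y p
    rw [← ht1] at h11
    rw [← hg, ← hD] at h12
    have h13 : (ht (1 - t)⁻¹ : ℝ) ≤ 2 * 3 ^ p := by
      push_cast at h10
      linarith
    refine h8.trans ((mul_le_mul h12 h13 (Nat.cast_nonneg _) (by positivity)).trans ?_)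
    have h14 : (9 : ℝ) ^ p = 3 ^ p * 3 ^ p := by rw [← mul_pow]; norm_num
    rw [h14]
    exact le_of_eq (by ring)
  have hcB : (ht c : ℝ) ≤ (324 * D ^ 2) ^ p := by
    refine hcht.trans ?_
    have h15 : (324 * D ^ 2) ^ p = (36 * D ^ 2) ^ p * 9 ^ p := by
      rw [← mul_pow]; congr 1; ring
    rw [h15]
    refine mul_le_mul_of_nonneg_right ?_ (by positivity)
    refine le_trans ?_ (le_self_pow₀ (by nlinarith) (by omega))
    nlinarith
  refine ⟨c, (gq - c) * tq⁻¹, ?_, ?_, ?_⟩
  · exact hcB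
  · have h8 : (ht (gq - c) : ℝ) ≤ 2 * ((D * 3 ^ p) * (2 * D * 9 ^ p)) := by
      have h9 : (ht (gq + -c) : ℝ) ≤ 2 * (ht gq * ht (-c)) := by exact_mod_cast ht_add_le gq (-c)
      rw [← sub_eq_add_neg, ht_neg] at h9
      refine h9.trans ?_
      have h10 : (ht gq : ℝ) ≤ D * 3 ^ p := by
        refine (ht_gval_le hd y q).trans ?_
        have : (3 : ℝ) ^ q ≤ 3 ^ p := pow_le_pow_right₀ (by norm_num) hqp.le
        exact mul_le_mul_of_nonneg_left this (by linarith)
      exact mul_le_mul_of_nonneg_left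
        (mul_le_mul h10 hcht (Nat.cast_nonneg _) (by positivity)) (by norm_num)
    have h11 : (ht tq⁻¹ : ℝ) ≤ 3 ^ p := by
      have h12 : (ht tq⁻¹ : ℝ) ≤ ht tq := by exact_mod_cast ht_inv_le tq
      refine h12.trans ((affine_ht_t y q).trans ?_)
      exact pow_le_pow_right₀ (by norm_num) hqp.le
    have h13 : (ht ((gq - c) * tq⁻¹) : ℝ) ≤ ht (gq - c) * ht tq⁻¹ := by
      exact_mod_cast ht_mul_le _ _
    refine h13.trans ((mul_le_mul h8 h11 (Nat.cast_nonneg _) (by positivity)).trans ?_)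
    have h14 : 2 * ((D * 3 ^ p) * (2 * D * 9 ^ p)) * 3 ^ p = (4 * D ^ 2) * 81 ^ p := by
      have : (81 : ℝ) ^ p = 3 ^ p * 9 ^ p * 3 ^ p := by
        rw [← mul_pow, ← mul_pow]; norm_num
      rw [this]; ring
    have h15 : (324 * D ^ 2) ^ p = (4 * D ^ 2) ^ p * 81 ^ p := by
      rw [← mul_pow]; congr 1; ring
    rw [h14, h15]
    refine mul_le_mul_of_nonneg_right ?_ (by positivity)
    exact le_self_pow₀ (by nlinarith) (by omega)
  · have h6 := hchain M hMN
    rw [h3] at h6
    rw [hones]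
    have h7 : (y : ℚ) = c + t ^ M * (gq + tq * ((T d)^[N] y : ℤ) - c) := by linarith
    rw [h7]
    field_simp
    ring

end Pool.Agent.Lib.MP_d0d59f_nt.Lin

end

section

namespace Pool.Agent.Lib.MP_d0d59f_nt.Lin

open Filter Topology

/-- the factor of length `n` at position `i` has two different continuations -/
def Branch (d x : ℤ) (n i : ℕ) : Prop :=
  ∃ j, factor d x n j = factor d x n i ∧ factor d x (n + 1) j ≠ factor d x (n + 1) i

/-- the set of the branching factors of length `n` -/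
def branchSet (d x : ℤ) (n : ℕ) : Set (Fin n → ℤ) := factor d x n '' {i | Branch d x n i}

/-- Branching depends only on the factor: if `j` is a witness for `i` and
`factor (n+1) i' ≠ factor (n+1) j` then `j` is a witness for `i'`, else `i` is. -/
theorem branch_congr {d x : ℤ} {n i i' : ℕ} (h : factor d x n i = factor d x n i')
    (hb : Branch d x n i) : Branch d x n i' := by
  obtain ⟨j, hj, hne⟩ := hb
  by_cases h' : factor d x (n + 1) j = factor d x (n + 1) i'
  · exact ⟨i, h, fun h2 => hne (h'.trans h2.symm)⟩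
  · exact ⟨j, hj.trans h, h'⟩

theorem linBranchA_restrict (d x : ℤ) (n i : ℕ) :
    (fun k : Fin n => factor d x (n + 1) i k.castSucc) = factor d x n i := by
  funext k
  simp [factor]

/-- The restriction map from the factors of length `n + 1` to those of length `n` is surjective, and
every branching factor has at least two preimages. -/
theorem card_branch (d x : ℤ) (n : ℕ) :
    (branchSet d x n).ncard + complexity d x n ≤ complexity d x (n + 1) := by
  classical
  set r : (Fin (n + 1) → ℤ) → (Fin n → ℤ) := fun f k => f k.castSucc with hr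
  have hrf : ∀ i, r (factor d x (n + 1) i) = factor d x n i := fun i => linBranchA_restrict d x n i
  have hs : ∀ u : Fin n → ℤ, ∃ i, u ∈ Set.range (factor d x n) → factor d x n i = u := by
    intro u
    by_cases hu : u ∈ Set.range (factor d x n)
    · obtain ⟨i, hi⟩ := hu
      exact ⟨i, fun _ => hi⟩
    · exact ⟨0, fun h => absurd h hu⟩
  choose a ha using hs
  have ht : ∀ u : Fin n → ℤ, ∃ j, u ∈ branchSet d x n →
      factor d x n j = u ∧ factor d x (n + 1) j ≠ factor d x (n + 1) (a u) := by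
    intro u
    by_cases hu : u ∈ branchSet d x n
    · obtain ⟨i, hi, rfl⟩ := hu
      have h1 : factor d x n (a (factor d x n i)) = factor d x n i := ha _ ⟨i, rfl⟩
      obtain ⟨j, hj, hne⟩ := branch_congr h1.symm hi
      exact ⟨j, fun _ => ⟨hj.trans h1, hne⟩⟩
    · exact ⟨0, fun h => absurd h hu⟩
  choose b hb using ht
  have hsub : branchSet d x n ⊆ Set.range (factor d x n) := by
    rintro _ ⟨i, -, rfl⟩; exact ⟨i, rfl⟩
  have hfin := range_factor_finite d x n
  have h1 : ((fun u => factor d x (n + 1) (a u)) '' Set.range (factor d x n)).ncard =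
      (Set.range (factor d x n)).ncard := by
    apply Set.ncard_image_of_injOn
    intro u hu w hw h
    have h' := congrArg r h
    simp only [hrf] at h'
    rwa [ha u hu, ha w hw] at h'
  have h2 : ((fun u => factor d x (n + 1) (b u)) '' branchSet d x n).ncard =
      (branchSet d x n).ncard := by
    apply Set.ncard_image_of_injOn
    intro u hu w hw h
    have h' := congrArg r h
    simp only [hrf] at h'
    rwa [(hb u hu).1, (hb w hw).1] at h'
  have h3 : Disjoint ((fun u => factor d x (n + 1) (b u)) '' branchSet d x n)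
      ((fun u => factor d x (n + 1) (a u)) '' Set.range (factor d x n)) := by
    rw [Set.disjoint_left]
    rintro _ ⟨u, hu, rfl⟩ ⟨w, hw, h⟩
    have h' := congrArg r h
    simp only [hrf] at h'
    rw [ha w hw, (hb u hu).1] at h'
    subst h'
    exact (hb _ hu).2 h.symm
  have h4 : ((fun u => factor d x (n + 1) (b u)) '' branchSet d x n) ∪
      ((fun u => factor d x (n + 1) (a u)) '' Set.range (factor d x n)) ⊆
      Set.range (factor d x (n + 1)) := by
    rintro _ (⟨u, -, rfl⟩ | ⟨u, -, rfl⟩)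
    · exact ⟨_, rfl⟩
    · exact ⟨_, rfl⟩
  have h5 := Set.ncard_le_ncard h4 (range_factor_finite d x (n + 1))
  rw [Set.ncard_union_eq h3 ((hfin.subset hsub).image _) (hfin.image _), h1, h2] at h5
  exact h5

/-- The factors of length `n + 1` at branching positions: at most `2 R` of them. -/
theorem exists_types {d x : ℤ} {n R : ℕ} (hR : (branchSet d x n).ncard ≤ R) :
    ∃ ty : ℕ → Fin (2 * R + 1), ∀ i j, Branch d x n i → Branch d x n j → ty i = ty j →
      factor d x (n + 1) i = factor d x (n + 1) j := by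
  classical
  set S : Set (Fin (n + 1) → ℤ) := factor d x (n + 1) '' {i | Branch d x n i} with hS
  have hSfin : S.Finite := (range_factor_finite d x (n + 1)).subset (by
    rintro _ ⟨i, -, rfl⟩; exact ⟨i, rfl⟩)
  have hBfin : (branchSet d x n).Finite := (range_factor_finite d x n).subset (by
    rintro _ ⟨i, -, rfl⟩; exact ⟨i, rfl⟩)
  have hcard : S.ncard ≤ 2 * R := by
    set φ : (Fin (n + 1) → ℤ) → (Fin n → ℤ) × ℤ := fun f => (fun k => f k.castSucc, f (Fin.last n))
      with hφ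
    have hinj : Set.InjOn φ S := by
      intro f _ g _ h
      rw [hφ] at h
      simp only [Prod.mk.injEq] at h
      funext k
      refine Fin.lastCases h.2 (fun k => ?_) k
      exact congrFun h.1 k
    have himg : φ '' S ⊆ (branchSet d x n) ×ˢ ({0, 1} : Set ℤ) := by
      rintro _ ⟨_, ⟨i, hi, rfl⟩, rfl⟩
      refine ⟨?_, ?_⟩
      · exact ⟨i, hi, (linBranchA_restrict d x n i).symm⟩
      · simp only [hφ, factor, Set.mem_insert_iff, Set.mem_singleton_iff]
        exact Int.emod_two_eq_zero_or_one _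
    have h1 : S.ncard = (φ '' S).ncard := (Set.ncard_image_of_injOn hinj).symm
    have h2 : (φ '' S).ncard ≤ ((branchSet d x n) ×ˢ ({0, 1} : Set ℤ)).ncard :=
      Set.ncard_le_ncard himg (hBfin.prod (Set.toFinite _))
    rw [Set.ncard_prod] at h2
    have h3 : ({0, 1} : Set ℤ).ncard = 2 := Set.ncard_pair (by norm_num)
    rw [h3] at h2
    omega
  haveI : Fintype S := hSfin.fintype
  have hc : Fintype.card S ≤ Fintype.card (Fin (2 * R + 1)) := by
    rw [Fintype.card_fin, ← Nat.card_eq_fintype_card, Nat.card_coe_set_eq]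
    omega
  obtain ⟨e⟩ := Function.Embedding.nonempty_of_card_le hc
  refine ⟨fun i => if hi : Branch d x n i then e ⟨factor d x (n + 1) i, ⟨i, hi, rfl⟩⟩ else 0, ?_⟩
  intro i j hi hj h
  simp only [hi, hj, dif_pos] at h
  have := e.injective h
  exact congrArg Subtype.val this

end Pool.Agent.Lib.MP_d0d59f_nt.Lin

end

section

namespace Pool.Agent.Lib.MP_d0d59f_nt.Lin

open Filter Topology

/-- telescoping the inequality `card_branch` -/
theorem branchB_sum (d x : ℤ) (m : ℕ) : ∀ N, m ≤ N →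
    (∑ n ∈ Finset.Ico m N, (branchSet d x n).ncard) + complexity d x m ≤ complexity d x N := by
  intro N hN
  induction N, hN using Nat.le_induction with
  | base => simp
  | succ N hN ih =>
    rw [Finset.sum_Ico_succ_top hN]
    have := card_branch d x N
    omega

/-- the complexity is monotone -/
theorem branchB_mono (d x : ℤ) {m N : ℕ} (h : m ≤ N) : complexity d x m ≤ complexity d x N := by
  have := branchB_sum d x m N h
  omega

end Pool.Agent.Lib.MP_d0d59f_nt.Lin

end

section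

namespace Pool.Agent.Lib.MP_d0d59f_nt.Lin

open Filter Topology

variable {d x : ℤ}

theorem linGapA_shift {n u v : ℕ} (h : factor d x (n + 1) u = factor d x (n + 1) v) :
    factor d x n (u + 1) = factor d x n (v + 1) := by
  funext k
  have h1 := congrFun h k.succ
  simp only [factor, Fin.val_succ] at h1 ⊢
  have e1 : u + 1 + (k : ℕ) = u + ((k : ℕ) + 1) := by omega
  have e2 : v + 1 + (k : ℕ) = v + ((k : ℕ) + 1) := by omega
  rw [e1, e2]
  exact h1

theorem linGapA_first {n u v : ℕ} (h : factor d x (n + 1) u = factor d x (n + 1) v) :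
    (T d)^[u] x % 2 = (T d)^[v] x % 2 := by
  have h1 := congrFun h 0
  simpa [factor] using h1

theorem linGapA_succ {n r j : ℕ} (hr : ¬ Branch d x n r) (h : factor d x n j = factor d x n r) :
    factor d x (n + 1) j = factor d x (n + 1) r := by
  by_contra hne
  exact hr ⟨j, h, hne⟩

/-- pigeonhole on the positions `i, ..., i + complexity n` -/
theorem linGapA_repeat (d x : ℤ) (n i : ℕ) :
    ∃ a b : ℕ, i ≤ a ∧ a < b ∧ b ≤ i + complexity d x n ∧ factor d x n a = factor d x n b := by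
  have hfin := range_factor_finite d x n
  have hmaps : Set.MapsTo (fun s => factor d x n (i + s))
      (Finset.range (complexity d x n + 1) : Set ℕ)
      (hfin.toFinset : Set (Fin n → ℤ)) := by
    intro s _
    simp
  have hcard : hfin.toFinset.card < (Finset.range (complexity d x n + 1)).card := by
    rw [Finset.card_range, complexity, Set.ncard_eq_toFinset_card _ hfin]
    omega
  obtain ⟨s, hs, t, ht, hst, h⟩ := Finset.exists_ne_map_eq_of_card_lt_of_maps_to hcard hmaps
  rw [Finset.mem_range] at hs ht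
  rcases lt_or_gt_of_ne hst with h' | h'
  · exact ⟨i + s, i + t, by omega, by omega, by omega, h⟩
  · exact ⟨i + t, i + s, by omega, by omega, by omega, h.symm⟩

end Pool.Agent.Lib.MP_d0d59f_nt.Lin

end

section

namespace Pool.Agent.Lib.MP_d0d59f_nt.Lin

open Filter Topology

variable {d x : ℤ}

theorem lingapb_tail {d x : ℤ} {n i j : ℕ} (h : factor d x (n + 1) i = factor d x (n + 1) j) :
    factor d x n (i + 1) = factor d x n (j + 1) := by
  funext k
  have := congrFun h ⟨k.1 + 1, by omega⟩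
  simp only [factor] at this ⊢
  have e1 : i + 1 + (k : ℕ) = i + (k.1 + 1) := by omega
  have e2 : j + 1 + (k : ℕ) = j + (k.1 + 1) := by omega
  rw [e1, e2]
  exact this

theorem lingapb_head {d x : ℤ} {n i j : ℕ} (h : factor d x (n + 1) i = factor d x (n + 1) j) :
    (T d)^[i] x % 2 = (T d)^[j] x % 2 := by
  have := congrFun h ⟨0, by omega⟩
  simpa only [factor, Nat.add_zero] using this

theorem lingapb_step {n : ℕ} {jt : ℕ → ℕ} (hjt : StrictMono jt)
    (hnb : ∀ k t, jt k < t → t < jt (k + 1) → ¬ Branch d x n t) {k k' : ℕ}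
    (h : factor d x (n + 1) (jt k) = factor d x (n + 1) (jt k')) (t : ℕ) :
    jt k + t < jt (k + 1) → jt k' + t < jt (k' + 1) →
      factor d x (n + 1) (jt k + t) = factor d x (n + 1) (jt k' + t) := by
  induction t with
  | zero => intro _ _; simpa using h
  | succ t ih =>
    intro h1 h2
    have h3 := ih (by omega) (by omega)
    have h4 : factor d x n (jt k + (t + 1)) = factor d x n (jt k' + (t + 1)) := lingapb_tail h3
    by_contra hne
    exact hnb k (jt k + (t + 1)) (by omega) h1 ⟨jt k' + (t + 1), h4.symm, fun h5 => hne h5.symm⟩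

theorem lingapb_le {n : ℕ} {jt : ℕ → ℕ} (hjt : StrictMono jt) (hb : ∀ k, Branch d x n (jt k))
    (hnb : ∀ k t, jt k < t → t < jt (k + 1) → ¬ Branch d x n t) {k k' : ℕ}
    (h : factor d x (n + 1) (jt k) = factor d x (n + 1) (jt k')) :
    jt (k' + 1) - jt k' ≤ jt (k + 1) - jt k := by
  by_contra hlt
  push Not at hlt
  have hk := hjt (Nat.lt_succ_self k)
  have hk' := hjt (Nat.lt_succ_self k')
  simp only [Nat.succ_eq_add_one] at hk hk'
  have h1 := lingapb_step hjt hnb h (jt (k + 1) - jt k - 1) (by omega) (by omega)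
  have h2 := lingapb_tail h1
  have e1 : jt k + (jt (k + 1) - jt k - 1) + 1 = jt (k + 1) := by omega
  rw [e1] at h2
  exact hnb k' _ (by omega) (by omega) (branch_congr h2 (hb (k + 1)))

/-- Two blocks which begin with the same factor of length `n + 1` are equal. Proof: by induction on
`t`, `1 ≤ t ≤ len` and `1 ≤ t ≤ len'`: `factor n (jt k + t) = factor n (jt k' + t)` (`t = 1`: from the
factors of length `n + 1`; step: `jt k + t` is not branching, so the factors of length `n + 1` agree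
too). If `len < len'` then `jt k + len` is branching and `jt k' + len` is not, contradiction. -/
theorem block_eq {n : ℕ} {jt : ℕ → ℕ} (hjt : StrictMono jt) (hb : ∀ k, Branch d x n (jt k))
    (hnb : ∀ k t, jt k < t → t < jt (k + 1) → ¬ Branch d x n t) {k k' : ℕ}
    (h : factor d x (n + 1) (jt k) = factor d x (n + 1) (jt k')) :
    jt (k + 1) - jt k = jt (k' + 1) - jt k' ∧
      ∀ t, t < jt (k + 1) - jt k → (T d)^[jt k + t] x % 2 = (T d)^[jt k' + t] x % 2 := by
  have hlen : jt (k + 1) - jt k = jt (k' + 1) - jt k' :=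
    le_antisymm (lingapb_le hjt hb hnb h.symm) (lingapb_le hjt hb hnb h)
  refine ⟨hlen, ?_⟩
  intro t ht
  exact lingapb_head (lingapb_step hjt hnb h t (by omega) (by omega))

/-- Among `R + 1` consecutive branching positions two have the same factor of length `n`. -/
theorem exists_same_branch {n R : ℕ} (hR : (branchSet d x n).ncard ≤ R) {jt : ℕ → ℕ}
    (hb : ∀ k, Branch d x n (jt k)) (c : ℕ) :
    ∃ a b, c ≤ a ∧ a < b ∧ b ≤ c + R ∧
      ∀ t < n, (T d)^[jt a + t] x % 2 = (T d)^[jt b + t] x % 2 := by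
  classical
  have hfin : (branchSet d x n).Finite := by
    apply (range_factor_finite d x n).subset
    rintro _ ⟨i, -, rfl⟩
    exact ⟨i, rfl⟩
  have hmaps : Set.MapsTo (fun a => factor d x n (jt a)) (Finset.Icc c (c + R) : Set ℕ)
      (hfin.toFinset : Set (Fin n → ℤ)) := by
    intro a _
    simp only [Set.Finite.coe_toFinset]
    exact ⟨jt a, hb a, rfl⟩
  have hcard : hfin.toFinset.card < (Finset.Icc c (c + R)).card := by
    rw [Nat.card_Icc, ← Set.ncard_eq_toFinset_card _ hfin]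
    omega
  obtain ⟨a, ha, b, hb', hab, he⟩ := Finset.exists_ne_map_eq_of_card_lt_of_maps_to hcard hmaps
  rw [Finset.mem_Icc] at ha hb'
  have key : ∀ a b : ℕ, factor d x n (jt a) = factor d x n (jt b) →
      ∀ t < n, (T d)^[jt a + t] x % 2 = (T d)^[jt b + t] x % 2 := by
    intro a b h t ht
    have := congrFun h ⟨t, ht⟩
    simpa only [factor] using this
  rcases lt_or_gt_of_ne hab with h' | h'
  · exact ⟨a, b, ha.1, h', hb'.2, key a b he⟩
  · exact ⟨b, a, hb'.1, h', ha.2, key b a he.symm⟩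

end Pool.Agent.Lib.MP_d0d59f_nt.Lin

end

section

namespace Pool.Agent.Lib.MP_d0d59f_nt.Lin

theorem linRun_step {jt : ℕ → ℕ} {ε k k' : ℕ}
    (hshort : ∀ i, k ≤ i → i < k' → jt (i + 1) ≤ jt i + ε) {i : ℕ} (hi : k ≤ i) :
    ∀ j, i + j ≤ k' → jt (i + j) ≤ jt i + j * ε := by
  intro j
  induction j with
  | zero => intro _; simp
  | succ j ih =>
    intro hj
    have h1 := ih (by omega)
    have h2 := hshort (i + j) (by omega) (by omega)
    rw [← add_assoc, Nat.succ_mul]
    omega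

theorem linRun_locate {jt : ℕ → ℕ} {a k' t : ℕ} (h1 : jt a ≤ t) (hak : a ≤ k') (h2 : t < jt k') :
    ∃ c, a ≤ c ∧ c < k' ∧ jt c ≤ t ∧ t < jt (c + 1) := by
  obtain ⟨j, rfl⟩ := Nat.exists_eq_add_of_le hak
  clear hak
  induction j with
  | zero => exact absurd h2 (by simpa using h1)
  | succ j ih =>
    rcases Nat.lt_or_ge t (jt (a + j)) with h | h
    · obtain ⟨c, hc1, hc2, hc3, hc4⟩ := ih h
      exact ⟨c, hc1, by omega, hc3, hc4⟩
    · exact ⟨a + j, by omega, by omega, h, h2⟩

/-- Proof: `hrep` for `c = k` gives `a < b ≤ k + R ≤ k'`; `p = jt b - jt a ≤ R ε`. Show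
`w t = w (t + p)` for `jt a ≤ t < jt k'` by strong induction on `t`. If `t < jt a + n` this is `hrep`.
Let `t ≥ jt a + n`. Let `c'` be such that `jt c' ≤ t < jt (c' + 1)`; `c' < k'`. Then `c' ≥ a + R`
(else `t < jt (c' + 1) ≤ jt a + R ε ≤ jt a + n`). `hrep` for `c = c' - R` gives
`c₁ < c₂`, `c ≤ c₁`, `c₂ ≤ c'`. Put `u = t - jt c₂`, so `t = jt c₂ + u`. As
`t < jt (c' + 1) ≤ jt c₁ + (R + 1) ε` and `p ≤ R ε` we have
`u + p < n`; so `w t = w (jt c₁ + u)`, `w (t + p) = w (jt c₁ + u + p)` and by the induction hypothesis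
for `jt c₁ + u < t` (and `≥ jt a`) these are equal. -/
theorem run_periodic {w : ℕ → ℤ} {jt : ℕ → ℕ} (hjt : StrictMono jt) {n R ε k k' : ℕ}
    (hrep : ∀ c, ∃ a b, c ≤ a ∧ a < b ∧ b ≤ c + R ∧ ∀ t < n, w (jt a + t) = w (jt b + t))
    (hε : (3 * R + 3) * ε ≤ n) (hkk : k + R ≤ k')
    (hshort : ∀ i, k ≤ i → i < k' → jt (i + 1) ≤ jt i + ε) :
    ∃ a p, k ≤ a ∧ a ≤ k + R ∧ 0 < p ∧ p ≤ R * ε ∧ ∀ t, jt a ≤ t → t < jt k' → w t = w (t + p) := by
  obtain ⟨a, b, hka, hab, hbk, hw⟩ := hrep k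
  have hjab : jt a < jt b := hjt hab
  have hbound : ∀ i j m, k ≤ i → i ≤ j → j ≤ k' → j ≤ i + m → jt j ≤ jt i + m * ε := by
    intro i j m h1 h2 h3 h4
    have h5 := linRun_step hshort h1 (j - i) (by omega)
    have e : i + (j - i) = j := by omega
    rw [e] at h5
    have h6 : (j - i) * ε ≤ m * ε := Nat.mul_le_mul_right _ (by omega)
    omega
  have hp : jt b ≤ jt a + R * ε := hbound a b R hka hab.le (by omega) (by omega)
  have hexp : (3 * R + 3) * ε = 3 * (R * ε) + 3 * ε := by ring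
  refine ⟨a, jt b - jt a, hka, by omega, by omega, by omega, ?_⟩
  intro t
  induction t using Nat.strong_induction_on with
  | _ t ih =>
    intro ht1 ht2
    rcases Nat.lt_or_ge t (jt a + n) with hlt | hge
    · have h1 := hw (t - jt a) (by omega)
      have e1 : jt a + (t - jt a) = t := by omega
      have e2 : jt b + (t - jt a) = t + (jt b - jt a) := by omega
      rw [e1, e2] at h1
      exact h1
    · obtain ⟨c', hc1, hc2, hc3, hc4⟩ := linRun_locate ht1 (by omega) ht2
      have hcR : a + R ≤ c' := by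
        by_contra hlt
        have h1 := hbound a (c' + 1) R hka (by omega) (by omega) (by omega)
        omega
      obtain ⟨c₁, c₂, hd1, hd2, hd3, hd4⟩ := hrep (c' - R)
      have hle2 : c₂ ≤ c' := by omega
      have hj2 : jt c₂ ≤ jt c' := hjt.monotone hle2
      have hj12 : jt c₁ < jt c₂ := hjt hd2
      have hja1 : jt a ≤ jt c₁ := hjt.monotone (by omega)
      have hb1 := hbound c₁ (c' + 1) (R + 1) (by omega) (by omega) (by omega) (by omega)
      have hexp2 : (R + 1) * ε = R * ε + ε := by ring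
      have hu1 : t - jt c₂ < n := by omega
      have hu2 : t - jt c₂ + (jt b - jt a) < n := by omega
      have h1 := hd4 _ hu1
      have h2 := hd4 _ hu2
      have e1 : jt c₂ + (t - jt c₂) = t := by omega
      have e2 : jt c₂ + (t - jt c₂ + (jt b - jt a)) = t + (jt b - jt a) := by omega
      rw [e1] at h1
      rw [e2] at h2
      have h3 := ih (jt c₁ + (t - jt c₂)) (by omega) (by omega) (by omega)
      rw [← h1, ← h2, h3, add_assoc]

end Pool.Agent.Lib.MP_d0d59f_nt.Lin

end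

section

namespace Pool.Agent.Lib.MP_d0d59f_nt.Lin

open Filter Topology

variable {d x : ℤ}

end Pool.Agent.Lib.MP_d0d59f_nt.Lin

end

section

namespace Pool.Agent.Lib.MP_d0d59f_nt.Lin

open Filter Topology Auto

variable {d x : ℤ}

/-- the structure of the orbit at level `n`: positions `jt`, types `ty` of the blocks -/
structure Level (d x : ℤ) (R : ℕ) (C : ℕ) (B : ℝ) (n : ℕ) (jt : ℕ → ℕ)
    (ty : ℕ → Fin (2 * R + 1)) : Prop where
  mono : StrictMono jt
  zero_le : jt 0 ≤ R * n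
  gap : ∀ k, jt (k + 1) ≤ jt k + R * n
  len_eq : ∀ k k', ty k = ty k' → jt (k + 1) - jt k = jt (k' + 1) - jt k'
  gval_eq : ∀ k k', ty k = ty k' →
    gval d ((T d)^[jt k] x) (jt (k + 1) - jt k) = gval d ((T d)^[jt k'] x) (jt (k' + 1) - jt k')
  run_le : ∀ ε k k', (3 * R + 3) * ε ≤ n → k ≤ k' →
    (∀ i, k ≤ i → i < k' → jt (i + 1) ≤ jt i + ε) → jt k' ≤ C * (jt k + n) + C
  run_form : ∀ ε k k', (3 * R + 3) * ε ≤ n → k ≤ k' →
    (∀ i, k ≤ i → i < k' → jt (i + 1) ≤ jt i + ε) →
    ∃ α β : ℚ, (ht α : ℝ) ≤ B ^ (R * ε + 1) ∧ (ht β : ℝ) ≤ B ^ (R * ε + 1) ∧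
      ((T d)^[jt k] x : ℚ) = α + 2 ^ (jt k' - jt k) / 3 ^ ones d ((T d)^[jt k] x) (jt k' - jt k) *
        (β + ((T d)^[jt k'] x : ℤ))

theorem linLevel_add_le {jt : ℕ → ℕ} {ε k : ℕ} (m : ℕ)
    (h : ∀ i, k ≤ i → i < k + m → jt (i + 1) ≤ jt i + ε) : jt (k + m) ≤ jt k + m * ε := by
  induction m with
  | zero => simp
  | succ m ih =>
    have h1 := ih fun i hi hi' => h i hi (by omega)
    have h2 := h (k + m) (by omega) (by omega)
    rw [show k + (m + 1) = k + m + 1 by ring]
    have h3 : (m + 1) * ε = m * ε + ε := by ring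
    omega

theorem linLevel_jt_le {jt : ℕ → ℕ} {ε k a k' R : ℕ} (hka : k ≤ a) (haR : a ≤ k + R) (hak : a ≤ k')
    (h : ∀ i, k ≤ i → i < k' → jt (i + 1) ≤ jt i + ε) : jt a ≤ jt k + R * ε := by
  obtain ⟨m, rfl⟩ := Nat.exists_eq_add_of_le hka
  have h1 := linLevel_add_le (jt := jt) (ε := ε) (k := k) m fun i hi hi' => h i hi (by omega)
  have h2 : m * ε ≤ R * ε := Nat.mul_le_mul_right _ (by omega)
  omega

theorem linLevel_ht_pow (d y : ℤ) (L : ℕ) :
    (ht ((2 : ℚ) ^ L / 3 ^ ones d y L) : ℝ) ≤ 3 ^ L := by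
  have h1 := ht_div_le (2 ^ L) (3 ^ ones d y L) (by positivity)
  push_cast at h1
  have h2 : ((2 : ℤ) ^ L).natAbs ≤ 3 ^ L := by
    rw [Int.natAbs_pow]
    exact Nat.pow_le_pow_left (by norm_num) L
  have h3 : ((3 : ℤ) ^ ones d y L).natAbs ≤ 3 ^ L := by
    rw [Int.natAbs_pow]
    exact Nat.pow_le_pow_right (by norm_num) (ones_le d y L)
  have h4 : ht ((2 : ℚ) ^ L / 3 ^ ones d y L) ≤ 3 ^ L := h1.trans (max_le h2 h3)
  exact_mod_cast h4

end Pool.Agent.Lib.MP_d0d59f_nt.Lin

end

section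

namespace Pool.Agent.Lib.MP_d0d59f_nt.Lin

open Filter Topology Auto

/-- the growth of the positions -/
noncomputable def walk_D (R C : ℕ) : ℕ → ℝ
  | 0 => R
  | i + 1 => (C + 1) * (walk_D R C i + 1) + C + R

theorem walk_D_nonneg (R C : ℕ) : ∀ i, 0 ≤ walk_D R C i
  | 0 => by simp only [walk_D]; positivity
  | i + 1 => by
    have := walk_D_nonneg R C i
    simp only [walk_D]
    positivity

end Pool.Agent.Lib.MP_d0d59f_nt.Lin

end

section

namespace Pool.Agent.Lib.MP_d0d59f_nt.Lin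

open Filter Topology

/-- For every type `a` either `ℓ m a` is bounded below along the ultrafilter or it tends to zero. -/
theorem dichotomy {K : ℕ} (l : ℕ → Fin K → ℝ) : ∃ (S : Finset (Fin K)) (δ : ℝ), 0 < δ ∧
    (∀ᶠ m in (hyperfilter ℕ : Filter ℕ), ∀ a ∈ S, δ ≤ l m a) ∧
    ∀ ε : ℝ, 0 < ε → ∀ᶠ m in (hyperfilter ℕ : Filter ℕ), ∀ a ∉ S, l m a < ε := by
  classical
  set S : Finset (Fin K) := Finset.univ.filter fun a =>
    ∃ δ : ℝ, 0 < δ ∧ ∀ᶠ m in (hyperfilter ℕ : Filter ℕ), δ ≤ l m a with hS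
  have hS1 : ∀ a : Fin K, ∃ δ : ℝ, 0 < δ ∧ (a ∈ S →
      ∀ᶠ m in (hyperfilter ℕ : Filter ℕ), δ ≤ l m a) := by
    intro a
    by_cases ha : a ∈ S
    · obtain ⟨δ, h1, h2⟩ := (Finset.mem_filter.mp ha).2
      exact ⟨δ, h1, fun _ => h2⟩
    · exact ⟨1, one_pos, fun h => absurd h ha⟩
  choose δ hδ0 hδ using hS1
  obtain ⟨δ₀, hδ₀, hle⟩ : ∃ δ₀ : ℝ, 0 < δ₀ ∧ ∀ a, δ₀ ≤ δ a := by
    rcases isEmpty_or_nonempty (Fin K) with h | h
    · exact ⟨1, one_pos, fun a => h.elim a⟩
    · obtain ⟨a, ha⟩ := Finite.exists_min δ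
      exact ⟨δ a, hδ0 a, ha⟩
  refine ⟨S, δ₀, hδ₀, ?_, ?_⟩
  · rw [Filter.eventually_all]
    intro a
    by_cases ha : a ∈ S
    · filter_upwards [hδ a ha] with m hm _
      exact (hle a).trans hm
    · exact Eventually.of_forall fun m h => absurd h ha
  · intro ε hε
    rw [Filter.eventually_all]
    intro a
    by_cases ha : a ∈ S
    · exact Eventually.of_forall fun m h => absurd ha h
    · have h1 : ¬ ∀ᶠ m in (hyperfilter ℕ : Filter ℕ), ε ≤ l m a := by
        intro h
        exact ha (Finset.mem_filter.mpr ⟨Finset.mem_univ _, ε, hε, h⟩)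
      rw [← Ultrafilter.eventually_not] at h1
      filter_upwards [h1] with m hm _
      exact not_le.mp hm

end Pool.Agent.Lib.MP_d0d59f_nt.Lin

end

section

namespace Pool.Agent.Lib.MP_d0d59f_nt.Lin

open Filter Topology Auto

theorem LinData_pow {B : ℝ} (hB : 1 ≤ B) (R : ℕ) {L e : ℕ → ℕ} (hL : Tendsto L atTop atTop)
    (he : ∀ η : ℝ, 0 < η → ∀ᶠ m in (hyperfilter ℕ : Filter ℕ), (e m : ℝ) ≤ η * L m)
    (ε : ℝ) (hε : 0 < ε) :
    ∀ᶠ m in (hyperfilter ℕ : Filter ℕ), B ^ (R * e m + 1) ≤ (1 + ε) ^ L m := by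
  have hlB : 0 ≤ Real.log B := Real.log_nonneg hB
  have hB0 : 0 < B := lt_of_lt_of_le one_pos hB
  have hlε : 0 < Real.log (1 + ε) := Real.log_pos (by linarith)
  set η : ℝ := Real.log (1 + ε) / (2 * (R + 1) * (Real.log B + 1)) with hη
  have hη0 : 0 < η := by positivity
  have hlarge : ∀ᶠ m in (hyperfilter ℕ : Filter ℕ),
      2 * Real.log B / Real.log (1 + ε) ≤ (L m : ℝ) := by
    have h1 : Tendsto (fun m => (L m : ℝ)) atTop atTop :=
      tendsto_natCast_atTop_atTop.comp hL
    exact Nat.hyperfilter_le_atTop (h1.eventually_ge_atTop _)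
  filter_upwards [he η hη0, hlarge] with m h1 h2
  have h3 : Real.log B ≤ L m * Real.log (1 + ε) / 2 := by
    rw [div_le_iff₀ hlε] at h2
    linarith
  have h4 : (R * e m : ℝ) * Real.log B ≤ L m * Real.log (1 + ε) / 2 := by
    have h5 : (R * e m : ℝ) * Real.log B ≤ (R + 1) * (η * L m) * (Real.log B + 1) := by
      have h6 : (R * e m : ℝ) ≤ (R + 1) * (η * L m) :=
        mul_le_mul (by linarith) h1 (Nat.cast_nonneg _) (by positivity)
      exact mul_le_mul h6 (by linarith) hlB (by positivity)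
    have h7 : (R + 1) * (η * L m) * (Real.log B + 1) = L m * Real.log (1 + ε) / 2 := by
      rw [hη]
      field_simp
    linarith
  have h5 : Real.log (B ^ (R * e m + 1)) ≤ Real.log ((1 + ε) ^ L m) := by
    rw [Real.log_pow, Real.log_pow]
    push_cast
    linarith
  exact (Real.log_le_log_iff (by positivity) (by positivity)).mp h5

end Pool.Agent.Lib.MP_d0d59f_nt.Lin

end

section

namespace Pool.Agent.Lib.MP_d0d59f_nt.Lin

open Filter Topology Auto

variable {d x : ℤ} {L : ℕ → ℕ} {K : ℕ} {g : Fin K → ℕ → ℚ} {P : ℕ → ℕ → ℕ}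
  {c : ℕ → Fin K → ℕ → ℚ} {α β : ℕ → ℕ → ℚ} {δ : ℝ}

/-- exponents of `2`: `P i m - P 0 m` for `t = 2 i` and for `t = 2 i - 1` -/
def expA (P : ℕ → ℕ → ℕ) (t m : ℕ) : ℕ := P ((t + 1) / 2) m - P 0 m

/-- coefficients, with one more coordinate -/
def coef (c : ℕ → Fin K → ℕ → ℚ) (α β : ℕ → ℕ → ℚ) (t : ℕ) (a : Fin (K + 1)) (m : ℕ) : ℚ :=
  if t % 2 = 0 then (Fin.snoc (fun b => c (t / 2) b m) (α (t / 2) m) : Fin (K + 1) → ℚ) a
  else (Fin.snoc (fun _ => 0) (β (t / 2) m) : Fin (K + 1) → ℚ) a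

/-- the block constants and `1` -/
def gOne (g : Fin K → ℕ → ℚ) (a : Fin (K + 1)) (m : ℕ) : ℚ :=
  (Fin.snoc (fun b => g b m) 1 : Fin (K + 1) → ℚ) a

theorem ident_sum_snoc {K : ℕ} (g : Fin K → ℕ → ℚ) (u : Fin K → ℚ) (w : ℚ) (m : ℕ) :
    ∑ a : Fin (K + 1), gOne g a m * (Fin.snoc u w : Fin (K + 1) → ℚ) a =
      ∑ b, g b m * u b + w := by
  rw [Fin.sum_univ_castSucc]
  simp [gOne]

theorem ident_coef_even (c : ℕ → Fin K → ℕ → ℚ) (α β : ℕ → ℕ → ℚ) (i : ℕ) (a : Fin (K + 1))
    (m : ℕ) : coef c α β (2 * i) a m = (Fin.snoc (fun b => c i b m) (α i m) : Fin (K + 1) → ℚ) a := by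
  unfold coef
  rw [if_pos (by omega)]
  have h : 2 * i / 2 = i := by omega
  rw [h]

theorem ident_coef_odd (c : ℕ → Fin K → ℕ → ℚ) (α β : ℕ → ℕ → ℚ) (i : ℕ) (a : Fin (K + 1))
    (m : ℕ) : coef c α β (2 * i + 1) a m = (Fin.snoc (fun _ => 0) (β i m) : Fin (K + 1) → ℚ) a := by
  unfold coef
  rw [if_neg (by omega)]
  have h : (2 * i + 1) / 2 = i := by omega
  rw [h]

end Pool.Agent.Lib.MP_d0d59f_nt.Lin

end
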