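import Pool.Agent.Lib.MP_d0d59f_nt.Sub.NoFamily
import Pool.Agent.Lib.MP_d0d59f_nt.Sub.Words
import Pool.Agent.Lib.MP_d0d59f_nt.Hitting
import Pool.Agent.Lib.MP_d0d59f_nt.LogForm

/-!
The main theorems.
-/

section

namespace Pool.Agent.Lib.MP_d0d59f_nt.Sb

open Filter Topology Lin

/-- One length: if `complexity N ≤ C N`, `N ≥ 2`, then there is `n`, `N / 2 ≤ n < N`, with
`card branchSet ≤ 2 C` and `complexity n ≤ 3 C n` (the sum of
`complexity (n + 1) - complexity n` over `N / 2 ≤ n < N` is at most `C N`). -/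
theorem exists_good_length {d x : ℤ} {C N : ℕ} (hN : 2 ≤ N) (h : complexity d x N ≤ C * N) :
    ∃ n, N / 2 ≤ n ∧ n < N ∧ 1 ≤ n ∧ (branchSet d x n).ncard ≤ 3 * C ∧
      complexity d x n ≤ 3 * C * n := by
  have hm : N / 2 ≤ N := Nat.div_le_self N 2
  have hsum := branchB_sum d x (N / 2) N hm
  have hex : ∃ n ∈ Finset.Ico (N / 2) N, (branchSet d x n).ncard ≤ 2 * C := by
    by_contra hno
    push Not at hno
    have h1 : ∑ n ∈ Finset.Ico (N / 2) N, (2 * C + 1) ≤
        ∑ n ∈ Finset.Ico (N / 2) N, (branchSet d x n).ncard :=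
      Finset.sum_le_sum fun n hn => hno n hn
    rw [Finset.sum_const, Nat.card_Ico, smul_eq_mul] at h1
    have h2 : N ≤ 2 * (N - N / 2) := by omega
    have h3 : 0 < N - N / 2 := by omega
    have h4 : C * N ≤ C * (2 * (N - N / 2)) := Nat.mul_le_mul_left C h2
    have h5 : (N - N / 2) * (2 * C + 1) = C * (2 * (N - N / 2)) + (N - N / 2) := by ring
    omega
  obtain ⟨n, hn, hb⟩ := hex
  rw [Finset.mem_Ico] at hn
  have h1n : 1 ≤ n := by omega
  refine ⟨n, hn.1, hn.2, h1n, by omega, ?_⟩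
  have h1 : complexity d x n ≤ complexity d x N := branchB_mono d x hn.2.le
  have h2 : N ≤ 3 * n := by omega
  have h3 : C * N ≤ C * (3 * n) := Nat.mul_le_mul_left C h2
  calc complexity d x n ≤ C * N := h1.trans h
    _ ≤ C * (3 * n) := h3
    _ = 3 * C * n := by ring

/-- The main theorem: integers `|x| ≤ 2 ^ n` with at most `C n` factors of length `n` have a coincidence
at a distance of at most `K n`. Proof: otherwise for every `K` there are `n K ≥ K`, `x K` with
`|x K| ≤ 2 ^ n K`, complexity at most `C n K` and `NoPer d (x K) (K * n K)`. `exists_good_length` for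
`N = n K` gives `L K`, `N ≤ 2 L K + 1 ≤ 3 L K`; these are a `Family` with `R = 3 C`:
`NoPer (S * L K)` for `K ≥ S`, `|x K| + |d| ≤ 2 ^ (3 L K) + |d| ≤ 2 ^ (4 L K)` eventually.
`no_family`. -/
theorem exists_coincidence {d : ℤ} (hd : Odd d) (C : ℕ) : ∃ K : ℕ, ∀ n ≥ K, ∀ x : ℤ,
    |x| ≤ 2 ^ n → complexity d x n ≤ C * n →
    ∃ m p : ℕ, 0 < p ∧ p ≤ K * n ∧ (T d)^[m + p] x = (T d)^[m] x := by
  by_contra hno
  push Not at hno
  choose n hn x hx hc hne using fun K : ℕ => hno (K + 2)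
  have hgood : ∀ K, ∃ l, n K / 2 ≤ l ∧ l < n K ∧ 1 ≤ l ∧
      (branchSet d (x K) l).ncard ≤ 3 * C ∧ complexity d (x K) l ≤ 3 * C * l := fun K =>
    exists_good_length (by have := hn K; omega) (hc K)
  choose L hL1 hL2 hL3 hL4 hL5 using hgood
  have htend : Tendsto L atTop atTop := by
    rw [tendsto_atTop]
    intro b
    filter_upwards [eventually_ge_atTop (2 * b)] with K hK
    have h1 := hn K
    have h2 := hL1 K
    omega
  have hF : Family d x L (3 * C) := by
    refine ⟨htend, ?_, ?_, Eventually.of_forall hL4, Eventually.of_forall hL5⟩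
    · intro S
      filter_upwards [eventually_ge_atTop S] with K hK
      intro m p hp hpS
      refine hne K m p hp (hpS.trans ?_)
      exact Nat.mul_le_mul (by omega) (hL2 K).le
    · have h1 : Tendsto (fun K : ℕ => (2 : ℤ) ^ L K) atTop atTop :=
        (tendsto_pow_atTop_atTop_of_one_lt (by norm_num)).comp htend
      filter_upwards [h1.eventually_ge_atTop |d|] with K hK
      have h2 : n K ≤ 3 * L K := by
        have := hL1 K
        have := hL3 K
        omega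
      have h3 : (2 : ℤ) ^ n K ≤ 2 ^ (3 * L K) := pow_le_pow_right₀ (by norm_num) h2
      have h4 : (2 : ℤ) ^ L K ≤ 2 ^ (3 * L K) :=
        pow_le_pow_right₀ (by norm_num) (by omega)
      have h5 : (2 : ℤ) * 2 ^ (3 * L K) ≤ 2 ^ (4 * L K) := by
        rw [← pow_succ']
        exact pow_le_pow_right₀ (by norm_num) (by have := hL3 K; omega)
      have h6 := hx K
      linarith
  exact no_family hd hF

/-- Orbits which are not eventually periodic have superlinear complexity. -/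
theorem eventually_periodic_of_linear {d : ℤ} (hd : Odd d) (x : ℤ) (C : ℕ)
    (h : ∃ᶠ n in atTop, complexity d x n ≤ C * n) :
    ∃ m p : ℕ, 0 < p ∧ (T d)^[m + p] x = (T d)^[m] x := by
  obtain ⟨K, hK⟩ := exists_coincidence hd C
  have h1 : ∀ᶠ n : ℕ in atTop, |x| ≤ 2 ^ n := by
    have : Tendsto (fun n : ℕ => (2 : ℤ) ^ n) atTop atTop :=
      tendsto_pow_atTop_atTop_of_one_lt (by norm_num)
    exact this.eventually_ge_atTop _
  obtain ⟨n, hn, hn1, hn2⟩ := (h.and_eventually (h1.and (eventually_ge_atTop K))).exists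
  obtain ⟨m, p, hp, -, h⟩ := hK n hn2 x hn1 hn
  exact ⟨m, p, hp, h⟩

end Pool.Agent.Lib.MP_d0d59f_nt.Sb

end

section

namespace Pool.Agent.Lib.MP_d0d59f_nt.Sb

open Filter Topology Lin

theorem FinalB_abs_log {e : ℝ} (he : |e| ≤ 1 / 2) : |Real.log (1 + e)| ≤ 2 * |e| := by
  have h1 := abs_le.1 he
  have hpos : 0 < 1 + e := by linarith
  have h2 := Real.log_le_sub_one_of_pos hpos
  have h3 := Real.one_sub_inv_le_log_of_pos hpos
  have h4 : e ≤ |e| := le_abs_self e
  have h5 : - |e| ≤ e := neg_abs_le e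
  have h6 : -(2 * |e|) ≤ 1 - (1 + e)⁻¹ := by
    have h7 : 1 - (1 + e)⁻¹ = e / (1 + e) := by field_simp; ring
    rw [h7, le_div_iff₀ hpos]
    rcases abs_cases e with ⟨h8, h9⟩ | ⟨h8, h9⟩
    · rw [h8]; nlinarith
    · rw [h8]; nlinarith
  rw [abs_le]
  constructor
  · linarith
  · have := abs_nonneg e
    linarith

/-- telescoping along the orbit -/
theorem FinalB_tele {d : ℤ} (hd : Odd d) (y : ℤ) {Y : ℝ} (hY : 2 * |(d : ℝ)| ≤ Y) (hY0 : 0 < Y)
    (h : ∀ i, Y < |((T d)^[i] y : ℝ)|) (n : ℕ) :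
    |Real.log ((T d)^[n] y : ℝ) - Real.log (y : ℝ) + n * Real.log 2 - ones d y n * Real.log 3|
      ≤ n * (|(d : ℝ)| / Y) := by
  induction n with
  | zero => simp [ones_zero]
  | succ n ih =>
    have hn := h n
    have hn1 := h (n + 1)
    rw [Function.iterate_succ_apply'] at hn1 ⊢
    rw [ones_succ]
    set u := (T d)^[n] y with hu
    have hu0 : (u : ℝ) ≠ 0 := by
      intro h0
      rw [h0, abs_zero] at hn
      linarith
    have hd0 : (0 : ℝ) ≤ |(d : ℝ)| / Y := div_nonneg (abs_nonneg _) hY0.le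
    rcases Int.emod_two_eq_zero_or_one u with h0 | h1
    · have e : (2 : ℝ) * (T d u : ℝ) = u := by exact_mod_cast T_even (d := d) h0
      have e1 : (T d u : ℝ) = u / 2 := by linarith
      rw [if_neg (by omega), e1, Real.log_div hu0 (by norm_num)]
      push_cast
      have e2 : Real.log (u : ℝ) - Real.log 2 - Real.log (y : ℝ) + ((n : ℝ) + 1) * Real.log 2 -
          ((ones d y n : ℝ) + 0) * Real.log 3 =
          Real.log (u : ℝ) - Real.log (y : ℝ) + n * Real.log 2 - ones d y n * Real.log 3 := by ring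
      rw [e2]
      linarith
    · have e : (2 : ℝ) * (T d u : ℝ) = 3 * u + d := by exact_mod_cast T_odd hd h1
      have hs : |(d : ℝ) / (3 * u)| ≤ |(d : ℝ)| / Y / 3 := by
        rw [abs_div, abs_mul, abs_of_pos (by norm_num : (0 : ℝ) < 3), div_div,
          mul_comm Y 3]
        exact div_le_div_of_nonneg_left (abs_nonneg _) (by positivity) (by linarith)
      have hd1 : |(d : ℝ)| / Y ≤ 1 / 2 := by
        rw [div_le_iff₀ hY0]; linarith
      have hs2 : |(d : ℝ) / (3 * u)| ≤ 1 / 2 := by linarith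
      have hpos : 0 < 1 + (d : ℝ) / (3 * u) := by
        have := (abs_le.1 hs2).1
        linarith
      have e1 : (T d u : ℝ) = u * (1 + (d : ℝ) / (3 * u)) * 3 / 2 := by
        field_simp
        linarith
      have hlog := FinalB_abs_log hs2
      have e3 : Real.log ((T d u : ℤ) : ℝ) =
          Real.log (u : ℝ) + Real.log (1 + (d : ℝ) / (3 * u)) + Real.log 3 - Real.log 2 := by
        rw [e1, Real.log_div (mul_ne_zero (mul_ne_zero hu0 hpos.ne') (by norm_num)) (by norm_num),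
          Real.log_mul (mul_ne_zero hu0 hpos.ne') (by norm_num), Real.log_mul hu0 hpos.ne']
      rw [if_pos h1, e3]
      push_cast
      have e2 : Real.log (u : ℝ) + Real.log (1 + (d : ℝ) / (3 * u)) + Real.log 3 - Real.log 2 -
          Real.log (y : ℝ) + ((n : ℝ) + 1) * Real.log 2 - ((ones d y n : ℝ) + 1) * Real.log 3 =
          (Real.log (u : ℝ) - Real.log (y : ℝ) + n * Real.log 2 - ones d y n * Real.log 3) +
            Real.log (1 + (d : ℝ) / (3 * u)) := by ring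
      rw [e2]
      refine (abs_add_le _ _).trans ?_
      linarith

/-- A cycle of length `ℓ ≥ 1` contains an element of absolute value at most `A ℓ ^ B`. Proof. Let
`y_0, ..., y_{ℓ-1}` be the elements, none of them zero (else it is the cycle `{0}`, which has the element
`0`), `k` the number of the odd ones, `Y` the minimum of the `|y_i|`; let `Y > 2 |d| ℓ`. From
`2 y_{i+1} = y_i` or `3 y_i (1 + d / (3 y_i))`: `2 ^ ℓ = 3 ^ k ∏ (1 + d / (3 y_i))`, so
`|ℓ log 2 - k log 3| ≤ ∑ |log (1 + d / (3 y_i))| ≤ ℓ |d| / Y`. By `LogMeasure.log_two_three` this is at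
least `c ℓ ^ (- K)`; so `Y ≤ |d| ℓ ^ (K + 1) / c`. -/
theorem cycle_min {d : ℤ} (hd : Odd d) : ∃ A : ℝ, ∃ B : ℕ, 0 < A ∧ ∀ (y : ℤ) (l : ℕ), 1 ≤ l →
    (T d)^[l] y = y → ∃ i, |((T d)^[i] y : ℝ)| ≤ A * (l : ℝ) ^ B := by
  obtain ⟨c, K, hc, hK, hlog⟩ := LogMeasure.log_two_three
  have hdn : 0 ≤ |(d : ℝ)| := abs_nonneg _
  have hA0 : 0 < |(d : ℝ)| / c + 2 * |(d : ℝ)| + 1 := by positivity
  refine ⟨|(d : ℝ)| / c + 2 * |(d : ℝ)| + 1, ⌈K⌉₊ + 1, hA0, ?_⟩
  intro y l hl hcyc
  by_contra hcon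
  push Not at hcon
  set A : ℝ := |(d : ℝ)| / c + 2 * |(d : ℝ)| + 1 with hA
  have hl1 : (1 : ℝ) ≤ (l : ℝ) := by exact_mod_cast hl
  have hlB : (1 : ℝ) ≤ (l : ℝ) ^ (⌈K⌉₊ + 1) := one_le_pow₀ hl1
  set Y : ℝ := A * (l : ℝ) ^ (⌈K⌉₊ + 1) with hYdef
  have hYA : A ≤ Y := by rw [hYdef]; nlinarith
  have hY0 : 0 < Y := hA0.trans_le hYA
  have hY2 : 2 * |(d : ℝ)| ≤ Y := by
    have : 0 ≤ |(d : ℝ)| / c := by positivity
    linarith
  have h1 := FinalB_tele hd y hY2 hY0 hcon l
  rw [hcyc, sub_self, zero_add] at h1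
  have h2 := hlog l (ones d y l) hl (ones_le d y l)
  have h3 : c * (l : ℝ) ^ (-K) ≤ l * (|(d : ℝ)| / Y) := h2.trans h1
  have hl0 : (0 : ℝ) < l := by linarith
  have h4 : (l : ℝ) ≤ (l : ℝ) ^ (-K) * (l : ℝ) ^ (⌈K⌉₊ + 1) := by
    rw [← Real.rpow_natCast (l : ℝ) (⌈K⌉₊ + 1), ← Real.rpow_add hl0]
    have h5 : (1 : ℝ) ≤ -K + ((⌈K⌉₊ + 1 : ℕ) : ℝ) := by
      push_cast
      have := Nat.le_ceil K
      linarith
    calc (l : ℝ) = (l : ℝ) ^ (1 : ℝ) := (Real.rpow_one _).symm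
      _ ≤ _ := Real.rpow_le_rpow_of_exponent_le hl1 h5
  have h6 : c * (l : ℝ) ^ (-K) * Y ≤ l * |(d : ℝ)| := by
    have h7 := mul_le_mul_of_nonneg_right h3 hY0.le
    rwa [mul_assoc (l : ℝ), div_mul_cancel₀ _ hY0.ne'] at h7
  have h8 : c * A * l ≤ l * |(d : ℝ)| := by
    calc c * A * l ≤ c * A * ((l : ℝ) ^ (-K) * (l : ℝ) ^ (⌈K⌉₊ + 1)) := by gcongr
      _ = c * (l : ℝ) ^ (-K) * Y := by rw [hYdef]; ring
      _ ≤ _ := h6
  have h9 : c * A ≤ |(d : ℝ)| := by
    have h10 : (c * A) * l ≤ |(d : ℝ)| * l := by linarith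
    exact le_of_mul_le_mul_right h10 hl0
  have h11 : c * A = |(d : ℝ)| + 2 * |(d : ℝ)| * c + c := by
    rw [hA]; field_simp
  have : 0 ≤ 2 * |(d : ℝ)| * c := by positivity
  linarith

end Pool.Agent.Lib.MP_d0d59f_nt.Sb

end

section

namespace Pool.Agent.Lib.MP_d0d59f_nt.Sb

open Filter Topology Lin

/-- a polynomial bound against a power of two -/
theorem Final_growth (A : ℝ) (B K : ℕ) : ∃ M : ℕ, ∀ n ≥ M,
    A * (((K : ℝ) + 1) * ((n : ℝ) + 1)) ^ B ≤ 2 ^ n := by
  have h1 : Tendsto (fun n : ℕ => (n : ℝ) ^ B / (2 : ℝ) ^ n) atTop (𝓝 0) :=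
    tendsto_pow_const_div_const_pow_of_one_lt B (by norm_num)
  have h2 : Tendsto (fun n : ℕ => (((n + 1 : ℕ) : ℝ)) ^ B / (2 : ℝ) ^ (n + 1)) atTop (𝓝 0) :=
    h1.comp (tendsto_add_atTop_nat 1)
  have h3 : Tendsto (fun n : ℕ => (A * ((K : ℝ) + 1) ^ B * 2) *
      ((((n + 1 : ℕ) : ℝ)) ^ B / (2 : ℝ) ^ (n + 1))) atTop (𝓝 0) := by
    have := h2.const_mul (A * ((K : ℝ) + 1) ^ B * 2)
    rwa [mul_zero] at this
  have h4 : ∀ᶠ n : ℕ in atTop, (A * ((K : ℝ) + 1) ^ B * 2) *
      ((((n + 1 : ℕ) : ℝ)) ^ B / (2 : ℝ) ^ (n + 1)) ≤ 1 :=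
    (h3.eventually (gt_mem_nhds zero_lt_one)).mono fun n hn => hn.le
  obtain ⟨M, hM⟩ := eventually_atTop.mp h4
  refine ⟨M, fun n hn => ?_⟩
  have h5 := hM n hn
  have h6 : (A * ((K : ℝ) + 1) ^ B * 2) * ((((n + 1 : ℕ) : ℝ)) ^ B / (2 : ℝ) ^ (n + 1))
      = A * (((K : ℝ) + 1) * ((n : ℝ) + 1)) ^ B / 2 ^ n := by
    rw [mul_pow, pow_succ (2 : ℝ) n]
    push_cast
    field_simp
  rw [h6, div_le_one (by positivity)] at h5
  exact h5

/-- A periodic point whose orbit has low complexity has a small minimal period. -/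
theorem Final_period {d : ℤ} (hd : Odd d) (C n₀ : ℕ) : ∃ N : ℕ, ∀ x : ℤ,
    (∀ n ≥ n₀, complexity d x n ≤ C * n) →
    ∃ k l : ℕ, 1 ≤ l ∧ l ≤ N ∧ (T d)^[l] ((T d)^[k] x) = (T d)^[k] x := by
  obtain ⟨K, hK⟩ := exists_coincidence hd C
  obtain ⟨A, B, hA, hAB⟩ := cycle_min hd
  obtain ⟨M, hM⟩ := Final_growth A B K
  set N₁ : ℕ := max M (max K n₀) with hN₁
  refine ⟨(K + 1) * (N₁ + 1), fun x hx => ?_⟩
  have hfreq : ∃ᶠ n in atTop, complexity d x n ≤ C * n :=
    (eventually_atTop.mpr ⟨n₀, hx⟩).frequently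
  obtain ⟨m, p, hp, hmp⟩ := eventually_periodic_of_linear hd x C hfreq
  set y := (T d)^[m] x with hy
  have hyp : Function.IsPeriodicPt (T d) p y := by
    show (T d)^[p] y = y
    rw [hy, ← Function.iterate_add_apply, add_comm p m]
    exact hmp
  have hymem : y ∈ Function.periodicPts (T d) := Function.mk_mem_periodicPts hp hyp
  have hl0 : 0 < Function.minimalPeriod (T d) y :=
    Function.minimalPeriod_pos_of_mem_periodicPts hymem
  have hly : (T d)^[Function.minimalPeriod (T d) y] y = y :=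
    Function.isPeriodicPt_minimalPeriod (T d) y
  set l := Function.minimalPeriod (T d) y with hl
  refine ⟨m, l, hl0, ?_, hly⟩
  by_contra hlN
  push Not at hlN
  obtain ⟨i, hi⟩ := hAB y l hl0 hly
  set n : ℕ := l / (K + 1) with hn
  have hnN : N₁ + 1 ≤ n := by
    rw [hn, Nat.le_div_iff_mul_le (Nat.succ_pos K), mul_comm]
    exact hlN.le
  have hn1 : M ≤ n := by
    have : M ≤ N₁ := le_max_left _ _
    omega
  have hn2 : K ≤ n := by
    have : K ≤ N₁ := (le_max_left K n₀).trans (le_max_right _ _)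
    omega
  have hn3 : n₀ ≤ n := by
    have : n₀ ≤ N₁ := (le_max_right K n₀).trans (le_max_right _ _)
    omega
  have hn4 : (K + 1) * n ≤ l := by
    rw [hn, mul_comm]; exact Nat.div_mul_le_self l (K + 1)
  have hn5 : l < (K + 1) * (n + 1) := by
    rw [hn]; exact Nat.lt_mul_div_succ l (Nat.succ_pos K)
  have hn6 : K * n < l := by
    have : (K + 1) * n = K * n + n := by ring
    omega
  -- the small element of the cycle
  set z := (T d)^[i] y with hz
  have hzn : |z| ≤ 2 ^ n := by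
    have h1 := hM n hn1
    have h2 : (l : ℝ) ≤ ((K : ℝ) + 1) * ((n : ℝ) + 1) := by exact_mod_cast hn5.le
    have h3 : |((z : ℤ) : ℝ)| ≤ 2 ^ n := by
      calc |((z : ℤ) : ℝ)| ≤ A * (l : ℝ) ^ B := hi
        _ ≤ A * (((K : ℝ) + 1) * ((n : ℝ) + 1)) ^ B := by gcongr
        _ ≤ 2 ^ n := h1
    exact_mod_cast h3
  have hzc : complexity d z n ≤ C * n := by
    have h1 : complexity d z n ≤ complexity d y n := complexity_shift d y i n
    have h2 : complexity d y n ≤ complexity d x n := complexity_shift d x m n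
    exact (h1.trans h2).trans (hx n hn3)
  obtain ⟨m', p', hp', hpK, hcoin⟩ := hK n hn2 z hzn hzc
  have hper : Function.IsPeriodicPt (T d) p' ((T d)^[m' + i] y) := by
    show (T d)^[p'] ((T d)^[m' + i] y) = (T d)^[m' + i] y
    have e1 : (T d)^[m' + i] y = (T d)^[m'] z := Function.iterate_add_apply (T d) m' i y
    rw [e1, ← Function.iterate_add_apply, add_comm p' m']
    exact hcoin
  have hmin : Function.minimalPeriod (T d) ((T d)^[m' + i] y) = l := by
    rw [hl]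
    exact Function.minimalPeriod_apply_iterate hymem _
  have hle : l ≤ p' := by
    rw [← hmin]
    exact hper.minimalPeriod_le hp'
  omega

/-- The main theorem on cycles. Proof: let `K` be from `exists_coincidence`, `A, B` from `cycle_min`. Let `x`
satisfy the hypothesis for `n ≥ n₀`. By `eventually_periodic_of_linear` its orbit contains a periodic
point `y`; let `ℓ` be the minimal period of `y` (`Function.minimalPeriod`), and `z = (T d)^[i] y` with
`|z| ≤ A ℓ ^ B`. Let `n` be the least natural number with `n ≥ max K n₀` and `A ℓ ^ B ≤ 2 ^ n`: then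
`complexity d z n ≤ complexity d x n ≤ C n` (`complexity_shift`; `z` is in the orbit of `x`), so
`exists_coincidence` gives `ℓ ≤ p ≤ K n` (a multiple of the minimal period). As
`n ≤ max K n₀ + log₂ (A ℓ ^ B) + 1` this bounds `ℓ` by a number `N` (independent of `x`). The set of all
points of period `ℓ`, `1 ≤ ℓ ≤ N`, is finite (`finite_periodic`). -/
theorem finite_hitting_linear {d : ℤ} (hd : Odd d) (C n₀ : ℕ) : ∃ F : Finset ℤ, ∀ x : ℤ,
    (∀ n ≥ n₀, complexity d x n ≤ C * n) → ∃ k : ℕ, (T d)^[k] x ∈ F := by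
  obtain ⟨N, hN⟩ := Final_period hd C n₀
  have hfin : (⋃ l ∈ Set.Icc 1 N, {y : ℤ | (T d)^[l] y = y}).Finite := by
    apply Set.Finite.biUnion (Set.finite_Icc 1 N)
    intro l hl
    exact finite_periodic hd l hl.1
  refine ⟨hfin.toFinset, fun x hx => ?_⟩
  obtain ⟨k, l, hl1, hlN, hk⟩ := hN x hx
  refine ⟨k, ?_⟩
  rw [Set.Finite.mem_toFinset]
  exact Set.mem_biUnion (Set.mem_Icc.mpr ⟨hl1, hlN⟩) hk

end Pool.Agent.Lib.MP_d0d59f_nt.Sb

end
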