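import Pool.Agent.Lib.MP_d0d59f_nt.Sub.LowerBounds

/-!
Almost orthogonal generators and the transfer theorem.
-/

section

namespace Pool.Agent.Lib.MP_d0d59f_nt.Sb

open Module

variable {κ 𝕂 : Type} [Field κ] [Field 𝕂] [Algebra κ 𝕂] {O : Subring 𝕂}
  {w : Fin 3 → AbsoluteValue 𝕂 ℝ} {X : ℝ × ℝ → 𝕂}

/-- sums over `Fin.snoc` -/
theorem OrthBasis_sum_snoc {J : ℕ} (φ : Fin (J + 1) → 𝕂) (y : Fin J → 𝕂) (z : 𝕂) :
    ∑ j, φ j * (Fin.snoc y z : Fin (J + 1) → 𝕂) j =
      ∑ j : Fin J, φ j.castSucc * y j + φ (Fin.last J) * z := by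
  rw [Fin.sum_univ_castSucc]
  simp only [Fin.snoc_castSucc, Fin.snoc_last]

/-- a function on `Fin (K + 1)` given by its last value and the others -/
theorem OrthBasis_lastCases {K : ℕ} {β : Type} (b : β) (f : Fin K → β) :
    ∃ p : Fin (K + 1) → β, p (Fin.last K) = b ∧ ∀ i : Fin K, p i.castSucc = f i :=
  ⟨(Fin.snoc f b : Fin (K + 1) → β), by simp, fun i => by simp⟩

/-- Induction on `K`, for all `θ`. `K = 0`: `J = 0`, `q = 1`. Step: apply the induction hypothesis with
`η = √θ` to the first `K` elements: `J, y, q, p`. Let `g` be the last element. If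
`(y, g)` (`Fin.snoc y g`) is not `PolyIndep`: there is a relation `∑ φ j y j + φ g = 0` with `φ ≠ 0`
(as `y` is `PolyIndep`), multiply: `q' = q φ`, `q' g = - ∑ q φ j y j`, `q' g_a = ∑ (φ p a j) y j`.
Else `exists_lower` gives `c > 0` with `c * w v ψ ≤ w v (∑ φ j y j + ψ g)`. Let `ρ` be the infimum of the
numbers `w v (ψ g + ∑ φ j y j) / w v ψ`, `ψ ≠ 0`, `ρ ≥ c > 0`, and choose `ψ, φ` with
`η * w v (ψ g + ∑ φ j y j) / w v ψ ≤ ρ`; `y' = ψ g + ∑ φ j y j`. The family `(y, y')` is `PolyIndep` (if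
`∑ χ j y j + χ y' = 0` then the coefficient `χ ψ` of `g` vanishes). For all `χ j, χ`:
`w v (∑ χ j y j + χ y') ≥ ρ w v (χ ψ) ≥ η w v (χ y')`, because `∑ χ j y j + χ y' = (χ ψ) g + ∑ (..) y j`;
and `w v (∑ χ j y j) ≤ max (w v (∑ χ j y j + χ y')) (w v (χ y')) ≤ η⁻¹ w v (∑ χ j y j + χ y')`, so
`θ w v (χ j y j) = η η w v (χ j y j) ≤ η w v (∑ χ j y j) ≤ w v (∑ χ j y j + χ y')`. With `q' = q ψ`:
`q' g = q y' - ∑ q φ j y j`, `q' g_a = ∑ (ψ p a j) y j`. -/
theorem exists_orth_basis (h : Setting κ O w) (hX : Mono2 κ O w X) (hN : NssProp κ O w)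
    (v : Fin 3) (K : ℕ) (g : Fin K → 𝕂) {θ : ℝ} (h0 : 0 < θ) (h1 : θ < 1) :
    ∃ (J : ℕ) (y : Fin J → 𝕂) (q : 𝕂) (p : Fin K → Fin J → 𝕂), PolyIndep κ X y ∧
      q ∈ polys2 κ X ∧ q ≠ 0 ∧ (∀ a j, p a j ∈ polys2 κ X) ∧ (∀ a, q * g a = ∑ j, p a j * y j) ∧
      ∀ φ : Fin J → 𝕂, (∀ j, φ j ∈ polys2 κ X) → ∀ j,
        θ * w v (φ j * y j) ≤ w v (∑ j, φ j * y j) := by
  classical
  induction K generalizing θ with
  | zero =>
    refine ⟨0, fun j => j.elim0, 1, fun a => a.elim0, ?_, hX.one_mem, one_ne_zero,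
      fun a => a.elim0, fun a => a.elim0, fun φ _ j => j.elim0⟩
    intro φ _ _
    funext j
    exact j.elim0
  | succ K ih =>
    obtain ⟨η, hηdef⟩ : ∃ η : ℝ, η = Real.sqrt θ := ⟨_, rfl⟩
    have hη0 : 0 < η := by rw [hηdef]; exact Real.sqrt_pos.2 h0
    have hηη : η * η = θ := by rw [hηdef]; exact Real.mul_self_sqrt h0.le
    have hη1 : η < 1 := by nlinarith
    have hθη : θ ≤ η := by nlinarith
    obtain ⟨J, y, q, p, hy, hq, hq0, hp, hpg, horth⟩ :=
      ih (fun a => g a.castSucc) hη0 hη1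
    obtain ⟨gl, hgl⟩ : ∃ gl : 𝕂, gl = g (Fin.last K) := ⟨_, rfl⟩
    by_cases hind : PolyIndep κ X (Fin.snoc y gl : Fin (J + 1) → 𝕂)
    · -- independent case
      obtain ⟨c, hc, hlow⟩ := exists_lower h hX hN hind
      have hlow' : ∀ (ψ : 𝕂) (φ : Fin J → 𝕂), ψ ∈ polys2 κ X → (∀ j, φ j ∈ polys2 κ X) →
          c * w v ψ ≤ w v (∑ j, φ j * y j + ψ * gl) := by
        intro ψ φ hψ hφ
        have h2 := hlow v (Fin.snoc φ ψ : Fin (J + 1) → 𝕂) (by
          intro j
          refine Fin.lastCases ?_ (fun i => ?_) j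
          · rw [Fin.snoc_last]; exact hψ
          · rw [Fin.snoc_castSucc]; exact hφ i) (Fin.last J)
        rw [OrthBasis_sum_snoc, Fin.snoc_last] at h2
        simp only [Fin.snoc_castSucc] at h2
        exact h2
      obtain ⟨S, hSdef⟩ : ∃ S : Set ℝ, S = {s : ℝ | ∃ (ψ : 𝕂) (φ : Fin J → 𝕂),
          ψ ∈ polys2 κ X ∧ ψ ≠ 0 ∧ (∀ j, φ j ∈ polys2 κ X) ∧
            s = w v (∑ j, φ j * y j + ψ * gl) / w v ψ} := ⟨_, rfl⟩
      have hmemS : ∀ s, s ∈ S ↔ ∃ (ψ : 𝕂) (φ : Fin J → 𝕂),
          ψ ∈ polys2 κ X ∧ ψ ≠ 0 ∧ (∀ j, φ j ∈ polys2 κ X) ∧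
            s = w v (∑ j, φ j * y j + ψ * gl) / w v ψ := by
        intro s; rw [hSdef]; rfl
      have hbd : ∀ s ∈ S, c ≤ s := by
        intro s hs
        obtain ⟨ψ, φ, hψ, hψ0, hφ, rfl⟩ := (hmemS s).1 hs
        rw [le_div_iff₀ ((w v).pos hψ0)]
        exact hlow' ψ φ hψ hφ
      have hne : S.Nonempty := by
        refine ⟨_, (hmemS _).2 ⟨1, fun _ => 0, hX.one_mem, one_ne_zero,
          fun _ => Submodule.zero_mem _, rfl⟩⟩
      have hbdd : BddBelow S := ⟨c, fun s hs => hbd s hs⟩
      obtain ⟨ρ, hρdef⟩ : ∃ ρ : ℝ, ρ = sInf S := ⟨_, rfl⟩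
      have hρc : c ≤ ρ := by rw [hρdef]; exact le_csInf hne hbd
      have hρ0 : 0 < ρ := lt_of_lt_of_le hc hρc
      have hρS : ∀ s ∈ S, ρ ≤ s := fun s hs => by rw [hρdef]; exact csInf_le hbdd hs
      have hlt : sInf S < ρ / η := by
        rw [← hρdef, lt_div_iff₀ hη0]
        nlinarith
      obtain ⟨s, hsS, hs⟩ := exists_lt_of_csInf_lt hne hlt
      obtain ⟨ψ, φ, hψ, hψ0, hφ, hsdef⟩ := (hmemS s).1 hsS
      have hηs : η * s < ρ := by
        rw [lt_div_iff₀ hη0] at hs
        linarith [mul_comm s η]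
      obtain ⟨y', hy'⟩ : ∃ y' : 𝕂, y' = ∑ j, φ j * y j + ψ * gl := ⟨_, rfl⟩
      have hwψ : 0 < w v ψ := (w v).pos hψ0
      have hηy' : η * w v y' ≤ ρ * w v ψ := by
        rw [← hy'] at hsdef
        have h3 : s * w v ψ = w v y' := by rw [hsdef]; field_simp
        have h4 := mul_le_mul_of_nonneg_right hηs.le hwψ.le
        calc η * w v y' = η * s * w v ψ := by rw [← h3]; ring
          _ ≤ ρ * w v ψ := h4
      -- rewriting of sums
      have hrew : ∀ (χ : Fin J → 𝕂) (χ' : 𝕂), ∑ j, χ j * y j + χ' * y' =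
          ∑ j, (χ j + χ' * φ j) * y j + (χ' * ψ) * gl := by
        intro χ χ'
        rw [hy']
        simp only [add_mul, Finset.sum_add_distrib, mul_add, Finset.mul_sum, mul_assoc]
        ring
      obtain ⟨p', hpl, hpc⟩ : ∃ p' : Fin (K + 1) → Fin (J + 1) → 𝕂,
          p' (Fin.last K) = (Fin.snoc (fun j => -(q * φ j)) q : Fin (J + 1) → 𝕂) ∧
          ∀ i : Fin K, p' i.castSucc = (Fin.snoc (fun j => ψ * p i j) 0 : Fin (J + 1) → 𝕂) :=
        OrthBasis_lastCases _ _
      refine ⟨J + 1, (Fin.snoc y y' : Fin (J + 1) → 𝕂), q * ψ, p', ?_, ?_, ?_, ?_, ?_, ?_⟩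
      · -- `PolyIndep`
        intro χ hχ hsum
        rw [OrthBasis_sum_snoc, hrew] at hsum
        have h5 := hind (Fin.snoc (fun j => χ j.castSucc + χ (Fin.last J) * φ j)
            (χ (Fin.last J) * ψ) : Fin (J + 1) → 𝕂) (by
          intro j
          refine Fin.lastCases ?_ (fun i => ?_) j
          · rw [Fin.snoc_last]; exact hX.mul_mem (hχ _) hψ
          · rw [Fin.snoc_castSucc]
            exact Submodule.add_mem _ (hχ _) (hX.mul_mem (hχ _) (hφ i))) (by
          rw [OrthBasis_sum_snoc, Fin.snoc_last]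
          simp only [Fin.snoc_castSucc]
          exact hsum)
        have h6 : χ (Fin.last J) * ψ = 0 := by
          have := congrFun h5 (Fin.last J)
          rwa [Fin.snoc_last] at this
        have h7 : χ (Fin.last J) = 0 := by
          rcases mul_eq_zero.1 h6 with h | h
          · exact h
          · exact absurd h hψ0
        funext j
        refine Fin.lastCases ?_ (fun i => ?_) j
        · exact h7
        · have := congrFun h5 i.castSucc
          rw [Fin.snoc_castSucc, h7, zero_mul, add_zero] at this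
          exact this
      · exact hX.mul_mem hq hψ
      · exact mul_ne_zero hq0 hψ0
      · intro a j
        refine Fin.lastCases ?_ (fun i => ?_) a
        · rw [hpl]
          refine Fin.lastCases ?_ (fun i => ?_) j
          · rw [Fin.snoc_last]; exact hq
          · rw [Fin.snoc_castSucc]; exact Submodule.neg_mem _ (hX.mul_mem hq (hφ i))
        · rw [hpc]
          refine Fin.lastCases ?_ (fun i' => ?_) j
          · rw [Fin.snoc_last]; exact Submodule.zero_mem _
          · rw [Fin.snoc_castSucc]; exact hX.mul_mem hψ (hp i i')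
      · intro a
        refine Fin.lastCases ?_ (fun i => ?_) a
        · rw [hpl, OrthBasis_sum_snoc, Fin.snoc_last]
          simp only [Fin.snoc_castSucc]
          rw [← hgl, hy']
          simp only [neg_mul, Finset.sum_neg_distrib, mul_add, Finset.mul_sum, mul_assoc]
          ring
        · rw [hpc, OrthBasis_sum_snoc, Fin.snoc_last]
          simp only [Fin.snoc_castSucc]
          have h8 := hpg i
          calc q * ψ * g i.castSucc = ψ * (q * g i.castSucc) := by ring
            _ = ψ * ∑ j, p i j * y j := by rw [h8]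
            _ = ∑ j, ψ * p i j * y j + 0 * y' := by
              rw [Finset.mul_sum]; simp only [mul_assoc, zero_mul, add_zero]
      · intro χ hχ j
        rw [OrthBasis_sum_snoc]
        obtain ⟨Tt, hTt⟩ : ∃ Tt : 𝕂, Tt = ∑ j : Fin J, χ j.castSucc * y j +
          χ (Fin.last J) * y' := ⟨_, rfl⟩
        rw [← hTt]
        have hT0 : 0 ≤ w v Tt := (w v).nonneg _
        have hlast : η * w v (χ (Fin.last J) * y') ≤ w v Tt := by
          by_cases hχ0 : χ (Fin.last J) = 0
          · rw [hχ0, zero_mul, map_zero, mul_zero]; exact hT0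
          · have h9 := hρS _ ((hmemS _).2 ⟨χ (Fin.last J) * ψ,
              fun j => χ j.castSucc + χ (Fin.last J) * φ j, hX.mul_mem (hχ _) hψ,
              mul_ne_zero hχ0 hψ0,
              fun j => Submodule.add_mem _ (hχ _) (hX.mul_mem (hχ _) (hφ j)), rfl⟩)
            rw [← hrew, ← hTt, le_div_iff₀ ((w v).pos (mul_ne_zero hχ0 hψ0))] at h9
            refine le_trans ?_ h9
            rw [map_mul, map_mul]
            calc η * (w v (χ (Fin.last J)) * w v y')
                = w v (χ (Fin.last J)) * (η * w v y') := by ring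
              _ ≤ w v (χ (Fin.last J)) * (ρ * w v ψ) :=
                mul_le_mul_of_nonneg_left hηy' ((w v).nonneg _)
              _ = ρ * (w v (χ (Fin.last J)) * w v ψ) := by ring
        have hsumle : η * w v (∑ j : Fin J, χ j.castSucc * y j) ≤ w v Tt := by
          have h10 : ∑ j : Fin J, χ j.castSucc * y j = Tt + -(χ (Fin.last J) * y') := by
            rw [hTt]; ring
          rw [h10]
          have h11 := h.nonarch v Tt (-(χ (Fin.last J) * y'))
          rw [(w v).map_neg] at h11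
          have h12 := mul_le_mul_of_nonneg_left h11 hη0.le
          refine h12.trans ?_
          rcases max_choice (w v Tt) (w v (χ (Fin.last J) * y')) with h13 | h13
          · rw [h13]; nlinarith
          · rw [h13]; exact hlast
        refine Fin.lastCases ?_ (fun i => ?_) j
        · rw [Fin.snoc_last]
          refine le_trans ?_ hlast
          exact mul_le_mul_of_nonneg_right hθη ((w v).nonneg _)
        · rw [Fin.snoc_castSucc]
          have h14 := horth (fun j => χ j.castSucc) (fun j => hχ _) i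
          calc θ * w v (χ i.castSucc * y i) = η * (η * w v (χ i.castSucc * y i)) := by
                rw [← hηη]; ring
            _ ≤ η * w v (∑ j : Fin J, χ j.castSucc * y j) :=
                mul_le_mul_of_nonneg_left h14 hη0.le
            _ ≤ w v Tt := hsumle
    · -- dependent case
      unfold PolyIndep at hind
      push Not at hind
      obtain ⟨χ, hχ, hsum, hχ0⟩ := hind
      rw [OrthBasis_sum_snoc] at hsum
      have hlast : χ (Fin.last J) ≠ 0 := by
        intro h2
        rw [h2, zero_mul, add_zero] at hsum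
        have h3 := hy (fun j => χ j.castSucc) (fun j => hχ _) hsum
        apply hχ0
        funext j
        refine Fin.lastCases ?_ (fun i => ?_) j
        · exact h2
        · exact congrFun h3 i
      obtain ⟨p', hpl, hpc⟩ : ∃ p' : Fin (K + 1) → Fin J → 𝕂,
          p' (Fin.last K) = (fun j => -(q * χ j.castSucc)) ∧
          ∀ i : Fin K, p' i.castSucc = fun j => χ (Fin.last J) * p i j :=
        OrthBasis_lastCases _ _
      refine ⟨J, y, q * χ (Fin.last J), p',
        hy, hX.mul_mem hq (hχ _), mul_ne_zero hq0 hlast, ?_, ?_, ?_⟩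
      · intro a j
        refine Fin.lastCases ?_ (fun i => ?_) a
        · rw [hpl]
          exact Submodule.neg_mem _ (hX.mul_mem hq (hχ _))
        · rw [hpc]
          exact hX.mul_mem (hχ _) (hp i j)
      · intro a
        refine Fin.lastCases ?_ (fun i => ?_) a
        · rw [hpl, ← hgl]
          have h4 : χ (Fin.last J) * gl = -∑ j : Fin J, χ j.castSucc * y j := by
            linear_combination hsum
          calc q * χ (Fin.last J) * gl = q * (χ (Fin.last J) * gl) := by ring
            _ = q * -∑ j : Fin J, χ j.castSucc * y j := by rw [h4]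
            _ = ∑ j : Fin J, -(q * χ j.castSucc) * y j := by
              rw [mul_neg, Finset.mul_sum, ← Finset.sum_neg_distrib]
              refine Finset.sum_congr rfl fun j _ => ?_
              ring
        · rw [hpc]
          have h8 := hpg i
          calc q * χ (Fin.last J) * g i.castSucc = χ (Fin.last J) * (q * g i.castSucc) := by ring
            _ = χ (Fin.last J) * ∑ j, p i j * y j := by rw [h8]
            _ = ∑ j, χ (Fin.last J) * p i j * y j := by
              rw [Finset.mul_sum]; simp only [mul_assoc]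
      · intro φ hφ j
        refine le_trans ?_ (horth φ hφ j)
        exact mul_le_mul_of_nonneg_right hθη ((w v).nonneg _)

end Pool.Agent.Lib.MP_d0d59f_nt.Sb

end

section

namespace Pool.Agent.Lib.MP_d0d59f_nt.Sb

open Module Filter

variable {κ 𝕂 : Type} [Field κ] [Field 𝕂] [Algebra κ 𝕂] {O : Subring 𝕂}
  {w : Fin 3 → AbsoluteValue 𝕂 ℝ} {X : ℝ × ℝ → 𝕂}

/-- a polynomial as a linear combination -/
theorem star_exists_finsupp {p : 𝕂} (hp : p ∈ polys2 κ X) :
    ∃ b : (ℝ × ℝ) →₀ κ, Finsupp.linearCombination κ X b = p := by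
  obtain ⟨b, hb⟩ := exists_coeffs hp
  refine ⟨b, ?_⟩
  rw [Finsupp.linearCombination_apply, Finsupp.sum, hb]

theorem star_le_val (h : Setting κ O w) (hX : Mono2 κ O w X) (hN : NssProp κ O w) (v : Fin 3)
    (b : (ℝ × ℝ) →₀ κ) {γ₀ : ℝ × ℝ} (hγ : b γ₀ ≠ 0) :
    w v (X γ₀) ≤ w v (Finsupp.linearCombination κ X b) := by
  rw [Finsupp.linearCombination_apply, Finsupp.sum]
  exact Mono2.le_val h hX hN v b.support (fun γ => b γ) (Finsupp.mem_support_iff.2 hγ) hγ

theorem star_val_le (h : Setting κ O w) (v : Fin 3)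
    (b : (ℝ × ℝ) →₀ κ) {B : ℝ} (hB : 0 ≤ B) (hb : ∀ γ, b γ ≠ 0 → w v (X γ) ≤ B) :
    w v (Finsupp.linearCombination κ X b) ≤ B := by
  rw [Finsupp.linearCombination_apply, Finsupp.sum]
  refine val_sum_le (h.nonarch v) _ _ hB ?_
  intro γ hγ
  have h1 : b γ ≠ 0 := Finsupp.mem_support_iff.1 hγ
  rw [Algebra.smul_def, map_mul, h.const v _ h1, one_mul]
  exact hb γ h1

/-- The transfer theorem: a series `∑ t, G t * X (γ t)`, `G t` in the `κ`-span of finitely many elements
`g a`, whose partial sums come arbitrarily close to `x` at the place `1`, and whose terms have value at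
most `Θ` at the place `0`; then `w 0 x ≤ Θ`.

Proof. It is enough to show `θ * w 0 x ≤ Θ` for all `0 < θ < 1`. Apply `exists_orth_basis` for `v = 0` to
the family `(g, x)` (`Fin.snoc g x`): `y, q, p`. For `t` let `P t j = ∑ a, c t a • p a j ∈ polys2`, so
`q * G t = ∑ j, P t j * y j`, and let `p' j = p (last) j`, `q * x = ∑ j, p' j * y j`. Put
`ψ r j = p' j - ∑ t < r, P t j * X (γ t) ∈ polys2`; `∑ j, ψ r j * y j = q * (x - ∑ t < r, G t * X (γ t))`.
`exists_lower`: `c' * w 1 (ψ r j) ≤ w 1 q * w 1 (x - ∑ t < r, ..)`, so for every `ε > 0` there is `r` with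
`w 1 (ψ r j) < ε`. Fix `j`. Claim: `w 0 (p' j) ≤ B j`, where `B j` is any number `≥ 0` with
`w 0 (P t j * X (γ t)) ≤ B j` for all `t`. Write `p' j = ∑ γ, b γ • X γ` (`exists_coeffs`); it suffices
that `w 0 (X γ) ≤ B j` for all `γ` with `b γ ≠ 0` (`val_sum_le`, `Setting.const`). Choose `r` with
`w 1 (ψ r j) < w 1 (X γ)`. By `Mono2.le_val` for `v = 1` the coefficient of `X γ` in `ψ r j` is zero
(`polys2` elements have unique coefficients: `Mono2.linearIndependent`; use `Finsupp.linearCombination`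
and `LinearIndependent.repr` or work with the coefficients from `exists_coeffs`), so the coefficient of
`X γ` in `P t j * X (γ t)` is not zero for some `t < r`, and `w 0 (X γ) ≤ w 0 (P t j * X (γ t)) ≤ B j` by
`Mono2.le_val` for `v = 0`. Since
`θ * w 0 (P t j * X (γ t) * y j) ≤ w 0 (q * G t * X (γ t)) ≤ w 0 q * Θ` one can take
`B j = w 0 q * Θ / (θ * w 0 (y j))` (`y j ≠ 0` by `PolyIndep`). So
`θ * w 0 (p' j * y j) ≤ w 0 q * Θ` for all `j`, and `θ * w 0 (q x) ≤ w 0 q * Θ` (`val_sum_le`). -/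
theorem transfer (h : Setting κ O w) (hX : Mono2 κ O w X) (hN : NssProp κ O w) {K : ℕ}
    (g : Fin K → 𝕂) (x : 𝕂) (c : ℕ → Fin K → κ) (γ : ℕ → ℝ × ℝ)
    (h1 : ∀ ε : ℝ, 0 < ε → ∃ r : ℕ,
      w 1 (x - ∑ t ∈ Finset.range r, (∑ a, c t a • g a) * X (γ t)) < ε) {Θ : ℝ} (hΘ0 : 0 ≤ Θ)
    (hΘ : ∀ t, w 0 ((∑ a, c t a • g a) * X (γ t)) ≤ Θ) : w 0 x ≤ Θ := by
  -- it is enough to treat `θ < 1`
  have key : ∀ θ : ℝ, 0 < θ → θ < 1 → θ * w 0 x ≤ Θ := by
    intro θ hθ0 hθ1
    obtain ⟨J, y, q, p, hind, hq, hq0, hp, hpg, hort⟩ :=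
      exists_orth_basis h hX hN 0 (K + 1) (Fin.snoc g x) hθ0 hθ1
    have hqx : q * x = ∑ j, p (Fin.last K) j * y j := by
      have := hpg (Fin.last K)
      rwa [Fin.snoc_last] at this
    have hqg : ∀ a : Fin K, q * g a = ∑ j, p (Fin.castSucc a) j * y j := by
      intro a
      have := hpg (Fin.castSucc a)
      rwa [Fin.snoc_castSucc] at this
    -- the terms
    let R : ℕ → Fin J → 𝕂 := fun t j => (∑ a, c t a • p (Fin.castSucc a) j) * X (γ t)
    have hR : ∀ t j, R t j ∈ polys2 κ X := by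
      intro t j
      refine Mono2.mul_mem hX ?_ (Mono2.X_mem _)
      exact Submodule.sum_mem _ (fun a _ => Submodule.smul_mem _ _ (hp _ _))
    have hRy : ∀ t, ∑ j, R t j * y j = q * ((∑ a, c t a • g a) * X (γ t)) := by
      intro t
      have e1 : q * (∑ a, c t a • g a) = ∑ j, (∑ a, c t a • p (Fin.castSucc a) j) * y j := by
        calc q * (∑ a, c t a • g a) = ∑ a, c t a • (q * g a) := by
              rw [Finset.mul_sum]
              exact Finset.sum_congr rfl (fun a _ => by rw [mul_smul_comm])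
          _ = ∑ a, ∑ j, c t a • (p (Fin.castSucc a) j * y j) := by
              refine Finset.sum_congr rfl (fun a _ => ?_)
              rw [hqg a, Finset.smul_sum]
          _ = ∑ j, ∑ a, c t a • (p (Fin.castSucc a) j * y j) := Finset.sum_comm
          _ = ∑ j, (∑ a, c t a • p (Fin.castSucc a) j) * y j := by
              refine Finset.sum_congr rfl (fun j _ => ?_)
              rw [Finset.sum_mul]
              exact Finset.sum_congr rfl (fun a _ => by rw [smul_mul_assoc])
      rw [← mul_assoc, e1, Finset.sum_mul]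
      refine Finset.sum_congr rfl (fun j _ => ?_)
      simp only [R]
      ring
    have hyne : ∀ j, y j ≠ 0 := by
      intro j hj
      have h2 := hind (Pi.single j 1) (by
        intro i
        by_cases hi : i = j
        · subst hi
          rw [Pi.single_eq_same]
          exact Mono2.one_mem hX
        · rw [Pi.single_eq_of_ne hi]
          exact Submodule.zero_mem _) (by
        rw [Finset.sum_eq_single j]
        · rw [hj, mul_zero]
        · intro i _ hi
          rw [Pi.single_eq_of_ne hi, zero_mul]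
        · intro hj'
          exact absurd (Finset.mem_univ j) hj')
      have h3 := congrFun h2 j
      rw [Pi.single_eq_same] at h3
      exact one_ne_zero h3
    have hwy : ∀ j, 0 < w 0 (y j) := fun j => (w 0).pos (hyne j)
    have hwq : 0 < w 0 q := (w 0).pos hq0
    have hwq1 : 0 < w 1 q := (w 1).pos hq0
    -- coefficients
    choose b hb using fun j => star_exists_finsupp (hp (Fin.last K) j)
    choose e he using fun t j => star_exists_finsupp (hR t j)
    obtain ⟨c', hc', hlow⟩ := exists_lower h hX hN hind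
    -- bound of the terms
    have hterm : ∀ t j, w 0 (R t j) ≤ w 0 q * Θ / (θ * w 0 (y j)) := by
      intro t j
      rw [le_div_iff₀ (mul_pos hθ0 (hwy j))]
      have h2 := hort (R t) (hR t) j
      rw [hRy t, map_mul, map_mul (w 0) q] at h2
      calc w 0 (R t j) * (θ * w 0 (y j)) = θ * (w 0 (R t j) * w 0 (y j)) := by ring
        _ ≤ w 0 q * w 0 ((∑ a, c t a • g a) * X (γ t)) := h2
        _ ≤ w 0 q * Θ := mul_le_mul_of_nonneg_left (hΘ t) hwq.le
    have hBnn : ∀ j, 0 ≤ w 0 q * Θ / (θ * w 0 (y j)) := fun j =>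
      div_nonneg (mul_nonneg hwq.le hΘ0) (mul_pos hθ0 (hwy j)).le
    have hpj : ∀ j, w 0 (p (Fin.last K) j) ≤ w 0 q * Θ / (θ * w 0 (y j)) := by
      intro j
      rw [← hb j]
      refine star_val_le h 0 (b j) (hBnn j) ?_
      intro γ₀ hγ₀
      have hXpos : 0 < w 1 (X γ₀) := (w 1).pos (hX.ne γ₀)
      obtain ⟨r, hr⟩ := h1 (c' * w 1 (X γ₀) / w 1 q) (div_pos (mul_pos hc' hXpos) hwq1)
      -- the difference
      have hψmem : ∀ i, p (Fin.last K) i - ∑ t ∈ Finset.range r, R t i ∈ polys2 κ X := fun i =>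
        Submodule.sub_mem _ (hp _ _) (Submodule.sum_mem _ (fun t _ => hR t i))
      have hψsum : ∑ i, (p (Fin.last K) i - ∑ t ∈ Finset.range r, R t i) * y i =
          q * (x - ∑ t ∈ Finset.range r, (∑ a, c t a • g a) * X (γ t)) := by
        calc ∑ i, (p (Fin.last K) i - ∑ t ∈ Finset.range r, R t i) * y i
            = ∑ i, (p (Fin.last K) i * y i - ∑ t ∈ Finset.range r, R t i * y i) := by
              refine Finset.sum_congr rfl (fun i _ => ?_)
              rw [sub_mul, Finset.sum_mul]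
          _ = ∑ i, p (Fin.last K) i * y i - ∑ i, ∑ t ∈ Finset.range r, R t i * y i := by
              rw [Finset.sum_sub_distrib]
          _ = q * x - ∑ t ∈ Finset.range r, ∑ i, R t i * y i := by
              rw [hqx, Finset.sum_comm]
          _ = q * x - ∑ t ∈ Finset.range r, q * ((∑ a, c t a • g a) * X (γ t)) := by
              rw [Finset.sum_congr rfl (fun t _ => hRy t)]
          _ = q * (x - ∑ t ∈ Finset.range r, (∑ a, c t a • g a) * X (γ t)) := by
              rw [mul_sub, Finset.mul_sum]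
      have h2 := hlow 1 _ hψmem j
      rw [hψsum, map_mul] at h2
      have h3 : w 1 q * w 1 (x - ∑ t ∈ Finset.range r, (∑ a, c t a • g a) * X (γ t)) <
          c' * w 1 (X γ₀) := by
        calc w 1 q * w 1 (x - ∑ t ∈ Finset.range r, (∑ a, c t a • g a) * X (γ t))
            < w 1 q * (c' * w 1 (X γ₀) / w 1 q) := mul_lt_mul_of_pos_left hr hwq1
          _ = c' * w 1 (X γ₀) := by field_simp
      have h4 : w 1 (p (Fin.last K) j - ∑ t ∈ Finset.range r, R t j) < w 1 (X γ₀) :=
        lt_of_mul_lt_mul_left (lt_of_le_of_lt h2 h3) hc'.le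
      have h5 : Finsupp.linearCombination κ X (b j - ∑ t ∈ Finset.range r, e t j) =
          p (Fin.last K) j - ∑ t ∈ Finset.range r, R t j := by
        rw [map_sub, map_sum, hb j]
        rw [Finset.sum_congr rfl (fun t _ => he t j)]
      have h6 : (b j - ∑ t ∈ Finset.range r, e t j) γ₀ = 0 := by
        by_contra hne
        have h7 := star_le_val h hX hN 1 _ hne
        rw [h5] at h7
        exact absurd h4 (not_lt.2 h7)
      have h8 : ∃ t ∈ Finset.range r, e t j γ₀ ≠ 0 := by
        by_contra hcon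
        have h9 : ∀ t ∈ Finset.range r, e t j γ₀ = 0 := by
          intro t ht
          by_contra hne
          exact hcon ⟨t, ht, hne⟩
        rw [Finsupp.sub_apply, Finsupp.finsetSum_apply, Finset.sum_eq_zero h9, sub_zero] at h6
        exact hγ₀ h6
      obtain ⟨t, -, ht⟩ := h8
      have h10 := star_le_val h hX hN 0 _ ht
      rw [he t j] at h10
      exact h10.trans (hterm t j)
    have hfin : w 0 (q * x) ≤ w 0 q * Θ / θ := by
      rw [hqx]
      refine val_sum_le (h.nonarch 0) _ _ (div_nonneg (mul_nonneg hwq.le hΘ0) hθ0.le) ?_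
      intro j _
      rw [map_mul]
      calc w 0 (p (Fin.last K) j) * w 0 (y j)
          ≤ (w 0 q * Θ / (θ * w 0 (y j))) * w 0 (y j) :=
            mul_le_mul_of_nonneg_right (hpj j) (hwy j).le
        _ = w 0 q * Θ / θ := by
            have := (hwy j).ne'
            field_simp
    rw [map_mul, le_div_iff₀ hθ0] at hfin
    have h11 : w 0 q * (θ * w 0 x) ≤ w 0 q * Θ := by
      calc w 0 q * (θ * w 0 x) = w 0 q * w 0 x * θ := by ring
        _ ≤ w 0 q * Θ := hfin
    exact le_of_mul_le_mul_left h11 hwq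
  by_contra hcon
  rw [not_le] at hcon
  have hpos : 0 < w 0 x := lt_of_le_of_lt hΘ0 hcon
  have h2 := key ((Θ + w 0 x) / (2 * w 0 x)) (by positivity) (by
    rw [div_lt_one (by positivity)]
    linarith)
  have h3 : (Θ + w 0 x) / (2 * w 0 x) * w 0 x = (Θ + w 0 x) / 2 := by
    field_simp
  rw [h3] at h2
  linarith

end Pool.Agent.Lib.MP_d0d59f_nt.Sb

end
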