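import Pool.Agent.Lib.MP_d0d59f_nt.Sub.OrbitSize
import Pool.Agent.Lib.MP_d0d59f_nt.Sub.Transfer
import Pool.Agent.Lib.MP_d0d59f_nt.Sub.Nss
import Pool.Agent.Lib.MP_d0d59f_nt.Sub.SplitGerms
import Pool.Agent.Lib.MP_d0d59f_nt.Sub.HyperGerms

/-!
There are no families of linear complexity without short periods.
-/

section

namespace Pool.Agent.Lib.MP_d0d59f_nt.Sb

open Filter Topology Auto Lin

attribute [local instance] sqAlg

theorem coreA_ht_one : ht (1 : ℚ) = 1 := by simp [ht]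

theorem coreA_ht_zero : ht (0 : ℚ) = 1 := by simp [ht]

theorem coreA_rep_congr {L : ℕ → ℕ} {hL : Tendsto L atTop atTop} {f f' : ℕ → ℚ}
    {z : bigField L hL} (h : Rep f z) (hf : ∀ m, f m = f' m) : Rep f' z := by
  have : f = f' := funext hf
  rwa [this] at h

theorem coreA_rep_sub {L : ℕ → ℕ} {hL : Tendsto L atTop atTop} {f f' : ℕ → ℚ}
    {y z : bigField L hL} (h : Rep f y) (h' : Rep f' z) :
    Rep (fun m => f m - f' m) (y - z) := by
  unfold Rep at *
  rw [Subfield.coe_sub, ← h, ← h', ← Germ.coe_sub]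
  rfl

theorem coreA_rep_inv {L : ℕ → ℕ} {hL : Tendsto L atTop atTop} {f : ℕ → ℚ}
    {z : bigField L hL} (h : Rep f z) : Rep (fun m => (f m)⁻¹) z⁻¹ := by
  unfold Rep at *
  rw [Subfield.coe_inv, ← h, ← Germ.coe_inv]
  rfl

theorem nss_germ {L : ℕ → ℕ} {hL : Tendsto L atTop atTop} :
    NssProp (smallField L hL) (O6 L hL) (wv L hL) :=
  nss setting_germ (fun ι _ _ => split_germ ι) (fun ι _ _ => hyper_germ ι)

variable {d : ℤ} {x : ℕ → ℤ} {L : ℕ → ℕ} {K : ℕ} {g : Fin K → ℕ → ℚ} {P : ℕ → ℕ → ℕ}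
  {c : ℕ → Fin K → ℕ → ℚ} {α β : ℕ → ℕ → ℚ} {δ : ℝ}

theorem coreA_ht_coef (h : Data2 d x L g P c α β δ) (t : ℕ) (a : Fin (K + 1)) (ε : ℝ)
    (hε : 0 < ε) :
    ∀ᶠ m in (hyperfilter ℕ : Filter ℕ), (ht (coef c α β t a m) : ℝ) ≤ (1 + ε) ^ L m := by
  have h1 : ∀ m, (1 : ℝ) ≤ (1 + ε) ^ L m := fun m => one_le_pow₀ (by linarith)
  unfold coef
  split_ifs with ht2
  · refine Fin.lastCases ?_ (fun b => ?_) a
    · simp only [Fin.snoc_last]
      exact h.ht_α _ ε hε
    · simp only [Fin.snoc_castSucc]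
      refine Eventually.of_forall fun m => ?_
      rcases h.c_val (t / 2) b m with h0 | h0
      · rw [h0, coreA_ht_zero]; simpa using h1 m
      · rw [h0, coreA_ht_one]; simpa using h1 m
  · refine Fin.lastCases ?_ (fun b => ?_) a
    · simp only [Fin.snoc_last]
      exact h.ht_β _ ε hε
    · simp only [Fin.snoc_castSucc]
      refine Eventually.of_forall fun m => ?_
      rw [coreA_ht_zero]; simpa using h1 m

theorem coreA_ht_gOne (h : Data2 d x L g P c α β δ) (a : Fin (K + 1)) :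
    ∃ C : ℝ, ∀ᶠ m in (hyperfilter ℕ : Filter ℕ), (ht (gOne g a m) : ℝ) ≤ C ^ L m := by
  unfold gOne
  refine Fin.lastCases ?_ (fun b => ?_) a
  · refine ⟨1, Eventually.of_forall fun m => ?_⟩
    simp only [Fin.snoc_last]
    rw [coreA_ht_one]; simp
  · simp only [Fin.snoc_castSucc]
    exact h.ht_g b

theorem coreA_ht_x (hd : Odd d) {R : ℕ} (hF : Family d x L R) (h : Data2 d x L g P c α β δ) :
    ∃ C : ℝ, ∀ᶠ m in (hyperfilter ℕ : Filter ℕ),
      (ht (((T d)^[P 0 m] (x m) : ℤ) : ℚ) : ℝ) ≤ C ^ L m := by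
  obtain ⟨C0, hC0⟩ := h.P_le 0
  obtain ⟨C, hC⟩ := exists_nat_ge C0
  refine ⟨3 ^ C * 2 ^ 4, ?_⟩
  filter_upwards [hC0, Nat.hyperfilter_le_atTop hF.size] with m hPm hsz
  have hiC : P 0 m ≤ C * L m := by
    have : (P 0 m : ℝ) ≤ C * L m :=
      hPm.trans (mul_le_mul_of_nonneg_right hC (Nat.cast_nonneg _))
    exact_mod_cast this
  have hsz' : |(x m : ℝ)| + |(d : ℝ)| ≤ 2 ^ (4 * L m) := by
    have : (((|x m| + |d| : ℤ)) : ℝ) ≤ ((2 ^ (4 * L m) : ℤ) : ℝ) := by exact_mod_cast hsz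
    push_cast at this
    exact this
  have h3 := abs_iterate_le hd (x m) (P 0 m)
  have h4 : (3 : ℝ) ^ ones d (x m) (P 0 m) ≤ 3 ^ (C * L m) :=
    pow_le_pow_right₀ (by norm_num) ((ones_le d (x m) (P 0 m)).trans hiC)
  have h5 : |(x m : ℝ)| / 2 ^ P 0 m ≤ |(x m : ℝ)| :=
    div_le_self (abs_nonneg _) (one_le_pow₀ (by norm_num))
  have h6 : |((T d)^[P 0 m] (x m) : ℝ)| ≤ 3 ^ (C * L m) * 2 ^ (4 * L m) := by
    refine h3.trans ?_
    have h0 : 0 ≤ |(x m : ℝ)| / 2 ^ P 0 m + |(d : ℝ)| := by positivity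
    exact mul_le_mul h4 (by linarith) h0 (by positivity)
  have h9 : (ht (((T d)^[P 0 m] (x m) : ℤ) : ℚ) : ℝ) ≤ max |((T d)^[P 0 m] (x m) : ℝ)| 1 := by
    unfold ht
    rw [Rat.num_intCast, Rat.den_intCast, Nat.cast_max, Nat.cast_natAbs, Int.cast_abs]
    simp
  rw [mul_pow, ← pow_mul, ← pow_mul]
  refine h9.trans (max_le h6 ?_)
  have h10 : (1 : ℝ) ≤ 3 ^ (C * L m) := one_le_pow₀ (by norm_num)
  have h11 : (1 : ℝ) ≤ 2 ^ (4 * L m) := one_le_pow₀ (by norm_num)
  nlinarith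

theorem coreA_absv (N k : ℕ) (z : ℤ) :
    absv 1 ((2 : ℚ) ^ N / 3 ^ k * (z : ℚ)) ≤ Real.exp (-(N * Real.log 2)) := by
  rw [map_mul, map_div₀]
  have e2 : absv 1 ((2 : ℚ) ^ N) = Real.exp (-(N * Real.log 2)) := by
    have := absv_one_two (N : ℤ)
    rw [zpow_natCast] at this
    rw [this, Real.exp_neg, ← Real.log_pow, Real.exp_log (by positivity), zpow_neg, zpow_natCast]
  have e3 : absv 1 ((3 : ℚ) ^ k) = 1 := by
    have := absv_one_three (k : ℤ)
    rwa [zpow_natCast] at this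
  rw [e2, e3, div_one]
  exact mul_le_of_le_one_right (Real.exp_pos _).le (absv_int_le 1 (by decide) z)

/-- Proof. `𝕂 = bigField L hL`, `κ = smallField L hL`, `X = germM`, `Setting`, `Mono2`, `NssProp` by
`setting_germ`, `mono2_germ`, `nss_germ`. `q` from `Data2.exists_lim`, `b` from `Data2.exists_ones`;
`γ t = (q ((t+1)/2) - q 0, b ((t+1)/2))`; by `germM_eq` the germ of `2 ^ expA / 3 ^ expB2` is
`e t • X (γ t)`, `e t : κ` (`mon a b` for natural `a, b`). `g' a` = germ of `gOne g a` in `bigField`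
(`ht_g`, heights; `1`), `x'` = germ of `(T d)^[P 0 m] (x m)` (height at most
`3 ^ P 0 m (|x m| + |d|) ≤ C ^ L m`, `Family.size`, `P_le`), `c' t a` = (germ of `coef c α β t a`, in
`smallField` by `ht_α`, `ht_β`, `c_val`) times `e t`. `x'` is not zero
(`hl` for `i = 0`). Apply `transfer` with `Θ = w 0 x' * exp (- log 2 / 8)`: `h1`: for `r = 2 i` the
difference is the germ of `2 ^ (P i - P 0) / 3 ^ .. * integer` (`err_eq2`), whose `2`-adic absolute value
is at most `(1/2) ^ (P i m - P 0 m)`, so its value is at most `exp (- (q i - q 0) log 2)`, small for `i`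
large (`Rep.wv_le`). `hΘ`: `term_le` with `ε = log 2 / 8` (`wv 0` of a product, or
`Rep.wv_le` applied to the quotient by `x'`). The conclusion `w 0 x' ≤ Θ < w 0 x'` is a
contradiction. -/
theorem Data2.false (hd : Odd d) {R : ℕ} (hF : Family d x L R) (h : Data2 d x L g P c α β δ)
    (hl : ∀ i, ∀ᶠ m in (hyperfilter ℕ : Filter ℕ), ∀ n : ℕ, P 0 m ≤ n → n ≤ P i m →
      (2 : ℝ) ^ ((L m : ℝ) / 4) ≤ |((T d)^[n] (x m) : ℝ)|) : False := by
  have hL := hF.tend
  obtain ⟨q, hq, hqt⟩ := h.exists_lim hL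
  obtain ⟨b, hb⟩ := h.exists_ones hL
  have hL1 := ah_L L hL 1
  have hA : ∀ t, Tendsto (fun m => (((expA P t m : ℕ) : ℤ) : ℝ) / L m) (hyperfilter ℕ)
      (𝓝 (q ((t + 1) / 2) - q 0)) := by
    intro t
    refine ((hq ((t + 1) / 2)).sub (hq 0)).congr' ?_
    filter_upwards [h.zero_le ((t + 1) / 2)] with m hm
    rw [expA, Int.cast_natCast, Nat.cast_sub hm, sub_div]
  have hB : ∀ t, Tendsto (fun m => (((expB2 d x P t m : ℕ) : ℤ) : ℝ) / L m) (hyperfilter ℕ)
      (𝓝 (b ((t + 1) / 2))) := by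
    intro t
    refine (hb ((t + 1) / 2)).congr fun m => ?_
    rw [expB2, Int.cast_natCast]
  choose e he0 he using fun t => germM_eq (hL := hL) (fun m => ((expA P t m : ℕ) : ℤ))
    (fun m => ((expB2 d x P t m : ℕ) : ℤ)) (hA t) (hB t)
  -- the elements
  have hgm : ∀ a : Fin (K + 1), ((gOne g a : ℕ → ℚ) : QU) ∈ bigField L hL := fun a =>
    ⟨_, rfl, coreA_ht_gOne h a⟩
  have hxm : (((fun m => (((T d)^[P 0 m] (x m) : ℤ) : ℚ)) : ℕ → ℚ) : QU) ∈ bigField L hL :=
    ⟨_, rfl, coreA_ht_x hd hF h⟩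
  have hcm : ∀ t (a : Fin (K + 1)), ((coef c α β t a : ℕ → ℚ) : QU) ∈ smallField L hL :=
    fun t a => ⟨_, rfl, fun ε hε => coreA_ht_coef h t a ε hε⟩
  set g' : Fin (K + 1) → bigField L hL := fun a => ⟨_, hgm a⟩ with hg'
  set x' : bigField L hL := ⟨_, hxm⟩ with hx'
  set ce : ℕ → Fin (K + 1) → smallField L hL := fun t a => ⟨_, hcm t a⟩ with hce
  have rg : ∀ a, Rep (gOne g a) (g' a) := fun a => rfl
  have rx : Rep (fun m => (((T d)^[P 0 m] (x m) : ℤ) : ℚ)) x' := rfl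
  have rc : ∀ t a, Rep (coef c α β t a)
      (algebraMap (smallField L hL) (bigField L hL) (ce t a)) := fun t a => rfl
  set γ : ℕ → ℝ × ℝ := fun t => (q ((t + 1) / 2) - q 0, b ((t + 1) / 2)) with hγ
  set c' : ℕ → Fin (K + 1) → smallField L hL := fun t a => ce t a * e t with hc'
  have rt : ∀ t, Rep (fun m => (∑ a, gOne g a m * coef c α β t a m) *
      (2 ^ expA P t m / 3 ^ expB2 d x P t m))
      ((∑ a, c' t a • g' a) * germM L hL (γ t)) := by
    intro t
    have e1 : (∑ a, c' t a • g' a) * germM L hL (γ t) =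
        (∑ a, g' a * algebraMap (smallField L hL) (bigField L hL) (ce t a)) *
          (e t • germM L hL (γ t)) := by
      have e2 : (∑ a, c' t a • g' a) =
          (∑ a, g' a * algebraMap (smallField L hL) (bigField L hL) (ce t a)) *
            algebraMap (smallField L hL) (bigField L hL) (e t) := by
        rw [Finset.sum_mul]
        refine Finset.sum_congr rfl fun a _ => ?_
        rw [hc', Algebra.smul_def, map_mul]
        ring
      rw [e2, Algebra.smul_def, mul_assoc]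
    rw [e1]
    refine Rep.mul (Rep.sum _ fun a _ => Rep.mul (rg a) (rc t a)) ?_
    refine coreA_rep_congr (f := fun m => mon ((expA P t m : ℕ) : ℤ) ((expB2 d x P t m : ℕ) : ℤ))
      (he t) fun m => ?_
    rw [mon, zpow_natCast, zpow_natCast]
  -- `x'` is not zero
  have hx0 : x' ≠ 0 := by
    intro h0
    have h2 := Rep.eventually_zero (L := L) (hL := hL) (h0 ▸ rx)
    obtain ⟨m, hm1, hm2⟩ := (h2.and (hl 0)).exists
    have h3 := hm2 (P 0 m) le_rfl le_rfl
    have h4 : (((T d)^[P 0 m] (x m) : ℤ) : ℝ) = 0 := by exact_mod_cast hm1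
    rw [h4, abs_zero] at h3
    have h5 : (0 : ℝ) < 2 ^ ((L m : ℝ) / 4) := by positivity
    linarith
  have hwx : 0 < wv L hL 0 x' := (wv L hL 0).pos hx0
  have hl2 : 0 < Real.log 2 := Real.log_pos (by norm_num)
  have key := transfer (setting_germ (L := L) (hL := hL)) mono2_germ nss_germ g' x' c' γ
    (Θ := wv L hL 0 x' * Real.exp (-(Real.log 2 / 8))) ?_ (by positivity) ?_
  · have h6 : Real.exp (-(Real.log 2 / 8)) < 1 := by
      rw [Real.exp_lt_one_iff]
      linarith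
    nlinarith
  · -- convergence at the place `1`
    intro ε hε
    have h1 : Tendsto (fun i => Real.exp (-((q i - q 0) * Real.log 2))) atTop (𝓝 0) := by
      refine Real.tendsto_exp_neg_atTop_nhds_zero.comp ?_
      exact (tendsto_atTop_add_const_right _ (-(q 0)) hqt).atTop_mul_const hl2
    obtain ⟨i, hi⟩ := (h1.eventually (gt_mem_nhds hε)).exists
    refine ⟨2 * i, lt_of_le_of_lt ?_ hi⟩
    have r1 := coreA_rep_sub rx (Rep.sum (Finset.range (2 * i)) fun t _ => rt t)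
    refine Rep.wv_le r1 1 (r := fun m => -(((P i m : ℝ) / L m - (P 0 m : ℝ) / L m) * Real.log 2))
      (((hq i).sub (hq 0)).mul_const _).neg ?_
    filter_upwards [err_eq2 h i, h.zero_le i, hL1] with m e1 e2 e3
    have hLm : (0 : ℝ) < L m := by exact_mod_cast e3
    have e4 : (((T d)^[P 0 m] (x m) : ℤ) : ℚ) -
        ∑ t ∈ Finset.range (2 * i), (∑ a, gOne g a m * coef c α β t a m) *
          (2 ^ expA P t m / 3 ^ expB2 d x P t m) =
        2 ^ (P i m - P 0 m) / 3 ^ ones d ((T d)^[P 0 m] (x m)) (P i m - P 0 m) *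
          ((T d)^[P i m] (x m) : ℤ) := e1
    rw [e4]
    refine (coreA_absv _ _ _).trans (le_of_eq ?_)
    congr 1
    rw [Nat.cast_sub e2]
    field_simp
  · -- the terms are small at infinity
    intro t
    have r1 := Rep.mul (rt t) (coreA_rep_inv rx)
    have h2 := Rep.wv_le r1 0 (r := fun _ => -(Real.log 2 / 8)) tendsto_const_nhds ?_
    · rw [map_mul, map_inv₀, ← div_eq_mul_inv, div_le_iff₀ hwx] at h2
      rw [mul_comm (wv L hL 0 x')]
      exact h2
    · have hy0 := Rep.eventually_ne rx hx0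
      filter_upwards [term_le hd hF h hl t (ε := Real.log 2 / 8) (by positivity), hy0] with m e1 e2
      have e2' : (((T d)^[P 0 m] (x m) : ℤ) : ℝ) ≠ 0 := by exact_mod_cast e2
      have e3 : (0 : ℝ) < |(((T d)^[P 0 m] (x m) : ℤ) : ℝ)| := abs_pos.mpr e2'
      rw [absv_zero_eq, Rat.cast_mul, abs_mul, Rat.cast_inv, Rat.cast_intCast, abs_inv,
        ← div_eq_mul_inv, div_le_iff₀ e3]
      refine e1.trans (le_of_eq ?_)
      rw [mul_comm]
      congr 2
      ring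

end Pool.Agent.Lib.MP_d0d59f_nt.Sb

end

section

namespace Pool.Agent.Lib.MP_d0d59f_nt.Sb

open Filter Topology Auto Lin

attribute [local instance] sqAlg

variable {d : ℤ} {x : ℕ → ℤ} {L : ℕ → ℕ} {K : ℕ} {g : Fin K → ℕ → ℚ} {P : ℕ → ℕ → ℕ}
  {c : ℕ → Fin K → ℕ → ℚ} {α β : ℕ → ℕ → ℚ} {δ : ℝ}

/-- `exists_data2`, `eventually_large`: `k₀`; by `Data2.exists_lim` there is `k` with `q k > k₀`, so
`k₀ L m ≤ P k m` for almost all `m`; `Data2.drop k`, `Data2.false`
(`P (i + k) m ≤ S L m` by `P_le`). -/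
theorem no_family (hd : Odd d) {R : ℕ} (hF : Family d x L R) : False := by
  obtain ⟨K, g, P, c, α, β, δ, h⟩ := exists_data2 hd hF
  obtain ⟨k₀, hk⟩ := eventually_large hd hF
  obtain ⟨q, hq1, hq2⟩ := h.exists_lim hF.tend
  obtain ⟨k, hk1⟩ := (hq2.eventually_gt_atTop (k₀ : ℝ)).exists
  have hLpos : ∀ᶠ m in (hyperfilter ℕ : Filter ℕ), 0 < L m :=
    (hF.tend.eventually_gt_atTop 0).filter_mono Nat.hyperfilter_le_atTop
  have h1 : ∀ᶠ m in (hyperfilter ℕ : Filter ℕ), k₀ * L m ≤ P k m := by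
    have h2 : ∀ᶠ m in (hyperfilter ℕ : Filter ℕ), (k₀ : ℝ) < (P k m : ℝ) / L m :=
      (hq1 k).eventually_const_lt hk1
    filter_upwards [h2, hLpos] with m hm hL
    have hL' : (0 : ℝ) < L m := by exact_mod_cast hL
    rw [lt_div_iff₀ hL'] at hm
    exact_mod_cast hm.le
  refine (h.drop k).false hd hF (fun i => ?_)
  obtain ⟨C, hC⟩ := h.P_le (i + k)
  filter_upwards [h1, hC, hk ⌈C⌉₊] with m hm1 hmC hmk n hn1 hn2
  refine hmk n (hm1.trans (by simpa using hn1)) (hn2.trans ?_)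
  have h3 : (P (i + k) m : ℝ) ≤ (⌈C⌉₊ : ℝ) * L m :=
    hmC.trans (mul_le_mul_of_nonneg_right (Nat.le_ceil C) (Nat.cast_nonneg _))
  exact_mod_cast h3

end Pool.Agent.Lib.MP_d0d59f_nt.Sb

end
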