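import Pool.Agent.Lib.MP_d0d59f_nt.Sub.Words

/-!
The structure of orbits of linear complexity without short periods.
-/

section

namespace Pool.Agent.Lib.MP_d0d59f_nt.Sb

open Filter Topology Lin

/-- no coincidences with a distance at most `Q` -/
def NoPer (d x : ℤ) (Q : ℕ) : Prop := ∀ m p : ℕ, 0 < p → p ≤ Q → (T d)^[m + p] x ≠ (T d)^[m] x

theorem NoPer.shift {d x : ℤ} {Q : ℕ} (h : NoPer d x Q) (i : ℕ) : NoPer d ((T d)^[i] x) Q := by
  intro m p hp hpQ he
  rw [← Function.iterate_add_apply, ← Function.iterate_add_apply] at he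
  refine h (m + i) p hp hpQ ?_
  rw [show m + i + p = m + p + i by omega]
  exact he

theorem NoPer.mono {d x : ℤ} {Q Q' : ℕ} (h : NoPer d x Q) (hQ : Q' ≤ Q) : NoPer d x Q' :=
  fun m p h0 hp => h m p h0 (hp.trans hQ)

/-- the elements are not zero: `T 0 = 0` -/
theorem NoPer.ne_zero {d x : ℤ} {Q : ℕ} (h : NoPer d x Q) (hQ : 1 ≤ Q) (i : ℕ) :
    (T d)^[i] x ≠ 0 := by
  intro h0
  refine h i 1 one_pos hQ ?_
  rw [Function.iterate_succ_apply', h0]
  simp [T]

/-- A periodic piece of length `N` and period `p ≤ Q` which begins at position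
`i`: `2 ^ N` divides `(T d)^[i] x - (T d)^[i + p] x ≠ 0` and the absolute value of this difference is at
most `2 * 3 ^ (i + p) * (|x| + |d|) ≤ 2 ^ (1 + 2 (i + p) + 4 n)`. -/
theorem run_bound' {d : ℤ} (hd : Odd d) {x : ℤ} {Q : ℕ} (hx : NoPer d x Q) {n : ℕ}
    (hn : (|x| + |d| : ℤ) ≤ 2 ^ (4 * n)) {i N p : ℕ} (hp : 0 < p) (hpQ : p ≤ Q)
    (h : ∀ t < N, (T d)^[i + t] x % 2 = (T d)^[i + t + p] x % 2) :
    N ≤ 2 * (i + p) + 4 * n + 1 := by
  have habs : ∀ m : ℕ, |((T d)^[m] x : ℝ)| ≤ 3 ^ m * (|(x : ℝ)| + |(d : ℝ)|) := by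
    intro m
    refine (abs_iterate_le hd x m).trans ?_
    have h1 : (3 : ℝ) ^ (ones d x m) ≤ 3 ^ m := pow_le_pow_right₀ (by norm_num) (ones_le d x m)
    have h2 : |(x : ℝ)| / 2 ^ m ≤ |(x : ℝ)| :=
      div_le_self (abs_nonneg _) (one_le_pow₀ (by norm_num))
    exact mul_le_mul h1 (by linarith) (by positivity) (by positivity)
  have h1 : (2 : ℤ) ^ N ∣ (T d)^[i] x - (T d)^[i + p] x := by
    apply dvd_of_parity hd
    intro k hk
    have h2 := h k hk
    rw [← Function.iterate_add_apply, ← Function.iterate_add_apply]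
    have e1 : k + i = i + k := by omega
    have e2 : k + (i + p) = i + k + p := by omega
    rw [e1, e2]
    exact h2
  have hne : (T d)^[i] x - (T d)^[i + p] x ≠ 0 := by
    intro h
    exact hx i p hp hpQ (by linarith)
  have h2 : (2 : ℤ) ^ N ≤ |(T d)^[i] x - (T d)^[i + p] x| :=
    Int.le_of_dvd (abs_pos.mpr hne) ((dvd_abs _ _).mpr h1)
  have h2' : (2 : ℝ) ^ N ≤ |((T d)^[i] x : ℝ) - ((T d)^[i + p] x : ℝ)| := by
    exact_mod_cast h2
  have hA := habs i
  have hB := habs (i + p)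
  have hKr : |(x : ℝ)| + |(d : ℝ)| ≤ 2 ^ (4 * n) := by
    exact_mod_cast hn
  have h3 : (3 : ℝ) ^ i ≤ 3 ^ (i + p) := pow_le_pow_right₀ (by norm_num) (by omega)
  have h4 : |((T d)^[i] x : ℝ) - ((T d)^[i + p] x : ℝ)| ≤ 3 ^ (i + p) * (2 * 2 ^ (4 * n)) := by
    have h5 := abs_sub ((T d)^[i] x : ℝ) ((T d)^[i + p] x : ℝ)
    have h6 : (0 : ℝ) ≤ |(x : ℝ)| + |(d : ℝ)| := by positivity
    have h7 : (3 : ℝ) ^ i * (|(x : ℝ)| + |(d : ℝ)|) ≤ 3 ^ (i + p) * (|(x : ℝ)| + |(d : ℝ)|) :=
      mul_le_mul_of_nonneg_right h3 h6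
    have h8 : (3 : ℝ) ^ (i + p) * (|(x : ℝ)| + |(d : ℝ)|) ≤ 3 ^ (i + p) * 2 ^ (4 * n) :=
      mul_le_mul_of_nonneg_left hKr (by positivity)
    linarith
  have h8 : (2 : ℝ) ^ N ≤ 2 ^ (2 * (i + p) + 4 * n + 1) := by
    have h9 : (3 : ℝ) ^ (i + p) ≤ 2 ^ (2 * (i + p)) := by
      rw [pow_mul]
      exact pow_le_pow_left₀ (by norm_num) (by norm_num) _
    calc (2 : ℝ) ^ N ≤ 3 ^ (i + p) * (2 * 2 ^ (4 * n)) := h2'.trans h4
      _ ≤ 2 ^ (2 * (i + p)) * (2 * 2 ^ (4 * n)) := mul_le_mul_of_nonneg_right h9 (by positivity)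
      _ = 2 ^ (2 * (i + p) + 4 * n + 1) := by rw [pow_succ, pow_add]; ring
  exact (pow_le_pow_iff_right₀ (by norm_num : (1 : ℝ) < 2)).mp h8

end Pool.Agent.Lib.MP_d0d59f_nt.Sb

end

section

namespace Pool.Agent.Lib.MP_d0d59f_nt.Sb

open Filter Topology Lin

/-- There is a branch point among `complexity n` consecutive positions: otherwise the word would be
periodic from a repeated factor on. The two positions `a < b` of the proof have
`b - a ≤ complexity n ≤ Q`. -/
theorem exists_branch' {d : ℤ} (hd : Odd d) {x : ℤ} {Q : ℕ} (hx : NoPer d x Q) {n : ℕ}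
    (hQ : complexity d x n ≤ Q) (i : ℕ) :
    ∃ j, i ≤ j ∧ j < i + complexity d x n ∧ Branch d x n j := by
  by_contra hno
  push Not at hno
  obtain ⟨a, b, hia, hab, hbi, hf⟩ := linGapA_repeat d x n i
  obtain ⟨c, hc, rfl⟩ : ∃ c, 0 < c ∧ b = a + c := ⟨b - a, by omega, by omega⟩
  have hnb : ∀ r, r < c → ¬ Branch d x n (a + r) := fun r hr => hno (a + r) (by omega) (by omega)
  have key : ∀ t, factor d x n (a + t) = factor d x n (a + t % c) := by
    intro t
    induction t with
    | zero => simp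
    | succ t ih =>
      have hr : t % c < c := Nat.mod_lt _ hc
      have h1 := linGapA_shift (linGapA_succ (hnb _ hr) ih)
      rw [add_assoc, add_assoc] at h1
      rw [h1]
      rcases Nat.lt_or_ge (t % c + 1) c with h2 | h2
      · have e : (t + 1) % c = t % c + 1 := by
          rw [Nat.add_mod, ← Nat.mod_eq_of_lt h2]
          rcases Nat.lt_or_ge 1 c with h3 | h3
          · rw [Nat.mod_eq_of_lt h3]
          · omega
        rw [e]
      · have e0 : t % c + 1 = c := by omega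
        have e : (t + 1) % c = 0 := by
          have : t + 1 = c * (t / c) + c := by
            have := Nat.div_add_mod t c
            omega
          rw [this, Nat.add_mod_right, Nat.mul_mod_right]
        rw [e, e0, add_zero, ← hf]
  have hpar : ∀ t, (T d)^[a + t] x % 2 = (T d)^[a + c + t] x % 2 := by
    intro t
    have hr : t % c < c := Nat.mod_lt _ hc
    have h1 := linGapA_succ (hnb _ hr) (key t)
    have h2 : factor d x n (a + c + t) = factor d x n (a + t % c) := by
      rw [add_assoc, key (c + t)]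
      simp
    have h3 := linGapA_succ (hnb _ hr) h2
    exact linGapA_first (h1.trans h3.symm)
  have hdvd : ∀ N : ℕ, (2 : ℤ) ^ N ∣ (T d)^[a] x - (T d)^[a + c] x := by
    intro N
    apply dvd_of_parity hd
    intro k _
    rw [← Function.iterate_add_apply, ← Function.iterate_add_apply, add_comm k a,
      add_comm k (a + c)]
    exact hpar k
  have hz : (T d)^[a] x - (T d)^[a + c] x = 0 := by
    apply Int.eq_zero_of_abs_lt_dvd (hdvd (((T d)^[a] x - (T d)^[a + c] x).natAbs))
    rw [Int.abs_eq_natAbs]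
    exact_mod_cast Nat.lt_two_pow_self
  exact hx a c hc (by omega) (by omega)

/-- The increasing enumeration of the branch points. -/
theorem exists_positions' {d : ℤ} (hd : Odd d) {x : ℤ} {Q : ℕ} (hx : NoPer d x Q) {n : ℕ}
    (hQ : complexity d x n ≤ Q) : ∃ jt : ℕ → ℕ, StrictMono jt ∧ (∀ k, Branch d x n (jt k)) ∧
      (∀ k t, jt k < t → t < jt (k + 1) → ¬ Branch d x n t) ∧ jt 0 ≤ complexity d x n ∧
      ∀ k, jt (k + 1) ≤ jt k + complexity d x n := by
  classical
  have hinf : {t | Branch d x n t}.Infinite := by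
    intro hfin
    obtain ⟨B, hB⟩ := hfin.bddAbove
    obtain ⟨j, hj1, _, hj3⟩ := exists_branch' hd hx hQ (B + 1)
    have := hB hj3
    omega
  have hmono := Nat.nth_strictMono hinf
  have hgap : ∀ k t, Nat.nth (Branch d x n) k < t → t < Nat.nth (Branch d x n) (k + 1) →
      ¬ Branch d x n t := by
    intro k t h1 h2 hb
    have e := Nat.nth_count hb
    rw [← e] at h1 h2
    have h3 := hmono.lt_iff_lt.mp h1
    have h4 := hmono.lt_iff_lt.mp h2
    omega
  refine ⟨Nat.nth (Branch d x n), hmono, Nat.nth_mem_of_infinite hinf, hgap, ?_, ?_⟩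
  · obtain ⟨j, _, hj2, hj3⟩ := exists_branch' hd hx hQ 0
    rw [Nat.nth_zero]
    exact (Nat.sInf_le hj3).trans (by omega)
  · intro k
    obtain ⟨j, hj1, hj2, hj3⟩ := exists_branch' hd hx hQ (Nat.nth (Branch d x n) k + 1)
    by_contra hlt
    exact hgap k j (by omega) (by omega) hj3

end Pool.Agent.Lib.MP_d0d59f_nt.Sb

end

section

namespace Pool.Agent.Lib.MP_d0d59f_nt.Sb

open Filter Topology Auto Lin

/-- `jt` from `exists_positions'`, `ty k = ty0 (jt k)` with `ty0` from `exists_types`; `len_eq`,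
`gval_eq` from `block_eq` (and `ones_shift_congr`: `gval` depends only on the parities).
`run_le`: if `k' < k + R` then `jt k' ≤ jt k + R ε ≤ jt k + n`; else `run_periodic` (with
`w t = (T d)^[t] x % 2`, `exists_same_branch`) gives `a`, `p`, and `run_bound'` (uniform in `x`) with `i = jt a`,
`N = jt k' - jt a`, `i + p ≤ jt k + 2 R ε ≤ jt k + n`.
`run_form`: if `k' < k + R` then `α = gval d _ (jt k' - jt k)`, `β = 0` (`gval_eq`, `ht_gval_le`; the
length is at most `R ε`); else `(T d)^[jt a] x = α' + 2 ^ N / 3 ^ ones (β + x_{jt k'})` by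
`affine_periodic` and `x_{jt k} = g + t x_{jt a}` with `g = gval d _ (jt a - jt k)`,
`t = 2 ^ (jt a - jt k) / 3 ^ ones`, `jt a - jt k ≤ R ε`, so `α = g + t α'`; `ones_add`. All heights are
at most `B ^ (R ε + 1)` for a suitable `B = B(d)`. -/
theorem exists_level' {d : ℤ} (hd : Odd d) (R : ℕ) : ∃ (C : ℕ) (B : ℝ), 1 ≤ B ∧ ∀ (x : ℤ) (n : ℕ),
    NoPer d x (R * n) → (|x| + |d| : ℤ) ≤ 2 ^ (4 * n) → (branchSet d x n).ncard ≤ R →
      complexity d x n ≤ R * n → ∃ jt ty, Level d x R C B n jt ty := by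
  obtain ⟨B₁, hB₁, haff⟩ := affine_periodic hd
  have hd1 : (1 : ℝ) ≤ |(d : ℝ)| + 1 := by
    have := abs_nonneg (d : ℝ)
    linarith
  refine ⟨10, 18 * (|(d : ℝ)| + 1) * B₁, by nlinarith, ?_⟩
  intro x n hnp hsize hR hcn
  obtain ⟨jt, hmono, hbr, hnb, hz, hgap⟩ := exists_positions' hd hnp (n := n) hcn
  obtain ⟨ty0, hty0⟩ := exists_types hR
  have hblock : ∀ k k', ty0 (jt k) = ty0 (jt k') → _ := fun k k' h =>
    block_eq hmono hbr hnb (hty0 _ _ (hbr k) (hbr k') h)
  have hrep := exists_same_branch hR hbr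
  refine ⟨jt, fun k => ty0 (jt k), ⟨hmono, hz.trans hcn, fun k => (hgap k).trans (by omega),
    fun k k' h => (hblock k k' h).1, ?_, ?_, ?_⟩⟩
  · intro k k' h
    obtain ⟨h1, h2⟩ := hblock k k' h
    rw [← h1]
    obtain ⟨h3, h4⟩ := ones_shift_congr hd (y := (T d)^[jt k] x) (z := (T d)^[jt k'] x)
      (jt (k + 1) - jt k) (by
        intro t ht
        have := h2 t ht
        rw [← Function.iterate_add_apply, ← Function.iterate_add_apply, add_comm t, add_comm t]
        exact this)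
    rw [gval, gval, h3, h4]
  · intro ε k k' hε hkk hshort
    have h0 : (3 * R + 3) * ε = 3 * (R * ε) + 3 * ε := by ring
    rcases lt_or_ge k' (k + R) with hlt | hge
    · have h1 := linLevel_jt_le (R := R) hkk (by omega) le_rfl hshort
      omega
    · obtain ⟨a, p, hka, haR, hp, hpR, hper⟩ := run_periodic (w := fun t => (T d)^[t] x % 2) hmono
        hrep hε hge hshort
      have hak : a ≤ k' := by omega
      have h1 := linLevel_jt_le (R := R) hka haR hak hshort
      have hεn : ε ≤ n := by nlinarith [Nat.zero_le (3 * R * ε)]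
      have hpQ : p ≤ R * n := by
        have := Nat.mul_le_mul_left R hεn
        omega
      have h2 := run_bound' hd hnp hsize (i := jt a) (N := jt k' - jt a) hp hpQ (by
        intro t ht
        exact hper (jt a + t) (by omega) (by omega))
      have h3 : jt a ≤ jt k' := hmono.monotone hak
      omega
  · intro ε k k' hε hkk hshort
    have h0 : (3 * R + 3) * ε = 3 * (R * ε) + 3 * ε := by ring
    set y : ℤ := (T d)^[jt k] x with hy
    set D : ℝ := |(d : ℝ)| + 1 with hD
    rcases lt_or_ge k' (k + R) with hlt | hge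
    · have h1 := linLevel_jt_le (R := R) hkk (by omega) le_rfl hshort
      have h3 : jt k ≤ jt k' := hmono.monotone hkk
      refine ⟨gval d y (jt k' - jt k), 0, ?_, ?_, ?_⟩
      · refine (ht_gval_le hd _ _).trans ?_
        push_cast
        rw [← hD]
        calc D * 3 ^ (jt k' - jt k) ≤ D * 3 ^ (R * ε) := by
              gcongr
              · norm_num
              · omega
          _ ≤ D ^ (R * ε + 1) * 3 ^ (R * ε + 1) := by
              gcongr
              · exact le_self_pow₀ hd1 (by omega)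
              · norm_num
              · omega
          _ = (D * 3) ^ (R * ε + 1) := by rw [mul_pow]
          _ ≤ (18 * D * B₁) ^ (R * ε + 1) :=
              pow_le_pow_left₀ (by positivity) (by nlinarith) _
      · rw [ah_zero]
        push_cast
        exact one_le_pow₀ (by nlinarith)
      · have h4 := gval_eq d y (jt k' - jt k)
        have h5 : (T d)^[jt k' - jt k] y = (T d)^[jt k'] x := by
          rw [hy, ← Function.iterate_add_apply]
          congr 1
          congr 1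
          omega
        rw [h5] at h4
        rw [h4]
        ring
    · obtain ⟨a, p, hka, haR, hp, hpR, hper⟩ := run_periodic (w := fun t => (T d)^[t] x % 2) hmono
        hrep hε hge hshort
      have hak : a ≤ k' := by omega
      have h1 := linLevel_jt_le (R := R) hka haR hak hshort
      have h3 : jt a ≤ jt k' := hmono.monotone hak
      have h6 : jt k ≤ jt a := hmono.monotone hka
      obtain ⟨α', β, hα', hβ, hform⟩ := haff ((T d)^[jt a] x) (jt k' - jt a) p hp (by
        intro t ht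
        have := hper (jt a + t) (by omega) (by omega)
        rw [← Function.iterate_add_apply, ← Function.iterate_add_apply, add_comm t,
          show t + p + jt a = jt a + t + p by ring]
        exact this)
      set L := jt a - jt k with hL
      have hLR : L ≤ R * ε := by omega
      have hT : (T d)^[L] y = (T d)^[jt a] x := by
        rw [hy, ← Function.iterate_add_apply]
        congr 1
        congr 1
        omega
      have hT' : (T d)^[jt k' - jt a] ((T d)^[jt a] x) = (T d)^[jt k'] x := by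
        rw [← Function.iterate_add_apply]
        congr 1
        congr 1
        omega
      have hB₁p : B₁ ^ p ≤ B₁ ^ (R * ε + 1) := pow_le_pow_right₀ hB₁ (by omega)
      refine ⟨gval d y L + 2 ^ L / 3 ^ ones d y L * α', β, ?_, ?_, ?_⟩
      · have e1 : (ht (gval d y L + 2 ^ L / 3 ^ ones d y L * α') : ℝ) ≤
            2 * (ht (gval d y L) * (ht ((2 : ℚ) ^ L / 3 ^ ones d y L) * ht α')) := by
          have := ht_add_le (gval d y L) (2 ^ L / 3 ^ ones d y L * α')
          have h' := ht_mul_le ((2 : ℚ) ^ L / 3 ^ ones d y L) α'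
          have : ht (gval d y L + 2 ^ L / 3 ^ ones d y L * α') ≤
            2 * (ht (gval d y L) * (ht ((2 : ℚ) ^ L / 3 ^ ones d y L) * ht α')) := by
            refine this.trans ?_
            gcongr
          exact_mod_cast this
        have e2 := ht_gval_le hd y L
        have e3 := linLevel_ht_pow d y L
        push_cast at e2
        rw [← hD] at e2
        calc (ht (gval d y L + 2 ^ L / 3 ^ ones d y L * α') : ℝ)
            ≤ 2 * (ht (gval d y L) * (ht ((2 : ℚ) ^ L / 3 ^ ones d y L) * ht α')) := e1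
          _ ≤ 2 * ((D * 3 ^ (R * ε)) * (3 ^ (R * ε) * B₁ ^ (R * ε + 1))) := by
              gcongr
              · exact e2.trans (by
                  gcongr
                  norm_num)
              · exact e3.trans (by
                  gcongr
                  norm_num)
              · exact hα'.trans hB₁p
          _ = (2 * D) * (9 ^ (R * ε) * B₁ ^ (R * ε + 1)) := by
              rw [show (9 : ℝ) = 3 * 3 by norm_num, mul_pow]
              ring
          _ ≤ (2 * D) ^ (R * ε + 1) * (9 ^ (R * ε + 1) * B₁ ^ (R * ε + 1)) := by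
              gcongr
              · exact le_self_pow₀ (by linarith) (by omega)
              · norm_num
              · omega
          _ = (18 * D * B₁) ^ (R * ε + 1) := by
              rw [← mul_pow, ← mul_pow]
              congr 1
              ring
      · refine (hβ.trans hB₁p).trans ?_
        gcongr
        nlinarith
      · have h4 := gval_eq d y L
        rw [hT] at h4
        rw [hT'] at hform
        have h7 : jt k' - jt k = L + (jt k' - jt a) := by omega
        rw [h7, ones_add, hT, pow_add, pow_add]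
        rw [h4]
        have h8 : (y : ℚ) = y - 2 ^ L / 3 ^ ones d y L * (((T d)^[jt a] x : ℤ) : ℚ) +
          2 ^ L / 3 ^ ones d y L * (((T d)^[jt a] x : ℤ) : ℚ) := by ring
        rw [h8]
        nth_rewrite 3 [hform]
        have h9 : (3 : ℚ) ^ ones d y L ≠ 0 := by positivity
        have h10 : (3 : ℚ) ^ ones d ((T d)^[jt a] x) (jt k' - jt a) ≠ 0 := by positivity
        field_simp
        ring

end Pool.Agent.Lib.MP_d0d59f_nt.Sb

end

section

namespace Pool.Agent.Lib.MP_d0d59f_nt.Sb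

open Filter Topology Auto Lin

/-- `S` is the set of the types of the long blocks, the other blocks have length `≤ ε`.
Proof. For every `k` there is `k' > k` with `ty k' ∈ S`: else `run_le` (for `k + 1`, all `k'`)
bounds `jt k' ≥ k'`. Let `nxt k = k + 1` if `ty k ∈ S`, and the least `k' > k` with `ty k' ∈ S`
otherwise (`Nat.find`); `idx 0 = 0`, `idx (i + 1) = nxt (idx i)`, `P i = jt (idx i)`. If
`ty (idx i) ∉ S` then all the blocks `idx i, ..., idx (i + 1) - 1` have types not in `S`, so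
`run_le` and `run_form` apply, and `ty (idx (i + 1)) ∈ S`.
`P 0 ≤ R n`; `P (i + 1) ≤ P i + R n` or `≤ C (P i + n) + C`: `D (i + 1) = (C + 1) (D i + 1) + C + R`.
`P i + δ n ≤ P (i + 2)`: one of the blocks `idx i`, `idx (i + 1)` is long.
`c i a = 1` if `ty (idx i) = a ∈ S`, else `0`; if `ty (idx i) ∈ S` then `α i = β i = 0` and the
identity is `gval_eq`; else `α i`, `β i` from `run_form`. (`ht 0 = 1`.)
One more assertion: for every `i` either all `c i a` are zero, or
`α i = 0` and `∑ a, g a * c i a` is the value of the block from `P i` to `P (i + 1)`. (In the proof: the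
case of a short run, and the case of a long block, `P (i + 1) = jt (idx i + 1)`.) -/
theorem exists_walk' (R C : ℕ) (B : ℝ) (hB : 1 ≤ B) : ∃ D : ℕ → ℝ, ∀ {d x : ℤ} {n : ℕ} {jt : ℕ → ℕ}
    {ty : ℕ → Fin (2 * R + 1)} (_ : Level d x R C B n jt ty) (_ : 1 ≤ n)
    (S : Finset (Fin (2 * R + 1))) (ε : ℕ) (_ : (3 * R + 3) * ε ≤ n) (δ : ℝ) (_ : 0 ≤ δ)
    (_ : ∀ k, ty k ∈ S → (jt k : ℝ) + δ * n ≤ jt (k + 1))
    (_ : ∀ k, ty k ∉ S → jt (k + 1) ≤ jt k + ε) (g : Fin (2 * R + 1) → ℚ)
    (_ : ∀ k, g (ty k) = gval d ((T d)^[jt k] x) (jt (k + 1) - jt k)),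
    ∃ (P : ℕ → ℕ) (c : ℕ → Fin (2 * R + 1) → ℚ) (α β : ℕ → ℚ),
      (∀ i, (P i : ℝ) ≤ D i * n) ∧ (∀ i, P i ≤ P (i + 1)) ∧
      (∀ i, (P i : ℝ) + δ * n ≤ P (i + 2)) ∧ (∀ i a, c i a = 0 ∨ c i a = 1) ∧
      (∀ i, (ht (α i) : ℝ) ≤ B ^ (R * ε + 1)) ∧ (∀ i, (ht (β i) : ℝ) ≤ B ^ (R * ε + 1)) ∧
      (∀ i, ((T d)^[P i] x : ℚ) = ∑ a, g a * c i a + α i +
        2 ^ (P (i + 1) - P i) / 3 ^ ones d ((T d)^[P i] x) (P (i + 1) - P i) *
          (β i + ((T d)^[P (i + 1)] x : ℤ))) ∧
      ∀ i, (∀ a, c i a = 0) ∨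
        (α i = 0 ∧ ∑ a, g a * c i a = gval d ((T d)^[P i] x) (P (i + 1) - P i)) := by
  classical
  refine ⟨walk_D R C, ?_⟩
  intro d x n jt ty hL hn S ε hε δ hδ hlong hshort g hg
  have hmono := hL.mono
  -- existence of the next long block
  have hex : ∀ k, ∃ k', k < k' ∧ ty k' ∈ S := by
    intro k
    by_contra hcon
    push Not at hcon
    have hb : ∀ k', k + 1 ≤ k' → jt k' ≤ C * (jt (k + 1) + n) + C := by
      intro k' hk'
      exact hL.run_le ε (k + 1) k' hε hk' (fun i hi _ => hshort i (hcon i (by omega)))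
    have h1 := hb (k + 1 + (C * (jt (k + 1) + n) + C) + 1) (by omega)
    have h2 := hmono.id_le (k + 1 + (C * (jt (k + 1) + n) + C) + 1)
    simp only [id] at h2
    omega
  let nxt : ℕ → ℕ := fun k => if ty k ∈ S then k + 1 else Nat.find (hex k)
  have nxt_pos : ∀ k, ty k ∈ S → nxt k = k + 1 := fun k hk => by
    simp only [nxt, if_pos hk]
  have nxt_neg : ∀ k, ty k ∉ S → nxt k = Nat.find (hex k) := fun k hk => by
    simp only [nxt, if_neg hk]
  have nxt_gt : ∀ k, k < nxt k := by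
    intro k
    by_cases hk : ty k ∈ S
    · rw [nxt_pos k hk]; omega
    · rw [nxt_neg k hk]; exact (Nat.find_spec (hex k)).1
  have nxt_mem : ∀ k, ty k ∉ S → ty (nxt k) ∈ S := by
    intro k hk
    rw [nxt_neg k hk]; exact (Nat.find_spec (hex k)).2
  have nxt_short : ∀ k, ty k ∉ S → ∀ i, k ≤ i → i < nxt k → jt (i + 1) ≤ jt i + ε := by
    intro k hk i hi1 hi2
    apply hshort
    rcases hi1.eq_or_lt with h | h
    · rw [← h]; exact hk
    · rw [nxt_neg k hk] at hi2
      intro hmem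
      exact Nat.find_min (hex k) hi2 ⟨h, hmem⟩
  let idx : ℕ → ℕ := fun i => nxt^[i] 0
  have idx_succ : ∀ i, idx (i + 1) = nxt (idx i) := fun i => by
    simp only [idx, Function.iterate_succ_apply']
  -- the coefficients
  have hform : ∀ i, ∃ α β : ℚ, ∃ c : Fin (2 * R + 1) → ℚ, (∀ a, c a = 0 ∨ c a = 1) ∧
      (ht α : ℝ) ≤ B ^ (R * ε + 1) ∧ (ht β : ℝ) ≤ B ^ (R * ε + 1) ∧
      ((T d)^[jt (idx i)] x : ℚ) = ∑ a, g a * c a + α +
        2 ^ (jt (idx (i + 1)) - jt (idx i)) /
          3 ^ ones d ((T d)^[jt (idx i)] x) (jt (idx (i + 1)) - jt (idx i)) *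
          (β + ((T d)^[jt (idx (i + 1))] x : ℤ)) ∧
      ((∀ a, c a = 0) ∨ (α = 0 ∧ ∑ a, g a * c a =
        gval d ((T d)^[jt (idx i)] x) (jt (idx (i + 1)) - jt (idx i)))) := by
    intro i
    have hht0 : ((ht 0 : ℕ) : ℝ) ≤ B ^ (R * ε + 1) := by
      have h0 : ht 0 = 1 := by simp [ht]
      rw [h0]; push_cast; exact one_le_pow₀ hB
    by_cases hk : ty (idx i) ∈ S
    · refine ⟨0, 0, fun a => if a = ty (idx i) then 1 else 0, ?_, hht0, hht0, ?_, Or.inr ⟨rfl, ?_⟩⟩
      · intro a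
        by_cases ha : a = ty (idx i)
        · right; simp [ha]
        · left; simp [ha]
      · rw [idx_succ, nxt_pos _ hk]
        simp only [mul_ite, mul_one, mul_zero, Finset.sum_ite_eq', Finset.mem_univ, if_true,
          add_zero, zero_add]
        rw [hg (idx i)]
        have h1 := gval_eq d ((T d)^[jt (idx i)] x) (jt (idx i + 1) - jt (idx i))
        rw [← Function.iterate_add_apply,
          Nat.sub_add_cancel (hmono.monotone (Nat.le_add_right (idx i) 1))] at h1
        rw [h1]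
        ring
      · rw [idx_succ, nxt_pos _ hk]
        simp only [mul_ite, mul_one, mul_zero, Finset.sum_ite_eq', Finset.mem_univ, if_true]
        rw [hg (idx i)]
    · obtain ⟨α, β, hα, hβ, hform⟩ := hL.run_form ε (idx i) (idx (i + 1)) hε
        (by rw [idx_succ]; exact (nxt_gt _).le)
        (by intro j hj1 hj2; rw [idx_succ] at hj2; exact nxt_short _ hk j hj1 hj2)
      refine ⟨α, β, fun _ => 0, fun _ => Or.inl rfl, hα, hβ, ?_, Or.inl fun _ => rfl⟩
      simp only [mul_zero, Finset.sum_const_zero, zero_add]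
      exact hform
  choose α β c hc hα hβ hid hkind using hform
  refine ⟨fun i => jt (idx i), c, α, β, ?_, ?_, ?_, hc, hα, hβ, hid, hkind⟩
  · intro i
    induction i with
    | zero =>
      have h0 : idx 0 = 0 := rfl
      have := hL.zero_le
      simp only [h0, walk_D]
      exact_mod_cast this
    | succ i ih =>
      have hD := walk_D_nonneg R C i
      have hn' : (1 : ℝ) ≤ n := by exact_mod_cast hn
      simp only at ih ⊢
      rw [idx_succ]
      have hCn : (0 : ℝ) ≤ C := Nat.cast_nonneg C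
      have hRn : (0 : ℝ) ≤ R := Nat.cast_nonneg R
      by_cases hk : ty (idx i) ∈ S
      · rw [nxt_pos _ hk]
        have h1 : ((jt (idx i + 1) : ℕ) : ℝ) ≤ jt (idx i) + R * n := by exact_mod_cast hL.gap (idx i)
        have h2 : (jt (idx i) : ℝ) + R * n ≤ walk_D R C i * n + R * n := by linarith
        refine (h1.trans h2).trans ?_
        simp only [walk_D]
        have : walk_D R C i * n + R * n ≤ ((C + 1) * (walk_D R C i + 1) + C + R) * n := by
          have e : ((C + 1) * (walk_D R C i + 1) + C + R) * (n : ℝ) -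
              (walk_D R C i * n + R * n) = (C * (walk_D R C i + 1) + 1 + C) * n := by ring
          have : 0 ≤ (C * (walk_D R C i + 1) + 1 + C) * (n : ℝ) := by positivity
          linarith
        exact this
      · have h1 := hL.run_le ε (idx i) (nxt (idx i)) hε (nxt_gt _).le (nxt_short _ hk)
        have h1' : ((jt (nxt (idx i)) : ℕ) : ℝ) ≤ C * (jt (idx i) + n) + C := by
          exact_mod_cast h1
        have h2 : (C : ℝ) * (jt (idx i) + n) + C ≤ C * (walk_D R C i * n + n) + C * n := by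
          have := mul_le_mul_of_nonneg_left ih hCn
          nlinarith
        refine (h1'.trans h2).trans ?_
        simp only [walk_D]
        have e : ((C + 1) * (walk_D R C i + 1) + C + R) * (n : ℝ) -
            (C * (walk_D R C i * n + n) + C * n) = (walk_D R C i + 1 + R) * n := by ring
        have : 0 ≤ (walk_D R C i + 1 + R) * (n : ℝ) := by positivity
        linarith
  · intro i
    simp only
    rw [idx_succ]
    exact hmono.monotone (nxt_gt _).le
  · intro i
    simp only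
    have e1 : idx (i + 2) = nxt (idx (i + 1)) := idx_succ (i + 1)
    have e2 : idx (i + 1) = nxt (idx i) := idx_succ i
    have m1 : (jt (idx (i + 1)) : ℝ) ≤ jt (idx (i + 2)) := by
      rw [e1]; exact_mod_cast hmono.monotone (nxt_gt _).le
    have m0 : (jt (idx i) : ℝ) ≤ jt (idx (i + 1)) := by
      rw [e2]; exact_mod_cast hmono.monotone (nxt_gt _).le
    by_cases hk : ty (idx i) ∈ S
    · have h1 := hlong _ hk
      have : (jt (idx (i + 1)) : ℝ) = jt (idx i + 1) := by rw [e2, nxt_pos _ hk]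
      rw [← this] at h1
      linarith
    · have hk' : ty (idx (i + 1)) ∈ S := by rw [e2]; exact nxt_mem _ hk
      have h1 := hlong _ hk'
      have : (jt (idx (i + 2)) : ℝ) = jt (idx (i + 1) + 1) := by rw [e1, nxt_pos _ hk']
      rw [← this] at h1
      linarith

end Pool.Agent.Lib.MP_d0d59f_nt.Sb

end

section

namespace Pool.Agent.Lib.MP_d0d59f_nt.Sb

open Filter Topology Auto Lin

/-- A family of orbits `x m` with levels `L m`, of linear complexity, without short periods. -/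
structure Family (d : ℤ) (x : ℕ → ℤ) (L : ℕ → ℕ) (R : ℕ) : Prop where
  tend : Tendsto L atTop atTop
  noPer : ∀ S : ℕ, ∀ᶠ m in atTop, NoPer d (x m) (S * L m)
  size : ∀ᶠ m in atTop, (|x m| + |d| : ℤ) ≤ 2 ^ (4 * L m)
  branch : ∀ᶠ m in atTop, (branchSet d (x m) (L m)).ncard ≤ R
  compl : ∀ᶠ m in atTop, complexity d (x m) (L m) ≤ R * L m

/-- the data extracted from the levels -/
structure Data2 (d : ℤ) (x : ℕ → ℤ) (L : ℕ → ℕ) {K : ℕ} (g : Fin K → ℕ → ℚ) (P : ℕ → ℕ → ℕ)
    (c : ℕ → Fin K → ℕ → ℚ) (α β : ℕ → ℕ → ℚ) (δ : ℝ) : Prop where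
  pos : 0 < δ
  ht_g : ∀ a, ∃ C : ℝ, ∀ᶠ m in (hyperfilter ℕ : Filter ℕ), (ht (g a m) : ℝ) ≤ C ^ L m
  P_le : ∀ i, ∃ C : ℝ, ∀ᶠ m in (hyperfilter ℕ : Filter ℕ), (P i m : ℝ) ≤ C * L m
  P_mono : ∀ i, ∀ᶠ m in (hyperfilter ℕ : Filter ℕ), P i m ≤ P (i + 1) m
  P_gap : ∀ i, ∀ᶠ m in (hyperfilter ℕ : Filter ℕ), (P i m : ℝ) + δ * L m ≤ P (i + 2) m
  c_val : ∀ i a m, c i a m = 0 ∨ c i a m = 1
  ht_α : ∀ i, ∀ ε : ℝ, 0 < ε → ∀ᶠ m in (hyperfilter ℕ : Filter ℕ),
    (ht (α i m) : ℝ) ≤ (1 + ε) ^ L m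
  ht_β : ∀ i, ∀ ε : ℝ, 0 < ε → ∀ᶠ m in (hyperfilter ℕ : Filter ℕ),
    (ht (β i m) : ℝ) ≤ (1 + ε) ^ L m
  rec_eq : ∀ i, ∀ᶠ m in (hyperfilter ℕ : Filter ℕ), ((T d)^[P i m] (x m) : ℚ) =
    ∑ a, g a m * c i a m + α i m +
      2 ^ (P (i + 1) m - P i m) / 3 ^ ones d ((T d)^[P i m] (x m)) (P (i + 1) m - P i m) *
        (β i m + ((T d)^[P (i + 1) m] (x m) : ℤ))
  kind : ∀ i, ∀ᶠ m in (hyperfilter ℕ : Filter ℕ), (∀ a, c i a m = 0) ∨
    (α i m = 0 ∧ ∑ a, g a m * c i a m = gval d ((T d)^[P i m] (x m)) (P (i + 1) m - P i m))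

/-- Choose `C, B` from `exists_level'`, `jt m, ty m` for almost all `m` (arbitrary for the other `m`).
Let `lenT m a` be the
length `jt (k+1) - jt k` of a block with `ty m k = a` (any, by `len_eq`), `0` if there is none, and
`g a m = gval d ((T d)^[jt k] x) (lenT m a)` for this `k` (`0` if there is none). `dichotomy` for
`lenT m a / L m`: `S`, `δ`. Let `ε m` be the maximum of `lenT m a`, `a ∉ S`: for every `η > 0`
eventually `ε m ≤ η L m`; in particular eventually `(3 R + 3) ε m ≤ L m`. Apply `exists_walk'` at these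
levels (at the other levels take everything `0`: use `choose` on the disjunction). Heights:
`B ^ (R ε m + 1) ≤ (1 + ε) ^ L m` because `(R ε m + 1) log B ≤ L m log (1 + ε)` eventually;
`ht (gval ..) ≤ (|d| + 1) 3 ^ (R L m)`. -/
theorem exists_data2 {d : ℤ} (hd : Odd d) {x : ℕ → ℤ} {L : ℕ → ℕ} {R : ℕ} (h : Family d x L R) :
    ∃ (K : ℕ) (g : Fin K → ℕ → ℚ) (P : ℕ → ℕ → ℕ) (c : ℕ → Fin K → ℕ → ℚ)
      (α β : ℕ → ℕ → ℚ) (δ : ℝ), Data2 d x L g P c α β δ := by
  classical
  obtain ⟨C', B, hB, hlev⟩ := exists_level' hd R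
  have hgood : ∀ᶠ m in atTop, NoPer d (x m) (R * L m) ∧ (|x m| + |d| : ℤ) ≤ 2 ^ (4 * L m) ∧
      (branchSet d (x m) (L m)).ncard ≤ R ∧ complexity d (x m) (L m) ≤ R * L m := by
    filter_upwards [h.noPer R, h.size, h.branch, h.compl] with m h1 h2 h3 h4
    exact ⟨h1, h2, h3, h4⟩
  have hex : ∀ m, ∃ (jt : ℕ → ℕ) (ty : ℕ → Fin (2 * R + 1)),
      (NoPer d (x m) (R * L m) ∧ (|x m| + |d| : ℤ) ≤ 2 ^ (4 * L m) ∧
        (branchSet d (x m) (L m)).ncard ≤ R ∧ complexity d (x m) (L m) ≤ R * L m) →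
      Level d (x m) R C' B (L m) jt ty := by
    intro m
    by_cases hm : NoPer d (x m) (R * L m) ∧ (|x m| + |d| : ℤ) ≤ 2 ^ (4 * L m) ∧
        (branchSet d (x m) (L m)).ncard ≤ R ∧ complexity d (x m) (L m) ≤ R * L m
    · obtain ⟨jt, ty, hh⟩ := hlev (x m) (L m) hm.1 hm.2.1 hm.2.2.1 hm.2.2.2
      exact ⟨jt, ty, fun _ => hh⟩
    · exact ⟨fun _ => 0, fun _ => 0, fun hh => absurd hh hm⟩
  choose jt ty hlv using hex
  have hLt : Tendsto L atTop atTop := h.tend
  -- lengths and values of the types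
  have hlen : ∀ m (a : Fin (2 * R + 1)), ∃ len : ℕ, ∃ g : ℚ,
      (NoPer d (x m) (R * L m) ∧ (|x m| + |d| : ℤ) ≤ 2 ^ (4 * L m) ∧
        (branchSet d (x m) (L m)).ncard ≤ R ∧ complexity d (x m) (L m) ≤ R * L m) →
      (∀ k, ty m k = a → len = jt m (k + 1) - jt m k ∧
        g = gval d ((T d)^[jt m k] (x m)) (jt m (k + 1) - jt m k)) ∧
      (ht g : ℝ) ≤ (|d| + 1) * 3 ^ (R * L m) := by
    intro m a
    by_cases hk : ∃ k, ty m k = a
    · obtain ⟨k, hk⟩ := hk
      refine ⟨jt m (k + 1) - jt m k, gval d ((T d)^[jt m k] (x m)) (jt m (k + 1) - jt m k), ?_⟩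
      intro hm
      refine ⟨?_, ?_⟩
      · intro k' hk'
        exact ⟨(hlv m hm).len_eq k k' (hk.trans hk'.symm),
          (hlv m hm).gval_eq k k' (hk.trans hk'.symm)⟩
      · refine (ht_gval_le hd _ _).trans ?_
        have h1 : jt m (k + 1) - jt m k ≤ R * L m := by
          have := (hlv m hm).gap k
          omega
        have h2 : (3 : ℝ) ^ (jt m (k + 1) - jt m k) ≤ 3 ^ (R * L m) :=
          pow_le_pow_right₀ (by norm_num) h1
        have h3 : (0 : ℝ) ≤ ((|d| : ℤ) : ℝ) := by exact_mod_cast abs_nonneg d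
        exact mul_le_mul_of_nonneg_left h2 (by linarith)
    · refine ⟨0, 0, fun _ => ⟨fun k hk' => absurd ⟨k, hk'⟩ hk, ?_⟩⟩
      have h4 : (1 : ℝ) ≤ 3 ^ (R * L m) := one_le_pow₀ (by norm_num)
      have h3 : (0 : ℝ) ≤ ((|d| : ℤ) : ℝ) := by exact_mod_cast abs_nonneg d
      have h5 : (ht (0 : ℚ) : ℝ) = 1 := by
        have h6 : ht (0 : ℚ) = 1 := by simp [ht]
        rw [h6]; norm_num
      rw [h5]
      nlinarith
  choose lenT g hlg using hlen
  obtain ⟨S, δ, hδ, hS1, hS2⟩ := dichotomy (fun m a => (lenT m a : ℝ) / L m)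
  set e : ℕ → ℕ := fun m => (Finset.univ.filter (fun a => a ∉ S)).sup (lenT m) with he
  have hle : ∀ m a, a ∉ S → lenT m a ≤ e m := by
    intro m a ha
    exact Finset.le_sup (f := lenT m) (Finset.mem_filter.mpr ⟨Finset.mem_univ _, ha⟩)
  have hL1 : ∀ᶠ m in (hyperfilter ℕ : Filter ℕ), 1 ≤ L m :=
    Nat.hyperfilter_le_atTop (hLt.eventually_ge_atTop 1)
  have hgood' : ∀ᶠ m in (hyperfilter ℕ : Filter ℕ), NoPer d (x m) (R * L m) ∧
      (|x m| + |d| : ℤ) ≤ 2 ^ (4 * L m) ∧
      (branchSet d (x m) (L m)).ncard ≤ R ∧ complexity d (x m) (L m) ≤ R * L m :=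
    Nat.hyperfilter_le_atTop hgood
  have hsmall : ∀ η : ℝ, 0 < η → ∀ᶠ m in (hyperfilter ℕ : Filter ℕ), (e m : ℝ) ≤ η * L m := by
    intro η hη
    filter_upwards [hS2 η hη, hL1] with m h1 h2
    have hLpos : (0 : ℝ) < L m := by exact_mod_cast h2
    have h3 : e m ≤ ⌊η * L m⌋₊ := by
      apply Finset.sup_le
      intro a ha
      apply Nat.le_floor
      have h4 := h1 a (Finset.mem_filter.mp ha).2
      rw [div_lt_iff₀ hLpos] at h4
      exact h4.le
    exact (Nat.cast_le.mpr h3).trans (Nat.floor_le (by positivity))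
  obtain ⟨D, hD⟩ := exists_walk' R C' B hB
  let G : ℕ → Prop := fun m => 1 ≤ L m ∧ (3 * R + 3) * e m ≤ L m ∧
    (∀ a ∈ S, δ ≤ (lenT m a : ℝ) / L m) ∧ (NoPer d (x m) (R * L m) ∧
      (|x m| + |d| : ℤ) ≤ 2 ^ (4 * L m) ∧
      (branchSet d (x m) (L m)).ncard ≤ R ∧ complexity d (x m) (L m) ≤ R * L m)
  have hG : ∀ᶠ m in (hyperfilter ℕ : Filter ℕ), G m := by
    have h0 : (0 : ℝ) < 1 / (3 * R + 3) := by positivity
    filter_upwards [hL1, hsmall _ h0, hS1, hgood'] with m h1 h2 h3 h8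
    refine ⟨h1, ?_, h3, h8⟩
    have h4 : ((3 * R + 3 : ℕ) : ℝ) * e m ≤ L m := by
      have h5 : (0 : ℝ) < 3 * R + 3 := by positivity
      have h6 := mul_le_mul_of_nonneg_left h2 h5.le
      have h7 : (3 * R + 3 : ℝ) * (1 / (3 * R + 3) * L m) = L m := by field_simp
      rw [h7] at h6
      push_cast
      exact h6
    exact_mod_cast h4
  have key : ∀ m, ∃ (P : ℕ → ℕ) (c : ℕ → Fin (2 * R + 1) → ℚ) (α β : ℕ → ℚ),
      (∀ i a, c i a = 0 ∨ c i a = 1) ∧ (G m →
      (∀ i, (P i : ℝ) ≤ D i * L m) ∧ (∀ i, P i ≤ P (i + 1)) ∧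
      (∀ i, (P i : ℝ) + δ * L m ≤ P (i + 2)) ∧
      (∀ i, (ht (α i) : ℝ) ≤ B ^ (R * e m + 1)) ∧ (∀ i, (ht (β i) : ℝ) ≤ B ^ (R * e m + 1)) ∧
      (∀ i, ((T d)^[P i] (x m) : ℚ) = ∑ a, g m a * c i a + α i +
        2 ^ (P (i + 1) - P i) / 3 ^ ones d ((T d)^[P i] (x m)) (P (i + 1) - P i) *
          (β i + ((T d)^[P (i + 1)] (x m) : ℤ))) ∧
      ∀ i, (∀ a, c i a = 0) ∨
        (α i = 0 ∧ ∑ a, g m a * c i a = gval d ((T d)^[P i] (x m)) (P (i + 1) - P i))) := by
    intro m
    by_cases hGm : G m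
    · obtain ⟨h1, h2, h3, h8⟩ := hGm
      have hLpos : (0 : ℝ) < L m := by exact_mod_cast h1
      obtain ⟨P, c, α, β, q1, q2, q3, q4, q5, q6, q7, q8⟩ := hD (hlv m h8) h1 S (e m) h2 δ hδ.le
        (by
          intro k hk
          have h4 := h3 _ hk
          rw [le_div_iff₀ hLpos, ((hlg m _ h8).1 k rfl).1] at h4
          have h5 : jt m k ≤ jt m (k + 1) := ((hlv m h8).mono (Nat.lt_succ_self k)).le
          rw [Nat.cast_sub h5] at h4
          linarith)
        (by
          intro k hk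
          have h4 := hle m _ hk
          rw [((hlg m _ h8).1 k rfl).1] at h4
          omega) (g m) (fun k => ((hlg m _ h8).1 k rfl).2)
      exact ⟨P, c, α, β, q4, fun _ => ⟨q1, q2, q3, q5, q6, q7, q8⟩⟩
    · exact ⟨fun _ => 0, fun _ _ => 0, fun _ => 0, fun _ => 0, fun _ _ => Or.inl rfl,
        fun hh => absurd hh hGm⟩
  choose P c α β hc hrest using key
  refine ⟨2 * R + 1, fun a m => g m a, fun i m => P m i, fun m' a m => c m m' a,
    fun i m => α m i, fun i m => β m i, δ, ?_⟩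
  refine ⟨hδ, ?_, ?_, ?_, ?_, ?_, ?_, ?_, ?_, ?_⟩
  · intro a
    refine ⟨(|d| + 1) * 3 ^ R, ?_⟩
    filter_upwards [hL1, hgood'] with m hm hm'
    refine (hlg m a hm').2.trans ?_
    rw [mul_pow, ← pow_mul]
    have h3 : (0 : ℝ) ≤ ((|d| : ℤ) : ℝ) := by exact_mod_cast abs_nonneg d
    have h6 : (((|d| : ℤ) : ℝ) + 1) ≤ (((|d| : ℤ) : ℝ) + 1) ^ L m :=
      le_self_pow₀ (by linarith) (by omega)
    exact mul_le_mul_of_nonneg_right h6 (by positivity)
  · intro i
    exact ⟨D i, hG.mono fun m hm => (hrest m hm).1 i⟩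
  · intro i
    exact hG.mono fun m hm => (hrest m hm).2.1 i
  · intro i
    exact hG.mono fun m hm => (hrest m hm).2.2.1 i
  · intro i a m
    exact hc m i a
  · intro i ε hε
    filter_upwards [hG, LinData_pow hB R hLt hsmall ε hε] with m h1 h2
    exact ((hrest m h1).2.2.2.1 i).trans h2
  · intro i ε hε
    filter_upwards [hG, LinData_pow hB R hLt hsmall ε hε] with m h1 h2
    exact ((hrest m h1).2.2.2.2.1 i).trans h2
  · intro i
    exact hG.mono fun m hm => (hrest m hm).2.2.2.2.2.1 i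
  · intro i
    exact hG.mono fun m hm => (hrest m hm).2.2.2.2.2.2 i

/-- all the conditions are shift invariant -/
theorem Data2.drop {d : ℤ} {x : ℕ → ℤ} {L : ℕ → ℕ} {K : ℕ} {g : Fin K → ℕ → ℚ} {P : ℕ → ℕ → ℕ}
    {c : ℕ → Fin K → ℕ → ℚ} {α β : ℕ → ℕ → ℚ} {δ : ℝ} (h : Data2 d x L g P c α β δ) (k : ℕ) :
    Data2 d x L g (fun i => P (i + k)) (fun i => c (i + k)) (fun i => α (i + k))
      (fun i => β (i + k)) δ := by
  exact ⟨h.pos, h.ht_g, fun i => h.P_le (i + k),
    fun i => by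
      have := h.P_mono (i + k)
      rwa [show i + k + 1 = i + 1 + k by omega] at this,
    fun i => by
      have := h.P_gap (i + k)
      rwa [show i + k + 2 = i + 2 + k by omega] at this,
    fun i a m => h.c_val (i + k) a m, fun i => h.ht_α (i + k), fun i => h.ht_β (i + k),
    fun i => by
      have := h.rec_eq (i + k)
      rwa [show i + k + 1 = i + 1 + k by omega] at this,
    fun i => by
      have := h.kind (i + k)
      rwa [show i + k + 1 = i + 1 + k by omega] at this⟩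

end Pool.Agent.Lib.MP_d0d59f_nt.Sb

end

section

namespace Pool.Agent.Lib.MP_d0d59f_nt.Sb

open Filter Topology Auto Lin

variable {d : ℤ} {x : ℕ → ℤ} {L : ℕ → ℕ} {K : ℕ} {g : Fin K → ℕ → ℚ} {P : ℕ → ℕ → ℕ}
  {c : ℕ → Fin K → ℕ → ℚ} {α β : ℕ → ℕ → ℚ} {δ : ℝ}

theorem Data2.zero_le (h : Data2 d x L g P c α β δ) (i : ℕ) :
    ∀ᶠ m in (hyperfilter ℕ : Filter ℕ), P 0 m ≤ P i m := by
  induction i with
  | zero => exact Eventually.of_forall fun m => le_refl _
  | succ i ih =>
    filter_upwards [ih, h.P_mono i] with m h1 h2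
    exact h1.trans h2

/-- The limits of `P i m / L m` along the ultrafilter exist by compactness; their gaps are at least `δ`. -/
theorem Data2.exists_lim (hL : Tendsto L atTop atTop) (h : Data2 d x L g P c α β δ) :
    ∃ (q : ℕ → ℝ),
    (∀ i, Tendsto (fun m => (P i m : ℝ) / L m) (hyperfilter ℕ) (𝓝 (q i))) ∧
    Tendsto q atTop atTop := by
  have hLpos : ∀ᶠ m in (hyperfilter ℕ : Filter ℕ), 1 ≤ L m :=
    (hL.eventually_ge_atTop 1).filter_mono (by
      rw [← Nat.cofinite_eq_atTop]; exact hyperfilter_le_cofinite)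
  have hex : ∀ i, ∃ y : ℝ, Tendsto (fun m => (P i m : ℝ) / L m) (hyperfilter ℕ) (𝓝 y) := by
    intro i
    obtain ⟨C, hC⟩ := h.P_le i
    have hmem : Set.Icc 0 C ∈ Ultrafilter.map (fun m => (P i m : ℝ) / L m)
        (hyperfilter ℕ) := by
      rw [Ultrafilter.mem_map]
      filter_upwards [hC, hLpos] with m hm hm1
      have hm0 : (0 : ℝ) < L m := by exact_mod_cast hm1
      exact ⟨by positivity, (div_le_iff₀ hm0).2 hm⟩
    obtain ⟨y, _, hlim⟩ := isCompact_Icc.ultrafilter_le_nhds' _ hmem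
    exact ⟨y, hlim⟩
  choose q hq using hex
  refine ⟨q, hq, ?_⟩
  have hmono : Monotone q := by
    refine monotone_nat_of_le_succ fun i => ?_
    refine le_of_tendsto_of_tendsto (hq i) (hq (i + 1)) ?_
    filter_upwards [h.P_mono i] with m hm
    exact div_le_div_of_nonneg_right (by exact_mod_cast hm) (Nat.cast_nonneg _)
  have hgap : ∀ i, q i + δ ≤ q (i + 2) := by
    intro i
    refine le_of_tendsto_of_tendsto ((hq i).add_const δ) (hq (i + 2)) ?_
    filter_upwards [h.P_gap i, hLpos] with m hm hm1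
    have hm0 : (0 : ℝ) < L m := by exact_mod_cast hm1
    have h1 : ((P i m : ℝ) / L m + δ) = (P i m + δ * L m) / L m := by
      field_simp
    rw [h1]
    exact div_le_div_of_nonneg_right hm hm0.le
  have heven : ∀ k : ℕ, q 0 + k * δ ≤ q (2 * k) := by
    intro k
    induction k with
    | zero => simp
    | succ k ih =>
      have h1 := hgap (2 * k)
      have h2 : 2 * (k + 1) = 2 * k + 2 := by ring
      rw [h2]
      push_cast
      linarith
  refine tendsto_atTop_atTop.2 fun b => ?_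
  obtain ⟨k, hk⟩ := exists_nat_gt ((b - q 0) / δ)
  refine ⟨2 * k, fun n hn => ?_⟩
  have h1 := heven k
  have h2 := hmono hn
  rw [div_lt_iff₀ h.pos] at hk
  linarith

/-- `ones ≤` length, so the quotients are bounded; compactness as in `Data2.exists_lim`. -/
theorem Data2.exists_ones (hL : Tendsto L atTop atTop) (h : Data2 d x L g P c α β δ) :
    ∃ (b : ℕ → ℝ), ∀ i, Tendsto
      (fun m => (ones d ((T d)^[P 0 m] (x m)) (P i m - P 0 m) : ℝ) / L m) (hyperfilter ℕ)
        (𝓝 (b i)) := by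
  have hLpos : ∀ᶠ m in (hyperfilter ℕ : Filter ℕ), 1 ≤ L m :=
    (hL.eventually_ge_atTop 1).filter_mono (by
      rw [← Nat.cofinite_eq_atTop]; exact hyperfilter_le_cofinite)
  have hex : ∀ i, ∃ y : ℝ, Tendsto
      (fun m => (ones d ((T d)^[P 0 m] (x m)) (P i m - P 0 m) : ℝ) / L m) (hyperfilter ℕ)
        (𝓝 y) := by
    intro i
    obtain ⟨C, hC⟩ := h.P_le i
    have hmem : Set.Icc 0 C ∈ Ultrafilter.map
        (fun m => (ones d ((T d)^[P 0 m] (x m)) (P i m - P 0 m) : ℝ) / L m)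
        (hyperfilter ℕ) := by
      rw [Ultrafilter.mem_map]
      filter_upwards [hC, hLpos] with m hm hm1
      have hm0 : (0 : ℝ) < L m := by exact_mod_cast hm1
      refine ⟨by positivity, (div_le_iff₀ hm0).2 ?_⟩
      have h1 : ones d ((T d)^[P 0 m] (x m)) (P i m - P 0 m) ≤ P i m :=
        (ones_le _ _ _).trans (Nat.sub_le _ _)
      have h2 : (ones d ((T d)^[P 0 m] (x m)) (P i m - P 0 m) : ℝ) ≤ P i m := by exact_mod_cast h1
      exact h2.trans hm
    obtain ⟨y, _, hlim⟩ := isCompact_Icc.ultrafilter_le_nhds' _ hmem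
    exact ⟨y, hlim⟩
  choose b hb using hex
  exact ⟨b, hb⟩

/-- exponents of `3` -/
def expB2 (d : ℤ) (x : ℕ → ℤ) (P : ℕ → ℕ → ℕ) (t m : ℕ) : ℕ :=
  ones d ((T d)^[P 0 m] (x m)) (P ((t + 1) / 2) m - P 0 m)

/-- By induction on `i`: `rec_eq i`, and the two new terms `t = 2 i`, `t = 2 i + 1`; `ones_add`. -/
theorem err_eq2 (h : Data2 d x L g P c α β δ) (i : ℕ) :
    ∀ᶠ m in (hyperfilter ℕ : Filter ℕ),
      ((T d)^[P 0 m] (x m) : ℚ) - ∑ t ∈ Finset.range (2 * i), (∑ a, gOne g a m * coef c α β t a m) *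
          (2 ^ expA P t m / 3 ^ expB2 d x P t m) =
        2 ^ (P i m - P 0 m) / 3 ^ ones d ((T d)^[P 0 m] (x m)) (P i m - P 0 m) *
          ((T d)^[P i m] (x m) : ℤ) := by
  induction i with
  | zero =>
    refine Eventually.of_forall fun m => ?_
    simp [ones_zero]
  | succ i ih =>
    filter_upwards [ih, h.rec_eq i, h.zero_le i, h.P_mono i] with m h1 h2 h3 h4
    have i1 : (2 * i + 1) / 2 = i := by omega
    have i2 : (2 * i + 1 + 1) / 2 = i + 1 := by omega
    rw [show 2 * (i + 1) = 2 * i + 1 + 1 by ring, Finset.sum_range_succ, Finset.sum_range_succ,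
      ← sub_sub, ← sub_sub, h1]
    have s1 : ∑ a, gOne g a m * coef c α β (2 * i) a m = ∑ b, g b m * c i b m + α i m := by
      simp_rw [ident_coef_even]
      exact ident_sum_snoc g (fun b => c i b m) (α i m) m
    have s2 : ∑ a, gOne g a m * coef c α β (2 * i + 1) a m = β i m := by
      simp_rw [ident_coef_odd]
      rw [ident_sum_snoc g (fun _ => 0) (β i m) m]
      simp
    rw [s1, s2]
    simp only [expA, expB2, i1, i2]
    have e1 : P (i + 1) m - P 0 m = (P i m - P 0 m) + (P (i + 1) m - P i m) := by omega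
    have e2 : (T d)^[P i m - P 0 m] ((T d)^[P 0 m] (x m)) = (T d)^[P i m] (x m) := by
      rw [← Function.iterate_add_apply]
      congr 1
      omega
    have e3 : ones d ((T d)^[P 0 m] (x m)) (P (i + 1) m - P 0 m) =
        ones d ((T d)^[P 0 m] (x m)) (P i m - P 0 m) +
          ones d ((T d)^[P i m] (x m)) (P (i + 1) m - P i m) := by
      rw [e1, ones_add, e2]
    rw [e3, e1, pow_add, pow_add]
    have n1 : (3 : ℚ) ^ ones d ((T d)^[P 0 m] (x m)) (P i m - P 0 m) ≠ 0 := by positivity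
    have n2 : (3 : ℚ) ^ ones d ((T d)^[P i m] (x m)) (P (i + 1) m - P i m) ≠ 0 := by positivity
    rw [h2]
    field_simp
    ring

end Pool.Agent.Lib.MP_d0d59f_nt.Sb

end
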