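import Pool.Agent.Lib.MP_d0d59f_nt.Sub.OrbitData
import Pool.Agent.Lib.MP_d0d59f_nt.Sub.Words

/-!
The size of the elements of the orbit and of the terms of the series.
-/

section

namespace Pool.Agent.Lib.MP_d0d59f_nt.Sb

open Filter Topology Auto Lin

/-- The product formula: induction on `n` (`Function.iterate_succ_apply'`, `ones_succ` or the formula for
`ones` of `n + 1`): `2 y_{n+1} = y_n` or `= 3 y_n + d = 3 y_n (1 + d / (3 y_n))`. -/
theorem ratio_prod {d : ℤ} (hd : Odd d) {y : ℤ} (n : ℕ) (h0 : ∀ j < n, (T d)^[j] y ≠ 0) :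
    (2 : ℝ) ^ n * ((T d)^[n] y : ℤ) = 3 ^ ones d y n * y *
      ∏ j ∈ Finset.range n, (if (T d)^[j] y % 2 = 0 then (1 : ℝ)
        else 1 + d / (3 * ((T d)^[j] y : ℤ))) := by
  induction n with
  | zero => simp [ones_zero]
  | succ n ih =>
    have ih' := ih (fun j hj => h0 j (by omega))
    have hn := h0 n (by omega)
    rw [Finset.prod_range_succ, Function.iterate_succ_apply', ones_succ]
    rcases Int.emod_two_eq_zero_or_one ((T d)^[n] y) with he | ho
    · have h1 : (2 : ℝ) * (T d ((T d)^[n] y) : ℤ) = ((T d)^[n] y : ℤ) := by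
        exact_mod_cast T_even (d := d) he
      rw [if_pos he, if_neg (by omega), add_zero, mul_one, ← ih', pow_succ, mul_assoc, h1]
    · have h1 : (2 : ℝ) * (T d ((T d)^[n] y) : ℤ) = 3 * ((T d)^[n] y : ℤ) + d := by
        exact_mod_cast T_odd hd ho
      have h2 : (((T d)^[n] y : ℤ) : ℝ) ≠ 0 := by exact_mod_cast hn
      have h3 : (3 : ℝ) * ((T d)^[n] y : ℤ) + d =
          3 * ((T d)^[n] y : ℤ) * (1 + d / (3 * ((T d)^[n] y : ℤ))) := by
        field_simp
      rw [if_pos ho, if_neg (by omega), pow_succ, mul_assoc, h1, h3, pow_succ]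
      calc (2 : ℝ) ^ n * (3 * ((T d)^[n] y : ℤ) * (1 + d / (3 * ((T d)^[n] y : ℤ))))
          = 3 * (2 ^ n * ((T d)^[n] y : ℤ)) * (1 + d / (3 * ((T d)^[n] y : ℤ))) := by ring
        _ = _ := by rw [ih']; ring

/-- The harmonic sum over `n` different nonzero integers: the integers with `|y| ≤ n` contribute at most
`2 ∑ k = 1, ..., n, 1 / k ≤ 2 (1 + log n)` (`harmonic_le_one_add_log`), the others at most
`n * (1 / n)`. -/
theorem sum_inv_le (s : Finset ℤ) (h : (0 : ℤ) ∉ s) :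
    ∑ y ∈ s, 1 / |(y : ℝ)| ≤ 3 * (1 + Real.log (s.card + 1)) := by
  classical
  set n := s.card with hn
  have hA : ∑ y ∈ s.filter (fun y : ℤ => |y| ≤ n), 1 / |(y : ℝ)| ≤
      2 * (1 + Real.log (n + 1)) := by
    set A : Finset ℤ := (Finset.range n).image (fun i : ℕ => (i : ℤ) + 1) with hAdef
    set B : Finset ℤ := (Finset.range n).image (fun i : ℕ => -((i : ℤ) + 1)) with hBdef
    have hsub : s.filter (fun y : ℤ => |y| ≤ n) ⊆ A ∪ B := by
      intro y hy
      rw [Finset.mem_filter] at hy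
      obtain ⟨hys, hyn⟩ := hy
      have hy0 : y ≠ 0 := fun h0 => h (h0 ▸ hys)
      rw [abs_le] at hyn
      rw [Finset.mem_union, hAdef, hBdef, Finset.mem_image, Finset.mem_image]
      rcases lt_or_gt_of_ne hy0 with hlt | hgt
      · right
        refine ⟨(-y - 1).toNat, ?_, ?_⟩
        · rw [Finset.mem_range]; omega
        · omega
      · left
        refine ⟨(y - 1).toNat, ?_, ?_⟩
        · rw [Finset.mem_range]; omega
        · omega
    have hdisj : Disjoint A B := by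
      rw [Finset.disjoint_left]
      intro y hyA hyB
      rw [hAdef, Finset.mem_image] at hyA
      rw [hBdef, Finset.mem_image] at hyB
      obtain ⟨i, _, hi⟩ := hyA
      obtain ⟨j, _, hj⟩ := hyB
      omega
    have hharm : ∑ i ∈ Finset.range n, 1 / ((i : ℝ) + 1) ≤ 1 + Real.log (n + 1) := by
      have h1 := harmonic_le_one_add_log n
      have h2 : ((harmonic n : ℚ) : ℝ) = ∑ i ∈ Finset.range n, 1 / ((i : ℝ) + 1) := by
        rw [harmonic]
        push_cast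
        exact Finset.sum_congr rfl fun i _ => by rw [one_div]
      rw [← h2]
      refine h1.trans ?_
      have h3 : Real.log n ≤ Real.log (n + 1) := by
        rcases Nat.eq_zero_or_pos n with h0 | h0
        · rw [h0]; simp
        · exact Real.log_le_log (by exact_mod_cast h0) (by linarith)
      linarith
    have hAs : ∑ y ∈ A, 1 / |(y : ℝ)| ≤ 1 + Real.log (n + 1) := by
      rw [hAdef, Finset.sum_image (by intro i _ j _ hij; simpa using hij)]
      refine le_trans (le_of_eq ?_) hharm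
      refine Finset.sum_congr rfl fun i _ => ?_
      push_cast
      rw [abs_of_pos (by positivity)]
    have hBs : ∑ y ∈ B, 1 / |(y : ℝ)| ≤ 1 + Real.log (n + 1) := by
      rw [hBdef, Finset.sum_image (by intro i _ j _ hij; simpa using hij)]
      refine le_trans (le_of_eq ?_) hharm
      refine Finset.sum_congr rfl fun i _ => ?_
      push_cast
      rw [abs_neg, abs_of_pos (by positivity)]
    calc ∑ y ∈ s.filter (fun y : ℤ => |y| ≤ n), 1 / |(y : ℝ)| ≤ ∑ y ∈ A ∪ B, 1 / |(y : ℝ)| :=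
          Finset.sum_le_sum_of_subset_of_nonneg hsub (fun y _ _ => by positivity)
      _ = ∑ y ∈ A, 1 / |(y : ℝ)| + ∑ y ∈ B, 1 / |(y : ℝ)| := Finset.sum_union hdisj
      _ ≤ 2 * (1 + Real.log (n + 1)) := by linarith
  have hB : ∑ y ∈ s.filter (fun y : ℤ => ¬ |y| ≤ n), 1 / |(y : ℝ)| ≤ 1 := by
    have h1 : ∀ y ∈ s.filter (fun y : ℤ => ¬ |y| ≤ n), 1 / |(y : ℝ)| ≤ 1 / ((n : ℝ) + 1) := by
      intro y hy
      rw [Finset.mem_filter, not_le] at hy
      have h2 : (n : ℤ) + 1 ≤ |y| := by omega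
      have h3 : (n : ℝ) + 1 ≤ |(y : ℝ)| := by exact_mod_cast h2
      exact one_div_le_one_div_of_le (by positivity) h3
    have h2 := Finset.sum_le_card_nsmul _ _ _ h1
    refine h2.trans ?_
    have h3 : (((s.filter (fun y : ℤ => ¬ |y| ≤ n)).card : ℕ) : ℝ) ≤ n := by
      exact_mod_cast Finset.card_filter_le _ _
    rw [nsmul_eq_mul, mul_one_div, div_le_one (by positivity)]
    linarith
  have hsplit := Finset.sum_filter_add_sum_filter_not s (fun y : ℤ => |y| ≤ n)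
    (fun y : ℤ => 1 / |(y : ℝ)|)
  have hlog : 0 ≤ Real.log ((n : ℝ) + 1) := Real.log_nonneg (by
    have : (0 : ℝ) ≤ n := Nat.cast_nonneg n
    linarith)
  rw [← hsplit]
  linarith

end Pool.Agent.Lib.MP_d0d59f_nt.Sb

end

section

namespace Pool.Agent.Lib.MP_d0d59f_nt.Sb

open Filter Topology Auto Lin

/-- one factor of the product -/
private theorem RatioB_factor {d z : ℤ} (hz : z ≠ 0) (h3 : 3 * z + d ≠ 0) (hd : d ≠ 0) :
    (1 + (d : ℝ) / (3 * (z : ℝ))) ≠ 0 ∧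
    abs (Real.log |1 + (d : ℝ) / (3 * (z : ℝ))|) ≤
      (if |z| ≤ |d| then Real.log (3 * |(d : ℝ)| + 3) else 0) + |(d : ℝ)| * (1 / |(z : ℝ)|) := by
  have hzR : (z : ℝ) ≠ 0 := by exact_mod_cast hz
  have hz1 : (1 : ℝ) ≤ |(z : ℝ)| := by
    have : (1 : ℤ) ≤ |z| := Int.one_le_abs hz
    exact_mod_cast this
  have hd1 : (1 : ℝ) ≤ |(d : ℝ)| := by
    have : (1 : ℤ) ≤ |d| := Int.one_le_abs hd
    exact_mod_cast this
  have h31 : (1 : ℝ) ≤ |3 * (z : ℝ) + d| := by
    have : (1 : ℤ) ≤ |3 * z + d| := Int.one_le_abs h3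
    exact_mod_cast this
  have hf : 1 + (d : ℝ) / (3 * (z : ℝ)) = (3 * (z : ℝ) + d) / (3 * (z : ℝ)) := by
    field_simp
  have hne : (1 + (d : ℝ) / (3 * (z : ℝ))) ≠ 0 := by
    rw [hf]
    refine div_ne_zero ?_ (by positivity)
    intro h
    rw [h, abs_zero] at h31
    linarith
  refine ⟨hne, ?_⟩
  have hnn : 0 ≤ |(d : ℝ)| * (1 / |(z : ℝ)|) := by positivity
  have habs : |(d : ℝ) / (3 * (z : ℝ))| = |(d : ℝ)| / (3 * |(z : ℝ)|) := by
    rw [abs_div, abs_mul]
    norm_num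
  split_ifs with hzd
  · have hzd' : |(z : ℝ)| ≤ |(d : ℝ)| := by exact_mod_cast hzd
    have hup : |1 + (d : ℝ) / (3 * (z : ℝ))| ≤ 3 * |(d : ℝ)| + 3 := by
      have h1 : |1 + (d : ℝ) / (3 * (z : ℝ))| ≤ 1 + |(d : ℝ)| / (3 * |(z : ℝ)|) := by
        have := abs_add_le (1 : ℝ) ((d : ℝ) / (3 * (z : ℝ)))
        rw [abs_one, habs] at this
        exact this
      have h2 : |(d : ℝ)| / (3 * |(z : ℝ)|) ≤ |(d : ℝ)| := by
        rw [div_le_iff₀ (by positivity)]
        nlinarith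
      linarith
    have hlo : (3 * |(d : ℝ)| + 3)⁻¹ ≤ |1 + (d : ℝ) / (3 * (z : ℝ))| := by
      have h1 : |1 + (d : ℝ) / (3 * (z : ℝ))| = |3 * (z : ℝ) + d| / (3 * |(z : ℝ)|) := by
        rw [hf, abs_div, abs_mul]
        norm_num
      rw [h1, inv_eq_one_div]
      rw [div_le_div_iff₀ (by positivity) (by positivity)]
      nlinarith
    have hpos : 0 < |1 + (d : ℝ) / (3 * (z : ℝ))| := abs_pos.2 hne
    have h1 : Real.log |1 + (d : ℝ) / (3 * (z : ℝ))| ≤ Real.log (3 * |(d : ℝ)| + 3) :=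
      Real.log_le_log hpos hup
    have h2 : -Real.log (3 * |(d : ℝ)| + 3) ≤ Real.log |1 + (d : ℝ) / (3 * (z : ℝ))| := by
      rw [← Real.log_inv]
      exact Real.log_le_log (by positivity) hlo
    have h3 : abs (Real.log |1 + (d : ℝ) / (3 * (z : ℝ))|) ≤ Real.log (3 * |(d : ℝ)| + 3) :=
      abs_le.2 ⟨h2, h1⟩
    linarith
  · rw [zero_add]
    have hzd' : |(d : ℝ)| < |(z : ℝ)| := by exact_mod_cast not_le.1 hzd
    have hu : |(d : ℝ) / (3 * (z : ℝ))| ≤ 1 / 3 := by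
      rw [habs, div_le_div_iff₀ (by positivity) (by norm_num)]
      nlinarith
    obtain ⟨hu1, hu2⟩ := abs_le.1 hu
    have hpos : 0 < 1 + (d : ℝ) / (3 * (z : ℝ)) := by linarith
    rw [abs_of_pos hpos]
    have h1 : Real.log (1 + (d : ℝ) / (3 * (z : ℝ))) ≤ (d : ℝ) / (3 * (z : ℝ)) := by
      have := Real.log_le_sub_one_of_pos hpos
      linarith
    have h2 : 1 - (1 + (d : ℝ) / (3 * (z : ℝ)))⁻¹ ≤ Real.log (1 + (d : ℝ) / (3 * (z : ℝ))) :=
      Real.one_sub_inv_le_log_of_pos hpos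
    have h4 : -(3 * |(d : ℝ) / (3 * (z : ℝ))|) ≤ 1 - (1 + (d : ℝ) / (3 * (z : ℝ)))⁻¹ := by
      have h5 : 1 - (1 + (d : ℝ) / (3 * (z : ℝ)))⁻¹ =
          ((d : ℝ) / (3 * (z : ℝ))) / (1 + (d : ℝ) / (3 * (z : ℝ))) := by
        rw [eq_div_iff hpos.ne', sub_mul, inv_mul_cancel₀ hpos.ne']
        ring
      rw [h5, le_div_iff₀ hpos]
      have h6 := neg_abs_le ((d : ℝ) / (3 * (z : ℝ)))
      nlinarith [abs_nonneg ((d : ℝ) / (3 * (z : ℝ)))]
    have h6 := le_abs_self ((d : ℝ) / (3 * (z : ℝ)))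
    have h7 : 3 * |(d : ℝ) / (3 * (z : ℝ))| = |(d : ℝ)| * (1 / |(z : ℝ)|) := by
      rw [habs]
      field_simp
    rw [abs_le, ← h7]
    constructor
    · linarith
    · linarith [abs_nonneg ((d : ℝ) / (3 * (z : ℝ)))]

/-- Let `y` have no coincidences up to distance `Q ≥ 1`, `n ≤ Q`. The elements `y_j = (T d)^[j] y`,
`j < n`, are different and not zero (`NoPer.ne_zero`). By `ratio_prod` it is enough to bound the
logarithms `|log |1 + d / (3 y_j)||` over the odd `y_j`, `j < n`. Here `3 y_j + d = 2 y_{j+1} ≠ 0`. For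
`|y_j| ≤ |d|` (at most `2 |d| + 1` values of `j`): `1 / (3 |d|) ≤ |1 + d / (3 y_j)| ≤ 1 + |d|`. For
`|y_j| > |d|`: `u = d / (3 y_j)` satisfies `|u| ≤ 1 / 3`, so `|log (1 + u)| ≤ 2 |u| ≤ |d| / |y_j|`, and the
sum of these is bounded by `sum_inv_le`. Take `C = (2 |d| + 1) log (3 |d| + 3) + 3 |d|`. -/
theorem ratio_bound {d : ℤ} (hd : Odd d) : ∃ C : ℝ, 0 < C ∧ ∀ (y : ℤ) (Q n : ℕ), NoPer d y Q →
    1 ≤ Q → n ≤ Q →
    |(2 : ℝ) ^ n * ((T d)^[n] y : ℤ)| ≤
        3 ^ ones d y n * |(y : ℝ)| * Real.exp (C * (1 + Real.log (n + 1))) ∧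
      3 ^ ones d y n * |(y : ℝ)| ≤
        |(2 : ℝ) ^ n * ((T d)^[n] y : ℤ)| * Real.exp (C * (1 + Real.log (n + 1))) := by
  have hd0 : d ≠ 0 := by
    rintro rfl
    exact absurd hd (by decide)
  have hd1 : (1 : ℝ) ≤ |(d : ℝ)| := by
    have : (1 : ℤ) ≤ |d| := Int.one_le_abs hd0
    exact_mod_cast this
  have hL : 0 ≤ Real.log (3 * |(d : ℝ)| + 3) := Real.log_nonneg (by linarith)
  refine ⟨(2 * |(d : ℝ)| + 1) * Real.log (3 * |(d : ℝ)| + 3) + 3 * |(d : ℝ)|, by positivity, ?_⟩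
  intro y Q n hy hQ hnQ
  set C : ℝ := (2 * |(d : ℝ)| + 1) * Real.log (3 * |(d : ℝ)| + 3) + 3 * |(d : ℝ)| with hC
  have hn0 : ∀ j, (T d)^[j] y ≠ 0 := fun j => hy.ne_zero hQ j
  have hinj : Set.InjOn (fun j => (T d)^[j] y) (Finset.range n : Set ℕ) := by
    have hlt : ∀ i j : ℕ, i < j → j < n → (T d)^[j] y ≠ (T d)^[i] y := by
      intro i j hij hj
      have := hy i (j - i) (by omega) (by omega)
      rwa [show i + (j - i) = j by omega] at this
    intro i hi j hj hij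
    have hi' : i < n := by simpa using hi
    have hj' : j < n := by simpa using hj
    have hij' : (T d)^[i] y = (T d)^[j] y := hij
    rcases lt_trichotomy i j with h | h | h
    · exact absurd hij'.symm (hlt i j h hj')
    · exact h
    · exact absurd hij' (hlt j i h hi')
  set f : ℕ → ℝ := fun j => if (T d)^[j] y % 2 = 0 then (1 : ℝ)
        else 1 + d / (3 * ((T d)^[j] y : ℤ)) with hf
  have hfj : ∀ j, f j ≠ 0 ∧ abs (Real.log |f j|) ≤
      (if |(T d)^[j] y| ≤ |d| then Real.log (3 * |(d : ℝ)| + 3) else 0) +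
        |(d : ℝ)| * (1 / |(((T d)^[j] y : ℤ) : ℝ)|) := by
    intro j
    have hT0 := hn0 j
    have hT1 := hn0 (j + 1)
    rw [Function.iterate_succ_apply'] at hT1
    simp only [hf]
    split_ifs with h1 h2 h2
    · refine ⟨one_ne_zero, ?_⟩
      rw [abs_one, Real.log_one, abs_zero]
      positivity
    · refine ⟨one_ne_zero, ?_⟩
      rw [abs_one, Real.log_one, abs_zero]
      positivity
    · have hodd : (T d)^[j] y % 2 = 1 := by omega
      have h3 : 3 * (T d)^[j] y + d ≠ 0 := by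
        have := T_odd hd hodd
        omega
      have := RatioB_factor hT0 h3 hd0
      rw [if_pos h2] at this
      exact this
    · have hodd : (T d)^[j] y % 2 = 1 := by omega
      have h3 : 3 * (T d)^[j] y + d ≠ 0 := by
        have := T_odd hd hodd
        omega
      have := RatioB_factor hT0 h3 hd0
      rw [if_neg h2] at this
      exact this
  have hprod := ratio_prod hd n (fun j _ => hn0 j)
  have hP0 : ∏ j ∈ Finset.range n, f j ≠ 0 := Finset.prod_ne_zero_iff.2 fun j _ => (hfj j).1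
  have hlogP : Real.log |∏ j ∈ Finset.range n, f j| = ∑ j ∈ Finset.range n, Real.log |f j| := by
    rw [Finset.abs_prod, Real.log_prod]
    intro j _
    exact abs_ne_zero.2 (hfj j).1
  have hs1 : ∑ j ∈ Finset.range n,
      (if |(T d)^[j] y| ≤ |d| then Real.log (3 * |(d : ℝ)| + 3) else 0) ≤
        (2 * |(d : ℝ)| + 1) * Real.log (3 * |(d : ℝ)| + 3) := by
    rw [← Finset.sum_filter, Finset.sum_const, nsmul_eq_mul]
    refine mul_le_mul_of_nonneg_right ?_ hL
    have h1 : ((Finset.range n).filter fun j => |(T d)^[j] y| ≤ |d|).card ≤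
        (Finset.Icc (-|d|) |d|).card := by
      refine Finset.card_le_card_of_injOn (fun j => (T d)^[j] y) ?_ ?_
      · intro j hj
        have hj' : j ∈ (Finset.range n).filter fun j => |(T d)^[j] y| ≤ |d| := hj
        rw [Finset.mem_filter] at hj'
        have h2 := abs_le.1 hj'.2
        simp only [Finset.coe_Icc, Set.mem_Icc]
        exact h2
      · refine hinj.mono ?_
        intro j hj
        have hj' : j ∈ (Finset.range n).filter fun j => |(T d)^[j] y| ≤ |d| := hj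
        rw [Finset.mem_filter] at hj'
        exact hj'.1
    have h2 : ((Finset.Icc (-|d|) |d|).card : ℤ) = 2 * |d| + 1 := by
      rw [Int.card_Icc, Int.toNat_of_nonneg (by have := abs_nonneg d; omega)]
      ring
    have h3 : ((Finset.Icc (-|d|) |d|).card : ℝ) = 2 * |(d : ℝ)| + 1 := by exact_mod_cast h2
    rw [← h3]
    exact_mod_cast h1
  have hs2 : ∑ j ∈ Finset.range n, |(d : ℝ)| * (1 / |(((T d)^[j] y : ℤ) : ℝ)|) ≤
      |(d : ℝ)| * (3 * (1 + Real.log (n + 1))) := by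
    rw [← Finset.mul_sum]
    refine mul_le_mul_of_nonneg_left ?_ (abs_nonneg _)
    have h1 : ∑ j ∈ Finset.range n, (1 / |(((T d)^[j] y : ℤ) : ℝ)|) =
        ∑ z ∈ (Finset.range n).image (fun j => (T d)^[j] y), 1 / |(z : ℝ)| := by
      rw [Finset.sum_image hinj]
    rw [h1]
    have h2 := sum_inv_le ((Finset.range n).image (fun j => (T d)^[j] y)) (by
      rw [Finset.mem_image]
      rintro ⟨j, -, hj⟩
      exact hn0 j hj)
    rw [Finset.card_image_of_injOn hinj, Finset.card_range] at h2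
    exact h2
  have hlog0 : 0 ≤ Real.log ((n : ℝ) + 1) := Real.log_nonneg (by linarith [Nat.cast_nonneg (α := ℝ) n])
  have hbound : abs (Real.log |∏ j ∈ Finset.range n, f j|) ≤ C * (1 + Real.log (n + 1)) := by
    rw [hlogP]
    refine (Finset.abs_sum_le_sum_abs _ _).trans ?_
    refine (Finset.sum_le_sum fun j _ => (hfj j).2).trans ?_
    rw [Finset.sum_add_distrib]
    have h4 : (2 * |(d : ℝ)| + 1) * Real.log (3 * |(d : ℝ)| + 3) ≤
        (2 * |(d : ℝ)| + 1) * Real.log (3 * |(d : ℝ)| + 3) * (1 + Real.log (n + 1)) := by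
      refine le_mul_of_one_le_right (by positivity) (by linarith)
    rw [hC, add_mul]
    linarith
  obtain ⟨hb1, hb2⟩ := abs_le.1 hbound
  have hPpos : 0 < |∏ j ∈ Finset.range n, f j| := abs_pos.2 hP0
  have hPle : |∏ j ∈ Finset.range n, f j| ≤ Real.exp (C * (1 + Real.log (n + 1))) :=
    (Real.log_le_iff_le_exp hPpos).1 hb2
  have hPge : 1 ≤ |∏ j ∈ Finset.range n, f j| * Real.exp (C * (1 + Real.log (n + 1))) := by
    have h5 : Real.exp (-(C * (1 + Real.log (n + 1)))) ≤ |∏ j ∈ Finset.range n, f j| :=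
      (Real.le_log_iff_exp_le hPpos).1 hb1
    rw [Real.exp_neg] at h5
    have h6 : 0 < Real.exp (C * (1 + Real.log (n + 1))) := Real.exp_pos _
    calc (1 : ℝ) = (Real.exp (C * (1 + Real.log (n + 1))))⁻¹ * Real.exp (C * (1 + Real.log (n + 1))) :=
          (inv_mul_cancel₀ h6.ne').symm
      _ ≤ _ := mul_le_mul_of_nonneg_right h5 h6.le
  have habs : |(2 : ℝ) ^ n * ((T d)^[n] y : ℤ)| =
      3 ^ ones d y n * |(y : ℝ)| * |∏ j ∈ Finset.range n, f j| := by
    rw [hprod, abs_mul, abs_mul, abs_of_pos (by positivity : (0 : ℝ) < 3 ^ ones d y n)]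
  rw [habs]
  have h0 : 0 ≤ (3 : ℝ) ^ ones d y n * |(y : ℝ)| := by positivity
  constructor
  · exact mul_le_mul_of_nonneg_left hPle h0
  · calc (3 : ℝ) ^ ones d y n * |(y : ℝ)| = 3 ^ ones d y n * |(y : ℝ)| * 1 := (mul_one _).symm
      _ ≤ 3 ^ ones d y n * |(y : ℝ)| *
          (|∏ j ∈ Finset.range n, f j| * Real.exp (C * (1 + Real.log (n + 1)))) :=
        mul_le_mul_of_nonneg_left hPge h0
      _ = _ := by ring

end Pool.Agent.Lib.MP_d0d59f_nt.Sb

end

section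

namespace Pool.Agent.Lib.MP_d0d59f_nt.Sb

open Filter Topology Auto Lin

theorem ratio_gval_zero (d y : ℤ) : gval d y 0 = 0 := by
  simp [gval, shift_zero]

theorem ratio_gval_succ {d : ℤ} (hd : Odd d) (y : ℤ) (n : ℕ) :
    |((gval d y (n + 1) : ℚ) : ℝ)| ≤
      |((gval d y n : ℚ) : ℝ)| + |(d : ℝ)| * (2 ^ n / 3 ^ ones d y n) := by
  have h3 : (3 : ℝ) ^ ones d y n ≠ 0 := by positivity
  have h0 : (0 : ℝ) ≤ |(d : ℝ)| * (2 ^ n / 3 ^ ones d y n) := by positivity
  by_cases h : (T d)^[n] y % 2 = 1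
  · have h1 : ((gval d y (n + 1) : ℚ) : ℝ) =
        ((gval d y n : ℚ) : ℝ) - d * (2 ^ n / 3 ^ ones d y n) / 3 := by
      unfold gval
      rw [shift_succ hd, ones_succ, if_pos h, if_pos h]
      push_cast
      rw [pow_succ]
      field_simp
      ring
    rw [h1]
    have h2 : |(d : ℝ) * (2 ^ n / 3 ^ ones d y n) / 3| ≤
        |(d : ℝ)| * (2 ^ n / 3 ^ ones d y n) := by
      rw [abs_div, abs_mul, abs_of_nonneg (a := (2 : ℝ) ^ n / 3 ^ ones d y n) (by positivity),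
        abs_of_pos (by norm_num : (0 : ℝ) < 3)]
      linarith
    calc |((gval d y n : ℚ) : ℝ) - d * (2 ^ n / 3 ^ ones d y n) / 3|
        ≤ |((gval d y n : ℚ) : ℝ)| + |(d : ℝ) * (2 ^ n / 3 ^ ones d y n) / 3| := abs_sub _ _
      _ ≤ _ := by linarith
  · have h1 : gval d y (n + 1) = gval d y n := by
      unfold gval
      rw [shift_succ hd, ones_succ, if_neg h, if_neg h, add_zero]
    rw [h1]
    linarith

/-- `gval d y n = - (1 / 3 ^ ones d y n) * shift d y n`, and by induction on `n` (`shift_succ`, `ones_succ`)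
`|gval d y n| ≤ ∑ j < n, |d| * 2 ^ j / 3 ^ ones d y j`; by `ratio_bound` (for `y`, `j`)
`2 ^ j / 3 ^ ones d y j ≤ |y| / |y_j| * exp (C (1 + log (j + 1)))`, and `|y_j| ≥ A` by hypothesis. -/
theorem abs_gval_le {d : ℤ} (hd : Odd d) : ∃ C : ℝ, 0 < C ∧ ∀ (y : ℤ) (Q n : ℕ) (A : ℝ),
    NoPer d y Q → 1 ≤ Q → n ≤ Q → 0 < A → (∀ j < n, A ≤ |((T d)^[j] y : ℝ)|) →
    |((gval d y n : ℚ) : ℝ)| ≤ n * |(y : ℝ)| / A * Real.exp (C * (1 + Real.log (n + 1))) := by
  obtain ⟨C, hC, hr⟩ := ratio_bound hd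
  refine ⟨C + |(d : ℝ)|, by positivity, ?_⟩
  intro y Q N A hN hQ hNQ hA hlow
  have hlog : (0 : ℝ) ≤ Real.log (N + 1) := Real.log_nonneg (by
    have : (0 : ℝ) ≤ N := Nat.cast_nonneg N
    linarith)
  set E : ℝ := Real.exp (C * (1 + Real.log (N + 1))) with hE
  have hE0 : 0 < E := Real.exp_pos _
  -- the terms
  have hterm : ∀ j < N, (2 : ℝ) ^ j / 3 ^ ones d y j ≤ |(y : ℝ)| / A * E := by
    intro j hj
    have h3 : (0 : ℝ) < 3 ^ ones d y j := by positivity
    have h1 := (hr y Q j hN hQ (by omega)).1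
    have h2 : |(2 : ℝ) ^ j * ((T d)^[j] y : ℤ)| = 2 ^ j * |((T d)^[j] y : ℝ)| := by
      rw [abs_mul, abs_of_pos (by positivity : (0 : ℝ) < 2 ^ j)]
    rw [h2] at h1
    have h4 : Real.exp (C * (1 + Real.log (j + 1))) ≤ E := by
      rw [hE]
      apply Real.exp_le_exp.2
      apply mul_le_mul_of_nonneg_left _ hC.le
      have h5 : Real.log ((j : ℝ) + 1) ≤ Real.log (N + 1) := by
        apply Real.log_le_log
        · positivity
        · have : (j : ℝ) ≤ N := by exact_mod_cast hj.le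
          linarith
      linarith
    have h5 : (2 : ℝ) ^ j * A ≤ 3 ^ ones d y j * |(y : ℝ)| * E := by
      calc (2 : ℝ) ^ j * A ≤ 2 ^ j * |((T d)^[j] y : ℝ)| :=
            mul_le_mul_of_nonneg_left (hlow j hj) (by positivity)
        _ ≤ 3 ^ ones d y j * |(y : ℝ)| * Real.exp (C * (1 + Real.log (j + 1))) := h1
        _ ≤ 3 ^ ones d y j * |(y : ℝ)| * E := mul_le_mul_of_nonneg_left h4 (by positivity)
    rw [div_le_iff₀ h3]
    have h6 : |(y : ℝ)| / A * E * 3 ^ ones d y j = (3 ^ ones d y j * |(y : ℝ)| * E) / A := by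
      ring
    rw [h6, le_div_iff₀ hA]
    exact h5
  have hind : ∀ n ≤ N, |((gval d y n : ℚ) : ℝ)| ≤ n * (|(d : ℝ)| * (|(y : ℝ)| / A * E)) := by
    intro n
    induction n with
    | zero => intro _; rw [ratio_gval_zero]; simp
    | succ n ih =>
      intro hn
      have h1 := ih (by omega)
      have h2 := ratio_gval_succ hd y n
      have h3 := mul_le_mul_of_nonneg_left (hterm n (by omega)) (abs_nonneg (d : ℝ))
      push_cast
      linarith
  have h1 := hind N le_rfl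
  have hexp : |(d : ℝ)| * E ≤ Real.exp ((C + |(d : ℝ)|) * (1 + Real.log (N + 1))) := by
    rw [add_mul, Real.exp_add, ← hE, mul_comm]
    refine mul_le_mul_of_nonneg_left ?_ hE0.le
    calc |(d : ℝ)| ≤ |(d : ℝ)| + 1 := by linarith
      _ ≤ Real.exp |(d : ℝ)| := Real.add_one_le_exp _
      _ ≤ _ := by
        apply Real.exp_le_exp.2
        nlinarith [abs_nonneg (d : ℝ)]
  calc |((gval d y N : ℚ) : ℝ)| ≤ N * (|(d : ℝ)| * (|(y : ℝ)| / A * E)) := h1
    _ = N * |(y : ℝ)| / A * (|(d : ℝ)| * E) := by ring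
    _ ≤ _ := mul_le_mul_of_nonneg_left hexp (by positivity)

end Pool.Agent.Lib.MP_d0d59f_nt.Sb

end

section

namespace Pool.Agent.Lib.MP_d0d59f_nt.Sb

open Filter Topology Auto Lin

/-- At one level: let `I` be a set of positions below `S n` with
`2 |(T d)^[i] x| < 2 ^ n`, without coincidences up to `S n`: then `card I ≤ complexity d x n`
(`dvd_of_factor_eq`: positions with equal factors of length `n` have equal elements). -/
theorem card_small_le {d : ℤ} (hd : Odd d) {x : ℤ} {Q n : ℕ} (hx : NoPer d x Q) (I : Finset ℕ)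
    (hI : ∀ i ∈ I, i ≤ Q) (hs : ∀ i ∈ I, 2 * |(T d)^[i] x| < 2 ^ n) :
    I.card ≤ complexity d x n := by
  classical
  have key : ∀ i ∈ I, ∀ j ∈ I, i < j → factor d x n i ≠ factor d x n j := by
    intro i hi j hj hij hf
    have hdvd := dvd_of_factor_eq hd hf
    have h1 := hs i hi
    have h2 := hs j hj
    have h3 : |(T d)^[i] x - (T d)^[j] x| < 2 ^ n := by
      have := abs_sub ((T d)^[i] x) ((T d)^[j] x)
      linarith
    have h4 := Int.eq_zero_of_abs_lt_dvd hdvd h3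
    have h5 : (T d)^[i + (j - i)] x = (T d)^[i] x := by
      rw [Nat.add_sub_cancel' hij.le]
      linarith
    exact hx i (j - i) (by omega) ((Nat.sub_le _ _).trans (hI j hj)) h5
  have hinj : Set.InjOn (factor d x n) (I : Set ℕ) := by
    intro i hi j hj hf
    rcases lt_trichotomy i j with h | h | h
    · exact absurd hf (key i hi j hj h)
    · exact h
    · exact absurd hf.symm (key j hj i hi h)
  have h6 : (I.image (factor d x n)).card = I.card := Finset.card_image_of_injOn hinj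
  rw [← h6, complexity, ← Set.ncard_coe_finset]
  refine Set.ncard_le_ncard ?_ (range_factor_finite d x n)
  intro f hf
  rw [Finset.coe_image] at hf
  obtain ⟨i, _, rfl⟩ := hf
  exact ⟨i, rfl⟩

/-- After a very small element all the elements are small for `n / 4` steps:
`|T^k y| ≤ (3 / 2) ^ k (|y| + |d|) ≤ 2 ^ (0.6 k) * 2 ^ (n / 4 + 1)`. -/
theorem small_run {d : ℤ} (hd : Odd d) : ∃ n₀ : ℕ, ∀ n ≥ n₀, ∀ (y : ℤ) (k : ℕ), 4 * k ≤ n →
    |(y : ℝ)| ≤ (2 : ℝ) ^ ((n : ℝ) / 4) → 2 * |(T d)^[k] y| < 2 ^ n := by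
  refine ⟨4 * (2 * (1 + d.natAbs)), ?_⟩
  intro n hn y k hk hy
  set A : ℝ := (2 : ℝ) ^ ((n : ℝ) / 4) with hA
  have hA4 : A ^ 4 = 2 ^ n := by
    rw [hA, ← Real.rpow_natCast, ← Real.rpow_mul (by norm_num)]
    rw [show (n : ℝ) / 4 * ((4 : ℕ) : ℝ) = (n : ℝ) by push_cast; ring, Real.rpow_natCast]
  have hA1 : 1 ≤ A := Real.one_le_rpow (by norm_num) (by positivity)
  have hd0 : (0 : ℝ) ≤ |(d : ℝ)| := abs_nonneg _
  have hbig : 2 * (1 + |(d : ℝ)|) < A := by
    have h1 : ((2 * (1 + d.natAbs) : ℕ) : ℝ) ≤ (n : ℝ) / 4 := by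
      rw [le_div_iff₀ (by norm_num)]
      have : ((4 * (2 * (1 + d.natAbs)) : ℕ) : ℝ) ≤ (n : ℝ) := by exact_mod_cast hn
      push_cast at this ⊢
      linarith
    have h2 : (2 : ℝ) ^ (((2 * (1 + d.natAbs) : ℕ) : ℝ)) ≤ A :=
      Real.rpow_le_rpow_of_exponent_le (by norm_num) h1
    rw [Real.rpow_natCast] at h2
    have h3 : ((2 * (1 + d.natAbs) : ℕ) : ℝ) < 2 ^ (2 * (1 + d.natAbs)) := by
      exact_mod_cast Nat.lt_two_pow_self
    have h4 : ((2 * (1 + d.natAbs) : ℕ) : ℝ) = 2 * (1 + |(d : ℝ)|) := by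
      push_cast
      rw [Nat.cast_natAbs, Int.cast_abs]
    rw [← h4]
    exact lt_of_lt_of_le h3 h2
  have hk4 : (4 : ℝ) ^ k ≤ A ^ 2 := by
    rw [hA, ← Real.rpow_natCast _ 2, ← Real.rpow_mul (by norm_num),
      show (4 : ℝ) = 2 ^ 2 by norm_num, ← pow_mul, ← Real.rpow_natCast]
    refine Real.rpow_le_rpow_of_exponent_le (by norm_num) ?_
    have : ((4 * k : ℕ) : ℝ) ≤ n := by exact_mod_cast hk
    push_cast at this ⊢
    linarith
  have h1 := abs_iterate_le hd y k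
  have h2 : (3 : ℝ) ^ (ones d y k) ≤ 4 ^ k := by
    calc (3 : ℝ) ^ (ones d y k) ≤ 3 ^ k := pow_le_pow_right₀ (by norm_num) (ones_le d y k)
      _ ≤ 4 ^ k := pow_le_pow_left₀ (by norm_num) (by norm_num) k
  have h3 : |(y : ℝ)| / 2 ^ k ≤ A := by
    refine le_trans (div_le_self (abs_nonneg _) (one_le_pow₀ (by norm_num))) hy
  have h4 : |((T d)^[k] y : ℝ)| ≤ A ^ 2 * (A + |(d : ℝ)|) := by
    refine h1.trans ?_
    refine mul_le_mul (h2.trans hk4) (by linarith) (by positivity) (by positivity)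
  have h5 : A ^ 2 * (A + |(d : ℝ)|) ≤ A ^ 3 * (1 + |(d : ℝ)|) := by
    have : A ^ 2 * |(d : ℝ)| ≤ A ^ 2 * (A * |(d : ℝ)|) := by
      refine mul_le_mul_of_nonneg_left ?_ (by positivity)
      nlinarith
    nlinarith
  have h6 : 2 * |((T d)^[k] y : ℝ)| < 2 ^ n := by
    rw [← hA4]
    have hA3 : 0 < A ^ 3 := by positivity
    have : A ^ 3 * (2 * (1 + |(d : ℝ)|)) < A ^ 3 * A := mul_lt_mul_of_pos_left hbig hA3
    nlinarith
  exact_mod_cast h6

end Pool.Agent.Lib.MP_d0d59f_nt.Sb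

end

section

namespace Pool.Agent.Lib.MP_d0d59f_nt.Sb

open Filter Topology Auto Lin

/-- a small element in the `k`-th block of length `L` -/
def LargeBad (d x : ℤ) (L k : ℕ) : Prop :=
  ∃ n : ℕ, k * L ≤ n ∧ n < (k + 1) * L ∧ |((T d)^[n] x : ℝ)| < (2 : ℝ) ^ ((L : ℝ) / 4)

theorem Large_aux {d : ℤ} (hd : Odd d) {x : ℤ} {L R n₀ : ℕ} (hn₀ : ∀ n ≥ n₀, ∀ (y : ℤ) (k : ℕ),
    4 * k ≤ n → |(y : ℝ)| ≤ (2 : ℝ) ^ ((n : ℝ) / 4) → 2 * |(T d)^[k] y| < 2 ^ n) (hL : n₀ ≤ L)
    (hL0 : 0 < L) (K : Finset ℕ) {S : ℕ} (hS : ∀ k ∈ K, k ≤ S)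
    (hK : ∀ k ∈ K, ∀ k' ∈ K, k < k' → k + 2 ≤ k') (hc : 4 * R + 1 ≤ K.card)
    (hx : NoPer d x ((S + 2) * L)) (hcomp : complexity d x L ≤ R * L)
    (hbad : ∀ k ∈ K, LargeBad d x L k) : False := by
  classical
  have hch : ∀ k : ℕ, ∃ n : ℕ, k ∈ K → (k * L ≤ n ∧ n < (k + 1) * L ∧
      |((T d)^[n] x : ℝ)| < (2 : ℝ) ^ ((L : ℝ) / 4)) := by
    intro k
    by_cases hk : k ∈ K
    · obtain ⟨n, hn⟩ := hbad k hk
      exact ⟨n, fun _ => hn⟩
    · exact ⟨0, fun h => absurd h hk⟩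
  choose ν hν using hch
  let f : ℕ × ℕ → ℕ := fun p => p.2 + ν p.1
  have hlt : ∀ k ∈ K, ∀ k' ∈ K, k < k' → ∀ j j', j ≤ L / 4 → j + ν k < j' + ν k' := by
    intro k hk k' hk' hkk j j' hj
    have h1 := (hν k hk).2.1
    have h2 := (hν k' hk').1
    have h3 := hK k hk k' hk' hkk
    have h4 : (k + 2) * L ≤ k' * L := Nat.mul_le_mul_right L h3
    have h5 : (k + 2) * L = (k + 1) * L + L := by ring
    have h6 : L / 4 ≤ L := Nat.div_le_self L 4
    omega
  have hinj : Set.InjOn f ((K ×ˢ Finset.range (L / 4 + 1) : Finset (ℕ × ℕ)) : Set (ℕ × ℕ)) := by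
    rintro ⟨k, j⟩ hp ⟨k', j'⟩ hp' heq
    rw [Finset.mem_coe, Finset.mem_product, Finset.mem_range] at hp hp'
    simp only [f] at hp hp' heq
    rcases lt_trichotomy k k' with h | h | h
    · have := hlt k hp.1 k' hp'.1 h j j' (by omega)
      omega
    · subst h
      have : j = j' := by omega
      rw [this]
    · have := hlt k' hp'.1 k hp.1 h j' j (by omega)
      omega
  have hcardI : ((K ×ˢ Finset.range (L / 4 + 1)).image f).card = K.card * (L / 4 + 1) := by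
    rw [Finset.card_image_of_injOn hinj, Finset.card_product, Finset.card_range]
  have hle := card_small_le hd (x := x) (Q := (S + 2) * L) (n := L) hx
    ((K ×ˢ Finset.range (L / 4 + 1)).image f)
    (by
      intro i hi
      obtain ⟨⟨k, j⟩, hp, rfl⟩ := Finset.mem_image.1 hi
      rw [Finset.mem_product, Finset.mem_range] at hp
      simp only [f] at hp ⊢
      have h1 := (hν k hp.1).2.1
      have h3 := hS k hp.1
      have h4 : (k + 2) * L ≤ (S + 2) * L := Nat.mul_le_mul_right L (by omega)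
      have h5 : (k + 2) * L = (k + 1) * L + L := by ring
      have h6 : L / 4 ≤ L := Nat.div_le_self L 4
      omega)
    (by
      intro i hi
      obtain ⟨⟨k, j⟩, hp, rfl⟩ := Finset.mem_image.1 hi
      rw [Finset.mem_product, Finset.mem_range] at hp
      simp only [f] at hp ⊢
      rw [Function.iterate_add_apply]
      exact hn₀ L hL _ j (by omega) (hν k hp.1).2.2.le)
  rw [hcardI] at hle
  have h1 := hle.trans hcomp
  have h2 : (4 * R + 1) * (L / 4 + 1) ≤ K.card * (L / 4 + 1) := Nat.mul_le_mul_right _ hc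
  have h3 : (4 * R + 1) * (L / 4 + 1) ≤ R * L := h2.trans h1
  have h4 : L ≤ 4 * (L / 4 + 1) := by omega
  have h5 : R * L ≤ R * (4 * (L / 4 + 1)) := Nat.mul_le_mul_left R h4
  have h6 : (4 * R + 1) * (L / 4 + 1) = R * (4 * (L / 4 + 1)) + (L / 4 + 1) := by ring
  omega

/-- Proof. For `k : ℕ` let `Q k` be the assertion that for almost all `m` (ultrafilter) there is
`n ∈ [k L m, (k + 1) L m)` with `|(T d)^[n] (x m)| < 2 ^ (L m / 4)`. If `Q k` holds for more than
`10 (R + 1)` numbers `k ≤ S`, then it holds for more than `5 (R + 1)` numbers of the same parity; for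
almost all `m` choose the corresponding positions `n_k`; the intervals `[n_k, n_k + L m / 4]` are
disjoint for different `k` of the same parity (`n_k < (k + 1) L m`, `n_{k+2} ≥ (k + 2) L m`), and by
`small_run` all their elements are small, so there are more than `5 (R + 1) (L m / 4) > R L m` small
positions below `(S + 2) L m`, contrary to `card_small_le` and `complexity ≤ R L m` (for
`L m` large, `L m / 4` the integral part plus one). So `Q k` holds for finitely many `k` only, and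
`¬ Q k` for all `k ≥ k₀` means (ultrafilter) that for almost all `m` all the elements with
`n ∈ [k L m, (k + 1) L m)` are at least `2 ^ (L m / 4)`; take the intersection over
`k₀ ≤ k ≤ S`. -/
theorem eventually_large {d : ℤ} (hd : Odd d) {x : ℕ → ℤ} {L : ℕ → ℕ} {R : ℕ}
    (h : Family d x L R) : ∃ k₀ : ℕ, ∀ S : ℕ, ∀ᶠ m in (hyperfilter ℕ : Filter ℕ), ∀ n : ℕ,
      k₀ * L m ≤ n → n ≤ S * L m → (2 : ℝ) ^ ((L m : ℝ) / 4) ≤ |((T d)^[n] (x m) : ℝ)| := by
  classical
  obtain ⟨n₀, hn₀⟩ := small_run hd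
  have hyp : ∀ {p : ℕ → Prop}, (∀ᶠ m in atTop, p m) → ∀ᶠ m in (hyperfilter ℕ : Filter ℕ), p m :=
    fun hp => Nat.hyperfilter_le_atTop hp
  -- no large families of bad blocks
  have hno : ∀ K : Finset ℕ, (∀ k ∈ K, ∀ k' ∈ K, k < k' → k + 2 ≤ k') → 4 * R + 1 ≤ K.card →
      ¬ ∀ k ∈ K, ∀ᶠ m in (hyperfilter ℕ : Filter ℕ), LargeBad d (x m) (L m) k := by
    intro K hK hc hall
    have hev : ∀ᶠ m in (hyperfilter ℕ : Filter ℕ), ∀ k ∈ K, LargeBad d (x m) (L m) k :=
      (Filter.eventually_all_finset K).2 hall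
    have hev2 := hyp (h.noPer (K.sup id + 2))
    have hev3 := hyp h.compl
    have hev4 := hyp (h.tend.eventually_ge_atTop (n₀ + 1))
    obtain ⟨m, h1, h2, h3, h4⟩ := (hev.and (hev2.and (hev3.and hev4))).exists
    exact Large_aux hd hn₀ (by omega) (by omega) K (S := K.sup id)
      (fun k hk => Finset.le_sup (f := id) hk) hK hc h2 h3 h1
  have hfin : {k : ℕ | ∀ᶠ m in (hyperfilter ℕ : Filter ℕ), LargeBad d (x m) (L m) k}.Finite := by
    by_contra hinf
    have hinf' : {k : ℕ | ∀ᶠ m in (hyperfilter ℕ : Filter ℕ), LargeBad d (x m) (L m) k}.Infinite :=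
      hinf
    set A := {k : ℕ | ∀ᶠ m in (hyperfilter ℕ : Filter ℕ), LargeBad d (x m) (L m) k} with hA
    have hpar : ∀ r : ℕ, {k | k ∈ A ∧ k % 2 = r}.Finite := by
      intro r
      by_contra hi
      obtain ⟨K, hKsub, hKc⟩ := Set.Infinite.exists_subset_card_eq
        (s := {k | k ∈ A ∧ k % 2 = r}) hi (4 * R + 1)
      refine hno K ?_ hKc.ge (fun k hk => (hKsub hk).1)
      intro k hk k' hk' hlt
      have h1 := (hKsub hk).2
      have h2 := (hKsub hk').2
      omega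
    refine hinf' (((hpar 0).union (hpar 1)).subset ?_)
    intro k hk
    rcases Nat.mod_two_eq_zero_or_one k with h0 | h0
    · exact Or.inl ⟨hk, h0⟩
    · exact Or.inr ⟨hk, h0⟩
  obtain ⟨k₀, hk₀⟩ := hfin.bddAbove
  refine ⟨k₀ + 1, fun S => ?_⟩
  have hgood : ∀ k ∈ Finset.Icc (k₀ + 1) S, ∀ᶠ m in (hyperfilter ℕ : Filter ℕ),
      ¬ LargeBad d (x m) (L m) k := by
    intro k hk
    rw [Finset.mem_Icc] at hk
    rw [Ultrafilter.eventually_not]
    intro hb
    have := hk₀ (show k ∈ {k : ℕ | ∀ᶠ m in (hyperfilter ℕ : Filter ℕ), LargeBad d (x m) (L m) k}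
      from hb)
    omega
  have hev : ∀ᶠ m in (hyperfilter ℕ : Filter ℕ), ∀ k ∈ Finset.Icc (k₀ + 1) S,
      ¬ LargeBad d (x m) (L m) k := (Filter.eventually_all_finset _).2 hgood
  have hev4 := hyp (h.tend.eventually_ge_atTop 1)
  filter_upwards [hev, hev4] with m h1 h2 n hn1 hn2
  by_contra hlt
  rw [not_le] at hlt
  have hLpos : 0 < L m := h2
  refine h1 (n / L m) ?_ ⟨n, Nat.div_mul_le_self n (L m), ?_, hlt⟩
  · rw [Finset.mem_Icc]
    refine ⟨(Nat.le_div_iff_mul_le hLpos).2 hn1, ?_⟩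
    exact (Nat.div_le_div_right hn2).trans (by rw [Nat.mul_div_cancel _ hLpos])
  · rw [mul_comm]
    exact Nat.lt_mul_div_succ n hLpos

end Pool.Agent.Lib.MP_d0d59f_nt.Sb

end

section

namespace Pool.Agent.Lib.MP_d0d59f_nt.Sb

open Filter Topology Auto Lin

variable {d : ℤ} {x : ℕ → ℤ} {L : ℕ → ℕ} {K : ℕ} {g : Fin K → ℕ → ℚ} {P : ℕ → ℕ → ℕ}
  {c : ℕ → Fin K → ℕ → ℚ} {α β : ℕ → ℕ → ℚ} {δ : ℝ}

theorem Terms_abs_le_ht (q : ℚ) : |(q : ℝ)| ≤ (ht q : ℝ) := by
  have h1 : |(q : ℝ)| = |((q.num : ℤ) : ℝ)| / (q.den : ℝ) := by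
    conv_lhs => rw [← Rat.num_div_den q]
    push_cast
    rw [abs_div, Nat.abs_cast]
  have h2 : (1 : ℝ) ≤ (q.den : ℝ) := by exact_mod_cast q.pos
  rw [h1]
  calc |((q.num : ℤ) : ℝ)| / (q.den : ℝ) ≤ |((q.num : ℤ) : ℝ)| :=
        div_le_self (abs_nonneg _) h2
    _ = ((q.num.natAbs : ℕ) : ℝ) := by
        rw [← Int.cast_abs, Int.abs_eq_natAbs]
        exact Int.cast_natCast _
    _ ≤ (ht q : ℝ) := by
        exact_mod_cast le_max_left _ _

/-- logarithms of linear functions are small -/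
theorem Terms_log_small (a b ε : ℝ) (hb : 0 ≤ b) (hε : 0 < ε) :
    ∀ᶠ l : ℝ in atTop, |a| * (1 + Real.log (b * l + 2)) ≤ ε * l := by
  have h0 : 0 < |a| + 1 := by positivity
  have hδ : 0 < ε / (2 * (|a| + 1)) := by positivity
  have h1 := (Real.isLittleO_log_id_atTop.def hδ)
  have h2 : ∀ᶠ l : ℝ in atTop, |a| * (1 + Real.log (b + 2)) ≤ ε / 2 * l := by
    filter_upwards [eventually_ge_atTop (|a| * (1 + Real.log (b + 2)) / (ε / 2))] with l hl
    rw [div_le_iff₀ (by positivity)] at hl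
    linarith
  filter_upwards [h1, h2, eventually_ge_atTop 1] with l hl1 hl2 hl3
  have h3 : Real.log (b * l + 2) ≤ Real.log (b + 2) + Real.log l := by
    rw [← Real.log_mul (by positivity) (by positivity)]
    refine Real.log_le_log (by positivity) ?_
    nlinarith
  simp only [id, Real.norm_eq_abs] at hl1
  rw [abs_of_nonneg (Real.log_nonneg hl3), abs_of_nonneg (by linarith : (0:ℝ) ≤ l)] at hl1
  have h4 : |a| * Real.log l ≤ ε / 2 * l := by
    calc |a| * Real.log l ≤ |a| * (ε / (2 * (|a| + 1)) * l) :=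
          mul_le_mul_of_nonneg_left hl1 (abs_nonneg _)
      _ = (|a| / (|a| + 1)) * (ε / 2 * l) := by field_simp
      _ ≤ 1 * (ε / 2 * l) := by
          refine mul_le_mul_of_nonneg_right ?_ (by positivity)
          rw [div_le_one h0]
          linarith
      _ = ε / 2 * l := one_mul _
  calc |a| * (1 + Real.log (b * l + 2)) ≤ |a| * (1 + (Real.log (b + 2) + Real.log l)) :=
        mul_le_mul_of_nonneg_left (by linarith) (abs_nonneg _)
    _ = |a| * (1 + Real.log (b + 2)) + |a| * Real.log l := by ring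
    _ ≤ ε * l := by linarith

/-- the bound for `2 ^ N / 3 ^ ones` along an orbit of the family -/
theorem Terms_ratio (hd : Odd d) {R : ℕ} (hF : Family d x L R) (h : Data2 d x L g P c α β δ)
    (i : ℕ) {ε : ℝ} (hε : 0 < ε) :
    ∀ᶠ m in (hyperfilter ℕ : Filter ℕ),
      (2 : ℝ) ^ (P i m - P 0 m) / 3 ^ ones d ((T d)^[P 0 m] (x m)) (P i m - P 0 m) *
        |((T d)^[P i m] (x m) : ℝ)| ≤
      |((T d)^[P 0 m] (x m) : ℝ)| * Real.exp (ε * L m) := by
  obtain ⟨C, hC, hrb⟩ := ratio_bound hd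
  obtain ⟨C1, hC1⟩ := h.P_le i
  have hL : Tendsto (fun m => (L m : ℝ)) (hyperfilter ℕ) atTop :=
    (tendsto_natCast_atTop_atTop.comp hF.tend).mono_left Nat.hyperfilter_le_atTop
  have hsmall := hL.eventually (Terms_log_small C |C1| ε (abs_nonneg _) hε)
  have hL1 := hL.eventually (eventually_ge_atTop 1)
  have hnp := (hF.noPer (⌈|C1|⌉₊ + 1)).filter_mono Nat.hyperfilter_le_atTop
  filter_upwards [hC1, hsmall, hL1, hnp, h.zero_le i] with m h1 h2 h3 h4 h5
  set N := P i m - P 0 m with hN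
  have e2 : (T d)^[N] ((T d)^[P 0 m] (x m)) = (T d)^[P i m] (x m) := by
    rw [← Function.iterate_add_apply]
    congr 1
    omega
  have hPi : (P i m : ℝ) ≤ |C1| * L m :=
    h1.trans (mul_le_mul_of_nonneg_right (le_abs_self _) (by positivity))
  have hNR : (N : ℝ) ≤ |C1| * L m := by
    refine le_trans ?_ hPi
    exact_mod_cast Nat.sub_le _ _
  have hNQ : N ≤ (⌈|C1|⌉₊ + 1) * L m := by
    have h6 : (N : ℝ) ≤ (((⌈|C1|⌉₊ + 1) * L m : ℕ) : ℝ) := by
      push_cast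
      refine hNR.trans (mul_le_mul_of_nonneg_right ?_ (by positivity))
      have := Nat.le_ceil |C1|
      linarith
    exact_mod_cast h6
  have hLm : 1 ≤ L m := by exact_mod_cast h3
  have hQ1 : 1 ≤ (⌈|C1|⌉₊ + 1) * L m := by nlinarith
  obtain ⟨r1, -⟩ := hrb ((T d)^[P 0 m] (x m)) ((⌈|C1|⌉₊ + 1) * L m) N (h4.shift _) hQ1 hNQ
  rw [e2] at r1
  have h7 : Real.exp (C * (1 + Real.log (N + 1))) ≤ Real.exp (ε * L m) := by
    refine Real.exp_le_exp.mpr (le_trans ?_ h2)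
    rw [abs_of_pos hC]
    refine mul_le_mul_of_nonneg_left ?_ hC.le
    have : Real.log ((N : ℝ) + 1) ≤ Real.log (|C1| * L m + 2) :=
      Real.log_le_log (by positivity) (by linarith)
    linarith
  have h8 : |(2 : ℝ) ^ N * ((T d)^[P i m] (x m) : ℤ)| =
      2 ^ N * |((T d)^[P i m] (x m) : ℝ)| := by
    rw [abs_mul, abs_of_pos (by positivity)]
  rw [h8] at r1
  have h9 : (0 : ℝ) < 3 ^ ones d ((T d)^[P 0 m] (x m)) N := by positivity
  rw [div_mul_eq_mul_div, div_le_iff₀ h9]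
  refine r1.trans ?_
  calc (3 : ℝ) ^ ones d ((T d)^[P 0 m] (x m)) N * |(((T d)^[P 0 m] (x m) : ℤ) : ℝ)| *
        Real.exp (C * (1 + Real.log (N + 1)))
      ≤ (3 : ℝ) ^ ones d ((T d)^[P 0 m] (x m)) N * |(((T d)^[P 0 m] (x m) : ℤ) : ℝ)| *
        Real.exp (ε * L m) := mul_le_mul_of_nonneg_left h7 (by positivity)
    _ = |((T d)^[P 0 m] (x m) : ℝ)| * Real.exp (ε * L m) *
        3 ^ ones d ((T d)^[P 0 m] (x m)) N := by ring

/-- the case of a coefficient of small height -/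
theorem Terms_small (hd : Odd d) {R : ℕ} (hF : Family d x L R) (h : Data2 d x L g P c α β δ)
    (hl : ∀ i, ∀ᶠ m in (hyperfilter ℕ : Filter ℕ), ∀ n : ℕ, P 0 m ≤ n → n ≤ P i m →
      (2 : ℝ) ^ ((L m : ℝ) / 4) ≤ |((T d)^[n] (x m) : ℝ)|) (i : ℕ) {ε : ℝ} (hε : 0 < ε)
    (q : ℕ → ℚ) (hq : ∀ ε : ℝ, 0 < ε → ∀ᶠ m in (hyperfilter ℕ : Filter ℕ),
      (ht (q m) : ℝ) ≤ (1 + ε) ^ L m) :
    ∀ᶠ m in (hyperfilter ℕ : Filter ℕ),
      |((q m : ℚ) : ℝ)| * ((2 : ℝ) ^ (P i m - P 0 m) /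
        3 ^ ones d ((T d)^[P 0 m] (x m)) (P i m - P 0 m)) ≤
      |((T d)^[P 0 m] (x m) : ℝ)| * Real.exp ((ε - Real.log 2 / 4) * L m) := by
  filter_upwards [Terms_ratio hd hF h i (half_pos hε), hq (ε / 2) (half_pos hε), hl i,
    h.zero_le i] with m h1 h2 h3 h4
  have hz := h3 (P i m) h4 le_rfl
  have hA : (2 : ℝ) ^ ((L m : ℝ) / 4) = Real.exp (Real.log 2 / 4 * L m) := by
    rw [Real.rpow_def_of_pos (by norm_num)]
    congr 1
    ring
  rw [hA] at hz
  have hq1 : |((q m : ℚ) : ℝ)| ≤ Real.exp (ε / 2 * L m) := by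
    refine (Terms_abs_le_ht (q m)).trans (h2.trans ?_)
    calc (1 + ε / 2) ^ L m ≤ (Real.exp (ε / 2)) ^ L m :=
          pow_le_pow_left₀ (by positivity) (by linarith [Real.add_one_le_exp (ε / 2)]) _
      _ = Real.exp (ε / 2 * L m) := by rw [← Real.exp_nat_mul]; congr 1; ring
  set W : ℝ := (2 : ℝ) ^ (P i m - P 0 m) /
        3 ^ ones d ((T d)^[P 0 m] (x m)) (P i m - P 0 m) with hW
  have hW0 : 0 ≤ W := by positivity
  have h5 : W * Real.exp (Real.log 2 / 4 * L m) ≤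
      |((T d)^[P 0 m] (x m) : ℝ)| * Real.exp (ε / 2 * L m) :=
    (mul_le_mul_of_nonneg_left hz hW0).trans h1
  have h6 : W ≤ |((T d)^[P 0 m] (x m) : ℝ)| * Real.exp ((ε / 2 - Real.log 2 / 4) * L m) := by
    have h7 : Real.exp ((ε / 2 - Real.log 2 / 4) * L m) =
        Real.exp (ε / 2 * L m) / Real.exp (Real.log 2 / 4 * L m) := by
      rw [← Real.exp_sub]; congr 1; ring
    rw [h7, ← mul_div_assoc, le_div_iff₀ (Real.exp_pos _)]
    exact h5
  calc |((q m : ℚ) : ℝ)| * W ≤ Real.exp (ε / 2 * L m) *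
        (|((T d)^[P 0 m] (x m) : ℝ)| * Real.exp ((ε / 2 - Real.log 2 / 4) * L m)) :=
        mul_le_mul hq1 h6 hW0 (Real.exp_pos _).le
    _ = |((T d)^[P 0 m] (x m) : ℝ)| * (Real.exp (ε / 2 * L m) *
        Real.exp ((ε / 2 - Real.log 2 / 4) * L m)) := by ring
    _ = _ := by rw [← Real.exp_add]; congr 2; ring

/-- the case of a block constant -/
theorem Terms_gval (hd : Odd d) {R : ℕ} (hF : Family d x L R) (h : Data2 d x L g P c α β δ)
    (hl : ∀ i, ∀ᶠ m in (hyperfilter ℕ : Filter ℕ), ∀ n : ℕ, P 0 m ≤ n → n ≤ P i m →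
      (2 : ℝ) ^ ((L m : ℝ) / 4) ≤ |((T d)^[n] (x m) : ℝ)|) (i : ℕ) {ε : ℝ} (hε : 0 < ε) :
    ∀ᶠ m in (hyperfilter ℕ : Filter ℕ),
      |((gval d ((T d)^[P i m] (x m)) (P (i + 1) m - P i m) : ℚ) : ℝ)| *
        ((2 : ℝ) ^ (P i m - P 0 m) /
        3 ^ ones d ((T d)^[P 0 m] (x m)) (P i m - P 0 m)) ≤
      |((T d)^[P 0 m] (x m) : ℝ)| * Real.exp ((ε - Real.log 2 / 4) * L m) := by
  obtain ⟨C, hC, hgv⟩ := abs_gval_le hd
  obtain ⟨C1, hC1⟩ := h.P_le (i + 1)
  have hL : Tendsto (fun m => (L m : ℝ)) (hyperfilter ℕ) atTop :=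
    (tendsto_natCast_atTop_atTop.comp hF.tend).mono_left Nat.hyperfilter_le_atTop
  have hsmall := hL.eventually (Terms_log_small (C + 1) |C1| (ε / 2) (abs_nonneg _) (half_pos hε))
  have hL1 := hL.eventually (eventually_ge_atTop 1)
  have hnp := (hF.noPer (⌈|C1|⌉₊ + 1)).filter_mono Nat.hyperfilter_le_atTop
  filter_upwards [hC1, hsmall, hL1, hnp, h.zero_le i, hl (i + 1), h.P_mono i,
    Terms_ratio hd hF h i (half_pos hε)] with m h1 h2 h3 h4 h5 h6 h7 h8
  set n := P (i + 1) m - P i m with hn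
  have hPi : (P (i + 1) m : ℝ) ≤ |C1| * L m :=
    h1.trans (mul_le_mul_of_nonneg_right (le_abs_self _) (by positivity))
  have hnR : (n : ℝ) ≤ |C1| * L m := by
    refine le_trans ?_ hPi
    exact_mod_cast Nat.sub_le _ _
  have hnQ : n ≤ (⌈|C1|⌉₊ + 1) * L m := by
    have h6 : (n : ℝ) ≤ (((⌈|C1|⌉₊ + 1) * L m : ℕ) : ℝ) := by
      push_cast
      refine hnR.trans (mul_le_mul_of_nonneg_right ?_ (by positivity))
      have := Nat.le_ceil |C1|
      linarith
    exact_mod_cast h6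
  have hLm : 1 ≤ L m := by exact_mod_cast h3
  have hQ1 : 1 ≤ (⌈|C1|⌉₊ + 1) * L m := by nlinarith
  have hA : (2 : ℝ) ^ ((L m : ℝ) / 4) = Real.exp (Real.log 2 / 4 * L m) := by
    rw [Real.rpow_def_of_pos (by norm_num)]
    congr 1
    ring
  have hA0 : (0 : ℝ) < (2 : ℝ) ^ ((L m : ℝ) / 4) := by positivity
  have hg := hgv ((T d)^[P i m] (x m)) ((⌈|C1|⌉₊ + 1) * L m) n ((2 : ℝ) ^ ((L m : ℝ) / 4))
    (h4.shift _) hQ1 hnQ hA0 (by
      intro j hj
      have h9 := h6 (j + P i m) (by omega) (by omega)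
      rw [Function.iterate_add_apply] at h9
      exact h9)
  set W : ℝ := (2 : ℝ) ^ (P i m - P 0 m) /
        3 ^ ones d ((T d)^[P 0 m] (x m)) (P i m - P 0 m) with hW
  have hW0 : 0 ≤ W := by positivity
  set z : ℝ := |((T d)^[P i m] (x m) : ℝ)| with hz
  set y : ℝ := |((T d)^[P 0 m] (x m) : ℝ)| with hy
  have hlog0 : 0 ≤ Real.log ((n : ℝ) + 1) := Real.log_nonneg (by
    have : (0:ℝ) ≤ n := by positivity
    linarith)
  -- `n * exp (C (1 + log (n + 1))) ≤ exp (ε / 2 * L)`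
  have h10 : (n : ℝ) * Real.exp (C * (1 + Real.log (n + 1))) ≤ Real.exp (ε / 2 * L m) := by
    have h11 : (n : ℝ) ≤ Real.exp (1 + Real.log (n + 1)) := by
      rw [Real.exp_add, Real.exp_log (by positivity)]
      have : (1 : ℝ) ≤ Real.exp 1 := Real.one_le_exp zero_le_one
      nlinarith [(by positivity : (0:ℝ) ≤ n)]
    calc (n : ℝ) * Real.exp (C * (1 + Real.log (n + 1)))
        ≤ Real.exp (1 + Real.log (n + 1)) * Real.exp (C * (1 + Real.log (n + 1))) :=
          mul_le_mul_of_nonneg_right h11 (Real.exp_pos _).le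
      _ = Real.exp ((C + 1) * (1 + Real.log (n + 1))) := by
          rw [← Real.exp_add]; congr 1; ring
      _ ≤ Real.exp (ε / 2 * L m) := by
          refine Real.exp_le_exp.mpr (le_trans ?_ h2)
          rw [abs_of_pos (by positivity)]
          refine mul_le_mul_of_nonneg_left ?_ (by positivity)
          have : Real.log ((n : ℝ) + 1) ≤ Real.log (|C1| * L m + 2) :=
            Real.log_le_log (by positivity) (by linarith)
          linarith
  have h12 : (n : ℝ) * z / (2 : ℝ) ^ ((L m : ℝ) / 4) * Real.exp (C * (1 + Real.log (n + 1))) =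
      (n * Real.exp (C * (1 + Real.log (n + 1)))) * z / (2 : ℝ) ^ ((L m : ℝ) / 4) := by ring
  rw [h12] at hg
  have hz0 : 0 ≤ z := abs_nonneg _
  calc |((gval d ((T d)^[P i m] (x m)) n : ℚ) : ℝ)| * W
      ≤ ((n * Real.exp (C * (1 + Real.log (n + 1)))) * z / (2 : ℝ) ^ ((L m : ℝ) / 4)) * W :=
        mul_le_mul_of_nonneg_right hg hW0
    _ ≤ (Real.exp (ε / 2 * L m) * z / (2 : ℝ) ^ ((L m : ℝ) / 4)) * W := by
        refine mul_le_mul_of_nonneg_right ?_ hW0
        refine div_le_div_of_nonneg_right ?_ hA0.le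
        exact mul_le_mul_of_nonneg_right h10 hz0
    _ = (Real.exp (ε / 2 * L m) / (2 : ℝ) ^ ((L m : ℝ) / 4)) * (W * z) := by ring
    _ ≤ (Real.exp (ε / 2 * L m) / (2 : ℝ) ^ ((L m : ℝ) / 4)) * (y * Real.exp (ε / 2 * L m)) :=
        mul_le_mul_of_nonneg_left h8 (by positivity)
    _ = y * (Real.exp (ε / 2 * L m) * Real.exp (ε / 2 * L m) / (2 : ℝ) ^ ((L m : ℝ) / 4)) := by
        ring
    _ = y * Real.exp ((ε - Real.log 2 / 4) * L m) := by
        rw [hA, ← Real.exp_add, ← Real.exp_sub]; congr 2; ring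

/-- Let `y = (T d)^[P 0 m] (x m)`, `i = (t + 1) / 2`, `N = P i m - P 0 m`,
`z = (T d)^[N] y = (T d)^[P i m] (x m)`, `A = 2 ^ (L m / 4)`. By `ratio_bound`
`2 ^ N / 3 ^ ones d y N ≤ |y| / |z| * exp (C (1 + log (N + 1)))`, and `|z| ≥ A`. For `t` odd the
coefficient is `β (t / 2) m`, with `|β| ≤ ht β ≤ (1 + ε') ^ L m`. For `t = 2 i`: the coefficient is
`∑ a, g a m * c i a m + α i m`; if all `c i a m = 0` it is `α i m` (as for `β`); else (`kind`) it is
`gval d z (P (i + 1) m - P i m)`, of absolute value at most `n |z| / A * exp (..)`,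
`n = P (i + 1) m - P i m` (`abs_gval_le`), so the term is at most
`n |y| / A * exp (C (1 + log (N + 1)) + C' (1 + log (n + 1)))`. All `N, n` are at most a constant times
`L m`, so `n`, `exp (C (1 + log (N + 1)))` are at most `exp (ε' L m)` for almost all `m`. -/
theorem term_le (hd : Odd d) {R : ℕ} (hF : Family d x L R) (h : Data2 d x L g P c α β δ)
    (hl : ∀ i, ∀ᶠ m in (hyperfilter ℕ : Filter ℕ), ∀ n : ℕ, P 0 m ≤ n → n ≤ P i m →
      (2 : ℝ) ^ ((L m : ℝ) / 4) ≤ |((T d)^[n] (x m) : ℝ)|) (t : ℕ) {ε : ℝ} (hε : 0 < ε) :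
    ∀ᶠ m in (hyperfilter ℕ : Filter ℕ),
      |(((∑ a, gOne g a m * coef c α β t a m) *
          (2 ^ expA P t m / 3 ^ expB2 d x P t m) : ℚ) : ℝ)| ≤
        |((T d)^[P 0 m] (x m) : ℝ)| * Real.exp ((ε - Real.log 2 / 4) * L m) := by
  rcases Nat.even_or_odd' t with ⟨i, rfl | rfl⟩
  · -- even
    have hi : (2 * i + 1) / 2 = i := by omega
    filter_upwards [Terms_small hd hF h hl i hε (α i) (h.ht_α i), Terms_gval hd hF h hl i hε,
      h.kind i] with m h1 h2 h3
    have hsum : ∑ a, gOne g a m * coef c α β (2 * i) a m =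
        ∑ b, g b m * c i b m + α i m := by
      simp only [ident_coef_even]
      exact ident_sum_snoc g _ _ m
    have hcast : ∀ q : ℚ, |((q * (2 ^ expA P (2 * i) m / 3 ^ expB2 d x P (2 * i) m) : ℚ) : ℝ)| =
        |(q : ℝ)| * ((2 : ℝ) ^ (P i m - P 0 m) /
        3 ^ ones d ((T d)^[P 0 m] (x m)) (P i m - P 0 m)) := by
      intro q
      simp only [expA, expB2, hi]
      push_cast
      rw [abs_mul]
      congr 1
      exact abs_of_nonneg (by positivity)
    rw [hsum, hcast]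
    rcases h3 with h3 | ⟨h3, h4⟩
    · have h5 : ∑ b, g b m * c i b m = 0 := Finset.sum_eq_zero fun b _ => by rw [h3 b, mul_zero]
      rw [h5, zero_add]
      exact h1
    · rw [h3, add_zero, h4]
      exact h2
  · -- odd
    have hi : (2 * i + 1 + 1) / 2 = i + 1 := by omega
    filter_upwards [Terms_small hd hF h hl (i + 1) hε (β i) (h.ht_β i)] with m h1
    have hsum : ∑ a, gOne g a m * coef c α β (2 * i + 1) a m = β i m := by
      simp only [ident_coef_odd]
      rw [ident_sum_snoc]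
      simp
    rw [hsum]
    have hcast : |((β i m * (2 ^ expA P (2 * i + 1) m /
        3 ^ expB2 d x P (2 * i + 1) m) : ℚ) : ℝ)| =
        |(β i m : ℝ)| * ((2 : ℝ) ^ (P (i + 1) m - P 0 m) /
        3 ^ ones d ((T d)^[P 0 m] (x m)) (P (i + 1) m - P 0 m)) := by
      simp only [expA, expB2, hi]
      push_cast
      rw [abs_mul]
      congr 1
      exact abs_of_nonneg (by positivity)
    rw [hcast]
    exact h1

end Pool.Agent.Lib.MP_d0d59f_nt.Sb

end
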