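import Mathlib

/-!
Norms and Hasse derivatives of polynomials in several variables.
-/

section

namespace Pool.Agent.Lib.MP_d0d59f_nt.Sb

open MvPolynomial

/-- `∑ |p_e| r ^ e` -/
noncomputable def pnorm {τ : Type} [Fintype τ] (a : AbsoluteValue ℚ ℝ) (r : τ → ℝ)
    (p : MvPolynomial τ ℚ) : ℝ :=
  ∑ e ∈ p.support, a (coeff e p) * ∏ i, r i ^ e i

variable {τ σ : Type} [Fintype τ] [Fintype σ] {a : AbsoluteValue ℚ ℝ} {r : τ → ℝ}

theorem pnorm_nonneg (hr : ∀ i, 0 ≤ r i) (p : MvPolynomial τ ℚ) : 0 ≤ pnorm a r p :=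
  Finset.sum_nonneg fun _ _ => mul_nonneg (a.nonneg _) (Finset.prod_nonneg fun i _ =>
    pow_nonneg (hr i) _)

/-- the sum may be extended to a larger finite set -/
theorem pnorm_eq_sum {p : MvPolynomial τ ℚ} {s : Finset (τ →₀ ℕ)} (h : p.support ⊆ s) :
    pnorm a r p = ∑ e ∈ s, a (coeff e p) * ∏ i, r i ^ e i := by
  unfold pnorm
  refine Finset.sum_subset h fun e _ he => ?_
  rw [notMem_support_iff.mp he, map_zero, zero_mul]

theorem pnorm_add_le (hr : ∀ i, 0 ≤ r i) (p q : MvPolynomial τ ℚ) :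
    pnorm a r (p + q) ≤ pnorm a r p + pnorm a r q := by
  classical
  rw [pnorm_eq_sum (p := p + q) (s := p.support ∪ q.support) support_add,
    pnorm_eq_sum (p := p) (s := p.support ∪ q.support) Finset.subset_union_left,
    pnorm_eq_sum (p := q) (s := p.support ∪ q.support) Finset.subset_union_right,
    ← Finset.sum_add_distrib]
  refine Finset.sum_le_sum fun e _ => ?_
  rw [← add_mul, coeff_add]
  exact mul_le_mul_of_nonneg_right (a.add_le _ _) (Finset.prod_nonneg fun i _ =>
    pow_nonneg (hr i) _)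

theorem pnorm_sum_le (hr : ∀ i, 0 ≤ r i) {ι : Type} (s : Finset ι) (p : ι → MvPolynomial τ ℚ) :
    pnorm a r (∑ i ∈ s, p i) ≤ ∑ i ∈ s, pnorm a r (p i) := by
  classical
  induction s using Finset.induction_on with
  | empty => simp [pnorm]
  | insert i s hi ih =>
    rw [Finset.sum_insert hi, Finset.sum_insert hi]
    exact (pnorm_add_le hr _ _).trans (add_le_add le_rfl ih)

theorem pnormA_monomial (e : τ →₀ ℕ) (c : ℚ) :
    pnorm a r (monomial e c) = a c * ∏ i, r i ^ e i := by
  classical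
  rw [pnorm_eq_sum (p := monomial e c) (s := {e}) support_monomial_subset, Finset.sum_singleton,
    coeff_monomial, if_pos rfl]

theorem pnorm_monomial (hr : ∀ i, 0 ≤ r i) (e : τ →₀ ℕ) (c : ℚ) :
    pnorm a r (monomial e c) = a c * ∏ i, r i ^ e i :=
  pnormA_monomial e c

theorem pnorm_C (c : ℚ) : pnorm a r (C c : MvPolynomial τ ℚ) = a c := by
  have h := pnormA_monomial (a := a) (r := r) 0 c
  simpa using h

theorem pnorm_X [DecidableEq τ] (i : τ) : pnorm a r (X i : MvPolynomial τ ℚ) = r i := by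
  have h := pnormA_monomial (a := a) (r := r) (Finsupp.single i 1) 1
  rw [a.map_one, one_mul] at h
  have h2 : (X i : MvPolynomial τ ℚ) = monomial (Finsupp.single i 1) 1 := rfl
  rw [h2, h, Finset.prod_eq_single i]
  · rw [Finsupp.single_eq_same, pow_one]
  · intro j _ hj
    rw [Finsupp.single_eq_of_ne (by simpa using hj), pow_zero]
  · intro hi
    exact absurd (Finset.mem_univ i) hi

theorem pnorm_mul_le (hr : ∀ i, 0 ≤ r i) (p q : MvPolynomial τ ℚ) :
    pnorm a r (p * q) ≤ pnorm a r p * pnorm a r q := by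
  have h : p * q = ∑ e ∈ p.support, ∑ f ∈ q.support,
      monomial (e + f) (coeff e p * coeff f q) := by
    conv_lhs => rw [p.as_sum, q.as_sum, Finset.sum_mul_sum]
    refine Finset.sum_congr rfl fun e _ => Finset.sum_congr rfl fun f _ => ?_
    rw [monomial_mul]
  rw [h]
  refine (pnorm_sum_le hr _ _).trans ?_
  have h2 : pnorm a r p * pnorm a r q = ∑ e ∈ p.support, ∑ f ∈ q.support,
      (a (coeff e p) * ∏ i, r i ^ e i) * (a (coeff f q) * ∏ i, r i ^ f i) := by
    unfold pnorm
    rw [Finset.sum_mul_sum]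
  rw [h2]
  refine Finset.sum_le_sum fun e _ => (pnorm_sum_le hr _ _).trans ?_
  refine Finset.sum_le_sum fun f _ => le_of_eq ?_
  rw [pnormA_monomial, map_mul]
  have h3 : ∏ i, r i ^ (e + f) i = (∏ i, r i ^ e i) * ∏ i, r i ^ f i := by
    rw [← Finset.prod_mul_distrib]
    refine Finset.prod_congr rfl fun i _ => ?_
    rw [Finsupp.add_apply, pow_add]
  rw [h3]
  ring

theorem pnorm_pow_le (hr : ∀ i, 0 ≤ r i) (p : MvPolynomial τ ℚ) (n : ℕ) :
    pnorm a r (p ^ n) ≤ pnorm a r p ^ n := by
  induction n with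
  | zero =>
    rw [pow_zero, pow_zero]
    have := pnorm_C (τ := τ) (a := a) (r := r) 1
    rw [map_one, map_one] at this
    exact this.le
  | succ n ih =>
    rw [pow_succ, pow_succ]
    exact (pnorm_mul_le hr _ _).trans (mul_le_mul_of_nonneg_right ih (pnorm_nonneg hr _))

theorem pnorm_prod_le (hr : ∀ i, 0 ≤ r i) {ι : Type} (s : Finset ι) (p : ι → MvPolynomial τ ℚ) :
    pnorm a r (∏ i ∈ s, p i) ≤ ∏ i ∈ s, pnorm a r (p i) := by
  classical
  induction s using Finset.induction_on with
  | empty =>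
    rw [Finset.prod_empty, Finset.prod_empty]
    have := pnorm_C (τ := τ) (a := a) (r := r) 1
    rw [map_one, map_one] at this
    exact this.le
  | insert i s hi ih =>
    rw [Finset.prod_insert hi, Finset.prod_insert hi]
    exact (pnorm_mul_le hr _ _).trans (mul_le_mul_of_nonneg_left ih (pnorm_nonneg hr _))

end Pool.Agent.Lib.MP_d0d59f_nt.Sb

end

section

namespace Pool.Agent.Lib.MP_d0d59f_nt.Sb

open MvPolynomial

variable {τ σ : Type} [Fintype τ] [Fintype σ] {a : AbsoluteValue ℚ ℝ} {r : τ → ℝ}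

theorem coeff_le_pnorm (hr : ∀ i, 0 ≤ r i) (p : MvPolynomial τ ℚ) (e : τ →₀ ℕ) :
    a (coeff e p) * ∏ i, r i ^ e i ≤ pnorm a r p := by
  by_cases he : e ∈ p.support
  · unfold pnorm
    exact Finset.single_le_sum (f := fun e => a (coeff e p) * ∏ i, r i ^ e i)
      (fun i _ => mul_nonneg (a.nonneg _) (Finset.prod_nonneg fun j _ => pow_nonneg (hr j) _)) he
  · rw [notMem_support_iff] at he
    rw [he, map_zero, zero_mul]
    exact pnorm_nonneg hr p

/-- substitution -/
theorem pnorm_aeval_le (hr : ∀ i, 0 ≤ r i) (f : σ → MvPolynomial τ ℚ) (p : MvPolynomial σ ℚ) :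
    pnorm a r (aeval f p) ≤ pnorm a (fun i => pnorm a r (f i)) p := by
  have h1 : aeval f p = ∑ e ∈ p.support, C (coeff e p) * ∏ i, f i ^ e i := by
    conv_lhs => rw [p.as_sum]
    rw [map_sum]
    refine Finset.sum_congr rfl fun e _ => ?_
    rw [aeval_monomial, Finsupp.prod_fintype _ _ (by intro i; simp)]
    rfl
  rw [h1]
  refine (pnorm_sum_le hr _ _).trans ?_
  conv_rhs => unfold pnorm
  refine Finset.sum_le_sum fun e _ => ?_
  refine (pnorm_mul_le hr _ _).trans ?_
  rw [pnorm_C]
  refine mul_le_mul_of_nonneg_left ?_ (a.nonneg _)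
  refine (pnorm_prod_le hr _ _).trans ?_
  exact Finset.prod_le_prod (fun i _ => pnorm_nonneg hr _) (fun i _ => pnorm_pow_le hr _ _)

theorem pnorm_mono (h : ∀ i, 0 ≤ r i) {r' : τ → ℝ} (h' : ∀ i, r i ≤ r' i) (p : MvPolynomial τ ℚ) :
    pnorm a r p ≤ pnorm a r' p := by
  unfold pnorm
  refine Finset.sum_le_sum fun e _ => ?_
  refine mul_le_mul_of_nonneg_left ?_ (a.nonneg _)
  exact Finset.prod_le_prod (fun i _ => pow_nonneg (h i) _)
    (fun i _ => pow_le_pow_left₀ (h i) (h' i) _)

theorem pnormAux_neg_le (hr : ∀ i, 0 ≤ r i) (p : MvPolynomial τ ℚ) :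
    pnorm a r (-p) ≤ pnorm a r p := by
  have h1 : -p = C (-1) * p := by
    rw [C_neg, C_1, neg_one_mul]
  rw [h1]
  refine (pnorm_mul_le hr _ _).trans ?_
  rw [pnorm_C, map_neg_eq_map, map_one, one_mul]

/-- the determinant: `Matrix.det_apply` -/
theorem pnorm_det_le (hr : ∀ i, 0 ≤ r i) {k : ℕ} (W : Matrix (Fin k) (Fin k) (MvPolynomial τ ℚ))
    {B : ℝ} (hB : 0 ≤ B) (h : ∀ i j, pnorm a r (W i j) ≤ B) :
    pnorm a r W.det ≤ k.factorial * B ^ k := by
  rw [Matrix.det_apply]
  refine (pnorm_sum_le hr _ _).trans ?_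
  have h1 : ∀ s ∈ (Finset.univ : Finset (Equiv.Perm (Fin k))),
      pnorm a r (Equiv.Perm.sign s • ∏ i, W (s i) i) ≤ B ^ k := by
    intro s _
    have h2 : pnorm a r (∏ i, W (s i) i) ≤ B ^ k := by
      refine (pnorm_prod_le hr _ _).trans ?_
      calc ∏ i, pnorm a r (W (s i) i) ≤ ∏ _i : Fin k, B :=
            Finset.prod_le_prod (fun i _ => pnorm_nonneg hr _) (fun i _ => h _ _)
        _ = B ^ k := by rw [Finset.prod_const, Finset.card_univ, Fintype.card_fin]
    rcases Int.units_eq_one_or (Equiv.Perm.sign s) with h3 | h3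
    · rw [h3, one_smul]
      exact h2
    · rw [h3, Units.neg_smul, one_smul]
      exact (pnormAux_neg_le hr _).trans h2
  refine (Finset.sum_le_sum h1).trans ?_
  rw [Finset.sum_const, Finset.card_univ, Fintype.card_perm, Fintype.card_fin, nsmul_eq_mul]

end Pool.Agent.Lib.MP_d0d59f_nt.Sb

end

section

namespace Pool.Agent.Lib.MP_d0d59f_nt.Sb

open MvPolynomial

/-- the Hasse derivative `∂^D / D!` -/
noncomputable def hasse {τ R : Type} [Fintype τ] [CommSemiring R] (D : τ →₀ ℕ)
    (p : MvPolynomial τ R) : MvPolynomial τ R :=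
  ∑ e ∈ p.support, monomial (e - D) (coeff e p * ((∏ i, (e i).choose (D i) : ℕ) : R))

/-- the translation `p (X + ξ)` -/
noncomputable def shift {τ : Type} (ξ : τ → ℚ) : MvPolynomial τ ℚ →ₐ[ℚ] MvPolynomial τ ℚ :=
  aeval fun i => X i + C (ξ i)

variable {τ : Type} [Fintype τ] [DecidableEq τ]

/-- If `D ≤ e` fails then the binomial coefficient vanishes; else `e - D = f` iff `e = f + D`. -/
theorem coeff_hasse {R : Type} [CommSemiring R] (D : τ →₀ ℕ) (p : MvPolynomial τ R) (f : τ →₀ ℕ) :
    coeff f (hasse D p) = coeff (f + D) p * ((∏ i, (f i + D i).choose (D i) : ℕ) : R) := by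
  unfold hasse
  rw [coeff_sum]
  have key : ∀ e : τ →₀ ℕ, e ≠ f + D →
      coeff f (monomial (e - D) (coeff e p * ((∏ i, (e i).choose (D i) : ℕ) : R))) = 0 := by
    intro e he
    rw [coeff_monomial]
    split_ifs with h
    · have : ∃ i, e i < D i := by
        by_contra hno
        push Not at hno
        apply he
        ext i
        have := DFunLike.congr_fun h i
        rw [Finsupp.tsub_apply] at this
        rw [Finsupp.add_apply]
        have := hno i
        omega
      obtain ⟨i, hi⟩ := this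
      rw [Finset.prod_eq_zero (Finset.mem_univ i) (Nat.choose_eq_zero_of_lt hi)]
      simp
    · rfl
  by_cases hm : f + D ∈ p.support
  · rw [Finset.sum_eq_single (f + D) (fun e _ he => key e he) (fun h => absurd hm h)]
    rw [add_tsub_cancel_right, coeff_monomial, if_pos rfl]
    simp only [Finsupp.add_apply]
  · rw [notMem_support_iff.mp hm, zero_mul]
    refine Finset.sum_eq_zero fun e he => key e ?_
    rintro rfl
    exact hm he

theorem hasse_add {R : Type} [CommSemiring R] (D : τ →₀ ℕ) (p q : MvPolynomial τ R) :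
    hasse D (p + q) = hasse D p + hasse D q := by
  ext f
  rw [coeff_add, coeff_hasse, coeff_hasse, coeff_hasse, coeff_add, add_mul]

theorem hasse_C_mul {R : Type} [CommSemiring R] (D : τ →₀ ℕ) (c : R) (p : MvPolynomial τ R) :
    hasse D (C c * p) = C c * hasse D p := by
  ext f
  rw [coeff_C_mul, coeff_hasse, coeff_hasse, coeff_C_mul, mul_assoc]

theorem hasse_sum {R : Type} [CommSemiring R] (D : τ →₀ ℕ) {ι : Type} (s : Finset ι)
    (p : ι → MvPolynomial τ R) : hasse D (∑ i ∈ s, p i) = ∑ i ∈ s, hasse D (p i) := by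
  ext f
  rw [coeff_hasse, coeff_sum, coeff_sum, Finset.sum_mul]
  exact Finset.sum_congr rfl fun i _ => (coeff_hasse D (p i) f).symm

theorem hasse_map {R S : Type} [CommSemiring R] [CommSemiring S] (f : R →+* S) (D : τ →₀ ℕ)
    (p : MvPolynomial τ R) : hasse D (map f p) = map f (hasse D p) := by
  ext g
  rw [coeff_hasse, coeff_map, coeff_map, coeff_hasse, map_mul, map_natCast]

theorem degreeOf_hasse_le {R : Type} [CommSemiring R] (D : τ →₀ ℕ) (p : MvPolynomial τ R) (i : τ) :
    degreeOf i (hasse D p) ≤ degreeOf i p := by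
  rw [degreeOf_le_iff]
  intro f hf
  rw [mem_support_iff, coeff_hasse] at hf
  have h1 : f + D ∈ p.support := by
    rw [mem_support_iff]
    intro h0
    exact hf (by rw [h0, zero_mul])
  have h2 := (degreeOf_le_iff (n := i) (f := p)).mp le_rfl _ h1
  rw [Finsupp.add_apply] at h2
  omega

/-- `C(e, D) ≤ 2 ^ e`, and `e i ≤ d i` on the support. -/
theorem pnorm_hasse_le (D : τ →₀ ℕ) (p : MvPolynomial τ ℚ) (d : τ → ℕ)
    (hd : ∀ i, degreeOf i p ≤ d i) :
    pnorm Rat.AbsoluteValue.real (fun _ => 1) (hasse D p) ≤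
      2 ^ (∑ i, d i) * pnorm Rat.AbsoluteValue.real (fun _ => 1) p := by
  have h1 : pnorm Rat.AbsoluteValue.real (fun _ : τ => 1) (hasse D p) ≤
      ∑ e ∈ p.support, pnorm Rat.AbsoluteValue.real (fun _ : τ => 1)
        (monomial (e - D) (coeff e p * ((∏ i, (e i).choose (D i) : ℕ) : ℚ))) := by
    unfold hasse
    exact pnorm_sum_le (fun _ => zero_le_one) _ _
  refine h1.trans ?_
  unfold pnorm
  rw [Finset.mul_sum]
  refine Finset.sum_le_sum fun e he => ?_
  have h2 := pnorm_monomial (a := Rat.AbsoluteValue.real) (r := fun _ : τ => (1 : ℝ))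
    (fun _ => zero_le_one) (e - D) (coeff e p * ((∏ i, (e i).choose (D i) : ℕ) : ℚ))
  unfold pnorm at h2
  rw [h2]
  simp only [one_pow, Finset.prod_const_one, mul_one, map_mul]
  rw [mul_comm]
  refine mul_le_mul_of_nonneg_right ?_ (AbsoluteValue.nonneg _ _)
  have h3 : Rat.AbsoluteValue.real ((∏ i, (e i).choose (D i) : ℕ) : ℚ) =
      ((∏ i, (e i).choose (D i) : ℕ) : ℝ) := by
    simp [Rat.AbsoluteValue.real]
  rw [h3]
  have h4 : (∏ i, (e i).choose (D i)) ≤ 2 ^ (∑ i, d i) := by
    rw [← Finset.prod_pow_eq_pow_sum]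
    refine Finset.prod_le_prod' fun i _ => ?_
    refine (Nat.choose_le_two_pow _ _).trans ?_
    refine Nat.pow_le_pow_right (by norm_num) ?_
    exact ((degreeOf_le_iff (n := i) (f := p)).mp le_rfl _ he).trans (hd i)
  exact_mod_cast h4

end Pool.Agent.Lib.MP_d0d59f_nt.Sb

end

section

namespace Pool.Agent.Lib.MP_d0d59f_nt.Sb

open MvPolynomial

variable {τ : Type} [Fintype τ] [DecidableEq τ]

/-- the homomorphism `p ↦ p (X + Y)` -/
noncomputable def hasse_Phi (τ : Type) : MvPolynomial τ ℚ →ₐ[ℚ] MvPolynomial τ (MvPolynomial τ ℚ) :=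
  aeval fun i => X i + C (X i)

omit [DecidableEq τ] in
theorem hasse_coeff_prod (e : τ →₀ ℕ) (D : τ →₀ ℕ) :
    coeff D (∏ i, (X i + C (X i) : MvPolynomial τ (MvPolynomial τ ℚ)) ^ e i) =
      monomial (e - D) ((∏ i, (e i).choose (D i) : ℕ) : ℚ) := by
  classical
  have h1 : ∀ i, (X i + C (X i) : MvPolynomial τ (MvPolynomial τ ℚ)) ^ e i =
      ∑ k ∈ Finset.range (e i + 1), (X i ^ k * C (X i) ^ (e i - k) *
        (((e i).choose k : ℕ) : MvPolynomial τ (MvPolynomial τ ℚ))) := by
    intro i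
    rw [add_pow]
  simp_rw [h1]
  rw [Finset.prod_univ_sum]
  rw [coeff_sum]
  have h2 : ∀ k ∈ Fintype.piFinset (fun i => Finset.range (e i + 1)),
      coeff D (∏ i, (X i ^ k i * C (X i) ^ (e i - k i) *
        (((e i).choose (k i) : ℕ) : MvPolynomial τ (MvPolynomial τ ℚ)))) =
      if D = Finsupp.equivFunOnFinite.symm k then
        ∏ i, (X i ^ (e i - k i) * (((e i).choose (k i) : ℕ) : MvPolynomial τ ℚ)) else 0 := by
    intro k _
    have h3 : (∏ i, (X i ^ k i * C (X i) ^ (e i - k i) *
        (((e i).choose (k i) : ℕ) : MvPolynomial τ (MvPolynomial τ ℚ)))) =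
        C (∏ i, (X i ^ (e i - k i) * (((e i).choose (k i) : ℕ) : MvPolynomial τ ℚ))) *
          monomial (Finsupp.equivFunOnFinite.symm k) 1 := by
      rw [monomial_eq, map_one, one_mul, map_prod]
      rw [Finsupp.prod_fintype _ _ (by intro i; simp)]
      rw [← Finset.prod_mul_distrib]
      refine Finset.prod_congr rfl fun i _ => ?_
      simp only [Finsupp.equivFunOnFinite_symm_apply_apply, map_mul, map_pow, map_natCast]
      ring
    rw [h3, coeff_C_mul, coeff_monomial]
    by_cases h : D = Finsupp.equivFunOnFinite.symm k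
    · rw [if_pos h, if_pos h.symm, mul_one]
    · rw [if_neg h, if_neg (fun h' => h h'.symm), mul_zero]
  rw [Finset.sum_congr rfl h2]
  have h4 : ∀ k : τ → ℕ, (D = Finsupp.equivFunOnFinite.symm k) ↔ (k = (D : τ → ℕ)) := by
    intro k
    constructor
    · intro h
      rw [h]; rfl
    · intro h
      rw [h]; ext i; rfl
  simp_rw [h4]
  rw [Finset.sum_ite_eq']
  split_ifs with hD
  · have h5 : ∀ i, D i ≤ e i := by
      intro i
      have := Fintype.mem_piFinset.1 hD i
      rw [Finset.mem_range] at this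
      omega
    rw [monomial_eq, Finsupp.prod_fintype _ _ (by intro i; simp), Finset.prod_mul_distrib, mul_comm]
    congr 1
    simp
  · have h5 : ∃ i, e i < D i := by
      by_contra hcon
      push Not at hcon
      apply hD
      rw [Fintype.mem_piFinset]
      intro i
      rw [Finset.mem_range]
      have := hcon i
      omega
    obtain ⟨i, hi⟩ := h5
    rw [Finset.prod_eq_zero (Finset.mem_univ i) (Nat.choose_eq_zero_of_lt hi)]
    simp

omit [DecidableEq τ] in
theorem hasse_eq_coeff (D : τ →₀ ℕ) (p : MvPolynomial τ ℚ) :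
    hasse D p = coeff D (hasse_Phi τ p) := by
  classical
  conv_rhs => rw [p.as_sum]
  rw [map_sum, coeff_sum]
  unfold hasse
  refine Finset.sum_congr rfl fun e _ => ?_
  have h1 : hasse_Phi τ (monomial e (coeff e p)) =
      C (C (coeff e p)) * ∏ i, (X i + C (X i) : MvPolynomial τ (MvPolynomial τ ℚ)) ^ e i := by
    unfold hasse_Phi
    rw [aeval_monomial, Finsupp.prod_fintype _ _ (by intro i; simp)]
    rfl
  rw [h1, coeff_C_mul, hasse_coeff_prod, C_mul_monomial]

/-- Both sides are additive, and for monomials this is a product over the variables of the identity for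
`Polynomial.hasseDeriv`: `hasse D (∏ i, (X i + ξ i) ^ e i) = ∏ i, C(e i, D i) (X i + ξ i) ^ (e i - D i)`.
A way to prove it: `hasse D` is the coefficient of `Y ^ D` in `p (X + Y)`, where `p ↦ p (X + Y)` is the
algebra homomorphism `aeval (fun i => C (X i) + X i) : MvPolynomial τ ℚ → MvPolynomial τ (MvPolynomial τ ℚ)`
(on monomials: the binomial theorem), and the translation of `X` commutes with this homomorphism. -/
theorem shift_hasse (ξ : τ → ℚ) (D : τ →₀ ℕ) (p : MvPolynomial τ ℚ) :
    shift ξ (hasse D p) = hasse D (shift ξ p) := by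
  rw [hasse_eq_coeff, hasse_eq_coeff]
  have h1 : shift ξ (coeff D (hasse_Phi τ p)) =
      coeff D (map (shift ξ).toRingHom (hasse_Phi τ p)) := by
    rw [coeff_map]; rfl
  rw [h1]
  congr 1
  have h2 : ((map (shift ξ).toRingHom).comp (hasse_Phi τ).toRingHom : MvPolynomial τ ℚ →+* _) =
      (hasse_Phi τ).toRingHom.comp (shift ξ).toRingHom := by
    apply MvPolynomial.ringHom_ext
    · intro r
      simp [hasse_Phi, shift]
    · intro i
      simp [hasse_Phi, shift, add_assoc]
  exact DFunLike.congr_fun h2 p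

/-- the inverse of `shift ξ` is `shift (-ξ)` -/
theorem shift_injective (ξ : τ → ℚ) : Function.Injective (shift ξ) := by
  have h : ∀ p, shift (fun i => - ξ i) (shift ξ p) = p := by
    intro p
    have h2 : ((shift (fun i => - ξ i)).comp (shift ξ) : MvPolynomial τ ℚ →ₐ[ℚ] _) = AlgHom.id ℚ _ := by
      apply MvPolynomial.algHom_ext
      intro i
      simp [shift]
    exact DFunLike.congr_fun h2 p
  exact Function.LeftInverse.injective h

end Pool.Agent.Lib.MP_d0d59f_nt.Sb

end
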