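import Pool.Agent.Lib.MP_d0d59f_nt.Sub.PolyNorm

/-!
Balanced exponents; linear substitutions in blocks of variables.
-/

section

namespace Pool.Agent.Lib.MP_d0d59f_nt.Sb

/-- exponents of the multihomogeneous monomials of degree `d` -/
def expSet {M : ℕ} {ι : Type} [Fintype ι] [DecidableEq ι] (d : Fin M → ℕ) :
    Finset (Fin M → ι → ℕ) := Fintype.piFinset fun j => Finset.piAntidiag Finset.univ (d j)

/-- some coordinate has an average different from `1 / n` -/
def Bad {M : ℕ} {ι : Type} [Fintype ι] (ε : ℝ) (d : Fin M → ℕ) (e : Fin M → ι → ℕ) : Prop :=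
  ∃ i, ε * M ≤ |∑ j, (e j i : ℝ) / d j - M / (Fintype.card ι : ℝ)|

theorem CountA_piAntidiag (ι : Type) [Fintype ι] [DecidableEq ι] [Nonempty ι] (m : ℕ) :
    (Finset.piAntidiag (Finset.univ : Finset ι) m).card ≤ (Fintype.card ι) ^ m := by
  induction m with
  | zero =>
    rw [pow_zero, Finset.card_le_one]
    intro e he e' he'
    rw [Finset.mem_piAntidiag] at he he'
    funext i
    have he1 : ∑ j, e j = 0 := he.1
    have he1' : ∑ j, e' j = 0 := he'.1
    have h1 : e i ≤ ∑ j, e j := Finset.single_le_sum (fun _ _ => Nat.zero_le _) (Finset.mem_univ i)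
    have h2 : e' i ≤ ∑ j, e' j :=
      Finset.single_le_sum (fun _ _ => Nat.zero_le _) (Finset.mem_univ i)
    omega
  | succ m ih =>
    have hsub : Finset.piAntidiag (Finset.univ : Finset ι) (m + 1) ⊆
        ((Finset.univ : Finset ι) ×ˢ Finset.piAntidiag (Finset.univ : Finset ι) m).image
          (fun p => Function.update p.2 p.1 (p.2 p.1 + 1)) := by
      intro e he
      rw [Finset.mem_piAntidiag] at he
      have he1 : ∑ j, e j = m + 1 := he.1
      have hex : ∃ i, e i ≠ 0 := by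
        by_contra hcon
        push Not at hcon
        have : ∑ j, e j = 0 := Finset.sum_eq_zero fun j _ => hcon j
        omega
      obtain ⟨i, hi⟩ := hex
      rw [Finset.mem_image]
      refine ⟨(i, Function.update e i (e i - 1)), ?_, ?_⟩
      · rw [Finset.mem_product, Finset.mem_piAntidiag]
        refine ⟨Finset.mem_univ _, ?_, fun _ _ => Finset.mem_univ _⟩
        have h1 := Finset.sum_update_of_mem (Finset.mem_univ i) e (e i - 1)
        have h2 := Finset.sum_update_of_mem (Finset.mem_univ i) e (e i)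
        rw [Function.update_eq_self] at h2
        change ∑ j, Function.update e i (e i - 1) j = m
        rw [h1]
        omega
      · funext j
        by_cases hj : j = i
        · subst hj
          simp only [Function.update_self]
          omega
        · simp only [Function.update_of_ne hj]
    calc (Finset.piAntidiag (Finset.univ : Finset ι) (m + 1)).card
        ≤ _ := Finset.card_le_card hsub
      _ ≤ _ := Finset.card_image_le
      _ = Fintype.card ι * (Finset.piAntidiag (Finset.univ : Finset ι) m).card := by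
          rw [Finset.card_product, Finset.card_univ]
      _ ≤ Fintype.card ι * Fintype.card ι ^ m := Nat.mul_le_mul_left _ ih
      _ = Fintype.card ι ^ (m + 1) := by rw [pow_succ, Nat.mul_comm]

/-- `card (piAntidiag univ m) ≤ n ^ m`: induction on `m`, every function with sum `m + 1` is obtained from a
function with sum `m` by adding one at one of the `n` places. -/
theorem card_expSet_le {M : ℕ} (ι : Type) [Fintype ι] [DecidableEq ι] [Nonempty ι] (d : Fin M → ℕ) :
    (expSet (ι := ι) d).card ≤ (Fintype.card ι) ^ (∑ j, d j) := by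
  unfold expSet
  rw [Fintype.card_piFinset, ← Finset.prod_pow_eq_pow_sum]
  exact Finset.prod_le_prod' fun j _ => CountA_piAntidiag ι (d j)

end Pool.Agent.Lib.MP_d0d59f_nt.Sb

end

section

namespace Pool.Agent.Lib.MP_d0d59f_nt.Sb

private theorem Count_sym {ι : Type} [Fintype ι] [DecidableEq ι] (m : ℕ) (i i' : ι) :
    ∑ g ∈ Finset.piAntidiag (Finset.univ : Finset ι) m, (g i : ℝ) =
      ∑ g ∈ Finset.piAntidiag (Finset.univ : Finset ι) m, (g i' : ℝ) := by
  refine Finset.sum_bij' (fun g _ => fun x => g (Equiv.swap i i' x))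
    (fun g _ => fun x => g (Equiv.swap i i' x)) ?_ ?_ ?_ ?_ ?_
  · intro g hg
    rw [Finset.mem_piAntidiag] at hg ⊢
    refine ⟨?_, fun _ _ => Finset.mem_univ _⟩
    rw [← hg.1]
    exact Equiv.sum_comp (Equiv.swap i i') g
  · intro g hg
    rw [Finset.mem_piAntidiag] at hg ⊢
    refine ⟨?_, fun _ _ => Finset.mem_univ _⟩
    rw [← hg.1]
    exact Equiv.sum_comp (Equiv.swap i i') g
  · intro g _
    funext x
    simp
  · intro g _
    funext x
    simp
  · intro g _
    simp

private theorem Count_mean {ι : Type} [Fintype ι] [DecidableEq ι] [Nonempty ι] (m : ℕ) (hm : 0 < m)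
    (i : ι) :
    ∑ g ∈ Finset.piAntidiag (Finset.univ : Finset ι) m,
      ((g i : ℝ) / m - 1 / (Fintype.card ι : ℝ)) = 0 := by
  have hn : (0 : ℝ) < Fintype.card ι := by exact_mod_cast Fintype.card_pos
  have hm' : (0 : ℝ) < m := by exact_mod_cast hm
  have h1 : (Fintype.card ι : ℝ) * ∑ g ∈ Finset.piAntidiag (Finset.univ : Finset ι) m, (g i : ℝ) =
      (m : ℝ) * (Finset.piAntidiag (Finset.univ : Finset ι) m).card := by
    have h2 : ∑ i' : ι, ∑ g ∈ Finset.piAntidiag (Finset.univ : Finset ι) m, (g i' : ℝ) =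
        (Fintype.card ι : ℝ) * ∑ g ∈ Finset.piAntidiag (Finset.univ : Finset ι) m, (g i : ℝ) := by
      rw [Finset.sum_congr rfl (fun i' _ => Count_sym m i' i), Finset.sum_const, Finset.card_univ,
        nsmul_eq_mul]
    rw [← h2, Finset.sum_comm]
    have h3 : ∀ g ∈ Finset.piAntidiag (Finset.univ : Finset ι) m, ∑ i' : ι, (g i' : ℝ) = m := by
      intro g hg
      rw [Finset.mem_piAntidiag] at hg
      rw [← hg.1]
      push_cast
      rfl
    rw [Finset.sum_congr rfl h3, Finset.sum_const, nsmul_eq_mul]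
    ring
  rw [Finset.sum_sub_distrib, Finset.sum_const, nsmul_eq_mul, ← Finset.sum_div]
  field_simp
  linarith

private theorem Count_abs {ι : Type} [Fintype ι] [DecidableEq ι] [Nonempty ι] (m : ℕ) (hm : 0 < m)
    (i : ι) (g : ι → ℕ) (hg : g ∈ Finset.piAntidiag (Finset.univ : Finset ι) m) :
    ((g i : ℝ) / m - 1 / (Fintype.card ι : ℝ)) ^ 2 ≤ 1 := by
  have hn : (1 : ℝ) ≤ Fintype.card ι := by exact_mod_cast Fintype.card_pos
  have hm' : (0 : ℝ) < m := by exact_mod_cast hm
  have h1 : g i ≤ m := by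
    rw [Finset.mem_piAntidiag] at hg
    rw [← hg.1]
    exact Finset.single_le_sum (fun _ _ => Nat.zero_le _) (Finset.mem_univ i)
  have h1' : (g i : ℝ) ≤ m := by exact_mod_cast h1
  have h2 : (g i : ℝ) / m ≤ 1 := by rw [div_le_one hm']; exact h1'
  have h3 : 0 ≤ (g i : ℝ) / m := by positivity
  have h4 : 1 / (Fintype.card ι : ℝ) ≤ 1 := by
    rw [div_le_one (by linarith)]; exact hn
  have h5 : 0 ≤ 1 / (Fintype.card ι : ℝ) := by positivity
  rw [sq_le_one_iff_abs_le_one, abs_le]
  constructor <;> linarith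

private theorem Count_cross {M : ℕ} {ι : Type} [Fintype ι] [DecidableEq ι]
    (A : Fin M → Finset (ι → ℕ)) (X : Fin M → (ι → ℕ) → ℝ)
    (hX : ∀ j, ∑ g ∈ A j, X j g = 0) {j j' : Fin M} (hj : j ≠ j') :
    ∑ e ∈ Fintype.piFinset A, X j (e j) * X j' (e j') = 0 := by
  have h1 : ∀ e : Fin M → ι → ℕ, X j (e j) * X j' (e j') =
      ∏ k, ((if k = j then X j (e k) else 1) * (if k = j' then X j' (e k) else 1)) := by
    intro e
    rw [Finset.prod_mul_distrib, Finset.prod_ite_eq' Finset.univ j, Finset.prod_ite_eq' Finset.univ j']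
    simp
  rw [Finset.sum_congr rfl (fun e _ => h1 e)]
  rw [← Finset.prod_univ_sum A
    (fun k g => (if k = j then X j g else 1) * (if k = j' then X j' g else 1))]
  refine Finset.prod_eq_zero (Finset.mem_univ j) ?_
  rw [← hX j]
  refine Finset.sum_congr rfl (fun g _ => ?_)
  rw [if_pos rfl, if_neg hj, mul_one]

private theorem Count_second {M : ℕ} {ι : Type} [Fintype ι] [DecidableEq ι]
    (A : Fin M → Finset (ι → ℕ)) (X : Fin M → (ι → ℕ) → ℝ)
    (hX : ∀ j, ∑ g ∈ A j, X j g = 0) (hX1 : ∀ j, ∀ g ∈ A j, X j g ^ 2 ≤ 1) :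
    ∑ e ∈ Fintype.piFinset A, (∑ j, X j (e j)) ^ 2 ≤ M * (Fintype.piFinset A).card := by
  have h1 : ∑ e ∈ Fintype.piFinset A, (∑ j, X j (e j)) ^ 2 =
      ∑ j, ∑ j', ∑ e ∈ Fintype.piFinset A, X j (e j) * X j' (e j') := by
    rw [Finset.sum_congr rfl (fun j _ => Finset.sum_comm), Finset.sum_comm]
    refine Finset.sum_congr rfl (fun e _ => ?_)
    rw [sq, Finset.sum_mul_sum]
  have h2 : ∀ j, ∑ j', ∑ e ∈ Fintype.piFinset A, X j (e j) * X j' (e j') ≤
      (Fintype.piFinset A).card := by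
    intro j
    rw [Finset.sum_eq_single j (fun j' _ hj => Count_cross A X hX (Ne.symm hj))
      (fun h => absurd (Finset.mem_univ j) h)]
    have : ∀ e ∈ Fintype.piFinset A, X j (e j) * X j (e j) ≤ 1 := by
      intro e he
      rw [← sq]
      exact hX1 j _ (Fintype.mem_piFinset.1 he j)
    calc ∑ e ∈ Fintype.piFinset A, X j (e j) * X j (e j) ≤ ∑ e ∈ Fintype.piFinset A, (1 : ℝ) :=
          Finset.sum_le_sum this
      _ = (Fintype.piFinset A).card := by rw [Finset.sum_const, nsmul_eq_mul, mul_one]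
  rw [h1]
  calc _ ≤ ∑ j : Fin M, ((Fintype.piFinset A).card : ℝ) := Finset.sum_le_sum (fun j _ => h2 j)
    _ = _ := by rw [Finset.sum_const, Finset.card_univ, Fintype.card_fin, nsmul_eq_mul]

/-- Let `n = card ι`, `N = card (expSet d)`, and for `i` fixed `X j e = e j i / d j - 1 / n`, `|X j e| ≤ 1`.
The sum of `X j e` over all `e` is zero: by symmetry the sums of `e j i` for the different `i` are
equal (permutation of the coordinates `i` for all `j`), and their sum is `d j * N`. For `j ≠ j'` the sum of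
`X j e * X j' e` over `e` is zero (`Fintype.piFinset` is a product;
`Finset.prod_univ_sum`, or: for a fixed value of all `e j''`, `j'' ≠ j`, the sum over `e j` is zero). So
`∑ e, (∑ j, X j e) ^ 2 = ∑ j, ∑ e, (X j e) ^ 2 ≤ M N`, and the number of the `e` with
`|∑ j, X j e| ≥ ε M` is at most `M N / (ε M) ^ 2 = N / (ε ^ 2 M)`. Sum over `i`:
`n N / (ε ^ 2 M) ≤ N / 6` for `M ≥ 6 n / ε ^ 2`. -/
theorem card_bad_le (ι : Type) [Fintype ι] [DecidableEq ι] [Nonempty ι] {ε : ℝ} (hε : 0 < ε) :
    ∃ M₀ : ℕ, ∀ M ≥ M₀, ∀ d : Fin M → ℕ, (∀ j, 0 < d j) → ∀ s : Finset (Fin M → ι → ℕ),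
      s ⊆ expSet d → (∀ e ∈ s, Bad ε d e) → 6 * s.card ≤ (expSet (ι := ι) d).card := by
  have hn : (0 : ℝ) < Fintype.card ι := by exact_mod_cast Fintype.card_pos
  refine ⟨max 1 ⌈6 * (Fintype.card ι : ℝ) / ε ^ 2⌉₊, ?_⟩
  intro M hM d hd s hs hbad
  have hM1 : 1 ≤ M := (le_max_left _ _).trans hM
  have hM2 : 6 * (Fintype.card ι : ℝ) / ε ^ 2 ≤ M :=
    (Nat.le_ceil _).trans (by exact_mod_cast (le_max_right _ _).trans hM)
  have hMpos : (0 : ℝ) < M := by exact_mod_cast hM1
  have hM3 : 6 * (Fintype.card ι : ℝ) ≤ M * ε ^ 2 := by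
    rwa [div_le_iff₀ (by positivity)] at hM2
  classical
  -- one coordinate
  have hone : ∀ i : ι, ((s.filter fun e => ε * M ≤
      |∑ j, (e j i : ℝ) / d j - M / (Fintype.card ι : ℝ)|).card : ℝ) * (ε ^ 2 * M) ≤
      (expSet (ι := ι) d).card := by
    intro i
    set X : Fin M → (ι → ℕ) → ℝ := fun j g => (g i : ℝ) / d j - 1 / (Fintype.card ι : ℝ) with hXdef
    have hsec := Count_second (fun j => Finset.piAntidiag (Finset.univ : Finset ι) (d j)) X
      (fun j => Count_mean (d j) (hd j) i) (fun j g hg => Count_abs (d j) (hd j) i g hg)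
    have hsum : ∀ e : Fin M → ι → ℕ, ∑ j, (e j i : ℝ) / d j - M / (Fintype.card ι : ℝ) =
        ∑ j, X j (e j) := by
      intro e
      simp only [hXdef]
      rw [Finset.sum_sub_distrib, Finset.sum_const, Finset.card_univ, Fintype.card_fin,
        nsmul_eq_mul]
      ring
    have h1 : ((s.filter fun e => ε * M ≤
        |∑ j, (e j i : ℝ) / d j - M / (Fintype.card ι : ℝ)|).card : ℝ) * (ε * M) ^ 2 ≤
        ∑ e ∈ expSet (ι := ι) d, (∑ j, X j (e j)) ^ 2 := by
      calc ((s.filter fun e => ε * M ≤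
          |∑ j, (e j i : ℝ) / d j - M / (Fintype.card ι : ℝ)|).card : ℝ) * (ε * M) ^ 2
          = ∑ e ∈ s.filter (fun e => ε * M ≤
          |∑ j, (e j i : ℝ) / d j - M / (Fintype.card ι : ℝ)|), (ε * M) ^ 2 := by
            rw [Finset.sum_const, nsmul_eq_mul]
        _ ≤ ∑ e ∈ s.filter (fun e => ε * M ≤
          |∑ j, (e j i : ℝ) / d j - M / (Fintype.card ι : ℝ)|), (∑ j, X j (e j)) ^ 2 := by
            refine Finset.sum_le_sum (fun e he => ?_)
            have h2 := (Finset.mem_filter.1 he).2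
            rw [hsum] at h2
            rw [← sq_abs (∑ j, X j (e j))]
            exact pow_le_pow_left₀ (by positivity) h2 2
        _ ≤ _ := by
            refine Finset.sum_le_sum_of_subset_of_nonneg
              ((Finset.filter_subset _ _).trans hs) (fun _ _ _ => sq_nonneg _)
    have h3 := h1.trans hsec
    have h4 : ((expSet (ι := ι) d).card : ℝ) =
        (Fintype.piFinset fun j => Finset.piAntidiag (Finset.univ : Finset ι) (d j)).card := rfl
    rw [h4]
    have h5 : ((s.filter fun e => ε * M ≤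
        |∑ j, (e j i : ℝ) / d j - M / (Fintype.card ι : ℝ)|).card : ℝ) * (ε * M) ^ 2 =
        M * (((s.filter fun e => ε * M ≤
        |∑ j, (e j i : ℝ) / d j - M / (Fintype.card ι : ℝ)|).card : ℝ) * (ε ^ 2 * M)) := by ring
    rw [h5] at h3
    exact le_of_mul_le_mul_left h3 hMpos
  have hcover : s ⊆ Finset.univ.biUnion (fun i : ι => s.filter fun e => ε * M ≤
      |∑ j, (e j i : ℝ) / d j - M / (Fintype.card ι : ℝ)|) := by
    intro e he
    obtain ⟨i, hi⟩ := hbad e he
    exact Finset.mem_biUnion.2 ⟨i, Finset.mem_univ i, Finset.mem_filter.2 ⟨he, hi⟩⟩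
  have hc1 : (s.card : ℝ) ≤ ∑ i : ι, ((s.filter fun e => ε * M ≤
      |∑ j, (e j i : ℝ) / d j - M / (Fintype.card ι : ℝ)|).card : ℝ) := by
    exact_mod_cast (Finset.card_le_card hcover).trans Finset.card_biUnion_le
  have hc2 : (s.card : ℝ) * (ε ^ 2 * M) ≤ Fintype.card ι * (expSet (ι := ι) d).card := by
    calc (s.card : ℝ) * (ε ^ 2 * M) ≤ (∑ i : ι, ((s.filter fun e => ε * M ≤
      |∑ j, (e j i : ℝ) / d j - M / (Fintype.card ι : ℝ)|).card : ℝ)) * (ε ^ 2 * M) :=
          mul_le_mul_of_nonneg_right hc1 (by positivity)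
      _ ≤ ∑ i : ι, ((expSet (ι := ι) d).card : ℝ) := by
          rw [Finset.sum_mul]
          exact Finset.sum_le_sum (fun i _ => hone i)
      _ = _ := by rw [Finset.sum_const, Finset.card_univ, nsmul_eq_mul]
  have hs0 : (0 : ℝ) ≤ s.card := Nat.cast_nonneg _
  have hc3 : (s.card : ℝ) * (6 * (Fintype.card ι : ℝ)) ≤
      Fintype.card ι * (expSet (ι := ι) d).card := by
    refine le_trans ?_ hc2
    refine mul_le_mul_of_nonneg_left ?_ hs0
    linarith
  have hc4 : (Fintype.card ι : ℝ) * (6 * s.card) ≤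
      Fintype.card ι * (expSet (ι := ι) d).card := by
    calc (Fintype.card ι : ℝ) * (6 * s.card) = (s.card : ℝ) * (6 * (Fintype.card ι : ℝ)) := by ring
      _ ≤ _ := hc3
  have hc5 := le_of_mul_le_mul_left hc4 hn
  exact_mod_cast hc5

end Pool.Agent.Lib.MP_d0d59f_nt.Sb

end

section

namespace Pool.Agent.Lib.MP_d0d59f_nt.Sb

open MvPolynomial

variable {M : ℕ} {ι : Type} [Fintype ι] [DecidableEq ι]

/-- `P (B x)`: the substitution `x_{j i} ↦ ∑ k, B j i k * x_{j k}` -/
noncomputable def lsub (B : Fin M → Matrix ι ι ℚ) :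
    MvPolynomial (Fin M × ι) ℚ →ₐ[ℚ] MvPolynomial (Fin M × ι) ℚ :=
  aeval fun x => ∑ k, C (B x.1 x.2 k) * X (x.1, k)

/-- `P` is homogeneous of degree `d j` in the block `j` -/
def MHom (d : Fin M → ℕ) (P : MvPolynomial (Fin M × ι) ℚ) : Prop :=
  ∀ e ∈ P.support, ∀ j, ∑ i, e (j, i) = d j

theorem LsubA_X (B : Fin M → Matrix ι ι ℚ) (x : Fin M × ι) :
    lsub B (X x) = ∑ k, C (B x.1 x.2 k) * X (x.1, k) := by
  unfold lsub
  rw [aeval_X]

theorem LsubA_C (B : Fin M → Matrix ι ι ℚ) (c : ℚ) :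
    lsub B (C c) = C c := by
  unfold lsub
  rw [aeval_C]
  rfl

/-- `(P (B x)) (B' x) = P (B B' x)` -/
theorem lsub_lsub (B B' : Fin M → Matrix ι ι ℚ) (P : MvPolynomial (Fin M × ι) ℚ) :
    lsub B' (lsub B P) = lsub (fun j => B j * B' j) P := by
  have h : (lsub B').comp (lsub B) = lsub (fun j => B j * B' j) := by
    apply MvPolynomial.algHom_ext
    intro x
    rw [AlgHom.comp_apply, LsubA_X, LsubA_X, map_sum]
    simp only [map_mul, LsubA_C, LsubA_X, Finset.mul_sum, Matrix.mul_apply, map_sum, Finset.sum_mul]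
    rw [Finset.sum_comm]
    refine Finset.sum_congr rfl fun l _ => Finset.sum_congr rfl fun k _ => ?_
    ring
  exact DFunLike.congr_fun h P

theorem lsub_one (P : MvPolynomial (Fin M × ι) ℚ) : lsub (fun _ => 1) P = P := by
  have h : lsub (fun _ : Fin M => (1 : Matrix ι ι ℚ)) = AlgHom.id ℚ _ := by
    apply MvPolynomial.algHom_ext
    intro x
    rw [LsubA_X, AlgHom.id_apply, Finset.sum_eq_single x.2]
    · rw [Matrix.one_apply_eq, C_1, one_mul]
    · intro k _ hk
      rw [Matrix.one_apply_ne hk.symm, C_0, zero_mul]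
    · intro hx
      exact absurd (Finset.mem_univ _) hx
  rw [h, AlgHom.id_apply]

/-- `lsub` is injective for invertible matrices -/
theorem lsub_ne_zero {B : Fin M → Matrix ι ι ℚ} (hB : ∀ j, (B j).det ≠ 0)
    {P : MvPolynomial (Fin M × ι) ℚ} (hP : P ≠ 0) : lsub B P ≠ 0 := by
  intro h0
  apply hP
  have h1 : lsub (fun j => (B j)⁻¹) (lsub B P) = P := by
    rw [lsub_lsub]
    have h2 : (fun j => B j * (B j)⁻¹) = fun _ : Fin M => (1 : Matrix ι ι ℚ) := by
      funext j
      exact Matrix.mul_nonsing_inv _ (isUnit_iff_ne_zero.mpr (hB j))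
    rw [h2, lsub_one]
  rw [← h1, h0, map_zero]

/-- the multidegree as a weight -/
def LsubA_w (x : Fin M × ι) : Fin M → ℕ := Pi.single x.1 1

omit [DecidableEq ι] in
theorem LsubA_weight (e : (Fin M × ι) →₀ ℕ) (j : Fin M) :
    Finsupp.weight (LsubA_w (M := M) (ι := ι)) e j = ∑ i, e (j, i) := by
  rw [Finsupp.weight_apply, Finsupp.sum_fintype _ _ (by simp), Finset.sum_apply,
    Fintype.sum_prod_type, Finset.sum_eq_single j]
  · refine Finset.sum_congr rfl fun i _ => ?_
    rw [Pi.smul_apply, LsubA_w, Pi.single_eq_same, smul_eq_mul, mul_one]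
  · intro j' _ hj
    refine Finset.sum_eq_zero fun i _ => ?_
    rw [Pi.smul_apply, LsubA_w, Pi.single_eq_of_ne hj.symm, smul_zero]
  · intro hx
    exact absurd (Finset.mem_univ _) hx

omit [DecidableEq ι] in
theorem LsubA_iff (d : Fin M → ℕ) (P : MvPolynomial (Fin M × ι) ℚ) :
    MHom d P ↔ IsWeightedHomogeneous (LsubA_w (M := M) (ι := ι)) P d := by
  constructor
  · intro h e he
    funext j
    rw [LsubA_weight]
    exact h e (mem_support_iff.mpr he) j
  · intro h e he j
    rw [← LsubA_weight, h (mem_support_iff.mp he)]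

omit [DecidableEq ι] in
theorem LsubA_factor (B : Fin M → Matrix ι ι ℚ) (x : Fin M × ι) :
    IsWeightedHomogeneous (LsubA_w (M := M) (ι := ι)) (∑ k, C (B x.1 x.2 k) * X (x.1, k)) (LsubA_w x) := by
  apply IsWeightedHomogeneous.sum
  intro k _
  apply IsWeightedHomogeneous.C_mul
  exact isWeightedHomogeneous_X ℚ _ _

/-- on monomials: every factor `∑ k, C (B j i k) * X (j, k)` is homogeneous of degree one in the block `j` -/
theorem MHom.lsub {d : Fin M → ℕ} {P : MvPolynomial (Fin M × ι) ℚ} (hP : MHom d P)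
    (B : Fin M → Matrix ι ι ℚ) : MHom d (lsub B P) := by
  rw [LsubA_iff] at hP ⊢
  rw [P.as_sum, map_sum]
  apply IsWeightedHomogeneous.sum
  intro e he
  have hw : Finsupp.weight (LsubA_w (M := M) (ι := ι)) e = d := hP (mem_support_iff.mp he)
  rw [monomial_eq, map_mul, LsubA_C]
  apply IsWeightedHomogeneous.C_mul
  rw [← hw, Finsupp.weight_apply, Finsupp.prod, map_prod, Finsupp.sum]
  apply IsWeightedHomogeneous.prod
  intro x _
  rw [map_pow, LsubA_X]
  exact (LsubA_factor B x).pow (e x)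

end Pool.Agent.Lib.MP_d0d59f_nt.Sb

end

section

namespace Pool.Agent.Lib.MP_d0d59f_nt.Sb

open MvPolynomial

variable {M : ℕ} {ι : Type} [Fintype ι] [DecidableEq ι]

/-- the polynomials with coefficients in `R` -/
noncomputable def Lsub_ring (R : Subring ℚ) (σ : Type) : Subring (MvPolynomial σ ℚ) where
  carrier := {P | ∀ e, coeff e P ∈ R}
  mul_mem' := by
    classical
    intro P Q hP hQ e
    rw [coeff_mul]
    exact R.sum_mem fun x _ => R.mul_mem (hP _) (hQ _)
  one_mem' := by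
    classical
    intro e
    rw [coeff_one]
    split_ifs
    · exact R.one_mem
    · exact R.zero_mem
  add_mem' := by
    intro P Q hP hQ e
    rw [coeff_add]
    exact R.add_mem (hP _) (hQ _)
  zero_mem' := by
    intro e
    rw [coeff_zero]
    exact R.zero_mem
  neg_mem' := by
    intro P hP e
    rw [coeff_neg]
    exact R.neg_mem (hP _)

theorem Lsub_C_mem (R : Subring ℚ) (σ : Type) {c : ℚ} (hc : c ∈ R) :
    (C c : MvPolynomial σ ℚ) ∈ Lsub_ring R σ := by
  classical
  intro e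
  rw [coeff_C]
  split_ifs
  · exact hc
  · exact R.zero_mem

theorem Lsub_X_mem (R : Subring ℚ) (σ : Type) (i : σ) :
    (X i : MvPolynomial σ ℚ) ∈ Lsub_ring R σ := by
  classical
  intro e
  rw [coeff_X']
  split_ifs
  · exact R.one_mem
  · exact R.zero_mem

/-- If `B j i k ∈ R` and the coefficients of `P` are in `R` then so are those of `lsub B P`. -/
theorem coeff_lsub_mem (R : Subring ℚ) {B : Fin M → Matrix ι ι ℚ} (hB : ∀ j i k, B j i k ∈ R)
    {P : MvPolynomial (Fin M × ι) ℚ} (hP : ∀ e, coeff e P ∈ R) (e : (Fin M × ι) →₀ ℕ) :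
    coeff e (lsub B P) ∈ R := by
  have h : lsub B P ∈ Lsub_ring R (Fin M × ι) := by
    rw [lsub, aeval_def]
    refine eval₂_mem (fun e _ => ?_) fun x => ?_
    · exact Lsub_C_mem R _ (hP e)
    · exact Subring.sum_mem _ fun k _ =>
        Subring.mul_mem _ (Lsub_C_mem R _ (hB _ _ _)) (Lsub_X_mem R _ _)
  exact h e

/-- `pnorm_aeval_le` and `pnorm_sum_le`, `pnorm_mul_le`, `pnorm_C`, `pnorm_X`, `pnorm_mono` -/
theorem pnorm_lsub_le (a : AbsoluteValue ℚ ℝ) {r ρ : Fin M × ι → ℝ} (hr : ∀ x, 0 ≤ r x)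
    (B : Fin M → Matrix ι ι ℚ) (P : MvPolynomial (Fin M × ι) ℚ)
    (hρ : ∀ x, ∑ k, a (B x.1 x.2 k) * r (x.1, k) ≤ ρ x) :
    pnorm a r (lsub B P) ≤ pnorm a ρ P := by
  rw [lsub]
  refine (pnorm_aeval_le hr _ P).trans (pnorm_mono (fun x => pnorm_nonneg hr _) (fun x => ?_) P)
  refine (pnorm_sum_le hr _ _).trans ((Finset.sum_le_sum fun k _ => ?_).trans (hρ x))
  refine (pnorm_mul_le hr _ _).trans (le_of_eq ?_)
  rw [pnorm_C, pnorm_X]

/-- If every monomial of `P` has weight at most `B` then `pnorm a r P ≤ B * pnorm a 1 P`. -/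
theorem pnorm_le_of_support (a : AbsoluteValue ℚ ℝ) {r : Fin M × ι → ℝ}
    (P : MvPolynomial (Fin M × ι) ℚ) {B : ℝ} (h : ∀ e ∈ P.support, ∏ x, r x ^ e x ≤ B) :
    pnorm a r P ≤ B * pnorm a (fun _ => 1) P := by
  rw [pnorm, pnorm, Finset.mul_sum]
  refine Finset.sum_le_sum fun e he => ?_
  simp only [one_pow, Finset.prod_const_one, mul_one]
  rw [mul_comm B]
  exact mul_le_mul_of_nonneg_left (h e he) (a.nonneg _)

/-- the number of monomials is at most `n ^ ∑ d` (`card_expSet_le`) -/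
theorem pnorm_one_le [Nonempty ι] (a : AbsoluteValue ℚ ℝ) {d : Fin M → ℕ}
    {P : MvPolynomial (Fin M × ι) ℚ} (hP : MHom d P) {B : ℝ} (hB : 0 ≤ B)
    (h : ∀ e, a (coeff e P) ≤ B) :
    pnorm a (fun _ => 1) P ≤ (Fintype.card ι : ℝ) ^ (∑ j, d j) * B := by
  have h1 : pnorm a (fun _ => 1) P ≤ (P.support.card : ℝ) * B := by
    rw [pnorm, ← nsmul_eq_mul]
    refine Finset.sum_le_card_nsmul _ _ _ fun e _ => ?_
    simp only [one_pow, Finset.prod_const_one, mul_one]
    exact h e
  have h2 : P.support.card ≤ (expSet (ι := ι) d).card := by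
    refine Finset.card_le_card_of_injOn (fun e j i => e (j, i)) (fun e he => ?_) ?_
    · rw [Finset.mem_coe, expSet, Fintype.mem_piFinset]
      intro j
      rw [Finset.mem_piAntidiag]
      exact ⟨hP e he j, fun i _ => Finset.mem_univ i⟩
    · intro e _ e' _ hee
      ext ⟨j, i⟩
      exact congrFun (congrFun hee j) i
  have h3 : (P.support.card : ℝ) ≤ (Fintype.card ι : ℝ) ^ (∑ j, d j) := by
    exact_mod_cast h2.trans (card_expSet_le ι d)
  exact h1.trans (mul_le_mul_of_nonneg_right h3 hB)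

end Pool.Agent.Lib.MP_d0d59f_nt.Sb

end
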